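import Pool.Agent.P.MP_5aae23_gt.Core

/-! From a decomposition into Hilbertian blocks to the data of the construction. -/

set_option autoImplicit false

open Filter Topology

universe u

namespace Pool.Agent.HB

variable {X : Type u} [NormedAddCommGroup X] [NormedSpace ℝ X]

theorem of_rate (P : ℕ → X →L[ℝ] X) (hP : ∀ j k x, P j (P k x) = P (min j k) x) (C : ℝ)
    (hC : ∀ k, ‖P k‖ ≤ C) (F : ℕ → Type u) [∀ k, NormedAddCommGroup (F k)]
    [∀ k, InnerProductSpace ℝ (F k)] (e : ∀ k, LinearMap.range (P k : X →ₗ[ℝ] X) ≃L[ℝ] F k)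
    (hr : ∀ x, ∀ᶠ k in atTop, ‖x - P k x‖ ≤ (1 / 2) ^ (k + 1) / 8 / (1 + C)) :
    ∃ (G : Type u) (_ : NormedAddCommGroup G) (_ : InnerProductSpace ℝ G), Nonempty (X ≃ₜ G) := by
  have hC0 : 0 ≤ C := (norm_nonneg _).trans (hC 0)
  let R : ℕ → X →L[ℝ] X := fun k => k.casesOn (.id ℝ X) fun j => .id ℝ X - P j
  have RR : ∀ j k x, R j (R k x) = R (max j k) x := by
    rintro (_ | j) (_ | k) x
    · rfl
    · rfl
    · rfl
    · rw [Nat.succ_max_succ]
      show x - P k x - P j (x - P k x) = x - P (max j k) x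
      rw [map_sub, hP]
      rcases le_total j k with h | h
      · rw [min_eq_left h, max_eq_right h, sub_self, sub_zero]
      · rw [min_eq_right h, max_eq_left h]
        abel
  have Rle : ∀ k x, ‖R k x‖ ≤ (1 + C) * ‖x‖ := by
    rintro (_ | k) x
    · exact le_mul_of_one_le_left (norm_nonneg _) (by linarith)
    · refine (norm_sub_le x (P k x)).trans ?_
      linarith [(P k).le_of_opNorm_le (hC k) x]
  have bd : ∀ x, BddAbove (Set.range fun k => ‖R k x‖) := fun x =>
    ⟨_, Set.forall_mem_range.2 fun k => Rle k x⟩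
  let ν : Seminorm ℝ X := .ofSMulLE (fun x => ⨆ k, ‖R k x‖) (by simp)
    (fun x y => ciSup_le fun k => by
      rw [map_add]
      exact (norm_add_le _ _).trans (add_le_add (le_ciSup (bd x) k) (le_ciSup (bd y) k)))
    fun c x => ciSup_le fun k => by
      rw [map_smul, norm_smul]
      exact mul_le_mul_of_nonneg_left (le_ciSup (bd x) k) (norm_nonneg c)
  have νle : ∀ x, ν x ≤ (1 + C) * ‖x‖ := fun x => ciSup_le fun k => Rle k x
  have hm : ∀ k x, (R k - R (k + 1)) x ∈ LinearMap.range (P k : X →ₗ[ℝ] X) := by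
    rintro (_ | k) x
    · exact ⟨x, (sub_sub_cancel x (P 0 x)).symm⟩
    · refine ⟨x - P k x, ?_⟩
      show P (k + 1) (x - P k x) = x - P k x - (x - P (k + 1) x)
      rw [map_sub, hP, min_eq_right k.le_succ]
      abel
  let J0 : ∀ k, X →L[ℝ] F k := fun k =>
    (e k : _ →L[ℝ] F k).comp ((R k - R (k + 1)).codRestrict _ (hm k))
  have h0 : ∀ k, 0 < (1 / 2 : ℝ) ^ k / (‖J0 k‖ + 1) := fun k => by positivity
  have hJ : ∀ k x y, (R k - R (k + 1)) x = (R k - R (k + 1)) y → J0 k x = J0 k y :=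
    fun k x y h => congrArg (e k) (Subtype.ext h)
  let D : Dat X F :=
    { R := R
      ν := ν
      J := fun k => ((1 / 2 : ℝ) ^ k / (‖J0 k‖ + 1)) • J0 k
      c := fun k => ‖(e k).symm.toContinuousLinearMap‖ / ((1 / 2 : ℝ) ^ k / (‖J0 k‖ + 1))
      R0 := fun _ => rfl
      RR := RR
      le := fun x => le_ciSup (bd x) 0
      cont := (LipschitzWith.of_dist_le' (K := 1 + C) fun x y => by
        rw [dist_eq_norm x]
        exact (abs_sub_map_le_sub ν x y).trans (νle _)).continuous
      νR := fun k x => ciSup_le fun j => by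
        rw [RR]
        exact le_ciSup (bd x) _
      Jle := fun k x => by
        rw [smul_apply, norm_smul, Real.norm_of_nonneg (h0 k).le,
          div_mul_eq_mul_div, div_le_iff₀ (by positivity), mul_assoc]
        refine mul_le_mul_of_nonneg_left (((J0 k).le_opNorm x).trans ?_) (by positivity)
        nlinarith [norm_nonneg x]
      J1 := fun k x => by rw [smul_apply, smul_apply, hJ k (R k x) x (by simp [RR])]
      J2 := fun k x => by
        rw [smul_apply, hJ k (R (k + 1) x) 0 (by simp [RR]), map_zero, smul_zero]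
      leJ := fun k x => by
        rw [smul_apply, norm_smul, Real.norm_of_nonneg (h0 k).le, ← mul_assoc,
          div_mul_cancel₀ _ (h0 k).ne']
        have h1 := (e k).symm.toContinuousLinearMap.le_opNorm (J0 k x)
        rwa [show (e k).symm.toContinuousLinearMap (J0 k x) = _ from (e k).symm_apply_apply _] at h1
      rate := fun x => by
        obtain ⟨N, hN⟩ := eventually_atTop.1 (hr x)
        filter_upwards [eventually_ge_atTop (N + 1)] with k hk
        obtain ⟨k, rfl⟩ := Nat.exists_eq_add_one_of_ne_zero (show k ≠ 0 by omega)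
        refine (νle _).trans ?_
        rw [mul_comm, ← le_div_iff₀ (by linarith)]
        exact hN k (by omega) }
  exact ⟨_, inferInstance, inferInstance, D.homeo⟩

theorem exists_sub (P : ℕ → X →L[ℝ] X) (A : ℕ → Set X) (hA : ⋃ n, A n = Set.univ)
    (hU : ∀ n, TendstoUniformlyOn (fun k x => P k x) id atTop (A n)) (δ : ℕ → ℝ)
    (hδ : ∀ k, 0 < δ k) :
    ∃ φ : ℕ → ℕ, StrictMono φ ∧ ∀ x, ∀ᶠ k in atTop, ‖x - P (φ k) x‖ ≤ δ k := by
  obtain ⟨φ, h1, h2⟩ := extraction_forall_of_eventually (P := fun j k => ∀ n ∈ Finset.range (j + 1),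
      ∀ x ∈ A n, dist (id x) (P k x) < δ j) fun j => (eventually_all_finset _).2 fun n _ =>
    Metric.tendstoUniformlyOn_iff.1 (hU n) _ (hδ j)
  refine ⟨φ, h1, fun x => ?_⟩
  obtain ⟨n, hn⟩ := Set.mem_iUnion.1 (hA ▸ Set.mem_univ x)
  filter_upwards [eventually_ge_atTop n] with k hk
  exact (dist_eq_norm x _ ▸ h2 k n (Finset.mem_range.2 (by omega)) x hn).le

end Pool.Agent.HB
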