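import Pool.Agent.P.MP_5aae23_gt.NDefs

open Set Filter Topology Function

namespace Pool.Agent.P.MP_5aae23_gt.Nsh

/-- A path at level `l` over `[a, b]`, defined on `[s, t]`. -/
def Pth (d : ℕ → Om → ℝ) (pr : ℕ → ℕ) (a b : ℝ) (l : ℕ) (γ : ℝ → Om) (s t : ℝ) : Prop :=
  ContinuousOn γ (Icc s t) ∧ ∀ τ ∈ Icc s t, γ τ ∈ ArcL d pr l ∧ (γ τ).1 ∈ Icc a b

/-- A family of atomic measures on one arc, driven by a moving point `α`. -/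
structure Sys (d : ℕ → Om → ℝ) (pr : ℕ → ℕ) (a b : ℝ) {m : ℕ} (ψ : Fin m → ℤ) {Z : Type}
    [TopologicalSpace Z] (α : Z → Om) (P : Z → Fin m → Om) : Prop where
  lt : a < b
  ha : -1 ≤ a
  hb : b ≤ 1
  ca : Continuous α
  cP : Continuous P
  am : ∀ z, α z ∈ Arc d pr ∧ (α z).1 ∈ Icc a b
  Pm : ∀ z j, P z j ∈ Arc d pr
  onto : ∀ x ∈ Arc d pr, x.1 ∈ Icc a b → ∃ z, α z = x
  path : ∀ l γ, Pth d pr a b l γ 0 1 → ∀ z z', tr l (α z) = γ 0 → tr l (α z') = γ 1 →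
    ∀ c, tr l c ∉ γ '' Icc 0 1 → ms ψ (P z) c = ms ψ (P z') c
  off : ∀ z (c : Om), c.1 ∈ Icc a b → c.1 ≠ (α z).1 → ms ψ (P z) c = 0
  zero : ∀ z, (∑ j, if (P z j).1 = (α z).1 then ψ j else 0) = 0

end Pool.Agent.P.MP_5aae23_gt.Nsh
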