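import Pool.Agent.P.MP_5aae23_gt.ND3
import Pool.Agent.P.MP_5aae23_gt.CDefs

open Set Filter Topology Function

namespace Pool.Agent.P.MP_5aae23_gt.Nsh

variable {d : ℕ → Om → ℝ} {pr : ℕ → ℕ}

theorem ca_lev_np (hd : Dfam d) (hpr : ∀ j, (pr j).Prime) {p : ℕ} (hp : p.Prime) {l : ℕ} {ξ : Om}
    (h : ∀ j, pr j = p → ∀ a ∈ Arc d pr, tr l a = ξ → d j a ≠ 0) {l' : ℕ} (hl : l ≤ l') :
    NP p ↥(ArcL d pr l' ∩ tr l ⁻¹' {ξ}) := by
  have hpr0 : ∀ j, pr j ≠ 0 := fun j => (hpr j).ne_zero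
  induction l', hl using Nat.le_induction with
  | base =>
    have : Subsingleton ↥(ArcL d pr l ∩ tr l ⁻¹' {ξ}) := by
      refine (Set.subsingleton_coe _).2 fun x hx y hy => ?_
      have h1 : tr l x = ξ := hx.2
      have h2 : tr l y = ξ := hy.2
      rw [← tr_self hx.1, ← tr_self hy.1, h1, h2]
    exact np_subsingleton p
  | succ k hk ih =>
    have hC : ∀ x : Om, tr k x ∈ tr l ⁻¹' {ξ} ↔ x ∈ tr l ⁻¹' {ξ} := fun x => by
      simp only [mem_preimage, tr_tr hk]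
    refine np_set ((arcL_compact hd pr (k + 1)).inter_right
      (isClosed_singleton.preimage (tr_cont l))) (tr k) (tr_cont k) (step_im hd hpr0 hC)
      (fun y hy => ?_) hp.ne_zero ih fun y hy => ?_
    · rw [step_fib hC hy.2]
      exact (step_conn hd hpr0 hy.1).isPreconnected
    · rw [step_fib hC hy.2]
      refine step_np hd hpr hp hy.1 fun e => ?_
      obtain ⟨x, hx, rfl⟩ := arc_lift hd hpr0 hy.1
      rw [d_tr hd le_rfl]
      exact h k e x hx ((tr_tr hk x).symm.trans hy.2)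

theorem phi_np (hd : Dfam d) (hpr : ∀ j, (pr j).Prime) {p : ℕ} (hp : p.Prime) {l : ℕ} {ξ : Om}
    (hξ : ξ ∈ ArcL d pr l) (h : ∀ j, pr j = p → ∀ a ∈ Arc d pr, tr l a = ξ → d j a ≠ 0) :
    NP p ↥(Arc d pr ∩ tr l ⁻¹' {ξ}) := by
  have hpr0 : ∀ j, pr j ≠ 0 := fun j => (hpr j).ne_zero
  have hS : IsCompact (Arc d pr ∩ tr l ⁻¹' {ξ}) :=
    (arc_compact hd pr).inter_right (isClosed_singleton.preimage (tr_cont l))
  intro u hu hsys
  obtain ⟨l0, hl0⟩ := small_on_tr hS (u 0) (hu 0)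
  have hl : l ≤ max l l0 := le_max_left _ _
  have him := tr_image_fib hd hpr0 hl ξ
  refine n3_set hS (tr (max l l0)) (tr_cont _) him (fun y hy => ?_) hp.ne_zero
    (ca_lev_np hd hpr hp h hl) u hu hsys fun y hy => ?_
  · have : Arc d pr ∩ tr l ⁻¹' {ξ} ∩ tr (max l l0) ⁻¹' {y} =
        Arc d pr ∩ tr (max l l0) ⁻¹' {y} := by
      ext x
      constructor
      · exact fun hx => ⟨hx.1.1, hx.2⟩
      · intro hx
        refine ⟨⟨hx.1, ?_⟩, hx.2⟩
        have h1 : tr (max l l0) x = y := hx.2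
        have h2 : tr l y = ξ := hy.2
        show tr l x = ξ
        rw [← tr_tr hl x, h1, h2]
    rw [this]
    exact arc_tr_conn hd hpr0 hy.1
  · rw [← him] at hy
    obtain ⟨x0, hx0, e0⟩ := hy
    refine null_small ((hu 0).comp (continuous_subtype_val.subtype_mk _)) (u 0 ⟨x0, hx0⟩)
      fun x => hl0 ⟨x.1, x.2.1⟩ ⟨x0, hx0⟩ ?_
    exact tr_eq_mono (le_max_right l l0) ((x.2.2 : tr (max l l0) x.1 = y).trans e0.symm)

end Pool.Agent.P.MP_5aae23_gt.Nsh
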