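import Pool.Agent.P.MP_5aae23_gt.NDefs

open Set Filter Topology

namespace Pool.Agent.P.MP_5aae23_gt.Nsh

/-- An embedding whose range is closed under small combinations. -/
structure Emb (d : ℕ → Om → ℝ) (H : Type*) [NormedAddCommGroup H] [NormedSpace ℝ H] where
  f : XX d → H
  g : H → XX d
  fc : Continuous f
  gf : ∀ x, g (f x) = x
  gc : ContinuousOn g (range f)
  cvx : ∀ s : Fin 3 → ℝ, (∀ v, s v ∈ Icc (0 : ℝ) (1 / 3)) → ∀ x : Fin 3 → XX d,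
    ∑ v, s v • f (x v) ∈ range f

/-- The asymptotic situation in a subset of the target space. -/
structure Asc (H : Type*) [NormedAddCommGroup H] [NormedSpace ℝ H] where
  C : Set H
  lo : Fin 3 → ℝ
  hi : Fin 3 → ℝ
  δ : ℝ
  g : ℝ
  G : ℝ
  B : ℝ
  y : ℕ → Fin 3 → Cf → ℝ
  M : Fin 3 → Finset ℕ → Set Cf
  pt : Cf
  J : Fin 3 → Cf → H
  lam : (Fin 3 → ℝ) → (Fin 3 → Cf) → Fin 3 → ℝ
  lohi : ∀ v, lo v < hi v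
  sne : ∀ s ∈ Icc lo hi, ∀ v, s v ≠ 0
  dpos : 0 < δ
  gpos : 0 < g
  ycont : ∀ n v, Continuous (y n v)
  Mcpt : ∀ v S, IsCompact (M v S)
  Mconn : ∀ v S, IsConnected (M v S)
  Mempty : ∀ v, M v ∅ = {pt}
  yeq : ∀ v S, ∀ a ∈ M v S, ∀ n ∈ S, ∀ n' ∈ S, y n v a = y n' v a
  yzero : ∀ v S, ∀ a ∈ M v S, ∀ n ∉ S, y n v a = 0
  yle : ∀ v S, ∀ a ∈ M v S, ∀ n, |y n v a| ≤ δ
  ysur : ∀ v S r, |r| ≤ δ → ∃ a ∈ M v S, ∀ n ∈ S, y n v a = r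
  Jle : ∀ v S, ∀ a ∈ M v S, ‖J v a‖ ≤ B
  lcont : ∀ (S : Fin 3 → Finset ℕ) (v : Fin 3),
    ContinuousOn (fun z : (Fin 3 → ℝ) × (Fin 3 → Cf) => lam z.1 z.2 v)
      (Icc lo hi ×ˢ Set.pi univ fun w => M w (S w))
  lbd : ∀ s ∈ Icc lo hi, ∀ (S : Fin 3 → Finset ℕ) (c : Fin 3 → Cf), (∀ w, c w ∈ M w (S w)) →
    ∀ v, g ≤ |lam s c v| ∧ |lam s c v| ≤ G
  cl : ∀ (U : Ultrafilter ℕ) (s : ℕ → Fin 3 → ℝ) (S : ℕ → Fin 3 → Finset ℕ)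
    (c : ℕ → Fin 3 → Cf), (∀ k, s k ∈ Icc lo hi) → (∀ k w, c k w ∈ M w (S k w)) →
    (∀ k n, ∑ v, lam (s k) (c k) v * y n v (c k v) = 0) →
    ∃ x ∈ C, Tendsto (fun k => ∑ v, s k v • J v (c k v)) U (𝓝 x)
  cv : ∀ (U : Ultrafilter ℕ) (s : ℕ → Fin 3 → ℝ) (S : ℕ → Fin 3 → Finset ℕ)
    (c : ℕ → Fin 3 → Cf) (n : ℕ → ℕ) (x : H), x ∈ C → (∀ k, s k ∈ Icc lo hi) →
    (∀ k w, c k w ∈ M w (S k w)) → Tendsto n U atTop →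
    Tendsto (fun k => ∑ v, s k v • J v (c k v)) U (𝓝 x) →
    Tendsto (fun k => ∑ v, lam (s k) (c k) v * y (n k) v (c k v)) U (𝓝 0)

end Pool.Agent.P.MP_5aae23_gt.Nsh
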