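import Pool.Agent.P.MP_5aae23_gt.NJ

open Set Filter Topology Function

namespace Pool.Agent.P.MP_5aae23_gt.Nsh

variable {d : ℕ → Om → ℝ} {m : ℕ} {Tau W : Set (Fin m → ℝ)} {g G : ℝ} {u : Cf} {n0 : ℕ} {δ : ℝ}
  {lo hi : Fin 3 → ℝ} {Ψ : (Fin 3 → ℝ) × Cf → ℕ → ℝ}

theorem cb1_bd {N : ℕ} {β : Ix} (a : Om) : ∀ w ∈ niQ u n0 δ lo hi N β a.1 a.1,
    (∀ β' ∈ (niXi n0 N).erase β, |w.2 β'| ≤ 1) ∧
      ∀ β' ∉ (niXi n0 N).erase β, w.2 β' = (update u β a β').1 := by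
  intro w hw
  refine ⟨fun β' h => (niQ_bd w hw).1 β' (Finset.mem_of_mem_erase h), fun β' h => ?_⟩
  by_cases e : β' = β
  · subst e
    rw [update_self]
    exact le_antisymm hw.2.2.2.2.2 hw.2.2.2.2.1
  · rw [update_of_ne e]
    exact (niQ_bd w hw).2 β' fun h' => h (Finset.mem_erase.2 ⟨e, h'⟩)

theorem cb1_sub (hu : u ∈ KK d) {N : ℕ} {β : Ix} {z : (Fin 3 → ℝ) × Cf}
    (hz : z ∈ Zf d u n0 δ lo hi N) :
    Pc d (update u β (z.2 β)) ((niXi n0 N).erase β)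
      (niQ u n0 δ lo hi N β (z.2 β).1 (z.2 β).1) ⊆ Zf d u n0 δ lo hi N := by
  rintro x ⟨h1, h2, h3⟩
  have h4 : x.2 β = z.2 β := by
    rw [h3 β (Finset.notMem_erase _ _), update_self]
  refine ni_pc_sub hu ⟨h1, fun β' h => ?_, fun β' h => ?_⟩
  · by_cases e : β' = β
    · subst e
      rw [h4]
      exact hz.2.1.1 β'
    · exact h2 β' (Finset.mem_erase.2 ⟨e, h⟩)
  · by_cases e : β' = β
    · subst e
      rw [h4]
      refine hz.2.2.1 β' ?_
      rw [ni_mem_xi] at h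
      omega
    · rw [h3 β' fun h' => h (Finset.mem_of_mem_erase h'), update_of_ne e]

theorem cb1_mem {N : ℕ} {β : Ix} {a : Om} {z : (Fin 3 → ℝ) × Cf}
    (hz : z ∈ Zf d u n0 δ lo hi N) (e : z.2 β = a) :
    z ∈ Pc d (update u β a) ((niXi n0 N).erase β) (niQ u n0 δ lo hi N β a.1 a.1) := by
  have h := ni_mem_pc (β := β) (q := a.1) (q' := a.1) hz (by rw [e]; exact ⟨le_rfl, le_rfl⟩)
  refine ⟨h.1, fun β' h' => h.2.1 β' (Finset.mem_of_mem_erase h'), fun β' h' => ?_⟩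
  by_cases e' : β' = β
  · subst e'
    rw [update_self, e]
  · rw [update_of_ne e']
    exact h.2.2 β' fun h'' => h' (Finset.mem_erase.2 ⟨e', h''⟩)

theorem alpha0 (hd : Dfam d) (hG : Good Tau W g G) (hL : Loc d Tau u n0 δ lo hi Ψ)
    (ψ : Fin m → ℤ) (hψ : (fun j => (ψ j : ℝ)) ∈ W) (β : Ix) {z z' : (Fin 3 → ℝ) × Cf}
    {p p' : Fin m → Cf} (h : St d Tau u n0 δ lo hi Ψ z p) (h' : St d Tau u n0 δ lo hi Ψ z' p')
    (e : z.2 β = z'.2 β) (c : Om) : ms ψ (fun j => p j β) c = ms ψ (fun j => p' j β) c := by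
  obtain ⟨N1, t, hz1, hr⟩ := h
  obtain ⟨N2, t', hz2, hr'⟩ := h'
  set N := max N1 N2 with hN
  have hz : z ∈ Zf d u n0 δ lo hi N := nj_zf_mono (le_max_left N1 N2) hz1
  have hz' : z' ∈ Zf d u n0 δ lo hi N := nj_zf_mono (le_max_right N1 N2) hz2
  set D : Set ((Fin 3 → ℝ) × Cf) := Pc d (update u β (z.2 β)) ((niXi n0 N).erase β)
    (niQ u n0 δ lo hi N β (z.2 β).1 (z.2 β).1) with hD
  have hsub : D ⊆ Zf d u n0 δ lo hi N := cb1_sub hL.umem hz
  have : CompactSpace D := isCompact_iff_compactSpace.1 (pc_compact hd (niQ_compact N β _ _))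
  have : PreconnectedSpace D := isPreconnected_iff_preconnectedSpace.1
    (pc_conn hd (niQ_compact N β _ _) (niQ_convex N β _ _) (cb1_bd _))
  have hΨ : Continuous fun x : D => Ψ x :=
    continuousOn_iff_continuous_domRestrict.1 ((hL.cont N).mono hsub)
  let R : Set (D × (Fin m → ℝ) × (Fin m → Cf)) := {x | Rep d Tau (Ψ x.1) x.2.1 x.2.2}
  have hR : IsCompact R := by
    have h1 : IsCompact ((univ : Set D) ×ˢ Tau ×ˢ Set.pi univ fun _ : Fin m => KK d) :=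
      isCompact_univ.prod (hG.cpt.prod (isCompact_univ_pi fun _ => kk_compact hd))
    have h2 : IsClosed {x : D × (Fin m → ℝ) × (Fin m → Cf) |
        Ψ x.1 = ∑ j, x.2.1 j • ee d (x.2.2 j)} := by
      refine isClosed_eq (hΨ.comp continuous_fst) (continuous_finsetSum _ fun j _ => ?_)
      exact ((continuous_apply j).comp (continuous_fst.comp continuous_snd)).smul
        ((ee_cont hd).comp ((continuous_apply j).comp (continuous_snd.comp continuous_snd)))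
    have h3 : R = ((univ : Set D) ×ˢ Tau ×ˢ Set.pi univ fun _ : Fin m => KK d) ∩
        {x | Ψ x.1 = ∑ j, x.2.1 j • ee d (x.2.2 j)} := by
      ext x
      exact ⟨fun h => ⟨⟨mem_univ _, h.1, fun j _ => h.2.1 j⟩, h.2.2⟩,
        fun h => ⟨h.1.2.1, fun j => h.1.2.2 j (mem_univ _), h.2⟩⟩
    rw [h3]
    exact h1.inter_right h2
  have : CompactSpace R := isCompact_iff_compactSpace.1 hR
  have key := rig hd (prm_prime β) (D := D) (R := R) (fun r => r.1.1)
    (continuous_fst.comp continuous_subtype_val)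
    (fun x => by
      obtain ⟨t1, p1, h1⟩ := hL.rep N x.1 (hsub x.2)
      exact ⟨⟨(x, t1, p1), h1⟩, rfl⟩)
    (fun r j => r.1.2.2 j β)
    (continuous_pi fun j => (continuous_apply β).comp ((continuous_apply j).comp
      (continuous_snd.comp (continuous_snd.comp continuous_subtype_val))))
    (fun r j => (r.2.2.1 j).1 β) ψ
    (fun r r' h c => by
      have h1 : Rep d Tau (Ψ r.1.1) r.1.2.1 r.1.2.2 := r.2
      have h2 : Rep d Tau (Ψ r'.1.1) r'.1.2.1 r'.1.2.2 := r'.2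
      have h3 : r.1.1 = r'.1.1 := h
      rw [← h3] at h2
      exact ni_cons_int hd hG ψ hψ h1 h2 β c)
    isOpen_univ
    (fun j _ => pc_np hd (niQ_compact N β _ _) (niQ_convex N β _ _) (cb1_bd _) (prm_prime β j)
      fun w hw β' hβ' j' h a ha haw h0 =>
        absurd (prm_inj h).1 (Finset.ne_of_mem_erase hβ'))
  exact key ⟨(⟨z, cb1_mem hz rfl⟩, t, p), hr⟩ ⟨(⟨z', cb1_mem hz' e.symm⟩, t', p'), hr'⟩ c
    (mem_univ c)

end Pool.Agent.P.MP_5aae23_gt.Nsh
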