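import Pool.Agent.P.MP_5aae23_gt.ND1

open Set Filter Topology Function

namespace Pool.Agent.P.MP_5aae23_gt.Nsh

section atoms

variable {m : ℕ} (ψ : Fin m → ℤ)

open Classical in
/-- The atoms of the measure. -/
noncomputable def atm (p : Fin m → Om) : Finset Om :=
  (Finset.univ.image p).filter fun c => ms ψ p c ≠ 0

theorem ms_mem {p : Fin m → Om} {c : Om} (h : ms ψ p c ≠ 0) : ∃ j, p j = c := by
  by_contra hc
  push Not at hc
  exact h (by simp [ms, hc])

theorem mem_atm {p : Fin m → Om} {c : Om} : c ∈ atm ψ p ↔ ms ψ p c ≠ 0 := by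
  classical
  simp only [atm, Finset.mem_filter, Finset.mem_image, Finset.mem_univ, true_and]
  exact ⟨fun h => h.2, fun h => ⟨ms_mem ψ h, h⟩⟩

theorem card_atm (p : Fin m → Om) : (atm ψ p).card ≤ m := by
  classical
  refine (Finset.card_filter_le _ _).trans (Finset.card_image_le.trans ?_)
  simp

theorem sum_atm {G : Type} [AddCommGroup G] (p : Fin m → Om) (g : Om → G) :
    ∑ j, ψ j • g (p j) = ∑ c ∈ atm ψ p, ms ψ p c • g c := by
  classical
  have h1 : ∑ c ∈ atm ψ p, ms ψ p c • g c = ∑ c ∈ Finset.univ.image p, ms ψ p c • g c := by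
    refine Finset.sum_subset (fun c hc => ?_) fun c _ hc => ?_
    · obtain ⟨j, hj⟩ := ms_mem ψ ((mem_atm ψ).1 hc)
      exact Finset.mem_image.2 ⟨j, Finset.mem_univ _, hj⟩
    · rw [mem_atm, not_not] at hc
      rw [hc, zero_smul]
  rw [h1]
  simp only [ms, Finset.sum_smul]
  rw [Finset.sum_comm]
  refine Finset.sum_congr rfl fun j _ => ?_
  rw [Finset.sum_eq_single (p j)]
  · simp
  · intro b _ hb
    simp [Ne.symm hb]
  · intro h
    exact absurd (Finset.mem_image.2 ⟨j, Finset.mem_univ _, rfl⟩) h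

theorem sum_congr_ms {G : Type} [AddCommGroup G] {p p' : Fin m → Om}
    (h : ∀ c, ms ψ p c = ms ψ p' c) (g : Om → G) :
    ∑ j, ψ j • g (p j) = ∑ j, ψ j • g (p' j) := by
  have h1 : atm ψ p = atm ψ p' := by
    ext c
    rw [mem_atm, mem_atm, h]
  rw [sum_atm, sum_atm, h1]
  exact Finset.sum_congr rfl fun c _ => by rw [h]

theorem ms_le (p : Fin m → Om) (c : Om) : |((ms ψ p c : ℤ) : ℝ)| ≤ ∑ j, |(ψ j : ℝ)| := by
  classical
  simp only [ms]
  push_cast
  refine (Finset.abs_sum_le_sum_abs _ _).trans (Finset.sum_le_sum fun j _ => ?_)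
  split_ifs <;> simp

theorem one_le_ms {p : Fin m → Om} {c : Om} (h : ms ψ p c ≠ 0) : 1 ≤ |((ms ψ p c : ℤ) : ℝ)| := by
  exact_mod_cast Int.one_le_abs h

theorem sum_single {p : Fin m → Om} {U : Set Om} {a : Om}
    (ha : ∀ b, ms ψ p b ≠ 0 → b ∈ U → b = a) {g : Om → ℝ} (hg : ∀ x, x ∉ U → g x = 0) :
    ∑ j, ψ j • g (p j) = ms ψ p a * g a := by
  rw [sum_atm, Finset.sum_eq_single a, zsmul_eq_mul]
  · intro b hb hba
    rw [hg b fun h => hba (ha b ((mem_atm ψ).1 hb) h), smul_zero]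
  · intro h
    rw [mem_atm, not_not] at h
    rw [h, zero_smul]

end atoms

theorem descend {D R G : Type} [TopologicalSpace D] [T2Space D] [TopologicalSpace R]
    [CompactSpace R] [TopologicalSpace G] {om : R → D} (hom : Continuous om)
    (hsur : Surjective om) {f : R → G} (hf : Continuous f)
    (h : ∀ r r', om r = om r' → f r = f r') :
    ∃ F : D → G, Continuous F ∧ ∀ r, F (om r) = f r := by
  have hq : IsQuotientMap om := hom.isClosedMap.isQuotientMap hom hsur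
  have h1 : ∀ r, f (surjInv hsur (om r)) = f r := fun r => h _ _ (surjInv_eq hsur _)
  refine ⟨fun z => f (surjInv hsur z), ?_, h1⟩
  rw [hq.continuous_iff]
  exact hf.congr fun r => (h1 r).symm

section main

variable {d : ℕ → Om → ℝ} {pr : ℕ → ℕ} {D R : Type} [TopologicalSpace D] [CompactSpace D]
  [T2Space D] [PreconnectedSpace D] [TopologicalSpace R] [CompactSpace R] {om : R → D}
  {m : ℕ} {P : R → Fin m → Om} {ψ : Fin m → ℤ}

omit [CompactSpace D] [PreconnectedSpace D] in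
theorem descend_int (hom : Continuous om) (hsur : Surjective om) (hP : Continuous P)
    (hcons : ∀ r r', om r = om r' → ∀ c, ms ψ (P r) c = ms ψ (P r') c)
    {G : Type} [AddCommGroup G] [TopologicalSpace G] [IsTopologicalAddGroup G]
    {g : Om → G} (hg : Continuous g) :
    ∃ F : D → G, Continuous F ∧ ∀ r, F (om r) = ∑ j, ψ j • g (P r j) :=
  descend hom hsur
    (continuous_finsetSum _ fun j _ =>
      (continuous_zsmul (ψ j)).comp (hg.comp ((continuous_apply j).comp hP)))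
    fun r r' h => sum_congr_ms ψ (hcons r r' h) g

theorem rig_gap (hd : Dfam d) (hom : Continuous om) (hsur : Surjective om) (hP : Continuous P)
    (hA : ∀ r j, P r j ∈ Arc d pr)
    (hcons : ∀ r r', om r = om r' → ∀ c, ms ψ (P r) c = ms ψ (P r') c)
    {j : ℕ} (hpr : (pr j).Prime) (hNP : NP (pr j) D) {U : Set Om} (hU : IsOpen U)
    (hj : ∀ x, d j x ≤ 0 → x ∈ U) :
    ∃ η > 0, ∀ r a, ms ψ (P r) a ≠ 0 → (∀ b, ms ψ (P r) b ≠ 0 → b ∈ U → b = a) →
      d j a ≠ 0 → η ≤ |d j a| := by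
  classical
  obtain ⟨B, hB, hBe⟩ := descend_int hom hsur hP hcons (g := fun x : Om => x.2 j)
    ((continuous_apply j).comp continuous_snd)
  have hS : ∀ z, B z ∈ Sol (pr j) := by
    intro z i
    obtain ⟨r, rfl⟩ := hsur z
    rw [hBe]
    simp only [Finset.sum_apply, Pi.smul_apply, Finset.smul_sum]
    refine Finset.sum_congr rfl fun k _ => ?_
    rw [smul_comm, ((hA r k).2 j).1 i]
  obtain ⟨Rb, hRb⟩ := bd hpr hNP B hB hS
  have hK : IsCompact (Arc d pr \ U) := (arc_compact hd pr).diff hU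
  obtain ⟨L, hL⟩ := hK.exists_bound_of_continuousOn (f := fun x => (d j x)⁻¹)
    ((hd.cont j).continuousOn.inv₀ fun x hx h0 => hx.2 (hj x h0.le))
  set M : ℝ := ∑ k, |(ψ k : ℝ)| with hM
  have hM0 : 0 ≤ M := Finset.sum_nonneg fun k _ => abs_nonneg _
  refine ⟨(|Rb| + m * (M * |L|) + 1)⁻¹, by positivity, fun r a ha hu h0 => ?_⟩
  have hAb : ∀ b, ms ψ (P r) b ≠ 0 → b ∈ Arc d pr := fun b hb => by
    obtain ⟨k, rfl⟩ := ms_mem ψ hb
    exact hA r k
  have hne : ∀ b, ms ψ (P r) b ≠ 0 → d j b ≠ 0 := fun b hb h => by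
    have := hu b hb (hj b h.le)
    exact h0 (this ▸ h)
  let io : ℝ →+ (ℕ → T) := AddMonoidHom.mk' (iota (pr j)) (iota_add (pr j))
  have h1 : B (om r) = iota (pr j) (∑ b ∈ atm ψ (P r), ms ψ (P r) b • (d j b)⁻¹) := by
    rw [hBe, sum_atm ψ (P r) (fun x : Om => x.2 j)]
    change _ = io _
    rw [map_sum]
    refine Finset.sum_congr rfl fun b hb => ?_
    have hb' := (mem_atm ψ).1 hb
    rw [map_zsmul, (((hAb b hb').2 j).2).resolve_left (hne b hb')]
    rfl
  have h2 := hRb _ _ h1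
  rw [← Finset.add_sum_erase _ _ ((mem_atm ψ).2 ha)] at h2
  have h3 : |∑ b ∈ (atm ψ (P r)).erase a, ms ψ (P r) b • (d j b)⁻¹| ≤ m * (M * |L|) := by
    refine (Finset.abs_sum_le_sum_abs _ _).trans ?_
    refine (Finset.sum_le_card_nsmul _ _ (M * |L|) fun b hb => ?_).trans ?_
    · obtain ⟨hba, hb⟩ := Finset.mem_erase.1 hb
      have hb' := (mem_atm ψ).1 hb
      rw [zsmul_eq_mul, abs_mul]
      exact mul_le_mul (ms_le ψ _ _)
        ((hL b ⟨hAb b hb', fun h => hba (hu b hb' h)⟩).trans (le_abs_self _)) (abs_nonneg _) hM0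
    · rw [nsmul_eq_mul]
      have : ((atm ψ (P r)).erase a).card ≤ m := Finset.card_erase_le.trans (card_atm ψ _)
      exact mul_le_mul_of_nonneg_right (by exact_mod_cast this) (by positivity)
  have h4 : |(d j a)⁻¹| ≤ |ms ψ (P r) a • (d j a)⁻¹| := by
    rw [zsmul_eq_mul, abs_mul]
    exact le_mul_of_one_le_left (abs_nonneg _) (one_le_ms ψ ha)
  have h5 : |ms ψ (P r) a • (d j a)⁻¹| ≤ |Rb| + m * (M * |L|) := by
    have := abs_le.1 h2
    have := abs_le.1 h3
    have := le_abs_self Rb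
    rw [abs_le]
    constructor <;> linarith
  rw [abs_inv] at h4
  exact inv_le_of_inv_le₀ (abs_pos.2 h0) (by linarith)

end main

theorem int_const {D : Type} [TopologicalSpace D] [PreconnectedSpace D] {f : D → ℝ}
    (hf : Continuous f) (h : ∀ z, ∃ n : ℤ, f z = n) (z z' : D) : f z = f z' := by
  have key : ∀ z z', ¬ f z < f z' := by
    intro z z' hlt
    obtain ⟨n, hn⟩ := h z
    obtain ⟨n', hn'⟩ := h z'
    have h1 : n + 1 ≤ n' := by
      rw [hn, hn'] at hlt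
      exact_mod_cast hlt
    have h2 : (n : ℝ) + 1 ≤ n' := by exact_mod_cast h1
    obtain ⟨w, hw⟩ := intermediate_value_univ z z' hf
      (show (n : ℝ) + 1 / 2 ∈ Icc (f z) (f z') from ⟨by linarith, by linarith⟩)
    obtain ⟨k, hk⟩ := h w
    have h3 : ((2 * k : ℤ) : ℝ) = ((2 * n + 1 : ℤ) : ℝ) := by
      push_cast
      linarith
    have h4 : 2 * k = 2 * n + 1 := by exact_mod_cast h3
    omega
  exact le_antisymm (not_lt.1 (key z' z)) (not_lt.1 (key z z'))

theorem rig {d : ℕ → Om → ℝ} (hd : Dfam d) {pr : ℕ → ℕ} (hpr : ∀ j, (pr j).Prime)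
    {D R : Type} [TopologicalSpace D] [CompactSpace D] [T2Space D] [PreconnectedSpace D]
    [TopologicalSpace R] [CompactSpace R] (om : R → D) (hom : Continuous om)
    (hsur : Surjective om) {m : ℕ} (P : R → Fin m → Om) (hP : Continuous P)
    (hA : ∀ r j, P r j ∈ Arc d pr) (ψ : Fin m → ℤ)
    (hcons : ∀ r r', om r = om r' → ∀ c, ms ψ (P r) c = ms ψ (P r') c)
    {W : Set Om} (hW : IsOpen W)
    (hNP : ∀ j, (∀ a ∈ Arc d pr, d j a = 0 → a ∈ W) → NP (pr j) D) :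
    ∀ r r', ∀ c ∈ W, ms ψ (P r) c = ms ψ (P r') c := by
  classical
  intro r1
  obtain ⟨r0, hr0⟩ : ∃ r0, ∀ r, ((atm ψ (P r)).filter (· ∈ W)).card ≤
      ((atm ψ (P r0)).filter (· ∈ W)).card := by
    obtain ⟨_, ⟨r0, rfl⟩, h⟩ := Set.exists_max_image
      (range fun r => ((atm ψ (P r)).filter (· ∈ W)).card) id
      ((finite_le_nat m).subset (by
        rintro _ ⟨r, rfl⟩
        exact (Finset.card_filter_le _ _).trans (card_atm ψ _))) ⟨_, r1, rfl⟩
    exact ⟨r0, fun r => h _ ⟨r, rfl⟩⟩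
  suffices h : ∀ r, ∀ c ∈ W, ms ψ (P r) c = ms ψ (P r0) c from
    fun r' c hc => (h r1 c hc).trans (h r' c hc).symm
  set C := (atm ψ (P r0)).filter (· ∈ W) with hC
  have hmC : ∀ c, c ∈ C ↔ ms ψ (P r0) c ≠ 0 ∧ c ∈ W := fun c => by
    rw [hC, Finset.mem_filter, mem_atm]
  obtain ⟨U0, hU0, hdis⟩ := (C.finite_toSet).t2_separation
  obtain ⟨U, hUo, hUc, hUW, hUd⟩ : ∃ U : C → Set Om, (∀ c, IsOpen (U c)) ∧ (∀ c : C, c.1 ∈ U c) ∧
      (∀ c, U c ⊆ W) ∧ ∀ c c' x, x ∈ U c → x ∈ U c' → c = c' := by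
    refine ⟨fun c => U0 c ∩ W, fun c => (hU0 c).2.inter hW,
      fun c => ⟨(hU0 c).1, ((hmC c).1 c.2).2⟩, fun c => inter_subset_right,
      fun c c' x hx hx' => ?_⟩
    by_contra hne
    exact Set.disjoint_left.1 (hdis c.2 c'.2 fun h => hne (Subtype.ext h)) hx.1 hx'.1
  set M : ℝ := ∑ k, |(ψ k : ℝ)| with hM
  obtain ⟨g, hgc, hg1, hg0, hgn⟩ : ∃ g : C → Om → ℝ, (∀ c, Continuous (g c)) ∧
      (∀ c : C, g c c = 1) ∧ (∀ c x, x ∉ U c → g c x = 0) ∧ ∀ c x, 0 ≤ g c x := by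
    choose jc h1 h2 using fun c : C => hd.sep c (U c) ((hUo c).mem_nhds (hUc c))
    refine ⟨fun c x => max 0 (d (jc c) x / d (jc c) c),
      fun c => continuous_const.max ((hd.cont _).div_const _), fun c => ?_, fun c x hx => ?_,
      fun c x => le_max_left _ _⟩
    · simp [div_self (h1 c).ne]
    · exact max_eq_left (div_nonpos_of_nonneg_of_nonpos
        (not_le.1 fun h => hx (h2 c x h)).le (h1 c).le)
  have hφ : ∀ c, Continuous fun x => min 1 (2 * M * g c x) := fun c =>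
    continuous_const.min (continuous_const.mul (hgc c))
  choose Gc hGc hGe using fun c : C => descend_int hom hsur hP hcons (hgc c)
  choose kc hkc hke using fun c : C => descend_int hom hsur hP hcons (hφ c)
  choose ec hec hee using fun (c : C) (j : ℕ) => descend_int hom hsur hP hcons
    (g := fun x => min 1 (2 * M * g c x) * d j x) ((hφ c).mul (hd.cont j))
  let N : Set D := {z | ∀ c, 1 / 2 ≤ |Gc c z|}
  let O : Set D := {z | ∀ c, 1 / 2 < |Gc c z|}
  have hN : IsClosed N := by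
    simp only [N, ofPred_forall]
    exact isClosed_iInter fun c => isClosed_le continuous_const (hGc c).abs
  have hO : IsOpen O := by
    simp only [O, ofPred_forall]
    exact isOpen_iInter_of_finite fun c => isOpen_lt continuous_const (hGc c).abs
  have hON : O ⊆ N := fun z hz c => (hz c).le
  have hst : ∀ r, om r ∈ N → ∃ a : C → Om, (∀ c, ms ψ (P r) (a c) ≠ 0 ∧
      (∀ b, ms ψ (P r) b ≠ 0 → b ∈ U c → b = a c) ∧ kc c (om r) = ms ψ (P r) (a c) ∧
      ∀ j, ec c j (om r) = ms ψ (P r) (a c) * d j (a c)) ∧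
      ∀ b ∈ W, ms ψ (P r) b ≠ 0 → ∃ c, a c = b := by
    intro r hr
    have h1 : ∀ c, ∃ a ∈ U c, ms ψ (P r) a ≠ 0 := by
      intro c
      by_contra hc
      push Not at hc
      have h2 := hr c
      rw [hGe, sum_atm, Finset.sum_eq_zero fun b hb => by
        rw [hg0 c b fun h => (mem_atm ψ).1 hb (hc b h), smul_zero]] at h2
      norm_num at h2
    choose a haU ha using h1
    have hinj : Injective a := fun c c' h => hUd c c' (a c) (haU c) (h ▸ haU c')
    have him : Finset.univ.image a = (atm ψ (P r)).filter (· ∈ W) := by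
      refine Finset.eq_of_subset_of_card_le (fun b hb => ?_) ?_
      · obtain ⟨c, -, rfl⟩ := Finset.mem_image.1 hb
        exact Finset.mem_filter.2 ⟨(mem_atm ψ).2 (ha c), hUW c (haU c)⟩
      · rw [Finset.card_image_of_injective _ hinj, Finset.card_univ, Fintype.card_coe]
        exact hr0 r
    have hall : ∀ b ∈ W, ms ψ (P r) b ≠ 0 → ∃ c, a c = b := fun b hb hb' => by
      have : b ∈ Finset.univ.image a := him ▸ Finset.mem_filter.2 ⟨(mem_atm ψ).2 hb', hb⟩
      obtain ⟨c, -, hc⟩ := Finset.mem_image.1 this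
      exact ⟨c, hc⟩
    refine ⟨a, fun c => ?_, hall⟩
    have hu : ∀ b, ms ψ (P r) b ≠ 0 → b ∈ U c → b = a c := fun b hb hbU => by
      obtain ⟨c', rfl⟩ := hall b (hUW c hbU) hb
      rw [hUd c c' _ hbU (haU c')]
    have h2 := hr c
    rw [hGe, sum_single ψ hu (hg0 c), abs_mul, abs_of_nonneg (hgn c _)] at h2
    have h3 : min 1 (2 * M * g c (a c)) = 1 := by
      have := mul_le_mul_of_nonneg_right (ms_le ψ (P r) (a c)) (hgn c (a c))
      exact min_eq_left (by linarith)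
    refine ⟨ha c, hu, ?_, fun j => ?_⟩
    · rw [hke, sum_single ψ hu (g := fun x => min 1 (2 * M * g c x))
        fun x hx => by simp [hg0 c x hx], h3, mul_one]
    · rw [hee, sum_single ψ hu (g := fun x => min 1 (2 * M * g c x) * d j x)
        fun x hx => by simp [hg0 c x hx], h3, one_mul]
  have hfix : ∀ r (c : C), ms ψ (P r) c ≠ 0 → (∀ b, ms ψ (P r) b ≠ 0 → b ∈ U c → b = c) →
      1 / 2 < |Gc c (om r)| := fun r c h1 h2 => by
    rw [hGe, sum_single ψ h2 (hg0 c), hg1, mul_one]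
    linarith [one_le_ms ψ h1]
  have h0 : om r0 ∈ O := fun c => hfix r0 c ((hmC c).1 c.2).1 fun b hb hbU =>
    congrArg Subtype.val (hUd ⟨b, (hmC b).2 ⟨hb, hUW c hbU⟩⟩ c b (hUc ⟨b, _⟩) hbU)
  let ι : Type := {i : C × ℕ // d i.2 i.1 < 0 ∧ ∀ x, d i.2 x ≤ 0 → x ∈ U i.1}
  choose η hη hgap using fun i : ι => rig_gap hd hom hsur hP hA hcons (hpr i.1.2)
    (hNP i.1.2 fun a _ h => hUW _ (i.2.2 a h.le)) (hUo i.1.1) i.2.2
  let V : ι → Set D := fun i => {z | ec i.1.1 i.1.2 z * kc i.1.1 z < 0}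
  let V' : ι → Set D := fun i => {z | ec i.1.1 i.1.2 z * kc i.1.1 z ≤ -η i}
  have hV : ∀ i, IsOpen (V i) := fun i => isOpen_lt ((hec _ _).mul (hkc _)) continuous_const
  have hV' : ∀ i, IsClosed (V' i) := fun i => isClosed_le ((hec _ _).mul (hkc _)) continuous_const
  have hsq : ∀ {k x : ℝ}, k * x * k < 0 → x < 0 := fun {k x} h => by
    by_contra hx
    nlinarith [mul_nonneg (not_lt.1 hx) (mul_self_nonneg k)]
  have hVV : ∀ i, ∀ z ∈ N, z ∈ V i → z ∈ V' i := by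
    intro i z hz hzV
    obtain ⟨r, rfl⟩ := hsur z
    obtain ⟨a, ha, -⟩ := hst r hz
    obtain ⟨h1, h2, h3, h4⟩ := ha i.1.1
    simp only [V, V', mem_ofPred_eq, h3, h4] at hzV ⊢
    have h5 := hsq hzV
    have h6 := hgap i r _ h1 h2 h5.ne
    rw [abs_of_neg h5] at h6
    have h7 := one_le_ms ψ h1
    have h8 : (1 : ℝ) ≤ (ms ψ (P r) (a i.1.1) : ℤ) * (ms ψ (P r) (a i.1.1) : ℤ) := by
      rw [← abs_mul_abs_self]
      nlinarith
    nlinarith
  have hVV' : ∀ i, V' i ⊆ V i := fun i z hz => lt_of_le_of_lt hz (neg_lt_zero.2 (hη i))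
  have hZ : ∀ r, om r ∈ N → (∀ i, om r ∈ V i) → (∀ c : C, ms ψ (P r) c ≠ 0 ∧
      (∀ b, ms ψ (P r) b ≠ 0 → b ∈ U c → b = c) ∧ kc c (om r) = ms ψ (P r) c) ∧
      ∀ b ∈ W, ms ψ (P r) b ≠ 0 → b ∈ C := by
    intro r hr hi
    obtain ⟨a, ha, hb⟩ := hst r hr
    have hac : ∀ c : C, a c = c := by
      intro c
      by_contra hne
      obtain ⟨j, h1, h2⟩ := hd.sep c (U c ∩ {a c}ᶜ)
        (((hUo c).inter isOpen_compl_singleton).mem_nhds ⟨hUc c, Ne.symm hne⟩)
      have h3 := hi ⟨(c, j), h1, fun x hx => (h2 x hx).1⟩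
      simp only [V, mem_ofPred_eq, (ha c).2.2.1, (ha c).2.2.2] at h3
      exact (h2 _ (hsq h3).le).2 rfl
    refine ⟨fun c => ?_, fun b hbW hb' => ?_⟩
    · have := ha c
      rw [hac c] at this
      exact ⟨this.1, this.2.1, this.2.2.1⟩
    · obtain ⟨c, rfl⟩ := hb b hbW hb'
      rw [hac c]
      exact c.2
  have h0V : ∀ i, om r0 ∈ V i := by
    intro i
    obtain ⟨a, ha, -⟩ := hst r0 (hON h0)
    obtain ⟨h1, h2, h3, h4⟩ := ha i.1.1
    have h5 := h2 _ ((hmC _).1 i.1.1.2).1 (hUc _)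
    simp only [V, mem_ofPred_eq, h3, h4]
    have h7 : (0 : ℝ) < (ms ψ (P r0) (a i.1.1) : ℤ) * (ms ψ (P r0) (a i.1.1) : ℤ) :=
      mul_self_pos.2 (by exact_mod_cast h1)
    have h8 := i.2.1
    rw [h5] at h8
    nlinarith
  obtain ⟨u, hu⟩ := ((hN.sdiff hO).isCompact).elim_finite_subfamily_closed V' hV' (by
    rw [eq_empty_iff_forall_notMem]
    rintro z ⟨⟨hzN, hzO⟩, hz⟩
    obtain ⟨r, rfl⟩ := hsur z
    have := (hZ r hzN fun i => hVV' i (mem_iInter.1 hz i)).1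
    exact hzO fun c => hfix r c (this c).1 (this c).2.1)
  have hY : O ∩ ⋂ i ∈ u, V i = N ∩ ⋂ i ∈ u, V' i := by
    ext z
    simp only [mem_inter_iff, mem_iInter]
    refine ⟨fun h => ⟨hON h.1, fun i hi => hVV i z (hON h.1) (h.2 i hi)⟩,
      fun h => ⟨?_, fun i hi => hVV' i (h.2 i hi)⟩⟩
    by_contra hz
    exact (eq_empty_iff_forall_notMem.1 hu z) ⟨⟨h.1, hz⟩, mem_iInter₂.2 h.2⟩
  have hNu : ∀ z, z ∈ N := by
    have h1 : IsClopen (O ∩ ⋂ i ∈ u, V i) :=
      ⟨hY ▸ hN.inter (isClosed_biInter fun i _ => hV' i),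
        hO.inter (isOpen_biInter_finset fun i _ => hV i)⟩
    have h2 := h1.eq_univ ⟨om r0, h0, mem_iInter₂.2 fun i _ => h0V i⟩
    exact fun z => hON (h2.ge (mem_univ z)).1
  have hVu : ∀ i z, z ∈ V i := by
    intro i z
    have h1 : V i = V' i := subset_antisymm (fun z hz => hVV i z (hNu z) hz) (hVV' i)
    have h2 : IsClopen (V i) := ⟨h1 ▸ hV' i, hV i⟩
    exact (h2.eq_univ ⟨_, h0V i⟩).ge (mem_univ z)
  have hZ' := fun r => hZ r (hNu _) fun i => hVu i _
  intro r c hc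
  by_cases hcC : c ∈ C
  · have h1 := int_const (hkc ⟨c, hcC⟩) (fun z => by
      obtain ⟨r, rfl⟩ := hsur z
      exact ⟨_, ((hZ' r).1 ⟨c, hcC⟩).2.2⟩) (om r) (om r0)
    rw [((hZ' r).1 ⟨c, hcC⟩).2.2, ((hZ' r0).1 ⟨c, hcC⟩).2.2] at h1
    exact_mod_cast h1
  · rw [not_not.1 fun h => hcC ((hZ' r).2 c hc h), not_not.1 fun h => hcC ((hZ' r0).2 c hc h)]

end Pool.Agent.P.MP_5aae23_gt.Nsh
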