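import Pool.Agent.P.MP_5aae23_gt.ND3
import Pool.Agent.P.MP_5aae23_gt.NE
import Pool.Agent.P.MP_5aae23_gt.CDefs

open Set Filter Topology Function

namespace Pool.Agent.P.MP_5aae23_gt.Nsh

variable {d : ℕ → Om → ℝ} {pr : ℕ → ℕ} {a b : ℝ} {m : ℕ} {ψ : Fin m → ℤ} {Z : Type}
  [TopologicalSpace Z] {α : Z → Om} {P : Z → Fin m → Om}

theorem cd_up_cont (l : ℕ) : Continuous fun p : Om × (ℕ → T) => up l p.1 p.2 :=
  continuous_fst.fst.prodMk (continuous_fst.snd.update l continuous_snd)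

theorem cd_up_self (l : ℕ) (η : Om) (s : ℕ → T) : (up l η s).2 l = s := by simp [up]

/-- Each half line is dense in the solenoid. -/
theorem cd_ray {q : ℕ} (hq : q ≠ 0) (y : T) (k : ℕ) {v : ℝ} (hv : v ≠ 0) :
    ∃ w ∈ uIcc 0 v, w ≠ 0 ∧ iota q w⁻¹ k = y := by
  obtain ⟨t, -, ht⟩ := nc_approx hq y k
  have h : (0 : ℝ) < q ^ k := by positivity
  have h1 : ∀ N : ℤ, iota q (t + N * q ^ k) k = y := fun N => by
    rw [← ht]
    simp only [iota]
    rw [add_div, mul_div_assoc, div_self h.ne', mul_one, AddCircle.coe_add, nc_coe_int, add_zero]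
  rcases hv.lt_or_gt with h0 | h0
  · have h2 := Int.floor_le ((v⁻¹ - t) / q ^ k)
    rw [le_div_iff₀ h] at h2
    have h3 : v⁻¹ < 0 := inv_lt_zero.2 h0
    have h4 : t + (⌊(v⁻¹ - t) / q ^ k⌋ : ℤ) * (q : ℝ) ^ k ≤ v⁻¹ := by linarith
    have h5 := h4.trans_lt h3
    refine ⟨(t + (⌊(v⁻¹ - t) / q ^ k⌋ : ℤ) * (q : ℝ) ^ k)⁻¹, ?_, inv_ne_zero h5.ne, ?_⟩
    · rw [uIcc_of_ge h0.le]
      refine ⟨?_, (inv_lt_zero.2 h5).le⟩
      exact (le_inv_of_neg h0 h5).2 h4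
    · rw [inv_inv]
      exact h1 _
  · have h2 := Int.le_ceil ((v⁻¹ - t) / q ^ k)
    rw [div_le_iff₀ h] at h2
    have h3 : 0 < v⁻¹ := inv_pos.2 h0
    have h4 : v⁻¹ ≤ t + (⌈(v⁻¹ - t) / q ^ k⌉ : ℤ) * (q : ℝ) ^ k := by linarith
    have h5 := h3.trans_le h4
    refine ⟨(t + (⌈(v⁻¹ - t) / q ^ k⌉ : ℤ) * (q : ℝ) ^ k)⁻¹, ?_, inv_ne_zero h5.ne', ?_⟩
    · rw [uIcc_of_le h0.le]
      refine ⟨(inv_pos.2 h5).le, ?_⟩
      exact (inv_le_comm₀ h5 h0).2 h4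
    · rw [inv_inv]
      exact h1 _

theorem cd_scale {e t : ℝ} (he : e ∈ Ioc (0 : ℝ) 1) (ht : t ∈ Icc (0 : ℝ) 1) :
    e * t ∈ Icc (0 : ℝ) e :=
  ⟨mul_nonneg he.1.le ht.1, by nlinarith [he.1, ht.2]⟩

theorem cd_resc {l : ℕ} {γ : ℝ → Om} (h : Pth d pr a b l γ 0 1) {e : ℝ} (he : e ∈ Ioc (0 : ℝ) 1) :
    Pth d pr a b l (fun t => γ (e * t)) 0 1 := by
  have h1 : MapsTo (fun t => e * t) (Icc (0 : ℝ) 1) (Icc (0 : ℝ) 1) := fun t ht =>
    ⟨(cd_scale he ht).1, (cd_scale he ht).2.trans he.2⟩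
  exact ⟨h.1.comp (continuous_const.mul continuous_id).continuousOn h1, fun t ht => h.2 _ (h1 ht)⟩

/-- Every point of a truncated arc is the start of a path that does not come back. -/
theorem cd_leaf (hd : Dfam d) (hpr : ∀ j, (pr j).Prime) (hab : a < b) (ha : -1 ≤ a) (hb : b ≤ 1)
    (l : ℕ) : ∀ ξ ∈ ArcL d pr l, ξ.1 ∈ Icc a b →
      ∃ γ, Pth d pr a b l γ 0 1 ∧ γ 0 = ξ ∧ ∀ t ∈ Ioc (0 : ℝ) 1, γ t ≠ ξ := by
  induction l with
  | zero =>
    intro ξ hξ hx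
    obtain ⟨y, hy, hne⟩ : ∃ y ∈ Icc a b, y ≠ ξ.1 := by
      by_cases h : ξ.1 = a
      · exact ⟨b, ⟨hab.le, le_rfl⟩, by rw [h]; exact hab.ne'⟩
      · exact ⟨a, ⟨le_rfl, hab.le⟩, Ne.symm h⟩
    refine ⟨fun t => (ξ.1 + t * (y - ξ.1), 0), ⟨by fun_prop, fun t ht => ?_⟩, ?_, fun t ht h => ?_⟩
    · have h1 : ξ.1 + t * (y - ξ.1) ∈ Icc a b :=
        ⟨by nlinarith [ht.1, ht.2, hx.1, hy.1], by nlinarith [ht.1, ht.2, hx.2, hy.2]⟩
      exact ⟨⟨abs_le.2 ⟨ha.trans h1.1, h1.2.trans hb⟩, fun j hj => absurd hj (Nat.not_lt_zero j),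
        fun _ _ => rfl⟩, h1⟩
    · exact Prod.ext (by simp) (funext fun j => (hξ.2.2 j (Nat.zero_le j)).symm)
    · have h1 : ξ.1 + t * (y - ξ.1) = ξ.1 := congrArg Prod.fst h
      have h2 : t * (y - ξ.1) = 0 := by linarith
      exact mul_ne_zero ht.1.ne' (sub_ne_zero.2 hne) h2
  | succ l ih =>
    intro ξ hξ hx
    have hη := tr_memL hd hξ
    have hs := hξ.2.1 l (Nat.lt_succ_self l)
    by_cases h0 : d l ξ = 0
    · refine ⟨fun t => up l (tr l ξ) (ξ.2 l + iota (pr l) t),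
        ⟨((up_cont l _).comp (continuous_const.add (iota_cont _))).continuousOn, fun t _ =>
          ⟨up_mem hd hη (fun i => ?_) (Or.inl (by rw [d_tr hd le_rfl, h0])), hx⟩⟩, ?_,
        fun t ht h => ?_⟩
      · rw [Pi.add_apply, Pi.add_apply, smul_add, hs.1 i, iota_mem (hpr l).ne_zero t i]
      · have h1 : iota (pr l) 0 = 0 := funext fun i => by simp [iota]
        show up l (tr l ξ) (ξ.2 l + iota (pr l) 0) = ξ
        rw [h1, add_zero]
        exact up_eq hξ rfl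
      · have h1 : iota (pr l) 0 = 0 := funext fun i => by simp [iota]
        have h2 : (up l (tr l ξ) (ξ.2 l + iota (pr l) t)).2 l = ξ.2 l := congrArg (·.2 l) h
        rw [cd_up_self, add_eq_left, ← h1] at h2
        exact ht.1.ne' (iota_inj (hpr l).two_le h2)
    · obtain ⟨γ, hγ, e0, hne⟩ := ih _ hη hx
      have hc : ContinuousOn (fun t => d l (γ t)) (Icc 0 1) := (hd.cont l).comp_continuousOn hγ.1
      have h1 : ∀ᶠ t in 𝓝[Icc (0 : ℝ) 1] 0, d l (γ t) ≠ 0 :=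
        (hc 0 ⟨le_rfl, zero_le_one⟩).eventually_ne
          (show d l (γ 0) ≠ 0 by rw [e0, d_tr hd le_rfl]; exact h0)
      obtain ⟨ε, hε, h2⟩ := Metric.mem_nhdsWithin_iff.1 h1
      have he : min (ε / 2) 1 ∈ Ioc (0 : ℝ) 1 := ⟨lt_min (half_pos hε) one_pos, min_le_right _ _⟩
      have h3 : ∀ t ∈ Icc (0 : ℝ) 1, d l (γ (min (ε / 2) 1 * t)) ≠ 0 := fun t ht => by
        have h4 := cd_scale he ht
        refine h2 ⟨?_, h4.1, h4.2.trans he.2⟩
        rw [Metric.mem_ball, Real.dist_eq, sub_zero, abs_of_nonneg h4.1]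
        exact h4.2.trans_lt ((min_le_left _ _).trans_lt (half_lt_self hε))
      have hγ' := cd_resc hγ he
      refine ⟨fun t => up l (γ (min (ε / 2) 1 * t)) (iota (pr l) (d l (γ (min (ε / 2) 1 * t)))⁻¹),
        ⟨(cd_up_cont l).comp_continuousOn (hγ'.1.prodMk ((iota_cont _).comp_continuousOn
          (((hd.cont l).comp_continuousOn hγ'.1).inv₀ h3))), fun t ht =>
          ⟨up_mem hd (hγ'.2 t ht).1 (iota_mem (hpr l).ne_zero _) (Or.inr rfl), (hγ'.2 t ht).2⟩⟩,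
        ?_, fun t ht h => ?_⟩
      · show up l (γ (min (ε / 2) 1 * 0)) (iota (pr l) (d l (γ (min (ε / 2) 1 * 0)))⁻¹) = ξ
        rw [mul_zero, e0, d_tr hd le_rfl, ← hs.2.resolve_left h0]
        exact up_eq hξ rfl
      · have h4 := cd_scale he ⟨ht.1.le, ht.2⟩
        refine hne (min (ε / 2) 1 * t) ⟨mul_pos he.1 ht.1, h4.2.trans he.2⟩ ?_
        rw [← h]
        exact (tr_up (hγ'.2 t ⟨ht.1.le, ht.2⟩).1 _).symm

/-- All atoms over the open interval lie over the moving point, at level `l`. -/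
def CdE (a b : ℝ) (ψ : Fin m → ℤ) (α : Z → Om) (P : Z → Fin m → Om) (l : ℕ) : Set Z :=
  {z | ∀ c : Om, c.1 ∈ Ioo a b → ms ψ (P z) c ≠ 0 → tr l c = tr l (α z)}

theorem cd_closed (hα : Continuous α) (hP : Continuous P) (l : ℕ) :
    IsClosed (CdE a b ψ α P l) := by
  classical
  rw [← isOpen_compl_iff, isOpen_iff_mem_nhds]
  intro z0 hz0
  obtain ⟨c, hc, hm, hne⟩ : ∃ c : Om, c.1 ∈ Ioo a b ∧ ms ψ (P z0) c ≠ 0 ∧
      tr l c ≠ tr l (α z0) := by
    by_contra h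
    push Not at h
    exact hz0 h
  have hPj : ∀ j, Continuous fun z => P z j := fun j => (continuous_apply j).comp hP
  have h1 : ∀ᶠ z in 𝓝 z0, ∀ j, P z0 j = c →
      (P z j).1 ∈ Ioo a b ∧ tr l (P z j) ≠ tr l (α z) := by
    refine eventually_all.2 fun j => ?_
    by_cases h : P z0 j = c
    · have a1 := (isOpen_Ioo.preimage (hPj j).fst).mem_nhds (x := z0)
        (show (P z0 j).1 ∈ Ioo a b from h ▸ hc)
      have a2 := (isOpen_ne_fun ((tr_cont l).comp (hPj j)) ((tr_cont l).comp hα)).mem_nhds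
        (x := z0) (show tr l (P z0 j) ≠ tr l (α z0) from h ▸ hne)
      filter_upwards [a1, a2] with z b1 b2 _ using ⟨b1, b2⟩
    · exact Eventually.of_forall fun z h' => absurd h' h
  have h2 : ∀ᶠ z in 𝓝 z0, ∀ j j', P z0 j ≠ P z0 j' → P z j ≠ P z j' := by
    refine eventually_all.2 fun j => eventually_all.2 fun j' => ?_
    by_cases h : P z0 j = P z0 j'
    · exact Eventually.of_forall fun z h' => absurd h h'
    · filter_upwards [(isOpen_ne_fun (hPj j) (hPj j')).mem_nhds h] with z hz _ using hz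
  filter_upwards [h1, h2] with z b1 b2 hz
  apply hm
  have e := sum_atm ψ (P z) fun x => if ∃ j, P z0 j = c ∧ P z j = x then (1 : ℤ) else 0
  have e1 : ms ψ (P z0) c =
      ∑ j, ψ j • if ∃ j', P z0 j' = c ∧ P z j' = P z j then (1 : ℤ) else 0 := by
    refine Finset.sum_congr rfl fun j _ => ?_
    by_cases h : P z0 j = c
    · rw [if_pos h, if_pos ⟨j, h, rfl⟩, smul_eq_mul, mul_one]
    · rw [if_neg h, if_neg, smul_zero]
      rintro ⟨j', h3, h4⟩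
      exact b2 j' j (fun h5 => h (h5 ▸ h3)) h4
  rw [e1, e]
  refine Finset.sum_eq_zero fun x hx => ?_
  rw [if_neg, smul_zero]
  rintro ⟨j, h3, rfl⟩
  exact (b1 j h3).2 (hz _ (b1 j h3).1 ((mem_atm ψ).1 hx))

theorem Sys.cd_over (hd : Dfam d) (hpr : ∀ j, (pr j).Prime) (S : Sys d pr a b ψ α P) {l : ℕ}
    {ξ : Om} (hξ : ξ ∈ ArcL d pr l) (hx : ξ.1 ∈ Icc a b) : ∃ z, tr l (α z) = ξ := by
  obtain ⟨x, h1, rfl⟩ := arc_lift hd (fun j => (hpr j).ne_zero) hξ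
  obtain ⟨z, rfl⟩ := S.onto x h1 hx
  exact ⟨z, rfl⟩

theorem Sys.cd_ne (hd : Dfam d) (S : Sys d pr a b ψ α P) {l : ℕ} {z : Z}
    (hz : z ∈ CdE a b ψ α P l) (h0 : d l (α z) ≠ 0) : z ∈ CdE a b ψ α P (l + 1) := by
  intro c hc hm
  have h1 := hz c hc hm
  obtain ⟨j, rfl⟩ := ms_mem ψ hm
  have h2 : d l (P z j) = d l (α z) := by rw [← d_tr hd le_rfl, h1, d_tr hd le_rfl]
  refine tr_eq_iff.2 ⟨(tr_eq_iff.1 h1).1, fun i hi => ?_⟩
  rcases (Nat.lt_succ_iff.1 hi).lt_or_eq with h | rfl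
  · exact (tr_eq_iff.1 h1).2 i h
  · rw [((S.Pm z j).2 i).2.resolve_left (h2 ▸ h0), ((S.am z).1.2 i).2.resolve_left h0, h2]

theorem Sys.cd_step [CompactSpace Z] (hd : Dfam d) (hpr : ∀ j, (pr j).Prime)
    (S : Sys d pr a b ψ α P) {l : ℕ} (ih : ∀ z, z ∈ CdE a b ψ α P l) (z : Z) :
    z ∈ CdE a b ψ α P (l + 1) := by
  by_cases h0 : d l (α z) = 0
  swap
  · exact S.cd_ne hd (ih z) h0
  have hσ : (α z).2 l ∈ Sol (pr l) := ((S.am z).1.2 l).1
  have hup : up l (tr l (α z)) ((α z).2 l) = tr (l + 1) (α z) := by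
    rw [← tr_snd_lt (Nat.lt_succ_self l) (α z)]
    exact up_eq (tr_mem hd (S.am z).1 (l + 1)) (tr_trunc (Nat.le_succ l) _)
  obtain ⟨γ, hγ, e0, hne⟩ := cd_leaf hd hpr S.lt S.ha S.hb l _ (tr_mem hd (S.am z).1 l) (S.am z).2
  intro c hc hm
  by_contra hcon
  by_cases hA : ∃ e ∈ Ioc (0 : ℝ) 1, ∀ t ∈ Icc 0 e, d l (γ t) = 0
  · obtain ⟨e, he, hA⟩ := hA
    have hγ' := cd_resc hγ he
    have hp : Pth d pr a b (l + 1) (fun t => up l (γ (e * t)) ((α z).2 l)) 0 1 :=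
      ⟨(cd_up_cont l).comp_continuousOn (hγ'.1.prodMk continuousOn_const), fun t ht =>
        ⟨up_mem hd (hγ'.2 t ht).1 hσ (Or.inl (hA _ (cd_scale he ht))), (hγ'.2 t ht).2⟩⟩
    have h01 : (1 : ℝ) ∈ Icc (0 : ℝ) 1 := ⟨zero_le_one, le_rfl⟩
    obtain ⟨z', hz'⟩ := S.cd_over hd hpr (hp.2 1 h01).1 (hp.2 1 h01).2
    have h1 := S.path _ _ hp z z' (by simp only [mul_zero, e0, hup]) hz' c (by
      rintro ⟨t, ht, h⟩
      have h2 : γ (e * t) = tr l (α z) := by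
        rw [← ih z c hc hm, ← tr_trunc (Nat.le_succ l) c, ← h]
        exact (tr_up (hγ'.2 t ht).1 _).symm
      apply hcon
      rw [← h, ← hup, ← h2])
    refine hne (e * 1) (by rw [mul_one]; exact he) ?_
    rw [← ih z c hc hm, ih z' c hc (h1 ▸ hm), ← tr_trunc (Nat.le_succ l) (α z'), hz']
    exact (tr_up (hγ'.2 1 h01).1 _).symm
  · push Not at hA
    have hc' : ContinuousOn (fun t => d l (γ t)) (Icc 0 1) := (hd.cont l).comp_continuousOn hγ.1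
    have h1 : ∀ k : ℕ, ∃ s ∈ Icc (0 : ℝ) (1 / ((k : ℝ) + 1)), d l (γ s) ≠ 0 ∧
        iota (pr l) (d l (γ s))⁻¹ k = (α z).2 l k := fun k => by
      have hk : 1 / ((k : ℝ) + 1) ≤ 1 := by
        rw [div_le_one (by positivity)]
        linarith [Nat.cast_nonneg (α := ℝ) k]
      obtain ⟨t, ht, hv⟩ := hA _ ⟨Nat.one_div_pos_of_nat, hk⟩
      obtain ⟨w, hw, hw0, hw1⟩ := cd_ray (hpr l).ne_zero ((α z).2 l k) k hv
      have h2 : uIcc 0 t = Icc 0 t := uIcc_of_le ht.1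
      have h3 := intermediate_value_uIcc (a := 0) (b := t) (f := fun t => d l (γ t))
        (h2 ▸ hc'.mono (Icc_subset_Icc_right (ht.2.trans hk)))
      obtain ⟨s, hs, e⟩ := h3 (a := w) (by rw [e0, d_tr hd le_rfl, h0]; exact hw)
      rw [h2] at hs
      have e' : d l (γ s) = w := e
      exact ⟨s, ⟨hs.1, hs.2.trans ht.2⟩, e' ▸ hw0, e' ▸ hw1⟩
    choose s hs hs0 hs1 using h1
    have hs' : ∀ k, s k ∈ Icc (0 : ℝ) 1 := fun k => ⟨(hs k).1, (hs k).2.trans (by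
      rw [div_le_one (by positivity)]
      linarith [Nat.cast_nonneg (α := ℝ) k])⟩
    have t1 : Tendsto s atTop (𝓝[Icc 0 1] 0) :=
      tendsto_nhdsWithin_iff.2 ⟨squeeze_zero (fun k => (hs k).1) (fun k => (hs k).2)
        tendsto_one_div_add_atTop_nhds_zero_nat, Eventually.of_forall hs'⟩
    have t2 : Tendsto (fun k => γ (s k)) atTop (𝓝 (tr l (α z))) :=
      e0 ▸ (hγ.1 0 ⟨le_rfl, zero_le_one⟩).tendsto.comp t1
    have t3 : Tendsto (fun k => iota (pr l) (d l (γ (s k)))⁻¹) atTop (𝓝 ((α z).2 l)) := by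
      refine tendsto_pi_nhds.2 fun i => tendsto_const_nhds.congr' ?_
      filter_upwards [eventually_ge_atTop i] with k hk
      exact (nc_agree (iota_mem (hpr l).ne_zero _) hσ (hs1 k) hk).symm
    have t4 := ((cd_up_cont l).tendsto _).comp (t2.prodMk_nhds t3)
    have hK : IsClosed ((fun z => tr (l + 1) (α z)) '' CdE a b ψ α P (l + 1)) :=
      ((cd_closed S.ca S.cP (l + 1)).isCompact.image ((tr_cont _).comp S.ca)).isClosed
    obtain ⟨z', hz', e⟩ := hK.mem_of_tendsto t4 (Eventually.of_forall fun k => by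
      have h2 := hγ.2 _ (hs' k)
      obtain ⟨z', hz'⟩ := S.cd_over hd hpr
        (up_mem hd h2.1 (iota_mem (hpr l).ne_zero (d l (γ (s k)))⁻¹) (Or.inr rfl)) h2.2
      refine ⟨z', S.cd_ne hd (ih z') ?_, hz'⟩
      rw [← d_tr hd le_rfl, ← tr_trunc (Nat.le_succ l), hz', tr_up h2.1]
      exact hs0 k)
    have e' : tr (l + 1) (α z') = tr (l + 1) (α z) := e.trans hup
    have h1 := S.path (l + 1) (fun _ => tr (l + 1) (α z))
      ⟨continuousOn_const, fun _ _ => ⟨tr_mem hd (S.am z).1 _, (S.am z).2⟩⟩ z z' rfl e' c (by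
        rintro ⟨t, -, h⟩
        exact hcon h.symm)
    exact hcon ((hz' c hc (h1 ▸ hm)).trans e')

theorem Sys.diag [CompactSpace Z] (hd : Dfam d) (hpr : ∀ j, (pr j).Prime) (S : Sys d pr a b ψ α P)
    (z : Z) (c : Om) (hc : c.1 ∈ Ioo a b) : ms ψ (P z) c = 0 := by
  classical
  have h1 : ∀ l z, z ∈ CdE a b ψ α P l := fun l => by
    induction l with
    | zero =>
      intro z c hc hm
      refine tr_eq_iff.2 ⟨?_, fun i hi => absurd hi (Nat.not_lt_zero i)⟩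
      by_contra h
      exact hm (S.off z c ⟨hc.1.le, hc.2.le⟩ h)
    | succ l ih => exact S.cd_step hd hpr ih
  have h2 : ∀ c : Om, c.1 ∈ Ioo a b → ms ψ (P z) c ≠ 0 → c = α z := fun c hc hm =>
    eq_of_tr fun l => h1 l z c hc hm
  by_contra hm
  obtain rfl := h2 c hc hm
  have e := sum_atm ψ (P z) fun x => if x.1 = (α z).1 then (1 : ℤ) else 0
  rw [Finset.sum_eq_single (α z)] at e
  · apply hm
    rw [if_pos rfl, smul_eq_mul, mul_one] at e
    rw [← e]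
    refine Eq.trans (Finset.sum_congr rfl fun j _ => ?_) (S.zero z)
    split_ifs <;> simp
  · intro x hx hne
    rw [if_neg, smul_zero]
    exact fun h => hne (h2 x (h ▸ hc) ((mem_atm ψ).1 hx))
  · exact fun h => absurd ((mem_atm ψ).2 hm) h

end Pool.Agent.P.MP_5aae23_gt.Nsh
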