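import Pool.Agent.P.MP_5aae23_gt.CB1
import Pool.Agent.P.MP_5aae23_gt.CA
import Pool.Agent.P.MP_5aae23_gt.CD

open Set Filter Topology Function

namespace Pool.Agent.P.MP_5aae23_gt.Nsh

variable {d : ℕ → Om → ℝ} {m : ℕ} {Tau W : Set (Fin m → ℝ)} {g G : ℝ} {u : Cf} {n0 : ℕ} {δ : ℝ}
  {lo hi : Fin 3 → ℝ} {Ψ : (Fin 3 → ℝ) × Cf → ℕ → ℝ}

theorem cb2_rep (hd : Dfam d) (hT : IsCompact Tau) {D : Type} [TopologicalSpace D]
    [CompactSpace D] {F : D → ℕ → ℝ} (hF : Continuous F) :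
    IsCompact {x : D × (Fin m → ℝ) × (Fin m → Cf) | Rep d Tau (F x.1) x.2.1 x.2.2} := by
  have h1 : IsCompact ((univ : Set D) ×ˢ Tau ×ˢ Set.pi univ fun _ : Fin m => KK d) :=
    isCompact_univ.prod (hT.prod (isCompact_univ_pi fun _ => kk_compact hd))
  have h2 : IsClosed {x : D × (Fin m → ℝ) × (Fin m → Cf) |
      F x.1 = ∑ j, x.2.1 j • ee d (x.2.2 j)} := by
    refine isClosed_eq (hF.comp continuous_fst) (continuous_finsetSum _ fun j _ => ?_)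
    exact ((continuous_apply j).comp (continuous_fst.comp continuous_snd)).smul
      ((ee_cont hd).comp ((continuous_apply j).comp (continuous_snd.comp continuous_snd)))
  have h3 : {x : D × (Fin m → ℝ) × (Fin m → Cf) | Rep d Tau (F x.1) x.2.1 x.2.2} =
      ((univ : Set D) ×ˢ Tau ×ˢ Set.pi univ fun _ : Fin m => KK d) ∩
        {x | F x.1 = ∑ j, x.2.1 j • ee d (x.2.2 j)} := by
    ext x
    exact ⟨fun h => ⟨⟨mem_univ _, h.1, fun j _ => h.2.1 j⟩, h.2.2⟩,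
      fun h => ⟨h.1.2.1, fun j => h.1.2.2 j (mem_univ _), h.2⟩⟩
  rw [h3]
  exact h1.inter_right h2

theorem cb2_rig (hd : Dfam d) (hG : Good Tau W g G) (hL : Loc d Tau u n0 δ lo hi Ψ)
    (ψ : Fin m → ℤ) (hψ : (fun j => (ψ j : ℝ)) ∈ W) (β : Ix) {N : ℕ} {D : Type}
    [TopologicalSpace D] [CompactSpace D] [T2Space D] [PreconnectedSpace D]
    {ζ : D → (Fin 3 → ℝ) × Cf} (hζ : Continuous ζ) (hm : ∀ x, ζ x ∈ Zf d u n0 δ lo hi N)
    {V : Set Om} (hV : IsOpen V)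
    (hNP : ∀ j, (∀ a ∈ Arc d (prm β), d j a = 0 → a ∈ V) → NP (prm β j) D) {x x' : D}
    {t t' : Fin m → ℝ} {p p' : Fin m → Cf} (hr : Rep d Tau (Ψ (ζ x)) t p)
    (hr' : Rep d Tau (Ψ (ζ x')) t' p') {c : Om} (hc : c ∈ V) :
    ms ψ (fun j => p j β) c = ms ψ (fun j => p' j β) c := by
  have hΨ : Continuous fun x : D => Ψ (ζ x) := (hL.cont N).comp_continuous hζ hm
  let R : Set (D × (Fin m → ℝ) × (Fin m → Cf)) := {x | Rep d Tau (Ψ (ζ x.1)) x.2.1 x.2.2}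
  have : CompactSpace R := isCompact_iff_compactSpace.1 (cb2_rep hd hG.cpt hΨ)
  exact rig hd (prm_prime β) (D := D) (R := R) (fun r => r.1.1)
    (continuous_fst.comp continuous_subtype_val)
    (fun x => by
      obtain ⟨t1, p1, h1⟩ := hL.rep N _ (hm x)
      exact ⟨⟨(x, t1, p1), h1⟩, rfl⟩)
    (fun r j => r.1.2.2 j β)
    (continuous_pi fun j => (continuous_apply β).comp ((continuous_apply j).comp
      (continuous_snd.comp (continuous_snd.comp continuous_subtype_val))))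
    (fun r j => (r.2.2.1 j).1 β) ψ
    (fun r r' h c => by
      have h1 : Rep d Tau (Ψ (ζ r.1.1)) r.1.2.1 r.1.2.2 := r.2
      have h2 : Rep d Tau (Ψ (ζ r'.1.1)) r'.1.2.1 r'.1.2.2 := r'.2
      have h3 : r.1.1 = r'.1.1 := h
      rw [← h3] at h2
      exact ni_cons_int hd hG ψ hψ h1 h2 β c)
    hV hNP ⟨(x, t, p), hr⟩ ⟨(x', t', p'), hr'⟩ c hc

/-- States in which only two arcs move, with opposite base values. -/
def cb2D (d : ℕ → Om → ℝ) (u : Cf) (lo : Fin 3 → ℝ) (β β' : Ix) (a b : ℝ) :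
    Set ((Fin 3 → ℝ) × Cf) :=
  Bx lo u (fun e => Arc d (prm e)) {β, β'} ∩
    {z | (z.2 β).1 ∈ Icc a b ∧ (z.2 β').1 = -(z.2 β).1}

theorem cb2_cont (β : Ix) : Continuous fun z : (Fin 3 → ℝ) × Cf => z.2 β :=
  (continuous_apply β).comp continuous_snd

theorem cb2_compact (hd : Dfam d) (β β' : Ix) (a b : ℝ) : IsCompact (cb2D d u lo β β' a b) :=
  (bx_compact lo u fun _ _ => arc_compact hd _).inter_right
    ((isClosed_Icc.preimage (cb2_cont β).fst).inter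
      (isClosed_eq (cb2_cont β').fst (cb2_cont β).fst.neg))

theorem cb2_sub (hL : Loc d Tau u n0 δ lo hi Ψ) {n : ℕ} (hn : n0 ≤ n) (v : Fin 3) {i i' : Fin 3}
    (hk : i = 1 ∧ i' = 2 ∨ i = 2 ∧ i' = 1) {a b : ℝ} (ha : -δ ≤ a) (hb : b ≤ δ)
    {z : (Fin 3 → ℝ) × Cf} (hz : z ∈ cb2D d u lo (n, v, i) (n, v, i') a b) :
    z ∈ Zf d u n0 δ lo hi (n + 1) ∧ (z.2 (n, v, 0)).1 = 0 := by
  obtain ⟨⟨h1, h2, h3⟩, h4, h5⟩ := hz
  have h6 : ∀ e : Ix, e ≠ (n, v, i) → e ≠ (n, v, i') → z.2 e = u e := fun e he he' =>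
    h3 e (by simp [he, he'])
  have h7 : ∀ n' v', z.2 (n', v', 0) = u (n', v', 0) := fun n' v' =>
    h6 _ (by rcases hk with h | h <;> simp [h.1]) (by rcases hk with h | h <;> simp [h.2])
  have h8 : ∀ n' v' k, (n', v') ≠ (n, v) → z.2 (n', v', k) = u (n', v', k) := fun n' v' k h =>
    h6 _ (fun e => h (by cases e; rfl)) fun e => h (by cases e; rfl)
  have h0 : (z.2 (n, v, 0)).1 = 0 := by rw [h7, hL.uzero _ hn]
  have h9 : |(z.2 (n, v, i)).1| ≤ δ := abs_le.2 ⟨ha.trans h4.1, h4.2.trans hb⟩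
  refine ⟨⟨by rw [h1]; exact ⟨le_rfl, fun k => (hL.lohi k).le⟩, ⟨fun e => ?_, fun n' v' => ?_⟩,
    fun e he => ?_, fun n' v' hn' => ⟨?_, ?_⟩⟩, h0⟩
  · by_cases h : e ∈ ({(n, v, i), (n, v, i')} : Finset Ix)
    · exact h2 e h
    · rw [h3 e h]
      exact hL.umem.1 e
  · by_cases h : (n', v') = (n, v)
    · cases h
      rw [Fin.sum_univ_three, h0]
      rcases hk with ⟨rfl, rfl⟩ | ⟨rfl, rfl⟩ <;> linarith
    · simp only [fun k => h8 n' v' k h]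
      exact hL.umem.2 n' v'
  · refine h6 e ?_ ?_ <;>
    · rintro rfl
      simp only at he
      omega
  · rw [h7, hL.uzero _ hn', abs_zero]
    exact hL.dpos.le
  · by_cases h : (n', v') = (n, v)
    · cases h
      rcases hk with ⟨rfl, rfl⟩ | ⟨rfl, rfl⟩
      · exact h9
      · rwa [h5, abs_neg]
    · rw [h8 _ _ _ h, hL.uzero _ hn', abs_zero]
      exact hL.dpos.le

theorem cb2_onto (hd : Dfam d) {β β' : Ix} (hβ : β ≠ β') {a b : ℝ} {x : Om}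
    (hx : x ∈ Arc d (prm β)) (hJ : x.1 ∈ Icc a b) :
    ∃ z ∈ cb2D d u lo β β' a b, z.2 β = x := by
  classical
  obtain ⟨x', h1, h2⟩ := (fib_conn hd (fun j => (prm_prime β' j).ne_zero) (-x.1)
    (by rw [abs_neg]; exact hx.1)).nonempty
  have h3 : update (update u β' x') β x β' = x' := by rw [update_of_ne hβ.symm, update_self]
  refine ⟨(lo, update (update u β' x') β x), ⟨⟨rfl, fun e he => ?_, fun e he => ?_⟩, ?_, ?_⟩,
    update_self ..⟩
  · rcases Finset.mem_insert.1 he with rfl | he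
    · simpa using hx
    · rw [Finset.mem_singleton.1 he]
      show update (update u β' x') β x β' ∈ _
      rw [h3]
      exact h1
  · simp only [Finset.mem_insert, Finset.mem_singleton, not_or] at he
    exact (update_of_ne he.1 _ _).trans (update_of_ne he.2 _ _)
  · simpa using hJ
  · simp only [h3, update_self]
    exact h2

theorem cb2_path (hd : Dfam d) (hG : Good Tau W g G) (hL : Loc d Tau u n0 δ lo hi Ψ)
    (ψ : Fin m → ℤ) (hψ : (fun j => (ψ j : ℝ)) ∈ W) {β β' : Ix} (hβ : β ≠ β') {a b : ℝ} {N : ℕ}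
    (hsub : cb2D d u lo β β' a b ⊆ Zf d u n0 δ lo hi N) {l : ℕ} {γ : ℝ → Om}
    (hγ : Pth d (prm β) a b l γ 0 1) {z z' : (Fin 3 → ℝ) × Cf}
    (hz : z ∈ cb2D d u lo β β' a b) (hz' : z' ∈ cb2D d u lo β β' a b)
    (e : tr l (z.2 β) = γ 0) (e' : tr l (z'.2 β) = γ 1) {t t' : Fin m → ℝ} {p p' : Fin m → Cf}
    (hr : Rep d Tau (Ψ z) t p) (hr' : Rep d Tau (Ψ z') t' p') {c : Om}
    (hc : tr l c ∉ γ '' Icc 0 1) : ms ψ (fun j => p j β) c = ms ψ (fun j => p' j β) c := by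
  classical
  have hpr : ∀ (e : Ix) j, prm e j ≠ 0 := fun e j => (prm_prime e j).ne_zero
  let D : Set (ℝ × (Fin 3 → ℝ) × Cf) :=
    (Icc 0 1 ×ˢ cb2D d u lo β β' a b) ∩ {x | tr l (x.2.2 β) = γ x.1}
  have hK : IsCompact (Icc (0 : ℝ) 1 ×ˢ cb2D d u lo β β' a b) :=
    isCompact_Icc.prod (cb2_compact hd β β' a b)
  have hD : IsCompact D := by
    refine hK.of_isClosed_subset ?_ inter_subset_left
    have h1 : ContinuousOn (fun x : ℝ × (Fin 3 → ℝ) × Cf => (tr l (x.2.2 β), γ x.1))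
        (Icc 0 1 ×ˢ cb2D d u lo β β' a b) :=
      ((tr_cont l).comp ((cb2_cont β).comp continuous_snd)).continuousOn.prodMk
        (hγ.1.comp continuous_fst.continuousOn fun x hx => hx.1)
    exact h1.preimage_isClosed_of_isClosed hK.isClosed isClosed_diagonal
  let F : ℝ → Ix → Set Om := fun τ e =>
    if e = β then Arc d (prm β) ∩ tr l ⁻¹' {γ τ} else Arc d (prm β') ∩ {x | x.1 = -(γ τ).1}
  have hF1 : ∀ τ, F τ β = Arc d (prm β) ∩ tr l ⁻¹' {γ τ} := fun τ => if_pos rfl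
  have hF2 : ∀ τ, F τ β' = Arc d (prm β') ∩ {x | x.1 = -(γ τ).1} := fun τ => if_neg hβ.symm
  have hall : ∀ {Q : Ix → Prop}, Q β → Q β' → ∀ e ∈ ({β, β'} : Finset Ix), Q e :=
    fun h1 h2 e he => by
      rcases Finset.mem_insert.1 he with rfl | he
      · exact h1
      · exact Finset.mem_singleton.1 he ▸ h2
  have hfib : ∀ τ ∈ Icc (0 : ℝ) 1,
      D ∩ Prod.fst ⁻¹' {τ} = Prod.mk τ '' Bx lo u (F τ) {β, β'} := by
    intro τ hτ
    ext x
    constructor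
    · rintro ⟨⟨⟨-, ⟨h1, h2, h3⟩, -, h5⟩, h6⟩, h7⟩
      have h8 : x.1 = τ := h7
      have h9 : tr l (x.2.2 β) = γ τ := h8 ▸ h6
      refine ⟨x.2, ⟨h1, hall (Q := fun e => x.2.2 e ∈ F τ e) ?_ ?_, h3⟩, Prod.ext h8.symm rfl⟩
      · rw [hF1]
        exact ⟨h2 β (by simp), h9⟩
      · rw [hF2]
        exact ⟨h2 β' (by simp), h5.trans (congrArg (fun y : Om => -y.1) h9 :)⟩
    · rintro ⟨y, ⟨h1, h2, h3⟩, rfl⟩
      have h4 := h2 β (by simp)
      have h5 := h2 β' (by simp)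
      rw [hF1] at h4
      rw [hF2] at h5
      have h6 : tr l (y.2 β) = γ τ := h4.2
      have h7 : (y.2 β).1 = (γ τ).1 := (congrArg Prod.fst h6 :)
      exact ⟨⟨⟨hτ, ⟨h1, hall (Q := fun e => y.2 e ∈ Arc d (prm e)) h4.1 h5.1, h3⟩,
        h7 ▸ (hγ.2 τ hτ).2, h7 ▸ h5.2⟩, h6⟩, rfl⟩
  have hq : ∀ τ ∈ Icc (0 : ℝ) 1, |-(γ τ).1| ≤ 1 := fun τ hτ => by
    rw [abs_neg]
    exact (hγ.2 τ hτ).1.1
  have hC : ∀ τ ∈ Icc (0 : ℝ) 1, ∀ e ∈ ({β, β'} : Finset Ix), IsConnected (F τ e) :=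
    fun τ hτ => hall (Q := fun e => IsConnected (F τ e))
      (by
        rw [hF1]
        obtain ⟨x, hx, hx'⟩ := arc_lift hd (hpr β) (hγ.2 τ hτ).1
        exact ⟨⟨x, hx, hx'⟩, arc_tr_conn hd (hpr β) (hγ.2 τ hτ).1⟩)
      (by
        rw [hF2]
        exact fib_conn hd (hpr β') _ (hq τ hτ))
  have hKF : ∀ τ, ∀ e ∈ ({β, β'} : Finset Ix), IsCompact (F τ e) :=
    fun τ => hall (Q := fun e => IsCompact (F τ e))
      (by
        rw [hF1]
        exact (arc_compact hd _).inter_right (isClosed_singleton.preimage (tr_cont l)))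
      (by
        rw [hF2]
        exact (arc_compact hd _).inter_right (isClosed_eq continuous_fst continuous_const))
  have him : Prod.fst '' D = Icc 0 1 := by
    refine subset_antisymm (by rintro _ ⟨x, hx, rfl⟩; exact hx.1.1) fun τ hτ => ?_
    obtain ⟨x, hx, hx'⟩ := arc_lift hd (hpr β) (hγ.2 τ hτ).1
    have h1 : x.1 = (γ τ).1 := (congrArg Prod.fst hx' :)
    obtain ⟨y, hy, hy'⟩ := cb2_onto (u := u) (lo := lo) hd hβ hx
      (show x.1 ∈ Icc a b from h1 ▸ (hγ.2 τ hτ).2)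
    exact ⟨(τ, y), ⟨⟨hτ, hy⟩, (congrArg (tr l) hy').trans hx'⟩, rfl⟩
  have hc1 : ∀ τ ∈ Icc (0 : ℝ) 1, IsPreconnected (D ∩ Prod.fst ⁻¹' {τ}) := fun τ hτ => by
    rw [hfib τ hτ]
    exact (bx_conn lo u fun e he => (hC τ hτ e he).isPreconnected).image _
      (Continuous.prodMk_right τ).continuousOn
  have : CompactSpace D := isCompact_iff_compactSpace.1 hD
  have : PreconnectedSpace D := isPreconnected_iff_preconnectedSpace.1
    (conn_set hD Prod.fst continuous_fst him hc1 isPreconnected_Icc)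
  have hV : IsOpen {c : Om | tr l c ∉ γ '' Icc 0 1} :=
    (((isCompact_Icc.image_of_continuousOn hγ.1).isClosed).preimage (tr_cont l)).isOpen_compl
  refine cb2_rig hd hG hL ψ hψ β (D := D) (ζ := fun x => x.1.2)
    (continuous_snd.comp continuous_subtype_val) (fun x => hsub x.2.1.2) hV (fun j hj => ?_)
    (x := ⟨(0, z), ⟨left_mem_Icc.2 zero_le_one, hz⟩, e⟩)
    (x' := ⟨(1, z'), ⟨right_mem_Icc.2 zero_le_one, hz'⟩, e'⟩) hr hr' hc
  refine np_set hD Prod.fst continuous_fst him hc1 (hpr β j)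
    (fun w hw _ => null_convex (convex_Icc 0 1) (w 0) (hw 0)) fun τ hτ => ?_
  rw [hfib τ hτ]
  refine np_image (bx_np lo u (hpr β j) _ (hKF τ) (hC τ hτ)
    (hall (Q := fun e => NP (prm β j) (F τ e)) ?_ ?_)) _ (Continuous.prodMk_right τ) Prod.snd
    continuous_snd fun _ => rfl
  · rw [hF1]
    refine phi_np hd (prm_prime β) (prm_prime β j) (hγ.2 τ hτ).1 fun j' h x hx hx' h0 => ?_
    obtain ⟨-, rfl⟩ := prm_inj h
    exact hj x hx h0 ⟨τ, hτ, hx'.symm⟩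
  · rw [hF2]
    exact fib_np hd (prm_prime β') (prm_prime β j) _ (hq τ hτ) fun j' h =>
      absurd (prm_inj h).1 hβ.symm

theorem blk_diag (hd : Dfam d) (hG : Good Tau W g G) (hL : Loc d Tau u n0 δ lo hi Ψ)
    (ψ : Fin m → ℤ) (hψ : (fun j => (ψ j : ℝ)) ∈ W) {n : ℕ} (hn : n0 ≤ n) (v : Fin 3)
    {i : Fin 3} (hi0 : i ≠ 0) {a b : ℝ} (hab : a < b) (ha : -δ ≤ a) (hb : b ≤ δ)
    (hoff : ∀ z p, St d Tau u n0 δ lo hi Ψ z p → (z.2 (n, v, 0)).1 = 0 →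
      (z.2 (n, v, i)).1 ∈ Icc a b →
      (∀ c : Om, c.1 ∈ Icc a b → c.1 ≠ (z.2 (n, v, i)).1 → ms ψ (fun j => p j (n, v, i)) c = 0) ∧
      (∑ j, if (p j (n, v, i)).1 = (z.2 (n, v, i)).1 then ψ j else 0) = 0) :
    ∀ z p, St d Tau u n0 δ lo hi Ψ z p → (z.2 (n, v, 0)).1 = 0 → (z.2 (n, v, i)).1 ∈ Icc a b →
      ∀ c : Om, c.1 ∈ Ioo a b → ms ψ (fun j => p j (n, v, i)) c = 0 := by
  obtain ⟨i', hk⟩ := (by decide : ∀ i : Fin 3, i ≠ 0 →
    ∃ i' : Fin 3, i = 1 ∧ i' = 2 ∨ i = 2 ∧ i' = 1) i hi0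
  have hβ : ((n, v, i) : Ix) ≠ (n, v, i') := by
    rcases hk with ⟨rfl, rfl⟩ | ⟨rfl, rfl⟩ <;> simp
  set D := cb2D d u lo (n, v, i) (n, v, i') a b with hD
  have hsub : ∀ z ∈ D, z ∈ Zf d u n0 δ lo hi (n + 1) ∧ (z.2 (n, v, 0)).1 = 0 := fun z hz =>
    cb2_sub hL hn v hk ha hb hz
  have : CompactSpace D := isCompact_iff_compactSpace.1 (cb2_compact hd _ _ a b)
  have hΨ : Continuous fun x : D => Ψ x :=
    (hL.cont (n + 1)).comp_continuous continuous_subtype_val fun x => (hsub x x.2).1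
  let R : Set (D × (Fin m → ℝ) × (Fin m → Cf)) := {x | Rep d Tau (Ψ x.1) x.2.1 x.2.2}
  have : CompactSpace R := isCompact_iff_compactSpace.1 (cb2_rep hd hG.cpt hΨ)
  have hst : ∀ r : R, St d Tau u n0 δ lo hi Ψ r.1.1 r.1.2.2 := fun r =>
    ⟨n + 1, r.1.2.1, (hsub _ r.1.1.2).1, r.2⟩
  have hδ := hL.dle
  have S : Sys d (prm (n, v, i)) a b ψ (fun r : R => r.1.1.1.2 (n, v, i))
      fun r j => r.1.2.2 j (n, v, i) :=
    { lt := hab
      ha := by linarith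
      hb := by linarith
      ca := (cb2_cont _).comp (continuous_subtype_val.comp
        (continuous_fst.comp continuous_subtype_val))
      cP := continuous_pi fun j => (continuous_apply _).comp ((continuous_apply j).comp
        (continuous_snd.comp (continuous_snd.comp continuous_subtype_val)))
      am := fun r => ⟨(hsub _ r.1.1.2).1.2.1.1 _, r.1.1.2.2.1⟩
      Pm := fun r j => (r.2.2.1 j).1 _
      onto := fun x hx hJ => by
        obtain ⟨z, hz, hz'⟩ := cb2_onto (u := u) (lo := lo) hd hβ hx hJ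
        obtain ⟨t, p, h⟩ := hL.rep (n + 1) z (hsub z hz).1
        exact ⟨⟨(⟨z, hz⟩, t, p), h⟩, hz'⟩
      path := fun l γ hγ r r' e e' c hc =>
        cb2_path hd hG hL ψ hψ hβ (fun z hz => (hsub z hz).1) hγ r.1.1.2 r'.1.1.2 e e' r.2 r'.2 hc
      off := fun r => (hoff _ _ (hst r) (hsub _ r.1.1.2).2 r.1.1.2.2.1).1
      zero := fun r => (hoff _ _ (hst r) (hsub _ r.1.1.2).2 r.1.1.2.2.1).2 }
  intro z p h _ hJ c hc
  obtain ⟨r, hr⟩ := S.onto (z.2 (n, v, i)) (by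
    obtain ⟨N, t, h1, -⟩ := h
    exact h1.2.1.1 _) hJ
  rw [alpha0 hd hG hL ψ hψ (n, v, i) h (hst r) hr.symm c]
  exact S.diag hd (prm_prime _) r c hc

end Pool.Agent.P.MP_5aae23_gt.Nsh
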