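import Pool.Agent.P.MP_5aae23_gt.CB2

open Set Filter Topology Function

namespace Pool.Agent.P.MP_5aae23_gt.Nsh

variable {d : ℕ → Om → ℝ} {m : ℕ} {Tau W : Set (Fin m → ℝ)} {g G : ℝ} {u : Cf} {n0 : ℕ} {δ : ℝ}
  {lo hi : Fin 3 → ℝ} {Ψ : (Fin 3 → ℝ) × Cf → ℕ → ℝ}

theorem ce_alpha (hd : Dfam d) (hG : Good Tau W g G) (hL : Loc d Tau u n0 δ lo hi Ψ)
    (ψ : Fin m → ℤ) (hψ : (fun j => (ψ j : ℝ)) ∈ W) {β : Ix} (hβ : n0 ≤ β.1)
    {z z' : (Fin 3 → ℝ) × Cf} {p p' : Fin m → Cf} (h : St d Tau u n0 δ lo hi Ψ z p)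
    (h' : St d Tau u n0 δ lo hi Ψ z' p') {q q' : ℝ} (hy : (z.2 β).1 ∈ Icc q q')
    (hy' : (z'.2 β).1 ∈ Icc q q') (c : Om) (hc : c.1 ∉ Icc q q') :
    ms ψ (fun j => p j β) c = ms ψ (fun j => p' j β) c := by
  obtain ⟨N, t, hz, hr⟩ := h
  obtain ⟨N', t', hz', hr'⟩ := h'
  exact nf_alpha hd hG hL ψ hψ β hβ (nj_zf_mono (le_max_left N N') hz)
    (nj_zf_mono (le_max_right N N') hz') hr hr' hy hy' c hc

theorem ce_sums {n : ℕ} {v : Fin 3} (s : Fin m → ℝ) {z : (Fin 3 → ℝ) × Cf} {p : Fin m → Cf}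
    (h : St d Tau u n0 δ lo hi Ψ z p) : ∑ j, s j * (p j (n, v, 0)).1 +
      ∑ j, s j * (p j (n, v, 1)).1 + ∑ j, s j * (p j (n, v, 2)).1 = 0 ∧
      (z.2 (n, v, 0)).1 + (z.2 (n, v, 1)).1 + (z.2 (n, v, 2)).1 = 0 := by
  obtain ⟨N, t, hz, hr⟩ := h
  refine ⟨?_, by simpa only [Fin.sum_univ_three] using hz.2.1.2 n v⟩
  rw [← Finset.sum_add_distrib, ← Finset.sum_add_distrib]
  refine Finset.sum_eq_zero fun j _ => ?_
  have := (hr.2.1 j).2 n v
  rw [Fin.sum_univ_three] at this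
  rw [← mul_add, ← mul_add, this, mul_zero]

/-- An integral against a measure that vanishes where the function does not. -/
theorem ce_int_zero (ψ : Fin m → ℤ) (P : Fin m → Om) (F : Om → ℝ)
    (h : ∀ c, F c ≠ 0 → ms ψ P c = 0) : ∑ j, (ψ j : ℝ) * F (P j) = 0 := by
  classical
  rw [nj_sum_ms ψ P F (Finset.univ.image P) (fun j => by simp)]
  refine Finset.sum_eq_zero fun c _ => ?_
  by_cases hc : F c = 0
  · rw [hc, mul_zero]
  · rw [h c hc, Int.cast_zero, zero_mul]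

/-- Over an interval that misses the points of the two end states, atoms follow the parameter. -/
theorem ce_off (hd : Dfam d) (hG : Good Tau W g G) (hL : Loc d Tau u n0 δ lo hi Ψ)
    (ψ : Fin m → ℤ) (hψ : (fun j => (ψ j : ℝ)) ∈ W) {β : Ix} (hβ : n0 ≤ β.1)
    {zm zp : (Fin 3 → ℝ) × Cf} {pm pp : Fin m → Cf} (hm : St d Tau u n0 δ lo hi Ψ zm pm)
    (hp : St d Tau u n0 δ lo hi Ψ zp pp) (em : (zm.2 β).1 = -δ) (ep : (zp.2 β).1 = δ) {a b : ℝ}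
    (ha : -δ ≤ a) (hb : b ≤ δ) (k1 : ∀ j, (pm j β).1 ∉ Icc a b) (k2 : ∀ j, (pp j β).1 ∉ Icc a b)
    {z : (Fin 3 → ℝ) × Cf} {p : Fin m → Cf} (h : St d Tau u n0 δ lo hi Ψ z p)
    (hy : (z.2 β).1 ∈ Icc a b) (c : Om) (hc : c.1 ∈ Icc a b) (hne : c.1 ≠ (z.2 β).1) :
    ms ψ (fun j => p j β) c = 0 := by
  classical
  rcases hne.lt_or_gt with h1 | h1
  · rw [ce_alpha hd hG hL ψ hψ hβ h hp (q := (z.2 β).1) (q' := δ) ⟨le_rfl, hy.2.trans hb⟩
      ⟨ep ▸ hy.2.trans hb, ep.le⟩ c fun h2 => absurd h2.1 (not_le.2 h1)]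
    exact Finset.sum_eq_zero fun j _ => if_neg fun e => k2 j (by
      have e' : pp j β = c := e
      rw [e']; exact hc)
  · rw [ce_alpha hd hG hL ψ hψ hβ h hm (q := -δ) (q' := (z.2 β).1) ⟨ha.trans hy.1, le_rfl⟩
      ⟨em.ge, em ▸ ha.trans hy.1⟩ c fun h2 => absurd h2.2 (not_le.2 h1)]
    exact Finset.sum_eq_zero fun j _ => if_neg fun e => k1 j (by
      have e' : pm j β = c := e
      rw [e']; exact hc)

/-- Equal first moments at two different values force zero mass over the parameter. -/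
theorem ce_mass (hd : Dfam d) (hG : Good Tau W g G) (hL : Loc d Tau u n0 δ lo hi Ψ)
    (ψ : Fin m → ℤ) (hψ : (fun j => (ψ j : ℝ)) ∈ W) {β : Ix} (hβ : n0 ≤ β.1) {a b : ℝ}
    {z z' : (Fin 3 → ℝ) × Cf} {p p' : Fin m → Cf} (h : St d Tau u n0 δ lo hi Ψ z p)
    (h' : St d Tau u n0 δ lo hi Ψ z' p') (hy : (z.2 β).1 ∈ Icc a b) (hy' : (z'.2 β).1 ∈ Icc a b)
    (o1 : ∀ c : Om, c.1 ∈ Icc a b → c.1 ≠ (z.2 β).1 → ms ψ (fun j => p j β) c = 0)
    (o2 : ∀ c : Om, c.1 ∈ Icc a b → c.1 ≠ (z'.2 β).1 → ms ψ (fun j => p' j β) c = 0)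
    (hne : (z.2 β).1 ≠ (z'.2 β).1)
    (e : ∑ j, (ψ j : ℝ) * (p j β).1 = ∑ j, (ψ j : ℝ) * (p' j β).1) :
    (∑ j, if (p j β).1 = (z.2 β).1 then ψ j else 0) = 0 := by
  classical
  set y := (z.2 β).1
  set y' := (z'.2 β).1
  have h1 := nj_alpha hd hG hL hψ hβ h h' hy hy' (fun x => if x ∈ Icc a b then 0 else x - y')
    fun x hx => if_pos hx
  have h2 := ce_int_zero ψ (fun j => p' j β) (fun c => if c.1 ∈ Icc a b then c.1 - y' else 0)
    fun c hc => o2 c (by by_contra h3; exact hc (if_neg h3)) fun h3 => hc (by simp [h3])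
  have h3 := ce_int_zero ψ (fun j => p j β)
    (fun c => (if c.1 ∈ Icc a b then c.1 - y' else 0) - if c.1 = y then y - y' else 0)
    fun c hc => o1 c
      (by
        by_contra h3
        exact hc (by rw [if_neg h3, if_neg fun h4 : c.1 = y => h3 (h4 ▸ hy), sub_zero]))
      fun h3 => hc (by rw [h3, if_pos hy, if_pos rfl, sub_self])
  have h4 : ∀ r : Fin m → Cf, ∑ j, (ψ j : ℝ) * (r j β).1 - (∑ j, (ψ j : ℝ)) * y' =
      ∑ j, (ψ j : ℝ) * (if (r j β).1 ∈ Icc a b then 0 else (r j β).1 - y') +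
        ∑ j, (ψ j : ℝ) * (if (r j β).1 ∈ Icc a b then (r j β).1 - y' else 0) := by
    intro r
    rw [Finset.sum_mul, ← Finset.sum_sub_distrib, ← Finset.sum_add_distrib]
    refine Finset.sum_congr rfl fun j _ => ?_
    split_ifs <;> ring
  have h5 : ∑ j, (ψ j : ℝ) * (if (p j β).1 = y then y - y' else 0) =
      ((∑ j, if (p j β).1 = y then ψ j else 0 : ℤ) : ℝ) * (y - y') := by
    push_cast
    rw [Finset.sum_mul]
    refine Finset.sum_congr rfl fun j _ => ?_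
    split_ifs <;> simp
  simp only [mul_sub, Finset.sum_sub_distrib] at h3
  have h6 : ((∑ j, if (p j β).1 = y then ψ j else 0 : ℤ) : ℝ) * (y - y') = 0 := by
    have k1 := h4 p
    have k2 := h4 p'
    linarith
  exact_mod_cast (mul_eq_zero.1 h6).resolve_right (sub_ne_zero.2 hne)

theorem blk_const (hd : Dfam d) (hG : Good Tau W g G) (hL : Loc d Tau u n0 δ lo hi Ψ) {n : ℕ}
    (hn : n0 ≤ n) (v : Fin 3)
    (hz : ∀ s ∈ W, ∀ z p z' p', St d Tau u n0 δ lo hi Ψ z p → St d Tau u n0 δ lo hi Ψ z' p' →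
      ∑ j, s j * (p j (n, v, 0)).1 = ∑ j, s j * (p' j (n, v, 0)).1) :
    ∃ a b : ℝ, -δ ≤ a ∧ a < b ∧ b ≤ δ ∧ ∀ ψ : Fin m → ℤ, (fun j => (ψ j : ℝ)) ∈ W →
      ∀ z p z' p', St d Tau u n0 δ lo hi Ψ z p → St d Tau u n0 δ lo hi Ψ z' p' →
        (z.2 (n, v, 0)).1 = 0 → (z'.2 (n, v, 0)).1 = 0 → (z.2 (n, v, 1)).1 ∈ Icc a b →
        (z'.2 (n, v, 1)).1 ∈ Icc a b → ∀ i : Fin 3, i ≠ 0 → ∀ c,
          ms ψ (fun j => p j (n, v, i)) c = ms ψ (fun j => p' j (n, v, i)) c := by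
  classical
  have hδ := hL.dpos
  have h00 : |(0 : ℝ)| ≤ δ := by simpa using hδ.le
  obtain ⟨zm, pm, hm, hm0, hm1⟩ := nj_st hd hL hn v (y1 := -δ) h00 (by rw [abs_neg, abs_of_pos hδ])
  obtain ⟨zp, pp, hp, hp0, hp1⟩ := nj_st hd hL hn v (y1 := δ) h00 (by rw [abs_of_pos hδ])
  have hm2 : (zm.2 (n, v, 2)).1 = δ := by linarith [(ce_sums (n := n) (v := v) 0 hm).2]
  have hp2 : (zp.2 (n, v, 2)).1 = -δ := by linarith [(ce_sums (n := n) (v := v) 0 hp).2]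
  have hF : ((range (fun j => (pm j (n, v, 1)).1) ∪ range fun j => (pp j (n, v, 1)).1) ∪
      (range (fun j => -(pm j (n, v, 2)).1) ∪ range fun j => -(pp j (n, v, 2)).1)).Finite :=
    ((finite_range _).union (finite_range _)).union ((finite_range _).union (finite_range _))
  obtain ⟨x, hx⟩ := ((Ioo_infinite (show -δ < δ by linarith)).sdiff hF).nonempty
  obtain ⟨ε, hε, hsub⟩ := Metric.mem_nhds_iff.1 ((isOpen_Ioo.sdiff hF.isClosed).mem_nhds hx)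
  have hε0 : 0 < ε / 4 := by positivity
  obtain ⟨e, he⟩ : ∃ e, e = ε / 4 := ⟨_, rfl⟩
  rw [← he] at hε0
  have hI : ∀ y ∈ Icc (x - 2 * e) (x + 2 * e), y ∈ Metric.ball x ε := fun y hy => by
    rw [Metric.mem_ball, Real.dist_eq, abs_lt]
    constructor <;> linarith [hy.1, hy.2]
  have ha : -δ < x - 2 * e := (hsub (hI _ ⟨le_rfl, by linarith⟩)).1.1
  have hb : x + 2 * e < δ := (hsub (hI _ ⟨by linarith, le_rfl⟩)).1.2
  refine ⟨x - e, x + e, by linarith, by linarith, by linarith,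
    fun ψ hψ z p z' p' h h' k0 k0' k1 k1' i hi0 c => ?_⟩
  have o1 := fun z p => ce_off hd hG hL ψ hψ (β := (n, v, 1)) hn hm hp hm1 hp1 ha.le hb.le
    (fun j hj => (hsub (hI _ hj)).2 (Or.inl (Or.inl ⟨j, rfl⟩)))
    (fun j hj => (hsub (hI _ hj)).2 (Or.inl (Or.inr ⟨j, rfl⟩))) (z := z) (p := p)
  have o2 := fun z p => ce_off hd hG hL ψ hψ (β := (n, v, 2)) hn hp hm hp2 hm2
    (a := -(x + 2 * e)) (b := -(x - 2 * e)) (by linarith) (by linarith)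
    (fun j hj => (hsub (hI _ ⟨by linarith [hj.2], by linarith [hj.1]⟩)).2
      (Or.inr (Or.inr ⟨j, rfl⟩)))
    (fun j hj => (hsub (hI _ ⟨by linarith [hj.2], by linarith [hj.1]⟩)).2
      (Or.inr (Or.inl ⟨j, rfl⟩))) (z := z) (p := p)
  have hsm : |min e δ| ≤ δ := by
    rw [abs_of_pos (lt_min hε0 hδ)]
    exact min_le_right _ _
  have hIδ : ∀ y ∈ Icc (x - 2 * e) (x + 2 * e), |y| ≤ δ := fun y hy =>
    abs_le.2 ⟨ha.le.trans hy.1, hy.2.trans hb.le⟩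
  have g1 : ∀ z p z' p', St d Tau u n0 δ lo hi Ψ z p → St d Tau u n0 δ lo hi Ψ z' p' →
      (z.2 (n, v, 2)).1 = (z'.2 (n, v, 2)).1 →
      ∑ j, (ψ j : ℝ) * (p j (n, v, 1)).1 = ∑ j, (ψ j : ℝ) * (p' j (n, v, 1)).1 := by
    intro z p z' p' h h' e2
    have e3 := nj_same hd hG hL hψ (β := (n, v, 2)) hn h h' e2
    have e4 := hz _ hψ z p z' p' h h'
    linarith [(ce_sums (n := n) (v := v) (fun j => (ψ j : ℝ)) h).1,
      (ce_sums (n := n) (v := v) (fun j => (ψ j : ℝ)) h').1]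
  have hoth : ∀ y ∈ Icc (x - 2 * e) (x + 2 * e), ∃ y' ∈ Icc (x - 2 * e) (x + 2 * e),
      y' ≠ y ∧ |y - y'| ≤ δ := by
    intro y hy
    have h1 := lt_min hε0 hδ
    have h2 := min_le_left e δ
    rcases le_total y x with h3 | h3
    · refine ⟨y + min e δ, ⟨by linarith [hy.1], by linarith⟩, by linarith, ?_⟩
      rw [sub_add_cancel_left, abs_neg]
      exact hsm
    · refine ⟨y - min e δ, ⟨by linarith, by linarith [hy.2]⟩, by linarith, ?_⟩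
      rw [sub_sub_cancel]
      exact hsm
  have z1 : ∀ z p, St d Tau u n0 δ lo hi Ψ z p → (z.2 (n, v, 0)).1 = 0 →
      (z.2 (n, v, 1)).1 ∈ Icc (x - 2 * e) (x + 2 * e) →
      ∃ z' p', St d Tau u n0 δ lo hi Ψ z' p' ∧ (z'.2 (n, v, 0)).1 = 0 ∧
        (z'.2 (n, v, 1)).1 ∈ Icc (x - 2 * e) (x + 2 * e) ∧
        (z.2 (n, v, 1)).1 ≠ (z'.2 (n, v, 1)).1 ∧
        ∑ j, (ψ j : ℝ) * (p j (n, v, 1)).1 = ∑ j, (ψ j : ℝ) * (p' j (n, v, 1)).1 := by
    intro z p h k0 k1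
    obtain ⟨y', hy', hne, hle⟩ := hoth _ k1
    obtain ⟨z1, p1, h1, a0, a1⟩ := nj_st hd hL hn v hle (hIδ _ hy')
    obtain ⟨z2, p2, h2, b0, b1⟩ := nj_st hd hL hn v h00 (hIδ _ hy')
    refine ⟨z2, p2, h2, b0, b1 ▸ hy', b1 ▸ hne.symm, ?_⟩
    rw [g1 z p z1 p1 h h1 (by
      linarith [(ce_sums (n := n) (v := v) 0 h).2, (ce_sums (n := n) (v := v) 0 h1).2])]
    exact nj_same hd hG hL hψ (β := (n, v, 1)) hn h1 h2 (a1.trans b1.symm)
  have hi' : i = 1 ∨ i = 2 := by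
    fin_cases i
    · exact absurd rfl hi0
    · exact Or.inl rfl
    · exact Or.inr rfl
  have s2 := (ce_sums (n := n) (v := v) 0 h).2
  have s2' := (ce_sums (n := n) (v := v) 0 h').2
  rcases hi' with rfl | rfl
  · have D := blk_diag hd hG hL ψ hψ hn v hi0 (a := x - 2 * e) (b := x + 2 * e) (by linarith)
      ha.le hb.le fun z p h k0 k1 => ⟨o1 z p h k1, by
        obtain ⟨z', p', h', -, k1', hne, e1⟩ := z1 z p h k0 k1
        exact ce_mass hd hG hL ψ hψ (β := (n, v, 1)) hn h h' k1 k1' (o1 z p h k1)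
          (o1 z' p' h' k1') hne e1⟩
    by_cases hc : c.1 ∈ Icc (x - e) (x + e)
    · have hc' : c.1 ∈ Ioo (x - 2 * e) (x + 2 * e) := ⟨by linarith [hc.1], by linarith [hc.2]⟩
      rw [D z p h k0 ⟨by linarith [k1.1], by linarith [k1.2]⟩ c hc',
        D z' p' h' k0' ⟨by linarith [k1'.1], by linarith [k1'.2]⟩ c hc']
    · exact ce_alpha hd hG hL ψ hψ (β := (n, v, 1)) hn h h' k1 k1' c hc
  · have D := blk_diag hd hG hL ψ hψ hn v hi0 (a := -(x + 2 * e)) (b := -(x - 2 * e))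
      (by linarith) (by linarith) (by linarith) fun z p h k0 k2 => ⟨o2 z p h k2, by
        have s1 := (ce_sums (n := n) (v := v) 0 h).2
        obtain ⟨z', p', h', k0', k1', hne, e1⟩ := z1 z p h k0
          ⟨by linarith [k2.2], by linarith [k2.1]⟩
        have s1' := (ce_sums (n := n) (v := v) 0 h').2
        have k2' : (z'.2 (n, v, 2)).1 ∈ Icc (-(x + 2 * e)) (-(x - 2 * e)) :=
          ⟨by linarith [k1'.2], by linarith [k1'.1]⟩
        refine ce_mass hd hG hL ψ hψ (β := (n, v, 2)) hn h h' k2 k2' (o2 z p h k2)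
          (o2 z' p' h' k2') (fun e2 => hne (by linarith)) ?_
        have e4 := hz _ hψ z p z' p' h h'
        linarith [(ce_sums (n := n) (v := v) (fun j => (ψ j : ℝ)) h).1,
          (ce_sums (n := n) (v := v) (fun j => (ψ j : ℝ)) h').1]⟩
    by_cases hc : c.1 ∈ Icc (-(x + e)) (-(x - e))
    · have hc' : c.1 ∈ Ioo (-(x + 2 * e)) (-(x - 2 * e)) :=
        ⟨by linarith [hc.1], by linarith [hc.2]⟩
      rw [D z p h k0 ⟨by linarith [k1.2], by linarith [k1.1]⟩ c hc',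
        D z' p' h' k0' ⟨by linarith [k1'.2], by linarith [k1'.1]⟩ c hc']
    · exact ce_alpha hd hG hL ψ hψ (β := (n, v, 2)) hn h h'
        ⟨by linarith [k1.2], by linarith [k1.1]⟩ ⟨by linarith [k1'.2], by linarith [k1'.1]⟩ c hc

end Pool.Agent.P.MP_5aae23_gt.Nsh
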