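import Pool.Agent.P.MP_5aae23_gt.NN

open Set Filter Topology Function

namespace Pool.Agent.P.MP_5aae23_gt.Nsh

/-- Approximate zeros on a finite product of chains. -/
theorem cf_grid {ι : Type} [Fintype ι] (m : ι → ℕ) (f : (ι → ℕ) → ι → ℝ)
    (h1 : ∀ p k, p k = 0 → f p k ≤ 0) (h2 : ∀ p k, p k = m k → 0 ≤ f p k) {η : ℝ}
    (hc : ∀ p q : ι → ℕ, (∀ k, p k ≤ m k) → (∀ k, q k ≤ m k) →
      (∀ k, p k = q k ∨ p k + 1 = q k ∨ q k + 1 = p k) → ∀ k, |f p k - f q k| < η) :
    ∃ p : ι → ℕ, ∀ k, |f p k| < η := by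
  classical
  let t : Finset (ι → ℕ) := Fintype.piFinset fun k => Finset.range (m k + 1)
  let w : (ι → ℝ) → (ι → ℕ) → ℝ := fun z p => ∏ k, tent (p k) (z k)
  have hw : ∀ z p, 0 ≤ w z p := fun z p => Finset.prod_nonneg fun k _ => tent_nonneg _ _
  have hwc : ∀ p, Continuous fun z => w z p := fun p =>
    continuous_finsetProd _ fun k _ => (tent_cont _).comp (continuous_apply k)
  have hwne : ∀ z p, w z p ≠ 0 → ∀ k, tent (p k) (z k) ≠ 0 := fun z p h k =>
    Finset.prod_ne_zero_iff.1 h k (Finset.mem_univ k)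
  let F : (ι → ℝ) → ι → ℝ := fun z k => -∑ p ∈ t, w z p * f p k
  have hF : Continuous F := continuous_pi fun k =>
    (continuous_finsetSum _ fun p _ => (hwc p).mul continuous_const).neg
  obtain ⟨z, hz, hz0⟩ := MP_cac9ea_co.Sc.miranda (fun _ => (0 : ℝ)) (fun k => (m k : ℝ))
    (fun k => Nat.cast_nonneg (m k)) F hF
    (by
      intro z _ k hk
      change 0 ≤ -∑ p ∈ t, w z p * f p k
      refine neg_nonneg.2 (Finset.sum_nonpos fun p _ => ?_)
      by_cases h0 : w z p = 0
      · rw [h0, zero_mul]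
      · have h3 := hwne z p h0 k
        have e : z k = ((0 : ℕ) : ℝ) := hk.trans Nat.cast_zero.symm
        rw [e] at h3
        exact mul_nonpos_of_nonneg_of_nonpos (hw z p) (h1 p k (tent_eq h3)))
    (by
      intro z _ k hk
      change -∑ p ∈ t, w z p * f p k ≤ 0
      refine neg_nonpos.2 (Finset.sum_nonneg fun p _ => ?_)
      by_cases h0 : w z p = 0
      · rw [h0, zero_mul]
      · have h3 := hwne z p h0 k
        have e : z k = ((m k : ℕ) : ℝ) := hk
        rw [e] at h3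
        exact mul_nonneg (hw z p) (h2 p k (tent_eq h3)))
  have hex : ∀ k, ∃ i ≤ m k, 0 < tent i (z k) := fun k => tent_pos (hz.1 k) (hz.2 k)
  choose q hq hqp using hex
  have hmem : q ∈ t := Fintype.mem_piFinset.2 fun k =>
    Finset.mem_range.2 (Nat.lt_succ_of_le (hq k))
  have hp : 0 < w z q := Finset.prod_pos fun k _ => hqp k
  refine ⟨q, fun k => small_of_sum t (w z) (fun p => f p k) (hw z) hmem hp ?_ ?_⟩
  · intro p hpt hp0
    exact hc p q
      (fun j => Nat.le_of_lt_succ (Finset.mem_range.1 (Fintype.mem_piFinset.1 hpt j))) hq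
      (fun j => tent_adj (hwne z p hp0 j) (hqp j).ne') k
  · have e0 : -∑ p ∈ t, w z p * f p k = 0 := congrFun hz0 k
    exact neg_eq_zero.1 e0

/-- An entourage of a finite power contains a box of entourages. -/
theorem cf_box {X : Type} [UniformSpace X] {ι : Type} [Fintype ι]
    {E : Set ((ι → X) × (ι → X))} (hE : E ∈ uniformity (ι → X)) :
    ∃ W : ι → Set (X × X), (∀ k, W k ∈ uniformity X) ∧
      ∀ u v : ι → X, (∀ k, (u k, v k) ∈ W k) → (u, v) ∈ E := by
  rw [Pi.uniformity] at hE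
  obtain ⟨T, hT, rfl⟩ := (Filter.mem_iInf_of_finite _).1 hE
  choose W hW hWT using fun k => Filter.mem_comap.1 (hT k)
  exact ⟨W, hW, fun u v h => Set.mem_iInter.2 fun k => hWT k (h k)⟩

/-- Poincare-Miranda on a finite product of continua. -/
theorem pmN {X : Type} [UniformSpace X] {ι : Type} [Fintype ι] (S : ι → Set X)
    (hS : ∀ k, IsCompact (S k)) (hc : ∀ k, IsPreconnected (S k)) (f : (ι → X) → ι → ℝ)
    (hf : ContinuousOn f (Set.pi univ S)) (a b : ι → X) (ha : ∀ k, a k ∈ S k)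
    (hb : ∀ k, b k ∈ S k) (h1 : ∀ x ∈ Set.pi univ S, ∀ k, x k = a k → f x k ≤ 0)
    (h2 : ∀ x ∈ Set.pi univ S, ∀ k, x k = b k → 0 ≤ f x k) : ∃ x ∈ Set.pi univ S, f x = 0 := by
  have hK : IsCompact (Set.pi univ S) := isCompact_univ_pi hS
  obtain ⟨z, hz, hmin⟩ := hK.exists_isMinOn ⟨a, fun k _ => ha k⟩ hf.norm
  refine ⟨z, hz, norm_le_zero_iff.1 (le_of_forall_pos_le_add fun ε hε => ?_)⟩
  have hu := hK.uniformContinuousOn_of_continuous hf
  have hE : ∀ᶠ q : (ι → X) × (ι → X) in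
      uniformity (ι → X) ⊓ 𝓟 (Set.pi univ S ×ˢ Set.pi univ S), dist (f q.1) (f q.2) < ε :=
    hu (Metric.dist_mem_uniformity hε)
  rw [eventually_inf_principal] at hE
  obtain ⟨W, hW, hWE⟩ := cf_box hE
  choose m x x0 xm hx hxs using fun k => exists_chain (hc k) (hW k) (ha k) (hb k)
  have hmem : ∀ p : ι → ℕ, (fun j => x j (p j)) ∈ Set.pi univ S := fun p j _ => hx j (p j)
  obtain ⟨p, hp⟩ := cf_grid m (fun p => f fun j => x j (p j))
    (fun p k hk => h1 _ (hmem p) k (by rw [hk, x0]))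
    (fun p k hk => h2 _ (hmem p) k (by rw [hk, xm]))
    (η := ε) (by
      intro p q hp hq hadj k
      have hpq : ∀ j, (x j (p j), x j (q j)) ∈ W j := by
        intro j
        rcases hadj j with e | e | e
        · rw [e]
          exact refl_mem_uniformity (hW j)
        · rw [← e]
          exact (hxs j (p j) (by have := hq j; omega)).1
        · rw [← e]
          exact (hxs j (q j) (by have := hp j; omega)).2
      have h3 : dist (f fun j => x j (p j)) (f fun j => x j (q j)) < ε :=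
        hWE (fun j => x j (p j)) (fun j => x j (q j)) hpq ⟨hmem p, hmem q⟩
      have h4 := dist_le_pi_dist (f fun j => x j (p j)) (f fun j => x j (q j)) k
      rw [Real.dist_eq] at h4
      exact h4.trans_lt h3)
  have h5 : ‖f z‖ ≤ ‖f fun j => x j (p j)‖ := hmin (hmem p)
  have h6 : ‖f fun j => x j (p j)‖ ≤ ε :=
    (pi_norm_le_iff_of_nonneg hε.le).2 fun k => (hp k).le
  rw [zero_add]
  exact h5.trans h6

end Pool.Agent.P.MP_5aae23_gt.Nsh
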