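import Pool.Agent.P.MP_5aae23_gt.CF

open Set Filter Topology Function

namespace Pool.Agent.P.MP_5aae23_gt.Nsh

/-- A linear section of `L` that is continuous on the range of `L`. -/
theorem cg_sect {m : ℕ} (L : (Fin m → ℝ) →ₗ[ℝ] (ℕ → ℝ)) :
    ∃ σ : (ℕ → ℝ) → Fin m → ℝ, ContinuousOn σ (range L) ∧ ∀ t, L (σ (L t)) = L t := by
  obtain ⟨g, hg⟩ := L.rangeRestrict.exists_rightInverse_of_surjective L.range_rangeRestrict
  obtain ⟨σ, hσ⟩ := g.exists_extend
  have hgc : Continuous g := g.continuous_of_finiteDimensional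
  have h1 : ∀ v : LinearMap.range L, σ v = g v := fun v => LinearMap.congr_fun hσ v
  refine ⟨σ, ?_, fun t => ?_⟩
  · rw [continuousOn_iff_continuous_domRestrict]
    have h2 : Continuous fun v : range L => g ⟨v.1, v.2⟩ :=
      hgc.comp (continuous_subtype_val.subtype_mk _)
    exact h2.congr fun v => (h1 ⟨v.1, v.2⟩).symm
  · have h2 := h1 ⟨L t, t, rfl⟩
    have h3 := congrArg Subtype.val (LinearMap.congr_fun hg ⟨L t, t, rfl⟩)
    have h4 : σ (L t) = g ⟨L t, t, rfl⟩ := h2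
    rw [h4]
    exact h3

/-- Uniform approximation by `C¹` functions of an injective map. -/
theorem cg_approx {D : Type} [TopologicalSpace D] [CompactSpace D] {m : ℕ} (Ψ : D → Fin m → ℝ)
    (hΨ : Continuous Ψ) (hi : Injective Ψ) (f : D → ℝ) (hf : Continuous f) {η : ℝ} (hη : 0 < η) :
    ∃ φ : (Fin m → ℝ) → ℝ, ContDiff ℝ 1 φ ∧ ∀ z, |φ (Ψ z) - f z| < η := by
  let A : Subalgebra ℝ C(D, ℝ) :=
    { carrier := {u | ∃ φ : (Fin m → ℝ) → ℝ, ContDiff ℝ 1 φ ∧ ∀ z, u z = φ (Ψ z)}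
      mul_mem' := by
        rintro u v ⟨φ, h1, h2⟩ ⟨ψ, h3, h4⟩
        exact ⟨fun t => φ t * ψ t, h1.mul h3, fun z => by
          rw [ContinuousMap.mul_apply, h2, h4]⟩
      add_mem' := by
        rintro u v ⟨φ, h1, h2⟩ ⟨ψ, h3, h4⟩
        exact ⟨fun t => φ t + ψ t, h1.add h3, fun z => by
          rw [ContinuousMap.add_apply, h2, h4]⟩
      algebraMap_mem' := fun c => ⟨fun _ => c, contDiff_const, fun z => by
        rw [algebraMap_apply]; exact mul_one c⟩ }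
  have hA : A.SeparatesPoints := by
    intro x y hxy
    obtain ⟨j, hj⟩ := Function.ne_iff.1 (hi.ne hxy)
    refine ⟨fun z => Ψ z j, ⟨⟨fun z => Ψ z j, (continuous_apply j).comp hΨ⟩,
      ⟨fun t => t j, contDiff_apply ℝ ℝ j, fun _ => rfl⟩, rfl⟩, hj⟩
  obtain ⟨⟨u, φ, h1, h2⟩, h3⟩ :=
    ContinuousMap.exists_mem_subalgebra_near_continuous_of_separatesPoints A hA f hf η hη
  refine ⟨φ, h1, fun z => ?_⟩
  have h4 := h3 z
  rw [Real.norm_eq_abs] at h4
  rw [← h2 z]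
  exact h4

/-- A product of `m + 1` nondegenerate continua does not embed into an `m`-dimensional space. -/
theorem dim_false {X : Type} [UniformSpace X] [T2Space X] {m : ℕ} (S : Fin (m + 1) → Set X)
    (hS : ∀ k, IsCompact (S k)) (hc : ∀ k, IsPreconnected (S k)) (r : X → ℝ) (hr : Continuous r)
    (a b : Fin (m + 1) → X) (ha : ∀ k, a k ∈ S k) (hb : ∀ k, b k ∈ S k)
    (hlt : ∀ k, r (a k) < r (b k)) (Φ : (Fin (m + 1) → X) → ℕ → ℝ)
    (hΦ : ContinuousOn Φ (Set.pi univ S)) (hinj : InjOn Φ (Set.pi univ S))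
    (L : (Fin m → ℝ) →ₗ[ℝ] (ℕ → ℝ)) (hL : ∀ x ∈ Set.pi univ S, ∃ t, Φ x = L t) : False := by
  obtain ⟨σ, hσ, hσL⟩ := cg_sect L
  have hΨ : ContinuousOn (fun x => σ (Φ x)) (Set.pi univ S) :=
    hσ.comp hΦ fun x hx => by
      obtain ⟨t, ht⟩ := hL x hx
      exact ⟨t, ht.symm⟩
  have hrec : ∀ x ∈ Set.pi univ S, L (σ (Φ x)) = Φ x := fun x hx => by
    obtain ⟨t, ht⟩ := hL x hx
    rw [ht, hσL]
  have : CompactSpace (Set.pi univ S) := isCompact_iff_compactSpace.1 (isCompact_univ_pi hS)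
  have hΨc : Continuous fun z : Set.pi univ S => σ (Φ z) :=
    continuousOn_iff_continuous_domRestrict.1 hΨ
  have hΨi : Injective fun z : Set.pi univ S => σ (Φ z) := fun z w h => by
    refine Subtype.ext (hinj z.2 w.2 ?_)
    have h1 : σ (Φ z) = σ (Φ w) := h
    rw [← hrec z z.2, h1, hrec w w.2]
  have happ : ∀ k, ∃ φ : (Fin m → ℝ) → ℝ, ContDiff ℝ 1 φ ∧
      ∀ z : Set.pi univ S, |φ (σ (Φ z)) - r (z.1 k)| < (r (b k) - r (a k)) / 4 := fun k =>
    cg_approx _ hΨc hΨi (fun z => r (z.1 k))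
      (hr.comp ((continuous_apply k).comp continuous_subtype_val)) (by linarith [hlt k])
  choose φ hφ hnear using happ
  have hC : ContDiff ℝ 1 fun t k => φ k t := contDiff_pi.2 hφ
  have hd := hC.dense_compl_range_of_finrank_lt_finrank (by simp)
  have hU : IsOpen (Set.pi univ fun k =>
      Ioo (r (a k) + (r (b k) - r (a k)) / 4) (r (b k) - (r (b k) - r (a k)) / 4)) :=
    isOpen_set_pi finite_univ fun k _ => isOpen_Ioo
  obtain ⟨y, hy1, hy2⟩ := hd.inter_open_nonempty _ hU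
    ⟨fun k => (r (a k) + r (b k)) / 2, fun k _ => ⟨by linarith [hlt k], by linarith [hlt k]⟩⟩
  obtain ⟨x, -, hx⟩ := pmN S hS hc (fun x k => φ k (σ (Φ x)) - y k)
    (continuousOn_pi.2 fun k =>
      ((hφ k).continuous.comp_continuousOn hΨ).sub continuousOn_const) a b ha hb
    (fun x hx k hk => by
      have h1 := (abs_lt.1 (hnear k ⟨x, hx⟩)).2
      have h2 := (hy1 k (mem_univ k)).1
      simp only [hk] at h1
      linarith)
    (fun x hx k hk => by
      have h1 := (abs_lt.1 (hnear k ⟨x, hx⟩)).1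
      have h2 := (hy1 k (mem_univ k)).2
      simp only [hk] at h1
      linarith)
  exact hy2 ⟨σ (Φ x), funext fun k => sub_eq_zero.1 (congrFun hx k)⟩

end Pool.Agent.P.MP_5aae23_gt.Nsh
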