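import Pool.Agent.P.MP_5aae23_gt.CE
import Pool.Agent.P.MP_5aae23_gt.CG

open Set Filter Topology Function

namespace Pool.Agent.P.MP_5aae23_gt.Nsh

variable {d : ℕ → Om → ℝ} {m : ℕ} {Tau W : Set (Fin m → ℝ)} {g G : ℝ} {u : Cf} {n0 : ℕ} {δ : ℝ}
  {lo hi : Fin 3 → ℝ} {Ψ : (Fin 3 → ℝ) × Cf → ℕ → ℝ}

/-- Pairs of points of two arcs with opposite base values over `[a, b]`. -/
def chS (d : ℕ → Om → ℝ) (pr pr' : ℕ → ℕ) (a b : ℝ) : Set (Om × Om) :=
  {x | x.1 ∈ Arc d pr ∧ x.2 ∈ Arc d pr' ∧ x.1.1 ∈ Icc a b ∧ x.2.1 = -x.1.1}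

theorem ch_compact (hd : Dfam d) (pr pr' : ℕ → ℕ) (a b : ℝ) : IsCompact (chS d pr pr' a b) := by
  have h : chS d pr pr' a b = (Arc d pr ×ˢ Arc d pr') ∩
      ((fun x : Om × Om => x.1.1) ⁻¹' Icc a b ∩ {x | x.2.1 = -x.1.1}) := by
    ext x
    simp only [chS, mem_ofPred_eq, mem_inter_iff, mem_prod, mem_preimage, and_assoc]
  rw [h]
  exact ((arc_compact hd pr).prod (arc_compact hd pr')).inter_right
    ((isClosed_Icc.preimage continuous_fst.fst).inter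
      (isClosed_eq continuous_snd.fst continuous_fst.fst.neg))

theorem ch_fib (pr pr' : ℕ → ℕ) {a b y : ℝ} (hy : y ∈ Icc a b) :
    chS d pr pr' a b ∩ (fun x : Om × Om => x.1.1) ⁻¹' {y} =
      (Arc d pr ∩ {x | x.1 = y}) ×ˢ (Arc d pr' ∩ {x | x.1 = -y}) := by
  ext x
  constructor
  · rintro ⟨⟨h1, h2, -, h4⟩, h5⟩
    have h6 : x.1.1 = y := h5
    exact ⟨⟨h1, h6⟩, h2, by rw [← h6]; exact h4⟩
  · rintro ⟨⟨h1, h5⟩, h2, h4⟩
    have h6 : x.1.1 = y := h5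
    have h7 : x.2.1 = -y := h4
    exact ⟨⟨h1, h2, h6 ▸ hy, by rw [h6, h7]⟩, h6⟩

theorem ch_fib_conn (hd : Dfam d) {pr pr' : ℕ → ℕ} (hp : ∀ j, pr j ≠ 0) (hp' : ∀ j, pr' j ≠ 0)
    {a b : ℝ} (ha : -1 ≤ a) (hb : b ≤ 1) {y : ℝ} (hy : y ∈ Icc a b) :
    IsConnected (chS d pr pr' a b ∩ (fun x : Om × Om => x.1.1) ⁻¹' {y}) := by
  have h1 : |y| ≤ 1 := abs_le.2 ⟨ha.trans hy.1, hy.2.trans hb⟩
  rw [ch_fib pr pr' hy]
  exact (fib_conn hd hp y h1).prod (fib_conn hd hp' (-y) (by rwa [abs_neg]))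

theorem ch_conn (hd : Dfam d) {pr pr' : ℕ → ℕ} (hp : ∀ j, pr j ≠ 0) (hp' : ∀ j, pr' j ≠ 0)
    {a b : ℝ} (ha : -1 ≤ a) (hb : b ≤ 1) : IsPreconnected (chS d pr pr' a b) := by
  refine conn_set (S := Icc a b) (ch_compact hd pr pr' a b) (fun x => x.1.1) continuous_fst.fst
    ?_ (fun y hy => (ch_fib_conn hd hp hp' ha hb hy).isPreconnected) isPreconnected_Icc
  refine Subset.antisymm ?_ fun y hy => ?_
  · rintro _ ⟨x, hx, rfl⟩
    exact hx.2.2.1
  · obtain ⟨x, hx, e⟩ := (ch_fib_conn hd hp hp' ha hb hy).nonempty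
    exact ⟨x, hx, e⟩

/-- The positions of the moving arcs. -/
def chE {M : ℕ} (γ : ℕ → ℕ) (v : Fin 3) : Fin M ⊕ Fin M → Ix :=
  Sum.elim (fun k => (γ k, v, 1)) fun k => (γ k, v, 2)

theorem chE_inj {M : ℕ} {γ : ℕ → ℕ} (hγ : Injective γ) (v : Fin 3) :
    Injective (chE (M := M) γ v) := by
  rintro (k | k) (k' | k') h <;>
    simp only [chE, Sum.elim_inl, Sum.elim_inr, Prod.mk.injEq] at h
  · rw [Fin.ext (hγ h.1)]
  · exact absurd h.2.2 (by decide)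
  · exact absurd h.2.2 (by decide)
  · rw [Fin.ext (hγ h.1)]

/-- The configuration with the given points at the moving arcs. -/
noncomputable def chC {M : ℕ} (γ : ℕ → ℕ) (v : Fin 3) (u : Cf) (x : Fin M → Om × Om) : Cf :=
  extend (chE γ v) (Sum.elim (fun k => (x k).1) fun k => (x k).2) u

theorem chC_one {M : ℕ} {γ : ℕ → ℕ} (hγ : Injective γ) (v : Fin 3) (u : Cf)
    (x : Fin M → Om × Om) (k : Fin M) : chC γ v u x (γ k, v, 1) = (x k).1 :=
  (chE_inj hγ v).extend_apply _ u (Sum.inl k)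

theorem chC_two {M : ℕ} {γ : ℕ → ℕ} (hγ : Injective γ) (v : Fin 3) (u : Cf)
    (x : Fin M → Om × Om) (k : Fin M) : chC γ v u x (γ k, v, 2) = (x k).2 :=
  (chE_inj hγ v).extend_apply _ u (Sum.inr k)

theorem chC_off {M : ℕ} (γ : ℕ → ℕ) (v : Fin 3) (u : Cf) (x : Fin M → Om × Om) {β : Ix}
    (h : ∀ k : Fin M, β ≠ (γ k, v, 1) ∧ β ≠ (γ k, v, 2)) : chC γ v u x β = u β := by
  refine extend_apply' _ u β ?_
  rintro ⟨k | k, e⟩
  · exact (h k).1 e.symm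
  · exact (h k).2 e.symm

theorem ch_cases {M : ℕ} (γ : ℕ → ℕ) (v : Fin 3) (β : Ix) :
    (∃ k : Fin M, β = (γ k, v, 1)) ∨ (∃ k : Fin M, β = (γ k, v, 2)) ∨
      ∀ k : Fin M, β ≠ (γ k, v, 1) ∧ β ≠ (γ k, v, 2) := by
  by_cases h1 : ∃ k : Fin M, β = (γ k, v, 1)
  · exact Or.inl h1
  by_cases h2 : ∃ k : Fin M, β = (γ k, v, 2)
  · exact Or.inr (Or.inl h2)
  exact Or.inr (Or.inr fun k => ⟨fun e => h1 ⟨k, e⟩, fun e => h2 ⟨k, e⟩⟩)

theorem chC_zero {M : ℕ} (γ : ℕ → ℕ) (v : Fin 3) (u : Cf) (x : Fin M → Om × Om) (n : ℕ)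
    (w : Fin 3) : chC γ v u x (n, w, 0) = u (n, w, 0) :=
  chC_off γ v u x fun _ =>
    ⟨fun e => (by decide : (0 : Fin 3) ≠ 1) (congrArg (fun β : Ix => β.2.2) e),
      fun e => (by decide : (0 : Fin 3) ≠ 2) (congrArg (fun β : Ix => β.2.2) e)⟩

theorem chC_cont {M : ℕ} {γ : ℕ → ℕ} (hγ : Injective γ) (v : Fin 3) (u : Cf) :
    Continuous (chC (M := M) γ v u) := by
  refine continuous_pi fun β => ?_
  rcases ch_cases (M := M) γ v β with ⟨k, rfl⟩ | ⟨k, rfl⟩ | h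
  · simp only [chC_one hγ]
    exact (continuous_apply k).fst
  · simp only [chC_two hγ]
    exact (continuous_apply k).snd
  · simp only [chC_off γ v u _ h]
    exact continuous_const

theorem chC_mem (hL : Loc d Tau u n0 δ lo hi Ψ) {M : ℕ} {γ : ℕ → ℕ} (hγ : Injective γ)
    (hn : ∀ k, n0 ≤ γ k) (v : Fin 3) {N : ℕ} (hN : ∀ k : Fin M, γ k < N) {a b : Fin M → ℝ}
    (ha : ∀ k, -δ ≤ a k) (hb : ∀ k, b k ≤ δ) {x : Fin M → Om × Om}
    (hx : ∀ k : Fin M, x k ∈ chS d (prm (γ k, v, 1)) (prm (γ k, v, 2)) (a k) (b k)) :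
    (lo, chC γ v u x) ∈ Zf d u n0 δ lo hi N := by
  refine ⟨⟨le_rfl, fun i => (hL.lohi i).le⟩, ⟨fun β => ?_, fun n w => ?_⟩, fun β hβ => ?_,
    fun n w hn' => ⟨?_, ?_⟩⟩
  · show chC γ v u x β ∈ _
    rcases ch_cases (M := M) γ v β with ⟨k, rfl⟩ | ⟨k, rfl⟩ | h
    · rw [chC_one hγ]
      exact (hx k).1
    · rw [chC_two hγ]
      exact (hx k).2.1
    · rw [chC_off γ v u _ h]
      exact hL.umem.1 β
  · show ∑ i, (chC γ v u x (n, w, i)).1 = 0
    by_cases h : ∃ k : Fin M, (n, w) = (γ k, v)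
    · obtain ⟨k, e⟩ := h
      obtain ⟨rfl, rfl⟩ := Prod.mk.inj e
      rw [Fin.sum_univ_three, chC_zero, chC_one hγ, chC_two hγ, hL.uzero _ (hn k), (hx k).2.2.2]
      ring
    · rw [← hL.umem.2 n w]
      refine Finset.sum_congr rfl fun i _ => ?_
      rw [chC_off γ v u _ fun k => ⟨fun e => h ⟨k, ?_⟩, fun e => h ⟨k, ?_⟩⟩]
      · exact congrArg (fun β : Ix => (β.1, β.2.1)) e
      · exact congrArg (fun β : Ix => (β.1, β.2.1)) e
  · refine chC_off γ v u _ fun k => ⟨fun e => ?_, fun e => ?_⟩ <;>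
    · have h1 : β.1 = γ k := congrArg Prod.fst e
      have h2 := hn k
      have h3 := hN k
      omega
  · show |(chC γ v u x (n, w, 0)).1| ≤ δ
    rw [chC_zero, hL.uzero _ hn', abs_zero]
    exact hL.dpos.le
  · show |(chC γ v u x (n, w, 1)).1| ≤ δ
    rcases ch_cases (M := M) γ v (n, w, 1) with ⟨k, e⟩ | ⟨k, e⟩ | h
    · rw [e, chC_one hγ]
      exact abs_le.2 ⟨(ha k).trans (hx k).2.2.1.1, (hx k).2.2.1.2.trans (hb k)⟩
    · exact absurd (congrArg (fun β : Ix => β.2.2) e) (by decide : (1 : Fin 3) ≠ 2)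
    · rw [chC_off γ v u _ h, hL.uzero _ hn', abs_zero]
      exact hL.dpos.le

/-- Equal integer measures on every arc give equal real combinations. -/
theorem ch_lin (hG : Good Tau W g G) {p p' : Fin m → Cf}
    (h : ∀ ψ : Fin m → ℤ, (fun j => (ψ j : ℝ)) ∈ W → ∀ β c,
      ms ψ (fun j => p j β) c = ms ψ (fun j => p' j β) c) {t : Fin m → ℝ} (ht : t ∈ W) :
    ∑ j, t j • ee d (p j) = ∑ j, t j • ee d (p' j) := by
  funext c
  simp only [Finset.sum_apply, Pi.smul_apply, smul_eq_mul]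
  have h1 := hG.rat (fun j => ee d (p j) c - ee d (p' j) c) (fun ψ hψ => by
    simp only [mul_sub, Finset.sum_sub_distrib]
    refine sub_eq_zero.2 ?_
    rcases hc : cod c with n | x
    · simp only [ee_inl d _ hc, Finset.mul_sum]
      rw [Finset.sum_comm, Finset.sum_comm (f := fun j w => (ψ j : ℝ) * (p' j (n, w, 0)).1)]
      exact Finset.sum_congr rfl fun w _ =>
        nj_ms_int ψ (fun j => p j (n, w, 0)) (fun j => p' j (n, w, 0)) Prod.fst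
          fun c' _ => h ψ hψ _ c'
    · simp only [ee_inr d _ hc]
      exact nj_ms_int ψ (fun j => p j x.1) (fun j => p' j x.1)
        (fun c' => ((c : ℝ) + 1)⁻¹ * min 1 (max 0 (-d x.2 c'))) fun c' _ => h ψ hψ _ c') t ht
  simp only [mul_sub, Finset.sum_sub_distrib] at h1
  exact sub_eq_zero.1 h1

/-- The linear map given by fixed representing points. -/
noncomputable def chL (d : ℕ → Om → ℝ) (p : Fin m → Cf) : (Fin m → ℝ) →ₗ[ℝ] (ℕ → ℝ) where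
  toFun t := ∑ j, t j • ee d (p j)
  map_add' s t := by simp only [Pi.add_apply, add_smul, Finset.sum_add_distrib]
  map_smul' r t := by
    simp only [Pi.smul_apply, smul_eq_mul, RingHom.id_apply, Finset.smul_sum, mul_smul]

theorem flat_false (hd : Dfam d) (hG : Good Tau W g G) (hL : Loc d Tau u n0 δ lo hi Ψ) (v : Fin 3)
    (γ : ℕ → ℕ) (hγ : Injective γ) (hn : ∀ k, n0 ≤ γ k)
    (hz : ∀ k, ∀ s ∈ W, ∀ z p z' p', St d Tau u n0 δ lo hi Ψ z p →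
      St d Tau u n0 δ lo hi Ψ z' p' →
      ∑ j, s j * (p j (γ k, v, 0)).1 = ∑ j, s j * (p' j (γ k, v, 0)).1)
    (hinj : ∀ N a a', (lo, a) ∈ Zf d u n0 δ lo hi N → (lo, a') ∈ Zf d u n0 δ lo hi N →
      (∀ β : Ix, β.2.1 ≠ v → a β = a' β) → Ψ (lo, a) = Ψ (lo, a') → a = a') : False := by
  choose a b ha hab hb hc using fun k : Fin (m + 1) => blk_const hd hG hL (hn k) v (hz k)
  obtain ⟨N, hN⟩ : ∃ N, ∀ k : Fin (m + 1), γ k < N :=
    ⟨Finset.univ.sup (fun k : Fin (m + 1) => γ k) + 1, fun k => Nat.lt_succ_of_le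
      (Finset.le_sup (f := fun k : Fin (m + 1) => γ k) (Finset.mem_univ k))⟩
  have hδ := hL.dle
  have ha1 : ∀ k, -1 ≤ a k := fun k => by linarith [ha k]
  have hb1 : ∀ k, b k ≤ 1 := fun k => by linarith [hb k]
  have hp : ∀ (β : Ix) j, prm β j ≠ 0 := fun β j => (prm_prime β j).ne_zero
  set S : Fin (m + 1) → Set (Om × Om) := fun k =>
    chS d (prm (γ k, v, 1)) (prm (γ k, v, 2)) (a k) (b k) with hS
  have hmem : ∀ x ∈ Set.pi univ S, (lo, chC γ v u x) ∈ Zf d u n0 δ lo hi N := fun x hx =>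
    chC_mem hL hγ hn v hN ha hb fun k => hx k (mem_univ k)
  choose xa hxa using fun k : Fin (m + 1) => (ch_fib_conn hd (hp (γ k, v, 1)) (hp (γ k, v, 2))
    (ha1 k) (hb1 k) (left_mem_Icc.2 (hab k).le)).nonempty
  choose xb hxb using fun k : Fin (m + 1) => (ch_fib_conn hd (hp (γ k, v, 1)) (hp (γ k, v, 2))
    (ha1 k) (hb1 k) (right_mem_Icc.2 (hab k).le)).nonempty
  have hxa' : xa ∈ Set.pi univ S := fun k _ => (hxa k).1
  obtain ⟨t0, p0, hr0⟩ := hL.rep N _ (hmem xa hxa')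
  refine dim_false S (fun k => ch_compact hd _ _ _ _)
    (fun k => ch_conn hd (hp _) (hp _) (ha1 k) (hb1 k)) (fun x => x.1.1) continuous_fst.fst xa xb
    (fun k => (hxa k).1) (fun k => (hxb k).1) (fun k => ?_) (fun x => Ψ (lo, chC γ v u x))
    ((hL.cont N).comp (continuous_const.prodMk (chC_cont hγ v u)).continuousOn hmem)
    (fun x hx x' hx' e => ?_) (chL d p0) fun x hx => ?_
  · have h1 : (xa k).1.1 = a k := (hxa k).2
    have h2 : (xb k).1.1 = b k := (hxb k).2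
    show (xa k).1.1 < (xb k).1.1
    rw [h1, h2]
    exact hab k
  · have h1 := hinj N _ _ (hmem x hx) (hmem x' hx') (fun β hβ => by
      have h : ∀ k : Fin (m + 1), β ≠ (γ k, v, 1) ∧ β ≠ (γ k, v, 2) := fun k =>
        ⟨fun e => hβ (congrArg (fun β : Ix => β.2.1) e),
          fun e => hβ (congrArg (fun β : Ix => β.2.1) e)⟩
      rw [chC_off γ v u _ h, chC_off γ v u _ h]) e
    funext k
    refine Prod.ext ?_ ?_
    · rw [← chC_one hγ v u x k, h1, chC_one hγ]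
    · rw [← chC_two hγ v u x k, h1, chC_two hγ]
  · obtain ⟨t, p, hr⟩ := hL.rep N _ (hmem x hx)
    refine ⟨t, hr.2.2.trans (ch_lin hG (fun ψ hψ β c => ?_) (hG.sub hr.1))⟩
    have s1 : St d Tau u n0 δ lo hi Ψ (lo, chC γ v u x) p := ⟨N, t, hmem x hx, hr⟩
    have s0 : St d Tau u n0 δ lo hi Ψ (lo, chC γ v u xa) p0 := ⟨N, t0, hmem xa hxa', hr0⟩
    have key : ∀ (k : Fin (m + 1)) (i : Fin 3), i ≠ 0 →
        ms ψ (fun j => p j (γ k, v, i)) c = ms ψ (fun j => p0 j (γ k, v, i)) c := by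
      intro k i hi0
      refine hc k ψ hψ _ p _ p0 s1 s0 ?_ ?_ ?_ ?_ i hi0 c
      · show (chC γ v u x (γ k, v, 0)).1 = 0
        rw [chC_zero, hL.uzero _ (hn k)]
      · show (chC γ v u xa (γ k, v, 0)).1 = 0
        rw [chC_zero, hL.uzero _ (hn k)]
      · show (chC γ v u x (γ k, v, 1)).1 ∈ _
        rw [chC_one hγ]
        exact (hx k (mem_univ k)).2.2.1
      · show (chC γ v u xa (γ k, v, 1)).1 ∈ _
        rw [chC_one hγ]
        exact (hxa k).1.2.2.1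
    rcases ch_cases (M := m + 1) γ v β with ⟨k, rfl⟩ | ⟨k, rfl⟩ | h
    · exact key k 1 (by decide)
    · exact key k 2 (by decide)
    · exact alpha0 hd hG hL ψ hψ β s1 s0
        ((chC_off γ v u x h).trans (chC_off γ v u xa h).symm) c

end Pool.Agent.P.MP_5aae23_gt.Nsh
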