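import Pool.Agent.P.MP_5aae23_gt.NK
import Pool.Agent.P.MP_5aae23_gt.CAs

open Set Filter Topology Function

namespace Pool.Agent.P.MP_5aae23_gt.Nsh

/-- The Baire step: a ball of parameters is mapped into one stratum. -/
theorem ck_ball {d : ℕ → Om → ℝ} (hd : Dfam d) {H : Type*} [NormedAddCommGroup H]
    [NormedSpace ℝ H] (h : Emb d H) {o : Cf} (ho : o ∈ KK d) (ho0 : ∀ β, (o β).1 = 0) :
    ∃ (m : ℕ) (Tau W : Set (Fin m → ℝ)) (g G : ℝ) (s0 : Fin 3 → ℝ) (x0 : Fin 3 → C0) (ε B : ℝ),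
      Good Tau W g G ∧ 0 < ε ∧ (∀ v, s0 v ∈ Icc (0 : ℝ) (1 / 3)) ∧ (∀ v, x0 v ∈ nkP d o v) ∧
      ∀ (s : Fin 3 → ℝ) (x : Fin 3 → XX d), (∀ v, s v ∈ Icc (0 : ℝ) (1 / 3)) →
        (∀ v, (x v : C0) ∈ nkP d o v) →
        (∀ v, dist (s v) (s0 v) < ε) → (∀ v, dist (x v : C0) (x0 v) < ε) →
        ((h.g (∑ v, s v • h.f (x v)) : XX d) : C0) ∈ YY d Tau ∧ ∀ v, ‖h.f (x v)‖ ≤ B := by
  choose 𝒯 hTc hTg hTu using exists_strata
  let S : Set ((Fin 3 → ℝ) × (Fin 3 → C0)) :=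
    {w | ∀ v, w.1 v ∈ Icc (0 : ℝ) (1 / 3) ∧ w.2 v ∈ nkP d o v}
  have hS : IsClosed S := by
    simp only [S, ofPred_forall]
    refine isClosed_iInter fun v => IsClosed.and ?_ ?_
    · exact isClosed_Icc.preimage ((continuous_apply v).comp continuous_fst)
    · exact (nkP_closed hd o v).preimage ((continuous_apply v).comp continuous_snd)
  have : CompleteSpace S := hS.completeSpace_coe
  have : Nonempty S := by
    obtain ⟨x, hx⟩ := nk_exC0 d 0 o fun n _ => by simp [ho0]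
    refine ⟨⟨(0, fun _ => x), fun v => ⟨⟨le_rfl, by norm_num⟩, o, ho, ?_⟩⟩⟩
    have : slot o v o = o := by
      funext β
      simp [slot]
    simp only [this]
    exact hx.symm
  let X : Fin 3 → S → XX d := fun v w => ⟨w.1.2 v, nkP_sub ho (w.2 v).2⟩
  have hX : ∀ v, Continuous (X v) := fun v =>
    (((continuous_apply v).comp continuous_snd).comp continuous_subtype_val).subtype_mk _
  let Φ : S → C0 := fun w => ((h.g (∑ v, w.1.1 v • h.f (X v w)) : XX d) : C0)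
  have hΦ : Continuous Φ := by
    refine continuous_subtype_val.comp (h.gc.comp_continuous ?_ fun w =>
      h.cvx _ (fun v => (w.2 v).1) _)
    refine continuous_finsetSum _ fun v _ => Continuous.smul ?_ (h.fc.comp (hX v))
    exact ((continuous_apply v).comp continuous_fst).comp continuous_subtype_val
  have : ∀ m, Countable (𝒯 m) := fun m => (hTc m).to_subtype
  obtain ⟨⟨m, Tau, hTau⟩, w0, hw0⟩ := nonempty_interior_of_iUnion_of_closed
    (f := fun i : Σ m, 𝒯 m => Φ ⁻¹' YY d (i.2 : Set (Fin i.1 → ℝ)))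
    (fun i => by
      obtain ⟨W, g, G, hG⟩ := hTg i.1 i.2 i.2.2
      exact (yy_closed hd hG.cpt).preimage hΦ)
    (by
      refine eq_univ_of_forall fun w => ?_
      have hm : Φ w ∈ XX d := (h.g (∑ v, w.1.1 v • h.f (X v w))).2
      obtain ⟨m, t, p, -, hp, e⟩ := mem_xx.1 hm
      obtain ⟨Tau, hT, ht⟩ := hTu m t
      exact mem_iUnion.2 ⟨⟨m, Tau, hT⟩, t, p, ht, hp, e⟩)
  obtain ⟨W, g, G, hG⟩ := hTg m Tau hTau
  have hN : Continuous fun w : S => ∑ v, ‖h.f (X v w)‖ :=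
    continuous_finsetSum _ fun v _ => (h.fc.comp (hX v)).norm
  have h1 : Φ ⁻¹' YY d Tau ∩ {w | ∑ v, ‖h.f (X v w)‖ < ∑ v, ‖h.f (X v w0)‖ + 1} ∈ 𝓝 w0 :=
    inter_mem (mem_interior_iff_mem_nhds.1 hw0)
      ((isOpen_lt hN continuous_const).mem_nhds (by simp))
  obtain ⟨ε, hε, hb⟩ := Metric.mem_nhds_iff.1 h1
  refine ⟨m, Tau, W, g, G, w0.1.1, w0.1.2, ε, ∑ v, ‖h.f (X v w0)‖ + 1, hG, hε,
    fun v => (w0.2 v).1, fun v => (w0.2 v).2, fun s x hs3 hx hs hxd => ?_⟩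
  have hw : (⟨(s, fun v => (x v : C0)), fun v => ⟨hs3 v, hx v⟩⟩ : S) ∈ Metric.ball w0 ε := by
    rw [Metric.mem_ball, Subtype.dist_eq, Prod.dist_eq, max_lt_iff]
    exact ⟨(dist_pi_lt_iff hε).2 hs, (dist_pi_lt_iff hε).2 hxd⟩
  obtain ⟨h2, h3⟩ := hb hw
  refine ⟨h2, fun v => le_trans ?_ (le_of_lt h3)⟩
  exact Finset.single_le_sum (f := fun v => ‖h.f (x v)‖) (fun _ _ => norm_nonneg _)
    (Finset.mem_univ v)

theorem ck_baire {d : ℕ → Om → ℝ} (hd : Dfam d) {H : Type*} [NormedAddCommGroup H]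
    [NormedSpace ℝ H] (h : Emb d H) {o : Cf} (ho : o ∈ KK d) (ho0 : ∀ β, (o β).1 = 0) :
    ∃ (m : ℕ) (Tau W : Set (Fin m → ℝ)) (g G : ℝ) (u : Cf) (n0 : ℕ) (δ : ℝ) (lo hi : Fin 3 → ℝ)
      (B : ℝ), Good Tau W g G ∧
      Loc d Tau u n0 δ lo hi
        (fun z => ((h.g (∑ v, z.1 v • h.f (xv d o v z.2)) : C0) : ℕ → ℝ)) ∧
      (∀ s ∈ Icc lo hi, ∀ v, s v ≠ 0 ∧ s v ∈ Icc (0 : ℝ) (1 / 3)) ∧
      ∀ N, ∀ z ∈ Zf d u n0 δ lo hi N, ∀ v,
        ((xv d o v z.2 : C0) : ℕ → ℝ) = ee d (slot o v z.2) ∧ ‖h.f (xv d o v z.2)‖ ≤ B := by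
  obtain ⟨m, Tau, W, g, G, s0, x0, ε, B, hG, hε, hs0, hx0, hb⟩ := ck_ball hd h ho ho0
  choose a ha hae using hx0
  have hε4 : 0 < ε / 4 := by positivity
  have hev : ∀ᶠ c : ℕ in atTop, ((c : ℝ) + 1)⁻¹ < ε / 4 ∧ ∀ v, |x0 v c| < ε / 4 := by
    refine (nk_inv_tendsto.eventually (gt_mem_nhds hε4)).and (eventually_all.2 fun v => ?_)
    have ht : Tendsto (x0 v) atTop (𝓝 0) := by
      have := (x0 v).zero_at_infty'
      rw [cocompact_eq_atTop] at this
      exact this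
    have := ht.abs
    rw [abs_zero] at this
    exact this.eventually (gt_mem_nhds hε4)
  obtain ⟨c0, hc0⟩ := eventually_atTop.1 hev
  let n0 : ℕ := (Finset.range c0).sup nkSite + 1
  have hn0 : ∀ c, n0 ≤ nkSite c → c0 ≤ c := fun c hc => by
    by_contra hlt
    have : nkSite c ≤ (Finset.range c0).sup nkSite :=
      Finset.le_sup (Finset.mem_range.2 (not_le.1 hlt))
    omega
  let u : Cf := fun β => if β.1 < n0 then a β.2.1 β else o β
  let δ : ℝ := min (1 / 2) (ε / 4)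
  obtain ⟨η, hη0, hη1, hη2⟩ : ∃ η : ℝ, 0 < η ∧ η ≤ ε ∧ η ≤ 1 / 6 :=
    ⟨min ε (1 / 6), lt_min hε (by norm_num), min_le_left _ _, min_le_right _ _⟩
  let lo : Fin 3 → ℝ := fun v => if s0 v ≤ 1 / 6 then s0 v + η / 4 else s0 v - η / 2
  let hi : Fin 3 → ℝ := fun v => if s0 v ≤ 1 / 6 then s0 v + η / 2 else s0 v - η / 4
  have hu0 : ∀ β : Ix, n0 ≤ β.1 → (u β).1 = 0 := fun β hβ => by
    simp only [u, if_neg (not_lt.2 hβ), ho0]
  have hs : ∀ s ∈ Icc lo hi, ∀ v, (s v ≠ 0 ∧ s v ∈ Icc (0 : ℝ) (1 / 3)) ∧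
      dist (s v) (s0 v) < ε := fun s hs v => by
    have h1 := hs.1 v
    have h2 := hs.2 v
    have h3 := (hs0 v).1
    have h4 := (hs0 v).2
    simp only [lo, hi] at h1 h2
    rw [Real.dist_eq, abs_lt]
    split_ifs at h1 h2 with h0
    · exact ⟨⟨by linarith, by linarith, by linarith⟩, by linarith, by linarith⟩
    · exact ⟨⟨by linarith [not_le.1 h0], by linarith [not_le.1 h0], by linarith⟩,
        by linarith, by linarith⟩
  have hz : ∀ N v, ∀ z ∈ Zf d u n0 δ lo hi N,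
      z.2 ∈ KK d ∧ ∀ n, max N n0 ≤ n → (z.2 (n, v, 0)).1 = 0 := fun N v z hz =>
    ⟨hz.2.1, fun n hn => by
      rw [hz.2.2.1 (n, v, 0) (Or.inr (le_trans (le_max_left _ _) hn))]
      exact hu0 _ (le_trans (le_max_right _ _) hn)⟩
  have he : ∀ N, ∀ z ∈ Zf d u n0 δ lo hi N, ∀ v,
      ((xv d o v z.2 : C0) : ℕ → ℝ) = ee d (slot o v z.2) := fun N z hzz v =>
    nk_xv ho ho0 hzz.2.1 v _ (hz N v z hzz).2
  have hin : ∀ N, ∀ z ∈ Zf d u n0 δ lo hi N,
      ((h.g (∑ v, z.1 v • h.f (xv d o v z.2)) : XX d) : C0) ∈ YY d Tau ∧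
        ∀ v, ‖h.f (xv d o v z.2)‖ ≤ B := fun N z hzz => by
    refine hb z.1 (fun v => xv d o v z.2) (fun v => (hs _ hzz.1 v).1.2) (fun v => ⟨z.2, hzz.2.1, (he N z hzz v).symm⟩)
      (fun v => (hs _ hzz.1 v).2) fun v => ?_
    refine lt_of_le_of_lt (nk_dist (r := ε / 2) (by positivity) fun c => ?_) (by linarith)
    rw [he N z hzz v]
    by_cases hc : nkSite c < n0
    · have e : ee d (slot o v z.2) c = x0 v c := by
        rw [← congrFun (hae v) c]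
        refine nk_ee_congr d fun β hβ => ?_
        have hβ' : β.1 < n0 := hβ ▸ hc
        unfold slot
        split_ifs with hv
        · rw [hzz.2.2.1 β (Or.inl hβ')]
          simp only [u, if_pos hβ', hv]
        · rfl
      rw [e, sub_self, abs_zero]
      positivity
    · obtain ⟨h1, h2⟩ := hc0 c (hn0 c (not_lt.1 hc))
      have h3 : |ee d (slot o v z.2) c| ≤ ε / 4 := by
        by_cases hp : ∃ n, c = ph n
        · obtain ⟨n, rfl⟩ := hp
          rw [nk_site_ph] at hc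
          rw [ee_ph, nk_slot_sum ho0]
          exact (hzz.2.2.2 n v (not_lt.1 hc)).1.trans (min_le_right _ _)
        · exact (ee_small d _ c fun n hn => hp ⟨n, hn⟩).trans h1.le
      have h4 := abs_sub (ee d (slot o v z.2) c) (x0 v c)
      linarith [h2 v]
  refine ⟨m, Tau, W, g, G, u, n0, δ, lo, hi, B, hG,
    ⟨⟨fun β => ?_, fun n v => ?_⟩, hu0, lt_min (by norm_num) hε4, min_le_left _ _, fun v => ?_,
      fun N => ?_, fun N z hzz => (hin N z hzz).1⟩,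
    fun s hs' v => (hs s hs' v).1, fun N z hzz v => ⟨he N z hzz v, (hin N z hzz).2 v⟩⟩
  · simp only [u]
    split_ifs
    · exact (ha _).1 β
    · exact ho.1 β
  · simp only [u]
    split_ifs
    · exact (ha v).2 n v
    · exact ho.2 n v
  · simp only [lo, hi]
    split_ifs <;> linarith
  · refine (nk_coe_cont.comp continuous_subtype_val).comp_continuousOn (h.gc.comp
      (continuousOn_finsetSum _ fun v _ => ContinuousOn.smul ?_ ?_) fun z hzz =>
        h.cvx _ (fun v => (hs _ hzz.1 v).1.2) _)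
    · exact ((continuous_apply v).comp continuous_fst).continuousOn
    · exact h.fc.comp_continuousOn (nk_xv_cont hd ho ho0 v _ _ (hz N v))

end Pool.Agent.P.MP_5aae23_gt.Nsh
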