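import Pool.Agent.P.MP_5aae23_gt.NJ
import Pool.Agent.P.MP_5aae23_gt.CAs

open Set Filter Topology Function

namespace Pool.Agent.P.MP_5aae23_gt.Nsh

variable {d : ℕ → Om → ℝ} {m : ℕ} {Tau W : Set (Fin m → ℝ)} {g G : ℝ} {u : Cf} {n0 : ℕ} {δ : ℝ}
  {lo hi : Fin 3 → ℝ} {Ψ : (Fin 3 → ℝ) × Cf → ℕ → ℝ}

open Classical in
theorem nf2 (hd : Dfam d) (hG : Good Tau W g G) (hL : Loc d Tau u n0 δ lo hi Ψ) :
    ∃ (A : ℕ → Fin 3 → Finset (Fin m)) (p0 : Fin m → Cf) (yy : ℕ → Fin 3 → ℝ),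
      (∀ j, p0 j ∈ KK d) ∧ (∀ n v, |yy n v| ≤ δ) ∧
      (∀ n v, n0 ≤ n → ∀ s ∈ W, ∑ j ∈ A n v, s j = 0 → ∀ z p z' p',
        St d Tau u n0 δ lo hi Ψ z p → St d Tau u n0 δ lo hi Ψ z' p' →
        ∑ j, s j * (p j (n, v, 0)).1 = ∑ j, s j * (p' j (n, v, 0)).1) ∧
      ∀ N, ∀ z ∈ Zf d u n0 δ lo hi N, ∀ t p, Rep d Tau (Ψ z) t p → ∀ n, n0 ≤ n →
        (Ψ z (ph n) = ∑ v, (∑ j ∈ A n v, t j) * (z.2 (n, v, 0)).1 +
          ∑ j, t j * ee d (p0 j) (ph n)) ∧
        ∀ v, (z.2 (n, v, 1)).1 = yy n v →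
          ∑ j ∈ A n v, t j = ∑ j, if (p j (n, v, 1)).1 = yy n v then t j else 0 := by
  have hδ := hL.dpos
  choose A a ha hA using fun (n : ℕ) (v : Fin 3) => nj_block hd hG hL (le_max_left n0 n) v
  have hz0 : (lo, u) ∈ Zf d u n0 δ lo hi 0 :=
    ⟨⟨le_rfl, fun i => (hL.lohi i).le⟩, hL.umem, fun _ _ => rfl, fun n v hn => by
      rw [hL.uzero _ hn, hL.uzero _ hn, abs_zero]
      exact ⟨hδ.le, hδ.le⟩⟩
  obtain ⟨t0, p0, hr0⟩ := hL.rep 0 _ hz0
  refine ⟨A, p0, a, hr0.2.1, ha, fun n v hn s hs h0 z p z' p' h h' => ?_,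
    fun N z hz t p hr n hn => ?_⟩
  · have hB := hA n v s hs
    rw [max_eq_right hn] at hB
    have h1 := hB.2 z p z' p' h h'
    rwa [h0, zero_mul, zero_mul, sub_zero, sub_zero] at h1
  have hB := fun v => hA n v t (hG.sub hr.1)
  rw [max_eq_right hn] at hB
  refine ⟨?_, fun v hv => (hB v).1 z p ⟨N, t, hz, hr⟩ hv⟩
  have h1 : ∀ v, ∑ j, t j * (p j (n, v, 0)).1 =
      (∑ j ∈ A n v, t j) * (z.2 (n, v, 0)).1 + ∑ j, t j * (p0 j (n, v, 0)).1 := by
    intro v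
    have h2 := (hB v).2 z p (lo, u) p0 ⟨N, t, hz, hr⟩ ⟨0, t0, hz0, hr0⟩
    have h3 : (u (n, v, 0)).1 = 0 := hL.uzero _ hn
    simp only [h3, mul_zero, sub_zero] at h2
    linarith
  have h4 : ∀ r : Fin m → Cf, ∑ j, t j * ee d (r j) (ph n) =
      ∑ v, ∑ j, t j * (r j (n, v, 0)).1 := by
    intro r
    rw [Finset.sum_comm]
    refine Finset.sum_congr rfl fun j _ => ?_
    rw [ee_ph, Finset.mul_sum]
  rw [hr.2.2, Finset.sum_apply]
  simp only [Pi.smul_apply, smul_eq_mul]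
  rw [h4 p, h4 p0, ← Finset.sum_add_distrib]
  exact Finset.sum_congr rfl fun v _ => h1 v

theorem ee_inj (hd : Dfam d) : Injective (ee d) := by
  intro a a' h
  funext β
  by_contra hne
  obtain ⟨j, h1, h2⟩ := hd.sep (a β) {a' β}ᶜ (isOpen_compl_singleton.mem_nhds hne)
  have h3 : 0 < d j (a' β) := not_le.1 fun h4 => h2 _ h4 rfl
  have h4 := congrFun h (cod.symm (Sum.inr (β, j)))
  rw [ee_inr d a (cod.apply_symm_apply _), ee_inr d a' (cod.apply_symm_apply _)] at h4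
  have h5 := mul_left_cancel₀ (by positivity) h4
  simp only at h5
  rw [max_eq_left (show -d j (a' β) ≤ 0 by linarith), min_eq_right zero_le_one] at h5
  exact (lt_min one_pos (lt_max_of_lt_right (by linarith))).ne' h5

/-- A homeomorphism onto a convex set gives an embedding through the origin. -/
theorem emb_of {H : Type*} [NormedAddCommGroup H] [NormedSpace ℝ H] {C : Set H} (hC : Convex ℝ C)
    (h : XX d ≃ₜ C) : Nonempty (Emb d H) := by
  classical
  let f : XX d → H := fun x => (h x : H) - (h 0 : H)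
  let g : H → XX d := fun y => if hy : y + (h 0 : H) ∈ C then h.symm ⟨_, hy⟩ else 0
  have hr : ∀ y, y ∈ range f ↔ y + (h 0 : H) ∈ C := by
    intro y
    constructor
    · rintro ⟨x, rfl⟩
      simp only [f, sub_add_cancel]
      exact (h x).2
    · intro hy
      exact ⟨h.symm ⟨_, hy⟩, by simp [f]⟩
  refine ⟨⟨f, g, (continuous_subtype_val.comp h.continuous).sub continuous_const, fun x => ?_, ?_,
    fun s hs x => ?_⟩⟩
  · have hx := (hr _).1 ⟨x, rfl⟩
    simp only [g, dif_pos hx]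
    rw [Homeomorph.symm_apply_eq]
    exact Subtype.ext (by simp [f])
  · rw [continuousOn_iff_continuous_domRestrict]
    have h1 : Continuous fun y : range f => h.symm ⟨(y : H) + (h 0 : H), (hr _).1 y.2⟩ :=
      h.symm.continuous.comp ((continuous_subtype_val.add continuous_const).subtype_mk _)
    refine h1.congr fun y => ?_
    show _ = g y
    simp only [g, dif_pos ((hr _).1 y.2)]
  · rw [hr]
    have h1 := hC.sum_mem (t := Finset.univ) (w := ![s 0, s 1, s 2, 1 - s 0 - s 1 - s 2])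
      (z := ![(h (x 0) : H), h (x 1), h (x 2), h 0]) (fun i _ => by
        have h3 : 0 ≤ 1 - s 0 - s 1 - s 2 := by linarith [(hs 0).2, (hs 1).2, (hs 2).2]
        fin_cases i
        exacts [(hs 0).1, (hs 1).1, (hs 2).1, h3]) (by simp [Fin.sum_univ_four])
      (fun i _ => by fin_cases i <;> simp)
    have h2 : ∑ v, s v • f (x v) + (h 0 : H) =
        ∑ i, ![s 0, s 1, s 2, 1 - s 0 - s 1 - s 2] i • ![(h (x 0) : H), h (x 1), h (x 2), h 0] i := by
      simp only [Fin.sum_univ_three, Fin.sum_univ_four, f]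
      simp
      module
    rw [h2]
    exact h1

end Pool.Agent.P.MP_5aae23_gt.Nsh
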