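import Pool.Agent.P.MP_5aae23_gt.NG

open Set Filter Topology Function

namespace Pool.Agent.P.MP_5aae23_gt.Nsh

theorem ms_int {m : ℕ} (t : Fin m → ℝ) (P : Fin m → Om) (f : Om → ℝ) (C : Finset Om)
    (hC : ∀ j, P j ∈ C) : ∑ j, t j * f (P j) = ∑ c ∈ C, ms t P c * f c := by
  classical
  simp only [ms, Finset.sum_mul]
  rw [Finset.sum_comm]
  refine Finset.sum_congr rfl fun j _ => ?_
  rw [Finset.sum_eq_single (P j)]
  · simp
  · intro c _ hc
    simp [Ne.symm hc]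
  · intro h
    exact absurd (hC j) h

theorem ms_congr {m : ℕ} {t t' : Fin m → ℝ} {P P' : Fin m → Om}
    (h : ∀ c, ms t P c = ms t' P' c) (f : Om → ℝ) :
    ∑ j, t j * f (P j) = ∑ j, t' j * f (P' j) := by
  classical
  rw [ms_int t P f (Finset.univ.image P ∪ Finset.univ.image P') (by simp),
    ms_int t' P' f (Finset.univ.image P ∪ Finset.univ.image P') (by simp)]
  exact Finset.sum_congr rfl fun c _ => by rw [h c]

theorem replim {d : ℕ → Om → ℝ} (hd : Dfam d) {m : ℕ} {Tau : Set (Fin m → ℝ)}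
    (hT : IsCompact Tau) {ι : Type} (U : Ultrafilter ι) (x : ι → ℕ → ℝ) (t : ι → Fin m → ℝ)
    (p : ι → Fin m → Cf) (h : ∀ᶠ k in (U : Filter ι), Rep d Tau (x k) (t k) (p k)) :
    ∃ (t' : Fin m → ℝ) (p' : Fin m → Cf), Rep d Tau (∑ j, t' j • ee d (p' j)) t' p' ∧
      Tendsto t U (𝓝 t') ∧ Tendsto x U (𝓝 (∑ j, t' j • ee d (p' j))) := by
  have hK : IsCompact (Tau ×ˢ Set.pi univ fun _ : Fin m => KK d) :=
    hT.prod (isCompact_univ_pi fun _ => kk_compact hd)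
  obtain ⟨⟨t', p'⟩, hm, hl⟩ := hK.ultrafilter_le_nhds (U.map fun k => (t k, p k)) (by
    rw [Ultrafilter.coe_map, le_principal_iff, mem_map]
    filter_upwards [h] with k hk
    exact ⟨hk.1, fun j _ => hk.2.1 j⟩)
  have hl' : Tendsto (fun k => (t k, p k)) U (𝓝 (t', p')) := hl
  have hc : Continuous fun w : (Fin m → ℝ) × (Fin m → Cf) => ∑ j, w.1 j • ee d (w.2 j) :=
    continuous_finsetSum _ fun j _ =>
      ((continuous_apply j).comp continuous_fst).smul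
        ((ee_cont hd).comp ((continuous_apply j).comp continuous_snd))
  refine ⟨t', p', ⟨hm.1, fun j => hm.2 j trivial, rfl⟩, (continuous_fst.tendsto _).comp hl', ?_⟩
  refine ((hc.tendsto _).comp hl').congr' ?_
  filter_upwards [h] with k hk
  exact hk.2.2.symm

theorem c0_tendsto (x : C0) : Tendsto (fun c => x c) atTop (𝓝 0) := by
  have := x.zero_at_infty'
  rwa [Filter.cocompact_eq_cofinite, Nat.cofinite_eq_atTop] at this

theorem c0_le (x : C0) (c : ℕ) : |x c| ≤ ‖x‖ := by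
  rw [← ZeroAtInftyContinuousMap.norm_toBCF_eq_norm]
  exact x.toBCF.norm_coe_le_norm c

theorem c0_diag {ι : Type} {F : Filter ι} {x : ι → C0} {z : C0} (hx : Tendsto x F (𝓝 z))
    {c : ι → ℕ} (hc : Tendsto c F atTop) : Tendsto (fun k => x k (c k)) F (𝓝 0) := by
  have h1 : Tendsto (fun k => ‖x k - z‖ + |z (c k)|) F (𝓝 0) := by
    have h2 := ((c0_tendsto z).comp hc).abs
    have h3 := tendsto_iff_norm_sub_tendsto_zero.1 hx
    simpa using h3.add h2
  refine squeeze_zero_norm (fun k => ?_) h1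
  have h4 := c0_le (x k - z) (c k)
  have h5 : (x k - z) (c k) = x k (c k) - z (c k) := rfl
  rw [h5] at h4
  have h6 := abs_add_le (x k (c k) - z (c k)) (z (c k))
  rw [Real.norm_eq_abs]
  simp only [sub_add_cancel] at h6
  linarith

/-- The constant part of the normal form. -/
noncomputable def kap (d : ℕ → Om → ℝ) {m : ℕ} (p0 : Fin m → Cf) (t : Fin m → ℝ) (c : ℕ) : ℝ :=
  ∑ j, t j * ee d (p0 j) c

theorem kap_lip {d : ℕ → Om → ℝ} {m : ℕ} {p0 : Fin m → Cf} (hp : ∀ j, p0 j ∈ KK d)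
    (t t' : Fin m → ℝ) (c : ℕ) :
    |kap d p0 t c| ≤ |kap d p0 t' c| + 3 * ∑ j, |t j - t' j| := by
  have h1 : kap d p0 t c = kap d p0 t' c + ∑ j, (t j - t' j) * ee d (p0 j) c := by
    simp only [kap, ← Finset.sum_add_distrib]
    exact Finset.sum_congr rfl fun j _ => by ring
  have h2 : |∑ j, (t j - t' j) * ee d (p0 j) c| ≤ 3 * ∑ j, |t j - t' j| := by
    rw [Finset.mul_sum]
    refine (Finset.abs_sum_le_sum_abs _ _).trans (Finset.sum_le_sum fun j _ => ?_)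
    rw [abs_mul, mul_comm]
    exact mul_le_mul_of_nonneg_right (ee_le (hp j) c) (abs_nonneg _)
  rw [h1]
  linarith [abs_add_le (kap d p0 t' c) (∑ j, (t j - t' j) * ee d (p0 j) c)]

theorem l1_tendsto {ι : Type} {F : Filter ι} {m : ℕ} {t : ι → Fin m → ℝ} {t' : Fin m → ℝ}
    (h : Tendsto t F (𝓝 t')) : Tendsto (fun k => 3 * ∑ j, |t k j - t' j|) F (𝓝 0) := by
  have hc : Continuous fun s : Fin m → ℝ => 3 * ∑ j, |s j - t' j| := by fun_prop
  have := (hc.tendsto t').comp h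
  simpa [Function.comp_def] using this

theorem kap_closed {d : ℕ → Om → ℝ} {m : ℕ} {p0 : Fin m → Cf} (hp : ∀ j, p0 j ∈ KK d)
    {ι : Type} {F : Filter ι} [F.NeBot] {t : ι → Fin m → ℝ} {t' : Fin m → ℝ}
    (h : Tendsto t F (𝓝 t')) (h0 : ∀ k, Tendsto (kap d p0 (t k)) atTop (𝓝 0)) :
    Tendsto (kap d p0 t') atTop (𝓝 0) := by
  rw [Metric.tendsto_nhds]
  intro ε hε
  obtain ⟨k, hk⟩ := ((l1_tendsto h).eventually (gt_mem_nhds (half_pos hε))).exists
  filter_upwards [Metric.tendsto_nhds.1 (h0 k) _ (half_pos hε)] with c hc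
  have h1 := kap_lip hp t' (t k) c
  have h2 : ∑ j, |t' j - t k j| = ∑ j, |t k j - t' j| :=
    Finset.sum_congr rfl fun j _ => abs_sub_comm _ _
  rw [Real.dist_eq, sub_zero] at hc ⊢
  rw [h2] at h1
  linarith

theorem sum_small (d : ℕ → Om → ℝ) {m : ℕ} (p : Fin m → Cf) (t : Fin m → ℝ) {C : ℝ}
    (hC : ∑ j, |t j| ≤ C) (c : ℕ) (hc : ∀ n, c ≠ ph n) :
    |kap d p t c| ≤ C * ((c : ℝ) + 1)⁻¹ := by
  refine (Finset.abs_sum_le_sum_abs _ _).trans ?_
  refine le_trans ?_ (mul_le_mul_of_nonneg_right hC (by positivity))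
  rw [Finset.sum_mul]
  refine Finset.sum_le_sum fun j _ => ?_
  rw [abs_mul]
  exact mul_le_mul_of_nonneg_left (ee_small d _ c hc) (abs_nonneg _)

theorem rep_kap {d : ℕ → Om → ℝ} {m : ℕ} {Tau : Set (Fin m → ℝ)} {x : ℕ → ℝ} {t : Fin m → ℝ}
    {p : Fin m → Cf} (h : Rep d Tau x t p) (c : ℕ) : x c = kap d p t c := by
  rw [h.2.2]
  simp [kap, Finset.sum_apply]

theorem inv_tendsto (C : ℝ) : Tendsto (fun c : ℕ => C * ((c : ℝ) + 1)⁻¹) atTop (𝓝 0) := by
  have := (tendsto_one_div_add_atTop_nhds_zero_nat (𝕜 := ℝ)).const_mul C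
  simpa using this

theorem ph_far (N : ℕ) : ∃ c0, ∀ n, c0 ≤ ph n → N ≤ n := by
  refine ⟨(Finset.range N).sup ph + 1, fun n hn => ?_⟩
  by_contra hlt
  have := Finset.le_sup (f := ph) (Finset.mem_range.2 (not_le.1 hlt))
  omega

end Pool.Agent.P.MP_5aae23_gt.Nsh
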