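import Pool.Agent.P.MP_5aae23_gt.NI

open Set Filter Topology Function

namespace Pool.Agent.P.MP_5aae23_gt.Nsh

/-- Direction of motion of the three marginals. -/
def dir : Fin 3 → ℝ := ![1, 0, -1]

/-- The moving arcs. -/
def Xi (γ : ℕ → ℕ) (v : Fin 3) (S : Finset ℕ) : Finset Ix :=
  S.image γ ×ˢ (({v} : Finset (Fin 3)) ×ˢ Finset.univ)

theorem mem_Xi {γ : ℕ → ℕ} {v : Fin 3} {S : Finset ℕ} {β : Ix} :
    β ∈ Xi γ v S ↔ (∃ k ∈ S, γ k = β.1) ∧ β.2.1 = v := by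
  simp only [Xi, Finset.mem_product, Finset.mem_image, Finset.mem_singleton, Finset.mem_univ,
    and_true]

/-- A segment of base values. -/
noncomputable def seg (u : Cf) (Ξ : Finset Ix) (r : ℝ) : (Fin 3 → ℝ) × (Ix → ℝ) :=
  (0, fun β => if β ∈ Ξ then r * dir β.2.2 else (u β).1)

theorem seg_cont (u : Cf) (Ξ : Finset Ix) : Continuous (seg u Ξ) := by
  refine continuous_const.prodMk (continuous_pi fun β => ?_)
  split_ifs
  · fun_prop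
  · fun_prop

theorem seg_convex (u : Cf) (Ξ : Finset Ix) (δ : ℝ) : Convex ℝ (seg u Ξ '' Icc (-δ) δ) := by
  rintro _ ⟨r, hr, rfl⟩ _ ⟨r', hr', rfl⟩ a b ha hb hab
  refine ⟨a • r + b • r', convex_Icc _ _ hr hr' ha hb hab, ?_⟩
  refine Prod.ext (by simp [seg]) (funext fun β => ?_)
  simp only [seg, Prod.snd_add, Prod.smul_snd, Pi.add_apply, Pi.smul_apply, smul_eq_mul]
  split_ifs
  · ring
  · rw [← add_mul, hab, one_mul]

theorem dir_le (i : Fin 3) : |dir i| ≤ 1 := by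
  fin_cases i <;> simp [dir]

theorem seg_bd (u : Cf) (Ξ : Finset Ix) {δ : ℝ} (hδ : δ ≤ 1 / 2) :
    ∀ w ∈ seg u Ξ '' Icc (-δ) δ, (∀ β ∈ Ξ, |w.2 β| ≤ 1) ∧ ∀ β ∉ Ξ, w.2 β = (u β).1 := by
  rintro _ ⟨r, hr, rfl⟩
  refine ⟨fun β hβ => ?_, fun β hβ => by simp [seg, hβ]⟩
  simp only [seg, hβ, if_true, abs_mul]
  have h1 : |r| ≤ 1 := by
    rw [abs_le]
    constructor <;> linarith [hr.1, hr.2]
  exact mul_le_one₀ h1 (abs_nonneg _) (dir_le _)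

/-- The continuum of configurations moving along the segment. -/
def MM (d : ℕ → Om → ℝ) (u : Cf) (δ : ℝ) (Ξ : Finset Ix) : Set Cf :=
  Prod.snd '' Pc d u Ξ (seg u Ξ '' Icc (-δ) δ)

variable {d : ℕ → Om → ℝ} {u : Cf} {δ : ℝ} {Ξ : Finset Ix}

theorem mm_spec {a : Cf} (ha : a ∈ MM d u δ Ξ) : ∃ r, |r| ≤ δ ∧
    (∀ β ∈ Ξ, a β ∈ Arc d (prm β) ∧ (a β).1 = r * dir β.2.2) ∧ ∀ β ∉ Ξ, a β = u β := by
  obtain ⟨z, ⟨⟨r, hr, he⟩, h1, h2⟩, rfl⟩ := ha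
  refine ⟨r, abs_le.2 hr, fun β hβ => ⟨h1 β hβ, ?_⟩, h2⟩
  have := congrFun (congrArg Prod.snd he) β
  simp only [seg, hβ, if_true] at this
  exact this.symm

theorem mm_compact (hd : Dfam d) : IsCompact (MM d u δ Ξ) :=
  (pc_compact hd (isCompact_Icc.image (seg_cont u Ξ))).image continuous_snd

theorem mm_sur (hd : Dfam d) (hδ : δ ≤ 1 / 2) {r : ℝ} (hr : |r| ≤ δ) :
    ∃ a ∈ MM d u δ Ξ, ∀ β ∈ Ξ, (a β).1 = r * dir β.2.2 := by
  obtain ⟨z, hz, -, h2⟩ := pc_surj hd (seg_bd u Ξ hδ) (seg u Ξ r) ⟨r, abs_le.1 hr, rfl⟩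
  refine ⟨z.2, ⟨z, hz, rfl⟩, fun β hβ => ?_⟩
  rw [h2 β]
  simp [seg, hβ]

theorem mm_conn (hd : Dfam d) (h0 : 0 < δ) (hδ : δ ≤ 1 / 2) : IsConnected (MM d u δ Ξ) := by
  obtain ⟨a, ha, -⟩ := mm_sur (u := u) (Ξ := Ξ) hd hδ (r := 0) (by simpa using h0.le)
  exact ⟨⟨a, ha⟩, (pc_conn hd (isCompact_Icc.image (seg_cont u Ξ)) (seg_convex u Ξ δ)
    (seg_bd u Ξ hδ)).image _ continuous_snd.continuousOn⟩

theorem mm_empty (hd : Dfam d) (h0 : 0 < δ) (hδ : δ ≤ 1 / 2) : MM d u δ ∅ = {u} := by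
  refine eq_singleton_iff_nonempty_unique_mem.2 ⟨(mm_conn hd h0 hδ).nonempty, fun a ha => ?_⟩
  obtain ⟨r, -, -, h⟩ := mm_spec ha
  exact funext fun β => h β (by simp)

/-- Glue three configurations along the variables. -/
def cmb (c : Fin 3 → Cf) : Cf := fun β => c β.2.1 β

theorem cmb_cont : Continuous cmb :=
  continuous_pi fun β => (continuous_apply β).comp (continuous_apply β.2.1)

theorem slot_cmb (o : Cf) (c : Fin 3 → Cf) (v : Fin 3) : slot o v (cmb c) = slot o v (c v) := by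
  funext β
  simp only [slot, cmb]
  split_ifs with h
  · rw [h]
  · rfl

theorem xv_cmb (d : ℕ → Om → ℝ) (o : Cf) (c : Fin 3 → Cf) (v : Fin 3) :
    xv d o v (cmb c) = xv d o v (c v) := by
  have h : ∀ a a' : Cf, slot o v a = slot o v a' → xv d o v a = xv d o v a' := by
    intro a a' h
    unfold xv
    generalize slot o v a = b at h ⊢
    subst h
    rfl
  exact h _ _ (slot_cmb o c v)

/-- A base point with the site `n1` frozen at prescribed values. -/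
theorem exists_frozen {m : ℕ} {Tau : Set (Fin m → ℝ)} {n0 : ℕ} {lo hi : Fin 3 → ℝ}
    {Ψ : (Fin 3 → ℝ) × Cf → ℕ → ℝ} (hd : Dfam d) (hL : Loc d Tau u n0 δ lo hi Ψ) {n1 : ℕ}
    (hn : n0 ≤ n1) (yy : Fin 3 → ℝ) (hy : ∀ v, |yy v| ≤ δ) :
    ∃ u' ∈ KK d, (∀ β : Ix, β.1 ≠ n1 → u' β = u β) ∧
      ∀ v, (u' (n1, v, 0)).1 = 0 ∧ (u' (n1, v, 1)).1 = yy v := by
  have h := fun v => zf_surj hd hL hn v (y0 := 0) (by simpa using hL.dpos.le) (hy v)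
    (Nat.lt_succ_self n1)
  choose z hz h0 h1 h2 using h
  refine ⟨cmb fun v => (z v).2, ⟨fun β => (hz _).2.1.1 β, fun n v => (hz v).2.1.2 n v⟩,
    fun β hβ => h2 _ β ?_, fun v => ⟨h0 v, h1 v⟩⟩
  intro he
  exact hβ (congrArg Prod.fst he)

theorem cmb_mem {m : ℕ} {Tau : Set (Fin m → ℝ)} {n0 : ℕ} {lo hi : Fin 3 → ℝ}
    {Ψ : (Fin 3 → ℝ) × Cf → ℕ → ℝ} (hL : Loc d Tau u n0 δ lo hi Ψ) {n1 : ℕ}
    (hn : n0 ≤ n1) {u' : Cf} (hu : u' ∈ KK d) (hu1 : ∀ β : Ix, β.1 ≠ n1 → u' β = u β)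
    (hu2 : ∀ v, (u' (n1, v, 0)).1 = 0 ∧ |(u' (n1, v, 1)).1| ≤ δ) {γ : ℕ → ℕ}
    (hγ : ∀ k, n1 < γ k) (S : Fin 3 → Finset ℕ) :
    ∃ N, ∀ s ∈ Icc lo hi, ∀ c : Fin 3 → Cf, (∀ w, c w ∈ MM d u' δ (Xi γ w (S w))) →
      (s, cmb c) ∈ Zf d u n0 δ lo hi N := by
  refine ⟨(Finset.univ.sup fun w => (S w).sup γ) + n1 + 1, fun s hs c hc => ?_⟩
  choose r hr h1 h2 using fun w => mm_spec (hc w)
  have hin : ∀ n v i i', ((n, v, i) : Ix) ∈ Xi γ v (S v) → ((n, v, i') : Ix) ∈ Xi γ v (S v) :=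
    fun n v i i' h => mem_Xi.2 ⟨(mem_Xi.1 h).1, rfl⟩
  refine ⟨hs, ⟨fun β => ?_, fun n v => ?_⟩, fun β hβ => ?_, fun n v hnn => ?_⟩
  · by_cases hβ : β ∈ Xi γ β.2.1 (S β.2.1)
    · exact (h1 _ β hβ).1
    · show c β.2.1 β ∈ _
      rw [h2 _ β hβ]
      exact hu.1 β
  · show ∑ i, (c v (n, v, i)).1 = 0
    by_cases hβ : ((n, v, 0) : Ix) ∈ Xi γ v (S v)
    · rw [Finset.sum_congr rfl fun i _ => (h1 v _ (hin n v 0 i hβ)).2]
      simp [Fin.sum_univ_three, dir]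
    · rw [Finset.sum_congr rfl fun i _ => congrArg Prod.fst
        (h2 v _ fun h => hβ (hin n v i 0 h))]
      exact hu.2 n v
  · show c β.2.1 β = u β
    have hb : β ∉ Xi γ β.2.1 (S β.2.1) := by
      intro h
      obtain ⟨⟨k, hk, he⟩, -⟩ := mem_Xi.1 h
      have h3 := Finset.le_sup (f := γ) hk
      have h4 := Finset.le_sup (f := fun w => (S w).sup γ) (Finset.mem_univ β.2.1)
      have h5 := hγ k
      omega
    rw [h2 _ β hb, hu1 β (by omega)]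
  · show |(c v (n, v, 0)).1| ≤ δ ∧ |(c v (n, v, 1)).1| ≤ δ
    by_cases hβ : ((n, v, 0) : Ix) ∈ Xi γ v (S v)
    · rw [(h1 v _ hβ).2, (h1 v _ (hin n v 0 1 hβ)).2]
      simpa [dir, hL.dpos.le] using hr v
    · rw [h2 v _ hβ, h2 v _ fun h => hβ (hin n v 1 0 h)]
      by_cases he : n = n1
      · subst he
        rw [(hu2 v).1]
        exact ⟨by simpa using hL.dpos.le, (hu2 v).2⟩
      · rw [hu1 _ he, hu1 _ he, hL.uzero _ hnn, hL.uzero _ hnn]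
        simpa using hL.dpos.le

end Pool.Agent.P.MP_5aae23_gt.Nsh
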