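import Pool.Agent.P.MP_5aae23_gt.NM
import Pool.Agent.P.MP_5aae23_gt.COs

open Set Filter Topology Function

namespace Pool.Agent.P.MP_5aae23_gt.Nsh

variable {H : Type*} [NormedAddCommGroup H] [NormedSpace ℝ H] (A : Asc H)

theorem Asc.lo_mem : A.lo ∈ Icc A.lo A.hi := ⟨le_rfl, fun v => (A.lohi v).le⟩

theorem Asc.pt_mem (v : Fin 3) : A.pt ∈ A.M v ∅ := by
  rw [A.Mempty]
  rfl

theorem Asc.g_le : A.g ≤ A.G :=
  have h := A.lbd _ A.lo_mem (fun _ => ∅) (fun _ => A.pt) A.pt_mem 0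
  h.1.trans h.2

theorem Asc.d_pos : 0 < A.δ * A.g / (4 * A.G) :=
  div_pos (mul_pos A.dpos A.gpos) (mul_pos four_pos (A.gpos.trans_le A.g_le))

/-- One variable is chosen so that the main coordinates vanish somewhere on each side. -/
theorem Asc.zeros {T : Finset ℕ} (hT : T.Nonempty) {S : Fin 3 → Finset ℕ} {c : Fin 3 → Cf}
    {w : Fin 3} (hS : ∀ u, S u = T ∨ S u = ∅) (hw : S w = T) (hc : ∀ u, u ≠ w → c u ∈ A.M u (S u))
    (hy : ∀ u, u ≠ w → ∀ n, |A.y n u (c u)| ≤ A.δ * A.g / (4 * A.G))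
    (E : Fin 3 → Set (Fin 3 → ℝ)) (hE : ∀ i, IsCompact (E i)) (hE' : ∀ i, IsPreconnected (E i))
    (hm : ∀ i j, (E i ∩ E j).Nonempty) (hI : ∀ i, E i ⊆ Icc A.lo A.hi) :
    ∃ r ∈ A.M w T, ∀ i, ∃ s ∈ E i,
      ∀ n, ∑ u, A.lam s (update c w r) u * A.y n u (update c w r u) = 0 := by
  obtain ⟨n0, hn0⟩ := hT
  have hG : 0 < A.G := A.gpos.trans_le A.g_le
  have h1 : ∀ r ∈ A.M w T, ∀ u, update c w r u ∈ A.M u (S u) := fun r hr u => by
    by_cases e : u = w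
    · rw [e, update_self, hw]
      exact hr
    · rw [update_of_ne e]
      exact hc u e
  have h2 : ∀ s ∈ ⋃ i, E i, s ∈ Icc A.lo A.hi := fun s hs => iUnion_subset hI hs
  have h3 : ∀ s ∈ ⋃ i, E i, ∀ r ∈ A.M w T, A.lam s (update c w r) w ≠ 0 := fun s hs r hr =>
    abs_pos.1 (A.gpos.trans_le (A.lbd s (h2 s hs) S _ (h1 r hr) w).1)
  have hu : Continuous fun z : (Fin 3 → ℝ) × Cf => update c w z.2 :=
    continuous_const.update w continuous_snd
  have h4 : ∀ u, ContinuousOn (fun z : (Fin 3 → ℝ) × Cf => A.lam z.1 (update c w z.2) u)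
      ((⋃ i, E i) ×ˢ A.M w T) := fun u =>
    (A.lcont S u).comp (f := fun z : (Fin 3 → ℝ) × Cf => (z.1, update c w z.2))
      (continuous_fst.prodMk hu).continuousOn fun z hz => ⟨h2 _ hz.1, fun u _ => h1 _ hz.2 u⟩
  have h5 : ∀ s ∈ ⋃ i, E i, ∀ r ∈ A.M w T,
      |(∑ u, A.lam s (update c w r) u * A.y n0 u (update c w r u)) / A.lam s (update c w r) w -
        A.y n0 w r| ≤ A.δ / 2 := fun s hs r hr => by
    have hb := A.lbd s (h2 s hs) S _ (h1 r hr)
    have h6 : |∑ u ∈ Finset.univ.erase w, A.lam s (update c w r) u * A.y n0 u (update c w r u)| ≤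
        A.δ / 2 * A.g := by
      refine (Finset.abs_sum_le_sum_abs _ _).trans ((Finset.sum_le_card_nsmul _ _
        (A.G * (A.δ * A.g / (4 * A.G))) fun u hu => ?_).trans (le_of_eq ?_))
      · rw [abs_mul, update_of_ne (Finset.ne_of_mem_erase hu)]
        exact mul_le_mul (hb u).2 (hy u (Finset.ne_of_mem_erase hu) n0) (abs_nonneg _) hG.le
      · rw [Finset.card_erase_of_mem (Finset.mem_univ w), Finset.card_univ, Fintype.card_fin,
          nsmul_eq_mul]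
        field_simp
        norm_num
        ring
    rw [← Finset.add_sum_erase _ _ (Finset.mem_univ w), update_self, add_div,
      mul_div_cancel_left₀ _ (h3 s hs r hr), add_sub_cancel_left, abs_div,
      div_le_iff₀ (abs_pos.2 (h3 s hs r hr))]
    exact h6.trans (mul_le_mul_of_nonneg_left (hb w).1 (half_pos A.dpos).le)
  obtain ⟨a, ha, ea⟩ := A.ysur w T (-A.δ) (by rw [abs_neg, abs_of_pos A.dpos])
  obtain ⟨b, hb, eb⟩ := A.ysur w T A.δ (by rw [abs_of_pos A.dpos])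
  obtain ⟨r, hr, h⟩ := tri E hE hE' hm (A.Mconn w T).isPreconnected (fun z =>
    (∑ u, A.lam z.1 (update c w z.2) u * A.y n0 u (update c w z.2 u)) /
      A.lam z.1 (update c w z.2) w)
    ((continuousOn_finsetSum _ fun u _ => (h4 u).mul
      ((A.ycont n0 u).comp ((continuous_apply u).comp hu)).continuousOn).div (h4 w)
      fun z hz => h3 _ hz.1 _ hz.2) ha hb
    (fun s hs => by
      have h6 := (abs_le.1 (h5 s hs a ha)).2
      rw [ea n0 hn0] at h6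
      have := A.dpos
      linarith)
    fun s hs => by
      have h6 := (abs_le.1 (h5 s hs b hb)).1
      rw [eb n0 hn0] at h6
      have := A.dpos
      linarith
  refine ⟨r, hr, fun i => (h i).imp fun s hs => ⟨hs.1, fun n => ?_⟩⟩
  by_cases hn : n ∈ T
  · refine Eq.trans (Finset.sum_congr rfl fun u _ => congrArg _ ?_)
      ((div_eq_zero_iff.1 hs.2).resolve_right (h3 s (mem_iUnion.2 ⟨i, hs.1⟩) r hr))
    rcases hS u with e | e
    · exact A.yeq u _ _ (h1 r hr u) n (e ▸ hn) n0 (e ▸ hn0)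
    · rw [A.yzero u _ _ (h1 r hr u) n (by simp [e]), A.yzero u _ _ (h1 r hr u) n0 (by simp [e])]
  · refine Finset.sum_eq_zero fun u _ => ?_
    rw [A.yzero u _ _ (h1 r hr u) n (by rcases hS u with e | e <;> simp [e, hn]), mul_zero]

theorem third {v v' : Fin 3} (h : v ≠ v') : ∃ w, w ≠ v ∧ w ≠ v' ∧ ∀ u, u = v ∨ u = v' ∨ u = w := by
  revert v v'
  decide

theorem sum_three {α : Type*} [AddCommMonoid α] {v v' w : Fin 3} (h : v ≠ v') (h1 : w ≠ v)
    (h2 : w ≠ v') (f : Fin 3 → α) : ∑ u, f u = f v + f v' + f w := by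
  have e : (Finset.univ : Finset (Fin 3)) = {v, v', w} := by
    revert v v' w
    decide
  rw [e, Finset.sum_insert (by simp [h, h1.symm]), Finset.sum_pair h2.symm, add_assoc]

/-- A triple with `a` at `v`, `r` at `w` and `b` at the third index. -/
abbrev t3 {α : Type*} (v w : Fin 3) (a b r : α) : Fin 3 → α := update (update (fun _ => b) v a) w r

theorem t3_a {α : Type*} {v w : Fin 3} (h : w ≠ v) (a b r : α) : t3 v w a b r v = a := by
  rw [t3, update_of_ne h.symm, update_self]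

theorem t3_b {α : Type*} {v v' w : Fin 3} (h : v ≠ v') (h' : w ≠ v') (a b r : α) :
    t3 v w a b r v' = b := by
  rw [t3, update_of_ne h'.symm, update_of_ne h.symm]

theorem t3_r {α : Type*} (v w : Fin 3) (a b r : α) : t3 v w a b r w = r := update_self ..

theorem Asc.t3_mem {v v' w : Fin 3} (h : v ≠ v') (h1 : w ≠ v) (h2 : w ≠ v')
    (h3 : ∀ u, u = v ∨ u = v' ∨ u = w) {a b r : Cf} {S S' S'' : Finset ℕ} (ha : a ∈ A.M v S)
    (hb : b ∈ A.M v' S') (hr : r ∈ A.M w S'') (u : Fin 3) :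
    t3 v w a b r u ∈ A.M u (t3 v w S S' S'' u) := by
  rcases h3 u with rfl | rfl | rfl
  · rwa [t3_a h1, t3_a h1]
  · rwa [t3_b h h2, t3_b h h2]
  · rwa [t3_r, t3_r]

theorem Asc.zeros3 {v v' w : Fin 3} (h : v ≠ v') (h1 : w ≠ v) (h2 : w ≠ v')
    (h3 : ∀ u, u = v ∨ u = v' ∨ u = w) {a b : Cf} {T S' : Finset ℕ} (hT : T.Nonempty)
    (hS : S' = T ∨ S' = ∅) (ha : a ∈ A.M v T) (hb : b ∈ A.M v' S')
    (ha' : ∀ n, |A.y n v a| ≤ A.δ * A.g / (4 * A.G))
    (hb' : ∀ n, |A.y n v' b| ≤ A.δ * A.g / (4 * A.G))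
    (E : Fin 3 → Set (Fin 3 → ℝ)) (hE : ∀ i, IsCompact (E i)) (hE' : ∀ i, IsPreconnected (E i))
    (hm : ∀ i j, (E i ∩ E j).Nonempty) (hI : ∀ i, E i ⊆ Icc A.lo A.hi) :
    ∃ r ∈ A.M w T, ∀ i, ∃ s ∈ E i,
      ∀ n, ∑ u, A.lam s (t3 v w a b r) u * A.y n u (t3 v w a b r u) = 0 := by
  refine A.zeros hT (S := t3 v w T S' T) (fun u => ?_) (t3_r ..) (fun u hu => ?_) (fun u hu => ?_)
    E hE hE' hm hI
  · rcases h3 u with rfl | rfl | rfl
    · exact Or.inl (t3_a h1 ..)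
    · rwa [t3_b h h2]
    · exact Or.inl (t3_r ..)
  · rcases h3 u with rfl | rfl | rfl
    · rwa [t3_a h1, update_self]
    · rwa [t3_b h h2, update_of_ne h.symm]
    · exact absurd rfl hu
  · rcases h3 u with rfl | rfl | rfl
    · rwa [update_self]
    · rwa [update_of_ne h.symm]
    · exact absurd rfl hu

theorem Asc.f3 (v : Fin 3) {σ : ℝ} (hσ : 0 < σ) : ∃ c > 0, ∃ n2 : ℕ, ∀ S S' : Finset ℕ,
    S'.Nonempty → Disjoint S S' → (∀ n ∈ S', n2 ≤ n) → ∀ a ∈ A.M v S, ∀ a' ∈ A.M v S',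
    (∀ n, |A.y n v a| ≤ A.δ * A.g / (4 * A.G)) → (∀ n ∈ S', σ ≤ |A.y n v a'|) →
    c ≤ ‖A.J v a - A.J v a'‖ := by
  by_contra hcon
  push Not at hcon
  choose S S' h1 h2 h3 a ha a' ha' h4 h5 h6 using fun k : ℕ =>
    hcon (1 / ((k : ℝ) + 1)) Nat.one_div_pos_of_nat k
  choose n hn using h1
  obtain ⟨u, hu⟩ := exists_ne v
  obtain ⟨w, w1, w2, w3⟩ := third hu.symm
  have h0 : ∀ m, A.y m u A.pt = 0 := fun m => A.yzero u _ _ (A.pt_mem u) m (by simp)
  have h7 : ∀ k, ∃ r ∈ A.M w (S k), ∀ m,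
      ∑ x, A.lam A.lo (t3 v w (a k) A.pt r) x * A.y m x (t3 v w (a k) A.pt r x) = 0 := fun k => by
    rcases (S k).eq_empty_or_nonempty with e | e
    · refine ⟨A.pt, e ▸ A.pt_mem w, fun m => ?_⟩
      rw [sum_three hu.symm w1 w2, t3_a w1, t3_b hu.symm w2, t3_r, h0,
        A.yzero v _ _ (ha k) m (by simp [e]), A.yzero w _ _ (A.pt_mem w) m (by simp)]
      simp
    · obtain ⟨r, hr, h⟩ := A.zeros3 hu.symm w1 w2 w3 e (Or.inr rfl) (ha k) (A.pt_mem u) (h4 k)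
        (fun m => by rw [h0, abs_zero]; exact A.d_pos.le) (fun _ => {A.lo})
        (fun _ => isCompact_singleton) (fun _ => isPreconnected_singleton)
        (fun _ _ => ⟨_, rfl, rfl⟩) fun _ => singleton_subset_iff.2 A.lo_mem
      obtain ⟨_, rfl, h⟩ := h 0
      exact ⟨r, hr, h⟩
  choose r hr h7 using h7
  have hU : ((Ultrafilter.of atTop : Ultrafilter ℕ) : Filter ℕ) ≤ atTop := Ultrafilter.of_le _
  obtain ⟨x, hxC, hx⟩ := A.cl (Ultrafilter.of atTop) (fun _ => A.lo) _ _ (fun _ => A.lo_mem)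
    (fun k => A.t3_mem hu.symm w1 w2 w3 (ha k) (A.pt_mem u) (hr k)) h7
  have h8 : Tendsto (fun k => A.lo v • (A.J v (a k) - A.J v (a' k))) atTop (𝓝 0) := by
    simpa only [smul_zero] using (squeeze_zero_norm (fun k => (h6 k).le)
      tendsto_one_div_add_atTop_nhds_zero_nat).const_smul (A.lo v)
  have h9 := fun k => A.t3_mem hu.symm w1 w2 w3 (ha' k) (A.pt_mem u) (hr k)
  have h10 := A.cv (Ultrafilter.of atTop) (fun _ => A.lo) _ _ n x hxC (fun _ => A.lo_mem) h9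
    ((tendsto_atTop_mono (fun k => h3 k _ (hn k)) tendsto_id).mono_left hU) (by
      refine (sub_zero x ▸ hx.sub (h8.mono_left hU)).congr fun k => ?_
      simp only [sum_three hu.symm w1 w2, t3_a w1, t3_b hu.symm w2, t3_r, smul_sub]
      abel)
  refine (mul_pos A.gpos hσ).not_ge (ge_of_tendsto' (abs_zero (α := ℝ) ▸ h10.abs) fun k => ?_)
  rw [sum_three hu.symm w1 w2, t3_a w1, t3_b hu.symm w2, t3_r, h0,
    A.yzero w _ _ (hr k) _ (Finset.disjoint_right.1 (h2 k) (hn k)), mul_zero, mul_zero, add_zero,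
    add_zero, abs_mul]
  exact mul_le_mul (A.lbd _ A.lo_mem _ _ (h9 k) v).1 (h5 k _ (hn k)) hσ.le (abs_nonneg _)

theorem Asc.line (U : Ultrafilter ℕ) {v v' : Fin 3} (hv : v ≠ v') (S : ℕ → Finset ℕ)
    (hS : ∀ k, (S k).Nonempty) (a b : ℕ → Cf) (ha : ∀ k, a k ∈ A.M v (S k))
    (hb : ∀ k, b k ∈ A.M v' (S k)) (ha' : ∀ k n, |A.y n v (a k)| ≤ A.δ * A.g / (4 * A.G))
    (hb' : ∀ k n, |A.y n v' (b k)| ≤ A.δ * A.g / (4 * A.G)) :
    ∃ (α β : ℝ) (x : H), (α ≠ 0 ∨ β ≠ 0) ∧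
      Tendsto (fun k => α • A.J v (a k) + β • A.J v' (b k)) U (𝓝 x) := by
  obtain ⟨w, w1, w2, w3⟩ := third hv
  have l1 := (A.lohi v).le
  have l2 := (A.lohi v').le
  have l3 := (A.lohi w).le
  have le3 : ∀ {x y z x' y' z' : ℝ}, x ≤ x' → y ≤ y' → z ≤ z' →
      t3 v w x y z ≤ t3 v w x' y' z' := fun h1 h2 h3 u => by
    rcases w3 u with rfl | rfl | rfl
    · rwa [t3_a w1, t3_a w1]
    · rwa [t3_b hv w2, t3_b hv w2]
    · rwa [t3_r, t3_r]
  have e3 : ∀ f : Fin 3 → ℝ, f = t3 v w (f v) (f v') (f w) := fun f => funext fun u => by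
    rcases w3 u with rfl | rfl | rfl
    · rw [t3_a w1]
    · rw [t3_b hv w2]
    · rw [t3_r]
  let p : ℝ → ℝ → Fin 3 → ℝ := fun x y => t3 v w x y (A.lo w)
  let E : Fin 3 → Set (Fin 3 → ℝ) :=
    ![Icc (p (A.lo v) (A.lo v')) (p (A.hi v) (A.lo v')),
      Icc (p (A.lo v) (A.lo v')) (p (A.lo v) (A.hi v')),
      Icc (p (A.hi v) (A.lo v')) (p (A.hi v) (A.hi v')) ∪
        Icc (p (A.lo v) (A.hi v')) (p (A.hi v) (A.hi v'))]
  have i1 : p (A.lo v) (A.lo v') ≤ p (A.hi v) (A.lo v') := le3 l1 le_rfl le_rfl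
  have i2 : p (A.lo v) (A.lo v') ≤ p (A.lo v) (A.hi v') := le3 le_rfl l2 le_rfl
  have i3 : p (A.hi v) (A.lo v') ≤ p (A.hi v) (A.hi v') := le3 le_rfl l2 le_rfl
  have i4 : p (A.lo v) (A.hi v') ≤ p (A.hi v) (A.hi v') := le3 l1 le_rfl le_rfl
  have hE : ∀ i, IsCompact (E i) := fun i => by
    fin_cases i
    exacts [isCompact_Icc, isCompact_Icc, isCompact_Icc.union isCompact_Icc]
  have hJ : ∀ i, E i ⊆ Icc (p (A.lo v) (A.lo v')) (p (A.hi v) (A.hi v')) := fun i => by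
    fin_cases i
    exacts [Icc_subset_Icc le_rfl i3, Icc_subset_Icc le_rfl i4,
      union_subset (Icc_subset_Icc i1 le_rfl) (Icc_subset_Icc i2 le_rfl)]
  have hI : ∀ i, E i ⊆ Icc A.lo A.hi := fun i => (hJ i).trans
    (Icc_subset_Icc (e3 A.lo).le ((le3 le_rfl le_rfl l3).trans (e3 A.hi).ge))
  have m01 : (E 0 ∩ E 1).Nonempty := ⟨_, left_mem_Icc.2 i1, left_mem_Icc.2 i2⟩
  have m02 : (E 0 ∩ E 2).Nonempty := ⟨_, right_mem_Icc.2 i1, Or.inl (left_mem_Icc.2 i3)⟩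
  have m12 : (E 1 ∩ E 2).Nonempty := ⟨_, right_mem_Icc.2 i2, Or.inr (left_mem_Icc.2 i4)⟩
  choose r hr s hs h0 using fun k => A.zeros3 hv w1 w2 w3 (hS k) (Or.inl rfl) (ha k) (hb k)
    (ha' k) (hb' k) E hE (fun i => by
      fin_cases i
      exacts [(convex_Icc _ _).isPreconnected, (convex_Icc _ _).isPreconnected,
        IsPreconnected.union _ (right_mem_Icc.2 i3) (right_mem_Icc.2 i4)
          (convex_Icc _ _).isPreconnected (convex_Icc _ _).isPreconnected])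
    (fun i j => by
      fin_cases i <;> fin_cases j
      exacts [m01.mono fun _ h => ⟨h.1, h.1⟩, m01, m02, inter_comm _ _ ▸ m01,
        m12.mono fun _ h => ⟨h.1, h.1⟩, m12, inter_comm _ _ ▸ m02, inter_comm _ _ ▸ m12,
        m12.mono fun _ h => ⟨h.2, h.2⟩]) hI
  choose σ hσ lim using fun i => (hE i).ultrafilter_le_nhds (U.map fun k => s k i)
    (le_principal_iff.2 (mem_map.2 (univ_mem' fun k => hs k i)))
  choose x hxC hx using fun i => A.cl U (fun k => s k i) _ _ (fun k => hI i (hs k i))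
    (fun k => A.t3_mem hv w1 w2 w3 (ha k) (hb k) (hr k)) fun k => h0 k i
  have sm : ∀ i u (f : ℕ → H), (∀ k, ‖f k‖ ≤ A.B) →
      Tendsto (fun k => (σ i u - s k i u) • f k) U (𝓝 0) := fun i u f hf => by
    have h1 : Tendsto (fun k => s k i u) U (𝓝 (σ i u)) :=
      ((continuous_apply u).tendsto _).comp (lim i)
    have h2 := ((h1.const_sub (σ i u)).norm.mul_const A.B)
    rw [sub_self, norm_zero, zero_mul] at h2
    exact squeeze_zero_norm (fun k => (norm_smul _ _).le.trans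
      (mul_le_mul_of_nonneg_left (hf k) (norm_nonneg _))) h2
  have k1 : ∀ i, Tendsto (fun k => σ i v • A.J v (a k) + σ i v' • A.J v' (b k) +
      A.lo w • A.J w (r k)) U (𝓝 (x i)) := fun i => by
    have h1 := ((hx i).add (sm i v _ fun k => A.Jle _ _ _ (ha k))).add
      (sm i v' _ fun k => A.Jle _ _ _ (hb k))
    rw [add_zero, add_zero] at h1
    refine h1.congr fun k => ?_
    have h2 : s k i w = A.lo w := le_antisymm (((hJ i (hs k i)).2 w).trans (t3_r ..).le)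
      ((t3_r ..).ge.trans ((hJ i (hs k i)).1 w))
    simp only [sum_three hv w1 w2, t3_a w1, t3_b hv w2, t3_r, sub_smul, h2]
    abel
  have k2 : ∀ i j, Tendsto (fun k => (σ i v - σ j v) • A.J v (a k) +
      (σ i v' - σ j v') • A.J v' (b k)) U (𝓝 (x i - x j)) := fun i j =>
    ((k1 i).sub (k1 j)).congr fun k => by
      simp only [sub_smul]
      abel
  rcases hσ 2 with h | h
  · exact ⟨_, _, _, Or.inl (sub_pos.2 (((((hσ 1).2 v).trans (t3_a w1 ..).le).trans_lt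
      (A.lohi v)).trans_le ((t3_a w1 ..).ge.trans (h.1 v)))).ne', k2 2 1⟩
  · exact ⟨_, _, _, Or.inr (sub_pos.2 (((((hσ 0).2 v').trans (t3_b hv w2 ..).le).trans_lt
      (A.lohi v')).trans_le ((t3_b hv w2 ..).ge.trans (h.1 v')))).ne', k2 2 0⟩

end Pool.Agent.P.MP_5aae23_gt.Nsh
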