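import Mathlib

open Set Filter Topology Function

namespace Pool.Agent.P.MP_5aae23_gt.Nsh

theorem nr_chain (W : Ultrafilter ℕ) (R : ℕ → ℕ → Prop) (h : ∀ᶠ m in W, ∀ᶠ m' in W, R m m') :
    ∃ s : ℕ → ℕ, ∀ i, R (s i) (s (i + 1)) := by
  have h1 : ∀ m : {m // ∀ᶠ m' in (W : Filter ℕ), R m m'},
      ∃ m' : {m // ∀ᶠ m' in (W : Filter ℕ), R m m'}, R m.1 m'.1 := fun m => by
    obtain ⟨m', h1, h2⟩ := (h.and m.2).exists
    exact ⟨⟨m', h1⟩, h2⟩
  choose f hf using h1
  obtain ⟨m0, hm0⟩ := h.exists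
  refine ⟨fun i => (f^[i] ⟨m0, hm0⟩).1, fun i => ?_⟩
  simp only [Function.iterate_succ_apply']
  exact hf _

variable {H : Type*} [NormedAddCommGroup H] [NormedSpace ℝ H]

/-- A difference of two terms of a bounded sequence can be averaged away. -/
theorem nr_avg {ι : Type*} (F : Filter ι) (w : ι → H) (W : Ultrafilter ℕ) (x : ℕ → H) {B : ℝ}
    (hx : ∀ m, ‖x m‖ ≤ B) (u : H) {r ε : ℝ} (hε : 0 < ε)
    (h : ∀ᶠ m in W, ∀ᶠ m' in W, ∀ᶠ p in F, ‖u + (x m - x m') + w p‖ ≤ r) :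
    ∀ᶠ p in F, ‖u + w p‖ ≤ r + ε := by
  obtain ⟨s, hs⟩ := nr_chain W _ h
  obtain ⟨M, hM⟩ := exists_nat_gt ((B + B) / ε)
  have hB : 0 ≤ B := (norm_nonneg _).trans (hx 0)
  have hM0 : (0 : ℝ) < M := lt_of_le_of_lt (by positivity) hM
  filter_upwards [(Filter.eventually_all_finset (Finset.range M)).2 fun i _ => hs i] with p hp
  have h1 : ∑ i ∈ Finset.range M, (u + (x (s i) - x (s (i + 1))) + w p)
      = (M : ℝ) • (u + w p) + (x (s 0) - x (s M)) := by
    rw [← Finset.sum_range_sub' (fun i => x (s i)) M, Nat.cast_smul_eq_nsmul]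
    simp only [Finset.sum_add_distrib, Finset.sum_const, Finset.card_range, smul_add]
    abel
  have h2 : ‖(M : ℝ) • (u + w p) + (x (s 0) - x (s M))‖ ≤ M * r := by
    rw [← h1]
    refine (norm_sum_le_of_le _ hp).trans ?_
    simp
  have h3 : ‖(M : ℝ) • (u + w p)‖ ≤ M * r + (B + B) := by
    have := norm_sub_le_of_le h2 (norm_sub_le_of_le (hx (s 0)) (hx (s M)))
    rwa [add_sub_cancel_right] at this
  rw [norm_smul, Real.norm_of_nonneg hM0.le] at h3
  rw [div_lt_iff₀ hε] at hM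
  refine le_of_mul_le_mul_left ?_ hM0
  nlinarith

/-- Interlaced iterated limits: differences form a suppression unconditional family. -/
theorem nr_tens (H : Type*) [NormedAddCommGroup H] [NormedSpace ℝ H] (N : ℕ) :
    ∃ (T : Ultrafilter (Fin N → ℕ)) (V : Ultrafilter ((Fin N → ℕ) × (Fin N → ℕ))),
      Tendsto Prod.fst (V : Filter ((Fin N → ℕ) × (Fin N → ℕ))) T ∧
      Tendsto Prod.snd (V : Filter ((Fin N → ℕ) × (Fin N → ℕ))) T ∧
      (∀ j, ∀ᶠ p in (V : Filter ((Fin N → ℕ) × (Fin N → ℕ))), p.1 j ≠ p.2 j) ∧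
      (∀ j n, ∀ᶠ t in (T : Filter (Fin N → ℕ)), n ≤ t j) ∧
      ∀ (x x' : Fin N → ℕ → H) (B : ℝ), (∀ j m, ‖x j m‖ ≤ B) → (∀ j, x' j = x j ∨ x' j = 0) →
        ∀ (u : H) (r ε : ℝ), 0 < ε →
        (∀ᶠ p in (V : Filter ((Fin N → ℕ) × (Fin N → ℕ))),
          ‖u + ∑ j, (x j (p.1 j) - x j (p.2 j))‖ ≤ r) →
        ∀ᶠ p in (V : Filter ((Fin N → ℕ) × (Fin N → ℕ))),
          ‖u + ∑ j, (x' j (p.1 j) - x' j (p.2 j))‖ ≤ r + ε := by
  induction N with
  | zero =>
    refine ⟨pure 0, pure (0, 0), tendsto_pure_pure _ _, tendsto_pure_pure _ _,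
      fun j => j.elim0, fun j => j.elim0, fun x x' B _ _ u r ε hε h => ?_⟩
    filter_upwards [h] with p hp
    simp only [Finset.univ_eq_empty, Finset.sum_empty] at hp ⊢
    linarith
  | succ N ih =>
    obtain ⟨T, V, t1, t2, hne, hge, hsup⟩ := ih
    let W := hyperfilter ℕ
    have hW : (W : Filter ℕ) ≤ atTop := by
      rw [← Nat.cofinite_eq_atTop]; exact hyperfilter_le_cofinite
    let T' : Ultrafilter (Fin (N + 1) → ℕ) := W.bind fun m => T.map (Fin.cons m)
    let V' : Ultrafilter ((Fin (N + 1) → ℕ) × (Fin (N + 1) → ℕ)) :=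
      W.bind fun m => W.bind fun m' => V.map fun p => (Fin.cons m p.1, Fin.cons m' p.2)
    have eT : ∀ P : (Fin (N + 1) → ℕ) → Prop, (∀ᶠ t in (T' : Filter _), P t) ↔
        ∀ᶠ m in (W : Filter ℕ), ∀ᶠ t in (T : Filter _), P (Fin.cons m t) := fun P => Iff.rfl
    have eV : ∀ P : (Fin (N + 1) → ℕ) × (Fin (N + 1) → ℕ) → Prop,
        (∀ᶠ p in (V' : Filter _), P p) ↔ ∀ᶠ m in (W : Filter ℕ), ∀ᶠ m' in (W : Filter ℕ),
          ∀ᶠ p in (V : Filter ((Fin N → ℕ) × (Fin N → ℕ))),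
            P (Fin.cons m p.1, Fin.cons m' p.2) := fun P => Iff.rfl
    refine ⟨T', V', ?_, ?_, ?_, ?_, ?_⟩
    · refine tendsto_iff_forall_eventually_mem.2 fun s hs => (eV _).2 ?_
      filter_upwards [(eT (· ∈ s)).1 hs] with m hm
      exact Eventually.of_forall fun _ => t1.eventually hm
    · refine tendsto_iff_forall_eventually_mem.2 fun s hs => (eV _).2 ?_
      refine Eventually.of_forall fun _ => ?_
      filter_upwards [(eT (· ∈ s)).1 hs] with m hm
      exact t2.eventually hm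
    · intro j
      refine (eV _).2 (Eventually.of_forall fun m => ?_)
      refine Fin.cases ?_ (fun j => ?_) j
      · filter_upwards [hW (eventually_gt_atTop m)] with m' hm'
        exact Eventually.of_forall fun _ => (ne_of_lt hm' : m ≠ m')
      · exact Eventually.of_forall fun _ => hne j
    · intro j n
      refine (eT _).2 ?_
      refine Fin.cases ?_ (fun j => ?_) j
      · filter_upwards [hW (eventually_ge_atTop n)] with m hm
        exact Eventually.of_forall fun _ => hm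
      · exact Eventually.of_forall fun _ => hge j n
    · intro x x' B hx hx' u r ε hε h
      have h1 : ∀ᶠ m in (W : Filter ℕ), ∀ᶠ m' in (W : Filter ℕ),
          ∀ᶠ p in (V : Filter ((Fin N → ℕ) × (Fin N → ℕ))),
          ‖u + (x 0 m - x 0 m') + ∑ j : Fin N, (x' j.succ (p.1 j) - x' j.succ (p.2 j))‖
            ≤ r + ε / 2 := by
        filter_upwards [(eV _).1 h] with m hm
        filter_upwards [hm] with m' hm'
        refine hsup (fun j => x j.succ) (fun j => x' j.succ) B (fun j => hx _) (fun j => hx' _)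
          _ r _ (half_pos hε) ?_
        filter_upwards [hm'] with p hp
        simpa only [Fin.sum_univ_succ, Fin.cons_zero, Fin.cons_succ, add_assoc] using hp
      refine (eV _).2 ?_
      rcases hx' 0 with e | e
      · filter_upwards [h1] with m hm
        filter_upwards [hm] with m' hm'
        filter_upwards [hm'] with p hp
        simp only [Fin.sum_univ_succ, Fin.cons_zero, Fin.cons_succ, e, ← add_assoc]
        linarith
      · have h2 := nr_avg _ _ W (x 0) (hx 0) u (half_pos hε) h1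
        refine Eventually.of_forall fun m => Eventually.of_forall fun m' => ?_
        filter_upwards [h2] with p hp
        simp only [Fin.sum_univ_succ, Fin.cons_zero, Fin.cons_succ, e, Pi.zero_apply, sub_self,
          zero_add]
        linarith

/-- The same, indexed by natural numbers. -/
theorem nr_nat (H : Type*) [NormedAddCommGroup H] [NormedSpace ℝ H] (N : ℕ) :
    ∃ (U : Ultrafilter ℕ) (V : Ultrafilter (ℕ × ℕ)) (τ : ℕ → Fin N → ℕ),
      Tendsto Prod.fst (V : Filter (ℕ × ℕ)) U ∧ Tendsto Prod.snd (V : Filter (ℕ × ℕ)) U ∧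
      (∀ᶠ p in (V : Filter (ℕ × ℕ)), ∀ j, τ p.1 j ≠ τ p.2 j) ∧
      (∀ n, ∀ᶠ k in (U : Filter ℕ), ∀ j, n ≤ τ k j) ∧
      ∀ (x : Fin N → ℕ → H) (B : ℝ), (∀ j m, ‖x j m‖ ≤ B) → ∀ (S : Finset (Fin N)) (r ε : ℝ),
        0 < ε → (∀ᶠ p in (V : Filter (ℕ × ℕ)), ‖∑ j, (x j (τ p.1 j) - x j (τ p.2 j))‖ ≤ r) →
        ∀ᶠ p in (V : Filter (ℕ × ℕ)), ‖∑ j ∈ S, (x j (τ p.1 j) - x j (τ p.2 j))‖ ≤ r + ε := by
  classical
  obtain ⟨T, V, t1, t2, hne, hge, hsup⟩ := nr_tens H N
  obtain ⟨c, hc⟩ := exists_injective_nat (Fin N → ℕ)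
  obtain ⟨τ, hτ⟩ := hc.hasLeftInverse
  refine ⟨T.map c, V.map (Prod.map c c), τ, ?_, ?_, ?_, fun n => ?_, fun x B hx S r ε hε h => ?_⟩
  · exact tendsto_map'_iff.2 (tendsto_map.comp t1)
  · exact tendsto_map'_iff.2 (tendsto_map.comp t2)
  · rw [Ultrafilter.coe_map, eventually_map]
    filter_upwards [eventually_all.2 hne] with p hp
    simpa only [Prod.map_fst, Prod.map_snd, hτ _] using hp
  · rw [Ultrafilter.coe_map, eventually_map]
    filter_upwards [eventually_all.2 fun j => hge j n] with p hp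
    simpa only [hτ _] using hp
  · rw [Ultrafilter.coe_map, eventually_map] at h ⊢
    simp only [Prod.map_fst, Prod.map_snd, hτ _] at h ⊢
    have := hsup x (fun j => if j ∈ S then x j else 0) B hx
      (fun j => by by_cases hj : j ∈ S <;> simp [hj]) 0 r ε hε (by simpa only [zero_add] using h)
    filter_upwards [this] with p hp
    have e : ∑ j, ((if j ∈ S then x j else 0) (p.1 j) - (if j ∈ S then x j else 0) (p.2 j))
        = ∑ j ∈ S, (x j (p.1 j) - x j (p.2 j)) := by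
      rw [← Finset.sum_subset (Finset.subset_univ S) fun j _ hj => by simp [hj]]
      exact Finset.sum_congr rfl fun j hj => by simp [hj]
    rwa [zero_add, e] at hp

/-- Bounded subsums bound all combinations with coefficients of size at most one. -/
theorem nr_box {N : ℕ} (v : Fin N → H) {R : ℝ} (h : ∀ S : Finset (Fin N), ‖∑ j ∈ S, v j‖ ≤ R)
    (θ : Fin N → ℝ) {κ : ℝ} (hκ : 0 ≤ κ) (hθ : ∀ j, |θ j| ≤ κ) :
    ‖∑ j, θ j • v j‖ ≤ κ * (R + R) := by
  classical
  obtain ⟨f, hf1, hf⟩ := exists_dual_vector'' ℝ (∑ j, θ j • v j)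
  have hb : ∀ S : Finset (Fin N), |∑ j ∈ S, f (v j)| ≤ R := fun S => by
    rw [← map_sum]
    refine (f.le_opNorm _).trans ?_
    exact (mul_le_of_le_one_left (norm_nonneg _) hf1).trans (h S)
  have h1 : ∑ j, |f (v j)| ≤ R + R := by
    rw [← Finset.sum_filter_add_sum_filter_not Finset.univ (fun j => 0 ≤ f (v j))]
    refine add_le_add ?_ ?_
    · refine le_trans (le_of_eq ?_) ((le_abs_self _).trans
        (hb (Finset.univ.filter fun j => 0 ≤ f (v j))))
      exact Finset.sum_congr rfl fun j hj => abs_of_nonneg (Finset.mem_filter.1 hj).2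
    · refine le_trans (le_of_eq ?_) ((neg_le_abs _).trans
        (hb (Finset.univ.filter fun j => ¬0 ≤ f (v j))))
      rw [← Finset.sum_neg_distrib]
      exact Finset.sum_congr rfl fun j hj => abs_of_neg (not_le.1 (Finset.mem_filter.1 hj).2)
  have h2 : ‖∑ j, θ j • v j‖ = ∑ j, θ j * f (v j) := by
    have : f (∑ j, θ j • v j) = ‖∑ j, θ j • v j‖ := hf
    rw [← this, map_sum]
    simp
  rw [h2]
  calc ∑ j, θ j * f (v j) ≤ ∑ j, κ * |f (v j)| := Finset.sum_le_sum fun j _ =>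
        (le_abs_self _).trans (by rw [abs_mul]; gcongr; exact hθ j)
    _ = κ * ∑ j, |f (v j)| := (Finset.mul_sum _ _ _).symm
    _ ≤ _ := by gcongr

end Pool.Agent.P.MP_5aae23_gt.Nsh
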