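import Pool.Agent.P.MP_5aae23_gt.CO
import Pool.Agent.P.MP_5aae23_gt.NR

open Set Filter Topology Function

namespace Pool.Agent.P.MP_5aae23_gt.Nsh

/-- Sequences whose differences tend to zero along a filter on pairs. -/
def nsZ (H : Type*) [NormedAddCommGroup H] [NormedSpace ℝ H] (V : Filter (ℕ × ℕ)) :
    Submodule ℝ (ℕ → H) where
  carrier := {f | Tendsto (fun p : ℕ × ℕ => f p.1 - f p.2) V (𝓝 0)}
  zero_mem' := by simpa using tendsto_const_nhds
  add_mem' := by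
    intro f g hf hg
    have := Tendsto.add hf hg
    rw [add_zero] at this
    exact this.congr fun p => by simp only [Pi.add_apply]; abel
  smul_mem' := by
    intro c f hf
    have := Tendsto.const_smul hf c
    rw [smul_zero] at this
    exact this.congr fun p => by simp only [Pi.smul_apply, smul_sub]

/-- From asymptotic bounds to one finite family of vectors. -/
theorem ns_fin {H : Type*} [NormedAddCommGroup H] [NormedSpace ℝ H] {ι : Type*} {N : ℕ}
    (V : Ultrafilter ι) (Δ : ι → Fin N → H) {c C : ℝ} (hc : 0 < c) (hC : 0 < C)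
    (hup : ∀ᶠ p in (V : Filter ι), ∀ a : Fin N → ℝ, ‖∑ j, a j • Δ p j‖ ≤ C * ‖a‖)
    (hlow : ∀ (a : Fin N → ℝ) (r : ℝ), (∀ᶠ p in (V : Filter ι), ‖∑ j, a j • Δ p j‖ ≤ r) →
      ∀ i, |a i| * c ≤ r) :
    ∃ e : Fin N → H, ∀ a : Fin N → ℝ,
      ‖a‖ ≤ ‖∑ j, a j • e j‖ ∧ ‖∑ j, a j • e j‖ ≤ 2 / c * C * ‖a‖ := by
  have key : ∀ᶠ p in (V : Filter ι), ∀ a : Fin N → ℝ, c / 2 * ‖a‖ ≤ ‖∑ j, a j • Δ p j‖ := by
    by_contra hcon
    have h1 : ∀ᶠ p in (V : Filter ι), ∃ a : Fin N → ℝ, ‖a‖ = 1 ∧ ‖∑ j, a j • Δ p j‖ < c / 2 := by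
      filter_upwards [Ultrafilter.eventually_not.2 hcon] with p hp
      push Not at hp
      obtain ⟨a, ha⟩ := hp
      have ha0 : 0 < ‖a‖ := by
        rcases (norm_nonneg a).eq_or_lt with h | h
        · rw [← h, mul_zero] at ha
          exact absurd ha (not_lt.2 (norm_nonneg _))
        · exact h
      refine ⟨‖a‖⁻¹ • a, by rw [norm_smul, norm_inv, norm_norm, inv_mul_cancel₀ ha0.ne'], ?_⟩
      have e : ∑ j, (‖a‖⁻¹ • a) j • Δ p j = ‖a‖⁻¹ • ∑ j, a j • Δ p j := by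
        simp only [Pi.smul_apply, smul_eq_mul, mul_smul, Finset.smul_sum]
      rw [e, norm_smul, norm_inv, norm_norm, inv_mul_lt_iff₀ ha0]
      linarith
    obtain ⟨g, hg⟩ := h1.choice
    obtain ⟨a, ha, hga⟩ := (isCompact_sphere (0 : Fin N → ℝ) 1).ultrafilter_le_nhds (V.map g)
      (by
        rw [Ultrafilter.coe_map, le_principal_iff, mem_map]
        filter_upwards [hg] with p hp
        simpa using hp.1)
    have ha1 : ‖a‖ = 1 := by simpa using ha
    have h2 : ∀ᶠ p in (V : Filter ι), dist (g p) a < c / 4 / C :=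
      Metric.tendsto_nhds.1 (show Tendsto g V (𝓝 a) from hga) _ (by positivity)
    have h3 := hlow a (c / 2 + c / 4) (by
      filter_upwards [hg, h2, hup] with p h4 h5 h6
      have e : ∑ j, a j • Δ p j = ∑ j, g p j • Δ p j - ∑ j, (g p - a) j • Δ p j := by
        rw [← Finset.sum_sub_distrib]
        exact Finset.sum_congr rfl fun j _ => by rw [Pi.sub_apply, sub_smul]; abel
      rw [e]
      refine norm_sub_le_of_le h4.2.le ((h6 _).trans ?_)
      rw [dist_eq_norm, lt_div_iff₀ hC] at h5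
      linarith)
    have h4 : ‖a‖ ≤ 3 / 4 := (pi_norm_le_iff_of_nonneg (by norm_num)).2 fun i => by
      rw [Real.norm_eq_abs]
      refine le_of_mul_le_mul_right ?_ hc
      linarith [h3 i]
    linarith
  obtain ⟨p, h1, h2⟩ := (key.and hup).exists
  refine ⟨fun j => (2 / c) • Δ p j, fun a => ?_⟩
  have e : ∑ j, a j • (2 / c) • Δ p j = (2 / c) • ∑ j, a j • Δ p j := by
    rw [Finset.smul_sum]
    exact Finset.sum_congr rfl fun j _ => smul_comm _ _ _
  have hc2 : 0 < 2 / c := by positivity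
  rw [e, norm_smul, Real.norm_of_nonneg hc2.le, mul_assoc]
  refine ⟨?_, mul_le_mul_of_nonneg_left (h2 a) hc2.le⟩
  calc ‖a‖ = 2 / c * (c / 2 * ‖a‖) := by field_simp
    _ ≤ _ := mul_le_mul_of_nonneg_left (h1 a) hc2.le

theorem Asc.fin {H : Type*} [NormedAddCommGroup H] [NormedSpace ℝ H] (A : Asc H) :
    ∃ C : ℝ, ∀ N : ℕ, ∃ e : Fin N → H, ∀ a : Fin N → ℝ,
      ‖a‖ ≤ ‖∑ j, a j • e j‖ ∧ ‖∑ j, a j • e j‖ ≤ C * ‖a‖ := by
  classical
  have hlo : A.lo ∈ Icc A.lo A.hi := ⟨le_rfl, fun v => (A.lohi v).le⟩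
  have hgG : A.g ≤ A.G := by
    have := A.lbd A.lo hlo (fun _ => ∅) (fun _ => A.pt) (fun w => by rw [A.Mempty]; rfl) 0
    exact this.1.trans this.2
  have hB : 0 ≤ A.B := (norm_nonneg _).trans (A.Jle 0 ∅ A.pt (by rw [A.Mempty]; rfl))
  have hg := A.gpos
  have hG : 0 < A.G := hg.trans_le hgG
  have hδ := A.dpos
  set d := A.δ * A.g / (4 * A.G) with hd
  set q := A.g / A.G with hq
  have q0 : 0 < q := div_pos hg hG
  have q1 : q ≤ 1 := (div_le_one hG).2 hgG
  have d0 : 0 < d := by positivity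
  have d1 : d ≤ A.δ := by
    rw [hd, div_le_iff₀ (by positivity)]
    nlinarith
  have s0 : 0 < d * q := mul_pos d0 q0
  have s1 : d * q ≤ d := mul_le_of_le_one_right d0.le q1
  have pick : ∀ (v : Fin 3) (S : Finset ℕ) (r : ℝ), 0 < r → r ≤ d → ∃ a ∈ A.M v S,
      (∀ n ∈ S, A.y n v a = r) ∧ ∀ n, |A.y n v a| ≤ d := by
    intro v S r h1 h2
    obtain ⟨a, ha, h⟩ := A.ysur v S r (by rw [abs_of_pos h1]; exact h2.trans d1)
    refine ⟨a, ha, h, fun n => ?_⟩
    by_cases hn : n ∈ S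
    · rw [h n hn, abs_of_pos h1]; exact h2
    · rw [A.yzero v S a ha n hn, abs_zero]; exact d0.le
  obtain ⟨c0, hc0, n0, f0⟩ := A.f3 0 d0
  obtain ⟨c1, hc1, n1, f1⟩ := A.f3 1 (mul_pos s0 q0)
  obtain ⟨c2, hc2, n2, f2⟩ := A.f3 2 s0
  have l1 := A.sne _ hlo 1
  have l2 := A.sne _ hlo 2
  set B := A.B + A.B + 1 with hBdef
  have B0 : 0 < B := by positivity
  set c := |A.lo 1| * (c1 / B) / |A.lo 2| with hcdef
  have cp : 0 < c := by positivity
  choose x hx hx1 hx2 using fun n => pick 0 {n} d d0 le_rfl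
  refine ⟨2 / c0 * ((B + 1 + (B + 1)) / c), fun N => ?_⟩
  rcases Nat.eq_zero_or_pos N with rfl | hN0
  · refine ⟨fun j => j.elim0, fun a => ?_⟩
    have : ‖a‖ = 0 := by rw [Subsingleton.elim a 0, norm_zero]
    rw [this, mul_zero, Finset.univ_eq_empty, Finset.sum_empty, norm_zero]
    exact ⟨le_rfl, le_rfl⟩
  obtain ⟨U, V, τ, t1, t2, hne, hge, hsup⟩ := nr_nat H N
  let Q := (nsZ H V).mkQ
  have hQ : ∀ f : ℕ → H, Q f = 0 ↔ Tendsto (fun p : ℕ × ℕ => f p.1 - f p.2) V (𝓝 0) :=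
    fun f => Submodule.Quotient.mk_eq_zero _
  have hk : ∀ (f : ℕ → H) (z : H), Tendsto f U (𝓝 z) → Q f = 0 := fun f z h => by
    have := (h.comp t1).sub (h.comp t2)
    rw [sub_self] at this
    exact (hQ f).2 this
  have hsm : ∀ f : ℕ → H, Q f = 0 → ∀ ε > 0,
      ∀ᶠ p in (V : Filter (ℕ × ℕ)), ‖f p.1 - f p.2‖ < ε := fun f h ε hε => by
    simpa only [dist_zero_right] using Metric.tendsto_nhds.1 ((hQ f).1 h) ε hε
  have ne0 : ∀ (f : ℕ → H) {γ : ℝ}, 0 < γ →
      (∀ᶠ p in (V : Filter (ℕ × ℕ)), γ ≤ ‖f p.1 - f p.2‖) → Q f ≠ 0 := fun f γ h1 h2 h3 => by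
    obtain ⟨p, h4, h5⟩ := (h2.and (hsm f h3 γ h1)).exists
    exact absurd h5 (not_lt.2 h4)
  let st : ℕ → Fin N → ℕ := fun k j => τ k j * N + j
  have inj : ∀ {k l : ℕ} {i j : Fin N}, k * N + i = l * N + j → k = l ∧ i = j := by
    intro k l i j h
    have h1 : (k * N + i) % N = (l * N + j) % N := by rw [h]
    rw [Nat.mul_add_mod', Nat.mul_add_mod', Nat.mod_eq_of_lt i.2, Nat.mod_eq_of_lt j.2] at h1
    rw [h1] at h
    exact ⟨Nat.eq_of_mul_eq_mul_right hN0 (Nat.add_right_cancel h), Fin.ext h1⟩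
  have ge : ∀ (k : ℕ) (j : Fin N), k ≤ k * N + j := fun k j =>
    (Nat.le_mul_of_pos_right k hN0).trans (Nat.le_add_right _ _)
  have low : ∀ {v : Fin 3} {σ γ : ℝ} {n' : ℕ}, (∀ S S' : Finset ℕ,
      S'.Nonempty → Disjoint S S' → (∀ n ∈ S', n' ≤ n) → ∀ a ∈ A.M v S, ∀ a' ∈ A.M v S',
      (∀ n, |A.y n v a| ≤ d) → (∀ n ∈ S', σ ≤ |A.y n v a'|) → γ ≤ ‖A.J v a - A.J v a'‖) →
      ∀ (S : ℕ → Finset ℕ) (a : ℕ → Cf), (∀ k, (S k).Nonempty) →
      (∀ k, ∀ n ∈ S k, ∃ j, st k j = n) → (∀ k, a k ∈ A.M v (S k)) →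
      (∀ k n, |A.y n v (a k)| ≤ d) → (∀ k, ∀ n ∈ S k, σ ≤ |A.y n v (a k)|) →
      ∀ᶠ p in (V : Filter (ℕ × ℕ)), γ ≤ ‖A.J v (a p.1) - A.J v (a p.2)‖ := by
    intro v σ γ n' h S a h1 h2 h4 h5 h6
    filter_upwards [hne, t2.eventually (hge n')] with p e1 e2
    refine h _ _ (h1 _) (Finset.disjoint_left.2 fun n g1 g2 => ?_) (fun n hn => ?_) _ (h4 _) _
      (h4 _) (h5 _) (h6 _)
    · obtain ⟨i, rfl⟩ := h2 _ n g1
      obtain ⟨j, hj⟩ := h2 _ _ g2
      obtain ⟨e3, rfl⟩ := inj hj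
      exact e1 _ e3.symm
    · obtain ⟨j, rfl⟩ := h2 _ n hn
      exact (e2 j).trans (ge _ _)
  have im : ∀ (S : Finset (Fin N)) k, ∀ n ∈ S.image (st k), ∃ j, st k j = n := fun S k n h => by
    obtain ⟨j, -, e⟩ := Finset.mem_image.1 h
    exact ⟨j, e⟩
  have im1 : ∀ (i : Fin N) k, ∀ n ∈ ({st k i} : Finset ℕ), ∃ j, st k j = n :=
    fun i k n h => ⟨i, (Finset.mem_singleton.1 h).symm⟩
  have onl : ∀ {v v' : Fin 3}, v ≠ v' → ∀ (S : ℕ → Finset ℕ) (a b : ℕ → Cf),
      (∀ k, (S k).Nonempty) → (∀ k, a k ∈ A.M v (S k)) → (∀ k, b k ∈ A.M v' (S k)) →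
      (∀ k n, |A.y n v (a k)| ≤ d) → (∀ k n, |A.y n v' (b k)| ≤ d) →
      (Q fun k => A.J v' (b k)) ≠ 0 →
      ∃ t : ℝ, (Q fun k => A.J v (a k)) = t • Q fun k => A.J v' (b k) := by
    intro v v' hv S a b h1 h2 h3 h4 h5 h6
    obtain ⟨α, β, z, h7, h8⟩ := A.line U hv S h1 a b h2 h3 h4 h5
    have h10 : α • (Q fun k => A.J v (a k)) + β • (Q fun k => A.J v' (b k)) = 0 := by
      rw [← map_smul, ← map_smul, ← map_add]
      exact hk _ z h8
    have hα : α ≠ 0 := by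
      rintro rfl
      rw [zero_smul, zero_add, smul_eq_zero] at h10
      tauto
    refine ⟨-(β / α), smul_right_injective _ hα ?_⟩
    simp only [smul_smul]
    rw [eq_neg_of_add_eq_zero_left h10, ← neg_smul]
    congr 1
    field_simp
  let E : Fin N → ℕ → H := fun j k => A.J 0 (x (st k j))
  let Δ : ℕ × ℕ → Fin N → H := fun p j => E j p.1 - E j p.2
  have lowE : ∀ j, ∀ᶠ p in (V : Filter (ℕ × ℕ)), c0 ≤ ‖Δ p j‖ := fun j =>
    low f0 (fun k => {st k j}) (fun k => x (st k j)) (fun _ => Finset.singleton_nonempty _)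
      (im1 j) (fun k => hx _) (fun k => hx2 _)
      fun k n hn => by rw [hx1 _ n hn]; exact le_abs_self d
  have upE : ∀ p j, ‖Δ p j‖ ≤ A.B + A.B := fun p j =>
    norm_sub_le_of_le (A.Jle _ _ _ (hx _)) (A.Jle _ _ _ (hx _))
  have e0 : ∀ j, Q (E j) ≠ 0 := fun j => ne0 _ hc0 (lowE j)
  have sup : ∀ (a : Fin N → ℝ) (S : Finset (Fin N)) (r ε : ℝ), 0 < ε →
      (∀ᶠ p in (V : Filter (ℕ × ℕ)), ‖∑ j, a j • Δ p j‖ ≤ r) →
      ∀ᶠ p in (V : Filter (ℕ × ℕ)), ‖∑ j ∈ S, a j • Δ p j‖ ≤ r + ε := by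
    intro a S r ε hε h
    have := hsup (fun j m => a j • A.J 0 (x (m * N + j))) (‖a‖ * A.B)
      (fun j m => by
        rw [norm_smul]
        exact mul_le_mul (norm_le_pi_norm a j) (A.Jle _ _ _ (hx _)) (norm_nonneg _)
          (norm_nonneg _)) S r ε hε (by simpa only [← smul_sub] using h)
    simpa only [← smul_sub] using this
  have lowA : ∀ (a : Fin N → ℝ) (r : ℝ),
      (∀ᶠ p in (V : Filter (ℕ × ℕ)), ‖∑ j, a j • Δ p j‖ ≤ r) → ∀ i, |a i| * c0 ≤ r := by
    intro a r h i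
    refine le_of_forall_pos_le_add fun ε hε => ?_
    obtain ⟨p, h1, h2⟩ := ((sup a {i} r ε hε h).and (lowE i)).exists
    rw [Finset.sum_singleton, norm_smul, Real.norm_eq_abs] at h1
    exact (mul_le_mul_of_nonneg_left h2 (abs_nonneg _)).trans h1
  have sumE : ∀ (a : Fin N → ℝ) (p : ℕ × ℕ),
      (∑ j, a j • E j) p.1 - (∑ j, a j • E j) p.2 = ∑ j, a j • Δ p j := fun a p => by
    simp only [Finset.sum_apply, Pi.smul_apply, ← Finset.sum_sub_distrib, ← smul_sub, Δ]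
  have sumQ : ∀ a : Fin N → ℝ, Q (∑ j, a j • E j) = ∑ j, a j • Q (E j) := fun a => by
    simp only [map_sum, map_smul]
  have lin : ∀ a : Fin N → ℝ, ∑ j, a j • Q (E j) = 0 → ∀ i, a i = 0 := by
    intro a h i
    have h1 : |a i| * c0 ≤ 0 := le_of_forall_pos_le_add fun ε hε => by
      rw [zero_add]
      refine lowA a ε ?_ i
      filter_upwards [hsm _ ((sumQ a).trans h) ε hε] with p hp
      rw [← sumE]
      exact hp.le
    exact abs_nonpos_iff.1 (nonpos_of_mul_nonpos_left h1 hc0)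
  -- one splitting step
  have step : ∀ (S : Finset (Fin N)) (i : Fin N), i ∉ S →
      (∀ a : ℕ → Cf, (∀ k, a k ∈ A.M 0 (S.image (st k))) → (∀ k n, |A.y n 0 (a k)| ≤ d) →
        ∃ α : Fin N → ℝ, (∀ j ∉ S, α j = 0) ∧
          (Q fun k => A.J 0 (a k)) = ∑ j, α j • Q (E j)) →
      ∀ r : ℕ → Cf, (∀ k, r k ∈ A.M 2 ((insert i S).image (st k))) →
      (∀ k, ∀ n ∈ (insert i S).image (st k), A.y n 2 (r k) = d * q) →
      ∃ γ : Fin N → ℝ, (∀ j ∉ insert i S, γ j = 0) ∧ c ≤ |γ i| ∧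
        (Q fun k => A.J 2 (r k)) = ∑ j, γ j • Q (E j) := by
    intro S i hi ih r hr hr1
    have hn : ∀ k, st k i ∉ S.image (st k) := fun k h => by
      obtain ⟨j, hj, h⟩ := Finset.mem_image.1 h
      exact hi ((inj h).2 ▸ hj)
    choose a ha b hb h1 h2 h3 h4 using fun k => A.split hlo (S.image (st k)) (hn k) (r := r k)
      (by rw [← Finset.image_insert]; exact hr k)
      (hr1 k _ (Finset.mem_image_of_mem _ (Finset.mem_insert_self i S)))
    have hm : ∀ k w, ![a k, b k, r k] w ∈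
        A.M w (![S.image (st k), {st k i}, (insert i S).image (st k)] w) := fun k w => by
      fin_cases w
      exacts [ha k, hb k, hr k]
    obtain ⟨z, -, hz⟩ := A.cl U (fun _ => A.lo) _ (fun k => ![a k, b k, r k])
      (fun _ => hlo) hm h1
    have h6 : A.lo 0 • (Q fun k => A.J 0 (a k)) + A.lo 1 • (Q fun k => A.J 1 (b k)) +
        A.lo 2 • (Q fun k => A.J 2 (r k)) = 0 := by
      rw [← map_smul, ← map_smul, ← map_smul, ← map_add, ← map_add]
      refine hk _ z (hz.congr fun k => ?_)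
      rw [Fin.sum_univ_three]
      rfl
    obtain ⟨t, ht⟩ := onl (v := 1) (v' := 0) one_ne_zero (fun k => {st k i}) b
      (fun k => x (st k i)) (fun _ => Finset.singleton_nonempty _) hb (fun k => hx _) h3
      (fun k => hx2 _) (e0 i)
    have h7 := low f1 (fun k => {st k i}) b (fun _ => Finset.singleton_nonempty _) (im1 i)
      hb h3 fun k n hn => by rw [Finset.mem_singleton.1 hn]; exact h4 k
    have ht' : (Q fun k => A.J 1 (b k)) = t • Q (E i) := ht
    have h8 : c1 ≤ |t| * B := le_of_forall_pos_le_add fun ε hε => by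
      obtain ⟨p, g1, g2⟩ := (h7.and (hsm ((fun k => A.J 1 (b k)) - t • E i)
        (by rw [map_sub, map_smul, ht', sub_self]) ε hε)).exists
      have g3 : A.J 1 (b p.1) - A.J 1 (b p.2) = t • Δ p i +
          (((fun k => A.J 1 (b k)) - t • E i) p.1 - ((fun k => A.J 1 (b k)) - t • E i) p.2) := by
        simp only [Pi.sub_apply, Pi.smul_apply, Δ, smul_sub]
        abel
      rw [g3] at g1
      refine g1.trans (norm_add_le_of_le ?_ g2.le)
      rw [norm_smul, Real.norm_eq_abs]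
      exact mul_le_mul_of_nonneg_left ((upE p i).trans (by linarith)) (abs_nonneg _)
    obtain ⟨α, hα, hα'⟩ := ih a ha h2
    refine ⟨fun j => -(A.lo 0 * α j + A.lo 1 * if j = i then t else 0) / A.lo 2, fun j hj => ?_,
      ?_, smul_right_injective _ l2 ?_⟩
    · rw [Finset.mem_insert, not_or] at hj
      simp [hα j hj.2, hj.1]
    · simp only [hα i hi, if_true, mul_zero, zero_add, abs_div, abs_neg, abs_mul]
      rw [hcdef]
      gcongr
      exact (div_le_iff₀ B0).2 h8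
    · simp only
      rw [eq_neg_of_add_eq_zero_right h6, hα', ht', Finset.smul_sum, Finset.smul_sum]
      have : A.lo 1 • t • Q (E i) = ∑ j, (A.lo 1 * if j = i then t else 0) • Q (E j) := by
        simp [mul_smul]
      rw [this, ← Finset.sum_add_distrib, ← Finset.sum_neg_distrib]
      refine Finset.sum_congr rfl fun j _ => ?_
      rw [smul_smul, smul_smul, ← add_smul, ← neg_smul]
      congr 1
      field_simp
  have ind : ∀ S : Finset (Fin N), ∀ a : ℕ → Cf, (∀ k, a k ∈ A.M 0 (S.image (st k))) →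
      (∀ k n, |A.y n 0 (a k)| ≤ d) → ∃ α : Fin N → ℝ, (∀ j ∉ S, α j = 0) ∧
        (Q fun k => A.J 0 (a k)) = ∑ j, α j • Q (E j) := by
    intro S
    induction S using Finset.induction_on with
    | empty =>
      intro a ha _
      have h1 : ∀ k, a k = A.pt := fun k => by
        have := ha k
        rwa [Finset.image_empty, A.Mempty] at this
      refine ⟨0, fun _ _ => rfl, ?_⟩
      simp only [h1, Pi.zero_apply, zero_smul, Finset.sum_const_zero]
      exact hk _ _ tendsto_const_nhds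
    | insert i S hi ih =>
      intro a ha ha'
      choose r hr hr1 hr2 using fun k => pick 2 ((insert i S).image (st k)) (d * q) s0 s1
      obtain ⟨γ, g1, -, g2⟩ := step S i hi ih r hr hr1
      have hS : ∀ k, ((insert i S).image (st k)).Nonempty := fun k =>
        (Finset.insert_nonempty i S).image _
      obtain ⟨t', ht'⟩ := onl (v := 0) (v' := 2) (by decide) _ a r hS ha hr ha' hr2
        (ne0 _ hc2 (low f2 _ r hS (im _) hr hr2 fun k n hn => by
          rw [hr1 k n hn]; exact le_abs_self _))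
      refine ⟨fun j => t' * γ j, fun j hj => by simp [g1 j hj], ?_⟩
      rw [ht', g2, Finset.smul_sum]
      simp only [mul_smul]
  choose r hr hr1 hr2 using fun k => pick 2 (Finset.univ.image (st k)) (d * q) s0 s1
  have all : ∀ i, ∃ γ : Fin N → ℝ, c ≤ |γ i| ∧ (Q fun k => A.J 2 (r k)) = ∑ j, γ j • Q (E j) := by
    intro i
    have hu := Finset.insert_erase (Finset.mem_univ i)
    obtain ⟨γ, -, g⟩ := step _ i (Finset.notMem_erase i Finset.univ) (ind _) r
      (by rw [hu]; exact hr) (by rw [hu]; exact hr1)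
    exact ⟨γ, g⟩
  obtain ⟨γ, -, hγ⟩ := all ⟨0, hN0⟩
  have hγc : ∀ i, c ≤ |γ i| := fun i => by
    obtain ⟨γ', g1, g2⟩ := all i
    have := lin (γ' - γ) (by
      simp only [Pi.sub_apply, sub_smul, Finset.sum_sub_distrib]
      rw [← g2, ← hγ, sub_self]) i
    rwa [← sub_eq_zero.1 this]
  have h1 : ∀ᶠ p in (V : Filter (ℕ × ℕ)), ‖∑ j, γ j • Δ p j‖ ≤ B := by
    filter_upwards [hsm ((fun k => A.J 2 (r k)) - ∑ j, γ j • E j)
      (by rw [map_sub, sumQ, hγ, sub_self]) 1 one_pos] with p hp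
    have g3 : ∑ j, γ j • Δ p j = A.J 2 (r p.1) - A.J 2 (r p.2) -
        (((fun k => A.J 2 (r k)) - ∑ j, γ j • E j) p.1 -
          ((fun k => A.J 2 (r k)) - ∑ j, γ j • E j) p.2) := by
      rw [← sumE]
      simp only [Pi.sub_apply]
      abel
    rw [g3]
    exact norm_sub_le_of_le (norm_sub_le_of_le (A.Jle _ _ _ (hr _)) (A.Jle _ _ _ (hr _))) hp.le
  refine ns_fin V Δ hc0 (by positivity) ?_ lowA
  filter_upwards [eventually_all.2 fun S => sup γ S B 1 one_pos h1] with p hp a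
  have hγ0 : ∀ j, γ j ≠ 0 := fun j => abs_pos.1 (cp.trans_le (hγc j))
  have := nr_box (fun j => γ j • Δ p j) hp (fun j => a j / γ j) (κ := ‖a‖ / c) (by positivity)
    fun j => by
      rw [abs_div]
      exact div_le_div₀ (norm_nonneg _) (norm_le_pi_norm a j) cp (hγc j)
  simp only [smul_smul, div_mul_cancel₀ _ (hγ0 _)] at this
  refine this.trans (le_of_eq ?_)
  ring

end Pool.Agent.P.MP_5aae23_gt.Nsh
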