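import Mathlib

open Set Filter Topology Function

namespace Pool.Agent.P.MP_5aae23_gt.Nsh

variable {H : Type*} [NormedAddCommGroup H] [NormedSpace ℝ H]

/-- Every family of long vectors indexed by `ι` has a combination of norm at least `l`. -/
def Gain (H : Type*) [NormedAddCommGroup H] [NormedSpace ℝ H] (ι : Type) [Fintype ι] (l : ℝ) :
    Prop :=
  ∀ u : ι → H, (∀ i, 1 ≤ ‖u i‖) → ∃ b : ι → ℝ, (∀ i, |b i| ≤ 1) ∧ l ≤ ‖∑ i, b i • u i‖

theorem Gain.mul {ι κ : Type} [Fintype ι] [Fintype κ] {l m : ℝ} (hl : Gain H ι l)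
    (hm : Gain H κ m) (m0 : 0 < m) : Gain H (ι × κ) (l * m) := by
  intro u hu
  choose b hb hb' using fun i => hm (fun k => u (i, k)) fun k => hu _
  obtain ⟨c, hc, hc'⟩ := hl (fun i => m⁻¹ • ∑ k, b i k • u (i, k)) fun i => by
    rw [norm_smul, norm_inv, Real.norm_of_nonneg m0.le, le_inv_mul_iff₀ m0, mul_one]
    exact hb' i
  refine ⟨fun p => c p.1 * b p.1 p.2, fun p => ?_, ?_⟩
  · rw [abs_mul]
    exact mul_le_one₀ (hc _) (abs_nonneg _) (hb _ _)
  · have e : ∑ i, c i • m⁻¹ • ∑ k, b i k • u (i, k)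
        = m⁻¹ • ∑ p : ι × κ, (c p.1 * b p.1 p.2) • u p := by
      rw [Fintype.sum_prod_type, Finset.smul_sum]
      refine Finset.sum_congr rfl fun i _ => ?_
      rw [smul_comm]
      simp only [mul_smul, Finset.smul_sum]
    rw [e, norm_smul, norm_inv, Real.norm_of_nonneg m0.le, le_inv_mul_iff₀ m0, mul_comm] at hc'
    exact hc'

theorem Gain.equiv {ι κ : Type} [Fintype ι] [Fintype κ] {l : ℝ} (hl : Gain H ι l) (e : ι ≃ κ) :
    Gain H κ l := by
  intro u hu
  obtain ⟨b, hb, hb'⟩ := hl (fun i => u (e i)) fun i => hu _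
  refine ⟨fun k => b (e.symm k), fun k => hb _, ?_⟩
  rw [← e.sum_comp]
  simpa only [Equiv.symm_apply_apply] using hb'

theorem Gain.pow {N : ℕ} {l : ℝ} (hl : Gain H (Fin N) l) (l0 : 0 < l) (k : ℕ) :
    ∃ M : ℕ, Gain H (Fin M) (l ^ (k + 1)) := by
  induction k with
  | zero => exact ⟨N, by simpa using hl⟩
  | succ k ih =>
    obtain ⟨M, hM⟩ := ih
    exact ⟨M * N, by rw [pow_succ]; exact (hM.mul hl l0).equiv finProdFinEquiv⟩

/-- The blocking argument of James: uniform copies of `ℓ_∞^N` give almost isometric copies. -/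
theorem almost_iso {C : ℝ} (h : ∀ N : ℕ, ∃ e : Fin N → H, ∀ a : Fin N → ℝ,
      ‖a‖ ≤ ‖∑ j, a j • e j‖ ∧ ‖∑ j, a j • e j‖ ≤ C * ‖a‖) {ε : ℝ} (hε : 0 < ε) (N : ℕ) :
    ∃ e : Fin N → H, ∀ a : Fin N → ℝ,
      ‖a‖ ≤ ‖∑ j, a j • e j‖ ∧ ‖∑ j, a j • e j‖ ≤ (1 + ε) * ‖a‖ := by
  classical
  set η := ε / (2 + ε) with hη
  have η0 : 0 < η := by positivity
  have η1 : η < 1 := by rw [hη, div_lt_one (by positivity)]; linarith
  have ng : ¬Gain H (Fin N) (1 + η) := fun hg => by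
    obtain ⟨k, hk⟩ := pow_unbounded_of_one_lt |C| (by linarith : 1 < 1 + η)
    obtain ⟨M, hM⟩ := hg.pow (by positivity) k
    obtain ⟨e, he⟩ := h M
    obtain ⟨b, hb, hb'⟩ := hM e fun i => by
      have := (he (Pi.single i 1)).1
      rw [Pi.norm_single, norm_one] at this
      simpa [Pi.single_apply] using this
    have h1 : ‖b‖ ≤ 1 := (pi_norm_le_iff_of_nonneg zero_le_one).2 hb
    have h2 : C * ‖b‖ ≤ |C| :=
      (mul_le_mul_of_nonneg_right (le_abs_self C) (norm_nonneg _)).trans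
        (mul_le_of_le_one_right (abs_nonneg _) h1)
    have h3 : (1 + η) ^ k ≤ (1 + η) ^ (k + 1) := pow_le_pow_right₀ (by linarith) k.le_succ
    linarith [(he b).2]
  simp only [Gain, not_forall, not_exists, not_and, not_le] at ng
  obtain ⟨u, hu, hu'⟩ := ng
  have up : ∀ a : Fin N → ℝ, ‖∑ j, a j • u j‖ ≤ (1 + η) * ‖a‖ := fun a => by
    rcases (norm_nonneg a).eq_or_lt with h0 | h0
    · rw [norm_eq_zero.1 h0.symm]
      simp
    · have := hu' (‖a‖⁻¹ • a) fun i => by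
        rw [Pi.smul_apply, smul_eq_mul, abs_mul, abs_inv, abs_norm, inv_mul_le_iff₀ h0, mul_one]
        exact norm_le_pi_norm a i
      have e : ∑ j, (‖a‖⁻¹ • a) j • u j = ‖a‖⁻¹ • ∑ j, a j • u j := by
        simp only [Pi.smul_apply, smul_eq_mul, mul_smul, Finset.smul_sum]
      rw [e, norm_smul, norm_inv, norm_norm, inv_mul_lt_iff₀ h0] at this
      linarith
  have low : ∀ a : Fin N → ℝ, (1 - η) * ‖a‖ ≤ ‖∑ j, a j • u j‖ := fun a => by
    have h2 : ‖a‖ ≤ (‖∑ j, a j • u j‖ + (1 + η) * ‖a‖) / 2 :=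
      (pi_norm_le_iff_of_nonneg (by positivity)).2 fun i => by
        let a' : Fin N → ℝ := fun j => if j = i then a j else -a j
        have n' : ‖a'‖ ≤ ‖a‖ := (pi_norm_le_iff_of_nonneg (norm_nonneg _)).2 fun j => by
          by_cases hj : j = i
          · simpa [a', hj] using norm_le_pi_norm a i
          · simpa [a', hj] using norm_le_pi_norm a j
        have e : ∑ j, a j • u j + ∑ j, a' j • u j = (2 * a i) • u i := by
          rw [← Finset.sum_add_distrib, Finset.sum_eq_single i]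
          · simp [a', two_mul, add_smul]
          · intro j _ hj
            simp [a', hj]
          · simp
        have h3 := norm_add_le (∑ j, a j • u j) (∑ j, a' j • u j)
        rw [e, norm_smul, norm_mul, Real.norm_two] at h3
        have h4 := (up a').trans (mul_le_mul_of_nonneg_left n' (by positivity))
        have h5 : ‖a i‖ ≤ ‖a i‖ * ‖u i‖ := le_mul_of_one_le_right (norm_nonneg _) (hu i)
        linarith
    linarith
  have p0 : 0 < 1 - η := by linarith
  refine ⟨fun j => (1 - η)⁻¹ • u j, fun a => ?_⟩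
  have e : ∑ j, a j • (1 - η)⁻¹ • u j = (1 - η)⁻¹ • ∑ j, a j • u j := by
    rw [Finset.smul_sum]
    exact Finset.sum_congr rfl fun j _ => smul_comm _ _ _
  rw [e, norm_smul, norm_inv, Real.norm_of_nonneg p0.le, le_inv_mul_iff₀ p0, inv_mul_le_iff₀ p0]
  refine ⟨low a, (up a).trans (le_of_eq ?_)⟩
  rw [← mul_assoc]
  congr 1
  rw [hη]
  field_simp
  ring

/-- An inner product space has no almost isometric copy of `ℓ_∞^2`. -/
theorem not_inner {F : Type*} [NormedAddCommGroup F] [InnerProductSpace ℝ F] (e : Fin 2 → F) :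
    ¬∀ a : Fin 2 → ℝ, ‖a‖ ≤ ‖∑ j, a j • e j‖ ∧ ‖∑ j, a j • e j‖ ≤ (1 + 1 / 4) * ‖a‖ := by
  intro h
  have n1 : ∀ a : Fin 2 → ℝ, |a 0| ≤ 1 → |a 1| ≤ 1 → ‖a‖ ≤ 1 := fun a h0 h1 =>
    (pi_norm_le_iff_of_nonneg zero_le_one).2 fun i => by fin_cases i <;> simpa
  have h0 : 1 ≤ ‖e 0‖ := by
    have := (norm_le_pi_norm ![(1 : ℝ), 0] 0).trans (h ![1, 0]).1
    simpa [Fin.sum_univ_two] using this
  have h1 : 1 ≤ ‖e 1‖ := by
    have := (norm_le_pi_norm ![(0 : ℝ), 1] 1).trans (h ![0, 1]).1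
    simpa [Fin.sum_univ_two] using this
  have h2 : ‖e 0 + e 1‖ ≤ 5 / 4 := by
    have := (h ![1, 1]).2
    have g := n1 ![1, 1] (by simp) (by simp)
    simp only [Fin.sum_univ_two, Matrix.cons_val_zero, Matrix.cons_val_one, one_smul] at this
    linarith
  have h3 : ‖e 0 - e 1‖ ≤ 5 / 4 := by
    have := (h ![1, -1]).2
    have g := n1 ![1, -1] (by simp) (by simp)
    simp only [Fin.sum_univ_two, Matrix.cons_val_zero, Matrix.cons_val_one, one_smul, neg_smul,
      ← sub_eq_add_neg] at this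
    linarith
  have := parallelogram_law_with_norm ℝ (e 0) (e 1)
  nlinarith [norm_nonneg (e 0 + e 1), norm_nonneg (e 0 - e 1)]

end Pool.Agent.P.MP_5aae23_gt.Nsh
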