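import Pool.Agent.P.MP_5aae23_gt.CL
import Pool.Agent.P.MP_5aae23_gt.CS
import Pool.Agent.P.MP_5aae23_gt.NT

open Set Filter Topology Function

namespace Pool.Agent.P.MP_5aae23_gt.Nsh

theorem main_convex : ∃ X : Submodule ℝ (ZeroAtInftyContinuousMap ℕ ℝ),
    (∃ Y : ℕ → Set (ZeroAtInftyContinuousMap ℕ ℝ), (∀ k, IsClosed (Y k)) ∧ ⋃ k, Y k = X) ∧
    ∀ (F : Type*) [NormedAddCommGroup F] [NormedSpace ℝ F] (C : Set F), Convex ℝ C →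
      Nonempty (X ≃ₜ C) → ∀ ε : ℝ, 0 < ε → ∀ N : ℕ, ∃ e : Fin N → F, ∀ a : Fin N → ℝ,
        ‖a‖ ≤ ‖∑ j, a j • e j‖ ∧ ‖∑ j, a j • e j‖ ≤ (1 + ε) * ‖a‖ := by
  obtain ⟨d, hd⟩ := exists_dfam
  refine ⟨XX d, xx_fsigma hd, fun F _ _ C hC ⟨h⟩ ε hε N => ?_⟩
  obtain ⟨E⟩ := emb_of hC h
  obtain ⟨A⟩ := asc_of hd E
  obtain ⟨K, hK⟩ := A.fin
  exact almost_iso hK hε N

end Pool.Agent.P.MP_5aae23_gt.Nsh
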