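import Mathlib

/-! A homeomorphism onto an inner product space that differs from a linear map in finitely many
blocks. -/

set_option autoImplicit false

open Filter Topology

universe u

namespace Pool.Agent.HB

section tail

variable {F : ℕ → Type u} [∀ k, NormedAddCommGroup (F k)] [∀ k, InnerProductSpace ℝ (F k)]

/-- The tail of the squared norm. -/
noncomputable def tl (M : ℕ) (f : lp F 2) : ℝ := ‖f‖ ^ 2 - ∑ k ∈ Finset.range M, ‖f k‖ ^ 2

theorem hasSum_sq (f : lp F 2) : HasSum (fun k => ‖f k‖ ^ 2) (‖f‖ ^ 2) := by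
  simpa only [real_inner_self_eq_norm_sq] using lp.hasSum_inner (𝕜 := ℝ) f f

theorem tl_succ (M : ℕ) (f : lp F 2) : tl M f = ‖f M‖ ^ 2 + tl (M + 1) f := by
  rw [tl, tl, Finset.sum_range_succ]
  ring

theorem tl_lim (f : lp F 2) : Tendsto (fun M => tl M f) atTop (𝓝 0) := by
  have h := (hasSum_sq f).tendsto_sum_nat.const_sub (‖f‖ ^ 2)
  rwa [sub_self] at h

theorem cont_ap (k : ℕ) : Continuous fun f : lp F 2 => f k :=
  (continuous_apply k).comp lp.uniformContinuous_coe.continuous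

theorem tl_cont (M : ℕ) : Continuous (tl (F := F) M) :=
  (continuous_norm.pow 2).sub (continuous_finsetSum _ fun k _ => (cont_ap k).norm.pow 2)

theorem le_of_step {a : ℕ → ℝ} (h : ∀ M, a M ≤ a (M + 1)) (h0 : Tendsto a atTop (𝓝 0)) (M : ℕ) :
    a M ≤ 0 := (monotone_nat_of_le_succ h).ge_of_tendsto h0 M

theorem tl_sub (M : ℕ) (f g : lp F 2) : tl M (f - g) ≤ 2 * tl M f + 2 * tl M g := by
  refine sub_nonpos.1 (le_of_step (a := fun M => tl M (f - g) - (2 * tl M f + 2 * tl M g))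
    (fun M => ?_) ?_ M)
  · have h := norm_sub_le (f M) (g M)
    have h1 : ‖(f - g) M‖ ^ 2 ≤ (‖f M‖ + ‖g M‖) ^ 2 := pow_le_pow_left₀ (norm_nonneg _) h 2
    simp only [tl_succ M]
    nlinarith [sq_nonneg (‖f M‖ - ‖g M‖)]
  · simpa using (tl_lim (f - g)).sub (((tl_lim f).const_mul 2).add ((tl_lim g).const_mul 2))

end tail

/-- The data of the construction. -/
structure Dat (X : Type u) [NormedAddCommGroup X] [NormedSpace ℝ X] (F : ℕ → Type u)
    [∀ k, NormedAddCommGroup (F k)] [∀ k, InnerProductSpace ℝ (F k)] where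
  R : ℕ → X →L[ℝ] X
  ν : Seminorm ℝ X
  J : ∀ k, X →L[ℝ] F k
  c : ℕ → ℝ
  R0 : ∀ x, R 0 x = x
  RR : ∀ j k x, R j (R k x) = R (max j k) x
  le : ∀ x, ‖x‖ ≤ ν x
  cont : Continuous ν
  νR : ∀ k x, ν (R k x) ≤ ν x
  Jle : ∀ k x, ‖J k x‖ ≤ (1 / 2) ^ k * ‖x‖
  J1 : ∀ k x, J k (R k x) = J k x
  J2 : ∀ k x, J k (R (k + 1) x) = 0
  leJ : ∀ k x, ‖R k x - R (k + 1) x‖ ≤ c k * ‖J k x‖
  rate : ∀ x, ∀ᶠ k in atTop, ν (R k x) ≤ (1 / 2) ^ k / 8

namespace Dat

variable {X : Type u} [NormedAddCommGroup X] [NormedSpace ℝ X] {F : ℕ → Type u}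
  [∀ k, NormedAddCommGroup (F k)] [∀ k, InnerProductSpace ℝ (F k)] (D : Dat X F)

/-- The block component. -/
def Q (k : ℕ) : X →L[ℝ] X := D.R k - D.R (k + 1)

/-- The size of the tail. -/
def d (k : ℕ) (x : X) : ℝ := D.ν (D.R k x)

/-- The increment. -/
noncomputable def ρ (k : ℕ) (x : X) : ℝ := √(D.d k x ^ 2 - D.d (k + 1) x ^ 2)

/-- The increment above the threshold. -/
noncomputable def s (k : ℕ) (x : X) : ℝ := max (D.ρ k x - (1 / 2) ^ k) 0

/-- The block of the image. -/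
noncomputable def y (k : ℕ) (x : X) : F k := (1 + D.s k x * ‖D.J k x‖⁻¹) • D.J k x

theorem RQ (k : ℕ) (x : X) : D.R k x = D.R (k + 1) x + D.Q k x := by simp [Q]

theorem R_Q {j k : ℕ} (h : k < j) (x : X) : D.R j (D.Q k x) = 0 := by
  simp [Q, D.RR, max_eq_left h.le, max_eq_left (Nat.succ_le_of_lt h)]

theorem R_Q' (k : ℕ) (x : X) : D.R k (D.Q k x) = D.Q k x := by simp [Q, D.RR]

theorem J_Q (k : ℕ) (x : X) : D.J k (D.Q k x) = D.J k x := by simp [Q, D.J1, D.J2]

theorem J_Q' {j k : ℕ} (h : j ≠ k) (x : X) : D.J j (D.Q k x) = 0 := by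
  rcases h.lt_or_gt with h | h
  · rw [← D.J2 j (D.Q k x)]
    simp [Q, D.RR, max_eq_right (Nat.succ_le_of_lt h), max_eq_right (Nat.succ_le_succ h.le)]
  · rw [← D.J1, D.R_Q h, map_zero]

theorem d_nn (k : ℕ) (x : X) : 0 ≤ D.d k x := apply_nonneg _ _

theorem d_le (k : ℕ) (x : X) : D.d (k + 1) x ≤ D.d k x := by
  simpa [d, D.RR] using D.νR (k + 1) (D.R k x)

theorem ρ_sq (k : ℕ) (x : X) : D.ρ k x ^ 2 = D.d k x ^ 2 - D.d (k + 1) x ^ 2 :=
  Real.sq_sqrt (sub_nonneg.2 (pow_le_pow_left₀ (D.d_nn _ _) (D.d_le k x) 2))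

theorem ρ_le (k : ℕ) (x : X) : D.ρ k x ≤ D.d k x :=
  Real.sqrt_le_iff.2 ⟨D.d_nn _ _, sub_le_self _ (sq_nonneg _)⟩

theorem s_nn (k : ℕ) (x : X) : 0 ≤ D.s k x := le_max_right _ _

theorem s_zero {k : ℕ} {x : X} (h : D.ρ k x ≤ (1 / 2) ^ k) : D.s k x = 0 :=
  max_eq_right (sub_nonpos.2 h)

theorem d_cont (k : ℕ) : Continuous (D.d k) := D.cont.comp (D.R k).continuous

theorem ρ_cont (k : ℕ) : Continuous (D.ρ k) :=
  (((D.d_cont k).pow 2).sub ((D.d_cont _).pow 2)).sqrt

theorem s_cont (k : ℕ) : Continuous (D.s k) :=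
  ((D.ρ_cont k).sub continuous_const).max continuous_const

theorem d_lim (x : X) : Tendsto (fun k => D.d k x) atTop (𝓝 0) :=
  squeeze_zero' (.of_forall fun k => D.d_nn k x) (D.rate x) (by
    simpa using (tendsto_pow_atTop_nhds_zero_of_lt_one (r := (1 / 2 : ℝ)) (by norm_num)
      (by norm_num)).div_const 8)

theorem ρ_of_J {k : ℕ} {x : X} (h : D.J k x = 0) : D.ρ k x = 0 := by
  have h1 := D.leJ k x
  rw [h, norm_zero, mul_zero, norm_le_zero_iff, sub_eq_zero] at h1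
  simp [ρ, d, h1]

theorem s_of_J {k : ℕ} {x : X} (h : D.J k x = 0) : D.s k x = 0 :=
  D.s_zero (by rw [D.ρ_of_J h]; positivity)

theorem co_pos (k : ℕ) (x : X) : 1 ≤ 1 + D.s k x * ‖D.J k x‖⁻¹ :=
  le_add_of_nonneg_right (mul_nonneg (D.s_nn k x) (by positivity))

theorem norm_y (k : ℕ) (x : X) : ‖D.y k x‖ = ‖D.J k x‖ + D.s k x := by
  by_cases h : D.J k x = 0
  · simp [y, h, D.s_of_J h]
  rw [y, norm_smul, Real.norm_of_nonneg (zero_le_one.trans (D.co_pos k x)), add_mul, one_mul,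
    inv_mul_cancel_right₀ (norm_ne_zero_iff.2 h)]

theorem y_of_s {k : ℕ} {x : X} (h : D.s k x = 0) : D.y k x = D.J k x := by simp [y, h]

theorem y_congr {k : ℕ} {x x' : X} (h : D.R k x = D.R k x') : D.y k x = D.y k x' := by
  have h1 : D.R (k + 1) x = D.R (k + 1) x' := by simpa [D.RR] using congrArg (D.R (k + 1)) h
  rw [y, y, s, s, ρ, ρ, d, d, d, d, h, h1, ← D.J1 k x, h, D.J1]

theorem y_cont (k : ℕ) : Continuous (D.y k) := by
  refine continuous_iff_continuousAt.2 fun x => ?_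
  by_cases h : D.J k x = 0
  · refine (D.J k).continuous.continuousAt.congr ?_
    have h1 : D.ρ k x < (1 / 2) ^ k := by rw [D.ρ_of_J h]; positivity
    filter_upwards [(D.ρ_cont k).continuousAt.eventually_lt continuousAt_const h1] with z hz
    exact (D.y_of_s (D.s_zero hz.le)).symm
  · exact (continuousAt_const.add ((D.s_cont k).continuousAt.mul
      ((D.J k).continuous.continuousAt.norm.inv₀ (norm_ne_zero_iff.2 h)))).smul
      (D.J k).continuous.continuousAt

theorem s_ev (x : X) : ∀ᶠ k in atTop, D.s k x = 0 := by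
  filter_upwards [D.rate x] with k hk
  have : (0 : ℝ) < (1 / 2) ^ k := by positivity
  exact D.s_zero ((D.ρ_le k x).trans (hk.trans (by linarith)))

/-- The point on the ray through the block component of `z`. -/
def ray (k : ℕ) (x z : X) (t : ℝ) : X := D.R (k + 1) x + t • D.Q k z

theorem R_ray (k : ℕ) (x z : X) (t : ℝ) : D.R k (D.ray k x z t) = D.ray k x z t := by
  simp [ray, D.RR, D.R_Q']

theorem R_ray' {j k : ℕ} (h : k < j) (x z : X) (t : ℝ) : D.R j (D.ray k x z t) = D.R j x := by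
  simp [ray, D.RR, D.R_Q h, max_eq_left (Nat.succ_le_of_lt h)]

theorem J_ray (k : ℕ) (x z : X) (t : ℝ) : D.J k (D.ray k x z t) = t • D.J k z := by
  simp [ray, D.J2, D.J_Q]

theorem s_mono (k : ℕ) (x z : X) {t t' : ℝ} (h0 : 0 ≤ t) (h : t ≤ t') :
    D.s k (D.ray k x z t) ≤ D.s k (D.ray k x z t') := by
  have h1 : D.ν (D.ray k x z t) ≤ D.ν (D.ray k x z t') := by
    rcases (h0.trans h).eq_or_lt with h2 | h2
    · rw [le_antisymm h (h2 ▸ h0)]
    have h3 := D.νR (k + 1) (D.ray k x z t')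
    rw [D.R_ray' k.lt_succ_self] at h3
    have h4 : D.ray k x z t = (t / t') • D.ray k x z t' + (1 - t / t') • D.R (k + 1) x := by
      rw [ray, ray, smul_add, smul_smul, div_mul_cancel₀ _ h2.ne', sub_smul, one_smul]
      abel
    have h5 : 0 ≤ t / t' := by positivity
    have h6 : 0 ≤ 1 - t / t' := sub_nonneg.2 ((div_le_one h2).2 h)
    rw [h4]
    refine (map_add_le_add _ _ _).trans ?_
    rw [map_smul_eq_mul, map_smul_eq_mul, Real.norm_of_nonneg h5, Real.norm_of_nonneg h6]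
    nlinarith [mul_le_mul_of_nonneg_left h3 h6]
  refine max_le_max (sub_le_sub_right (Real.sqrt_le_sqrt ?_) _) le_rfl
  rw [d, d, d, d, D.R_ray, D.R_ray, D.R_ray' k.lt_succ_self, D.R_ray' k.lt_succ_self]
  exact sub_le_sub_right (pow_le_pow_left₀ (apply_nonneg _ _) h1 2) _

theorem ray_inj {k : ℕ} {x : X} {t : ℝ} (h0 : 0 ≤ t) (h : D.y k (D.ray k x x t) = D.y k x) :
    D.ray k x x t = D.R k x := by
  have e : D.ray k x x 1 = D.R k x := by rw [ray, one_smul, ← D.RQ]
  have h1 := congrArg norm (h.trans (D.y_congr (x' := D.ray k x x 1) (by rw [D.R_ray, e])))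
  rw [D.norm_y, D.norm_y, D.J_ray, D.J_ray, norm_smul, one_smul, Real.norm_of_nonneg h0] at h1
  by_cases h2 : D.J k x = 0
  · have h3 := D.leJ k x
    rw [h2, norm_zero, mul_zero, norm_le_zero_iff] at h3
    rw [← e, ray, ray, show D.Q k x = 0 from h3, smul_zero, smul_zero]
  have h3 := norm_pos_iff.2 h2
  rcases le_total t 1 with h4 | h4
  · have := D.s_mono k x x h0 h4
    rw [← e, le_antisymm h4 (by nlinarith)]
  · have := D.s_mono k x x zero_le_one h4
    rw [← e, le_antisymm h4 (by nlinarith)]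

theorem ray_sur (k : ℕ) (x z : X) : ∃ t, D.y k (D.ray k x z t) = D.J k z := by
  by_cases h : D.J k z = 0
  · exact ⟨0, by rw [y, D.J_ray, h, smul_zero, smul_zero]⟩
  have h1 := norm_pos_iff.2 h
  have hc : Continuous fun t : ℝ => t * ‖D.J k z‖ + D.s k (D.ray k x z t) :=
    (continuous_id.mul continuous_const).add ((D.s_cont k).comp
      (continuous_const.add (continuous_id.smul continuous_const)))
  have h0 : D.s k (D.ray k x z 0) = 0 := D.s_of_J (by rw [D.J_ray, zero_smul])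
  obtain ⟨t, ht, e⟩ := intermediate_value_Icc zero_le_one hc.continuousOn
    (show ‖D.J k z‖ ∈ _ from ⟨by simp [h0], by simp [D.s_nn]⟩)
  have h2 : t ≠ 0 := by
    rintro rfl
    simp [h0, h1.ne] at e
  refine ⟨t, ?_⟩
  rw [y, D.J_ray, norm_smul, Real.norm_of_nonneg ht.1, smul_smul, eq_sub_of_add_eq' e]
  rw [show (1 + (‖D.J k z‖ - t * ‖D.J k z‖) * (t * ‖D.J k z‖)⁻¹) * t = 1 by field_simp; ring,
    one_smul]

theorem sur (z : X) : ∃ x, ∀ k, D.y k x = D.J k z := by
  obtain ⟨N, hN⟩ := eventually_atTop.1 (D.s_ev z)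
  have key : ∀ (N : ℕ) (x : X), (∀ k ≥ N, D.y k x = D.J k z) → ∃ x, ∀ k, D.y k x = D.J k z := by
    intro N
    induction N with
    | zero => exact fun x h => ⟨x, fun k => h k k.zero_le⟩
    | succ N ih =>
      intro x h
      obtain ⟨t, ht⟩ := D.ray_sur N x z
      refine ih (D.ray N x z t) fun k hk => ?_
      rcases hk.eq_or_lt with rfl | hk
      · exact ht
      · exact (D.y_congr (D.R_ray' hk x z t)).trans (h k hk)
  exact key N z fun k hk => D.y_of_s (hN k hk)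

theorem sur' (x : X) : ∃ z, ∀ k, D.y k x = D.J k z := by
  obtain ⟨N, hN⟩ := eventually_atTop.1 (D.s_ev x)
  refine ⟨x + ∑ j ∈ Finset.range N, (D.s j x * ‖D.J j x‖⁻¹) • D.Q j x, fun k => ?_⟩
  rw [map_add, map_sum, Finset.sum_eq_single k, map_smul, D.J_Q, y, add_smul, one_smul]
  · intro j _ hj
    rw [map_smul, D.J_Q' hj.symm, smul_zero]
  · intro hk
    rw [hN k (by simpa using hk), zero_mul, zero_smul, map_zero]

/-- The linear map into the Hilbert sum. -/
noncomputable def T : X →ₗ[ℝ] lp F 2 where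
  toFun x := ⟨fun k => D.J k x, memℓp_gen (by
    refine .of_nonneg_of_le (fun k => by positivity) (fun k => ?_)
      ((summable_geometric_of_lt_one (r := (1 / 4 : ℝ)) (by norm_num) (by norm_num)).mul_right
        (‖x‖ ^ 2))
    rw [ENNReal.toReal_ofNat, Real.rpow_two, show (1 / 4 : ℝ) = (1 / 2) ^ 2 by norm_num,
      ← pow_mul, mul_comm 2, pow_mul, ← mul_pow]
    exact pow_le_pow_left₀ (norm_nonneg _) (D.Jle k x) 2)⟩
  map_add' x x' := lp.ext (funext fun k => map_add (D.J k) x x')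
  map_smul' c x := lp.ext (funext fun k => map_smul (D.J k) c x)

/-- The homeomorphism. -/
noncomputable def Y (x : X) : lp F 2 := D.T (D.sur' x).choose

theorem Y_ap (x : X) (k : ℕ) : D.Y x k = D.y k x := ((D.sur' x).choose_spec k).symm

theorem range_Y : Set.range D.Y = LinearMap.range D.T := by
  refine Set.Subset.antisymm ?_ ?_
  · rintro _ ⟨x, rfl⟩
    exact ⟨_, rfl⟩
  · rintro _ ⟨z, rfl⟩
    obtain ⟨x, hx⟩ := D.sur z
    exact ⟨x, lp.ext (funext fun k => (D.Y_ap x k).trans (hx k))⟩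

theorem q_lim : Tendsto (fun M : ℕ => ((1 / 2 : ℝ) ^ M) ^ 2) atTop (𝓝 0) := by
  simpa using (tendsto_pow_atTop_nhds_zero_of_lt_one (r := (1 / 2 : ℝ)) (by norm_num)
    (by norm_num)).pow 2

theorem tl_le (M : ℕ) (x : X) :
    tl M (D.Y x) ≤ 2 * D.d M x ^ 2 + 3 * (((1 / 2) ^ M) ^ 2 * ‖x‖ ^ 2) := by
  refine sub_nonpos.1 (le_of_step (a := fun M => tl M (D.Y x) -
    (2 * D.d M x ^ 2 + 3 * (((1 / 2) ^ M) ^ 2 * ‖x‖ ^ 2))) (fun M => ?_) ?_ M)
  · have h1 : D.s M x ≤ D.ρ M x := max_le (sub_le_self _ (by positivity)) (Real.sqrt_nonneg _)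
    have h2 : ‖D.y M x‖ ^ 2 ≤ ((1 / 2) ^ M * ‖x‖ + D.ρ M x) ^ 2 :=
      pow_le_pow_left₀ (norm_nonneg _) (D.norm_y M x ▸ add_le_add (D.Jle M x) h1) 2
    simp only [tl_succ M, D.Y_ap, pow_succ (1 / 2 : ℝ) M]
    nlinarith [D.ρ_sq M x, sq_nonneg ((1 / 2) ^ M * ‖x‖ - D.ρ M x), sq_nonneg ((1 / 2) ^ M * ‖x‖)]
  · simpa using (tl_lim (D.Y x)).sub ((((D.d_lim x).pow 2).const_mul 2).add
      ((q_lim.mul_const (‖x‖ ^ 2)).const_mul 3))

theorem le_tl (M : ℕ) (x : X) : D.d M x ^ 2 ≤ 2 * tl M (D.Y x) + 3 * ((1 / 2) ^ M) ^ 2 := by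
  refine sub_nonpos.1 (le_of_step (a := fun M => D.d M x ^ 2 -
    (2 * tl M (D.Y x) + 3 * ((1 / 2) ^ M) ^ 2)) (fun M => ?_) ?_ M)
  · have h1 : D.ρ M x ≤ ‖D.y M x‖ + (1 / 2) ^ M := by
      have := le_max_left (D.ρ M x - (1 / 2) ^ M) 0
      rw [D.norm_y, s]
      linarith [norm_nonneg (D.J M x)]
    have h2 : D.ρ M x ^ 2 ≤ (‖D.y M x‖ + (1 / 2) ^ M) ^ 2 :=
      pow_le_pow_left₀ (Real.sqrt_nonneg _) h1 2
    simp only [tl_succ M, D.Y_ap, pow_succ (1 / 2 : ℝ) M]
    nlinarith [D.ρ_sq M x, sq_nonneg (‖D.y M x‖ - (1 / 2) ^ M), sq_nonneg ((1 / 2 : ℝ) ^ M)]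
  · simpa using ((D.d_lim x).pow 2).sub (((tl_lim (D.Y x)).const_mul 2).add (q_lim.const_mul 3))

theorem Y_cont : Continuous D.Y := by
  refine continuous_iff_continuousAt.2 fun x => Metric.tendsto_nhds.2 fun ε hε => ?_
  let e : ℕ → X → ℝ := fun M z => 2 * D.d M z ^ 2 + 3 * (((1 / 2) ^ M) ^ 2 * ‖z‖ ^ 2)
  have h1 : Tendsto (fun M => e M x) atTop (𝓝 0) := by
    simpa [e] using (((D.d_lim x).pow 2).const_mul 2).add ((q_lim.mul_const (‖x‖ ^ 2)).const_mul 3)
  have h0 : 0 < ε ^ 2 / 5 := by positivity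
  obtain ⟨M, hM⟩ := (h1.eventually_lt_const h0).exists
  have h2 : Continuous (e M) := (continuous_const.mul ((D.d_cont M).pow 2)).add
    (continuous_const.mul (continuous_const.mul (continuous_norm.pow 2)))
  have h3 : Continuous fun z => ∑ k ∈ Finset.range M, ‖D.y k z - D.y k x‖ ^ 2 :=
    continuous_finsetSum _ fun k _ => ((D.y_cont k).sub continuous_const).norm.pow 2
  filter_upwards [h2.continuousAt.eventually_lt continuousAt_const hM,
    h3.continuousAt.eventually_lt (x₀ := x) (continuousAt_const (y := ε ^ 2 / 5))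
      (by simpa only [sub_self, norm_zero, zero_pow two_ne_zero, Finset.sum_const_zero] using h0)] with z a1 a2
  have a3 := tl_sub M (D.Y z) (D.Y x)
  have a4 := D.tl_le M z
  have a5 := D.tl_le M x
  rw [tl] at a3
  simp only [lp.coeFn_sub, Pi.sub_apply, D.Y_ap] at a3
  rw [dist_eq_norm]
  exact lt_of_pow_lt_pow_left₀ 2 hε.le (by simp only [e] at a1 hM; linarith)

theorem Q_lim {l : Filter X} {k : ℕ} {f : X → X} {x : X}
    (h : Tendsto (fun z => D.J k (f z)) l (𝓝 (D.J k x))) :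
    Tendsto (fun z => D.Q k (f z)) l (𝓝 (D.Q k x)) := by
  rw [tendsto_iff_norm_sub_tendsto_zero] at h ⊢
  refine squeeze_zero (fun _ => norm_nonneg _) (fun z => ?_) (by simpa using h.const_mul (D.c k))
  rw [← map_sub, ← map_sub]
  exact D.leJ k _

theorem le_nhds {l : Ultrafilter X} {x : X} (h : Tendsto D.Y l (𝓝 (D.Y x))) : ↑l ≤ 𝓝 x := by
  have hy : ∀ k, Tendsto (D.y k) l (𝓝 (D.y k x)) := fun k => by
    simpa only [Function.comp_def, D.Y_ap] using ((cont_ap k).tendsto _).comp h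
  have hd : ∀ ε > 0, ∀ᶠ M in atTop, ∀ᶠ z in l, D.d M z < ε := fun ε hε => by
    have h1 : Tendsto (fun M => 2 * tl M (D.Y x) + 3 * ((1 / 2) ^ M) ^ 2) atTop (𝓝 0) := by
      simpa using ((tl_lim (D.Y x)).const_mul 2).add (q_lim.const_mul 3)
    filter_upwards [h1.eventually_lt_const (pow_pos hε 2)] with M hM
    filter_upwards [((((tl_cont M).tendsto _).comp h).const_mul 2).add_const _
      |>.eventually_lt_const hM] with z hz
    exact lt_of_pow_lt_pow_left₀ 2 hε.le ((D.le_tl M z).trans_lt hz)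
  obtain ⟨N, hN⟩ := eventually_atTop.1 ((D.rate x).and (D.s_ev x))
  have hq : ∀ k ≥ N, ∀ᶠ z in l, D.ν (D.Q k z) < (1 / 2) ^ k / 4 := fun k hk => by
    have h1 := D.Q_lim (f := fun z => (1 + D.s k z * ‖D.J k z‖⁻¹) • z) (x := x) (k := k) (l := l)
      (by simp only [map_smul, ← D.y_of_s (hN k hk).2]; exact hy k)
    have h2 : D.ν (D.Q k x) < (1 / 2) ^ k / 4 := by
      have a1 := map_sub_le_add D.ν (D.R k x) (D.R (k + 1) x)
      have a2 := (hN k hk).1
      have a3 := (hN (k + 1) (by omega)).1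
      have a4 : (0 : ℝ) < (1 / 2) ^ k := by positivity
      rw [pow_succ] at a3
      exact a1.trans_lt (by linarith)
    filter_upwards [((D.cont.tendsto _).comp h1).eventually_lt_const h2] with z hz
    rw [Function.comp_apply, map_smul, map_smul_eq_mul,
      Real.norm_of_nonneg (zero_le_one.trans (D.co_pos k z))] at hz
    exact (le_mul_of_one_le_left (apply_nonneg _ _) (D.co_pos k z)).trans_lt hz
  have h4 : ∀ m, ∀ k ≥ N, ∀ᶠ z in l, D.d k z ≤ (1 / 2) ^ k / 2 + D.d (k + m) z := fun m => by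
    induction m with
    | zero => exact fun k _ => .of_forall fun z => le_add_of_nonneg_left (by positivity)
    | succ m ih =>
      intro k hk
      filter_upwards [hq k hk, ih (k + 1) (by omega)] with z a1 a2
      have a3 := map_add_le_add D.ν (D.R (k + 1) z) (D.Q k z)
      rw [← D.RQ] at a3
      rw [pow_succ, add_right_comm k 1 m] at a2
      exact a3.trans (by rw [← add_assoc]; simp only [d] at a2 ⊢; linarith)
  have h5 : ∀ k ≥ N, Tendsto (D.Q k) l (𝓝 (D.Q k x)) := fun k hk => by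
    obtain ⟨M, a1, a2⟩ := ((hd ((1 / 2) ^ k / 2) (by positivity)).and (eventually_ge_atTop k)).exists
    obtain ⟨m, rfl⟩ := Nat.exists_eq_add_of_le a2
    refine D.Q_lim (f := id) (D.y_of_s (hN k hk).2 ▸ (hy k).congr' ?_)
    filter_upwards [a1, h4 m k hk] with z b1 b2
    exact D.y_of_s (D.s_zero ((D.ρ_le k z).trans (by linarith)))
  have h6 : ∀ m, Tendsto (fun z => D.R N z - D.R (N + m) z) l (𝓝 (D.R N x - D.R (N + m) x)) :=
    fun m => by
    induction m with
    | zero => simp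
    | succ m ih =>
      have := ih.add (h5 (N + m) (by omega))
      simpa only [D.RQ (N + m), sub_add_eq_sub_sub, sub_add_cancel, add_assoc] using this
  have h7 : Tendsto (D.R N) l (𝓝 (D.R N x)) := by
    refine Metric.tendsto_nhds.2 fun ε hε => ?_
    obtain ⟨M, ⟨a1, a3⟩, a2⟩ := (((hd (ε / 3) (by positivity)).and
      ((D.d_lim x).eventually_lt_const (show 0 < ε / 3 by positivity))).and
      (eventually_ge_atTop N)).exists
    obtain ⟨m, rfl⟩ := Nat.exists_eq_add_of_le a2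
    filter_upwards [a1, Metric.tendsto_nhds.1 (h6 m) (ε / 3) (by positivity)] with z b1 b2
    rw [dist_eq_norm] at b2 ⊢
    have b3 := norm_add₃_le (a := D.R N z - D.R (N + m) z - (D.R N x - D.R (N + m) x))
      (b := D.R (N + m) z) (c := -D.R (N + m) x)
    rw [norm_neg, show ∀ a b c e : X, a - b - (c - e) + b + -e = a - c from fun _ _ _ _ => by abel]
      at b3
    linarith [D.le (D.R (N + m) z), D.le (D.R (N + m) x), show D.ν _ < _ from b1,
      show D.ν _ < _ from a3]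
  have h8 : ∀ k, Tendsto (D.R k) l (𝓝 (D.R k x)) → Tendsto (D.R 0) l (𝓝 (D.R 0 x)) := fun k => by
    induction k with
    | zero => exact id
    | succ k ih =>
      refine fun a1 => ih ?_
      obtain ⟨t, ht, a2⟩ := isCompact_Icc.ultrafilter_le_nhds
        (l.map fun z => (1 + D.s k z * ‖D.J k z‖⁻¹)⁻¹) (le_principal_iff.2 (mem_map.2
          (univ_mem' fun z => show _ ∈ Set.Icc (0 : ℝ) 1 from
            ⟨inv_nonneg.2 (zero_le_one.trans (D.co_pos k z)), inv_le_one_of_one_le₀ (D.co_pos k z)⟩)))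
      have a3 := D.Q_lim (f := id) (x := (t * (1 + D.s k x * ‖D.J k x‖⁻¹)) • x) (k := k) (l := l)
        (by
          rw [map_smul, mul_smul]
          refine (Tendsto.smul a2 (hy k)).congr fun z => ?_
          exact inv_smul_smul₀ (zero_lt_one.trans_le (D.co_pos k z)).ne' _)
      have a4 : Tendsto (D.R k) l (𝓝 (D.ray k x x (t * (1 + D.s k x * ‖D.J k x‖⁻¹)))) := by
        rw [map_smul] at a3
        exact (a1.add a3).congr fun z => (D.RQ k z).symm
      rwa [D.ray_inj (mul_nonneg ht.1 (zero_le_one.trans (D.co_pos k x))) (tendsto_nhds_unique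
        (((D.y_cont k).tendsto _).comp a4) ((hy k).congr fun z => D.y_congr ?_))] at a4
      rw [D.RR, max_self]
  have h9 := h8 N h7
  rwa [show ⇑(D.R 0) = id from funext D.R0] at h9

theorem homeo : Nonempty (X ≃ₜ LinearMap.range D.T) := by
  have h : IsInducing D.Y := isInducing_iff_nhds.2 fun x => le_antisymm
    (D.Y_cont.tendsto x).le_comap
    (le_iff_ultrafilter.2 fun l hl => D.le_nhds (tendsto_iff_comap.2 hl))
  exact ⟨h.isEmbedding.toHomeomorph.trans (Homeomorph.setCongr D.range_Y)⟩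

end Dat

end Pool.Agent.HB
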