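import Mathlib

/-! A sequence of finite dimensional blocks that shows every asymptotic type of a normed space. -/

open Set Filter Topology Function Module

namespace Pool.Agent.P.MP_5aae23_gt.Nsg

/-- An Auerbach family: vectors of norm at most one with coordinates of norm at most one. -/
theorem sy_auerbach {K G : Type*} [RCLike K] [NormedAddCommGroup G] [NormedSpace K G]
    [FiniteDimensional K G] :
    ∃ v : Fin (finrank K G) → G, (∀ i, ‖v i‖ ≤ 1) ∧
      ∀ x, ∃ a : Fin (finrank K G) → K, (∀ i, ‖a i‖ ≤ ‖x‖) ∧ ∑ i, a i • v i = x := by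
  classical
  set e := Module.finBasis K G with he
  have : ProperSpace G := FiniteDimensional.proper_rclike K G
  have hc : Continuous fun v : Fin (finrank K G) → G => ‖e.det v‖ := by
    refine Continuous.norm ?_
    show Continuous fun v : Fin (finrank K G) → G => Matrix.det (e.toMatrix v)
    refine Continuous.matrix_det ?_
    refine continuous_pi fun i => continuous_pi fun j => ?_
    exact (e.coord i).continuous_of_finiteDimensional.comp (continuous_apply j)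
  have hS : IsCompact (Set.pi Set.univ fun _ : Fin (finrank K G) => Metric.closedBall (0 : G) 1) :=
    isCompact_univ_pi fun _ => isCompact_closedBall _ _
  have hn : ∀ i, ((‖e i‖ : ℝ) : K)⁻¹ ≠ 0 := fun i => by
    have : ‖e i‖ ≠ 0 := norm_ne_zero_iff.2 (e.ne_zero i)
    exact inv_ne_zero (by exact_mod_cast this)
  have hw : (fun i => ((‖e i‖ : ℝ) : K)⁻¹ • e i) ∈
      Set.pi Set.univ fun _ : Fin (finrank K G) => Metric.closedBall (0 : G) 1 := by
    intro i _
    have : ‖e i‖ ≠ 0 := norm_ne_zero_iff.2 (e.ne_zero i)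
    simp [norm_smul, this]
  obtain ⟨v, hv, hmax⟩ := hS.exists_isMaxOn ⟨_, hw⟩ hc.continuousOn
  have hv1 : ∀ i, ‖v i‖ ≤ 1 := fun i => by simpa using hv i (Set.mem_univ i)
  have hpos : 0 < ‖e.det v‖ := by
    refine lt_of_lt_of_le ?_ (hmax hw)
    have h1 := e.det.map_smul_univ (fun i => ((‖e i‖ : ℝ) : K)⁻¹) e
    show 0 < ‖e.det fun i => ((‖e i‖ : ℝ) : K)⁻¹ • e i‖
    rw [h1, e.det_self, norm_pos_iff, smul_eq_mul, mul_one]
    exact Finset.prod_ne_zero_iff.2 fun i _ => hn i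
  have hu : IsUnit (e.det v) := isUnit_iff_ne_zero.2 (norm_pos_iff.1 hpos)
  obtain ⟨hli, hsp⟩ := (e.is_basis_iff_det).2 hu
  have key : ∀ i (x : G), ‖x‖ ≤ 1 → ‖(Basis.mk hli hsp.ge).coord i x‖ ≤ 1 := by
    intro i x hx
    have h1 := LinearMap.congr_fun (e.det_smul_mk_coord_eq_det_update hli hsp.ge i) x
    have h2 : e.det v * (Basis.mk hli hsp.ge).coord i x = e.det (Function.update v i x) := h1
    have h3 : Function.update v i x ∈
        Set.pi Set.univ fun _ : Fin (finrank K G) => Metric.closedBall (0 : G) 1 := by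
      intro j _
      rcases eq_or_ne j i with rfl | hj
      · simpa using hx
      · simpa [Function.update_of_ne hj] using hv1 j
    have h4 : ‖e.det (Function.update v i x)‖ ≤ ‖e.det v‖ := hmax h3
    rw [← h2, norm_mul] at h4
    exact le_of_mul_le_mul_left (h4.trans (mul_one _).ge) hpos
  refine ⟨v, hv1, fun x => ⟨fun i => (Basis.mk hli hsp.ge).coord i x, fun i => ?_, ?_⟩⟩
  · rcases eq_or_ne x 0 with rfl | hx
    · simp only [map_zero, norm_zero, le_refl]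
    · have hx' : 0 < ‖x‖ := norm_pos_iff.2 hx
      have h1 := key i (((‖x‖ : ℝ) : K)⁻¹ • x) (by simp [norm_smul, hx'.ne'])
      rw [map_smul, norm_smul, norm_inv, RCLike.norm_ofReal, abs_of_pos hx',
        inv_mul_le_iff₀ hx', mul_one] at h1
      exact h1
  · have h1 := (Basis.mk hli hsp.ge).sum_repr x
    simp only [Basis.mk_apply] at h1
    exact h1

variable {E : Type*} [NormedAddCommGroup E] [NormedSpace ℝ E]

/-- Auerbach systems of `m` vectors. -/
def Auer {m : ℕ} (b : Fin m → E) : Prop :=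
  (∀ i, ‖b i‖ ≤ 1) ∧ ∀ a : Fin m → ℝ, ‖a‖ ≤ ‖∑ i, a i • b i‖

theorem Auer.le {m : ℕ} {b : Fin m → E} (h : Auer b) (a : Fin m → ℝ) :
    ‖∑ i, a i • b i‖ ≤ m * ‖a‖ := by
  refine (norm_sum_le _ _).trans ?_
  calc ∑ i, ‖a i • b i‖ ≤ ∑ _i : Fin m, ‖a‖ := Finset.sum_le_sum fun i _ => by
        rw [norm_smul]
        exact (mul_le_of_le_one_right (norm_nonneg _) (h.1 i)).trans (norm_le_pi_norm a i)
    _ = m * ‖a‖ := by simp

theorem sy_bas (F : Submodule ℝ E) [FiniteDimensional ℝ F] {m : ℕ} (hm : finrank ℝ F = m) :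
    ∃ b : Fin m → E, (∀ i, b i ∈ F) ∧ Auer b ∧ ∀ x ∈ F, ∃ a : Fin m → ℝ, ∑ i, a i • b i = x := by
  subst hm
  obtain ⟨v, hv, ha⟩ := sy_auerbach (K := ℝ) (G := F)
  have hs : Surjective (Fintype.linearCombination ℝ v) := fun x => by
    obtain ⟨a, -, h⟩ := ha x
    exact ⟨a, by rw [Fintype.linearCombination_apply]; exact h⟩
  have hi : Injective (Fintype.linearCombination ℝ v) :=
    (LinearMap.injective_iff_surjective_of_finrank_eq_finrank (by simp)).2 hs
  refine ⟨fun i => v i, fun i => (v i).2, ⟨hv, fun a => ?_⟩, fun x hx => ?_⟩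
  · obtain ⟨a', h1, h2⟩ := ha (∑ i, a i • v i)
    have h3 : a' = a := hi (by
      rw [Fintype.linearCombination_apply, Fintype.linearCombination_apply]; exact h2)
    subst h3
    have h4 : ((∑ i, a' i • v i : F) : E) = ∑ i, a' i • (v i : E) := by simp
    rw [← h4]
    exact (pi_norm_le_iff_of_nonneg (norm_nonneg _)).2 h1
  · obtain ⟨a, -, h⟩ := ha ⟨x, hx⟩
    exact ⟨a, by simpa using congrArg Subtype.val h⟩

theorem sy_one (hE : ¬ FiniteDimensional ℝ E) (S : Finset (E →L[ℝ] ℝ)) (G : Submodule ℝ E)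
    [FiniteDimensional ℝ G] : ∃ x, x ∉ G ∧ ∀ f ∈ S, f x = 0 := by
  by_contra hc
  push Not at hc
  let L : E →ₗ[ℝ] (S → ℝ) := LinearMap.pi fun f => (f.1 : E →ₗ[ℝ] ℝ)
  have h1 : (⊤ ⊓ LinearMap.ker L : Submodule ℝ E) ≤ G := fun x hx => by
    by_contra h
    obtain ⟨f, hf, h0⟩ := hc x h
    exact h0 (congrFun (LinearMap.mem_ker.1 hx.2) ⟨f, hf⟩)
  have h2 : (⊤ ⊓ LinearMap.ker L : Submodule ℝ E).FG :=
    Module.Finite.iff_fg.1 (Submodule.finiteDimensional_of_le h1)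
  exact hE ⟨Submodule.fg_of_fg_map_of_fg_inf_ker L (Module.Finite.iff_fg.1 inferInstance) h2⟩

theorem sy_succ {G : Submodule ℝ E} [FiniteDimensional ℝ G] {x : E} (hx : x ∉ G) :
    finrank ℝ (G ⊔ Submodule.span ℝ {x} : Submodule ℝ E) = finrank ℝ G + 1 := by
  have h0 : x ≠ 0 := fun h => hx (h ▸ G.zero_mem)
  have h1 := Submodule.finrank_sup_add_finrank_inf_eq G (Submodule.span ℝ {x})
  have h2 : G ⊓ Submodule.span ℝ {x} = ⊥ :=
    disjoint_iff.1 (Submodule.disjoint_span_singleton_of_notMem hx)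
  rw [h2, finrank_bot, finrank_span_singleton h0] at h1
  exact h1

theorem sy_ext (hE : ¬ FiniteDimensional ℝ E) (S : Finset (E →L[ℝ] ℝ)) (G : Submodule ℝ E)
    [FiniteDimensional ℝ G] (hG : ∀ f ∈ S, ∀ x ∈ G, f x = 0) {m : ℕ} (hm : finrank ℝ G ≤ m) :
    ∃ G' : Submodule ℝ E, G ≤ G' ∧ FiniteDimensional ℝ G' ∧ finrank ℝ G' = m ∧
      ∀ f ∈ S, ∀ x ∈ G', f x = 0 := by
  induction m, hm using Nat.le_induction with
  | base => exact ⟨G, le_rfl, inferInstance, rfl, hG⟩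
  | succ k _ ih =>
    obtain ⟨G', h1, h2, h3, h4⟩ := ih
    obtain ⟨x, hx, h5⟩ := sy_one hE S G'
    refine ⟨G' ⊔ Submodule.span ℝ {x}, h1.trans le_sup_left, inferInstance, by
      rw [sy_succ hx, h3], fun f hf y hy => ?_⟩
    obtain ⟨y1, hy1, y2, hy2, rfl⟩ := Submodule.mem_sup.1 hy
    obtain ⟨t, rfl⟩ := Submodule.mem_span_singleton.1 hy2
    rw [map_add, map_smul, h4 f hf y1 hy1, h5 f hf, smul_zero, add_zero]

theorem sy_typ (E : Type*) [NormedAddCommGroup E] [NormedSpace ℝ E] (m : ℕ) :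
    ∃ (K : ℕ) (τ : (Fin m → E) → ℕ), (∀ b, Auer b → τ b < K) ∧
      ∀ b b', Auer b → Auer b' → τ b = τ b' → ∀ a : Fin m → ℝ,
        ‖∑ i, a i • b i‖ ≤ 2 * ‖∑ i, a i • b' i‖ := by
  classical
  have hε : (0 : ℝ) < 1 / (4 * (m + 1)) := by positivity
  obtain ⟨A, hA, hfin, hcov⟩ := finite_cover_balls_of_compact
    (isCompact_sphere (0 : Fin m → ℝ) 1) hε
  have : Fintype A := hfin.fintype
  let σ : (Fin m → E) → A → Fin (2 * m + 1) := fun b a =>
    ⟨min ⌊2 * ‖∑ i, a.1 i • b i‖⌋₊ (2 * m), Nat.lt_succ_of_le (min_le_right _ _)⟩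
  refine ⟨Fintype.card (A → Fin (2 * m + 1)), fun b => Fintype.equivFin _ (σ b),
    fun b _ => Fin.isLt _, fun b b' hb hb' h => ?_⟩
  have h1 : σ b = σ b' := (Fintype.equivFin _).injective (Fin.ext h)
  have fl : ∀ c : Fin m → E, Auer c → ∀ a ∈ A, ⌊2 * ‖∑ i, a i • c i‖⌋₊ ≤ 2 * m := fun c hc a ha => by
    have h2 := hc.le a
    rw [mem_sphere_zero_iff_norm.1 (hA ha), mul_one] at h2
    refine Nat.floor_le_of_le ?_
    push_cast
    linarith
  have key : ∀ a : Fin m → ℝ, ‖a‖ = 1 → ‖∑ i, a i • b i‖ ≤ 2 * ‖∑ i, a i • b' i‖ := by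
    intro a ha
    obtain ⟨a0, ha0, hd⟩ := mem_iUnion₂.1 (hcov (mem_sphere_zero_iff_norm.2 ha))
    rw [Metric.mem_ball, dist_eq_norm] at hd
    have h2 : ⌊2 * ‖∑ i, a0 i • b i‖⌋₊ = ⌊2 * ‖∑ i, a0 i • b' i‖⌋₊ := by
      have h3 := congrArg Fin.val (congrFun h1 ⟨a0, ha0⟩)
      simp only [σ] at h3
      rwa [min_eq_left (fl b hb a0 ha0), min_eq_left (fl b' hb' a0 ha0)] at h3
    have h3 := Nat.lt_floor_add_one (2 * ‖∑ i, a0 i • b i‖)
    have h4 := Nat.floor_le (show 0 ≤ 2 * ‖∑ i, a0 i • b' i‖ by positivity)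
    rw [h2] at h3
    have near : ∀ c : Fin m → E, Auer c →
        ‖∑ i, a i • c i - ∑ i, a0 i • c i‖ ≤ 1 / 4 := fun c hc => by
      have h5 := hc.le (a - a0)
      simp only [Pi.sub_apply, sub_smul, Finset.sum_sub_distrib] at h5
      refine h5.trans ?_
      calc (m : ℝ) * ‖a - a0‖ ≤ (m + 1) * (1 / (4 * (m + 1))) := by
            gcongr
            linarith
        _ = 1 / 4 := by field_simp
    have h6 := norm_sub_norm_le (∑ i, a i • b i) (∑ i, a0 i • b i)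
    have h7 := norm_sub_norm_le (∑ i, a0 i • b' i) (∑ i, a i • b' i)
    rw [norm_sub_rev] at h7
    have h8 := hb'.2 a
    linarith [near b hb, near b' hb']
  intro a
  rcases eq_or_ne a 0 with rfl | h0
  · simp
  · have hp : 0 < ‖a‖ := norm_pos_iff.2 h0
    have h2 := key (‖a‖⁻¹ • a) (by rw [norm_smul, norm_inv, norm_norm, inv_mul_cancel₀ hp.ne'])
    simp only [Pi.smul_apply, smul_eq_mul, mul_smul, ← Finset.smul_sum, norm_smul, norm_inv,
      norm_norm] at h2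
    have h3 : 0 < ‖a‖⁻¹ := inv_pos.2 hp
    nlinarith

/-- `S` norms `V` up to the factor two. -/
def Nrm (V : Submodule ℝ E) (S : Finset (E →L[ℝ] ℝ)) : Prop :=
  ∀ x ∈ V, ∀ y, (∀ f ∈ S, f y = 0) → ‖x‖ ≤ 2 * ‖x + y‖

theorem sy_nrm (V : Submodule ℝ E) [FiniteDimensional ℝ V] : ∃ S, Nrm V S := by
  classical
  have hK : IsCompact (Metric.sphere (0 : V) 1) := isCompact_sphere _ _
  obtain ⟨t, ht⟩ := hK.elim_finite_subcover
    (fun f : {f : E →L[ℝ] ℝ // ‖f‖ ≤ 1} => {x : V | 1 / 2 < f.1 x})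
    (fun f => isOpen_lt continuous_const (f.1.continuous.comp continuous_subtype_val))
    (fun x hx => by
      obtain ⟨f, h1, h2⟩ := exists_dual_vector'' ℝ (x : E)
      refine mem_iUnion.2 ⟨⟨f, h1⟩, ?_⟩
      have h3 : ‖(x : E)‖ = 1 := mem_sphere_zero_iff_norm.1 hx
      show 1 / 2 < f x
      rw [h2, h3]
      norm_num)
  refine ⟨t.image Subtype.val, fun x hx y hy => ?_⟩
  rcases eq_or_ne x 0 with rfl | h0
  · simp
  · have hp : 0 < ‖x‖ := norm_pos_iff.2 h0
    have h1 : (⟨‖x‖⁻¹ • x, V.smul_mem _ hx⟩ : V) ∈ Metric.sphere (0 : V) 1 := by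
      rw [mem_sphere_zero_iff_norm]
      show ‖‖x‖⁻¹ • x‖ = 1
      rw [norm_smul, norm_inv, norm_norm, inv_mul_cancel₀ hp.ne']
    obtain ⟨f, hf, h2⟩ := mem_iUnion₂.1 (ht h1)
    have h3 : 1 / 2 < ‖x‖⁻¹ * f.1 x := by simpa using h2
    have h4 : f.1 y = 0 := hy _ (Finset.mem_image_of_mem _ hf)
    have h5 : f.1 x ≤ ‖x + y‖ := by
      have h6 : f.1 (x + y) = f.1 x := by rw [map_add, h4, add_zero]
      rw [← h6]
      exact (le_abs_self _).trans ((f.1.le_opNorm _).trans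
        (mul_le_of_le_one_left (norm_nonneg _) f.2))
    rw [lt_inv_mul_iff₀ hp] at h3
    linarith

theorem sy_sep (W : Submodule ℝ E) [FiniteDimensional ℝ W] {g : E} (hg : g ∉ W) :
    ∃ h : E →L[ℝ] ℝ, h g = 1 ∧ ∀ x ∈ W, h x = 0 := by
  obtain ⟨f, h1, h2⟩ := Submodule.exists_le_ker_of_notMem hg
  obtain ⟨h, h3, -⟩ := exists_extension_norm_eq (W ⊔ Submodule.span ℝ {g})
    (LinearMap.toContinuousLinearMap (f.domRestrict (W ⊔ Submodule.span ℝ {g})))
  have h4 : h g = f g := h3 ⟨g, Submodule.mem_sup_right (Submodule.mem_span_singleton_self g)⟩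
  refine ⟨(f g)⁻¹ • h, by simp [h4, h1], fun x hx => ?_⟩
  have h5 : h x = f x := h3 ⟨x, Submodule.mem_sup_left hx⟩
  have h6 : f x = 0 := h2 hx
  simp [h5, h6]

theorem sy_gp (F : Submodule ℝ E) [FiniteDimensional ℝ F] (I : Finset ℕ) :
    ∃ b : ℕ → E, (∀ q, b q ∈ F) ∧ ∀ s ⊆ I, finrank ℝ F ≤ s.card → ∀ x ∈ F,
      ∃ η : ℕ → ℝ, (∀ q, |η q| ≤ ‖x‖) ∧ x = ∑ q ∈ s, η q • b q := by
  classical
  let e := Module.finBasis ℝ F
  let w : ℕ → F := fun q => ∑ i : Fin (finrank ℝ F), (q : ℝ) ^ (i : ℕ) • e i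
  have h1 : ∀ s : Finset ℕ, ∃ C : ℝ, 0 ≤ C ∧ (finrank ℝ F ≤ s.card → ∀ x : F,
      ∃ η : ℕ → ℝ, (∀ q, |η q| ≤ C * ‖x‖) ∧ x = ∑ q ∈ s, η q • w q) := by
    intro s
    by_cases hs : finrank ℝ F ≤ s.card
    swap
    · exact ⟨0, le_rfl, fun h => absurd h hs⟩
    let L : (s → ℝ) →ₗ[ℝ] F := Fintype.linearCombination ℝ fun q : s => w q
    have hL : LinearMap.range L = ⊤ := by
      by_contra hne
      obtain ⟨φ, hφ, hk⟩ := Submodule.exists_le_ker_of_lt_top _ (lt_top_iff_ne_top.2 hne)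
      obtain ⟨ι⟩ : Nonempty (Fin (finrank ℝ F) ↪ s) :=
        Function.Embedding.nonempty_of_card_le (by simpa using hs)
      have h2 : (fun i => φ (e i)) = 0 :=
        Matrix.eq_zero_of_forall_index_sum_pow_mul_eq_zero (f := fun j => ((ι j).1 : ℝ))
          (fun j j' h => ι.injective (Subtype.ext (Nat.cast_injective (R := ℝ) h))) fun j => by
            have h3 : φ (w (ι j)) = 0 := hk (by
              rw [Fintype.range_linearCombination]
              exact Submodule.subset_span ⟨ι j, rfl⟩)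
            simpa [w] using h3
      exact hφ (e.ext fun i => congrFun h2 i)
    obtain ⟨R, hR⟩ := L.exists_rightInverse_of_surjective hL
    refine ⟨‖LinearMap.toContinuousLinearMap R‖, ContinuousLinearMap.opNorm_nonneg _, fun _ x =>
      ⟨fun q => if h : q ∈ s then R x ⟨q, h⟩ else 0, fun q => ?_, ?_⟩⟩
    · beta_reduce
      split_ifs with h
      · exact (norm_le_pi_norm (R x) ⟨q, h⟩).trans
          ((LinearMap.toContinuousLinearMap R).le_opNorm x)
      · rw [abs_zero]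
        positivity
    · have h2 : L (R x) = x := LinearMap.congr_fun hR x
      rw [← Finset.sum_coe_sort]
      simp only [Finset.coe_mem, dif_pos]
      rw [Fintype.linearCombination_apply] at h2
      exact h2.symm
  choose C hC0 hC using h1
  have hD : 0 < 1 + ∑ s ∈ I.powerset, C s :=
    add_pos_of_pos_of_nonneg one_pos (Finset.sum_nonneg fun s _ => hC0 s)
  refine ⟨fun q => (1 + ∑ s ∈ I.powerset, C s) • (w q : E), fun q => F.smul_mem _ (w q).2,
    fun s hs hc x hx => ?_⟩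
  obtain ⟨η, h2, h3⟩ := hC s hc ⟨x, hx⟩
  have h4 : C s ≤ ∑ s ∈ I.powerset, C s :=
    Finset.single_le_sum (fun s _ => hC0 s) (Finset.mem_powerset.2 hs)
  refine ⟨fun q => η q / (1 + ∑ s ∈ I.powerset, C s), fun q => ?_, ?_⟩
  · rw [abs_div, abs_of_pos hD, div_le_iff₀ hD]
    have h5 : |η q| ≤ C s * ‖x‖ := h2 q
    nlinarith [norm_nonneg x]
  · have h5 := congrArg Subtype.val h3
    simp only [smul_smul, div_mul_cancel₀ _ hD.ne']
    simpa using h5

end Pool.Agent.P.MP_5aae23_gt.Nsg
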