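import Pool.Agent.P.MP_5aae23_gt.GDefs
import Pool.Agent.P.MP_5aae23_gt.GSysA

open Set Filter Topology Function

namespace Pool.Agent.P.MP_5aae23_gt.Nsg

open Nsh

variable {E : Type*} [NormedAddCommGroup E] [NormedSpace ℝ E]

theorem gen_pos (F : Submodule ℝ E) [FiniteDimensional ℝ F] (L : Finset ℕ) :
    ∃ b : ℕ → E, (∀ q, b q ∈ F) ∧ ∀ s ⊆ L, Module.finrank ℝ F ≤ s.card → ∀ x ∈ F,
      ∃ η : ℕ → ℝ, (∀ q, |η q| ≤ ‖x‖) ∧ x = ∑ q ∈ s, η q • b q :=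
  sy_gp F L

theorem norming (W : Submodule ℝ E) [FiniteDimensional ℝ W] :
    ∃ S : Finset (E →L[ℝ] ℝ), ∀ x ∈ W, ∀ z, (∀ φ ∈ S, φ z = 0) → ‖x‖ ≤ 2 * ‖x + z‖ :=
  sy_nrm W

theorem kil_ext (hE : ¬FiniteDimensional ℝ E) {S : Finset (E →L[ℝ] ℝ)} {G : Submodule ℝ E}
    [FiniteDimensional ℝ G] (hG : Kil S G) {m : ℕ} (hm : Module.finrank ℝ G ≤ m) :
    ∃ G' : Submodule ℝ E, G ≤ G' ∧ FiniteDimensional ℝ G' ∧ Module.finrank ℝ G' = m ∧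
      Kil S G' :=
  sy_ext hE S G hG hm

theorem bas (m : ℕ) : ∃ κ > (0 : ℝ), ∀ F : Submodule ℝ E, FiniteDimensional ℝ F →
    Module.finrank ℝ F = m → ∃ b : (Fin m → ℝ) →ₗ[ℝ] E, LinearMap.range b = F ∧
      ∀ a, κ * ‖a‖ ≤ ‖b a‖ ∧ ‖b a‖ ≤ m * ‖a‖ := by
  refine ⟨1, one_pos, fun F hF hm => ?_⟩
  obtain ⟨b, h1, h2, h3⟩ := sy_bas F hm
  refine ⟨Fintype.linearCombination ℝ b, le_antisymm ?_ fun x hx => ?_, fun a => ?_⟩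
  · rintro _ ⟨a, rfl⟩
    rw [Fintype.linearCombination_apply]
    exact Submodule.sum_mem _ fun i _ => Submodule.smul_mem _ _ (h1 i)
  · obtain ⟨a, ha⟩ := h3 x hx
    exact ⟨a, by rw [Fintype.linearCombination_apply, ha]⟩
  · rw [Fintype.linearCombination_apply, one_mul]
    exact ⟨h2.2 a, h2.le a⟩

end Pool.Agent.P.MP_5aae23_gt.Nsg
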