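import Pool.Agent.P.MP_5aae23_gt.GSysA

/-! The block system. -/

open Set Filter Topology Function Module

namespace Pool.Agent.P.MP_5aae23_gt.Nsg

/-- Blocks, vectors in general position and a biorthogonal sequence. -/
structure Blocks (E : Type*) [NormedAddCommGroup E] [NormedSpace ℝ E] where
  st : ℕ → ℕ
  dm : ℕ → ℕ
  F : ℕ → Submodule ℝ E
  b : ℕ → E
  g : ℕ → E
  h : ℕ → E →L[ℝ] ℝ
  st0 : st 0 = 0
  room : ∀ n, st n + (n + 1) * dm n ≤ st (n + 1)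
  three : ∀ n, 3 ≤ dm n
  fd : ∀ n, FiniteDimensional ℝ (F n)
  rk : ∀ n, finrank ℝ (F n) = dm n
  bm : ∀ n q, st n ≤ q → q < st (n + 1) → b q ∈ F n
  mz : ∀ (η : ℕ → ℝ) (N N' : ℕ), N ≤ N' →
    ‖∑ q ∈ Finset.range (st N), η q • b q‖ ≤ 2 * ‖∑ q ∈ Finset.range (st N'), η q • b q‖
  hb : ∀ c q, h c (b q) = 0
  hg : ∀ c c', h c (g c') = if c = c' then 1 else 0
  gle : ∀ c, ‖g c‖ ≤ 1
  span : ∀ n (s : Finset ℕ), s ⊆ Finset.Ico (st n) (st (n + 1)) → dm n ≤ s.card → ∀ x ∈ F n,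
    ∃ η : ℕ → ℝ, (∀ q, |η q| ≤ ‖x‖) ∧ x = ∑ q ∈ s, η q • b q
  big : ∀ m, 3 ≤ m → ∃ S : Finset (E →L[ℝ] ℝ), ∀ G : Submodule ℝ E, FiniteDimensional ℝ G →
    finrank ℝ G = m → (∀ f ∈ S, ∀ x ∈ G, f x = 0) → ∃ P : Set ℕ, P.Infinite ∧ ∀ n ∈ P,
      dm n = m ∧ ∃ T : G →ₗ[ℝ] E, (∀ x, T x ∈ F n) ∧
        ∀ x, ‖x‖ ≤ 2 * ‖T x‖ ∧ ‖T x‖ ≤ 2 * ‖x‖

variable {E : Type*} [NormedAddCommGroup E] [NormedSpace ℝ E]

theorem sy_step (hE : ¬ FiniteDimensional ℝ E) (V : Submodule ℝ E) [FiniteDimensional ℝ V]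
    (S : Finset (E →L[ℝ] ℝ)) (F : Submodule ℝ E) [FiniteDimensional ℝ F] :
    ∃ (V' : Submodule ℝ E) (S' : Finset (E →L[ℝ] ℝ)) (g : E) (h : E →L[ℝ] ℝ),
      FiniteDimensional ℝ V' ∧ V ≤ V' ∧ F ≤ V' ∧ g ∈ V' ∧ S ⊆ S' ∧ h ∈ S' ∧ Nrm V' S' ∧
      (∀ f ∈ S, f g = 0) ∧ ‖g‖ ≤ 1 ∧ h g = 1 ∧ (∀ x ∈ V, h x = 0) ∧ ∀ x ∈ F, h x = 0 := by
  classical
  obtain ⟨x, hx, h1⟩ := sy_one hE S (V ⊔ F)
  have h0 : x ≠ 0 := fun h => hx (h ▸ (V ⊔ F).zero_mem)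
  have hp : 0 < ‖x‖ := norm_pos_iff.2 h0
  have hg : ‖x‖⁻¹ • x ∉ V ⊔ F := fun h =>
    hx (((V ⊔ F).smul_mem_iff (inv_ne_zero hp.ne')).1 h)
  obtain ⟨h, h2, h3⟩ := sy_sep (V ⊔ F) hg
  obtain ⟨S1, h4⟩ := sy_nrm ((V ⊔ F) ⊔ Submodule.span ℝ {‖x‖⁻¹ • x})
  refine ⟨(V ⊔ F) ⊔ Submodule.span ℝ {‖x‖⁻¹ • x}, insert h (S ∪ S1), ‖x‖⁻¹ • x, h, inferInstance,
    le_sup_left.trans le_sup_left, le_sup_right.trans le_sup_left,
    Submodule.mem_sup_right (Submodule.mem_span_singleton_self _),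
    Finset.subset_union_left.trans (Finset.subset_insert _ _), Finset.mem_insert_self _ _,
    fun y hy z hz => h4 y hy z fun f hf =>
      hz f (Finset.mem_insert_of_mem (Finset.mem_union_right _ hf)),
    fun f hf => by rw [map_smul, h1 f hf, smul_zero], ?_, h2,
    fun y hy => h3 y (Submodule.mem_sup_left hy), fun y hy => h3 y (Submodule.mem_sup_right hy)⟩
  rw [norm_smul, norm_inv, norm_norm, inv_mul_cancel₀ hp.ne']

theorem sy_blk {st : ℕ → ℕ} (h0 : st 0 = 0) (hm : StrictMono st) (q : ℕ) :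
    ∃ n, st n ≤ q ∧ q < st (n + 1) := by
  classical
  have h1 : ∃ n, q < st (n + 1) := ⟨q, (Nat.lt_succ_self q).trans_le (hm.id_le (q + 1))⟩
  refine ⟨Nat.find h1, ?_, Nat.find_spec h1⟩
  rcases h2 : Nat.find h1 with _ | k
  · rw [h0]
    exact Nat.zero_le _
  · exact not_lt.1 (Nat.find_min h1 (h2 ▸ Nat.lt_succ_self k))

theorem exists_blocks (hE : ¬ FiniteDimensional ℝ E) : Nonempty (Blocks E) := by
  classical
  choose K τ hK hτ using sy_typ E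
  let As : ℕ → ℕ → Prop := fun m j => 3 ≤ m ∧ ∀ S : Finset (E →L[ℝ] ℝ), ∃ b : Fin m → E,
    Auer b ∧ (∀ f ∈ S, ∀ i, f (b i) = 0) ∧ τ m b = j
  let mm : ℕ → ℕ := fun n => n.unpair.1.unpair.1
  let jj : ℕ → ℕ := fun n => n.unpair.1.unpair.2
  let dm : ℕ → ℕ := fun n => if As (mm n) (jj n) then mm n else 3
  have three : ∀ n, 3 ≤ dm n := fun n => by
    by_cases h : As (mm n) (jj n)
    · simp only [dm, if_pos h]
      exact h.1
    · simp only [dm, if_neg h, le_refl]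
  have pick : ∀ n (S : Finset (E →L[ℝ] ℝ)), ∃ F : Submodule ℝ E, FiniteDimensional ℝ F ∧
      finrank ℝ F = dm n ∧ (∀ f ∈ S, ∀ x ∈ F, f x = 0) ∧ (As (mm n) (jj n) →
        ∃ b : Fin (mm n) → E, Auer b ∧ τ (mm n) b = jj n ∧ ∀ i, b i ∈ F) := by
    intro n S
    by_cases h : As (mm n) (jj n)
    · obtain ⟨b, h1, h2, h3⟩ := h.2 S
      have hli : LinearIndependent ℝ b := Fintype.linearIndependent_iff.2 fun a ha i => by
        have h4 := h1.2 a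
        rw [ha, norm_zero, norm_le_zero_iff] at h4
        exact congrFun h4 i
      refine ⟨Submodule.span ℝ (range b), FiniteDimensional.span_of_finite ℝ (finite_range b),
        ?_, fun f hf x hx => ?_, fun _ => ⟨b, h1, h3, fun i => Submodule.subset_span ⟨i, rfl⟩⟩⟩
      · rw [finrank_span_eq_card hli, Fintype.card_fin]
        simp only [dm, if_pos h]
      · obtain ⟨a, rfl⟩ := (Submodule.mem_span_range_iff_exists_fun ℝ).1 hx
        simp [h2 f hf]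
    · obtain ⟨F, -, h1, h2, h3⟩ := sy_ext hE S ⊥ (fun f _ x hx => by
        rw [(Submodule.mem_bot ℝ).1 hx, map_zero]) (m := 3) (by simp)
      exact ⟨F, h1, by simp only [dm, if_neg h, h2], h3, fun h' => absurd h' h⟩
  choose Fp p1 p2 p3 p4 using pick
  have step : ∀ n (σ : {p : Submodule ℝ E × Finset (E →L[ℝ] ℝ) // FiniteDimensional ℝ p.1}),
      ∃ (σ' : {p : Submodule ℝ E × Finset (E →L[ℝ] ℝ) // FiniteDimensional ℝ p.1}) (g : E)
        (h : E →L[ℝ] ℝ), σ.1.1 ≤ σ'.1.1 ∧ Fp n σ.1.2 ≤ σ'.1.1 ∧ g ∈ σ'.1.1 ∧ σ.1.2 ⊆ σ'.1.2 ∧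
        h ∈ σ'.1.2 ∧ Nrm σ'.1.1 σ'.1.2 ∧ (∀ f ∈ σ.1.2, f g = 0) ∧ ‖g‖ ≤ 1 ∧ h g = 1 ∧
        (∀ x ∈ σ.1.1, h x = 0) ∧ ∀ x ∈ Fp n σ.1.2, h x = 0 := by
    intro n σ
    have := σ.2
    have := p1 n σ.1.2
    obtain ⟨V', S', g, h, h1, h2⟩ := sy_step hE σ.1.1 σ.1.2 (Fp n σ.1.2)
    exact ⟨⟨(V', S'), h1⟩, g, h, h2⟩
  choose nx gg hh s1 s2 s3 s4 s5 s6 s7 s8 s9 s10 s11 using step
  let σ : ℕ → {p : Submodule ℝ E × Finset (E →L[ℝ] ℝ) // FiniteDimensional ℝ p.1} :=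
    fun n => Nat.rec ⟨(⊥, ∅), inferInstanceAs (FiniteDimensional ℝ (⊥ : Submodule ℝ E))⟩
      (fun k s => nx k s) n
  let V : ℕ → Submodule ℝ E := fun n => (σ n).1.1
  let S : ℕ → Finset (E →L[ℝ] ℝ) := fun n => (σ n).1.2
  let F : ℕ → Submodule ℝ E := fun n => Fp n (S n)
  let g : ℕ → E := fun n => gg n (σ n)
  let h : ℕ → E →L[ℝ] ℝ := fun n => hh n (σ n)
  have Vm : Monotone V := monotone_nat_of_le_succ fun n => s1 n (σ n)
  have Sm : Monotone S := monotone_nat_of_le_succ fun n => s4 n (σ n)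
  have FV : ∀ n N, n < N → F n ≤ V N := fun n N hn => (s2 n (σ n)).trans (Vm hn)
  have SF : ∀ N n, N ≤ n → ∀ f ∈ S N, ∀ x ∈ F n, f x = 0 := fun N n hn f hf =>
    p3 n (S n) f (Sm hn hf)
  have hN : ∀ N, Nrm (V N) (S N) := fun N => by
    cases N with
    | zero =>
      intro x hx y _
      rw [(Submodule.mem_bot ℝ).1 hx, norm_zero]
      positivity
    | succ k => exact s6 k (σ k)
  let st : ℕ → ℕ := fun n => Nat.rec 0 (fun k s => s + (k + 1) * dm k) n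
  have sts : ∀ n, st (n + 1) = st n + (n + 1) * dm n := fun _ => rfl
  have stm : StrictMono st := strictMono_nat_of_lt_succ fun n => by
    rw [sts]
    have := three n
    exact Nat.lt_add_of_pos_right (Nat.mul_pos (Nat.succ_pos n) (by omega))
  choose bl b1 b2 using sy_blk (st := st) rfl stm
  have blu : ∀ n q, st n ≤ q → q < st (n + 1) → bl q = n := fun n q h1 h2 => by
    have h3 : n < bl q + 1 := stm.lt_iff_lt.1 (h1.trans_lt (b2 q))
    have h4 : bl q < n + 1 := stm.lt_iff_lt.1 ((b1 q).trans_lt h2)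
    omega
  have gp : ∀ n, ∃ b : ℕ → E, (∀ q, b q ∈ F n) ∧ ∀ s ⊆ Finset.Ico (st n) (st (n + 1)),
      finrank ℝ (F n) ≤ s.card → ∀ x ∈ F n,
      ∃ η : ℕ → ℝ, (∀ q, |η q| ≤ ‖x‖) ∧ x = ∑ q ∈ s, η q • b q := fun n => by
    have := p1 n (S n)
    exact sy_gp (F n) _
  choose B B1 B2 using gp
  refine ⟨⟨st, dm, F, fun q => B (bl q) q, g, h, rfl, fun n => (sts n).ge, three,
    fun n => p1 n (S n), fun n => p2 n (S n), fun n q h1 h2 => blu n q h1 h2 ▸ B1 (bl q) q,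
    fun η N N' hNN => ?_, fun c q => ?_, fun c c' => ?_, fun c => s8 c (σ c),
    fun n s hs hc x hx => ?_, fun m hm => ?_⟩⟩
  · rw [← Finset.sum_range_add_sum_Ico _ (stm.monotone hNN)]
    refine hN N _ (Submodule.sum_mem _ fun q hq => Submodule.smul_mem _ _ ?_) _ fun f hf => ?_
    · exact FV _ _ (stm.lt_iff_lt.1 ((b1 q).trans_lt (Finset.mem_range.1 hq))) (B1 _ q)
    · rw [map_sum]
      refine Finset.sum_eq_zero fun q hq => ?_
      have h3 : N < bl q + 1 := stm.lt_iff_lt.1 ((Finset.mem_Ico.1 hq).1.trans_lt (b2 q))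
      rw [map_smul, SF N (bl q) (by omega) f hf _ (B1 _ q), smul_zero]
  · rcases lt_trichotomy (bl q) c with h1 | h1 | h1
    · exact s10 c (σ c) _ (FV _ _ h1 (B1 _ q))
    · subst h1
      exact s11 _ (σ _) _ (B1 _ q)
    · exact SF (c + 1) (bl q) h1 _ (s5 c (σ c)) _ (B1 _ q)
  · rcases lt_trichotomy c' c with h1 | h1 | h1
    · rw [if_neg h1.ne']
      exact s10 c (σ c) _ (Vm (Nat.succ_le_of_lt h1) (s3 c' (σ c')))
    · subst h1
      rw [if_pos rfl]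
      exact s9 c' (σ c')
    · rw [if_neg h1.ne]
      exact s7 c' (σ c') _ (Sm (Nat.succ_le_of_lt h1) (s5 c (σ c)))
  · obtain ⟨η, h1, h2⟩ := B2 n s hs ((p2 n (S n)).trans_le hc) x hx
    refine ⟨η, h1, h2.trans (Finset.sum_congr rfl fun q hq => ?_)⟩
    have h3 := Finset.mem_Ico.1 (hs hq)
    simp only [blu n q h3.1 h3.2]
  · have h1 : ∀ j, ∃ S0 : Finset (E →L[ℝ] ℝ), ¬ As m j → ∀ b : Fin m → E, Auer b →
        (∀ f ∈ S0, ∀ i, f (b i) = 0) → τ m b ≠ j := fun j => by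
      by_cases hA : As m j
      · exact ⟨∅, fun h' => absurd hA h'⟩
      · by_contra hc
        refine hA ⟨hm, fun S0 => ?_⟩
        by_contra hd
        exact hc ⟨S0, fun _ b k1 k2 k3 => hd ⟨b, k1, k2, k3⟩⟩
    choose S0 hS0 using h1
    refine ⟨(Finset.range (K m)).biUnion S0, fun G hG hr hk => ?_⟩
    obtain ⟨b', k1, k2, k3⟩ := sy_bas G hr
    have hA : As m (τ m b') := by
      by_contra hA
      exact hS0 _ hA b' k2 (fun f hf i => hk f (Finset.mem_biUnion.2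
        ⟨_, Finset.mem_range.2 (hK m b' k2), hf⟩) _ (k1 i)) rfl
    refine ⟨range fun N => (m.pair (τ m b')).pair N,
      infinite_range_of_injective fun N N' h => (Nat.pair_eq_pair.1 h).2, ?_⟩
    rintro n ⟨N, hn⟩
    have e1 : mm n = m := by simp [mm, ← hn]
    have e2 : jj n = τ m b' := by simp [jj, ← hn]
    have e3 := p4 n (S n)
    rw [e2] at e3
    refine ⟨by simp only [dm, e1, e2, if_pos hA], ?_⟩
    subst e1
    obtain ⟨b, l1, l2, l3⟩ := e3 hA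
    let L : (Fin (mm n) → ℝ) →ₗ[ℝ] G := Fintype.linearCombination ℝ fun i => ⟨b' i, k1 i⟩
    have hL : ∀ a, (L a : E) = ∑ i, a i • b' i := fun a => by
      simp [L, Fintype.linearCombination_apply]
    obtain ⟨R, hR⟩ := L.exists_rightInverse_of_surjective (LinearMap.range_eq_top.2 fun x => by
      obtain ⟨a, ha⟩ := k3 x x.2
      exact ⟨a, Subtype.ext ((hL a).trans ha)⟩)
    refine ⟨Fintype.linearCombination ℝ b ∘ₗ R, fun x => ?_, fun x => ?_⟩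
    · rw [LinearMap.comp_apply, Fintype.linearCombination_apply]
      exact Submodule.sum_mem _ fun i _ => Submodule.smul_mem _ _ (l3 i)
    · have e4 : ‖x‖ = ‖∑ i, R x i • b' i‖ := by
        rw [← hL]
        exact congrArg norm (LinearMap.congr_fun hR x).symm
      rw [LinearMap.comp_apply, Fintype.linearCombination_apply, e4]
      exact ⟨hτ _ b' b k2 l1 l2.symm _, hτ _ b b' l1 k2 l2 _⟩

end Pool.Agent.P.MP_5aae23_gt.Nsg
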