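import Pool.Agent.P.MP_5aae23_gt.GB

open Set Filter Topology Function

namespace Pool.Agent.P.MP_5aae23_gt.Nsg

open Nsh

variable {E : Type*} [NormedAddCommGroup E] [NormedSpace ℝ E]

theorem exists_frm (hE : ¬FiniteDimensional ℝ E) : Nonempty (Frm E) := by
  obtain ⟨B⟩ := exists_blocks hE
  refine ⟨⟨B.st, B.F, B.b, B.g, B.h, strictMono_nat_of_lt_succ fun n => ?_, fun n => ?_,
    fun n => B.rk n ▸ B.room n,
    fun n q hq => B.bm n q (Finset.mem_Ico.1 hq).1 (Finset.mem_Ico.1 hq).2, B.gle, B.hb, B.hg,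
    B.mz, fun n s hs hc => B.span n s hs (B.rk n ▸ hc), fun m hm => ?_⟩⟩
  · have h1 := B.three n
    exact (Nat.lt_add_of_pos_right (Nat.mul_pos (Nat.succ_pos n) (by omega))).trans_le (B.room n)
  · have h1 := B.three n
    rw [B.rk]
    omega
  · obtain ⟨S, hS⟩ := B.big m hm
    refine ⟨S, fun G hG hk N => ?_⟩
    obtain ⟨P, h1, h2⟩ := hS G (FiniteDimensional.of_finrank_pos (by omega)) hG hk
    obtain ⟨n, hn, h3⟩ := h1.exists_gt N
    obtain ⟨h4, T, h5, h6⟩ := h2 n hn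
    refine ⟨n, h3.le, (B.rk n).trans h4, (2 : ℝ) • T, fun x => ?_⟩
    have h7 : ‖((2 : ℝ) • T) x‖ = 2 * ‖T x‖ := by
      rw [LinearMap.smul_apply, norm_smul, Real.norm_two]
    rw [h7]
    exact ⟨(B.F n).smul_mem _ (h5 x), (h6 x).1, by linarith [(h6 x).2]⟩

end Pool.Agent.P.MP_5aae23_gt.Nsg
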