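import Pool.Agent.P.MP_5aae23_gt.GDefs

open Set Filter Topology Function

namespace Pool.Agent.P.MP_5aae23_gt.Nsg

open Nsh

variable {E : Type*} [NormedAddCommGroup E] [NormedSpace ℝ E] (S : Frm E)

theorem Frm.mn_succ (η : ℕ → ℝ) (n : ℕ) : S.mn η (n + 1) = S.mn η n + S.bk η n :=
  (Finset.sum_range_add_sum_Ico _ (S.stm.monotone (Nat.le_succ n))).symm

theorem Frm.gd_add (η η' : ℕ → ℝ) (N : ℕ) : S.mn (η + η') N = S.mn η N + S.mn η' N := by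
  simp only [Frm.mn, Pi.add_apply, add_smul, Finset.sum_add_distrib]

theorem Frm.gd_smul (r : ℝ) (η : ℕ → ℝ) (N : ℕ) : S.mn (r • η) N = r • S.mn η N := by
  simp only [Frm.mn, Pi.smul_apply, smul_eq_mul, mul_smul, Finset.smul_sum]

theorem Frm.gd_sub (η η' : ℕ → ℝ) (N : ℕ) : S.mn (η - η') N = S.mn η N - S.mn η' N := by
  simp only [Frm.mn, Pi.sub_apply, sub_smul, Finset.sum_sub_distrib]

theorem Frm.gd_cont (N : ℕ) : Continuous fun η : ℕ → ℝ => S.mn η N :=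
  continuous_finsetSum _ fun q _ => (continuous_apply q).smul continuous_const

theorem Frm.conv_add {η η' : ℕ → ℝ} {μ μ' : E} (h : S.Conv η μ) (h' : S.Conv η' μ') :
    S.Conv (η + η') (μ + μ') :=
  (Tendsto.add h h').congr fun N => (S.gd_add η η' N).symm

theorem Frm.conv_smul (r : ℝ) {η : ℕ → ℝ} {μ : E} (h : S.Conv η μ) :
    S.Conv (r • η) (r • μ) :=
  (Tendsto.const_smul h r).congr fun N => (S.gd_smul r η N).symm

theorem Frm.gd_conv_sub {η η' : ℕ → ℝ} {μ μ' : E} (h : S.Conv η μ) (h' : S.Conv η' μ') :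
    S.Conv (η - η') (μ - μ') :=
  (Tendsto.sub h h').congr fun N => (S.gd_sub η η' N).symm

theorem Frm.conv_fin {η : ℕ → ℝ} {N : ℕ} (h : ∀ q, S.st N ≤ q → η q = 0) :
    S.Conv η (S.mn η N) := by
  refine tendsto_const_nhds.congr' ?_
  filter_upwards [eventually_ge_atTop N] with N' hN
  refine Finset.sum_subset (Finset.range_mono (S.stm.monotone hN)) fun q _ hq => ?_
  rw [h q (not_lt.1 fun h' => hq (Finset.mem_range.2 h')), zero_smul]

theorem Frm.mn_le {η : ℕ → ℝ} {μ : E} (h : S.Conv η μ) (N : ℕ) : ‖S.mn η N‖ ≤ 2 * ‖μ‖ := by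
  refine ge_of_tendsto ((Tendsto.norm h).const_mul 2) ?_
  filter_upwards [eventually_ge_atTop N] with N' hN using S.mz η N N' hN

theorem Frm.gd_bk (η : ℕ → ℝ) (n : ℕ) : S.bk η n = S.mn η (n + 1) - S.mn η n := by
  rw [S.mn_succ, add_sub_cancel_left]

theorem Frm.bk_le {η : ℕ → ℝ} {μ : E} (h : S.Conv η μ) (n : ℕ) : ‖S.bk η n‖ ≤ 4 * ‖μ‖ := by
  rw [S.gd_bk]
  linarith [norm_sub_le (S.mn η (n + 1)) (S.mn η n), S.mn_le h (n + 1), S.mn_le h n]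

theorem Frm.bk_zero {η : ℕ → ℝ} {μ : E} (h : S.Conv η μ) :
    Tendsto (S.bk η) atTop (𝓝 0) := by
  have := Tendsto.sub (Tendsto.comp h (tendsto_add_atTop_nat 1)) h
  rw [sub_self] at this
  exact this.congr fun n => (S.gd_bk η n).symm

theorem Frm.conv_lim {ι : Type} {F : Filter ι} [F.NeBot] {η : ι → ℕ → ℝ} {μ : ι → E}
    {η' : ℕ → ℝ} {μ' : E} (h : ∀ᶠ k in F, S.Conv (η k) (μ k)) (hη : Tendsto η F (𝓝 η'))
    (hμ : Tendsto μ F (𝓝 μ')) : S.Conv η' μ' := by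
  refine Metric.tendsto_nhds.2 fun ε hε => ?_
  obtain ⟨j, hj, hj'⟩ := (h.and (Metric.tendsto_nhds.1 hμ (ε / 4) (by positivity))).exists
  have h1 : ∀ N, ‖S.mn η' N - S.mn (η j) N‖ ≤ 2 * ‖μ' - μ j‖ := fun N => by
    refine le_of_tendsto_of_tendsto
      ((((S.gd_cont N).tendsto η').comp hη).sub_const (S.mn (η j) N)).norm
      ((hμ.sub_const (μ j)).norm.const_mul 2) ?_
    filter_upwards [h] with k hk
    have := S.mn_le (S.gd_conv_sub hk hj) N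
    rwa [S.gd_sub] at this
  filter_upwards [Metric.tendsto_nhds.1 hj (ε / 4) (by positivity)] with N hN
  have h2 := h1 N
  rw [← dist_eq_norm, ← dist_eq_norm, dist_comm μ'] at h2
  linarith [dist_triangle4 (S.mn η' N) (S.mn (η j) N) (μ j) μ']

theorem Frm.co_cont : Continuous S.co :=
  continuous_pi fun c => continuous_const.mul (S.h c).continuous

theorem Frm.gd_zero : S.Conv 0 0 := by
  have := S.conv_fin (η := 0) (N := 0) fun _ _ => rfl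
  simpa [Frm.mn] using this

theorem Frm.nu {m : ℕ} (κ : (Fin m → ℝ) →ₗ[ℝ] (ℕ → ℝ)) : ∃ ν : (Fin m → ℝ) →L[ℝ] E,
    IsClosed {t | S.Conv (κ t) (ν t)} ∧ ∀ t μ, S.Conv (κ t) μ → μ = ν t := by
  let T : Submodule ℝ (Fin m → ℝ) :=
    { carrier := {t | ∃ μ, S.Conv (κ t) μ}
      add_mem' := fun ⟨μ, h⟩ ⟨μ', h'⟩ => ⟨μ + μ', by rw [map_add]; exact S.conv_add h h'⟩
      zero_mem' := ⟨0, by rw [map_zero]; exact S.gd_zero⟩
      smul_mem' := fun r _ ⟨μ, h⟩ => ⟨r • μ, by rw [map_smul]; exact S.conv_smul r h⟩ }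
  choose f hf using fun t : T => (t.2 : ∃ μ, S.Conv (κ t) μ)
  let l : T →ₗ[ℝ] E :=
    { toFun := f
      map_add' := fun a b => tendsto_nhds_unique (hf (a + b)) (by
        have := S.conv_add (hf a) (hf b)
        rwa [← map_add] at this)
      map_smul' := fun r a => tendsto_nhds_unique (hf (r • a)) (by
        have := S.conv_smul r (hf a)
        rwa [← map_smul] at this) }
  obtain ⟨n, hn⟩ := l.exists_extend
  have e : ∀ t μ, S.Conv (κ t) μ → μ = n t := fun t μ h =>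
    (tendsto_nhds_unique h (hf ⟨t, μ, h⟩)).trans (LinearMap.congr_fun hn ⟨t, μ, h⟩).symm
  refine ⟨LinearMap.toContinuousLinearMap n, ?_, e⟩
  have e' : {t | S.Conv (κ t) (LinearMap.toContinuousLinearMap n t)} = (T : Set (Fin m → ℝ)) :=
    Set.ext fun t => ⟨fun h => ⟨_, h⟩, fun ⟨μ, h⟩ => by
      have := h
      rwa [e t μ h] at this⟩
  rw [e']
  exact T.closed_of_finiteDimensional

theorem Frm.gd_term {ξ : ℕ → ℝ} {C : ℝ} {c : ℕ} (h : |ξ c| ≤ C) :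
    ‖((1 / 2 : ℝ) ^ c * ξ c) • S.g c‖ ≤ (1 / 2 : ℝ) ^ c * C := by
  rw [norm_smul, Real.norm_eq_abs, abs_mul, abs_of_pos (by positivity : (0 : ℝ) < (1 / 2) ^ c)]
  exact (mul_le_of_le_one_right (by positivity) (S.gle c)).trans
    (mul_le_mul_of_nonneg_left h (by positivity))

theorem Frm.gd_sm_smul (r : ℝ) (ξ : ℕ → ℝ) : S.sm (r • ξ) = r • S.sm ξ := by
  rw [Frm.sm, Frm.sm, ← tsum_const_smul'']
  refine tsum_congr fun c => ?_
  rw [smul_smul, Pi.smul_apply, smul_eq_mul, mul_left_comm]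

variable [CompleteSpace E]

theorem Frm.gd_sum {ξ : ℕ → ℝ} {C : ℝ} (h : ∀ c, |ξ c| ≤ C) :
    Summable fun c => ((1 / 2 : ℝ) ^ c * ξ c) • S.g c :=
  Summable.of_norm_bounded (summable_geometric_two.mul_right C) fun c => S.gd_term (h c)

theorem Frm.sm_tendsto {ι : Type} {F : Filter ι} {ξ : ι → ℕ → ℝ} {ξ' : ℕ → ℝ} {C : ℝ}
    (hb : ∀ᶠ k in F, ∀ c, |ξ k c| ≤ C) (h : Tendsto ξ F (𝓝 ξ')) :
    Tendsto (fun k => S.sm (ξ k)) F (𝓝 (S.sm ξ')) :=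
  tendsto_tsum_of_dominated_convergence (summable_geometric_two.mul_right C)
    (fun c => ((tendsto_pi_nhds.1 h c).const_mul _).smul_const _)
    (hb.mono fun _ hk c => S.gd_term (hk c))

theorem Frm.gd_sm_add {ξ ξ' : ℕ → ℝ} {C C' : ℝ} (hb : ∀ c, |ξ c| ≤ C) (hb' : ∀ c, |ξ' c| ≤ C') :
    S.sm (ξ + ξ') = S.sm ξ + S.sm ξ' := by
  rw [Frm.sm, Frm.sm, Frm.sm, ← (S.gd_sum hb).tsum_add (S.gd_sum hb')]
  refine tsum_congr fun c => ?_
  rw [Pi.add_apply, mul_add, add_smul]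

theorem Frm.sm_near (C : ℝ) {ε : ℝ} (hε : 0 < ε) : ∃ c0, ∀ ξ ξ' : ℕ → ℝ, (∀ c, |ξ c| ≤ C) →
    (∀ c, |ξ' c| ≤ C) → (∀ c < c0, ξ c = ξ' c) → ‖S.sm ξ - S.sm ξ'‖ ≤ ε := by
  have h0 := tendsto_sum_nat_add fun c => (1 / 2 : ℝ) ^ c * (C + C)
  obtain ⟨c0, hc⟩ := (h0.eventually (eventually_le_nhds hε)).exists
  refine ⟨c0, fun ξ ξ' h h' e => ?_⟩
  have hb : ∀ c, |(ξ - ξ') c| ≤ C + C := fun c => (abs_sub _ _).trans (add_le_add (h c) (h' c))
  have e1 : S.sm ξ - S.sm ξ' = S.sm (ξ - ξ') := by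
    rw [Frm.sm, Frm.sm, Frm.sm, ← (S.gd_sum h).tsum_sub (S.gd_sum h')]
    refine tsum_congr fun c => ?_
    rw [Pi.sub_apply, mul_sub, sub_smul]
  rw [e1, Frm.sm, ← (S.gd_sum hb).sum_add_tsum_nat_add c0, Finset.sum_eq_zero fun c hc' => by
    rw [Pi.sub_apply, e c (Finset.mem_range.1 hc'), sub_self, mul_zero, zero_smul], zero_add]
  exact (tsum_of_norm_bounded
    ((summable_nat_add_iff c0).2 (summable_geometric_two.mul_right (C + C))).hasSum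
    fun c => S.gd_term (hb _)).trans hc

theorem Frm.pt_add {ξ ξ' : ℕ → ℝ} {x x' : E} {C C' : ℝ} (hb : ∀ c, |ξ c| ≤ C)
    (hb' : ∀ c, |ξ' c| ≤ C') (h : S.Pt ξ x) (h' : S.Pt ξ' x') : S.Pt (ξ + ξ') (x + x') := by
  have := S.conv_add h h'
  rw [Frm.Pt, S.gd_sm_add hb hb', add_sub_add_comm]
  exact this

theorem Frm.pt_smul (r : ℝ) {ξ : ℕ → ℝ} {x : E} (h : S.Pt ξ x) : S.Pt (r • ξ) (r • x) := by
  have := S.conv_smul r h
  rw [Frm.Pt, S.gd_sm_smul, ← smul_sub]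
  exact this

theorem Frm.pt_uniq {ξ : ℕ → ℝ} {x x' : E} (h : S.Pt ξ x) (h' : S.Pt ξ x') : x = x' :=
  sub_left_injective (tendsto_nhds_unique h h')

theorem Frm.co_eq {ξ : ℕ → ℝ} {x : E} {C : ℝ} (hb : ∀ c, |ξ c| ≤ C) (h : S.Pt ξ x) :
    S.co x = ξ := by
  funext c
  have h1 : S.h c (x - S.sm ξ) = 0 := by
    refine tendsto_nhds_unique (((S.h c).continuous.tendsto _).comp h)
      (tendsto_const_nhds.congr fun N => ?_)
    simp [Frm.mn, S.hb]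
  have h2 : S.h c (S.sm ξ) = (1 / 2 : ℝ) ^ c * ξ c := by
    rw [Frm.sm, (S.h c).map_tsum (S.gd_sum hb), tsum_eq_single c fun c' hc => by
      rw [map_smul, S.hg, if_neg hc.symm, smul_zero], map_smul, S.hg, if_pos rfl, smul_eq_mul,
      mul_one]
  rw [map_sub, sub_eq_zero, h2] at h1
  rw [Frm.co, h1, ← mul_assoc, ← mul_pow]
  norm_num

theorem Frm.pt_lim {ι : Type} {F : Filter ι} [F.NeBot] {ξ : ι → ℕ → ℝ} {x : ι → E}
    {ξ' : ℕ → ℝ} {x' : E} {C : ℝ} (h : ∀ᶠ k in F, S.Pt (ξ k) (x k) ∧ ∀ c, |ξ k c| ≤ C)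
    (hξ : Tendsto ξ F (𝓝 ξ')) (hx : Tendsto x F (𝓝 x')) : S.Pt ξ' x' :=
  S.conv_lim (η := fun k q => ξ k (ph q)) (μ := fun k => x k - S.sm (ξ k))
    (h.mono fun _ hk => hk.1) (tendsto_pi_nhds.2 fun q => tendsto_pi_nhds.1 hξ (ph q))
    (hx.sub (S.sm_tendsto (h.mono fun _ hk => hk.2) hξ))

end Pool.Agent.P.MP_5aae23_gt.Nsg
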