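import Pool.Agent.P.MP_5aae23_gt.NDefs

/-! Definitions for the construction of a rigid F-sigma subspace inside any Banach space. -/

open Set Filter Topology

namespace Pool.Agent.P.MP_5aae23_gt.Nsg

open Nsh

variable {E : Type*} [NormedAddCommGroup E] [NormedSpace ℝ E]
  {H : Type*} [NormedAddCommGroup H] [NormedSpace ℝ H]

/-- The functionals of `S` vanish on `G`. -/
def Kil (S : Finset (E →L[ℝ] ℝ)) (G : Submodule ℝ E) : Prop := ∀ φ ∈ S, ∀ x ∈ G, φ x = 0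

/-- `G` embeds into `F` with distortion at most `K`. -/
def Emk (K : ℝ) (G : Submodule ℝ E) (F : Submodule ℝ H) : Prop :=
  ∃ T : G →ₗ[ℝ] H, ∀ x, T x ∈ F ∧ ‖x‖ ≤ ‖T x‖ ∧ ‖T x‖ ≤ K * ‖x‖

/-- The asymptotic structure of `E` embeds uniformly into `H`. -/
def Asym (E : Type*) [NormedAddCommGroup E] [NormedSpace ℝ E] (H : Type*) [NormedAddCommGroup H]
    [NormedSpace ℝ H] : Prop :=
  ∃ K : ℝ, ∀ m : ℕ, ∃ S : Finset (E →L[ℝ] ℝ), ∀ G : Submodule ℝ E, FiniteDimensional ℝ G →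
    Module.finrank ℝ G ≤ m → (∀ φ ∈ S, ∀ x ∈ G, φ x = 0) →
      ∃ T : G →ₗ[ℝ] H, ∀ x, ‖x‖ ≤ ‖T x‖ ∧ ‖T x‖ ≤ K * ‖x‖

/-- Blocks of vectors in general position and a biorthogonal sequence. -/
structure Frm (E : Type*) [NormedAddCommGroup E] [NormedSpace ℝ E] where
  st : ℕ → ℕ
  F : ℕ → Submodule ℝ E
  b : ℕ → E
  g : ℕ → E
  h : ℕ → E →L[ℝ] ℝ
  stm : StrictMono st
  pos : ∀ n, 0 < Module.finrank ℝ (F n)
  card : ∀ n, st n + (n + 1) * Module.finrank ℝ (F n) ≤ st (n + 1)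
  bmem : ∀ n, ∀ q ∈ Finset.Ico (st n) (st (n + 1)), b q ∈ F n
  gle : ∀ c, ‖g c‖ ≤ 1
  hb : ∀ c q, h c (b q) = 0
  hg : ∀ c c', h c (g c') = if c = c' then 1 else 0
  mz : ∀ (η : ℕ → ℝ) (N N' : ℕ), N ≤ N' → ‖∑ q ∈ Finset.range (st N), η q • b q‖ ≤
    2 * ‖∑ q ∈ Finset.range (st N'), η q • b q‖
  spn : ∀ n, ∀ s ⊆ Finset.Ico (st n) (st (n + 1)), Module.finrank ℝ (F n) ≤ s.card →
    ∀ x ∈ F n, ∃ η : ℕ → ℝ, (∀ q, |η q| ≤ ‖x‖) ∧ x = ∑ q ∈ s, η q • b q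
  big : ∀ m, 3 ≤ m → ∃ S : Finset (E →L[ℝ] ℝ), ∀ G : Submodule ℝ E, Module.finrank ℝ G = m →
    Kil S G → ∀ N, ∃ n, N ≤ n ∧ Module.finrank ℝ (F n) = m ∧ Emk 4 G (F n)

/-- Partial sums of the main part. -/
noncomputable def Frm.mn (S : Frm E) (η : ℕ → ℝ) (N : ℕ) : E :=
  ∑ q ∈ Finset.range (S.st N), η q • S.b q

/-- One block of the main part. -/
noncomputable def Frm.bk (S : Frm E) (η : ℕ → ℝ) (n : ℕ) : E :=
  ∑ q ∈ Finset.Ico (S.st n) (S.st (n + 1)), η q • S.b q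

/-- The main part converges. -/
def Frm.Conv (S : Frm E) (η : ℕ → ℝ) (μ : E) : Prop := Tendsto (S.mn η) atTop (𝓝 μ)

/-- The small part. -/
noncomputable def Frm.sm (S : Frm E) (ξ : ℕ → ℝ) : E := ∑' c, ((1 / 2 : ℝ) ^ c * ξ c) • S.g c

/-- The coordinates of a vector. -/
noncomputable def Frm.co (S : Frm E) (x : E) : ℕ → ℝ := fun c => (2 : ℝ) ^ c * S.h c x

/-- `x` is the vector with coordinates `ξ`. -/
def Frm.Pt (S : Frm E) (ξ : ℕ → ℝ) (x : E) : Prop := S.Conv (fun q => ξ (ph q)) (x - S.sm ξ)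

/-- The subspace. -/
noncomputable def XG (S : Frm E) (d : ℕ → Om → ℝ) : Submodule ℝ E :=
  Submodule.span ℝ {x | ∃ ξ ∈ Submodule.span ℝ (ee d '' KK d), S.Pt ξ x}

/-- A stratum. -/
def YG (S : Frm E) (d : ℕ → Om → ℝ) {m : ℕ} (Tau : Set (Fin m → ℝ)) : Set E :=
  {x | S.Pt (S.co x) x ∧ ∃ t p, Rep d Tau (S.co x) t p}

/-- The closed piece of variable `v`. -/
def PG (S : Frm E) (d : ℕ → Om → ℝ) (o : Cf) (v : Fin 3) : Set E :=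
  {x | ∃ a ∈ KK d, S.Pt (ee d (slot o v a)) x}

open Classical in
/-- The point of the space given by the slots of variable `v`. -/
noncomputable def xg (S : Frm E) (d : ℕ → Om → ℝ) (o : Cf) (v : Fin 3) (a : Cf) : XG S d :=
  if h : ∃ x : XG S d, S.Pt (ee d (slot o v a)) x then h.choose else 0

/-- An embedding whose range is closed under small combinations. -/
structure Emg (X : Type*) [TopologicalSpace X] (H : Type*) [NormedAddCommGroup H]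
    [NormedSpace ℝ H] where
  f : X → H
  g : H → X
  fc : Continuous f
  gf : ∀ x, g (f x) = x
  gc : ContinuousOn g (range f)
  cvx : ∀ s : Fin 3 → ℝ, (∀ v, s v ∈ Icc (0 : ℝ) (1 / 3)) → ∀ x : Fin 3 → X,
    ∑ v, s v • f (x v) ∈ range f

/-- The coordinates of the combination of three points. -/
noncomputable def psi (S : Frm E) (d : ℕ → Om → ℝ) (h : Emg (XG S d) H) (o : Cf)
    (z : (Fin 3 → ℝ) × Cf) : ℕ → ℝ := S.co (h.g (∑ v, z.1 v • h.f (xg S d o v z.2)) : XG S d)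

/-- The constraint on the main values. -/
def Frm.cv (S : Frm E) (nb : ℕ) (δ : ℝ) : Set (Ix → ℝ) :=
  {y | ∀ v N, ‖∑ q ∈ Finset.Ico (S.st nb) (S.st N), y (q, v, 0) • S.b q‖ ≤ δ}

/-- A closed convex absorbing constraint on the main values. -/
structure Cvx (Cv : Set (Ix → ℝ)) (n0 : ℕ) : Prop where
  cls : IsClosed Cv
  cvx : Convex ℝ Cv
  dep : ∀ y ∈ Cv, ∀ y' : Ix → ℝ, (∀ q v, n0 ≤ q → y' (q, v, 0) = y (q, v, 0)) → y' ∈ Cv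
  abs : ∀ N, ∃ ε > 0, ∀ y : Ix → ℝ, (∀ q v, n0 ≤ q → |y (q, v, 0)| ≤ ε) →
    (∀ q v, N ≤ q → n0 ≤ q → y (q, v, 0) = 0) → y ∈ Cv

/-- Parameters with moving sites in `[n0, N)` and main values in `Cv`. -/
def Zg (d : ℕ → Om → ℝ) (u : Cf) (n0 : ℕ) (δ : ℝ) (lo hi : Fin 3 → ℝ) (Cv : Set (Ix → ℝ))
    (N : ℕ) : Set ((Fin 3 → ℝ) × Cf) :=
  {z | z ∈ Zf d u n0 δ lo hi N ∧ (fun β => (z.2 β).1) ∈ Cv}

/-- The local situation given by the Baire category theorem. -/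
structure Log (d : ℕ → Om → ℝ) {m : ℕ} (Tau : Set (Fin m → ℝ)) (u : Cf) (n0 : ℕ) (δ : ℝ)
    (lo hi : Fin 3 → ℝ) (Cv : Set (Ix → ℝ)) (Ψ : (Fin 3 → ℝ) × Cf → ℕ → ℝ) : Prop where
  umem : u ∈ KK d
  uzero : ∀ β : Ix, n0 ≤ β.1 → (u β).1 = 0
  dpos : 0 < δ
  dle : δ ≤ 1 / 2
  lohi : ∀ v, lo v < hi v
  cvx : Cvx Cv n0
  cont : ∀ N, ContinuousOn Ψ (Zg d u n0 δ lo hi Cv N)
  rep : ∀ N, ∀ z ∈ Zg d u n0 δ lo hi Cv N, ∃ t p, Rep d Tau (Ψ z) t p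

/-- A parameter together with representing points of its image. -/
def Stg (d : ℕ → Om → ℝ) {m : ℕ} (Tau : Set (Fin m → ℝ)) (u : Cf) (n0 : ℕ) (δ : ℝ)
    (lo hi : Fin 3 → ℝ) (Cv : Set (Ix → ℝ)) (Ψ : (Fin 3 → ℝ) × Cf → ℕ → ℝ)
    (z : (Fin 3 → ℝ) × Cf) (p : Fin m → Cf) : Prop :=
  ∃ N t, z ∈ Zg d u n0 δ lo hi Cv N ∧ Rep d Tau (Ψ z) t p

open Classical in
/-- The normal form of the main coordinates. -/
structure Nfm (d : ℕ → Om → ℝ) {m : ℕ} (Tau W : Set (Fin m → ℝ)) (u : Cf) (n0 : ℕ) (δ : ℝ)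
    (lo hi : Fin 3 → ℝ) (Cv : Set (Ix → ℝ)) (Ψ : (Fin 3 → ℝ) × Cf → ℕ → ℝ)
    (A : ℕ → Fin 3 → Finset (Fin m)) (p0 : Fin m → Cf) (yy : ℕ → Fin 3 → ℝ) : Prop where
  pm : ∀ j, p0 j ∈ KK d
  yle : ∀ n v, |yy n v| ≤ δ
  flat : ∀ n v, n0 ≤ n → ∀ s ∈ W, ∑ j ∈ A n v, s j = 0 → ∀ z p z' p',
    Stg d Tau u n0 δ lo hi Cv Ψ z p → Stg d Tau u n0 δ lo hi Cv Ψ z' p' →
    ∑ j, s j * (p j (n, v, 0)).1 = ∑ j, s j * (p' j (n, v, 0)).1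
  form : ∀ N, ∀ z ∈ Zg d u n0 δ lo hi Cv N, ∀ t p, Rep d Tau (Ψ z) t p → ∀ n, n0 ≤ n →
    Ψ z (ph n) = ∑ v, (∑ j ∈ A n v, t j) * (z.2 (n, v, 0)).1 + ∑ j, t j * ee d (p0 j) (ph n)
  mass : ∀ N, ∀ z ∈ Zg d u n0 δ lo hi Cv N, ∀ t p, Rep d Tau (Ψ z) t p → ∀ n, n0 ≤ n →
    ∀ v, (z.2 (n, v, 1)).1 = yy n v →
      ∑ j ∈ A n v, t j = ∑ j, if (p j (n, v, 1)).1 = yy n v then t j else 0

/-- The vector of main values on the sites `s`. -/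
noncomputable def yb (S : Frm E) (s : Finset ℕ) (v : Fin 3) (a : Cf) : E :=
  ∑ q ∈ s, (a (q, v, 0)).1 • S.b q

/-- Configurations moving variable `v` on the sites `s`. -/
def MG (S : Frm E) (d : ℕ → Om → ℝ) (u : Cf) (δ : ℝ) (s : Finset ℕ) (v : Fin 3) : Set Cf :=
  {a | (∀ β : Ix, β.1 ∈ s → β.2.1 = v → a β ∈ Arc d (prm β)) ∧
    (∀ β : Ix, ¬(β.1 ∈ s ∧ β.2.1 = v) → a β = u β) ∧
    (∀ q ∈ s, |(a (q, v, 0)).1| ≤ δ ∧ (a (q, v, 1)).1 = 0 ∧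
      (a (q, v, 2)).1 = -(a (q, v, 0)).1) ∧ ‖yb S s v a‖ ≤ δ}

/-- The asymptotic situation in a subset of the target space. -/
structure Asg (E : Type*) [NormedAddCommGroup E] [NormedSpace ℝ E] (H : Type*)
    [NormedAddCommGroup H] [NormedSpace ℝ H] where
  C : Set H
  lo : Fin 3 → ℝ
  hi : Fin 3 → ℝ
  δ : ℝ
  g : ℝ
  G : ℝ
  B : ℝ
  F : ℕ → Submodule ℝ E
  y : ℕ → Fin 3 → Cf → E
  M : Fin 3 → ℕ → Set Cf
  pt : Cf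
  J : Fin 3 → Cf → H
  lam : (Fin 3 → ℝ) → (Fin 3 → Cf) → Fin 3 → ℝ
  lohi : ∀ v, lo v < hi v
  sne : ∀ s ∈ Icc lo hi, ∀ v, s v ≠ 0
  dpos : 0 < δ
  gpos : 0 < g
  ycont : ∀ n v, Continuous (y n v)
  Mcpt : ∀ v n, IsCompact (M v n)
  ptm : ∀ v n, pt ∈ M v n
  pty : ∀ v n, y n v pt = 0
  ymem : ∀ v n, ∀ a ∈ M v n, y n v a ∈ F n ∧ ‖y n v a‖ ≤ δ
  yzero : ∀ v n n', n' ≠ n → ∀ a ∈ M v n, y n' v a = 0
  Mconn : ∀ v n (Q : Set E), Convex ℝ Q → IsCompact Q → Q.Nonempty →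
    (∀ x ∈ Q, x ∈ F n ∧ ‖x‖ ≤ δ) → IsConnected (M v n ∩ y n v ⁻¹' Q)
  Jle : ∀ v n, ∀ a ∈ M v n, ‖J v a‖ ≤ B
  Jcont : ∀ v n, ContinuousOn (J v) (M v n)
  lcont : ∀ (n : Fin 3 → ℕ) (v : Fin 3),
    ContinuousOn (fun z : (Fin 3 → ℝ) × (Fin 3 → Cf) => lam z.1 z.2 v)
      (Icc lo hi ×ˢ Set.pi univ fun w => M w (n w))
  lbd : ∀ s ∈ Icc lo hi, ∀ (n : Fin 3 → ℕ) (c : Fin 3 → Cf), (∀ w, c w ∈ M w (n w)) →
    ∀ v, g ≤ |lam s c v| ∧ |lam s c v| ≤ G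
  cl : ∀ (U : Ultrafilter ℕ) (s : ℕ → Fin 3 → ℝ) (n : ℕ → ℕ) (c : ℕ → Fin 3 → Cf),
    (∀ k, s k ∈ Icc lo hi) → (∀ k w, c k w ∈ M w (n k)) →
    Tendsto (fun k => ∑ v, lam (s k) (c k) v • y (n k) v (c k v)) U (𝓝 0) →
    ∃ x ∈ C, Tendsto (fun k => ∑ v, s k v • J v (c k v)) U (𝓝 x)
  cv : ∀ (U : Ultrafilter ℕ) (s : ℕ → Fin 3 → ℝ) (n : ℕ → Fin 3 → ℕ) (c : ℕ → Fin 3 → Cf)
    (n' : ℕ → ℕ) (x : H), x ∈ C → (∀ k, s k ∈ Icc lo hi) → (∀ k w, c k w ∈ M w (n k w)) →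
    Tendsto n' U atTop → Tendsto (fun k => ∑ v, s k v • J v (c k v)) U (𝓝 x) →
    Tendsto (fun k => ∑ v, lam (s k) (c k) v • y (n' k) v (c k v)) U (𝓝 0)

/-- First small radius. -/
noncomputable def Asg.d1 (A : Asg E H) : ℝ := A.δ * A.g / (4 * A.G)

/-- Second small radius. -/
noncomputable def Asg.d2 (A : Asg E H) : ℝ := A.d1 * A.g / (2 * A.G)

/-- A sequence of blocks of the same dimension with bases and the limit norm. -/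
structure Blk (A : Asg E H) (U : Ultrafilter ℕ) (m : ℕ) where
  n : ℕ → ℕ
  b : ℕ → (Fin m → ℝ) →ₗ[ℝ] E
  κ : ℝ
  N : Seminorm ℝ (Fin m → ℝ)
  free : (U : Filter ℕ) ≤ atTop
  kpos : 0 < κ
  nlim : Tendsto n U atTop
  rng : ∀ k, LinearMap.range (b k) = A.F (n k)
  low : ∀ k a, κ * ‖a‖ ≤ ‖b k a‖
  up : ∀ k a, ‖b k a‖ ≤ m * ‖a‖
  Nlim : ∀ a, Tendsto (fun k => ‖b k a‖) U (𝓝 (N a))

/-- `w` is the class of a sequence of configurations of variable `v` lying asymptotically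
over `a`. -/
def Ov {K : Type*} {A : Asg E H} {U : Ultrafilter ℕ} {m : ℕ} (D : Blk A U m)
    (Q : (ℕ → H) → K) (v : Fin 3) (a : Fin m → ℝ) (w : K) : Prop :=
  ∃ (c : ℕ → Cf) (η : ℕ → Fin m → ℝ), (∀ k, c k ∈ A.M v (D.n k) ∧
    A.y (D.n k) v (c k) = D.b k (η k) ∧ ‖D.b k (η k)‖ ≤ A.d2) ∧ Tendsto η U (𝓝 a) ∧
    w = Q fun k => A.J v (c k)

end Pool.Agent.P.MP_5aae23_gt.Nsg
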