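import Pool.Agent.P.MP_5aae23_gt.ND3

open Set Filter Topology Function

namespace Pool.Agent.P.MP_5aae23_gt.Nsh

theorem kk_compact {d : ℕ → Om → ℝ} (hd : Dfam d) : IsCompact (KK d) := by
  have h1 : IsCompact (Set.pi univ fun β : Ix => Arc d (prm β)) :=
    isCompact_univ_pi fun β => arc_compact hd _
  have h2 : IsClosed {a : Cf | ∀ n v, ∑ i, (a (n, v, i)).1 = 0} := by
    simp only [ofPred_forall]
    refine isClosed_iInter fun n => isClosed_iInter fun v => isClosed_eq ?_ continuous_const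
    exact continuous_finsetSum _ fun i _ => (continuous_apply (n, v, i)).fst
  have h3 : KK d = (Set.pi univ fun β : Ix => Arc d (prm β)) ∩
      {a : Cf | ∀ n v, ∑ i, (a (n, v, i)).1 = 0} := by
    ext a
    simp only [KK, mem_ofPred_eq, mem_inter_iff, Set.mem_pi, mem_univ, true_imp_iff]
  rw [h3]
  exact h1.inter_right h2

theorem ee_inl (d : ℕ → Om → ℝ) (a : Cf) {c n : ℕ} (h : cod c = Sum.inl n) :
    ee d a c = ∑ v, (a (n, v, 0)).1 := by
  simp only [ee, h, Sum.elim_inl]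

theorem ee_inr (d : ℕ → Om → ℝ) (a : Cf) {c : ℕ} {x : Ix × ℕ} (h : cod c = Sum.inr x) :
    ee d a c = ((c : ℝ) + 1)⁻¹ * min 1 (max 0 (-d x.2 (a x.1))) := by
  simp only [ee, h, Sum.elim_inr]

theorem ee_cont {d : ℕ → Om → ℝ} (hd : Dfam d) : Continuous (ee d) := by
  refine continuous_pi fun c => ?_
  rcases h : cod c with n | x
  · simp only [ee_inl d _ h]
    exact continuous_finsetSum _ fun v _ => (continuous_apply (n, v, (0 : Fin 3))).fst
  · simp only [ee_inr d _ h]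
    exact continuous_const.mul (continuous_const.min (continuous_const.max
      ((hd.cont x.2).comp (continuous_apply x.1)).neg))

theorem ee_ph (d : ℕ → Om → ℝ) (a : Cf) (n : ℕ) : ee d a (ph n) = ∑ v, (a (n, v, 0)).1 :=
  ee_inl d a (by simp only [ph, Equiv.apply_symm_apply])

theorem ee_small (d : ℕ → Om → ℝ) (a : Cf) (c : ℕ) (hc : ∀ n, c ≠ ph n) :
    |ee d a c| ≤ ((c : ℝ) + 1)⁻¹ := by
  rcases h : cod c with n | x
  · exact absurd (by rw [ph, ← h, Equiv.symm_apply_apply]) (hc n)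
  · rw [ee_inr d a h]
    have h0 : (0 : ℝ) ≤ ((c : ℝ) + 1)⁻¹ := by positivity
    have h1 : (0 : ℝ) ≤ min 1 (max 0 (-d x.2 (a x.1))) := le_min zero_le_one (le_max_left _ _)
    rw [abs_of_nonneg (mul_nonneg h0 h1)]
    exact mul_le_of_le_one_right h0 (min_le_left _ _)

theorem ee_le {d : ℕ → Om → ℝ} {a : Cf} (ha : a ∈ KK d) (c : ℕ) : |ee d a c| ≤ 3 := by
  by_cases hc : ∀ n, c ≠ ph n
  · refine (ee_small d a c hc).trans ?_
    have h1 : ((c : ℝ) + 1)⁻¹ ≤ 1 :=
      inv_le_one_of_one_le₀ (by have := Nat.cast_nonneg (α := ℝ) c; linarith)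
    linarith
  · obtain ⟨n, hn⟩ := not_forall.1 hc
    rw [not_not.1 hn, ee_ph, Fin.sum_univ_three]
    have h0 := abs_le.1 (ha.1 (n, 0, 0)).1
    have h1 := abs_le.1 (ha.1 (n, 1, 0)).1
    have h2 := abs_le.1 (ha.1 (n, 2, 0)).1
    rw [abs_le]
    constructor <;> linarith [h0.1, h0.2, h1.1, h1.2, h2.1, h2.2]

theorem ph_inj : Injective ph := fun _ _ h => Sum.inl_injective (cod.symm.injective h)

theorem c0_eval_cont (c : ℕ) : Continuous fun f : C0 => f c := by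
  have h : (fun f : C0 => f c) =
      (fun g : BoundedContinuousFunction ℕ ℝ => g c) ∘ ZeroAtInftyContinuousMap.toBCF := rfl
  rw [h]
  exact (continuous_eval_const c).comp ZeroAtInftyContinuousMap.isometry_toBCF.continuous

theorem c0_coe_cont : Continuous fun f : C0 => (f : ℕ → ℝ) := continuous_pi c0_eval_cont

theorem yy_closed {d : ℕ → Om → ℝ} (hd : Dfam d) {m : ℕ} {Tau : Set (Fin m → ℝ)}
    (hT : IsCompact Tau) : IsClosed (YY d Tau) := by
  have h1 : IsCompact (Tau ×ˢ Set.pi univ fun _ : Fin m => KK d) :=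
    hT.prod (isCompact_univ_pi fun _ => kk_compact hd)
  have h2 : Continuous fun z : (Fin m → ℝ) × (Fin m → Cf) => ∑ j, z.1 j • ee d (z.2 j) :=
    continuous_finsetSum _ fun j _ => ((continuous_apply j).comp continuous_fst).smul
      ((ee_cont hd).comp ((continuous_apply j).comp continuous_snd))
  have h3 : YY d Tau = (fun f : C0 => (f : ℕ → ℝ)) ⁻¹'
      ((fun z : (Fin m → ℝ) × (Fin m → Cf) => ∑ j, z.1 j • ee d (z.2 j)) ''
        (Tau ×ˢ Set.pi univ fun _ : Fin m => KK d)) := by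
    ext x
    constructor
    · rintro ⟨t, p, ht, hp, hx⟩
      exact ⟨(t, p), ⟨ht, fun j _ => hp j⟩, hx.symm⟩
    · rintro ⟨⟨t, p⟩, ⟨ht, hp⟩, hx⟩
      exact ⟨t, p, ht, fun j => hp j (mem_univ j), hx.symm⟩
  rw [h3]
  exact (h1.image h2).isClosed.preimage c0_coe_cont

theorem mem_xx {d : ℕ → Om → ℝ} {x : C0} :
    x ∈ XX d ↔ ∃ (m : ℕ) (t : Fin m → ℝ) (p : Fin m → Cf), Rep d univ x t p := by
  rw [XX, Submodule.mem_comap, Submodule.mem_span_set']
  constructor
  · rintro ⟨m, t, g, hg⟩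
    choose p hp hpe using fun j => (g j).2
    refine ⟨m, t, p, mem_univ _, hp, ?_⟩
    have hx : (x : ℕ → ℝ) = ∑ j, t j • (g j : ℕ → ℝ) := hg.symm
    rw [hx]
    exact Finset.sum_congr rfl fun j _ => by rw [hpe j]
  · rintro ⟨m, t, p, -, hp, hx⟩
    exact ⟨m, t, fun j => ⟨ee d (p j), mem_image_of_mem _ (hp j)⟩, hx.symm⟩

theorem xx_fsigma {d : ℕ → Om → ℝ} (hd : Dfam d) :
    ∃ Y : ℕ → Set C0, (∀ k, IsClosed (Y k)) ∧ ⋃ k, Y k = (XX d : Set C0) := by
  refine ⟨fun k => YY d (Metric.closedBall (0 : Fin (Nat.unpair k).1 → ℝ) (Nat.unpair k).2),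
    fun k => yy_closed hd (isCompact_closedBall _ _), ?_⟩
  ext x
  rw [mem_iUnion, SetLike.mem_coe, mem_xx]
  constructor
  · rintro ⟨k, t, p, -, hp, hx⟩
    exact ⟨_, t, p, mem_univ _, hp, hx⟩
  · rintro ⟨m, t, p, -, hp, hx⟩
    obtain ⟨R, hR⟩ := exists_nat_ge ‖t‖
    have key : ∀ q : ℕ × ℕ, q = (m, R) →
        x ∈ YY d (Metric.closedBall (0 : Fin q.1 → ℝ) q.2) := by
      rintro q rfl
      exact ⟨t, p, mem_closedBall_zero_iff.2 hR, hp, hx⟩
    exact ⟨Nat.pair m R, key _ (Nat.unpair_pair m R)⟩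

theorem cons {d : ℕ → Om → ℝ} (hd : Dfam d) {m : ℕ} {Tau : Set (Fin m → ℝ)} {x : ℕ → ℝ}
    {t t' : Fin m → ℝ} {p p' : Fin m → Cf} (h : Rep d Tau x t p) (h' : Rep d Tau x t' p')
    (β : Ix) (c : Om) : ms t (fun j => p j β) c = ms t' (fun j => p' j β) c := by
  classical
  have hfin : (((range fun j => p j β) ∪ range fun j => p' j β) \ {c}).Finite :=
    ((finite_range _).union (finite_range _)).sdiff
  have hU : (((range fun j => p j β) ∪ range fun j => p' j β) \ {c})ᶜ ∈ 𝓝 c :=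
    hfin.isClosed.isOpen_compl.mem_nhds fun hc => hc.2 rfl
  obtain ⟨k, hk, hk'⟩ := hd.sep c _ hU
  set γ : ℝ := min 1 (max 0 (-d k c)) with hγ
  have hγ0 : 0 < γ := lt_min zero_lt_one (lt_max_of_lt_right (by linarith))
  set c' : ℕ := cod.symm (Sum.inr (β, k)) with hc'
  have hcod : cod c' = Sum.inr (β, k) := by rw [hc', Equiv.apply_symm_apply]
  have hpos : (0 : ℝ) < ((c' : ℝ) + 1)⁻¹ := by positivity
  have key : ∀ (s : Fin m → ℝ) (r : Fin m → Cf),
      (∀ j, r j β ∈ (range fun j => p j β) ∪ range fun j => p' j β) →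
      (∑ j, s j • ee d (r j)) c' = ((c' : ℝ) + 1)⁻¹ * γ * ms s (fun j => r j β) c := by
    intro s r hr
    rw [Finset.sum_apply, ms, Finset.mul_sum]
    refine Finset.sum_congr rfl fun j _ => ?_
    rw [Pi.smul_apply, smul_eq_mul, ee_inr d _ hcod]
    by_cases hj : r j β = c
    · rw [if_pos hj]
      simp only [hj]
      ring
    · rw [if_neg hj]
      have h1 : ¬ d k (r j β) ≤ 0 := fun h0 => hk' _ h0 ⟨hr j, hj⟩
      have h2 : max 0 (-d k (r j β)) = 0 := max_eq_left (by linarith [not_le.1 h1])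
      simp only [h2, min_eq_right (zero_le_one' ℝ), mul_zero]
  have e1 := key t p fun j => Or.inl ⟨j, rfl⟩
  have e2 := key t' p' fun j => Or.inr ⟨j, rfl⟩
  rw [← h.2.2] at e1
  rw [← h'.2.2] at e2
  exact mul_left_cancel₀ (mul_pos hpos hγ0).ne' (e1.symm.trans e2)

theorem exists_o {d : ℕ → Om → ℝ} (hd : Dfam d) : ∃ o ∈ KK d, ∀ β, (o β).1 = 0 := by
  have h : ∀ β : Ix, ∃ x ∈ Arc d (prm β), x.1 = 0 := fun β =>
    (fib_conn hd (fun j => (prm_prime β j).ne_zero) 0 (by simp)).nonempty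
  choose o ho h0 using h
  exact ⟨o, ⟨ho, fun n v => Finset.sum_eq_zero fun i _ => h0 _⟩, h0⟩

theorem slot_mem {d : ℕ → Om → ℝ} {o a : Cf} (ho : o ∈ KK d) (ha : a ∈ KK d) (v : Fin 3) :
    slot o v a ∈ KK d := by
  refine ⟨fun β => ?_, fun n w => ?_⟩
  · by_cases h : β.2.1 = v
    · simp only [slot, if_pos h]
      exact ha.1 β
    · simp only [slot, if_neg h]
      exact ho.1 β
  · by_cases h : w = v
    · simp only [slot, if_pos h]
      exact ha.2 n w
    · simp only [slot, if_neg h]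
      exact ho.2 n w

/-- Pointwise convergence with uniformly small tails is norm convergence. -/
theorem tendsto_c0 {ι : Type} {F : Filter ι} (x : ι → C0) (x' : ℕ → ℝ) (η : ℕ → ℝ) (θ : ι → ℝ)
    [F.NeBot] (hp : ∀ c, Tendsto (fun k => x k c) F (𝓝 (x' c))) (hη : Tendsto η atTop (𝓝 0))
    (hθ : Tendsto θ F (𝓝 0)) (c0 : ℕ) (hb : ∀ k c, c0 ≤ c → |x k c| ≤ η c + θ k) :
    ∃ z : C0, (z : ℕ → ℝ) = x' ∧ Tendsto x F (𝓝 z) := by
  have h1 : ∀ c, c0 ≤ c → |x' c| ≤ η c := fun c hc => by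
    have h2 : Tendsto (fun k => η c + θ k) F (𝓝 (η c + 0)) := tendsto_const_nhds.add hθ
    have h3 := le_of_tendsto_of_tendsto' (hp c).abs h2 fun k => hb k c hc
    rwa [add_zero] at h3
  have h4 : Tendsto x' (cocompact ℕ) (𝓝 0) := by
    rw [cocompact_eq_cofinite, Nat.cofinite_eq_atTop]
    refine squeeze_zero_norm' ?_ hη
    filter_upwards [eventually_ge_atTop c0] with c hc
    exact h1 c hc
  refine ⟨⟨⟨x', continuous_of_discreteTopology⟩, h4⟩, rfl, ?_⟩
  rw [Metric.tendsto_nhds]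
  intro ε hε
  obtain ⟨c1, hc1⟩ := eventually_atTop.1
    ((hη.eventually (gt_mem_nhds (show (0 : ℝ) < ε / 4 by linarith))).and (eventually_ge_atTop c0))
  have h5 : ∀ᶠ k in F, ∀ c ∈ Finset.range c1, dist (x k c) (x' c) < 3 * ε / 4 :=
    (eventually_all_finset _).2 fun c _ => Metric.tendsto_nhds.1 (hp c) _ (by linarith)
  filter_upwards [h5, hθ.eventually (gt_mem_nhds (show (0 : ℝ) < ε / 4 by linarith))]
    with k hk hk'
  rw [← ZeroAtInftyContinuousMap.dist_toBCF_eq_dist]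
  refine lt_of_le_of_lt ((BoundedContinuousFunction.dist_le
    (show (0 : ℝ) ≤ 3 * ε / 4 by linarith)).2 fun c => ?_) (by linarith)
  change dist (x k c) (x' c) ≤ 3 * ε / 4
  by_cases hc : c < c1
  · exact (hk c (Finset.mem_range.2 hc)).le
  · obtain ⟨h6, h7⟩ := hc1 c (not_lt.1 hc)
    have h8 := abs_le.1 (hb k c h7)
    have h9 := abs_le.1 (h1 c h7)
    rw [Real.dist_eq, abs_le]
    constructor <;> linarith [h8.1, h8.2, h9.1, h9.2]

end Pool.Agent.P.MP_5aae23_gt.Nsh
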