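import Pool.Agent.P.MP_5aae23_gt.NF
import Pool.Agent.P.MP_5aae23_gt.NG

open Set Filter Topology Function

namespace Pool.Agent.P.MP_5aae23_gt.Nsh

/-- The site read by coordinate `c`. -/
noncomputable def nkSite (c : ℕ) : ℕ := Sum.elim id (fun x : Ix × ℕ => x.1.1) (cod c)

theorem nk_site_ph (n : ℕ) : nkSite (ph n) = n := by simp [nkSite, ph]

theorem nk_ee_congr (d : ℕ → Om → ℝ) {a a' : Cf} {c : ℕ}
    (h : ∀ β : Ix, β.1 = nkSite c → a β = a' β) : ee d a c = ee d a' c := by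
  unfold ee
  unfold nkSite at h
  rcases hc : cod c with n | x
  · rw [hc] at h
    simp only [Sum.elim_inl]
    exact Finset.sum_congr rfl fun v _ => by rw [h (n, v, 0) rfl]
  · rw [hc] at h
    simp only [Sum.elim_inr]
    rw [h x.1 rfl]

theorem nk_tail (d : ℕ → Om → ℝ) (M : ℕ) : ∃ c0 : ℕ, ∀ a : Cf,
    (∀ n, M ≤ n → ∑ v, (a (n, v, 0)).1 = 0) → ∀ c, c0 ≤ c → |ee d a c| ≤ ((c : ℝ) + 1)⁻¹ := by
  refine ⟨(Finset.range M).sup ph + 1, fun a ha c hc => ?_⟩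
  by_cases h : ∃ n, c = ph n
  · obtain ⟨n, rfl⟩ := h
    have hn : M ≤ n := by
      by_contra hlt
      have : ph n ≤ (Finset.range M).sup ph :=
        Finset.le_sup (Finset.mem_range.2 (not_le.1 hlt))
      omega
    rw [ee_ph, ha n hn, abs_zero]
    positivity
  · exact ee_small d a c fun n hn => h ⟨n, hn⟩

theorem nk_inv_tendsto : Tendsto (fun c : ℕ => ((c : ℝ) + 1)⁻¹) atTop (𝓝 0) := by
  simpa using tendsto_one_div_add_atTop_nhds_zero_nat (𝕜 := ℝ)

theorem nk_exC0 (d : ℕ → Om → ℝ) (M : ℕ) (a : Cf)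
    (ha : ∀ n, M ≤ n → ∑ v, (a (n, v, 0)).1 = 0) : ∃ x : C0, (x : ℕ → ℝ) = ee d a := by
  obtain ⟨c0, h0⟩ := nk_tail d M
  have ht : Tendsto (ee d a) atTop (𝓝 0) := by
    refine squeeze_zero_norm' ?_ nk_inv_tendsto
    filter_upwards [eventually_ge_atTop c0] with c hc
    exact h0 a ha c hc
  refine ⟨⟨⟨ee d a, continuous_of_discreteTopology⟩, ?_⟩, rfl⟩
  rw [cocompact_eq_atTop]
  exact ht

theorem nk_slot_sum {o : Cf} (ho0 : ∀ β, (o β).1 = 0) (v : Fin 3) (a : Cf) (n : ℕ) :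
    ∑ w, (slot o v a (n, w, 0)).1 = (a (n, v, 0)).1 := by
  rw [Finset.sum_eq_single v]
  · simp [slot]
  · intro w _ hw
    simp [slot, hw, ho0]
  · simp

theorem nk_slot_cont (o : Cf) (v : Fin 3) : Continuous (slot o v) := by
  refine continuous_pi fun β => ?_
  by_cases h : β.2.1 = v
  · simp only [slot, if_pos h]
    exact continuous_apply β
  · simp only [slot, if_neg h]
    exact continuous_const

theorem nk_mem {d : ℕ → Om → ℝ} {a : Cf} (ha : a ∈ KK d) {x : C0}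
    (hx : (x : ℕ → ℝ) = ee d a) : x ∈ XX d := by
  change coeL x ∈ Submodule.span ℝ (ee d '' KK d)
  exact Submodule.subset_span ⟨a, ha, hx.symm⟩

theorem nk_xv {d : ℕ → Om → ℝ} {o a : Cf} (ho : o ∈ KK d) (ho0 : ∀ β, (o β).1 = 0)
    (ha : a ∈ KK d) (v : Fin 3) (M : ℕ) (hM : ∀ n, M ≤ n → (a (n, v, 0)).1 = 0) :
    ((xv d o v a : C0) : ℕ → ℝ) = ee d (slot o v a) := by
  obtain ⟨x, hx⟩ := nk_exC0 d M (slot o v a) fun n hn => by rw [nk_slot_sum ho0, hM n hn]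
  have h : ∃ x : XX d, ((x : C0) : ℕ → ℝ) = ee d (slot o v a) :=
    ⟨⟨x, nk_mem (slot_mem ho ha v) hx⟩, hx⟩
  unfold xv
  rw [dif_pos h]
  exact h.choose_spec

theorem nk_coe_cont : Continuous fun x : C0 => (x : ℕ → ℝ) := by
  refine continuous_pi fun c => ?_
  have h1 : Continuous fun x : C0 => x.toBCF :=
    ZeroAtInftyContinuousMap.isometry_toBCF.continuous
  have h2 : Continuous fun f : BoundedContinuousFunction ℕ ℝ => f c := continuous_eval_const c
  exact h2.comp h1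

/-- The closed pieces. -/
def nkP (d : ℕ → Om → ℝ) (o : Cf) (v : Fin 3) : Set C0 :=
  {x | (x : ℕ → ℝ) ∈ (fun a => ee d (slot o v a)) '' KK d}

theorem nkP_closed {d : ℕ → Om → ℝ} (hd : Dfam d) (o : Cf) (v : Fin 3) :
    IsClosed (nkP d o v) :=
  (((kk_compact hd).image ((ee_cont hd).comp (nk_slot_cont o v))).isClosed).preimage nk_coe_cont

theorem nkP_sub {d : ℕ → Om → ℝ} {o : Cf} (ho : o ∈ KK d) {v : Fin 3} {x : C0}
    (hx : x ∈ nkP d o v) : x ∈ XX d := by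
  obtain ⟨a, ha, e⟩ := hx
  exact nk_mem (slot_mem ho ha v) e.symm

theorem nk_dist {x y : C0} {r : ℝ} (hr : 0 ≤ r) (h : ∀ c, |x c - y c| ≤ r) : dist x y ≤ r := by
  rw [← ZeroAtInftyContinuousMap.dist_toBCF_eq_dist]
  exact (BoundedContinuousFunction.dist_le hr).2 fun c => by
    rw [Real.dist_eq]
    exact h c

theorem nk_xv_cont {d : ℕ → Om → ℝ} (hd : Dfam d) {o : Cf} (ho : o ∈ KK d)
    (ho0 : ∀ β, (o β).1 = 0) (v : Fin 3) (M : ℕ) (Z : Set ((Fin 3 → ℝ) × Cf))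
    (hZ : ∀ z ∈ Z, z.2 ∈ KK d ∧ ∀ n, M ≤ n → (z.2 (n, v, 0)).1 = 0) :
    ContinuousOn (fun z : (Fin 3 → ℝ) × Cf => xv d o v z.2) Z := by
  rw [continuousOn_iff_continuous_domRestrict]
  refine continuous_induced_rng.2 (continuous_iff_continuousAt.2 fun z => ?_)
  obtain ⟨c0, h0⟩ := nk_tail d M
  have he : ∀ k : Z, ((xv d o v k.1.2 : C0) : ℕ → ℝ) = ee d (slot o v k.1.2) := fun k =>
    nk_xv ho ho0 (hZ _ k.2).1 v M (hZ _ k.2).2
  have hc : Continuous fun k : Z => ee d (slot o v k.1.2) :=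
    (ee_cont hd).comp ((nk_slot_cont o v).comp (continuous_snd.comp continuous_subtype_val))
  obtain ⟨y, hy, ht⟩ := tendsto_c0 (F := 𝓝 z) (fun k : Z => (xv d o v k.1.2 : C0))
    (ee d (slot o v z.1.2)) (fun c => ((c : ℝ) + 1)⁻¹) (fun _ => 0)
    (fun c => by
      simp only [he]
      exact ((continuous_apply c).comp hc).tendsto z)
    nk_inv_tendsto tendsto_const_nhds c0
    (fun k c hc => by
      rw [he, add_zero]
      exact h0 _ (fun n hn => by rw [nk_slot_sum ho0, (hZ _ k.2).2 n hn]) c hc)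
  have : y = (xv d o v z.1.2 : C0) := DFunLike.coe_injective (hy.trans (he z).symm)
  rw [this] at ht
  exact ht

/-- The Baire step: a ball of parameters is mapped into one stratum. -/
theorem nk_ball {d : ℕ → Om → ℝ} (hd : Dfam d) {H : Type*} [NormedAddCommGroup H]
    [NormedSpace ℝ H] (h : XX d ≃ₜ H) {o : Cf} (ho : o ∈ KK d) (ho0 : ∀ β, (o β).1 = 0) :
    ∃ (m : ℕ) (Tau W : Set (Fin m → ℝ)) (g G : ℝ) (s0 : Fin 3 → ℝ) (x0 : Fin 3 → C0) (ε B : ℝ),
      Good Tau W g G ∧ 0 < ε ∧ (∀ v, x0 v ∈ nkP d o v) ∧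
      ∀ (s : Fin 3 → ℝ) (x : Fin 3 → XX d), (∀ v, (x v : C0) ∈ nkP d o v) →
        (∀ v, dist (s v) (s0 v) < ε) → (∀ v, dist (x v : C0) (x0 v) < ε) →
        ((h.symm (∑ v, s v • h (x v)) : XX d) : C0) ∈ YY d Tau ∧ ∀ v, ‖h (x v)‖ ≤ B := by
  choose 𝒯 hTc hTg hTu using exists_strata
  let S : Set ((Fin 3 → ℝ) × (Fin 3 → C0)) := {w | ∀ v, w.2 v ∈ nkP d o v}
  have hS : IsClosed S := by
    simp only [S, ofPred_forall]
    exact isClosed_iInter fun v =>
      (nkP_closed hd o v).preimage ((continuous_apply v).comp continuous_snd)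
  have : CompleteSpace S := hS.completeSpace_coe
  have : Nonempty S := by
    obtain ⟨x, hx⟩ := nk_exC0 d 0 o fun n _ => by simp [ho0]
    refine ⟨⟨(0, fun _ => x), fun v => ⟨o, ho, ?_⟩⟩⟩
    have : slot o v o = o := by
      funext β
      simp [slot]
    simp only [this]
    exact hx.symm
  let X : Fin 3 → S → XX d := fun v w => ⟨w.1.2 v, nkP_sub ho (w.2 v)⟩
  have hX : ∀ v, Continuous (X v) := fun v =>
    (((continuous_apply v).comp continuous_snd).comp continuous_subtype_val).subtype_mk _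
  let Φ : S → C0 := fun w => ((h.symm (∑ v, w.1.1 v • h (X v w)) : XX d) : C0)
  have hΦ : Continuous Φ := by
    refine continuous_subtype_val.comp (h.symm.continuous.comp ?_)
    refine continuous_finsetSum _ fun v _ => Continuous.smul ?_ (h.continuous.comp (hX v))
    exact ((continuous_apply v).comp continuous_fst).comp continuous_subtype_val
  have : ∀ m, Countable (𝒯 m) := fun m => (hTc m).to_subtype
  obtain ⟨⟨m, Tau, hTau⟩, w0, hw0⟩ := nonempty_interior_of_iUnion_of_closed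
    (f := fun i : Σ m, 𝒯 m => Φ ⁻¹' YY d (i.2 : Set (Fin i.1 → ℝ)))
    (fun i => by
      obtain ⟨W, g, G, hG⟩ := hTg i.1 i.2 i.2.2
      exact (yy_closed hd hG.cpt).preimage hΦ)
    (by
      refine eq_univ_of_forall fun w => ?_
      have hm : Φ w ∈ XX d := (h.symm (∑ v, w.1.1 v • h (X v w))).2
      obtain ⟨m, t, p, -, hp, e⟩ := mem_xx.1 hm
      obtain ⟨Tau, hT, ht⟩ := hTu m t
      exact mem_iUnion.2 ⟨⟨m, Tau, hT⟩, t, p, ht, hp, e⟩)
  obtain ⟨W, g, G, hG⟩ := hTg m Tau hTau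
  have hN : Continuous fun w : S => ∑ v, ‖h (X v w)‖ :=
    continuous_finsetSum _ fun v _ => (h.continuous.comp (hX v)).norm
  have h1 : Φ ⁻¹' YY d Tau ∩ {w | ∑ v, ‖h (X v w)‖ < ∑ v, ‖h (X v w0)‖ + 1} ∈ 𝓝 w0 :=
    inter_mem (mem_interior_iff_mem_nhds.1 hw0)
      ((isOpen_lt hN continuous_const).mem_nhds (by simp))
  obtain ⟨ε, hε, hb⟩ := Metric.mem_nhds_iff.1 h1
  refine ⟨m, Tau, W, g, G, w0.1.1, w0.1.2, ε, ∑ v, ‖h (X v w0)‖ + 1, hG, hε, w0.2,
    fun s x hx hs hxd => ?_⟩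
  have hw : (⟨(s, fun v => (x v : C0)), hx⟩ : S) ∈ Metric.ball w0 ε := by
    rw [Metric.mem_ball, Subtype.dist_eq, Prod.dist_eq, max_lt_iff]
    exact ⟨(dist_pi_lt_iff hε).2 hs, (dist_pi_lt_iff hε).2 hxd⟩
  obtain ⟨h2, h3⟩ := hb hw
  refine ⟨h2, fun v => le_trans ?_ (le_of_lt h3)⟩
  exact Finset.single_le_sum (f := fun v => ‖h (x v)‖) (fun _ _ => norm_nonneg _)
    (Finset.mem_univ v)

theorem baire {d : ℕ → Om → ℝ} (hd : Dfam d) {H : Type*} [NormedAddCommGroup H]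
    [NormedSpace ℝ H] (h : XX d ≃ₜ H) {o : Cf} (ho : o ∈ KK d) (ho0 : ∀ β, (o β).1 = 0) :
    ∃ (m : ℕ) (Tau W : Set (Fin m → ℝ)) (g G : ℝ) (u : Cf) (n0 : ℕ) (δ : ℝ) (lo hi : Fin 3 → ℝ)
      (B : ℝ), Good Tau W g G ∧
      Loc d Tau u n0 δ lo hi
        (fun z => ((h.symm (∑ v, z.1 v • h (xv d o v z.2)) : C0) : ℕ → ℝ)) ∧
      (∀ s ∈ Icc lo hi, ∀ v, s v ≠ 0) ∧
      ∀ N, ∀ z ∈ Zf d u n0 δ lo hi N, ∀ v,
        ((xv d o v z.2 : C0) : ℕ → ℝ) = ee d (slot o v z.2) ∧ ‖h (xv d o v z.2)‖ ≤ B := by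
  obtain ⟨m, Tau, W, g, G, s0, x0, ε, B, hG, hε, hx0, hb⟩ := nk_ball hd h ho ho0
  choose a ha hae using hx0
  have hε4 : 0 < ε / 4 := by positivity
  have hev : ∀ᶠ c : ℕ in atTop, ((c : ℝ) + 1)⁻¹ < ε / 4 ∧ ∀ v, |x0 v c| < ε / 4 := by
    refine (nk_inv_tendsto.eventually (gt_mem_nhds hε4)).and (eventually_all.2 fun v => ?_)
    have ht : Tendsto (x0 v) atTop (𝓝 0) := by
      have := (x0 v).zero_at_infty'
      rw [cocompact_eq_atTop] at this
      exact this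
    have := ht.abs
    rw [abs_zero] at this
    exact this.eventually (gt_mem_nhds hε4)
  obtain ⟨c0, hc0⟩ := eventually_atTop.1 hev
  let n0 : ℕ := (Finset.range c0).sup nkSite + 1
  have hn0 : ∀ c, n0 ≤ nkSite c → c0 ≤ c := fun c hc => by
    by_contra hlt
    have : nkSite c ≤ (Finset.range c0).sup nkSite :=
      Finset.le_sup (Finset.mem_range.2 (not_le.1 hlt))
    omega
  let u : Cf := fun β => if β.1 < n0 then a β.2.1 β else o β
  let δ : ℝ := min (1 / 2) (ε / 4)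
  let lo : Fin 3 → ℝ := fun v => if 0 ≤ s0 v then s0 v + ε / 4 else s0 v - ε / 2
  let hi : Fin 3 → ℝ := fun v => if 0 ≤ s0 v then s0 v + ε / 2 else s0 v - ε / 4
  have hu0 : ∀ β : Ix, n0 ≤ β.1 → (u β).1 = 0 := fun β hβ => by
    simp only [u, if_neg (not_lt.2 hβ), ho0]
  have hs : ∀ s ∈ Icc lo hi, ∀ v, s v ≠ 0 ∧ dist (s v) (s0 v) < ε := fun s hs v => by
    have h1 := hs.1 v
    have h2 := hs.2 v
    simp only [lo, hi] at h1 h2
    rw [Real.dist_eq, abs_lt]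
    split_ifs at h1 h2 with h0
    · exact ⟨by linarith, by linarith, by linarith⟩
    · exact ⟨by linarith [not_le.1 h0], by linarith, by linarith⟩
  have hz : ∀ N v, ∀ z ∈ Zf d u n0 δ lo hi N,
      z.2 ∈ KK d ∧ ∀ n, max N n0 ≤ n → (z.2 (n, v, 0)).1 = 0 := fun N v z hz =>
    ⟨hz.2.1, fun n hn => by
      rw [hz.2.2.1 (n, v, 0) (Or.inr (le_trans (le_max_left _ _) hn))]
      exact hu0 _ (le_trans (le_max_right _ _) hn)⟩
  have he : ∀ N, ∀ z ∈ Zf d u n0 δ lo hi N, ∀ v,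
      ((xv d o v z.2 : C0) : ℕ → ℝ) = ee d (slot o v z.2) := fun N z hzz v =>
    nk_xv ho ho0 hzz.2.1 v _ (hz N v z hzz).2
  have hin : ∀ N, ∀ z ∈ Zf d u n0 δ lo hi N,
      ((h.symm (∑ v, z.1 v • h (xv d o v z.2)) : XX d) : C0) ∈ YY d Tau ∧
        ∀ v, ‖h (xv d o v z.2)‖ ≤ B := fun N z hzz => by
    refine hb z.1 (fun v => xv d o v z.2) (fun v => ⟨z.2, hzz.2.1, (he N z hzz v).symm⟩)
      (fun v => (hs _ hzz.1 v).2) fun v => ?_
    refine lt_of_le_of_lt (nk_dist (r := ε / 2) (by positivity) fun c => ?_) (by linarith)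
    rw [he N z hzz v]
    by_cases hc : nkSite c < n0
    · have e : ee d (slot o v z.2) c = x0 v c := by
        rw [← congrFun (hae v) c]
        refine nk_ee_congr d fun β hβ => ?_
        have hβ' : β.1 < n0 := hβ ▸ hc
        unfold slot
        split_ifs with hv
        · rw [hzz.2.2.1 β (Or.inl hβ')]
          simp only [u, if_pos hβ', hv]
        · rfl
      rw [e, sub_self, abs_zero]
      positivity
    · obtain ⟨h1, h2⟩ := hc0 c (hn0 c (not_lt.1 hc))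
      have h3 : |ee d (slot o v z.2) c| ≤ ε / 4 := by
        by_cases hp : ∃ n, c = ph n
        · obtain ⟨n, rfl⟩ := hp
          rw [nk_site_ph] at hc
          rw [ee_ph, nk_slot_sum ho0]
          exact (hzz.2.2.2 n v (not_lt.1 hc)).1.trans (min_le_right _ _)
        · exact (ee_small d _ c fun n hn => hp ⟨n, hn⟩).trans h1.le
      have h4 := abs_sub (ee d (slot o v z.2) c) (x0 v c)
      linarith [h2 v]
  refine ⟨m, Tau, W, g, G, u, n0, δ, lo, hi, B, hG,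
    ⟨⟨fun β => ?_, fun n v => ?_⟩, hu0, lt_min (by norm_num) hε4, min_le_left _ _, fun v => ?_,
      fun N => ?_, fun N z hzz => (hin N z hzz).1⟩,
    fun s hs' v => (hs s hs' v).1, fun N z hzz v => ⟨he N z hzz v, (hin N z hzz).2 v⟩⟩
  · simp only [u]
    split_ifs
    · exact (ha _).1 β
    · exact ho.1 β
  · simp only [u]
    split_ifs
    · exact (ha v).2 n v
    · exact ho.2 n v
  · simp only [lo, hi]
    split_ifs <;> linarith
  · refine (nk_coe_cont.comp (continuous_subtype_val.comp h.symm.continuous)).comp_continuousOn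
      (continuousOn_finsetSum _ fun v _ => ContinuousOn.smul ?_ ?_)
    · exact ((continuous_apply v).comp continuous_fst).continuousOn
    · exact h.continuous.comp_continuousOn (nk_xv_cont hd ho ho0 v _ _ (hz N v))

end Pool.Agent.P.MP_5aae23_gt.Nsh
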