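import Pool.Agent.P.MP_5aae23_gt.GD
import Pool.Agent.P.MP_5aae23_gt.NK
import Pool.Agent.P.MP_5aae23_gt.NLa
import Pool.Agent.P.MP_5aae23_gt.NLb

open Set Filter Topology Function

namespace Pool.Agent.P.MP_5aae23_gt.Nsg

open Nsh

variable {E : Type*} [NormedAddCommGroup E] [NormedSpace ℝ E] [CompleteSpace E] (S : Frm E)
  {d : ℕ → Om → ℝ}

theorem ge_sum_le {m : ℕ} (t : Fin m → ℝ) {p : Fin m → Cf} (hp : ∀ j, p j ∈ KK d) (c : ℕ) :
    |(∑ j, t j • ee d (p j)) c| ≤ m * (‖t‖ * 3) := by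
  rw [Finset.sum_apply]
  refine (Finset.abs_sum_le_sum_abs _ _).trans ?_
  calc ∑ j, |(t j • ee d (p j)) c| ≤ ∑ _j : Fin m, ‖t‖ * 3 := Finset.sum_le_sum fun j _ => by
        rw [Pi.smul_apply, smul_eq_mul, abs_mul]
        exact mul_le_mul (norm_le_pi_norm t j) (ee_le (hp j) c) (abs_nonneg _) (norm_nonneg _)
    _ = _ := by simp

theorem rep_bd {m : ℕ} {Tau : Set (Fin m → ℝ)} (hT : IsCompact Tau) :
    ∃ C : ℝ, ∀ x t p, Rep d Tau x t p → ∀ c, |x c| ≤ C := by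
  obtain ⟨R, hR⟩ := hT.isBounded.exists_norm_le
  refine ⟨m * (R * 3), fun x t p h c => ?_⟩
  rw [h.2.2]
  refine (ge_sum_le t h.2.1 c).trans ?_
  have := hR t h.1
  gcongr

theorem ge_span {ξ : ℕ → ℝ} : ξ ∈ Submodule.span ℝ (ee d '' KK d) ↔
    ∃ (m : ℕ) (t : Fin m → ℝ) (p : Fin m → Cf), Rep d univ ξ t p := by
  rw [Submodule.mem_span_set']
  constructor
  · rintro ⟨m, t, g, hg⟩
    choose p hp hpe using fun j => (g j).2
    refine ⟨m, t, p, mem_univ _, hp, ?_⟩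
    rw [← hg]
    exact Finset.sum_congr rfl fun j _ => by rw [hpe j]
  · rintro ⟨m, t, p, -, hp, hx⟩
    exact ⟨m, t, fun j => ⟨ee d (p j), mem_image_of_mem _ (hp j)⟩, hx.symm⟩

theorem ge_span_bd {ξ : ℕ → ℝ} (h : ξ ∈ Submodule.span ℝ (ee d '' KK d)) :
    ∃ C : ℝ, ∀ c, |ξ c| ≤ C := by
  obtain ⟨m, t, p, -, hp, hx⟩ := ge_span.1 h
  exact ⟨_, fun c => hx ▸ ge_sum_le t hp c⟩

theorem mem_xg {x : E} : x ∈ XG S d ↔ S.Pt (S.co x) x ∧
    ∃ (m : ℕ) (t : Fin m → ℝ) (p : Fin m → Cf), Rep d univ (S.co x) t p := by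
  constructor
  · intro hx
    have h1 : ∃ ξ ∈ Submodule.span ℝ (ee d '' KK d), S.Pt ξ x := by
      unfold XG at hx
      induction hx using Submodule.span_induction with
      | mem x hx => exact hx
      | zero =>
        refine ⟨0, Submodule.zero_mem _, ?_⟩
        have h2 : S.sm 0 = 0 := by simp [Frm.sm]
        have h3 : S.mn (fun q => (0 : ℕ → ℝ) (ph q)) = fun _ => 0 := by
          funext N
          simp [Frm.mn]
        unfold Frm.Pt Frm.Conv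
        rw [h2, h3, sub_zero]
        exact tendsto_const_nhds
      | add x y _ _ hx hy =>
        obtain ⟨ξ, h1, h2⟩ := hx
        obtain ⟨ξ', h1', h2'⟩ := hy
        obtain ⟨C, hC⟩ := ge_span_bd h1
        obtain ⟨C', hC'⟩ := ge_span_bd h1'
        exact ⟨ξ + ξ', Submodule.add_mem _ h1 h1', S.pt_add hC hC' h2 h2'⟩
      | smul r x _ hx =>
        obtain ⟨ξ, h1, h2⟩ := hx
        exact ⟨r • ξ, Submodule.smul_mem _ r h1, S.pt_smul r h2⟩
    obtain ⟨ξ, h2, h3⟩ := h1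
    obtain ⟨C, hC⟩ := ge_span_bd h2
    rw [S.co_eq hC h3]
    exact ⟨h3, ge_span.1 h2⟩
  · rintro ⟨h1, h2⟩
    exact Submodule.subset_span ⟨S.co x, ge_span.2 h2, h1⟩

/-- Vectors with coordinates in a closed bounded set form a closed set. -/
theorem ge_closed {K : Set (ℕ → ℝ)} (hK : IsClosed K) {C : ℝ} (hC : ∀ ξ ∈ K, ∀ c, |ξ c| ≤ C) :
    IsClosed {x : E | S.Pt (S.co x) x ∧ S.co x ∈ K} := by
  refine IsSeqClosed.isClosed fun x y hx hy => ?_
  have h1 : Tendsto (fun k => S.co (x k)) atTop (𝓝 (S.co y)) := (S.co_cont.tendsto y).comp hy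
  exact ⟨S.pt_lim (Eventually.of_forall fun k => ⟨(hx k).1, hC _ (hx k).2⟩) h1 hy,
    hK.mem_of_tendsto h1 (Eventually.of_forall fun k => (hx k).2)⟩

theorem yg_closed (hd : Dfam d) {m : ℕ} {Tau : Set (Fin m → ℝ)} (hT : IsCompact Tau) :
    IsClosed (YG S d Tau) := by
  have h1 : IsCompact (Tau ×ˢ Set.pi univ fun _ : Fin m => KK d) :=
    hT.prod (isCompact_univ_pi fun _ => kk_compact hd)
  have h2 : Continuous fun z : (Fin m → ℝ) × (Fin m → Cf) => ∑ j, z.1 j • ee d (z.2 j) :=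
    continuous_finsetSum _ fun j _ => ((continuous_apply j).comp continuous_fst).smul
      ((ee_cont hd).comp ((continuous_apply j).comp continuous_snd))
  have h3 : {ξ : ℕ → ℝ | ∃ t p, Rep d Tau ξ t p} =
      (fun z : (Fin m → ℝ) × (Fin m → Cf) => ∑ j, z.1 j • ee d (z.2 j)) ''
        (Tau ×ˢ Set.pi univ fun _ : Fin m => KK d) := by
    ext x
    constructor
    · rintro ⟨t, p, ht, hp, hx⟩
      exact ⟨(t, p), ⟨ht, fun j _ => hp j⟩, hx.symm⟩
    · rintro ⟨⟨t, p⟩, ⟨ht, hp⟩, hx⟩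
      exact ⟨t, p, ht, fun j => hp j (mem_univ j), hx.symm⟩
  obtain ⟨C, hC⟩ := rep_bd (d := d) hT
  refine ge_closed S (K := {ξ : ℕ → ℝ | ∃ t p, Rep d Tau ξ t p}) (C := C) ?_ ?_
  · rw [h3]
    exact (h1.image h2).isClosed
  · rintro ξ ⟨t, p, h⟩
    exact hC ξ t p h

theorem xg_fsigma (hd : Dfam d) :
    ∃ Y : ℕ → Set E, (∀ k, IsClosed (Y k)) ∧ ⋃ k, Y k = (XG S d : Set E) := by
  refine ⟨fun k => YG S d (Metric.closedBall (0 : Fin (Nat.unpair k).1 → ℝ) (Nat.unpair k).2),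
    fun k => yg_closed S hd (isCompact_closedBall _ _), ?_⟩
  ext x
  rw [mem_iUnion, SetLike.mem_coe, mem_xg]
  constructor
  · rintro ⟨k, h0, t, p, -, hp, hx⟩
    exact ⟨h0, _, t, p, mem_univ _, hp, hx⟩
  · rintro ⟨h0, m, t, p, -, hp, hx⟩
    obtain ⟨R, hR⟩ := exists_nat_ge ‖t‖
    have key : ∀ q : ℕ × ℕ, q = (m, R) →
        x ∈ YG S d (Metric.closedBall (0 : Fin q.1 → ℝ) q.2) := by
      rintro q rfl
      exact ⟨h0, t, p, mem_closedBall_zero_iff.2 hR, hp, hx⟩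
    exact ⟨Nat.pair m R, key _ (Nat.unpair_pair m R)⟩

theorem pg_closed (hd : Dfam d) {o : Cf} (ho : o ∈ KK d) (v : Fin 3) :
    IsClosed (PG S d o v) := by
  have h1 : PG S d o v =
      {x : E | S.Pt (S.co x) x ∧ S.co x ∈ (fun a => ee d (slot o v a)) '' KK d} := by
    ext x
    constructor
    · rintro ⟨a, ha, h⟩
      have h2 := S.co_eq (ee_le (slot_mem ho ha v)) h
      exact ⟨h2 ▸ h, a, ha, h2.symm⟩
    · rintro ⟨h, a, ha, e⟩
      have e' : ee d (slot o v a) = S.co x := e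
      exact ⟨a, ha, e' ▸ h⟩
  rw [h1]
  refine ge_closed S
    ((kk_compact hd).image ((ee_cont hd).comp (nk_slot_cont o v))).isClosed (C := 3) ?_
  rintro _ ⟨a, ha, rfl⟩
  exact ee_le (slot_mem ho ha v)

theorem pg_sub {o : Cf} (ho : o ∈ KK d) {v : Fin 3} {x : E} (hx : x ∈ PG S d o v) :
    x ∈ XG S d := by
  obtain ⟨a, ha, h⟩ := hx
  exact Submodule.subset_span
    ⟨_, Submodule.subset_span (mem_image_of_mem _ (slot_mem ho ha v)), h⟩

omit [CompleteSpace E] in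
theorem ge_pt {o a : Cf} (ho0 : ∀ β, (o β).1 = 0) (v : Fin 3) (M : ℕ)
    (hM : ∀ q, M ≤ q → (a (q, v, 0)).1 = 0) :
    S.Pt (ee d (slot o v a))
      (S.mn (fun q => ee d (slot o v a) (ph q)) M + S.sm (ee d (slot o v a))) := by
  unfold Frm.Pt
  rw [add_sub_cancel_right]
  refine S.conv_fin fun q hq => ?_
  rw [ee_ph, nk_slot_sum ho0]
  exact hM q ((S.stm.id_le M).trans hq)

theorem xg_pt {o a : Cf} (ho : o ∈ KK d) (ho0 : ∀ β, (o β).1 = 0) (ha : a ∈ KK d) (v : Fin 3)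
    (M : ℕ) (hM : ∀ q, M ≤ q → (a (q, v, 0)).1 = 0) :
    S.Pt (ee d (slot o v a)) (xg S d o v a : E) := by
  have h0 := ge_pt S (d := d) ho0 v M hM
  have h : ∃ x : XG S d, S.Pt (ee d (slot o v a)) x := ⟨⟨_, pg_sub S ho ⟨a, ha, h0⟩⟩, h0⟩
  unfold xg
  rw [dif_pos h]
  exact h.choose_spec

theorem xg_cont (hd : Dfam d) {o : Cf} (ho : o ∈ KK d) (ho0 : ∀ β, (o β).1 = 0) (v : Fin 3)
    (M : ℕ) (Z : Set Cf) (hZ : ∀ a ∈ Z, a ∈ KK d ∧ ∀ q, M ≤ q → (a (q, v, 0)).1 = 0) :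
    ContinuousOn (xg S d o v) Z := by
  have hc : Continuous fun a => ee d (slot o v a) := (ee_cont hd).comp (nk_slot_cont o v)
  have h1 : Continuous fun a => S.mn (fun q => ee d (slot o v a) (ph q)) M :=
    continuous_finsetSum _ fun q _ => ((continuous_apply (ph q)).comp hc).smul continuous_const
  have h2 : ContinuousOn (fun a => S.sm (ee d (slot o v a))) Z := fun a _ =>
    S.sm_tendsto (C := 3) (eventually_mem_nhdsWithin.mono fun b hb =>
      ee_le (slot_mem ho (hZ b hb).1 v)) (hc.continuousWithinAt (s := Z) (x := a))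
  have h3 : ContinuousOn (fun a => (xg S d o v a : E)) Z :=
    (h1.continuousOn.add h2).congr fun a ha =>
      S.pt_uniq (xg_pt S ho ho0 (hZ a ha).1 v M (hZ a ha).2) (ge_pt S ho0 v M (hZ a ha).2)
  exact IsInducing.subtypeVal.continuousOn_iff.2 h3

theorem co_inj {x x' : XG S d} (h : S.co x = S.co x') : x = x' := by
  have h1 := ((mem_xg S).1 x.2).1
  have h2 := ((mem_xg S).1 x'.2).1
  rw [h] at h1
  exact Subtype.ext (S.pt_uniq h1 h2)

omit [CompleteSpace E] in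
theorem xg_congr {o a a' : Cf} {v : Fin 3} (h : slot o v a = slot o v a') :
    xg S d o v a = xg S d o v a' := by
  unfold xg
  rw [h]

end Pool.Agent.P.MP_5aae23_gt.Nsg
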