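import Pool.Agent.P.MP_5aae23_gt.NJ
import Pool.Agent.P.MP_5aae23_gt.GDefs

open Set Filter Topology Function

namespace Pool.Agent.P.MP_5aae23_gt.Nsg

open Nsh

variable {d : ℕ → Om → ℝ} {m : ℕ} {Tau W : Set (Fin m → ℝ)} {g G : ℝ} {u : Cf} {n0 : ℕ} {δ : ℝ}
  {lo hi : Fin 3 → ℝ} {Cv : Set (Ix → ℝ)} {Ψ : (Fin 3 → ℝ) × Cf → ℕ → ℝ}

/-- The convex set of base values. -/
def gfQ (u : Cf) (n0 : ℕ) (δ : ℝ) (lo hi : Fin 3 → ℝ) (Cv : Set (Ix → ℝ)) (N : ℕ) (β : Ix)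
    (q q' : ℝ) : Set ((Fin 3 → ℝ) × (Ix → ℝ)) :=
  niQ u n0 δ lo hi N β q q' ∩ {w | w.2 ∈ Cv}

theorem gfQ_compact (hc : IsClosed Cv) (N : ℕ) (β : Ix) (q q' : ℝ) :
    IsCompact (gfQ u n0 δ lo hi Cv N β q q') :=
  (niQ_compact N β q q').inter_right (hc.preimage continuous_snd)

theorem gfQ_convex (hc : Convex ℝ Cv) (N : ℕ) (β : Ix) (q q' : ℝ) :
    Convex ℝ (gfQ u n0 δ lo hi Cv N β q q') :=
  (niQ_convex N β q q').inter fun _ hw _ hw' _ _ ha hb hab => hc hw hw' ha hb hab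

theorem gfQ_bd {N : ℕ} {β : Ix} {q q' : ℝ} : ∀ w ∈ gfQ u n0 δ lo hi Cv N β q q',
    (∀ β' ∈ niXi n0 N, |w.2 β'| ≤ 1) ∧ ∀ β' ∉ niXi n0 N, w.2 β' = (u β').1 :=
  fun w hw => niQ_bd w hw.1

theorem gf_pc_sub (hu : u ∈ KK d) {N : ℕ} {β : Ix} {q q' : ℝ} :
    Pc d u (niXi n0 N) (gfQ u n0 δ lo hi Cv N β q q') ⊆ Zg d u n0 δ lo hi Cv N :=
  fun _ hz => ⟨ni_pc_sub hu ⟨hz.1.1, hz.2⟩, hz.1.2⟩

theorem gf_mem_pc {N : ℕ} {β : Ix} {q q' : ℝ} {z : (Fin 3 → ℝ) × Cf}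
    (hz : z ∈ Zg d u n0 δ lo hi Cv N) (hy : (z.2 β).1 ∈ Icc q q') :
    z ∈ Pc d u (niXi n0 N) (gfQ u n0 δ lo hi Cv N β q q') :=
  ⟨⟨(ni_mem_pc hz.1 hy).1, hz.2⟩, (ni_mem_pc hz.1 hy).2⟩

theorem gf_alpha0 (hd : Dfam d) (hG : Good Tau W g G) (hL : Log d Tau u n0 δ lo hi Cv Ψ)
    (ψ : Fin m → ℤ) (hψ : (fun j => (ψ j : ℝ)) ∈ W) (β : Ix) (hβ : n0 ≤ β.1) {N : ℕ}
    {z z' : (Fin 3 → ℝ) × Cf} (hz : z ∈ Zg d u n0 δ lo hi Cv N) (hz' : z' ∈ Zg d u n0 δ lo hi Cv N)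
    {t t' : Fin m → ℝ} {p p' : Fin m → Cf} (hr : Rep d Tau (Ψ z) t p)
    (hr' : Rep d Tau (Ψ z') t' p') {q q' : ℝ} (hy : (z.2 β).1 ∈ Icc q q')
    (hy' : (z'.2 β).1 ∈ Icc q q') (c : Om) (hc : c.1 ∉ Icc q q') :
    ms ψ (fun j => p j β) c = ms ψ (fun j => p' j β) c := by
  have _ := hβ
  set D : Set ((Fin 3 → ℝ) × Cf) := Pc d u (niXi n0 N) (gfQ u n0 δ lo hi Cv N β q q') with hD
  have hsub : D ⊆ Zg d u n0 δ lo hi Cv N := gf_pc_sub hL.umem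
  have : CompactSpace D := isCompact_iff_compactSpace.1 (pc_compact hd (gfQ_compact hL.cvx.cls N β q q'))
  have : PreconnectedSpace D := isPreconnected_iff_preconnectedSpace.1
    (pc_conn hd (gfQ_compact hL.cvx.cls N β q q') (gfQ_convex hL.cvx.cvx N β q q') gfQ_bd)
  have hΨ : Continuous fun x : D => Ψ x :=
    continuousOn_iff_continuous_domRestrict.1 ((hL.cont N).mono hsub)
  let R : Set (D × (Fin m → ℝ) × (Fin m → Cf)) := {x | Rep d Tau (Ψ x.1) x.2.1 x.2.2}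
  have hR : IsCompact R := by
    have h1 : IsCompact ((univ : Set D) ×ˢ Tau ×ˢ Set.pi univ fun _ : Fin m => KK d) :=
      isCompact_univ.prod (hG.cpt.prod (isCompact_univ_pi fun _ => kk_compact hd))
    have h2 : IsClosed {x : D × (Fin m → ℝ) × (Fin m → Cf) |
        Ψ x.1 = ∑ j, x.2.1 j • ee d (x.2.2 j)} := by
      refine isClosed_eq (hΨ.comp continuous_fst) (continuous_finsetSum _ fun j _ => ?_)
      exact ((continuous_apply j).comp (continuous_fst.comp continuous_snd)).smul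
        ((ee_cont hd).comp ((continuous_apply j).comp (continuous_snd.comp continuous_snd)))
    have h3 : R = ((univ : Set D) ×ˢ Tau ×ˢ Set.pi univ fun _ : Fin m => KK d) ∩
        {x | Ψ x.1 = ∑ j, x.2.1 j • ee d (x.2.2 j)} := by
      ext x
      exact ⟨fun h => ⟨⟨mem_univ _, h.1, fun j _ => h.2.1 j⟩, h.2.2⟩,
        fun h => ⟨h.1.2.1, fun j => h.1.2.2 j (mem_univ _), h.2⟩⟩
    rw [h3]
    exact h1.inter_right h2
  have : CompactSpace R := isCompact_iff_compactSpace.1 hR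
  have hW : IsOpen {c : Om | c.1 ∉ Icc q q'} :=
    (isClosed_Icc.preimage continuous_fst).isOpen_compl
  have key := rig hd (prm_prime β) (D := D) (R := R) (fun r => r.1.1)
    (continuous_fst.comp continuous_subtype_val)
    (fun x => by
      obtain ⟨t1, p1, h1⟩ := hL.rep N x.1 (hsub x.2)
      exact ⟨⟨(x, t1, p1), h1⟩, rfl⟩)
    (fun r j => r.1.2.2 j β)
    (continuous_pi fun j => (continuous_apply β).comp ((continuous_apply j).comp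
      (continuous_snd.comp (continuous_snd.comp continuous_subtype_val))))
    (fun r j => (r.2.2.1 j).1 β) ψ
    (fun r r' h c => by
      have h1 : Rep d Tau (Ψ r.1.1) r.1.2.1 r.1.2.2 := r.2
      have h2 : Rep d Tau (Ψ r'.1.1) r'.1.2.1 r'.1.2.2 := r'.2
      have h3 : r.1.1 = r'.1.1 := h
      rw [← h3] at h2
      exact ni_cons_int hd hG ψ hψ h1 h2 β c)
    hW
    (fun j hj => pc_np hd (gfQ_compact hL.cvx.cls N β q q') (gfQ_convex hL.cvx.cvx N β q q') gfQ_bd (prm_prime β j)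
      fun w hw β' _ j' h a ha haw h0 => by
        obtain ⟨rfl, rfl⟩ := prm_inj h
        refine hj a ha h0 ?_
        rw [haw]
        exact hw.1.2.2.2.2)
  exact key ⟨(⟨z, gf_mem_pc hz hy⟩, t, p), hr⟩ ⟨(⟨z', gf_mem_pc hz' hy'⟩, t', p'), hr'⟩ c hc

theorem gf_mono {N N' : ℕ} (h : N ≤ N') {z : (Fin 3 → ℝ) × Cf}
    (hz : z ∈ Zg d u n0 δ lo hi Cv N) : z ∈ Zg d u n0 δ lo hi Cv N' :=
  ⟨nj_zf_mono h hz.1, hz.2⟩

theorem gf_base (hL : Log d Tau u n0 δ lo hi Cv Ψ) {s : Fin 3 → ℝ} (hs : s ∈ Icc lo hi) (N : ℕ) :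
    (s, u) ∈ Zg d u n0 δ lo hi Cv N :=
  ⟨⟨hs, hL.umem, fun _ _ => rfl, fun n v hn => by
    rw [hL.uzero _ hn, hL.uzero _ hn, abs_zero]
    exact ⟨hL.dpos.le, hL.dpos.le⟩⟩, by
    obtain ⟨ε, hε, h⟩ := hL.cvx.abs 0
    exact h _ (fun q v hq => by rw [hL.uzero _ hq, abs_zero]; exact hε.le)
      fun q v _ hq => hL.uzero _ hq⟩

/-- The auxiliary value at a moving site can be changed freely. -/
theorem gf_aux (hd : Dfam d) (hδ : δ ≤ 1 / 2) (hC : Cvx Cv n0) {N n : ℕ} (hn : n0 ≤ n)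
    (hN : n < N) (v : Fin 3)
    {z : (Fin 3 → ℝ) × Cf} (hz : z ∈ Zg d u n0 δ lo hi Cv N) {η : ℝ} (hη : |η| ≤ δ) :
    ∃ z' ∈ Zg d u n0 δ lo hi Cv N, z'.1 = z.1 ∧ (z'.2 (n, v, 1)).1 = η ∧
      ∀ β : Ix, β ≠ (n, v, 1) → β ≠ (n, v, 2) → z'.2 β = z.2 β := by
  classical
  obtain ⟨⟨h0, h1, h2, h3⟩, h4⟩ := hz
  have hy := (h3 n v hn).1
  obtain ⟨a1, ha1, e1⟩ := (fib_conn hd (fun j => (prm_prime (n, v, 1) j).ne_zero) η
    (by linarith)).nonempty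
  obtain ⟨a2, ha2, e2⟩ := (fib_conn hd (fun j => (prm_prime (n, v, 2) j).ne_zero)
    (-(z.2 (n, v, 0)).1 - η) (by
      rw [abs_le] at hy hη ⊢
      constructor <;> linarith [hy.1, hy.2, hη.1, hη.2])).nonempty
  have e1' : a1.1 = η := e1
  have e2' : a2.1 = -(z.2 (n, v, 0)).1 - η := e2
  have n12 : ((n, v, 1) : Ix) ≠ (n, v, 2) := fun e =>
    (by decide : (1 : Fin 3) ≠ 2) (congrArg (fun β : Ix => β.2.2) e)
  set a : Cf := update (update z.2 (n, v, 1) a1) (n, v, 2) a2 with ha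
  have k1 : a (n, v, 1) = a1 := by rw [ha, update_of_ne n12, update_self]
  have k2 : a (n, v, 2) = a2 := by rw [ha, update_self]
  have k3 : ∀ β : Ix, β ≠ (n, v, 1) → β ≠ (n, v, 2) → a β = z.2 β := fun β b1 b2 => by
    rw [ha, update_of_ne b2, update_of_ne b1]
  have k0 : ∀ n' v', a (n', v', 0) = z.2 (n', v', 0) := fun n' v' =>
    k3 _ (fun e => (by decide : (0 : Fin 3) ≠ 1) (congrArg (fun β : Ix => β.2.2) e))
      fun e => (by decide : (0 : Fin 3) ≠ 2) (congrArg (fun β : Ix => β.2.2) e)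
  have k4 : ∀ n' v' i, (n', v') ≠ (n, v) → a (n', v', i) = z.2 (n', v', i) := fun n' v' i h =>
    k3 _ (fun e => h (congrArg (fun β : Ix => (β.1, β.2.1)) e))
      fun e => h (congrArg (fun β : Ix => (β.1, β.2.1)) e)
  refine ⟨(z.1, a), ⟨⟨h0, ⟨fun β => ?_, fun n' v' => ?_⟩, fun β hβ => ?_, fun n' v' hn' => ?_⟩,
    ?_⟩, rfl, (congrArg Prod.fst k1).trans e1', k3⟩
  · show a β ∈ _
    by_cases b1 : β = (n, v, 1)
    · rw [b1, k1]
      exact ha1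
    by_cases b2 : β = (n, v, 2)
    · rw [b2, k2]
      exact ha2
    · rw [k3 β b1 b2]
      exact h1.1 β
  · show ∑ i, (a (n', v', i)).1 = 0
    by_cases h : (n', v') = (n, v)
    · obtain ⟨rfl, rfl⟩ := Prod.mk.inj h
      rw [Fin.sum_univ_three, k0, k1, k2, e1', e2']
      ring
    · simp only [fun i => k4 n' v' i h]
      exact h1.2 n' v'
  · refine (k3 β (fun e => ?_) fun e => ?_).trans (h2 β hβ) <;>
    · have : β.1 = n := congrArg Prod.fst e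
      omega
  · show |(a (n', v', 0)).1| ≤ δ ∧ |(a (n', v', 1)).1| ≤ δ
    rw [k0]
    refine ⟨(h3 n' v' hn').1, ?_⟩
    by_cases h : (n', v') = (n, v)
    · obtain ⟨rfl, rfl⟩ := Prod.mk.inj h
      rwa [k1, e1']
    · rw [k4 n' v' 1 h]
      exact (h3 n' v' hn').2
  · exact hC.dep _ h4 _ fun n' v' _ => congrArg Prod.fst (k0 n' v')

/-- All base values of the moving arcs can be contracted by a common factor. -/
theorem gf_ray (hd : Dfam d) (hL : Log d Tau u n0 δ lo hi Cv Ψ) {N : ℕ} {z : (Fin 3 → ℝ) × Cf}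
    (hz : z ∈ Zg d u n0 δ lo hi Cv N) {τ : ℝ} (h0 : 0 ≤ τ) (h1 : τ ≤ 1) :
    ∃ z' ∈ Zg d u n0 δ lo hi Cv N, z'.1 = z.1 ∧
      ∀ β : Ix, n0 ≤ β.1 → (z'.2 β).1 = τ * (z.2 β).1 := by
  have β0 : Ix := (0, 0, 0)
  have k1 := (gf_mem_pc (β := β0) hz (abs_le.1 (hz.1.2.1.1 β0).1)).1
  have k2 := (gf_mem_pc (β := β0) (gf_base hL hz.1.1 N) (abs_le.1 (hL.umem.1 β0).1)).1
  obtain ⟨z', hz', e1, e2⟩ := pc_surj (u := u) (Ξ := niXi n0 N) hd gfQ_bd _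
    (gfQ_convex hL.cvx.cvx N β0 (-1) 1 k1 k2 h0 (sub_nonneg.2 h1) (by ring))
  refine ⟨z', gf_pc_sub hL.umem hz', ?_, fun β hβ => ?_⟩
  · rw [e1]
    show τ • z.1 + (1 - τ) • z.1 = z.1
    rw [← add_smul, add_sub_cancel, one_smul]
  · rw [e2]
    show τ * (z.2 β).1 + (1 - τ) * (u β).1 = _
    rw [hL.uzero β hβ, mul_zero, add_zero]

theorem gf_alpha (hd : Dfam d) (hG : Good Tau W g G) (hL : Log d Tau u n0 δ lo hi Cv Ψ)
    {s : Fin m → ℝ} (hs : s ∈ W) {β : Ix} (hβ : n0 ≤ β.1) {z z' : (Fin 3 → ℝ) × Cf}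
    {p p' : Fin m → Cf} (h : Stg d Tau u n0 δ lo hi Cv Ψ z p) (h' : Stg d Tau u n0 δ lo hi Cv Ψ z' p')
    {q q' : ℝ} (hy : (z.2 β).1 ∈ Icc q q') (hy' : (z'.2 β).1 ∈ Icc q q') (φ : ℝ → ℝ)
    (hφ : ∀ x ∈ Icc q q', φ x = 0) :
    ∑ j, s j * φ (p j β).1 = ∑ j, s j * φ (p' j β).1 := by
  obtain ⟨N, t, hz, hr⟩ := h
  obtain ⟨N', t', hz', hr'⟩ := h'
  have h1 := hG.rat (fun j => φ (p j β).1 - φ (p' j β).1) (fun ψ hψ => by
    have h2 := nj_ms_int ψ (fun j => p j β) (fun j => p' j β) (fun c => φ c.1) fun c hc =>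
      gf_alpha0 hd hG hL ψ hψ β hβ (gf_mono (le_max_left N N') hz)
        (gf_mono (le_max_right N N') hz') hr hr' hy hy' c fun h => hc (hφ _ h)
    simp only [mul_sub, Finset.sum_sub_distrib]
    exact sub_eq_zero.2 h2) s hs
  simp only [mul_sub, Finset.sum_sub_distrib] at h1
  exact sub_eq_zero.1 h1

theorem gf_same (hd : Dfam d) (hG : Good Tau W g G) (hL : Log d Tau u n0 δ lo hi Cv Ψ)
    {s : Fin m → ℝ} (hs : s ∈ W) {β : Ix} (hβ : n0 ≤ β.1) {z z' : (Fin 3 → ℝ) × Cf}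
    {p p' : Fin m → Cf} (h : Stg d Tau u n0 δ lo hi Cv Ψ z p) (h' : Stg d Tau u n0 δ lo hi Cv Ψ z' p')
    (hy : (z.2 β).1 = (z'.2 β).1) : ∑ j, s j * (p j β).1 = ∑ j, s j * (p' j β).1 := by
  have h1 := gf_alpha hd hG hL hs hβ h h' (q := (z.2 β).1) (q' := (z.2 β).1) ⟨le_rfl, le_rfl⟩
    ⟨hy.le, hy.ge⟩ (fun x => x - (z.2 β).1) fun x hx => sub_eq_zero.2 (le_antisymm hx.2 hx.1)
  simp only [mul_sub, Finset.sum_sub_distrib] at h1
  linarith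

theorem gf_st (hd : Dfam d) (hL : Log d Tau u n0 δ lo hi Cv Ψ) {n : ℕ} (hn : n0 ≤ n) (v : Fin 3)
    {N : ℕ} {z : (Fin 3 → ℝ) × Cf} (hz : z ∈ Zg d u n0 δ lo hi Cv N) {τ : ℝ} (h0 : 0 ≤ τ)
    (h1 : τ ≤ 1) {η : ℝ} (hη : |η| ≤ δ) : ∃ z' p, Stg d Tau u n0 δ lo hi Cv Ψ z' p ∧
      (z'.2 (n, v, 0)).1 = τ * (z.2 (n, v, 0)).1 ∧ (z'.2 (n, v, 1)).1 = η := by
  obtain ⟨z1, hz1, -, e1⟩ := gf_ray hd hL hz h0 h1
  obtain ⟨z2, hz2, -, e2, e3⟩ := gf_aux hd hL.dle hL.cvx hn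
    (lt_of_lt_of_le (Nat.lt_succ_self n) (le_max_right N (n + 1))) v
    (gf_mono (le_max_left N (n + 1)) hz1) hη
  obtain ⟨t, p, hr⟩ := hL.rep _ z2 hz2
  refine ⟨z2, p, ⟨_, t, hz2, hr⟩, ?_, e2⟩
  rw [e3 _ (fun e => (by decide : (0 : Fin 3) ≠ 1) (congrArg (fun β : Ix => β.2.2) e))
    fun e => (by decide : (0 : Fin 3) ≠ 2) (congrArg (fun β : Ix => β.2.2) e)]
  exact e1 _ hn

theorem gf_st0 (hd : Dfam d) (hL : Log d Tau u n0 δ lo hi Cv Ψ) {n : ℕ} (hn : n0 ≤ n) (v : Fin 3)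
    {η : ℝ} (hη : |η| ≤ δ) : ∃ z' p, Stg d Tau u n0 δ lo hi Cv Ψ z' p ∧
      (z'.2 (n, v, 0)).1 = 0 ∧ (z'.2 (n, v, 1)).1 = η := by
  obtain ⟨z, p, h, e, e'⟩ := gf_st hd hL hn v
    (gf_base hL ⟨le_rfl, fun i => (hL.lohi i).le⟩ 0) le_rfl zero_le_one hη
  exact ⟨z, p, h, by rw [e, zero_mul], e'⟩

/-- An interval over which all atoms lie over the moving point. -/
theorem gf_gap (hd : Dfam d) (hG : Good Tau W g G) (hL : Log d Tau u n0 δ lo hi Cv Ψ) {n : ℕ}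
    (hn : n0 ≤ n) (v : Fin 3) : ∃ a b : ℝ, -δ ≤ a ∧ a < b ∧ b ≤ δ ∧ ∀ s ∈ W, ∀ z p,
      Stg d Tau u n0 δ lo hi Cv Ψ z p → (z.2 (n, v, 1)).1 ∈ Icc a b → ∀ φ : ℝ → ℝ,
        (∀ x ∉ Icc a b, φ x = 0) → φ (z.2 (n, v, 1)).1 = 0 →
        ∑ j, s j * φ (p j (n, v, 1)).1 = 0 := by
  classical
  have hδ := hL.dpos
  obtain ⟨zm, pm, hm, -, hm1⟩ := gf_st0 hd hL hn v (η := -δ)
    (by rw [abs_neg, abs_of_pos hδ])
  obtain ⟨zp, pp, hp, -, hp1⟩ := gf_st0 hd hL hn v (η := δ)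
    (by rw [abs_of_pos hδ])
  have hF : (range (fun j => (pm j (n, v, 1)).1) ∪ range fun j => (pp j (n, v, 1)).1).Finite :=
    (finite_range _).union (finite_range _)
  obtain ⟨x, hx⟩ := ((Ioo_infinite (show -δ < δ by linarith)).sdiff hF).nonempty
  obtain ⟨a', b', hab, hsub⟩ := mem_nhds_iff_exists_Ioo_subset.1
    ((isOpen_Ioo.sdiff hF.isClosed).mem_nhds hx)
  have hI : Icc x ((x + b') / 2) ⊆ Ioo a' b' := fun y hy =>
    ⟨lt_of_lt_of_le hab.1 hy.1, lt_of_le_of_lt hy.2 (by linarith [hab.2])⟩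
  have hlt : x < (x + b') / 2 := by linarith [hab.2]
  have hb := (hsub (hI ⟨hlt.le, le_rfl⟩)).1.2
  refine ⟨x, (x + b') / 2, hx.1.1.le, hlt, hb.le, fun s hs z p h hy φ h0 h1 => ?_⟩
  have e1 := gf_alpha hd hG hL hs (β := (n, v, 1)) hn h hm (q := -δ) (q' := (z.2 (n, v, 1)).1)
    ⟨by linarith [hx.1.1, hy.1], le_rfl⟩ (by rw [hm1]; exact ⟨le_rfl, by linarith [hx.1.1, hy.1]⟩)
    (fun y => if (z.2 (n, v, 1)).1 < y then φ y else 0) fun y hy => if_neg (not_lt.2 hy.2)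
  have e2 := gf_alpha hd hG hL hs (β := (n, v, 1)) hn h hp (q := (z.2 (n, v, 1)).1) (q' := δ)
    ⟨le_rfl, by linarith [hy.2]⟩ (by rw [hp1]; exact ⟨by linarith [hy.2], le_rfl⟩)
    (fun y => if y < (z.2 (n, v, 1)).1 then φ y else 0) fun y hy => if_neg (not_lt.2 hy.1)
  have z1 : ∀ j, φ (pm j (n, v, 1)).1 = 0 := fun j => h0 _ fun hj =>
    (hsub (hI hj)).2 (Or.inl ⟨j, rfl⟩)
  have z2 : ∀ j, φ (pp j (n, v, 1)).1 = 0 := fun j => h0 _ fun hj =>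
    (hsub (hI hj)).2 (Or.inr ⟨j, rfl⟩)
  simp only [z1, ite_self, mul_zero, Finset.sum_const_zero] at e1
  simp only [z2, ite_self, mul_zero, Finset.sum_const_zero] at e2
  refine Eq.trans ?_ ((congrArg₂ (· + ·) e1 e2).trans (add_zero 0))
  show _ = _ + _
  rw [← Finset.sum_add_distrib]
  refine Finset.sum_congr rfl fun j _ => ?_
  rw [← mul_add]
  congr 1
  rcases lt_trichotomy (p j (n, v, 1)).1 (z.2 (n, v, 1)).1 with h2 | h2 | h2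
  · rw [if_neg h2.not_gt, if_pos h2, zero_add]
  · rw [h2, h1]
    simp
  · rw [if_pos h2, if_neg h2.not_gt, add_zero]

open Classical in
/-- The normal form at one block. -/
theorem gf_block (hd : Dfam d) (hG : Good Tau W g G) (hL : Log d Tau u n0 δ lo hi Cv Ψ) {n : ℕ}
    (hn : n0 ≤ n) (v : Fin 3) : ∃ (A : Finset (Fin m)) (a : ℝ), |a| ≤ δ ∧ ∀ s ∈ W,
      (∀ z p, Stg d Tau u n0 δ lo hi Cv Ψ z p → (z.2 (n, v, 1)).1 = a →
        ∑ j ∈ A, s j = ∑ j, if (p j (n, v, 1)).1 = a then s j else 0) ∧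
      ∀ z p z' p', Stg d Tau u n0 δ lo hi Cv Ψ z p → Stg d Tau u n0 δ lo hi Cv Ψ z' p' →
        ∑ j, s j * (p j (n, v, 0)).1 - (∑ j ∈ A, s j) * (z.2 (n, v, 0)).1 =
          ∑ j, s j * (p' j (n, v, 0)).1 - (∑ j ∈ A, s j) * (z'.2 (n, v, 0)).1 := by
  obtain ⟨a, b, ha, hab, hb, hgap⟩ := gf_gap hd hG hL hn v
  have hδ := hL.dpos
  have hI : ∀ y ∈ Icc a b, |y| ≤ δ := fun y hy => abs_le.2 ⟨ha.trans hy.1, hy.2.trans hb⟩
  have haI : a ∈ Icc a b := ⟨le_rfl, hab.le⟩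
  obtain ⟨z0, p0, h0, hz00, hz0⟩ := gf_st0 hd hL hn v (η := a)
    (hI a haI)
  refine ⟨Finset.univ.filter fun j => (p0 j (n, v, 1)).1 = a, a, hI a haI, fun s hs => ?_⟩
  set lam := ∑ j ∈ Finset.univ.filter fun j => (p0 j (n, v, 1)).1 = a, s j with hlam
  have m1 : ∀ z p, Stg d Tau u n0 δ lo hi Cv Ψ z p → (z.2 (n, v, 1)).1 ∈ Icc a b →
      ∑ j, s j * (if (p j (n, v, 1)).1 ∈ Icc a b then (1 : ℝ) else 0) =
        ∑ j, if (p j (n, v, 1)).1 = (z.2 (n, v, 1)).1 then s j else 0 := by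
    intro z p h hy
    have h1 := hgap s hs z p h hy (fun x => (if x ∈ Icc a b then (1 : ℝ) else 0) -
      if x = (z.2 (n, v, 1)).1 then 1 else 0)
      (fun x hx => by rw [if_neg hx, if_neg fun h : x = _ => hx (by rw [h]; exact hy), sub_zero])
      (by rw [if_pos hy, if_pos rfl, sub_self])
    simp only [mul_sub, Finset.sum_sub_distrib] at h1
    rw [sub_eq_zero.1 h1]
    simp only [mul_ite, mul_one, mul_zero]
  have m2 : ∀ z p, Stg d Tau u n0 δ lo hi Cv Ψ z p → (z.2 (n, v, 1)).1 ∈ Icc a b →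
      ∑ j, s j * (if (p j (n, v, 1)).1 ∈ Icc a b then (1 : ℝ) else 0) = lam := by
    intro z p h hy
    have h1 := gf_alpha hd hG hL hs (β := (n, v, 1)) hn h h0 hy (hz0 ▸ haI)
      (fun x => 1 - if x ∈ Icc a b then (1 : ℝ) else 0) fun x hx => by rw [if_pos hx, sub_self]
    have h2 := m1 z0 p0 h0 (hz0 ▸ haI)
    rw [hz0, ← Finset.sum_filter] at h2
    simp only [mul_sub, Finset.sum_sub_distrib] at h1
    linarith
  have m3 : ∀ z p, Stg d Tau u n0 δ lo hi Cv Ψ z p → (z.2 (n, v, 1)).1 ∈ Icc a b →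
      ∑ j, s j * (p j (n, v, 1)).1 - lam * (z.2 (n, v, 1)).1 =
        ∑ j, s j * (if (p0 j (n, v, 1)).1 ∈ Icc a b then 0 else (p0 j (n, v, 1)).1) := by
    intro z p h hy
    have h1 := gf_alpha hd hG hL hs (β := (n, v, 1)) hn h h0 hy (hz0 ▸ haI)
      (fun x => if x ∈ Icc a b then 0 else x) fun x hx => if_pos hx
    have h2 := hgap s hs z p h hy (fun x => if x ∈ Icc a b then x - (z.2 (n, v, 1)).1 else 0)
      (fun x hx => if_neg hx) (by rw [if_pos hy, sub_self])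
    rw [← h1, ← m2 z p h hy, Finset.sum_mul, ← Finset.sum_sub_distrib, ← sub_eq_zero,
      ← Finset.sum_sub_distrib]
    refine Eq.trans (Finset.sum_congr rfl fun j _ => ?_) h2
    split_ifs <;> ring
  have m4 : ∀ z p, Stg d Tau u n0 δ lo hi Cv Ψ z p → ∑ j, s j * (p j (n, v, 0)).1 +
      ∑ j, s j * (p j (n, v, 1)).1 + ∑ j, s j * (p j (n, v, 2)).1 = 0 ∧
      (z.2 (n, v, 0)).1 + (z.2 (n, v, 1)).1 + (z.2 (n, v, 2)).1 = 0 := by
    rintro z p ⟨N, t, hz, hr⟩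
    refine ⟨?_, by simpa only [Fin.sum_univ_three] using hz.1.2.1.2 n v⟩
    rw [← Finset.sum_add_distrib, ← Finset.sum_add_distrib]
    refine Finset.sum_eq_zero fun j _ => ?_
    have := (hr.2.1 j).2 n v
    rw [Fin.sum_univ_three] at this
    rw [← mul_add, ← mul_add, this, mul_zero]
  refine ⟨fun z p h hy => ?_, ?_⟩
  · rw [← m2 z p h (hy ▸ haI), m1 z p h (hy ▸ haI), hy]
  have f2 : ∀ z p z' p', Stg d Tau u n0 δ lo hi Cv Ψ z p → Stg d Tau u n0 δ lo hi Cv Ψ z' p' →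
      (z.2 (n, v, 1)).1 ∈ Icc a b → (z'.2 (n, v, 1)).1 ∈ Icc a b →
      (z.2 (n, v, 0)).1 + (z.2 (n, v, 1)).1 = (z'.2 (n, v, 0)).1 + (z'.2 (n, v, 1)).1 →
      ∑ j, s j * (p j (n, v, 0)).1 - lam * (z.2 (n, v, 0)).1 =
        ∑ j, s j * (p' j (n, v, 0)).1 - lam * (z'.2 (n, v, 0)).1 := by
    intro z p z' p' h h' k k' e
    have e3 := m3 z p h k
    have e4 := m3 z' p' h' k'
    obtain ⟨e5, e6⟩ := m4 z p h
    obtain ⟨e7, e8⟩ := m4 z' p' h'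
    have e9 := gf_same hd hG hL hs (β := (n, v, 2)) hn h h' (by linarith)
    linear_combination -e3 + e4 + e5 - e7 - e9 - lam * e
  have f4 : ∀ z p, Stg d Tau u n0 δ lo hi Cv Ψ z p →
      ∑ j, s j * (p j (n, v, 0)).1 - lam * (z.2 (n, v, 0)).1 = ∑ j, s j * (p0 j (n, v, 0)).1 := by
    intro z p h
    obtain ⟨N, t, hz, hr⟩ := id h
    set y := (z.2 (n, v, 0)).1 with hy
    have hy1 : |y| ≤ 1 := (hz.1.2.1.1 (n, v, 0)).1
    have hex : ∀ τ : ℝ, ∃ (z' : (Fin 3 → ℝ) × Cf) (p' : Fin m → Cf), τ ∈ Icc (0 : ℝ) 1 →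
        Stg d Tau u n0 δ lo hi Cv Ψ z' p' ∧ (z'.2 (n, v, 0)).1 = τ * y := by
      intro τ
      by_cases hx : τ ∈ Icc (0 : ℝ) 1
      · obtain ⟨z', p', h', k, -⟩ := gf_st hd hL hn v hz hx.1 hx.2 (hI a haI)
        exact ⟨z', p', fun _ => ⟨h', k⟩⟩
      · exact ⟨z0, p0, fun h => absurd h hx⟩
    choose Z P hZ using hex
    set f : ℝ → ℝ := fun τ => ∑ j, s j * (P τ j (n, v, 0)).1 - lam * (τ * y) with hf
    have f1 : ∀ τ ∈ Icc (0 : ℝ) 1, ∀ z' p', Stg d Tau u n0 δ lo hi Cv Ψ z' p' →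
        (z'.2 (n, v, 0)).1 = τ * y →
        ∑ j, s j * (p' j (n, v, 0)).1 - lam * (z'.2 (n, v, 0)).1 = f τ := by
      intro τ hτ z' p' h' e
      rw [gf_same hd hG hL hs (β := (n, v, 0)) hn h' (hZ _ hτ).1 (e.trans (hZ _ hτ).2.symm), e]
    have f5 : ∀ τ ∈ Icc (0 : ℝ) 1, ∀ τ' ∈ Icc (0 : ℝ) 1, τ' * y ≤ τ * y →
        τ * y - τ' * y ≤ b - a → f τ = f τ' := by
      intro τ hτ τ' hτ' h1 h2
      have hη : a + (τ * y - τ' * y) ∈ Icc a b := ⟨by linarith, by linarith⟩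
      obtain ⟨z1, p1, s1, k0, k1⟩ := gf_st hd hL hn v hz hτ.1 hτ.2 (hI a haI)
      obtain ⟨z2, p2, s2, k0', k1'⟩ := gf_st hd hL hn v hz hτ'.1 hτ'.2 (hI _ hη)
      rw [← f1 τ hτ z1 p1 s1 k0, ← f1 τ' hτ' z2 p2 s2 k0']
      exact f2 z1 p1 z2 p2 s1 s2 (k1 ▸ haI) (k1' ▸ hη) (by rw [k0, k1, k0', k1']; ring)
    have f3 : f 1 = f 0 := by
      refine isPreconnected_Icc.induction₂' (fun x x' => f x = f x') (fun τ hτ => ?_)
        (fun _ _ _ _ _ _ h h' => h.trans h') (right_mem_Icc.2 zero_le_one)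
        (left_mem_Icc.2 zero_le_one)
      have h1 : ∀ᶠ τ' in 𝓝[Icc (0 : ℝ) 1] τ, τ' ∈ Ioo (τ - (b - a)) (τ + (b - a)) :=
        nhdsWithin_le_nhds (Ioo_mem_nhds (by linarith) (by linarith))
      filter_upwards [h1, self_mem_nhdsWithin] with τ' h2 h3
      have h5 : |τ * y - τ' * y| ≤ b - a := by
        rw [← sub_mul, abs_mul]
        have h6 : |τ - τ'| ≤ b - a := abs_le.2 ⟨by linarith [h2.2], by linarith [h2.1]⟩
        nlinarith [abs_nonneg (τ - τ'), abs_nonneg y]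
      rw [abs_le] at h5
      have h4 : f τ = f τ' := by
        rcases le_total (τ' * y) (τ * y) with h | h
        · exact f5 τ hτ τ' h3 h h5.2
        · exact (f5 τ' h3 τ hτ h (by linarith [h5.1])).symm
      exact ⟨h4, h4.symm⟩
    have g1 := f1 1 (right_mem_Icc.2 zero_le_one) z p h (one_mul y).symm
    have g0 := f1 0 (left_mem_Icc.2 zero_le_one) z0 p0 h0 (hz00.trans (zero_mul y).symm)
    rw [hz00, mul_zero, sub_zero] at g0
    rw [g0, ← f3, ← g1]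
  intro z p z' p' h h'
  rw [f4 z p h, f4 z' p' h']

theorem nfg (hd : Dfam d) (hG : Good Tau W g G) (hL : Log d Tau u n0 δ lo hi Cv Ψ) :
    ∃ A p0 yy, Nfm d Tau W u n0 δ lo hi Cv Ψ A p0 yy := by
  classical
  choose A a ha hA using fun (n : ℕ) (v : Fin 3) => gf_block hd hG hL (le_max_left n0 n) v
  have hz0 : (lo, u) ∈ Zg d u n0 δ lo hi Cv 0 :=
    gf_base hL ⟨le_rfl, fun i => (hL.lohi i).le⟩ 0
  obtain ⟨t0, p0, hr0⟩ := hL.rep 0 _ hz0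
  refine ⟨A, p0, a, hr0.2.1, ha, fun n v hn s hs h0 z p z' p' h h' => ?_,
    fun N z hz t p hr n hn => ?_, fun N z hz t p hr n hn v hv => ?_⟩
  · have hB := hA n v s hs
    rw [max_eq_right hn] at hB
    have h1 := hB.2 z p z' p' h h'
    rwa [h0, zero_mul, zero_mul, sub_zero, sub_zero] at h1
  · have hB := fun v => hA n v t (hG.sub hr.1)
    rw [max_eq_right hn] at hB
    have h1 : ∀ v, ∑ j, t j * (p j (n, v, 0)).1 =
        (∑ j ∈ A n v, t j) * (z.2 (n, v, 0)).1 + ∑ j, t j * (p0 j (n, v, 0)).1 := by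
      intro v
      have h2 := (hB v).2 z p (lo, u) p0 ⟨N, t, hz, hr⟩ ⟨0, t0, hz0, hr0⟩
      have h3 : (u (n, v, 0)).1 = 0 := hL.uzero _ hn
      simp only [h3, mul_zero, sub_zero] at h2
      linarith
    have h4 : ∀ r : Fin m → Cf, ∑ j, t j * ee d (r j) (ph n) =
        ∑ v, ∑ j, t j * (r j (n, v, 0)).1 := by
      intro r
      rw [Finset.sum_comm]
      refine Finset.sum_congr rfl fun j _ => ?_
      rw [ee_ph, Finset.mul_sum]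
    rw [hr.2.2, Finset.sum_apply]
    simp only [Pi.smul_apply, smul_eq_mul]
    rw [h4 p, h4 p0, ← Finset.sum_add_distrib]
    exact Finset.sum_congr rfl fun v _ => h1 v
  · have hB := hA n v t (hG.sub hr.1)
    rw [max_eq_right hn] at hB
    exact hB.1 z p ⟨N, t, hz, hr⟩ hv

end Pool.Agent.P.MP_5aae23_gt.Nsg
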