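import Pool.Agent.P.MP_5aae23_gt.CH

open Set Filter Topology Function

namespace Pool.Agent.P.MP_5aae23_gt.Nsh

variable {d : ℕ → Om → ℝ} {m : ℕ} {Tau W : Set (Fin m → ℝ)} {g G : ℝ} {u : Cf} {n0 : ℕ} {δ : ℝ}
  {lo hi : Fin 3 → ℝ} {Ψ : (Fin 3 → ℝ) × Cf → ℕ → ℝ}

/-- Reset all sites from `N` on. -/
def gfR (u : Cf) (N : ℕ) (z : (Fin 3 → ℝ) × Cf) : (Fin 3 → ℝ) × Cf :=
  (z.1, fun β => if β.1 < N then z.2 β else u β)

theorem gf_cont (u : Cf) (N : ℕ) : Continuous (gfR u N) := by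
  refine continuous_fst.prodMk (continuous_pi fun β => ?_)
  by_cases h : β.1 < N
  · simp only [if_pos h]
    exact (continuous_apply β).comp continuous_snd
  · simp only [if_neg h]
    exact continuous_const

theorem gf_mem (hu : u ∈ KK d) (huz : ∀ β : Ix, n0 ≤ β.1 → (u β).1 = 0) (hδ : 0 < δ) {N N' : ℕ}
    {z : (Fin 3 → ℝ) × Cf} (hz : z ∈ Zf d u n0 δ lo hi N') :
    gfR u N z ∈ Zf d u n0 δ lo hi N := by
  obtain ⟨h0, h1, h2, h3⟩ := hz
  refine ⟨h0, ⟨fun β => ?_, fun n v => ?_⟩, fun β hβ => ?_, fun n v hn => ?_⟩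
  · show (if β.1 < N then z.2 β else u β) ∈ _
    split_ifs
    · exact h1.1 β
    · exact hu.1 β
  · show ∑ i : Fin 3, (if n < N then z.2 (n, v, i) else u (n, v, i)).1 = 0
    by_cases h : n < N
    · simp only [if_pos h]
      exact h1.2 n v
    · simp only [if_neg h]
      exact hu.2 n v
  · show (if β.1 < N then z.2 β else u β) = u β
    split_ifs with h
    · exact h2 β (Or.inl (by omega))
    · rfl
  · show |(if n < N then z.2 (n, v, 0) else u (n, v, 0)).1| ≤ δ ∧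
      |(if n < N then z.2 (n, v, 1) else u (n, v, 1)).1| ≤ δ
    by_cases h : n < N
    · simp only [if_pos h]
      exact h3 n v hn
    · simp only [if_neg h]
      rw [huz (n, v, 0) hn, huz (n, v, 1) hn, abs_zero]
      exact ⟨hδ.le, hδ.le⟩

theorem gf_id {N : ℕ} {z : (Fin 3 → ℝ) × Cf} (hz : z ∈ Zf d u n0 δ lo hi N) :
    gfR u N z = z := by
  refine Prod.ext rfl (funext fun β => ?_)
  show (if β.1 < N then z.2 β else u β) = z.2 β
  split_ifs with h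
  · rfl
  · exact (hz.2.2.1 β (Or.inr (not_lt.1 h))).symm

/-- The flat case with injectivity at one level only. -/
theorem gf_flat (hd : Dfam d) (hG : Good Tau W g G) (hL : Loc d Tau u n0 δ lo hi Ψ) (v : Fin 3)
    (γ : ℕ → ℕ) (hγ : Injective γ) (hn : ∀ k, n0 ≤ γ k) {N : ℕ}
    (hN : ∀ k : Fin (m + 1), γ k < N)
    (hz : ∀ k : Fin (m + 1), ∀ s ∈ W, ∀ z p z' p', St d Tau u n0 δ lo hi Ψ z p →
      St d Tau u n0 δ lo hi Ψ z' p' →
      ∑ j, s j * (p j (γ k, v, 0)).1 = ∑ j, s j * (p' j (γ k, v, 0)).1)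
    (hinj : ∀ a a', (lo, a) ∈ Zf d u n0 δ lo hi N → (lo, a') ∈ Zf d u n0 δ lo hi N →
      (∀ β : Ix, β.2.1 ≠ v → a β = a' β) → Ψ (lo, a) = Ψ (lo, a') → a = a') : False := by
  choose a b ha hab hb hc using fun k : Fin (m + 1) => blk_const hd hG hL (hn k) v (hz k)
  have hδ := hL.dle
  have ha1 : ∀ k, -1 ≤ a k := fun k => by linarith [ha k]
  have hb1 : ∀ k, b k ≤ 1 := fun k => by linarith [hb k]
  have hp : ∀ (β : Ix) j, prm β j ≠ 0 := fun β j => (prm_prime β j).ne_zero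
  set S : Fin (m + 1) → Set (Om × Om) := fun k =>
    chS d (prm (γ k, v, 1)) (prm (γ k, v, 2)) (a k) (b k) with hS
  have hmem : ∀ x ∈ Set.pi univ S, (lo, chC γ v u x) ∈ Zf d u n0 δ lo hi N := fun x hx =>
    chC_mem hL hγ hn v hN ha hb fun k => hx k (mem_univ k)
  choose xa hxa using fun k : Fin (m + 1) => (ch_fib_conn hd (hp (γ k, v, 1)) (hp (γ k, v, 2))
    (ha1 k) (hb1 k) (left_mem_Icc.2 (hab k).le)).nonempty
  choose xb hxb using fun k : Fin (m + 1) => (ch_fib_conn hd (hp (γ k, v, 1)) (hp (γ k, v, 2))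
    (ha1 k) (hb1 k) (right_mem_Icc.2 (hab k).le)).nonempty
  have hxa' : xa ∈ Set.pi univ S := fun k _ => (hxa k).1
  obtain ⟨t0, p0, hr0⟩ := hL.rep N _ (hmem xa hxa')
  refine dim_false S (fun k => ch_compact hd _ _ _ _)
    (fun k => ch_conn hd (hp _) (hp _) (ha1 k) (hb1 k)) (fun x => x.1.1) continuous_fst.fst xa xb
    (fun k => (hxa k).1) (fun k => (hxb k).1) (fun k => ?_) (fun x => Ψ (lo, chC γ v u x))
    ((hL.cont N).comp (continuous_const.prodMk (chC_cont hγ v u)).continuousOn hmem)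
    (fun x hx x' hx' e => ?_) (chL d p0) fun x hx => ?_
  · have h1 : (xa k).1.1 = a k := (hxa k).2
    have h2 : (xb k).1.1 = b k := (hxb k).2
    show (xa k).1.1 < (xb k).1.1
    rw [h1, h2]
    exact hab k
  · have h1 := hinj _ _ (hmem x hx) (hmem x' hx') (fun β hβ => by
      have h : ∀ k : Fin (m + 1), β ≠ (γ k, v, 1) ∧ β ≠ (γ k, v, 2) := fun k =>
        ⟨fun e => hβ (congrArg (fun β : Ix => β.2.1) e),
          fun e => hβ (congrArg (fun β : Ix => β.2.1) e)⟩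
      rw [chC_off γ v u _ h, chC_off γ v u _ h]) e
    funext k
    refine Prod.ext ?_ ?_
    · rw [← chC_one hγ v u x k, h1, chC_one hγ]
    · rw [← chC_two hγ v u x k, h1, chC_two hγ]
  · obtain ⟨t, p, hr⟩ := hL.rep N _ (hmem x hx)
    refine ⟨t, hr.2.2.trans (ch_lin hG (fun ψ hψ β c => ?_) (hG.sub hr.1))⟩
    have s1 : St d Tau u n0 δ lo hi Ψ (lo, chC γ v u x) p := ⟨N, t, hmem x hx, hr⟩
    have s0 : St d Tau u n0 δ lo hi Ψ (lo, chC γ v u xa) p0 := ⟨N, t0, hmem xa hxa', hr0⟩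
    have key : ∀ (k : Fin (m + 1)) (i : Fin 3), i ≠ 0 →
        ms ψ (fun j => p j (γ k, v, i)) c = ms ψ (fun j => p0 j (γ k, v, i)) c := by
      intro k i hi0
      refine hc k ψ hψ _ p _ p0 s1 s0 ?_ ?_ ?_ ?_ i hi0 c
      · show (chC γ v u x (γ k, v, 0)).1 = 0
        rw [chC_zero, hL.uzero _ (hn k)]
      · show (chC γ v u xa (γ k, v, 0)).1 = 0
        rw [chC_zero, hL.uzero _ (hn k)]
      · show (chC γ v u x (γ k, v, 1)).1 ∈ _
        rw [chC_one hγ]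
        exact (hx k (mem_univ k)).2.2.1
      · show (chC γ v u xa (γ k, v, 1)).1 ∈ _
        rw [chC_one hγ]
        exact (hxa k).1.2.2.1
    rcases ch_cases (M := m + 1) γ v β with ⟨k, rfl⟩ | ⟨k, rfl⟩ | h
    · exact key k 1 (by decide)
    · exact key k 2 (by decide)
    · exact alpha0 hd hG hL ψ hψ β s1 s0
        ((chC_off γ v u x h).trans (chC_off γ v u xa h).symm) c

/-- The flat case on one finite box. -/
theorem flat_fin (hd : Dfam d) (hG : Good Tau W g G) (hu : u ∈ KK d)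
    (huz : ∀ β : Ix, n0 ≤ β.1 → (u β).1 = 0) (hδ : 0 < δ) (hδ' : δ ≤ 1 / 2)
    (hlh : ∀ v, lo v < hi v) {N : ℕ} (hc : ContinuousOn Ψ (Zf d u n0 δ lo hi N))
    (hr : ∀ z ∈ Zf d u n0 δ lo hi N, ∃ t p, Rep d Tau (Ψ z) t p) (v : Fin 3) (γ : ℕ → ℕ)
    (hγ : Injective γ) (hn : ∀ k, n0 ≤ γ k) (hN : ∀ k : Fin (m + 1), γ k < N)
    (hz : ∀ k : Fin (m + 1), ∀ s ∈ W, ∀ z ∈ Zf d u n0 δ lo hi N, ∀ z' ∈ Zf d u n0 δ lo hi N,
      ∀ t p t' p', Rep d Tau (Ψ z) t p → Rep d Tau (Ψ z') t' p' →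
      ∑ j, s j * (p j (γ k, v, 0)).1 = ∑ j, s j * (p' j (γ k, v, 0)).1)
    (hinj : ∀ a a', (lo, a) ∈ Zf d u n0 δ lo hi N → (lo, a') ∈ Zf d u n0 δ lo hi N →
      (∀ β : Ix, β.2.1 ≠ v → a β = a' β) → Ψ (lo, a) = Ψ (lo, a') → a = a') : False := by
  have hL : Loc d Tau u n0 δ lo hi fun z => Ψ (gfR u N z) :=
    ⟨hu, huz, hδ, hδ', hlh,
      fun _ => hc.comp (gf_cont u N).continuousOn fun _ hz => gf_mem hu huz hδ hz,
      fun _ _ hz => hr _ (gf_mem hu huz hδ hz)⟩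
  refine gf_flat hd hG hL v γ hγ hn hN ?_ fun a a' ha ha' h e => hinj a a' ha ha' h ?_
  · rintro k s hs z p z' p' ⟨N1, t, h1, r1⟩ ⟨N2, t', h2, r2⟩
    exact hz k s hs _ (gf_mem hu huz hδ h1) _ (gf_mem hu huz hδ h2) t p t' p' r1 r2
  · have e1 : Ψ (gfR u N (lo, a)) = Ψ (gfR u N (lo, a')) := e
    rwa [gf_id ha, gf_id ha'] at e1

end Pool.Agent.P.MP_5aae23_gt.Nsh
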