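import Pool.Agent.P.MP_5aae23_gt.GFlat
import Pool.Agent.P.MP_5aae23_gt.GDefs

open Set Filter Topology Function

namespace Pool.Agent.P.MP_5aae23_gt.Nsg

open Nsh

variable {d : ℕ → Om → ℝ} {m : ℕ} {Tau W : Set (Fin m → ℝ)} {g G : ℝ} {u : Cf} {n0 : ℕ} {δ : ℝ}
  {lo hi : Fin 3 → ℝ} {Cv : Set (Ix → ℝ)} {Ψ : (Fin 3 → ℝ) × Cf → ℕ → ℝ}

theorem gg_sub (hL : Log d Tau u n0 δ lo hi Cv Ψ) (N : ℕ) : ∃ ε : ℝ, 0 < ε ∧ ε ≤ δ ∧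
    Zf d u n0 ε lo hi N ⊆ Zg d u n0 δ lo hi Cv N := by
  obtain ⟨ε, hε, h⟩ := hL.cvx.abs N
  refine ⟨min ε δ, lt_min hε hL.dpos, min_le_right _ _, fun z hz => ?_⟩
  obtain ⟨h0, h1, h2, h3⟩ := hz
  refine ⟨⟨h0, h1, h2, fun n v hn => ⟨(h3 n v hn).1.trans (min_le_right _ _),
    (h3 n v hn).2.trans (min_le_right _ _)⟩⟩, h _ (fun q v hq => ?_) fun q v hq hq' => ?_⟩
  · exact (h3 q v hq).1.trans (min_le_left _ _)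
  · show (z.2 (q, v, 0)).1 = 0
    rw [h2 (q, v, 0) (Or.inr hq)]
    exact hL.uzero _ hq'

theorem flat_g (hd : Dfam d) (hG : Good Tau W g G) (hL : Log d Tau u n0 δ lo hi Cv Ψ) (v : Fin 3)
    (γ : ℕ → ℕ) (hγ : Injective γ) (hn : ∀ k, n0 ≤ γ k)
    (hz : ∀ k, ∀ s ∈ W, ∀ z p z' p', Stg d Tau u n0 δ lo hi Cv Ψ z p →
      Stg d Tau u n0 δ lo hi Cv Ψ z' p' →
      ∑ j, s j * (p j (γ k, v, 0)).1 = ∑ j, s j * (p' j (γ k, v, 0)).1)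
    (hinj : ∀ N a a', (lo, a) ∈ Zg d u n0 δ lo hi Cv N → (lo, a') ∈ Zg d u n0 δ lo hi Cv N →
      (∀ β : Ix, β.2.1 ≠ v → a β = a' β) → Ψ (lo, a) = Ψ (lo, a') → a = a') : False := by
  obtain ⟨N, hN⟩ : ∃ N, ∀ k : Fin (m + 1), γ k < N :=
    ⟨Finset.univ.sup (fun k : Fin (m + 1) => γ k) + 1, fun k => Nat.lt_succ_of_le
      (Finset.le_sup (f := fun k : Fin (m + 1) => γ k) (Finset.mem_univ k))⟩
  obtain ⟨ε, hε, hεδ, hsub⟩ := gg_sub hL N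
  exact flat_fin hd hG hL.umem hL.uzero hε (hεδ.trans hL.dle) hL.lohi ((hL.cont N).mono hsub)
    (fun z hz => hL.rep N z (hsub hz)) v γ hγ hn hN
    (fun k s hs z h1 z' h2 t p t' p' r1 r2 =>
      hz k s hs z p z' p' ⟨N, t, hsub h1, r1⟩ ⟨N, t', hsub h2, r2⟩)
    fun a a' ha ha' => hinj N a a' (hsub ha) (hsub ha')

end Pool.Agent.P.MP_5aae23_gt.Nsg
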