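import Pool.Agent.P.MP_5aae23_gt.NDefs

open Set Filter Topology Function

namespace Pool.Agent.P.MP_5aae23_gt.Nsh

/-- The vectors with a prescribed pattern of equal subsums. -/
def Wp {m : ℕ} (Z : Set (Finset (Fin m) × Finset (Fin m))) : Set (Fin m → ℝ) :=
  {s | ∀ a ∈ Z, ∑ j ∈ a.1, s j = ∑ j ∈ a.2, s j}

theorem wp_closed {m : ℕ} (Z : Set (Finset (Fin m) × Finset (Fin m))) : IsClosed (Wp Z) := by
  simp only [Wp, ofPred_forall]
  refine isClosed_iInter fun a => isClosed_iInter fun _ => isClosed_eq ?_ ?_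
  · exact continuous_finsetSum _ fun j _ => continuous_apply j
  · exact continuous_finsetSum _ fun j _ => continuous_apply j

theorem wp_rat_q {m : ℕ} (Z : Set (Finset (Fin m) × Finset (Fin m))) (c : Fin m → ℝ)
    (hc : ∀ ψ : Fin m → ℤ, (fun j => (ψ j : ℝ)) ∈ Wp Z → ∑ j, (ψ j : ℝ) * c j = 0)
    (τ : Fin m → ℚ) (hτ : ∀ a ∈ Z, ∑ j ∈ a.1, τ j = ∑ j ∈ a.2, τ j) :
    ∑ j, (τ j : ℝ) * c j = 0 := by
  obtain ⟨b, hb⟩ := IsLocalization.exist_integer_multiples_of_finite (nonZeroDivisors ℤ) τ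
  choose ψ hψ using hb
  have hb0 : ((b : ℤ) : ℝ) ≠ 0 := Int.cast_ne_zero.2 (nonZeroDivisors.coe_ne_zero b)
  have h1 : ∀ j, (ψ j : ℝ) = ((b : ℤ) : ℝ) * (τ j : ℝ) := fun j => by
    have h2 : ((ψ j : ℤ) : ℚ) = ((b : ℤ) : ℚ) * τ j := by
      have h3 := hψ j
      rwa [zsmul_eq_mul, eq_intCast] at h3
    exact_mod_cast h2
  have h4 : (fun j => (ψ j : ℝ)) ∈ Wp Z := fun a ha => by
    have h5 : ∑ j ∈ a.1, (τ j : ℝ) = ∑ j ∈ a.2, (τ j : ℝ) := by exact_mod_cast hτ a ha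
    simp only [h1, ← Finset.mul_sum, h5]
  have h6 := hc ψ h4
  simp only [h1, mul_assoc, ← Finset.mul_sum] at h6
  exact (mul_eq_zero.1 h6).resolve_left hb0

theorem wp_rat {m : ℕ} (Z : Set (Finset (Fin m) × Finset (Fin m))) (c : Fin m → ℝ)
    (hc : ∀ ψ : Fin m → ℤ, (fun j => (ψ j : ℝ)) ∈ Wp Z → ∑ j, (ψ j : ℝ) * c j = 0)
    (t : Fin m → ℝ) (ht : t ∈ Wp Z) : ∑ j, t j * c j = 0 := by
  classical
  let b := Module.Basis.ofVectorSpace ℚ ℝ
  let S := Finset.univ.biUnion fun j => (b.repr (t j)).support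
  have h1 : ∀ j, t j = ∑ i ∈ S, ((b.repr (t j) i : ℚ) : ℝ) * b i := fun j => by
    have h2 := b.linearCombination_repr (t j)
    rw [Finsupp.linearCombination_apply, Finsupp.sum_of_support_subset _
      (Finset.subset_biUnion_of_mem (fun j => (b.repr (t j)).support) (Finset.mem_univ j))
      (fun i a => a • b i) (fun i _ => zero_smul _ _)] at h2
    refine h2.symm.trans (Finset.sum_congr rfl fun i _ => ?_)
    rw [Rat.smul_def]
  have h3 : ∀ i, ∑ j, ((b.repr (t j) i : ℚ) : ℝ) * c j = 0 := fun i =>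
    wp_rat_q Z c hc (fun j => b.repr (t j) i) fun a ha => by
      have h4 := congrArg (fun r => b.repr r i) (ht a ha)
      simpa only [map_sum, Finsupp.finsetSum_apply] using h4
  calc ∑ j, t j * c j = ∑ j, ∑ i ∈ S, b i * (((b.repr (t j) i : ℚ) : ℝ) * c j) := by
        refine Finset.sum_congr rfl fun j _ => ?_
        conv_lhs => rw [h1 j]
        rw [Finset.sum_mul]
        exact Finset.sum_congr rfl fun i _ => by ring
    _ = ∑ i ∈ S, b i * ∑ j, ((b.repr (t j) i : ℚ) : ℝ) * c j := by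
        rw [Finset.sum_comm]
        exact Finset.sum_congr rfl fun i _ => by rw [Finset.mul_sum]
    _ = 0 := Finset.sum_eq_zero fun i _ => by rw [h3 i, mul_zero]

theorem exists_gap {ι : Type} [Finite ι] (f : ι → ℝ) :
    ∃ γ : ℝ, 0 < γ ∧ ∀ i, f i ≠ 0 → γ ≤ |f i| := by
  by_cases h : ∃ i, f i ≠ 0
  · obtain ⟨i0, hi0, hmin⟩ := Set.exists_min_image {i | f i ≠ 0} (fun i => |f i|) (toFinite _) h
    exact ⟨|f i0|, abs_pos.2 hi0, hmin⟩
  · exact ⟨1, one_pos, fun i hi => absurd ⟨i, hi⟩ h⟩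

theorem sum_close {m : ℕ} {t t0 : Fin m → ℝ} {ε : ℝ} (hε : 0 ≤ ε) (h : dist t t0 ≤ ε)
    (A : Finset (Fin m)) : |∑ j ∈ A, t j - ∑ j ∈ A, t0 j| ≤ m * ε := by
  rw [← Finset.sum_sub_distrib]
  refine (Finset.abs_sum_le_sum_abs _ _).trans ?_
  have h1 : ∑ j ∈ A, |t j - t0 j| ≤ A.card • ε :=
    Finset.sum_le_card_nsmul _ _ _ fun j _ => by
      rw [← Real.dist_eq]
      exact (dist_le_pi_dist t t0 j).trans h
  refine h1.trans ?_
  rw [nsmul_eq_mul]
  have h2 : A.card ≤ m := by simpa only [Fintype.card_fin] using A.card_le_univ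
  exact mul_le_mul_of_nonneg_right (by exact_mod_cast h2) hε

theorem exists_strata (m : ℕ) : ∃ 𝒯 : Set (Set (Fin m → ℝ)), 𝒯.Countable ∧
    (∀ Tau ∈ 𝒯, ∃ W g G, Good Tau W g G) ∧ ∀ t, ∃ Tau ∈ 𝒯, t ∈ Tau := by
  let Φ : Set (Finset (Fin m) × Finset (Fin m)) × (Fin m → ℚ) × ℚ → Set (Fin m → ℝ) :=
    fun x => Wp x.1 ∩ Metric.closedBall (fun j => (x.2.1 j : ℝ)) (x.2.2 : ℝ)
  refine ⟨range Φ ∩ {Tau | ∃ W g G, Good Tau W g G},
    (countable_range Φ).mono inter_subset_left, fun Tau h => h.2, fun t0 => ?_⟩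
  obtain ⟨γ, hγ, hgap⟩ := exists_gap
    fun a : Finset (Fin m) × Finset (Fin m) => ∑ j ∈ a.1, t0 j - ∑ j ∈ a.2, t0 j
  have hm : (0 : ℝ) < 8 * (m + 1) := by positivity
  obtain ⟨ρ, hρ0, hρ⟩ := exists_rat_btwn (div_pos hγ hm)
  have hρ1 : (ρ : ℝ) * (8 * (m + 1)) < γ := (lt_div_iff₀ hm).1 hρ
  choose q hq using fun j => exists_rat_near (t0 j) hρ0
  have hq' : dist t0 (fun j => (q j : ℝ)) ≤ ρ :=
    (dist_pi_le_iff hρ0.le).2 fun j => by
      rw [Real.dist_eq]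
      exact (hq j).le
  let Z : Set (Finset (Fin m) × Finset (Fin m)) := {a | ∑ j ∈ a.1, t0 j = ∑ j ∈ a.2, t0 j}
  have hcl : ∀ t ∈ Φ (Z, q, ρ), ∀ A : Finset (Fin m),
      |∑ j ∈ A, t j - ∑ j ∈ A, t0 j| ≤ γ / 4 := fun t ht A => by
    have h1 : dist t t0 ≤ 2 * ρ := by
      have h2 : dist t (fun j => (q j : ℝ)) ≤ ρ := ht.2
      have h3 := dist_triangle_right t t0 fun j => (q j : ℝ)
      linarith
    refine (sum_close (by linarith) h1 A).trans ?_
    nlinarith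
  refine ⟨Φ (Z, q, ρ), ⟨mem_range_self _, Wp Z, γ / 2, ∑ j, |t0 j| + γ, ?_⟩,
    fun a ha => ha, hq'⟩
  refine ⟨by linarith, (isCompact_closedBall _ _).inter_left (wp_closed Z), inter_subset_left,
    fun t ht t' ht' A A' hA s hs => ?_, fun A => ?_, wp_rat Z⟩
  · refine hs (A, A') ?_
    by_contra hne
    have h1 := hgap (A, A') (sub_ne_zero.2 hne)
    have h2 := abs_le.1 (hcl t ht A)
    have h3 := abs_le.1 (hcl t' ht' A')
    have h4 : |∑ j ∈ A, t0 j - ∑ j ∈ A', t0 j| ≤ γ / 2 := by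
      rw [abs_le]
      constructor <;> linarith [h2.1, h2.2, h3.1, h3.2]
    linarith
  · by_cases h0 : ∑ j ∈ A, t0 j = 0
    · refine Or.inl fun t ht => ?_
      have h1 := ht.1 (A, ∅) (by simpa only [Z, mem_ofPred_eq, Finset.sum_empty] using h0)
      simpa only [Finset.sum_empty] using h1
    · refine Or.inr fun t ht => ?_
      have h1 := hgap (A, ∅) (by simpa only [Finset.sum_empty, sub_zero] using h0)
      simp only [Finset.sum_empty, sub_zero] at h1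
      have h2 := hcl t ht A
      have h3 : |∑ j ∈ A, t0 j| ≤ ∑ j, |t0 j| :=
        (Finset.abs_sum_le_sum_abs _ _).trans
          (Finset.sum_le_sum_of_subset_of_nonneg (Finset.subset_univ A) fun j _ _ => abs_nonneg _)
      have h4 := abs_sub_abs_le_abs_sub (∑ j ∈ A, t j) (∑ j ∈ A, t0 j)
      have h5 := abs_sub_abs_le_abs_sub (∑ j ∈ A, t0 j) (∑ j ∈ A, t j)
      rw [abs_sub_comm] at h5
      constructor <;> linarith

end Pool.Agent.P.MP_5aae23_gt.Nsh
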