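import Pool.Agent.P.MP_5aae23_gt.GE
import Pool.Agent.P.MP_5aae23_gt.NF

open Set Filter Topology Function

namespace Pool.Agent.P.MP_5aae23_gt.Nsg

open Nsh

variable {E : Type*} [NormedAddCommGroup E] [NormedSpace ℝ E] [CompleteSpace E] (S : Frm E)
  {H : Type*} [NormedAddCommGroup H] [NormedSpace ℝ H] {d : ℕ → Om → ℝ}

theorem emg_of {X : Type*} [TopologicalSpace X] [Nonempty X] {C : Set H} (hC : Convex ℝ C)
    (h : X ≃ₜ C) : Nonempty (Emg X H) := by
  classical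
  obtain ⟨x0⟩ : Nonempty X := inferInstance
  let f : X → H := fun x => (h x : H) - (h x0 : H)
  let g : H → X := fun y => if hy : y + (h x0 : H) ∈ C then h.symm ⟨_, hy⟩ else x0
  have hr : ∀ y, y ∈ range f ↔ y + (h x0 : H) ∈ C := by
    intro y
    constructor
    · rintro ⟨x, rfl⟩
      simp only [f, sub_add_cancel]
      exact (h x).2
    · intro hy
      exact ⟨h.symm ⟨_, hy⟩, by simp [f]⟩
  refine ⟨⟨f, g, (continuous_subtype_val.comp h.continuous).sub continuous_const, fun x => ?_, ?_,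
    fun s hs x => ?_⟩⟩
  · have hx := (hr _).1 ⟨x, rfl⟩
    simp only [g, dif_pos hx]
    rw [Homeomorph.symm_apply_eq]
    exact Subtype.ext (by simp [f])
  · rw [continuousOn_iff_continuous_domRestrict]
    have h1 : Continuous fun y : range f => h.symm ⟨(y : H) + (h x0 : H), (hr _).1 y.2⟩ :=
      h.symm.continuous.comp ((continuous_subtype_val.add continuous_const).subtype_mk _)
    refine h1.congr fun y => ?_
    show _ = g y
    simp only [g, dif_pos ((hr _).1 y.2)]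
  · rw [hr]
    have h1 := hC.sum_mem (t := Finset.univ) (w := ![s 0, s 1, s 2, 1 - s 0 - s 1 - s 2])
      (z := ![(h (x 0) : H), h (x 1), h (x 2), h x0]) (fun i _ => by
        have h3 : 0 ≤ 1 - s 0 - s 1 - s 2 := by linarith [(hs 0).2, (hs 1).2, (hs 2).2]
        fin_cases i
        exacts [(hs 0).1, (hs 1).1, (hs 2).1, h3]) (by simp [Fin.sum_univ_four])
      (fun i _ => by fin_cases i <;> simp)
    have h2 : ∑ v, s v • f (x v) + (h x0 : H) = ∑ i, ![s 0, s 1, s 2, 1 - s 0 - s 1 - s 2] i •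
        ![(h (x 0) : H), h (x 1), h (x 2), h x0] i := by
      simp only [Fin.sum_univ_three, Fin.sum_univ_four, f]
      simp
      module
    rw [h2]
    exact h1

omit [CompleteSpace E] in
theorem Frm.cv_cvx (nb : ℕ) {δ : ℝ} (hδ : 0 < δ) : Cvx (S.cv nb δ) (S.st nb) := by
  refine ⟨?_, fun y hy y' hy' a b ha hb hab v N => ?_, fun y hy y' e v N => ?_, fun N => ?_⟩
  · simp only [Frm.cv, ofPred_forall]
    refine isClosed_iInter fun v => isClosed_iInter fun N => isClosed_le ?_ continuous_const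
    exact (continuous_finsetSum _ fun q _ =>
      (continuous_apply (q, v, (0 : Fin 3))).smul continuous_const).norm
  · have h1 : ∑ q ∈ Finset.Ico (S.st nb) (S.st N), (a • y + b • y') (q, v, 0) • S.b q =
        a • ∑ q ∈ Finset.Ico (S.st nb) (S.st N), y (q, v, 0) • S.b q +
          b • ∑ q ∈ Finset.Ico (S.st nb) (S.st N), y' (q, v, 0) • S.b q := by
      simp only [Finset.smul_sum, ← Finset.sum_add_distrib, Pi.add_apply, Pi.smul_apply,
        smul_eq_mul, add_smul, mul_smul]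
    rw [h1]
    refine (norm_add_le _ _).trans ?_
    rw [norm_smul, norm_smul, Real.norm_of_nonneg ha, Real.norm_of_nonneg hb]
    have h2 := mul_le_mul_of_nonneg_left (hy v N) ha
    have h3 := mul_le_mul_of_nonneg_left (hy' v N) hb
    have h4 : a * δ + b * δ = δ := by rw [← add_mul, hab, one_mul]
    linarith
  · rw [Finset.sum_congr rfl fun q hq => by rw [e q v (Finset.mem_Ico.1 hq).1]]
    exact hy v N
  · have h0 : 0 ≤ ∑ q ∈ Finset.range N, ‖S.b q‖ := Finset.sum_nonneg fun _ _ => norm_nonneg _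
    have hε : 0 < δ / (1 + ∑ q ∈ Finset.range N, ‖S.b q‖) := by positivity
    refine ⟨_, hε, fun y h1 h2 v N' => ?_⟩
    have h3 : ∑ q ∈ Finset.Ico (S.st nb) (S.st N'), y (q, v, 0) • S.b q =
        ∑ q ∈ (Finset.Ico (S.st nb) (S.st N')).filter (· < N), y (q, v, 0) • S.b q := by
      refine (Finset.sum_filter_of_ne fun q hq hne => ?_).symm
      by_contra hlt
      exact hne (by rw [h2 q v (not_lt.1 hlt) (Finset.mem_Ico.1 hq).1, zero_smul])
    rw [h3]
    refine (norm_sum_le _ _).trans ?_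
    have h4 : ∑ q ∈ (Finset.Ico (S.st nb) (S.st N')).filter (· < N), ‖y (q, v, 0) • S.b q‖ ≤
        ∑ q ∈ (Finset.Ico (S.st nb) (S.st N')).filter (· < N),
          δ / (1 + ∑ q ∈ Finset.range N, ‖S.b q‖) * ‖S.b q‖ :=
      Finset.sum_le_sum fun q hq => by
        rw [norm_smul, Real.norm_eq_abs]
        exact mul_le_mul_of_nonneg_right
          (h1 q v (Finset.mem_Ico.1 (Finset.mem_filter.1 hq).1).1) (norm_nonneg _)
    refine h4.trans ?_
    rw [← Finset.mul_sum]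
    have h5 : ∑ q ∈ (Finset.Ico (S.st nb) (S.st N')).filter (· < N), ‖S.b q‖ ≤
        1 + ∑ q ∈ Finset.range N, ‖S.b q‖ :=
      (Finset.sum_le_sum_of_subset_of_nonneg
        (fun q hq => Finset.mem_range.2 (Finset.mem_filter.1 hq).2)
        fun _ _ _ => norm_nonneg _).trans (by linarith)
    refine (mul_le_mul_of_nonneg_left h5 hε.le).trans_eq ?_
    field_simp

/-- The Baire step: a ball of parameters is mapped into one stratum. -/
theorem gh_ball (hd : Dfam d) (h : Emg (XG S d) H) {o : Cf} (ho : o ∈ KK d)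
    (ho0 : ∀ β, (o β).1 = 0) :
    ∃ (m : ℕ) (Tau W : Set (Fin m → ℝ)) (g G : ℝ) (s0 : Fin 3 → ℝ) (x0 : Fin 3 → E) (ε B : ℝ),
      Good Tau W g G ∧ 0 < ε ∧ (∀ v, s0 v ∈ Icc (0 : ℝ) (1 / 3)) ∧ (∀ v, x0 v ∈ PG S d o v) ∧
      ∀ (s : Fin 3 → ℝ) (x : Fin 3 → XG S d), (∀ v, s v ∈ Icc (0 : ℝ) (1 / 3)) →
        (∀ v, (x v : E) ∈ PG S d o v) →
        (∀ v, dist (s v) (s0 v) < ε) → (∀ v, dist (x v : E) (x0 v) < ε) →
        ((h.g (∑ v, s v • h.f (x v)) : XG S d) : E) ∈ YG S d Tau ∧ ∀ v, ‖h.f (x v)‖ ≤ B := by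
  choose 𝒯 hTc hTg hTu using exists_strata
  let Z : Set ((Fin 3 → ℝ) × (Fin 3 → E)) :=
    {w | ∀ v, w.1 v ∈ Icc (0 : ℝ) (1 / 3) ∧ w.2 v ∈ PG S d o v}
  have hZ : IsClosed Z := by
    simp only [Z, ofPred_forall]
    refine isClosed_iInter fun v => IsClosed.and ?_ ?_
    · exact isClosed_Icc.preimage ((continuous_apply v).comp continuous_fst)
    · exact (pg_closed S hd ho v).preimage ((continuous_apply v).comp continuous_snd)
  have : CompleteSpace Z := hZ.completeSpace_coe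
  have : Nonempty Z := ⟨⟨(0, fun v => (xg S d o v o : E)), fun v => ⟨⟨le_rfl, by norm_num⟩, o, ho,
    xg_pt S ho ho0 ho v 0 fun q _ => ho0 _⟩⟩⟩
  let X : Fin 3 → Z → XG S d := fun v w => ⟨w.1.2 v, pg_sub S ho (w.2 v).2⟩
  have hX : ∀ v, Continuous (X v) := fun v =>
    (((continuous_apply v).comp continuous_snd).comp continuous_subtype_val).subtype_mk _
  let Φ : Z → E := fun w => ((h.g (∑ v, w.1.1 v • h.f (X v w)) : XG S d) : E)
  have hΦ : Continuous Φ := by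
    refine continuous_subtype_val.comp (h.gc.comp_continuous ?_ fun w =>
      h.cvx _ (fun v => (w.2 v).1) _)
    refine continuous_finsetSum _ fun v _ => Continuous.smul ?_ (h.fc.comp (hX v))
    exact ((continuous_apply v).comp continuous_fst).comp continuous_subtype_val
  have : ∀ m, Countable (𝒯 m) := fun m => (hTc m).to_subtype
  obtain ⟨⟨m, Tau, hTau⟩, w0, hw0⟩ := nonempty_interior_of_iUnion_of_closed
    (f := fun i : Σ m, 𝒯 m => Φ ⁻¹' YG S d (i.2 : Set (Fin i.1 → ℝ)))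
    (fun i => by
      obtain ⟨W, g, G, hG⟩ := hTg i.1 i.2 i.2.2
      exact (yg_closed S hd hG.cpt).preimage hΦ)
    (by
      refine eq_univ_of_forall fun w => ?_
      have hm : Φ w ∈ XG S d := (h.g (∑ v, w.1.1 v • h.f (X v w))).2
      obtain ⟨hpt, m, t, p, -, hp, e⟩ := (mem_xg S).1 hm
      obtain ⟨Tau, hT, ht⟩ := hTu m t
      exact mem_iUnion.2 ⟨⟨m, Tau, hT⟩, hpt, t, p, ht, hp, e⟩)
  obtain ⟨W, g, G, hG⟩ := hTg m Tau hTau
  have hN : Continuous fun w : Z => ∑ v, ‖h.f (X v w)‖ :=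
    continuous_finsetSum _ fun v _ => (h.fc.comp (hX v)).norm
  have h1 : Φ ⁻¹' YG S d Tau ∩ {w | ∑ v, ‖h.f (X v w)‖ < ∑ v, ‖h.f (X v w0)‖ + 1} ∈ 𝓝 w0 :=
    inter_mem (mem_interior_iff_mem_nhds.1 hw0)
      ((isOpen_lt hN continuous_const).mem_nhds (by simp))
  obtain ⟨ε, hε, hb⟩ := Metric.mem_nhds_iff.1 h1
  refine ⟨m, Tau, W, g, G, w0.1.1, w0.1.2, ε, ∑ v, ‖h.f (X v w0)‖ + 1, hG, hε,
    fun v => (w0.2 v).1, fun v => (w0.2 v).2, fun s x hs3 hx hs hxd => ?_⟩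
  have hw : (⟨(s, fun v => (x v : E)), fun v => ⟨hs3 v, hx v⟩⟩ : Z) ∈ Metric.ball w0 ε := by
    rw [Metric.mem_ball, Subtype.dist_eq, Prod.dist_eq, max_lt_iff]
    exact ⟨(dist_pi_lt_iff hε).2 hs, (dist_pi_lt_iff hε).2 hxd⟩
  obtain ⟨h2, h3⟩ := hb hw
  refine ⟨h2, fun v => le_trans ?_ (le_of_lt h3)⟩
  exact Finset.single_le_sum (f := fun v => ‖h.f (x v)‖) (fun _ _ => norm_nonneg _)
    (Finset.mem_univ v)

omit [CompleteSpace E] in
/-- The distance of two points with the same head. -/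
theorem gh_dist {ξ ξ0 : ℕ → ℝ} {x x0 : E} (hx : S.Pt ξ x) {nb N : ℕ} (hN : nb ≤ N)
    (h0 : ∀ q, S.st N ≤ q → ξ (ph q) = 0) (h1 : ∀ q < S.st nb, ξ (ph q) = ξ0 (ph q)) :
    ‖x - x0‖ ≤ ‖S.sm ξ - S.sm ξ0‖ + ‖S.mn (fun q => ξ0 (ph q)) nb - (x0 - S.sm ξ0)‖ +
      ‖∑ q ∈ Finset.Ico (S.st nb) (S.st N), ξ (ph q) • S.b q‖ := by
  have h2 : x - S.sm ξ = S.mn (fun q => ξ (ph q)) N :=
    tendsto_nhds_unique hx (S.conv_fin h0)
  have h3 : S.mn (fun q => ξ (ph q)) N = S.mn (fun q => ξ0 (ph q)) nb +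
      ∑ q ∈ Finset.Ico (S.st nb) (S.st N), ξ (ph q) • S.b q := by
    unfold Frm.mn
    rw [← Finset.sum_range_add_sum_Ico _ (S.stm.monotone hN)]
    congr 1
    exact Finset.sum_congr rfl fun q hq => congrArg (· • S.b q) (h1 q (Finset.mem_range.1 hq))
  have h4 : x - x0 = (S.sm ξ - S.sm ξ0) + (S.mn (fun q => ξ0 (ph q)) nb - (x0 - S.sm ξ0)) +
      ∑ q ∈ Finset.Ico (S.st nb) (S.st N), ξ (ph q) • S.b q := by
    rw [h3] at h2
    rw [sub_eq_iff_eq_add.1 h2]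
    abel
  rw [h4]
  exact norm_add₃_le

theorem baire_g (hd : Dfam d) (h : Emg (XG S d) H) {o : Cf} (ho : o ∈ KK d)
    (ho0 : ∀ β, (o β).1 = 0) :
    ∃ (m : ℕ) (Tau W : Set (Fin m → ℝ)) (g G : ℝ) (u : Cf) (nb : ℕ) (δ : ℝ) (lo hi : Fin 3 → ℝ)
      (B : ℝ), Good Tau W g G ∧ Log d Tau u (S.st nb) δ lo hi (S.cv nb δ) (psi S d h o) ∧
      (∀ s ∈ Icc lo hi, ∀ v, s v ≠ 0 ∧ s v ∈ Icc (0 : ℝ) (1 / 3)) ∧
      ∀ N, ∀ z ∈ Zg d u (S.st nb) δ lo hi (S.cv nb δ) N, ∀ v,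
        ‖h.f (xg S d o v z.2)‖ ≤ B := by
  obtain ⟨m, Tau, W, g, G, s0, x0, ε, B, hG, hε, hs0, hx0, hb⟩ := gh_ball S hd h ho ho0
  choose a ha hae using hx0
  have hε4 : 0 < ε / 4 := by positivity
  obtain ⟨c0, hc0⟩ := S.sm_near 3 hε4
  have hev : ∀ᶠ n : ℕ in atTop, (Finset.range c0).sup nkSite < n ∧ ∀ v,
      ‖S.mn (fun q => ee d (slot o v (a v)) (ph q)) n -
        (x0 v - S.sm (ee d (slot o v (a v))))‖ < ε / 4 := by
    refine (eventually_gt_atTop _).and (eventually_all.2 fun v => ?_)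
    exact (tendsto_iff_norm_sub_tendsto_zero.1 (hae v)).eventually (gt_mem_nhds hε4)
  obtain ⟨nb, hnb, hnm⟩ := hev.exists
  have hn0 : ∀ c < c0, nkSite c < S.st nb := fun c hc =>
    ((Finset.le_sup (f := nkSite) (Finset.mem_range.2 hc)).trans_lt hnb).trans_le
      (S.stm.id_le nb)
  let u : Cf := fun β => if β.1 < S.st nb then a β.2.1 β else o β
  let δ : ℝ := min (1 / 2) (ε / 4)
  have hδ : 0 < δ := lt_min (by norm_num) hε4
  obtain ⟨η, hη0, hη1, hη2⟩ : ∃ η : ℝ, 0 < η ∧ η ≤ ε ∧ η ≤ 1 / 6 :=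
    ⟨min ε (1 / 6), lt_min hε (by norm_num), min_le_left _ _, min_le_right _ _⟩
  let lo : Fin 3 → ℝ := fun v => if s0 v ≤ 1 / 6 then s0 v + η / 4 else s0 v - η / 2
  let hi : Fin 3 → ℝ := fun v => if s0 v ≤ 1 / 6 then s0 v + η / 2 else s0 v - η / 4
  have hu0 : ∀ β : Ix, S.st nb ≤ β.1 → (u β).1 = 0 := fun β hβ => by
    simp only [u, if_neg (not_lt.2 hβ), ho0]
  have hs : ∀ s ∈ Icc lo hi, ∀ v, (s v ≠ 0 ∧ s v ∈ Icc (0 : ℝ) (1 / 3)) ∧
      dist (s v) (s0 v) < ε := fun s hs v => by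
    have h1 := hs.1 v
    have h2 := hs.2 v
    have h3 := (hs0 v).1
    have h4 := (hs0 v).2
    simp only [lo, hi] at h1 h2
    rw [Real.dist_eq, abs_lt]
    split_ifs at h1 h2 with h0
    · exact ⟨⟨by linarith, by linarith, by linarith⟩, by linarith, by linarith⟩
    · exact ⟨⟨by linarith [not_le.1 h0], by linarith [not_le.1 h0], by linarith⟩,
        by linarith, by linarith⟩
  have hz : ∀ N v, ∀ z ∈ Zg d u (S.st nb) δ lo hi (S.cv nb δ) N,
      z.2 ∈ KK d ∧ ∀ n, S.st (max N nb) ≤ n → (z.2 (n, v, 0)).1 = 0 := fun N v z hz =>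
    ⟨hz.1.2.1, fun n hn => by
      rw [hz.1.2.2.1 (n, v, 0) (Or.inr (((le_max_left _ _).trans (S.stm.id_le _)).trans hn))]
      exact hu0 _ ((S.stm.monotone (le_max_right _ _)).trans hn)⟩
  have he : ∀ N, ∀ z ∈ Zg d u (S.st nb) δ lo hi (S.cv nb δ) N, ∀ v,
      S.Pt (ee d (slot o v z.2)) (xg S d o v z.2 : E) := fun N z hzz v =>
    xg_pt S ho ho0 hzz.1.2.1 v _ (hz N v z hzz).2
  have hin : ∀ N, ∀ z ∈ Zg d u (S.st nb) δ lo hi (S.cv nb δ) N,
      ((h.g (∑ v, z.1 v • h.f (xg S d o v z.2)) : XG S d) : E) ∈ YG S d Tau ∧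
        ∀ v, ‖h.f (xg S d o v z.2)‖ ≤ B := fun N z hzz => by
    refine hb z.1 (fun v => xg S d o v z.2) (fun v => (hs _ hzz.1.1 v).1.2)
      (fun v => ⟨z.2, hzz.1.2.1, he N z hzz v⟩) (fun v => (hs _ hzz.1.1 v).2) fun v => ?_
    have e : ∀ c, nkSite c < S.st nb → ee d (slot o v z.2) c = ee d (slot o v (a v)) c :=
      fun c hc => nk_ee_congr d fun β hβ => by
        have hβ' : β.1 < S.st nb := hβ ▸ hc
        unfold slot
        split_ifs with hv
        · rw [hzz.1.2.2.1 β (Or.inl hβ')]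
          simp only [u, if_pos hβ', hv]
        · rfl
    have hp : ∀ q, ee d (slot o v z.2) (ph q) = (z.2 (q, v, 0)).1 := fun q => by
      rw [ee_ph, nk_slot_sum ho0]
    have h1 := gh_dist S (ξ0 := ee d (slot o v (a v))) (x0 := x0 v) (he N z hzz v)
      (le_max_right N nb) (fun q hq => by rw [hp, (hz N v z hzz).2 q hq])
      fun q hq => e _ (by rwa [nk_site_ph])
    have h2 := hc0 _ _ (ee_le (slot_mem ho hzz.1.2.1 v)) (ee_le (slot_mem ho (ha v) v))
      fun c hc => e c (hn0 c hc)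
    have h3 : ‖∑ q ∈ Finset.Ico (S.st nb) (S.st (max N nb)),
        ee d (slot o v z.2) (ph q) • S.b q‖ ≤ ε / 4 := by
      simp only [hp]
      exact (hzz.2 v (max N nb)).trans (min_le_right _ _)
    rw [dist_eq_norm]
    linarith [hnm v]
  refine ⟨m, Tau, W, g, G, u, nb, δ, lo, hi, B, hG,
    ⟨⟨fun β => ?_, fun n v => ?_⟩, hu0, hδ, min_le_left _ _, fun v => ?_, S.cv_cvx nb hδ,
      fun N => ?_, fun N z hzz => (hin N z hzz).1.2⟩,
    fun s hs' v => (hs s hs' v).1, fun N z hzz v => (hin N z hzz).2 v⟩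
  · simp only [u]
    split_ifs
    · exact (ha _).1 β
    · exact ho.1 β
  · simp only [u]
    split_ifs
    · exact (ha v).2 n v
    · exact ho.2 n v
  · simp only [lo, hi]
    split_ifs <;> linarith
  · refine (S.co_cont.comp continuous_subtype_val).comp_continuousOn (h.gc.comp
      (continuousOn_finsetSum _ fun v _ => ContinuousOn.smul ?_ ?_) fun z hzz =>
        h.cvx _ (fun v => (hs _ hzz.1.1 v).1.2) _)
    · exact ((continuous_apply v).comp continuous_fst).continuousOn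
    · exact h.fc.comp_continuousOn ((xg_cont S hd ho ho0 v (S.st (max N nb)) _
        fun _ ha => ha).comp continuous_snd.continuousOn (hz N v))

end Pool.Agent.P.MP_5aae23_gt.Nsg
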