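import Pool.Agent.P.MP_5aae23_gt.NLb
import Pool.Agent.P.MP_5aae23_gt.GDefs

open Set Filter Topology Function

namespace Pool.Agent.P.MP_5aae23_gt.Nsg

open Nsh

variable {E : Type*} [NormedAddCommGroup E] [NormedSpace ℝ E] (S : Frm E)
  {d : ℕ → Om → ℝ} {u : Cf} {δ : ℝ} {s : Finset ℕ} {v : Fin 3}

theorem gi_ev (β : Ix) : Continuous fun a : Cf => (a β).1 := (continuous_apply β).fst

theorem yb_cont (s : Finset ℕ) (v : Fin 3) : Continuous (yb S s v) :=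
  continuous_finsetSum _ fun _ _ => (gi_ev _).smul continuous_const

theorem mg_compact (hd : Dfam d) : IsCompact (MG S d u δ s v) := by
  classical
  have h1 : IsCompact (Set.pi univ fun β : Ix =>
      if β.1 ∈ s ∧ β.2.1 = v then Arc d (prm β) else {u β}) := by
    refine isCompact_univ_pi fun β => ?_
    split_ifs
    · exact arc_compact hd _
    · exact isCompact_singleton
  have h2 : MG S d u δ s v = (Set.pi univ fun β : Ix =>
      if β.1 ∈ s ∧ β.2.1 = v then Arc d (prm β) else {u β}) ∩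
      ((⋂ q, ⋂ _ : q ∈ s, ({a : Cf | |(a (q, v, 0)).1| ≤ δ} ∩ ({a : Cf | (a (q, v, 1)).1 = 0} ∩
        {a : Cf | (a (q, v, 2)).1 = -(a (q, v, 0)).1}))) ∩ {a | ‖yb S s v a‖ ≤ δ}) := by
    ext a
    constructor
    · rintro ⟨a1, a2, a3, a4⟩
      refine ⟨fun β _ => ?_, mem_iInter₂.2 a3, a4⟩
      by_cases h : β.1 ∈ s ∧ β.2.1 = v
      · simp only [if_pos h]
        exact a1 β h.1 h.2
      · simp only [if_neg h]
        exact a2 β h
    · rintro ⟨a1, a3, a4⟩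
      refine ⟨fun β b1 b2 => ?_, fun β h => ?_, mem_iInter₂.1 a3, a4⟩
      · have := a1 β (mem_univ β)
        simpa only [if_pos (And.intro b1 b2)] using this
      · have := a1 β (mem_univ β)
        simpa only [if_neg h, mem_singleton_iff] using this
  rw [h2]
  refine h1.inter_right (IsClosed.inter (isClosed_iInter fun q => isClosed_iInter fun _ => ?_)
    (isClosed_le (yb_cont S s v).norm continuous_const))
  exact (isClosed_le (gi_ev _).abs continuous_const).inter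
    ((isClosed_eq (gi_ev _) continuous_const).inter (isClosed_eq (gi_ev _) (gi_ev _).neg))

theorem mg_pt (hu : u ∈ KK d) (hδ : 0 ≤ δ) (h0 : ∀ β : Ix, β.1 ∈ s → (u β).1 = 0) :
    u ∈ MG S d u δ s v ∧ yb S s v u = 0 := by
  have h1 : yb S s v u = 0 :=
    Finset.sum_eq_zero fun q hq => by rw [h0 (q, v, 0) hq, zero_smul]
  refine ⟨⟨fun β _ _ => hu.1 β, fun _ _ => rfl, fun q hq => ?_, ?_⟩, h1⟩
  · rw [h0 (q, v, 0) hq, h0 (q, v, 1) hq, h0 (q, v, 2) hq]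
    exact ⟨by rwa [abs_zero], rfl, neg_zero.symm⟩
  · rwa [h1, norm_zero]

/-- The moving arcs. -/
def giX (s : Finset ℕ) (v : Fin 3) : Finset Ix := s ×ˢ (({v} : Finset (Fin 3)) ×ˢ Finset.univ)

theorem gi_mem {β : Ix} : β ∈ giX s v ↔ β.1 ∈ s ∧ β.2.1 = v := by
  simp only [giX, Finset.mem_product, Finset.mem_singleton, Finset.mem_univ, and_true]

/-- The admissible base values. -/
def giQ (u : Cf) (δ : ℝ) (s : Finset ℕ) (v : Fin 3) (Q : Set E) :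
    Set ((Fin 3 → ℝ) × (Ix → ℝ)) :=
  {w | w.1 = 0 ∧ (∀ β ∉ giX s v, w.2 β = (u β).1) ∧
    (∀ q ∈ s, |w.2 (q, v, 0)| ≤ δ ∧ w.2 (q, v, 1) = 0 ∧ w.2 (q, v, 2) = -w.2 (q, v, 0)) ∧
    ∑ q ∈ s, w.2 (q, v, 0) • S.b q ∈ Q}

theorem giQ_le {Q : Set E} (hδ : 0 ≤ δ) {w : (Fin 3 → ℝ) × (Ix → ℝ)} (hw : w ∈ giQ S u δ s v Q)
    {β : Ix} (hβ : β ∈ giX s v) : |w.2 β| ≤ δ := by
  obtain ⟨q, v', i⟩ := β
  obtain ⟨h1, h2⟩ := gi_mem.1 hβ
  obtain rfl : v' = v := h2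
  obtain ⟨a0, a1, a2⟩ := hw.2.2.1 q h1
  have h3 : ∀ i : Fin 3, i = 0 ∨ i = 1 ∨ i = 2 := by decide
  rcases h3 i with rfl | rfl | rfl
  · exact a0
  · rwa [a1, abs_zero]
  · rwa [a2, abs_neg]

theorem giQ_compact {Q : Set E} (hδ : 0 ≤ δ) (hk : IsClosed Q) :
    IsCompact (giQ S u δ s v Q) := by
  classical
  have ev : ∀ β : Ix, Continuous fun w : (Fin 3 → ℝ) × (Ix → ℝ) => w.2 β := fun β =>
    (continuous_apply β).comp continuous_snd
  have h1 : IsCompact (({0} : Set (Fin 3 → ℝ)) ×ˢ Set.pi univ fun β : Ix =>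
      if β ∈ giX s v then Icc (-δ) δ else {(u β).1}) := by
    refine isCompact_singleton.prod (isCompact_univ_pi fun β => ?_)
    split_ifs
    · exact isCompact_Icc
    · exact isCompact_singleton
  refine h1.of_isClosed_subset ?_ fun w hw => ⟨hw.1, fun β _ => ?_⟩
  · have h2 : giQ S u δ s v Q = {w | w.1 = 0} ∩
        ((⋂ β, ⋂ _ : β ∉ giX s v, {w | w.2 β = (u β).1}) ∩
        ((⋂ q, ⋂ _ : q ∈ s, ({w | |w.2 (q, v, 0)| ≤ δ} ∩ ({w | w.2 (q, v, 1) = 0} ∩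
          {w | w.2 (q, v, 2) = -w.2 (q, v, 0)}))) ∩
        (fun w => ∑ q ∈ s, w.2 (q, v, 0) • S.b q) ⁻¹' Q)) := by
      ext w
      constructor
      · rintro ⟨a1, a2, a3, a4⟩
        exact ⟨a1, mem_iInter₂.2 a2, mem_iInter₂.2 a3, a4⟩
      · rintro ⟨a1, a2, a3, a4⟩
        exact ⟨a1, mem_iInter₂.1 a2, mem_iInter₂.1 a3, a4⟩
    rw [h2]
    refine (isClosed_eq continuous_fst continuous_const).inter (IsClosed.inter
      (isClosed_iInter fun β => isClosed_iInter fun _ => isClosed_eq (ev β) continuous_const)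
      (IsClosed.inter (isClosed_iInter fun q => isClosed_iInter fun _ => ?_)
        (hk.preimage (continuous_finsetSum _ fun q _ => (ev _).smul continuous_const))))
    exact (isClosed_le (ev _).abs continuous_const).inter
      ((isClosed_eq (ev _) continuous_const).inter (isClosed_eq (ev _) (ev _).neg))
  · by_cases h : β ∈ giX s v
    · simp only [if_pos h]
      exact abs_le.1 (giQ_le S hδ hw h)
    · simp only [if_neg h]
      exact hw.2.1 β h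

theorem giQ_convex {Q : Set E} (hc : Convex ℝ Q) : Convex ℝ (giQ S u δ s v Q) := by
  intro w hw w' hw' a b ha hb hab
  have e : ∀ β, (a • w + b • w').2 β = a * w.2 β + b * w'.2 β := fun _ => rfl
  refine ⟨?_, fun β hβ => ?_, fun q hq => ?_, ?_⟩
  · show a • w.1 + b • w'.1 = 0
    rw [hw.1, hw'.1, smul_zero, smul_zero, add_zero]
  · rw [e, hw.2.1 β hβ, hw'.2.1 β hβ, ← add_mul, hab, one_mul]
  · obtain ⟨a0, a1, a2⟩ := hw.2.2.1 q hq
    obtain ⟨b0, b1, b2⟩ := hw'.2.2.1 q hq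
    rw [e, e, e, a1, b1, a2, b2]
    exact ⟨abs_le.2 (convex_Icc (-δ) δ (abs_le.1 a0) (abs_le.1 b0) ha hb hab), by ring, by ring⟩
  · have h1 := hc hw.2.2.2 hw'.2.2.2 ha hb hab
    rw [Finset.smul_sum, Finset.smul_sum, ← Finset.sum_add_distrib] at h1
    have h2 : ∑ q ∈ s, (a • w + b • w').2 (q, v, 0) • S.b q =
        ∑ q ∈ s, (a • w.2 (q, v, 0) • S.b q + b • w'.2 (q, v, 0) • S.b q) :=
      Finset.sum_congr rfl fun q _ => by rw [e, add_smul, mul_smul, mul_smul]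
    rwa [h2]

theorem mg_conn (hd : Dfam d) (hδ : δ ≤ 1 / 2) {Q : Set E} (hc : Convex ℝ Q) (hk : IsCompact Q)
    (hn : Q.Nonempty) (hQ : ∀ x ∈ Q, ‖x‖ ≤ δ ∧
      ∃ η : ℕ → ℝ, (∀ q, |η q| ≤ ‖x‖) ∧ x = ∑ q ∈ s, η q • S.b q) :
    IsConnected (MG S d u δ s v ∩ yb S s v ⁻¹' Q) := by
  classical
  obtain ⟨x, hx⟩ := hn
  obtain ⟨hxδ, η, hη, ex⟩ := hQ x hx
  have h0 : 0 ≤ δ := (norm_nonneg x).trans hxδ
  have hb : ∀ w ∈ giQ S u δ s v Q, (∀ β ∈ giX s v, |w.2 β| ≤ 1) ∧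
      ∀ β ∉ giX s v, w.2 β = (u β).1 := fun w hw =>
    ⟨fun β hβ => (giQ_le S h0 hw hβ).trans (by linarith), hw.2.1⟩
  have e : MG S d u δ s v ∩ yb S s v ⁻¹' Q = Prod.snd '' Pc d u (giX s v) (giQ S u δ s v Q) := by
    ext a
    constructor
    · rintro ⟨⟨a1, a2, a3, -⟩, a5⟩
      exact ⟨(0, a), ⟨⟨rfl, fun β hβ => congrArg Prod.fst (a2 β fun h => hβ (gi_mem.2 h)), a3, a5⟩,
        fun β hβ => a1 β (gi_mem.1 hβ).1 (gi_mem.1 hβ).2,
        fun β hβ => a2 β fun h => hβ (gi_mem.2 h)⟩, rfl⟩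
    · rintro ⟨z, ⟨⟨-, -, a3, a4⟩, a1, a2⟩, rfl⟩
      exact ⟨⟨fun β b1 b2 => a1 β (gi_mem.2 ⟨b1, b2⟩), fun β h => a2 β fun h' => h (gi_mem.1 h'),
        a3, (hQ _ a4).1⟩, a4⟩
  have hin : ∀ q ∈ s, ∀ i, ((q, v, i) : Ix) ∈ giX s v := fun q hq i => gi_mem.2 ⟨hq, rfl⟩
  have hw : ((0, fun β => if β ∈ giX s v then η β.1 * dir β.2.2 else (u β).1) :
      (Fin 3 → ℝ) × (Ix → ℝ)) ∈ giQ S u δ s v Q := by
    refine ⟨rfl, fun β hβ => if_neg hβ, fun q hq => ?_, ?_⟩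
    · simp only [if_pos (hin q hq _)]
      simpa [dir] using (hη q).trans hxδ
    · have h1 : ∑ q ∈ s, (if ((q, v, 0) : Ix) ∈ giX s v then η q * dir 0
          else (u (q, v, 0)).1) • S.b q = x := by
        rw [ex]
        exact Finset.sum_congr rfl fun q hq => by simp [if_pos (hin q hq 0), dir]
      exact h1 ▸ hx
  obtain ⟨z, hz, -⟩ := pc_surj hd hb _ hw
  rw [e]
  exact ⟨⟨z.2, z, hz, rfl⟩, (pc_conn hd (giQ_compact S h0 hk.isClosed) (giQ_convex S hc) hb).image _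
    continuous_snd.continuousOn⟩

theorem frozen_g {m : ℕ} {Tau : Set (Fin m → ℝ)} {n0 : ℕ} {lo hi : Fin 3 → ℝ}
    {Cv : Set (Ix → ℝ)} {Ψ : (Fin 3 → ℝ) × Cf → ℕ → ℝ} (hd : Dfam d)
    (hL : Log d Tau u n0 δ lo hi Cv Ψ) (q1 : ℕ) (yy : Fin 3 → ℝ) (hy : ∀ v, |yy v| ≤ δ) :
    ∃ u' ∈ KK d, (∀ β : Ix, β.1 ≠ q1 → u' β = u β) ∧
      ∀ v, (u' (q1, v, 0)).1 = 0 ∧ (u' (q1, v, 1)).1 = yy v := by
  have hδ := hL.dle
  have h1 : ∀ v i : Fin 3, |yy v * (![0, 1, -1] : Fin 3 → ℝ) i| ≤ 1 := fun v i => by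
    rw [abs_mul]
    refine mul_le_one₀ ((hy v).trans (by linarith)) (abs_nonneg _) ?_
    fin_cases i <;> simp
  choose a ha using fun v i : Fin 3 =>
    (fib_conn hd (fun j => (prm_prime (q1, v, i) j).ne_zero) _ (h1 v i)).nonempty
  have ha' : ∀ v i, (a v i).1 = yy v * (![0, 1, -1] : Fin 3 → ℝ) i := fun v i => (ha v i).2
  refine ⟨fun β => if β.1 = q1 then a β.2.1 β.2.2 else u β, ⟨fun β => ?_, fun n v => ?_⟩,
    fun β hβ => if_neg hβ, fun v => ?_⟩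
  · by_cases h : β.1 = q1
    · obtain ⟨n, v, i⟩ := β
      obtain rfl : n = q1 := h
      simpa using (ha v i).1
    · simpa only [if_neg h] using hL.umem.1 β
  · by_cases h : n = q1
    · simp only [if_pos h]
      rw [Fin.sum_univ_three, ha', ha', ha']
      simp
    · simpa only [if_neg h] using hL.umem.2 n v
  · simp [ha']

theorem cmb_g {m : ℕ} {Tau : Set (Fin m → ℝ)} {nb : ℕ} {lo hi : Fin 3 → ℝ}
    {Ψ : (Fin 3 → ℝ) × Cf → ℕ → ℝ} (hL : Log d Tau u (S.st nb) δ lo hi (S.cv nb δ) Ψ) {q1 : ℕ}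
    (hq : S.st nb ≤ q1) {u' : Cf} (hu : u' ∈ KK d) (hu1 : ∀ β : Ix, β.1 ≠ q1 → u' β = u β)
    (hu2 : ∀ v, (u' (q1, v, 0)).1 = 0 ∧ |(u' (q1, v, 1)).1| ≤ δ) (s : Fin 3 → Finset ℕ)
    (n : Fin 3 → ℕ) (hs : ∀ w, s w ⊆ Finset.Ico (S.st (n w)) (S.st (n w + 1)))
    (hs' : ∀ w, ∀ q ∈ s w, q1 < q) :
    ∃ N, ∀ σ ∈ Icc lo hi, ∀ c : Fin 3 → Cf, (∀ w, c w ∈ MG S d u' δ (s w) w) →
      (σ, cmb c) ∈ Zg d u (S.st nb) δ lo hi (S.cv nb δ) N := by
  refine ⟨(Finset.univ.sup fun w => S.st (n w + 1)) + q1 + 1, fun σ hσ c hc => ?_⟩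
  have h2 : ∀ q v i, q ∉ s v → c v (q, v, i) = u' (q, v, i) := fun q v i h =>
    (hc v).2.1 (q, v, i) fun h' => h h'.1
  have hz : ∀ q v, S.st nb ≤ q → q ∉ s v → (c v (q, v, 0)).1 = 0 := fun q v h1 h => by
    rw [h2 q v 0 h]
    by_cases he : q = q1
    · rw [he]
      exact (hu2 v).1
    · rw [hu1 _ he, hL.uzero _ h1]
  refine ⟨⟨hσ, ⟨fun β => ?_, fun q v => ?_⟩, fun β hβ => ?_, fun q v hq' => ?_⟩, fun v N => ?_⟩
  · by_cases hβ : β.1 ∈ s β.2.1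
    · exact (hc _).1 β hβ rfl
    · show c β.2.1 β ∈ _
      rw [(hc _).2.1 β fun h => hβ h.1]
      exact hu.1 β
  · show ∑ i, (c v (q, v, i)).1 = 0
    by_cases h : q ∈ s v
    · obtain ⟨-, a1, a2⟩ := (hc v).2.2.1 q h
      rw [Fin.sum_univ_three, a1, a2]
      ring
    · rw [Finset.sum_congr rfl fun i _ => congrArg Prod.fst (h2 q v i h)]
      exact hu.2 q v
  · show c β.2.1 β = u β
    have hb : β.1 ∉ s β.2.1 := by
      intro h
      have h3 := (Finset.mem_Ico.1 (hs _ h)).2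
      have h4 := Finset.le_sup (f := fun w => S.st (n w + 1)) (Finset.mem_univ β.2.1)
      have h5 := hs' _ _ h
      omega
    rw [(hc _).2.1 β fun h => hb h.1, hu1 β (by omega)]
  · show |(c v (q, v, 0)).1| ≤ δ ∧ |(c v (q, v, 1)).1| ≤ δ
    by_cases h : q ∈ s v
    · obtain ⟨a0, a1, -⟩ := (hc v).2.2.1 q h
      exact ⟨a0, by rw [a1, abs_zero]; exact hL.dpos.le⟩
    · refine ⟨by rw [hz q v hq' h, abs_zero]; exact hL.dpos.le, ?_⟩
      rw [h2 q v 1 h]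
      by_cases he : q = q1
      · rw [he]
        exact (hu2 v).2
      · rw [hu1 _ he, hL.uzero _ hq', abs_zero]
        exact hL.dpos.le
  · show ‖∑ q ∈ Finset.Ico (S.st nb) (S.st N), (c v (q, v, 0)).1 • S.b q‖ ≤ δ
    by_cases hN : n v < N
    · have h3 : s v ⊆ Finset.Ico (S.st nb) (S.st N) := fun q h =>
        Finset.mem_Ico.2 ⟨hq.trans (hs' v q h).le,
          (Finset.mem_Ico.1 (hs v h)).2.trans_le (S.stm.monotone hN)⟩
      rw [← Finset.sum_subset h3 fun q h h' => by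
        rw [hz q v (Finset.mem_Ico.1 h).1 h', zero_smul]]
      exact (hc v).2.2.2
    · rw [Finset.sum_eq_zero fun q h => by
        rw [hz q v (Finset.mem_Ico.1 h).1 fun h' => ?_, zero_smul]
        have h3 := (Finset.mem_Ico.1 (hs v h')).1
        have h4 := (Finset.mem_Ico.1 h).2
        have h5 := S.stm.monotone (not_lt.1 hN)
        omega, norm_zero]
      exact hL.dpos.le

end Pool.Agent.P.MP_5aae23_gt.Nsg
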