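import Pool.Agent.P.MP_5aae23_gt.NT

/-! The asymptotic embedding property for `c₀` and for `ℓ_p`. -/

open Filter Topology Module
open scoped ENNReal

namespace Pool.Agent.P.MP_5aae23_gt.Nsg

variable {E F : Type*} [NormedAddCommGroup E] [NormedSpace ℝ E] [NormedAddCommGroup F]

theorem in_ker {A : Type*} [NormedAddCommGroup A] [NormedSpace ℝ A] [FiniteDimensional ℝ A]
    (S : Finset (E →L[ℝ] ℝ)) (h : S.card < finrank ℝ A) (g : A →ₗ[ℝ] E) :
    ∃ w : A, ‖w‖ = 1 ∧ ∀ f ∈ S, f (g w) = 0 := by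
  obtain ⟨w, hw, h0⟩ := (Submodule.ne_bot_iff _).1 (LinearMap.ker_ne_bot_of_finrank_lt
    (f := LinearMap.pi fun f : S => (f.1 : E →ₗ[ℝ] ℝ).comp g) (by simpa using h))
  refine ⟨‖w‖⁻¹ • w, norm_smul_inv_norm (𝕜 := ℝ) h0, fun f hf => ?_⟩
  have : f (g w) = 0 := congrFun (LinearMap.mem_ker.1 hw) ⟨f, hf⟩
  rw [map_smul, map_smul, this, smul_zero]

theorem in_vec [NormedSpace ℝ F] {K : ℝ} {m : ℕ} {S : Finset (E →L[ℝ] ℝ)}
    (h : ∀ G : Submodule ℝ E, FiniteDimensional ℝ G → finrank ℝ G ≤ m →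
      (∀ f ∈ S, ∀ x ∈ G, f x = 0) → ∃ T : G →ₗ[ℝ] F, ∀ x, ‖x‖ ≤ ‖T x‖ ∧ ‖T x‖ ≤ K * ‖x‖)
    (v : Fin m → E) (hv : ∀ f ∈ S, ∀ j, f (v j) = 0) :
    ∃ e : Fin m → F, ∀ a : Fin m → ℝ,
      ‖∑ j, a j • v j‖ ≤ ‖∑ j, a j • e j‖ ∧ ‖∑ j, a j • e j‖ ≤ K * ‖∑ j, a j • v j‖ := by
  obtain ⟨T, hT⟩ := h (Submodule.span ℝ (Set.range v))
    (FiniteDimensional.span_of_finite ℝ (Set.finite_range v))
    ((finrank_range_le_card v).trans (by simp)) fun f hf x hx => by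
      obtain ⟨a, rfl⟩ := (Submodule.mem_span_range_iff_exists_fun ℝ).1 hx
      simp [hv f hf]
  refine ⟨fun j => T ⟨v j, Submodule.subset_span ⟨j, rfl⟩⟩, fun a => ?_⟩
  have := hT (∑ j, a j • ⟨v j, Submodule.subset_span ⟨j, rfl⟩⟩)
  simp only [map_sum, map_smul] at this
  simpa [← Submodule.norm_coe] using this

theorem in_pair {N L : ℕ} : Function.Injective fun x : Fin N × Fin L => Nat.pair x.1 x.2 := by
  intro x y h
  obtain ⟨h1, h2⟩ := Nat.pair_eq_pair.1 h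
  exact Prod.ext (Fin.ext h1) (Fin.ext h2)

/-- The unit vectors of `c₀`. -/
noncomputable def inDelta (n : ℕ) : ZeroAtInftyContinuousMap ℕ ℝ where
  toFun := Pi.single n 1
  continuous_toFun := continuous_of_discreteTopology
  zero_at_infty' := by
    rw [cocompact_eq_atTop]
    refine tendsto_const_nhds.congr' ?_
    filter_upwards [eventually_gt_atTop n] with k hk
    exact (Pi.single_eq_of_ne (M := fun _ : ℕ => ℝ) hk.ne' _).symm

theorem in_sum_apply {ι : Type*} (s : Finset ι) (x : ι → ZeroAtInftyContinuousMap ℕ ℝ) (n : ℕ) :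
    (∑ i ∈ s, x i) n = ∑ i ∈ s, x i n := by
  classical
  induction s using Finset.induction_on with
  | empty => simp
  | insert a s ha ih => simp [Finset.sum_insert ha, ih]

theorem in_c0_norm {ι : Type*} [Fintype ι] {φ : ι → ℕ} (hφ : Function.Injective φ) (c : ι → ℝ) :
    ‖∑ i, c i • inDelta (φ i)‖ = ‖c‖ := by
  classical
  have h0 : ∀ n, (∑ i, c i • inDelta (φ i)) n = ∑ i, if n = φ i then c i else 0 := by
    intro n
    rw [in_sum_apply]
    refine Finset.sum_congr rfl fun i _ => ?_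
    change c i * (Pi.single (φ i) (1 : ℝ) : ℕ → ℝ) n = _
    simp [Pi.single_apply]
  have h1 : ∀ i, (∑ i, c i • inDelta (φ i)) (φ i) = c i := fun i => by
    simp [h0, hφ.eq_iff]
  rw [← ZeroAtInftyContinuousMap.norm_toBCF_eq_norm]
  refine le_antisymm ((BoundedContinuousFunction.norm_le (norm_nonneg _)).2 fun n => ?_)
    ((pi_norm_le_iff_of_nonneg (norm_nonneg _)).2 fun i => ?_)
  · change ‖(∑ i, c i • inDelta (φ i)) n‖ ≤ _
    by_cases h : ∃ i, n = φ i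
    · obtain ⟨i, rfl⟩ := h
      rw [h1]
      exact norm_le_pi_norm c i
    · rw [h0, Finset.sum_eq_zero fun i _ => if_neg fun e => h ⟨i, e⟩, norm_zero]
      exact norm_nonneg _
  · rw [← h1 i]
    exact BoundedContinuousFunction.norm_coe_le_norm
      (∑ i, c i • inDelta (φ i)).toBCF (φ i)

theorem in_c0 [NormedSpace ℝ F]
    (h : ∃ K : ℝ, ∀ m : ℕ, ∃ S : Finset (ZeroAtInftyContinuousMap ℕ ℝ →L[ℝ] ℝ),
      ∀ G : Submodule ℝ (ZeroAtInftyContinuousMap ℕ ℝ), FiniteDimensional ℝ G →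
        finrank ℝ G ≤ m → (∀ f ∈ S, ∀ x ∈ G, f x = 0) →
        ∃ T : G →ₗ[ℝ] F, ∀ x, ‖x‖ ≤ ‖T x‖ ∧ ‖T x‖ ≤ K * ‖x‖)
    (ε : ℝ) (hε : 0 < ε) (N : ℕ) : ∃ e : Fin N → F, ∀ a : Fin N → ℝ,
      ‖a‖ ≤ ‖∑ j, a j • e j‖ ∧ ‖∑ j, a j • e j‖ ≤ (1 + ε) * ‖a‖ := by
  obtain ⟨K, hK⟩ := h
  refine Nsh.almost_iso (C := K) (fun m => ?_) hε N
  obtain ⟨S, hS⟩ := hK m
  choose W hW1 hW2 using fun j : Fin m => in_ker (A := Fin (S.card + 1) → ℝ) S (by simp)
    (Fintype.linearCombination ℝ fun l => inDelta (Nat.pair j l))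
  obtain ⟨e, he⟩ := in_vec hS _ fun f hf j => hW2 j f hf
  refine ⟨e, fun a => ?_⟩
  have h1 : ‖∑ j, a j • Fintype.linearCombination ℝ
      (fun l : Fin (S.card + 1) => inDelta (Nat.pair j l)) (W j)‖ = ‖a‖ := by
    have h2 := in_c0_norm (in_pair (N := m) (L := S.card + 1)) fun x => a x.1 * W x.1 x.2
    simp only [Fintype.sum_prod_type] at h2
    simp only [Fintype.linearCombination_apply, Finset.smul_sum, smul_smul]
    rw [h2]
    refine le_antisymm ((pi_norm_le_iff_of_nonneg (norm_nonneg _)).2 fun x => ?_)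
      ((pi_norm_le_iff_of_nonneg (norm_nonneg _)).2 fun j => ?_)
    · rw [norm_mul]
      exact (mul_le_of_le_one_right (norm_nonneg _)
        ((norm_le_pi_norm (W x.1) x.2).trans (hW1 _).le)).trans (norm_le_pi_norm a x.1)
    · have h3 : ‖a j • W j‖ ≤ ‖fun x : Fin m × Fin (S.card + 1) => a x.1 * W x.1 x.2‖ :=
        (pi_norm_le_iff_of_nonneg (norm_nonneg _)).2 fun l =>
          norm_le_pi_norm (fun x : Fin m × Fin (S.card + 1) => a x.1 * W x.1 x.2) (j, l)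
      rwa [norm_smul, hW1, mul_one] at h3
  have := he a
  rwa [h1] at this

theorem in_lp_norm {p : ℝ≥0∞} [Fact (1 ≤ p)] (hp : 0 < p.toReal) {ι : Type*} [Fintype ι]
    {φ : ι → ℕ} (hφ : Function.Injective φ) (c : ι → ℝ) :
    ‖∑ i, c i • (lp.single p (φ i) (1 : ℝ) : lp (fun _ : ℕ => ℝ) p)‖ ^ p.toReal =
      ∑ i, ‖c i‖ ^ p.toReal := by
  have h := lp.norm_sum_single (E := fun _ : ℕ => ℝ) hp (Function.extend φ c 0)
    (Finset.univ.image φ)
  rw [Finset.sum_image hφ.injOn, Finset.sum_image hφ.injOn] at h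
  simp only [hφ.extend_apply] at h
  rw [← h]
  congr 2
  refine Finset.sum_congr rfl fun i _ => ?_
  rw [← lp.single_smul, smul_eq_mul, mul_one]

theorem in_sign [InnerProductSpace ℝ F] {ι : Type*} (e : ι → F) (σ : ℝ) (s : Finset ι) :
    ∃ a : ι → ℝ, (∀ j, ‖a j‖ = 1) ∧
      σ * ‖∑ j ∈ s, a j • e j‖ ^ 2 ≤ σ * ∑ j ∈ s, ‖e j‖ ^ 2 := by
  classical
  induction s using Finset.induction_on with
  | empty => exact ⟨fun _ => 1, by simp, by simp⟩
  | insert i s hi ih =>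
    obtain ⟨a, ha, h⟩ := ih
    obtain ⟨t, ht, h1⟩ : ∃ t : ℝ, ‖t‖ = 1 ∧ σ * (t * inner ℝ (e i) (∑ j ∈ s, a j • e j)) ≤ 0 := by
      rcases le_total (σ * inner ℝ (e i) (∑ j ∈ s, a j • e j)) 0 with h0 | h0
      · exact ⟨1, by simp, by simpa using h0⟩
      · exact ⟨-1, by simp, by simpa using h0⟩
    refine ⟨Function.update a i t, fun j => ?_, ?_⟩
    · by_cases hj : j = i
      · simpa [hj] using ht
      · simpa [hj] using ha j
    · have h2 : ∑ j ∈ s, Function.update a i t j • e j = ∑ j ∈ s, a j • e j :=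
        Finset.sum_congr rfl fun j hj => by
          rw [Function.update_of_ne (ne_of_mem_of_not_mem hj hi)]
      rw [Finset.sum_insert hi, Finset.sum_insert hi, h2, Function.update_self, norm_add_sq_real,
        norm_smul, ht, one_mul, real_inner_smul_left]
      linarith

theorem in_lp [InnerProductSpace ℝ F] (p : ℝ≥0∞) [Fact (1 ≤ p)] (hp : p ≠ ⊤) (h2 : p ≠ 2) :
    ¬ ∃ K : ℝ, ∀ m : ℕ, ∃ S : Finset (lp (fun _ : ℕ => ℝ) p →L[ℝ] ℝ),
      ∀ G : Submodule ℝ (lp (fun _ : ℕ => ℝ) p), FiniteDimensional ℝ G →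
        finrank ℝ G ≤ m → (∀ f ∈ S, ∀ x ∈ G, f x = 0) →
        ∃ T : G →ₗ[ℝ] F, ∀ x, ‖x‖ ≤ ‖T x‖ ∧ ‖T x‖ ≤ K * ‖x‖ := by
  rintro ⟨K, hK⟩
  have hp0 : 0 < p.toReal :=
    ENNReal.toReal_pos (zero_lt_one.trans_le (Fact.out : 1 ≤ p)).ne' hp
  have ht2 : p.toReal ≠ 2 := fun h =>
    h2 ((ENNReal.toReal_eq_toReal_iff' hp (by simp)).1 (by simpa using h))
  have key : ∀ m : ℕ, (m : ℝ) ^ (2 / p.toReal) ≤ K ^ 2 * m ∧
      (m : ℝ) ≤ K ^ 2 * (m : ℝ) ^ (2 / p.toReal) := by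
    intro m
    obtain ⟨S, hS⟩ := hK m
    choose W hW1 hW2 using fun j : Fin m =>
      in_ker (A := PiLp p fun _ : Fin (S.card + 1) => ℝ) S
        (by rw [(WithLp.linearEquiv p ℝ (Fin (S.card + 1) → ℝ)).finrank_eq]; simp)
        ((Fintype.linearCombination ℝ fun l : Fin (S.card + 1) =>
          (lp.single p (Nat.pair j l) (1 : ℝ) : lp (fun _ : ℕ => ℝ) p)).comp
            (WithLp.linearEquiv p ℝ _).toLinearMap)
    obtain ⟨e, he⟩ := in_vec hS _ fun f hf j => hW2 j f hf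
    have hW3 : ∀ j, ∑ l, ‖W j l‖ ^ p.toReal = 1 := by
      intro j
      have h3 := hW1 j
      rw [PiLp.norm_eq_sum hp0] at h3
      have h4 := congrArg (· ^ p.toReal) h3
      rwa [Real.one_rpow, one_div, Real.rpow_inv_rpow
        (Finset.sum_nonneg fun l _ => by positivity) hp0.ne'] at h4
    have he' : ∀ a : Fin m → ℝ, (∑ j, ‖a j‖ ^ p.toReal) ^ (1 / p.toReal) ≤ ‖∑ j, a j • e j‖ ∧
        ‖∑ j, a j • e j‖ ≤ K * (∑ j, ‖a j‖ ^ p.toReal) ^ (1 / p.toReal) := by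
      intro a
      have h3 := in_lp_norm hp0 (in_pair (N := m) (L := S.card + 1)) fun x => a x.1 * W x.1 x.2
      simp only [Fintype.sum_prod_type, norm_mul,
        Real.mul_rpow (norm_nonneg _) (norm_nonneg _), ← Finset.mul_sum, hW3, mul_one] at h3
      have h4 := he a
      simp only [LinearMap.comp_apply, Fintype.linearCombination_apply, Finset.smul_sum,
        smul_smul] at h4
      rw [← h3, one_div, Real.rpow_rpow_inv (norm_nonneg _) hp0.ne']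
      exact h4
    have h1 : ∀ j, 1 ≤ ‖e j‖ ^ 2 ∧ ‖e j‖ ^ 2 ≤ K ^ 2 := by
      intro j
      have h3 := he' (Pi.single j 1)
      have h4 : ∑ i, ‖(Pi.single j (1 : ℝ) : Fin m → ℝ) i‖ ^ p.toReal = 1 := by
        rw [Finset.sum_eq_single j (fun i _ hi => by simp [hi, hp0.ne']) (by simp)]
        simp
      have h5 : ∑ i, (Pi.single j (1 : ℝ) : Fin m → ℝ) i • e i = e j := by
        rw [Finset.sum_eq_single j (fun i _ hi => by simp [hi]) (by simp)]
        simp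
      rw [h4, h5, Real.one_rpow, mul_one] at h3
      exact ⟨one_le_pow₀ h3.1, pow_le_pow_left₀ (norm_nonneg _) h3.2 2⟩
    have hs : ∀ a : Fin m → ℝ, (∀ j, ‖a j‖ = 1) →
        (m : ℝ) ^ (2 / p.toReal) ≤ ‖∑ j, a j • e j‖ ^ 2 ∧
          ‖∑ j, a j • e j‖ ^ 2 ≤ K ^ 2 * (m : ℝ) ^ (2 / p.toReal) := by
      intro a ha
      have h3 := he' a
      simp only [ha, Real.one_rpow, Finset.sum_const, Finset.card_univ, Fintype.card_fin,
        nsmul_eq_mul, mul_one] at h3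
      have h4 : (m : ℝ) ^ (2 / p.toReal) = ((m : ℝ) ^ (1 / p.toReal)) ^ 2 := by
        rw [← Real.rpow_natCast, ← Real.rpow_mul (Nat.cast_nonneg m)]
        congr 1
        push_cast
        ring
      rw [h4, ← mul_pow]
      exact ⟨pow_le_pow_left₀ (by positivity) h3.1 2, pow_le_pow_left₀ (norm_nonneg _) h3.2 2⟩
    obtain ⟨a, ha, ha'⟩ := in_sign e 1 Finset.univ
    obtain ⟨b, hb, hb'⟩ := in_sign e (-1) Finset.univ
    have u1 : ∑ j, ‖e j‖ ^ 2 ≤ K ^ 2 * m := by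
      have := Finset.sum_le_card_nsmul Finset.univ (fun j => ‖e j‖ ^ 2) _ fun j _ => (h1 j).2
      simpa [mul_comm] using this
    have u2 : (m : ℝ) ≤ ∑ j, ‖e j‖ ^ 2 := by
      have := Finset.card_nsmul_le_sum Finset.univ (fun j => ‖e j‖ ^ 2) _ fun j _ => (h1 j).1
      simpa using this
    have := (hs a ha).1
    have := (hs b hb).2
    constructor <;> linarith
  have big : ∀ r : ℝ, 0 < r → ∃ m : ℕ, 0 < (m : ℝ) ∧ K ^ 2 < (m : ℝ) ^ r := by
    intro r hr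
    have := ((tendsto_rpow_atTop hr).comp tendsto_natCast_atTop_atTop).eventually_gt_atTop (K ^ 2)
    obtain ⟨m, h3, h4⟩ := (this.and (eventually_gt_atTop 0)).exists
    exact ⟨m, by exact_mod_cast h4, h3⟩
  rcases lt_or_gt_of_ne ht2 with h | h
  · obtain ⟨m, h3, h4⟩ := big (2 / p.toReal - 1) (sub_pos.2 ((one_lt_div hp0).2 h))
    rw [Real.rpow_sub_one h3.ne', lt_div_iff₀ h3] at h4
    exact absurd (key m).1 (not_le.2 h4)
  · obtain ⟨m, h3, h4⟩ := big (1 - 2 / p.toReal) (sub_pos.2 ((div_lt_one hp0).2 h))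
    rw [Real.rpow_sub h3, Real.rpow_one, lt_div_iff₀ (Real.rpow_pos_of_pos h3 _)] at h4
    exact absurd (key m).2 (not_le.2 h4)

end Pool.Agent.P.MP_5aae23_gt.Nsg
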