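import Pool.Agent.P.MP_5aae23_gt.GD

open Set Filter Topology Function

namespace Pool.Agent.P.MP_5aae23_gt.Nsg

open Nsh

section

variable {E : Type*} [NormedAddCommGroup E] [NormedSpace ℝ E] (S : Frm E)

/-- The tail of a linear family of sequences. -/
noncomputable def gvTail {m : ℕ} (κ : (Fin m → ℝ) →ₗ[ℝ] (ℕ → ℝ)) (M : ℕ) :
    (Fin m → ℝ) →ₗ[ℝ] (ℕ → ℝ) where
  toFun t q := if M ≤ q then κ t q else 0
  map_add' t t' := by
    funext q
    by_cases h : M ≤ q <;> simp [h]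
  map_smul' r t := by
    funext q
    by_cases h : M ≤ q <;> simp [h]

theorem gvTail_apply {m : ℕ} (κ : (Fin m → ℝ) →ₗ[ℝ] (ℕ → ℝ)) (M : ℕ) (t : Fin m → ℝ) (q : ℕ) :
    gvTail κ M t q = if M ≤ q then κ t q else 0 := rfl

theorem gv_conv_sub {η η' : ℕ → ℝ} {μ μ' : E} (h : S.Conv η μ) (h' : S.Conv η' μ') :
    S.Conv (η - η') (μ - μ') := by
  have := S.conv_add h (S.conv_smul (-1) h')
  simpa [sub_eq_add_neg] using this

theorem gv_bk_sub (η η' : ℕ → ℝ) (n : ℕ) : S.bk (η - η') n = S.bk η n - S.bk η' n := by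
  simp [Frm.bk, sub_smul, Finset.sum_sub_distrib]

theorem gv_bk {U : Filter ℕ} {η : ℕ → ℕ → ℝ} {μ : ℕ → E} {η' : ℕ → ℝ} {μ' : E} {n : ℕ → ℕ}
    (h : ∀ k, S.Conv (η k) (μ k)) (h' : S.Conv η' μ') (hμ : Tendsto μ U (𝓝 μ'))
    (hn : Tendsto n U atTop) : Tendsto (fun k => S.bk (η k) (n k)) U (𝓝 0) := by
  have h1 : Tendsto (fun k => S.bk η' (n k)) U (𝓝 0) := (S.bk_zero h').comp hn
  have h2 : Tendsto (fun k => S.bk (η k - η') (n k)) U (𝓝 0) := by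
    have h3 : Tendsto (fun k => 4 * ‖μ k - μ'‖) U (𝓝 0) := by
      have := (tendsto_iff_norm_sub_tendsto_zero.1 hμ).const_mul 4
      simpa using this
    exact squeeze_zero_norm (fun k => S.bk_le (gv_conv_sub S (h k) h') (n k)) h3
  have h4 := h2.add h1
  rw [add_zero] at h4
  refine h4.congr fun k => ?_
  rw [gv_bk_sub, sub_add_cancel]

theorem gv_tail {m : ℕ} (κ : (Fin m → ℝ) →ₗ[ℝ] (ℕ → ℝ)) (nb : ℕ) {a η : ℕ → ℝ} {μ : E}
    {t : Fin m → ℝ} {N : ℕ} (ha : S.Conv a μ) (hf : ∀ q, S.st nb ≤ q → a q = η q + κ t q)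
    (hη : ∀ q, S.st N ≤ q → η q = 0) :
    S.Conv (gvTail κ (S.st nb) t)
      (μ - S.mn (fun q => if S.st nb ≤ q then 0 else a q - η q) nb - S.mn η N) := by
  have h1 : S.Conv (fun q => if S.st nb ≤ q then 0 else a q - η q)
      (S.mn (fun q => if S.st nb ≤ q then 0 else a q - η q) nb) :=
    S.conv_fin fun q hq => if_pos hq
  have h2 := gv_conv_sub S (gv_conv_sub S ha h1) (S.conv_fin hη)
  have e : (a - (fun q => if S.st nb ≤ q then 0 else a q - η q) - η) =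
      gvTail κ (S.st nb) t := by
    funext q
    rw [gvTail_apply]
    by_cases hq : S.st nb ≤ q
    · simp only [Pi.sub_apply, if_pos hq, hf q hq]
      ring
    · simp only [Pi.sub_apply, if_neg hq]
      ring
  rwa [e] at h2

end

variable {E : Type*} [NormedAddCommGroup E] [NormedSpace ℝ E] [CompleteSpace E] (S : Frm E)

theorem Frm.clg {m : ℕ} (κ : (Fin m → ℝ) →ₗ[ℝ] (ℕ → ℝ)) (U : Ultrafilter ℕ) (nb : ℕ)
    {x : ℕ → E} {ξ : ℕ → ℕ → ℝ} {ξ' : ℕ → ℝ} {C : ℝ} {t : ℕ → Fin m → ℝ} {t' : Fin m → ℝ}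
    {η : ℕ → ℕ → ℝ} {n : ℕ → ℕ} (hx : ∀ k, S.Pt (ξ k) (x k)) (hC : ∀ k c, |ξ k c| ≤ C)
    (hξ : Tendsto ξ U (𝓝 ξ')) (ht : Tendsto t U (𝓝 t'))
    (hf : ∀ k q, S.st nb ≤ q → ξ k (ph q) = η k q + κ (t k) q)
    (hη : ∀ k q, q ∉ Finset.Ico (S.st (n k)) (S.st (n k + 1)) → η k q = 0)
    (hη' : ∀ k q, q < S.st nb → η k q = 0)
    (h0 : Tendsto (fun k => S.bk (η k) (n k)) U (𝓝 0)) :
    ∃ z, S.Pt ξ' z ∧ Tendsto x U (𝓝 z) := by
  obtain ⟨ν, -, hν⟩ := S.nu (gvTail κ (S.st nb))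
  have hmn : ∀ k, S.mn (η k) (n k + 1) = S.bk (η k) (n k) := by
    intro k
    rw [S.mn_succ]
    have : S.mn (η k) (n k) = 0 := by
      refine Finset.sum_eq_zero fun q hq => ?_
      rw [hη k q fun h' => absurd (Finset.mem_Ico.1 h').1 (not_le.2 (Finset.mem_range.1 hq)),
        zero_smul]
    rw [this, zero_add]
  have hhd : ∀ k, S.mn (fun q => if S.st nb ≤ q then 0 else ξ k (ph q) - η k q) nb =
      ∑ q ∈ Finset.range (S.st nb), ξ k (ph q) • S.b q := by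
    intro k
    refine Finset.sum_congr rfl fun q hq => ?_
    have hq' := Finset.mem_range.1 hq
    simp only [if_neg (not_le.2 hq'), hη' k q hq', sub_zero]
  have hdec : ∀ k, x k = S.sm (ξ k) + (∑ q ∈ Finset.range (S.st nb), ξ k (ph q) • S.b q) +
      S.bk (η k) (n k) + ν (t k) := by
    intro k
    have h1 := gv_tail S κ nb (N := n k + 1) (hx k) (hf k) fun q hq =>
      hη k q fun h' => absurd (Finset.mem_Ico.1 h').2 (not_lt.2 hq)
    have h2 := hν _ _ h1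
    rw [hmn, hhd] at h2
    rw [← h2]
    abel
  have l1 := S.sm_tendsto (Eventually.of_forall hC) hξ
  have l2 : Tendsto (fun k => ∑ q ∈ Finset.range (S.st nb), ξ k (ph q) • S.b q) U
      (𝓝 (∑ q ∈ Finset.range (S.st nb), ξ' (ph q) • S.b q)) :=
    tendsto_finsetSum _ fun q _ => (tendsto_pi_nhds.1 hξ (ph q)).smul_const _
  have l3 : Tendsto (fun k => ν (t k)) U (𝓝 (ν t')) := (ν.continuous.tendsto t').comp ht
  have l4 := (((l1.add l2).add h0).add l3).congr fun k => (hdec k).symm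
  exact ⟨_, S.pt_lim (Eventually.of_forall fun k => ⟨hx k, hC k⟩) hξ l4, l4⟩

theorem Frm.cvg {m : ℕ} (κ : (Fin m → ℝ) →ₗ[ℝ] (ℕ → ℝ)) (U : Ultrafilter ℕ) (nb : ℕ)
    {x : ℕ → E} {ξ : ℕ → ℕ → ℝ} {C : ℝ} {t : ℕ → Fin m → ℝ} {t' : Fin m → ℝ}
    {η : ℕ → ℕ → ℝ} {n : ℕ → ℕ} {z : E} (hx : ∀ k, S.Pt (ξ k) (x k)) (hC : ∀ k c, |ξ k c| ≤ C)
    (ht : Tendsto t U (𝓝 t')) (hf : ∀ k q, S.st nb ≤ q → ξ k (ph q) = η k q + κ (t k) q)
    (hη : ∀ k, ∃ N, ∀ q, N ≤ q → η k q = 0) (hz : S.Pt (S.co z) z) (hl : Tendsto x U (𝓝 z))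
    (hn : Tendsto n U atTop) : Tendsto (fun k => S.bk (η k) (n k)) U (𝓝 0) := by
  obtain ⟨ν, hcl, hν⟩ := S.nu (gvTail κ (S.st nb))
  have hc : ∀ k, S.Conv (gvTail κ (S.st nb) (t k)) (ν (t k)) := by
    intro k
    obtain ⟨N, hN⟩ := hη k
    have h1 := gv_tail S κ nb (N := N) (hx k) (hf k) fun q hq =>
      hN q ((S.stm.le_apply).trans hq)
    rwa [hν _ _ h1] at h1
  have hc' : S.Conv (gvTail κ (S.st nb) t') (ν t') :=
    hcl.mem_of_tendsto ht (Eventually.of_forall hc)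
  have l3 : Tendsto (fun k => ν (t k)) U (𝓝 (ν t')) := (ν.continuous.tendsto t').comp ht
  have b2 := gv_bk S hc hc' l3 hn
  have hξ : Tendsto ξ U (𝓝 (S.co z)) :=
    ((S.co_cont.tendsto z).comp hl).congr fun k => S.co_eq (hC k) (hx k)
  have l1 := S.sm_tendsto (Eventually.of_forall hC) hξ
  have b1 := gv_bk S (η := fun k q => ξ k (ph q)) hx hz (hl.sub l1) hn
  have b3 := b1.sub b2
  rw [sub_zero] at b3
  refine b3.congr' ?_
  filter_upwards [hn.eventually (eventually_ge_atTop nb)] with k hk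
  rw [← gv_bk_sub]
  refine Finset.sum_congr rfl fun q hq => ?_
  have hq' : S.st nb ≤ q := (S.stm.monotone hk).trans (Finset.mem_Ico.1 hq).1
  simp only [Pi.sub_apply, gvTail_apply, if_pos hq', hf k q hq', add_sub_cancel_right]

end Pool.Agent.P.MP_5aae23_gt.Nsg
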