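import Pool.Agent.P.MP_5aae23_gt.GE
import Pool.Agent.P.MP_5aae23_gt.GI
import Pool.Agent.P.MP_5aae23_gt.GV

open Set Filter Topology Function

namespace Pool.Agent.P.MP_5aae23_gt.Nsg

open Nsh

variable {E : Type*} [NormedAddCommGroup E] [NormedSpace ℝ E] [CompleteSpace E] (S : Frm E)
  {H : Type*} [NormedAddCommGroup H] [NormedSpace ℝ H] {d : ℕ → Om → ℝ} {m : ℕ}
  {Tau W : Set (Fin m → ℝ)} {g G : ℝ} {u o : Cf} {nb : ℕ} {δ B : ℝ} {lo hi : Fin 3 → ℝ}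
  {A : ℕ → Fin 3 → Finset (Fin m)} {p0 : Fin m → Cf} {yy : ℕ → Fin 3 → ℝ}

omit [CompleteSpace E] in
theorem gj_blk {q n n' : ℕ} (h : q ∈ Finset.Ico (S.st n) (S.st (n + 1)))
    (h' : q ∈ Finset.Ico (S.st n') (S.st (n' + 1))) : n = n' := by
  rw [Finset.mem_Ico] at h h'
  have h1 := S.stm.lt_iff_lt.1 (h.1.trans_lt h'.2)
  have h2 := S.stm.lt_iff_lt.1 (h'.1.trans_lt h.2)
  omega

/-- The constant part of the normal form as a linear map. -/
noncomputable def gjK (d : ℕ → Om → ℝ) {m : ℕ} (p0 : Fin m → Cf) : (Fin m → ℝ) →ₗ[ℝ] (ℕ → ℝ) where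
  toFun t := fun q => ∑ j, t j * ee d (p0 j) (ph q)
  map_add' t t' := funext fun q => by simp [add_mul, Finset.sum_add_distrib]
  map_smul' r t := funext fun q => by simp [Finset.mul_sum, mul_assoc]

theorem asg_one (hd : Dfam d) (h : Emg (XG S d) H) (ho : o ∈ KK d) (ho0 : ∀ β, (o β).1 = 0)
    (hG : Good Tau W g G) (hL : Log d Tau u (S.st nb) δ lo hi (S.cv nb δ) (psi S d h o))
    (hs : ∀ s ∈ Icc lo hi, ∀ v, s v ≠ 0 ∧ s v ∈ Icc (0 : ℝ) (1 / 3))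
    (hx : ∀ N, ∀ z ∈ Zg d u (S.st nb) δ lo hi (S.cv nb δ) N, ∀ v, ‖h.f (xg S d o v z.2)‖ ≤ B)
    (hN : Nfm d Tau W u (S.st nb) δ lo hi (S.cv nb δ) (psi S d h o) A p0 yy) {q1 : ℕ}
    (hq : S.st nb ≤ q1) (s : ℕ → Finset ℕ)
    (hs1 : ∀ n, s n ⊆ Finset.Ico (S.st n) (S.st (n + 1)))
    (hs2 : ∀ n, ∀ q ∈ s n, q1 < q ∧ A q = A q1)
    (hs3 : ∀ n, s n = ∅ ∨ Module.finrank ℝ (S.F n) ≤ (s n).card)
    (hgap : ∀ v, ∀ t ∈ Tau, g ≤ |∑ j ∈ A q1 v, t j| ∧ |∑ j ∈ A q1 v, t j| ≤ G) :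
    ∃ A' : Asg E H, ∀ n, Module.finrank ℝ (S.F n) ≤ (s n).card → A'.F n = S.F n := by
  classical
  obtain ⟨u', hu', hu1, hu2⟩ := frozen_g hd hL q1 (yy q1) (hN.yle q1)
  have hu2' : ∀ v, (u' (q1, v, 0)).1 = 0 ∧ |(u' (q1, v, 1)).1| ≤ δ := fun v =>
    ⟨(hu2 v).1, by rw [(hu2 v).2]; exact hN.yle q1 v⟩
  have hu0 : ∀ q v, S.st nb ≤ q → (u' (q, v, 0)).1 = 0 := by
    intro q v hn
    by_cases he : q = q1
    · rw [he]
      exact (hu2 v).1
    · rw [hu1 _ he]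
      exact hL.uzero _ hn
  have hsq : ∀ n, ∀ q ∈ s n, S.st nb ≤ q := fun n q h1 => hq.trans (hs2 n q h1).1.le
  have hlo : lo ∈ Icc lo hi := ⟨le_rfl, fun v => (hL.lohi v).le⟩
  let M : Fin 3 → ℕ → Set Cf := fun v n => MG S d u' δ (s n) v
  have hpt : ∀ v n, u' ∈ M v n ∧ yb S (s n) v u' = 0 := fun v n =>
    mg_pt S hu' hL.dpos.le fun β hβ => by
      rw [hu1 β (hs2 n _ hβ).1.ne']
      exact hL.uzero _ (hsq n _ hβ)
  have hadm : ∀ n : Fin 3 → ℕ, ∃ N, ∀ σ ∈ Icc lo hi, ∀ c : Fin 3 → Cf,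
      (∀ w, c w ∈ M w (n w)) → (σ, cmb c) ∈ Zg d u (S.st nb) δ lo hi (S.cv nb δ) N := fun n =>
    cmb_g S hL hq hu' hu1 hu2' (fun w => s (n w)) n (fun w => hs1 _) fun w q h1 => (hs2 _ q h1).1
  let J : Fin 3 → Cf → H := fun v a => h.f (xg S d o v a)
  let PX : (Fin 3 → ℝ) → (Fin 3 → Cf) → XG S d := fun σ c => h.g (∑ v, σ v • J v (c v))
  let PS : (Fin 3 → ℝ) → (Fin 3 → Cf) → ℕ → ℝ := fun σ c => S.co (PX σ c : E)
  have hPS : ∀ (σ : Fin 3 → ℝ) (c : Fin 3 → Cf), psi S d h o (σ, cmb c) = PS σ c := by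
    intro σ c
    simp only [psi, PS, PX, J, fun v => xg_congr S (d := d) (slot_cmb o c v)]
  have hfg : ∀ y ∈ range h.f, h.f (h.g y) = y := by
    rintro _ ⟨x, rfl⟩
    rw [h.gf]
  have hrg : ∀ σ ∈ Icc lo hi, ∀ c : Fin 3 → Cf, ∑ v, σ v • J v (c v) ∈ range h.f :=
    fun σ hσ c => h.cvx σ (fun v => (hs σ hσ v).2) _
  have hy0 : ∀ v n, ∀ a ∈ M v n, ∀ q, S.st nb ≤ q → q ∉ s n → (a (q, v, 0)).1 = 0 := by
    intro v n a ha q h1 h2
    rw [ha.2.1 (q, v, 0) fun h3 => h2 h3.1]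
    exact hu0 q v h1
  have hrep : ∀ σ ∈ Icc lo hi, ∀ (n : Fin 3 → ℕ) (c : Fin 3 → Cf),
      (∀ w, c w ∈ M w (n w)) → ∃ t p, Rep d Tau (PS σ c) t p := by
    intro σ hσ n c hc
    obtain ⟨N, h1⟩ := hadm n
    rw [← hPS]
    exact hL.rep N _ (h1 σ hσ c hc)
  have hwd : ∀ σ ∈ Icc lo hi, ∀ (n : Fin 3 → ℕ) (c : Fin 3 → Cf),
      (∀ w, c w ∈ M w (n w)) → ∀ t p t' p', Rep d Tau (PS σ c) t p →
      Rep d Tau (PS σ c) t' p' → ∀ v, ∑ j ∈ A q1 v, t j = ∑ j ∈ A q1 v, t' j := by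
    intro σ hσ n c hc t p t' p' hr hr' v
    obtain ⟨N, h0⟩ := hadm n
    have h1 : (cmb c (q1, v, 1)).1 = yy q1 v := by
      show (c v (q1, v, 1)).1 = _
      rw [(hc v).2.1 (q1, v, 1) fun h3 => (hs2 _ _ h3.1).1.false]
      exact (hu2 v).2
    rw [hN.mass N _ (h0 σ hσ c hc) t p (by rw [hPS]; exact hr) q1 hq v h1,
      hN.mass N _ (h0 σ hσ c hc) t' p' (by rw [hPS]; exact hr') q1 hq v h1]
    have := ms_congr (cons hd hr hr' (q1, v, 1)) fun a => if a.1 = yy q1 v then 1 else 0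
    simpa only [mul_ite, mul_one, mul_zero] using this
  let lam : (Fin 3 → ℝ) → (Fin 3 → Cf) → Fin 3 → ℝ := fun σ c v =>
    if hh : ∃ t p, Rep d Tau (PS σ c) t p then ∑ j ∈ A q1 v, hh.choose j else 0
  have hlam : ∀ σ ∈ Icc lo hi, ∀ (n : Fin 3 → ℕ) (c : Fin 3 → Cf),
      (∀ w, c w ∈ M w (n w)) → ∀ t p, Rep d Tau (PS σ c) t p → ∀ v,
      lam σ c v = ∑ j ∈ A q1 v, t j := by
    intro σ hσ n c hc t p hr v
    have hh := hrep σ hσ n c hc
    obtain ⟨p', hp'⟩ := hh.choose_spec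
    simp only [lam, dif_pos hh]
    exact hwd σ hσ n c hc _ _ _ _ hp' hr v
  let η : (Fin 3 → ℝ) → (Fin 3 → Cf) → ℕ → ℝ := fun σ c q =>
    if S.st nb ≤ q then ∑ v, lam σ c v * (c v (q, v, 0)).1 else 0
  have hη0 : ∀ σ (n : Fin 3 → ℕ) (c : Fin 3 → Cf), (∀ w, c w ∈ M w (n w)) → ∀ q,
      (∀ w, q ∉ s (n w)) → η σ c q = 0 := by
    intro σ n c hc q h1
    simp only [η]
    split_ifs with h2
    · exact Finset.sum_eq_zero fun v _ => by rw [hy0 v _ _ (hc v) q h2 (h1 v), mul_zero]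
    · rfl
  have hmain : ∀ σ ∈ Icc lo hi, ∀ (n : Fin 3 → ℕ) (c : Fin 3 → Cf),
      (∀ w, c w ∈ M w (n w)) → ∀ t p, Rep d Tau (PS σ c) t p → ∀ q, S.st nb ≤ q →
      PS σ c (ph q) = η σ c q + gjK d p0 t q := by
    intro σ hσ n c hc t p hr q h1
    obtain ⟨N, h0⟩ := hadm n
    have h2 := hN.form N _ (h0 σ hσ c hc) t p (by rw [hPS]; exact hr) q h1
    rw [hPS] at h2
    rw [h2]
    simp only [η, if_pos h1]
    refine congrArg₂ (· + ·) (Finset.sum_congr rfl fun v _ => ?_) rfl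
    show _ * (c v (q, v, 0)).1 = _
    by_cases h3 : q ∈ s (n v)
    · rw [(hs2 _ q h3).2, hlam σ hσ n c hc t p hr v]
    · rw [hy0 v _ _ (hc v) q h1 h3, mul_zero, mul_zero]
  have hbk : ∀ σ (n : Fin 3 → ℕ) (c : Fin 3 → Cf), (∀ w, c w ∈ M w (n w)) → ∀ n',
      S.bk (η σ c) n' = ∑ v, lam σ c v • yb S (s n') v (c v) := by
    intro σ n c hc n'
    unfold Frm.bk yb
    rw [← Finset.sum_subset (hs1 n') fun q h1 h2 => by
      rw [hη0 σ n c hc q fun w h3 => h2 (gj_blk S (hs1 _ h3) h1 ▸ h3), zero_smul]]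
    simp only [Finset.smul_sum, smul_smul]
    rw [Finset.sum_comm]
    refine Finset.sum_congr rfl fun q h1 => ?_
    simp only [η, if_pos (hsq n' q h1), Finset.sum_smul]
  have hone : ∀ v n, ∀ a ∈ M v n, ∃ N, (lo, a) ∈ Zg d u (S.st nb) δ lo hi (S.cv nb δ) N := by
    intro v n a ha
    obtain ⟨N, h1⟩ := hadm fun _ => n
    have h2 := h1 lo hlo (Function.update (fun _ => u') v a) fun w => by
      by_cases hw : w = v
      · subst hw
        simpa using ha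
      · simpa [hw] using (hpt w n).1
    have h3 : cmb (Function.update (fun _ => u') v a) = a := by
      funext β
      by_cases hb : β.2.1 = v
      · simp [cmb, hb]
      · simp only [cmb, Function.update_of_ne hb]
        exact (ha.2.1 β fun h4 => hb h4.2).symm
    exact ⟨N, h3 ▸ h2⟩
  obtain ⟨Cb, hCb⟩ := rep_bd (d := d) hG.cpt
  refine ⟨{
    C := range h.f
    lo := lo, hi := hi, δ := δ, g := g, G := G, B := B
    F := fun n => if Module.finrank ℝ (S.F n) ≤ (s n).card then S.F n else ⊥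
    y := fun n v => yb S (s n) v
    M := M, pt := u', J := J, lam := lam
    lohi := hL.lohi, sne := fun σ hσ v => (hs σ hσ v).1, dpos := hL.dpos, gpos := hG.gpos
    ycont := fun n v => yb_cont S _ v
    Mcpt := fun v n => mg_compact S hd
    ptm := fun v n => (hpt v n).1
    pty := fun v n => (hpt v n).2
    ymem := ?_, yzero := ?_, Mconn := ?_, Jle := ?_, Jcont := ?_
    lcont := ?_, lbd := ?_, cl := ?_, cv := ?_ }, fun n hn => if_pos hn⟩
  · intro v n a ha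
    refine ⟨?_, ha.2.2.2⟩
    split_ifs with h1
    · exact Submodule.sum_mem _ fun q h2 => Submodule.smul_mem _ _ (S.bmem n q (hs1 n h2))
    · simp [yb, (hs3 n).resolve_right h1]
  · intro v n n' hn a ha
    refine Finset.sum_eq_zero fun q h1 => ?_
    rw [hy0 v n a ha q (hsq _ q h1) fun h2 => hn (gj_blk S (hs1 _ h1) (hs1 _ h2)), zero_smul]
  · intro v n Q hc hk hn hQ
    refine mg_conn S hd hL.dle hc hk hn fun x hxQ => ⟨(hQ x hxQ).2, ?_⟩
    have h1 := (hQ x hxQ).1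
    split_ifs at h1 with h2
    · exact S.spn n _ (hs1 n) h2 x h1
    · exact ⟨0, fun q => by simp, by simpa using h1⟩
  · intro v n a ha
    obtain ⟨N, h1⟩ := hone v n a ha
    exact hx N _ h1 v
  · intro v n
    refine h.fc.comp_continuousOn (xg_cont S hd ho ho0 v (max (S.st nb) (S.st (n + 1))) _
      fun a ha => ⟨?_, fun q h1 => hy0 v n a ha q (le_of_max_le_left h1) fun h2 => ?_⟩)
    · obtain ⟨N, h1⟩ := hone v n a ha
      exact h1.1.2.1
    · exact (Finset.mem_Ico.1 (hs1 n h2)).2.not_ge (le_of_max_le_right h1)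
  · intro n v z0 hz0
    obtain ⟨N, h0⟩ := hadm n
    have hcont : ContinuousOn (fun z : (Fin 3 → ℝ) × (Fin 3 → Cf) => PS z.1 z.2)
        (Icc lo hi ×ˢ Set.pi univ fun w => M w (n w)) := by
      have h1 := (hL.cont N).comp
        (continuous_fst.prodMk (cmb_cont.comp continuous_snd)).continuousOn
        (s := Icc lo hi ×ˢ Set.pi univ fun w => M w (n w))
        fun z hz => h0 z.1 hz.1 z.2 fun w => hz.2 w trivial
      exact h1.congr fun z _ => (hPS z.1 z.2).symm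
    refine (tendsto_iff_ultrafilter _ _ _).2 fun U hU => ?_
    have hex : ∀ z : (Fin 3 → ℝ) × (Fin 3 → Cf), ∃ t p,
        z ∈ (Icc lo hi ×ˢ Set.pi univ fun w => M w (n w)) → Rep d Tau (PS z.1 z.2) t p := by
      intro z
      by_cases hz : z ∈ (Icc lo hi ×ˢ Set.pi univ fun w => M w (n w))
      · obtain ⟨t, p, hr⟩ := hrep z.1 hz.1 n z.2 fun w => hz.2 w trivial
        exact ⟨t, p, fun _ => hr⟩
      · exact ⟨0, p0, fun hz' => absurd hz' hz⟩
    choose t p hr using hex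
    have hev : ∀ᶠ z in (U : Filter _), z ∈ (Icc lo hi ×ˢ Set.pi univ fun w => M w (n w)) :=
      hU self_mem_nhdsWithin
    obtain ⟨t', p', hr', ht, hxl⟩ := replim hd hG.cpt U _ t p (hev.mono hr)
    rw [tendsto_nhds_unique hxl ((hcont z0 hz0).mono_left hU)] at hr'
    show Tendsto _ _ (𝓝 (lam z0.1 z0.2 v))
    rw [hlam z0.1 hz0.1 n z0.2 (fun w => hz0.2 w trivial) t' p' hr' v]
    have hc : Continuous fun t : Fin m → ℝ => ∑ j ∈ A q1 v, t j := by fun_prop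
    refine ((hc.tendsto _).comp ht).congr' ?_
    filter_upwards [hev] with z hz
    exact (hlam z.1 hz.1 n z.2 (fun w => hz.2 w trivial) _ _ (hr z hz) v).symm
  · intro σ hσ n c hc v
    obtain ⟨t, p, hr⟩ := hrep σ hσ n c hc
    rw [hlam σ hσ n c hc t p hr v]
    exact hgap v t hr.1
  · intro U σ n c hσ hc h0
    choose t p hr using fun k => hrep (σ k) (hσ k) (fun _ => n k) (c k) (hc k)
    obtain ⟨t', p', hr', ht, hxl⟩ := replim hd hG.cpt U _ t p (Eventually.of_forall hr)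
    obtain ⟨z, hz, hzl⟩ := S.clg (gjK d p0) U nb (x := fun k => (PX (σ k) (c k) : E))
      (η := fun k => η (σ k) (c k)) (n := n) (fun k => ((mem_xg S).1 (PX (σ k) (c k)).2).1)
      (fun k => hCb _ _ _ (hr k)) hxl ht
      (fun k => hmain _ (hσ k) (fun _ => n k) _ (hc k) _ _ (hr k))
      (fun k q h1 => hη0 _ (fun _ => n k) _ (hc k) q fun _ h2 => h1 (hs1 _ h2))
      (fun k q h1 => if_neg h1.not_ge)
      (h0.congr fun k => (hbk _ (fun _ => n k) _ (hc k) _).symm)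
    have hzX : z ∈ XG S d := Submodule.subset_span ⟨_, Submodule.sum_mem _ fun j _ =>
      Submodule.smul_mem _ _ (Submodule.subset_span ⟨p' j, hr'.2.1 j, rfl⟩), hz⟩
    have h6 : Tendsto (fun k => PX (σ k) (c k)) U (𝓝 ⟨z, hzX⟩) := tendsto_subtype_rng.2 hzl
    refine ⟨h.f ⟨z, hzX⟩, ⟨_, rfl⟩, ((h.fc.tendsto _).comp h6).congr fun k => ?_⟩
    exact hfg _ (hrg _ (hσ k) _)
  · intro U σ n c n' x hxC hσ hc hn hxl
    choose t p hr using fun k => hrep (σ k) (hσ k) (n k) (c k) (hc k)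
    obtain ⟨t', p', -, ht, -⟩ := replim hd hG.cpt U _ t p (Eventually.of_forall hr)
    have h2 := (continuous_subtype_val.tendsto _).comp ((h.gc x hxC).tendsto.comp
      (tendsto_nhdsWithin_iff.2 ⟨hxl, Eventually.of_forall fun k => hrg _ (hσ k) _⟩))
    have h3 := S.cvg (gjK d p0) U nb (x := fun k => (PX (σ k) (c k) : E))
      (η := fun k => η (σ k) (c k)) (n := n') (fun k => ((mem_xg S).1 (PX (σ k) (c k)).2).1)
      (fun k => hCb _ _ _ (hr k)) ht (fun k => hmain _ (hσ k) (n k) _ (hc k) _ _ (hr k))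
      (fun k => ⟨Finset.univ.sup fun w => S.st (n k w + 1), fun q h1 =>
        hη0 _ (n k) _ (hc k) q fun w h2 => (Finset.mem_Ico.1 (hs1 _ h2)).2.not_ge
          ((Finset.le_sup (f := fun w => S.st (n k w + 1)) (Finset.mem_univ w)).trans h1)⟩)
      ((mem_xg S).1 (h.g x).2).1 h2 hn
    exact h3.congr fun k => hbk _ (n k) _ (hc k) _

end Pool.Agent.P.MP_5aae23_gt.Nsg
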