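import Pool.Agent.P.MP_5aae23_gt.GF
import Pool.Agent.P.MP_5aae23_gt.GG
import Pool.Agent.P.MP_5aae23_gt.GH
import Pool.Agent.P.MP_5aae23_gt.GJ
import Pool.Agent.P.MP_5aae23_gt.CLa

open Set Filter Topology Function

namespace Pool.Agent.P.MP_5aae23_gt.Nsg

open Nsh

variable {E : Type*} [NormedAddCommGroup E] [NormedSpace ℝ E] [CompleteSpace E] (S : Frm E)
  {H : Type*} [NormedAddCommGroup H] [NormedSpace ℝ H] {d : ℕ → Om → ℝ}

theorem asg_of (hd : Dfam d) (h : Emg (XG S d) H) : ∃ 𝒜 : Set (Asg E H), 𝒜.Finite ∧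
    ∃ N0, ∀ n, N0 ≤ n → ∃ A ∈ 𝒜, A.F n = S.F n := by
  classical
  obtain ⟨o, ho, ho0⟩ := exists_o hd
  obtain ⟨m, Tau, W, g, G, u, nb, δ, lo, hi, B, hG, hL, hs, hx⟩ := baire_g S hd h ho ho0
  obtain ⟨A, p0, yy, hN⟩ := nfg hd hG hL
  have hlo : lo ∈ Icc lo hi := ⟨le_rfl, fun v => (hL.lohi v).le⟩
  obtain ⟨t0, p1, hr0⟩ := hL.rep 0 (lo, u) (by
    refine ⟨⟨hlo, hL.umem, fun _ _ => rfl, fun n v hn => ?_⟩, ?_⟩
    · rw [hL.uzero _ hn, hL.uzero _ hn, abs_zero]
      exact ⟨hL.dpos.le, hL.dpos.le⟩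
    · obtain ⟨ε, hε, h1⟩ := hL.cvx.abs 0
      refine h1 _ (fun q v hq => ?_) fun q v _ hq => hL.uzero _ hq
      rw [hL.uzero _ hq, abs_zero]
      exact hε.le)
  have hfg : ∀ y ∈ range h.f, h.f (h.g y) = y := by
    rintro _ ⟨x, rfl⟩
    rw [h.gf]
  have hco : ∀ N a v, (lo, a) ∈ Zg d u (S.st nb) δ lo hi (S.cv nb δ) N →
      S.co (xg S d o v a : E) = ee d (slot o v a) := by
    intro N a v ha
    refine S.co_eq (ee_le (slot_mem ho ha.1.2.1 v)) (xg_pt S ho ho0 ha.1.2.1 v
      (max N (S.st nb)) fun q hq => ?_)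
    have h1 : a (q, v, 0) = u (q, v, 0) := ha.1.2.2.1 (q, v, 0) (Or.inr (le_of_max_le_left hq))
    exact (congrArg Prod.fst h1).trans (hL.uzero _ (le_of_max_le_right hq))
  have hinj : ∀ v N a a', (lo, a) ∈ Zg d u (S.st nb) δ lo hi (S.cv nb δ) N →
      (lo, a') ∈ Zg d u (S.st nb) δ lo hi (S.cv nb δ) N →
      (∀ β : Ix, β.2.1 ≠ v → a β = a' β) → psi S d h o (lo, a) = psi S d h o (lo, a') →
      a = a' := by
    intro v N a a' ha ha' he hΨ
    have h2 : ∑ w, lo w • h.f (xg S d o w a) = ∑ w, lo w • h.f (xg S d o w a') := by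
      have h1 := congrArg h.f (co_inj S hΨ)
      rwa [hfg _ (h.cvx lo (fun w => (hs lo hlo w).2) _),
        hfg _ (h.cvx lo (fun w => (hs lo hlo w).2) _)] at h1
    have h3 : ∀ w, w ≠ v → xg S d o w a = xg S d o w a' := by
      intro w hw
      refine xg_congr S (funext fun β => ?_)
      simp only [slot]
      split_ifs with hb
      · exact he β (hb ▸ hw)
      · rfl
    rw [← Finset.add_sum_erase _ _ (Finset.mem_univ v),
      ← Finset.add_sum_erase _ _ (Finset.mem_univ v),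
      Finset.sum_congr (g := fun w => lo w • h.f (xg S d o w a')) rfl fun w hw =>
        congrArg (fun x => lo w • h.f x) (h3 w (Finset.ne_of_mem_erase hw))] at h2
    have h4 := smul_right_injective H (hs lo hlo v).1 (add_right_cancel h2)
    have h5 : xg S d o v a = xg S d o v a' :=
      (h.gf _).symm.trans ((congrArg h.g h4).trans (h.gf _))
    have h6 : slot o v a = slot o v a' :=
      ee_inj hd (((hco N a v ha).symm.trans (by rw [h5])).trans (hco N a' v ha'))
    funext β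
    by_cases hb : β.2.1 = v
    · simpa [slot, hb] using congrFun h6 β
    · exact he β hb
  have key : ∀ P : Fin 3 → Finset (Fin m), ∃ (b : ℕ) (𝒜 : Set (Asg E H)), 𝒜.Finite ∧
      ∀ n, b ≤ n → Module.finrank ℝ (S.F n) ≤
        ((Finset.Ico (S.st n) (S.st (n + 1))).filter fun q => A q = P).card →
        ∃ A' ∈ 𝒜, A'.F n = S.F n := by
    intro P
    by_cases hP : {q | S.st nb ≤ q ∧ A q = P}.Infinite
    · obtain ⟨q1, hq, hq1⟩ := hP.nonempty
      have hm := Nat.nth_mem_of_infinite hP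
      obtain ⟨A', hA'⟩ := asg_one S hd h ho ho0 hG hL hs hx hN hq
        (fun n => if q1 < n ∧ Module.finrank ℝ (S.F n) ≤
          ((Finset.Ico (S.st n) (S.st (n + 1))).filter fun q => A q = P).card then
          (Finset.Ico (S.st n) (S.st (n + 1))).filter fun q => A q = P else ∅)
        (fun n => by
          split_ifs
          · exact Finset.filter_subset _ _
          · exact Finset.empty_subset _)
        (fun n q h1 => by
          split_ifs at h1 with h2
          · obtain ⟨h3, h4⟩ := Finset.mem_filter.1 h1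
            exact ⟨(h2.1.trans_le (S.stm.le_apply)).trans_le (Finset.mem_Ico.1 h3).1,
              h4.trans hq1.symm⟩
          · simp at h1)
        (fun n => by
          split_ifs with h2
          · exact Or.inr h2.2
          · exact Or.inl rfl)
        (fun v => (hG.gap (A q1 v)).resolve_left fun hz =>
          flat_g hd hG hL v _ (Nat.nth_injective hP) (fun k => (hm k).1)
            (fun k s hsW => hN.flat _ v (hm k).1 s hsW (by
              rw [(hm k).2, ← hq1]
              simpa using hG.pat t0 hr0.1 t0 hr0.1 (A q1 v) ∅ (by simpa using hz t0 hr0.1) s hsW))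
            (hinj v))
      refine ⟨q1 + 1, {A'}, finite_singleton _, fun n h1 h2 => ⟨A', rfl, hA' n ?_⟩⟩
      rw [if_pos ⟨h1, h2⟩]
      exact h2
    · obtain ⟨b, hb⟩ := (not_infinite.1 hP).bddAbove
      refine ⟨max (b + 1) nb, ∅, finite_empty, fun n h1 h2 => ?_⟩
      obtain ⟨q, h3⟩ := Finset.card_pos.1 ((S.pos n).trans_le h2)
      obtain ⟨h4, h5⟩ := Finset.mem_filter.1 h3
      have h6 := (Finset.mem_Ico.1 h4).1
      have h7 : q ≤ b := hb ⟨(S.stm.monotone (le_of_max_le_right h1)).trans h6, h5⟩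
      have h8 : n ≤ S.st n := S.stm.le_apply
      have h9 := le_of_max_le_left h1
      omega
  choose b 𝒜 hf hA using key
  refine ⟨⋃ P, 𝒜 P, finite_iUnion hf,
    Finset.univ.sup b + Fintype.card (Fin 3 → Finset (Fin m)), fun n hn => ?_⟩
  obtain ⟨P, -, hP⟩ := Finset.exists_le_card_fiber_of_mul_le_card_of_maps_to
    (s := Finset.Ico (S.st n) (S.st (n + 1))) (t := Finset.univ) (f := A)
    (n := Module.finrank ℝ (S.F n)) (fun _ _ => Finset.mem_univ _) Finset.univ_nonempty (by
      rw [Nat.card_Ico, Finset.card_univ]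
      have h1 := S.card n
      have h2 := Nat.mul_le_mul_right (Module.finrank ℝ (S.F n))
        (show Fintype.card (Fin 3 → Finset (Fin m)) ≤ n + 1 by omega)
      omega)
  obtain ⟨A', h1, h2⟩ := hA P n
    ((Finset.le_sup (Finset.mem_univ P)).trans ((Nat.le_add_right _ _).trans hn)) hP
  exact ⟨A', mem_iUnion.2 ⟨P, h1⟩, h2⟩

end Pool.Agent.P.MP_5aae23_gt.Nsg
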