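import Pool.Agent.P.MP_5aae23_gt.NO
import Pool.Agent.P.MP_5aae23_gt.GDefs

open Set Filter Topology Function

namespace Pool.Agent.P.MP_5aae23_gt.Nsg

open Nsh

variable {E : Type*} [NormedAddCommGroup E] [NormedSpace ℝ E]
  {H : Type*} [NormedAddCommGroup H] [NormedSpace ℝ H] (A : Asg E H)

theorem Asg.lo_mem : A.lo ∈ Icc A.lo A.hi := ⟨le_rfl, fun v => (A.lohi v).le⟩

theorem Asg.g_le : A.g ≤ A.G :=
  have h := A.lbd _ A.lo_mem (fun _ => 0) (fun _ => A.pt) (fun w => A.ptm w 0) 0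
  h.1.trans h.2

theorem Asg.G_pos : 0 < A.G := A.gpos.trans_le A.g_le

theorem Asg.d1_pos : 0 < A.d1 := div_pos (mul_pos A.dpos A.gpos) (mul_pos four_pos A.G_pos)

theorem Asg.d2_pos : 0 < A.d2 := div_pos (mul_pos A.d1_pos A.gpos) (mul_pos two_pos A.G_pos)

theorem Asg.d1_le : A.d1 ≤ A.δ * A.g / A.G :=
  div_le_div_of_nonneg_left (mul_pos A.dpos A.gpos).le A.G_pos (by linarith [A.G_pos])

theorem Asg.dg_le : A.δ * A.g / A.G ≤ A.δ := by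
  rw [div_le_iff₀ A.G_pos]
  exact mul_le_mul_of_nonneg_left A.g_le A.dpos.le

theorem Asg.d2_le : A.d2 ≤ A.d1 := by
  rw [Asg.d2, div_le_iff₀ (mul_pos two_pos A.G_pos)]
  exact mul_le_mul_of_nonneg_left (by linarith [A.g_le, A.G_pos]) A.d1_pos.le

theorem Asg.sur (v : Fin 3) {n : ℕ} {x : E} (hx : x ∈ A.F n) (h : ‖x‖ ≤ A.δ) :
    ∃ a ∈ A.M v n, A.y n v a = x := by
  obtain ⟨a, ha, e⟩ := (A.Mconn v n {x} (convex_singleton x) isCompact_singleton ⟨x, rfl⟩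
    (by rintro _ rfl; exact ⟨hx, h⟩)).nonempty
  exact ⟨a, ha, e⟩

theorem Asg.gm_seg (w : Fin 3) {n : ℕ} {x : E} (hx : x ∈ A.F n) {R : ℝ} (hR : 0 ≤ R)
    (h : R * ‖x‖ ≤ A.δ) : ∃ S ⊆ A.M w n, IsCompact S ∧ IsPreconnected S ∧ ∃ φ : Cf → ℝ,
      Continuous φ ∧ (∃ a ∈ S, φ a = -(R * ‖x‖)) ∧ (∃ b ∈ S, φ b = R * ‖x‖) ∧
      ∀ r ∈ S, ∀ q : ℝ, φ r = q * ‖x‖ → A.y n w r = q • x := by
  obtain ⟨f, -, hf⟩ := exists_dual_vector'' ℝ x
  have hf1 : ∀ t : ℝ, f (t • x) = t * ‖x‖ := fun t => by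
    rw [map_smul, hf]
    simp
  let Q : Set E := (fun t : ℝ => t • x) '' Icc (-R) R
  have hn1 : ∀ t : ℝ, |t| ≤ R → t • x ∈ A.F n ∧ ‖t • x‖ ≤ A.δ := fun t ht =>
    ⟨(A.F n).smul_mem t hx, (norm_smul t x).le.trans
      ((mul_le_mul_of_nonneg_right ht (norm_nonneg x)).trans h)⟩
  have hQ : IsCompact Q := isCompact_Icc.image (continuous_id.smul continuous_const)
  have e1 : |-R| ≤ R := by rw [abs_neg, abs_of_nonneg hR]
  have e2 : |R| ≤ R := (abs_of_nonneg hR).le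
  obtain ⟨a, ha, ea⟩ := A.sur w (hn1 _ e1).1 (hn1 _ e1).2
  obtain ⟨b, hb, eb⟩ := A.sur w (hn1 _ e2).1 (hn1 _ e2).2
  refine ⟨A.M w n ∩ A.y n w ⁻¹' Q, inter_subset_left,
    (A.Mcpt w n).inter_right (hQ.isClosed.preimage (A.ycont n w)),
    (A.Mconn w n Q ((convex_Icc _ _).linear_image (LinearMap.toSpanSingleton ℝ E x)) hQ
      ⟨_, _, abs_le.1 e2, rfl⟩ ?_).isPreconnected, fun r => f (A.y n w r),
    f.continuous.comp (A.ycont n w), ⟨a, ⟨ha, _, abs_le.1 e1, ea.symm⟩, ?_⟩,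
    ⟨b, ⟨hb, _, abs_le.1 e2, eb.symm⟩, ?_⟩, ?_⟩
  · rintro _ ⟨t, ht, rfl⟩
    exact hn1 t (abs_le.2 ht)
  · simp only [ea, hf1, neg_mul]
  · simp only [eb, hf1]
  · rintro r ⟨-, t, -, e⟩ q hq
    simp only [← e, hf1] at hq ⊢
    rw [← sub_eq_zero, ← sub_smul, ← norm_eq_zero, norm_smul, ← norm_norm x, ← norm_mul, sub_mul,
      hq, sub_self, norm_zero]

theorem Asg.gm_le {x : E} (h : ‖x‖ ≤ A.δ * A.g / A.G) : A.G / A.g * ‖x‖ ≤ A.δ := by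
  have h1 := A.gpos
  have h2 := A.G_pos
  refine (mul_le_mul_of_nonneg_left h (by positivity)).trans (le_of_eq ?_)
  field_simp

theorem Asg.gm_mem {v v' w : Fin 3} (h : v ≠ v') (h1 : w ≠ v) (h2 : w ≠ v')
    (h3 : ∀ u, u = v ∨ u = v' ∨ u = w) {a b r : Cf} {n n' n'' : ℕ} (ha : a ∈ A.M v n)
    (hb : b ∈ A.M v' n') (hr : r ∈ A.M w n'') (u : Fin 3) :
    t3 v w a b r u ∈ A.M u (t3 v w n n' n'' u) := by
  rcases h3 u with rfl | rfl | rfl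
  · rwa [t3_a h1, t3_a h1]
  · rwa [t3_b h h2, t3_b h h2]
  · rwa [t3_r, t3_r]

theorem Asg.gm_mem' {v v' w : Fin 3} (h : v ≠ v') (h1 : w ≠ v) (h2 : w ≠ v')
    (h3 : ∀ u, u = v ∨ u = v' ∨ u = w) {a b r : Cf} {n : ℕ} (ha : a ∈ A.M v n)
    (hb : b ∈ A.M v' n) (hr : r ∈ A.M w n) (u : Fin 3) : t3 v w a b r u ∈ A.M u n := by
  rcases h3 u with rfl | rfl | rfl
  · rwa [t3_a h1]
  · rwa [t3_b h h2]
  · rwa [t3_r]

theorem Asg.part {s : Fin 3 → ℝ} (hs : s ∈ Icc A.lo A.hi) {v v' : Fin 3} (hv : v ≠ v') {n : ℕ}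
    {a : Cf} (ha : a ∈ A.M v n) {x : E} (hx : x ∈ A.F n) (h : ‖x‖ ≤ A.δ * A.g / A.G) :
    ∃ c : Fin 3 → Cf, (∀ w, c w ∈ A.M w n) ∧ c v = a ∧ (∀ w, w ≠ v → w ≠ v' → c w = A.pt) ∧
      A.lam s c v • x + A.lam s c v' • A.y n v' (c v') = 0 := by
  obtain ⟨u, u1, u2, -⟩ := third hv
  obtain ⟨w, w1, w2, w3⟩ := third u1.symm
  obtain rfl : w = v' := by
    rcases w3 v' with e | e | e
    exacts [absurd e.symm hv, absurd e.symm u2, e.symm]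
  obtain ⟨S, hS, -, hS', φ, hφ, ⟨p, hp, ep⟩, ⟨q, hq, eq⟩, hy⟩ :=
    A.gm_seg w hx (div_pos A.G_pos A.gpos).le (A.gm_le h)
  have hm : ∀ r ∈ S, ∀ z, t3 v w a A.pt r z ∈ A.M z n := fun r hr =>
    A.gm_mem' u1.symm w1 w2 w3 ha (A.ptm u n) (hS hr)
  have hb := fun r hr => A.lbd s hs (fun _ => n) _ (hm r hr)
  have h0 : ∀ r ∈ S, A.lam s (t3 v w a A.pt r) w ≠ 0 := fun r hr =>
    abs_pos.1 (A.gpos.trans_le (hb r hr w).1)
  have hu : Continuous fun r : Cf => t3 v w a A.pt r := continuous_const.update w continuous_id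
  have hc : ∀ z, ContinuousOn (fun r => A.lam s (t3 v w a A.pt r) z) S := fun z =>
    (A.lcont (fun _ => n) z).comp (f := fun r : Cf => (s, t3 v w a A.pt r))
      (continuous_const.prodMk hu).continuousOn
      fun r hr => ⟨hs, fun z _ => hm r hr z⟩
  have hr := fun r hr => abs_le.1 (ratio_bd A.gpos (norm_nonneg x) (hb r hr v) (hb r hr w)).1
  obtain ⟨r, hr', e⟩ := hS'.intermediate_value hp hq (f := fun r =>
    φ r + A.lam s (t3 v w a A.pt r) v / A.lam s (t3 v w a A.pt r) w * ‖x‖)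
    (hφ.continuousOn.add (((hc v).div (hc w) h0).mul continuousOn_const))
    (show (0 : ℝ) ∈ Icc _ _ from ⟨by linarith [(hr p hp).2], by linarith [(hr q hq).1]⟩)
  refine ⟨t3 v w a A.pt r, hm r hr', t3_a w1 .., fun z z1 z2 => ?_, ?_⟩
  · rw [t3, update_of_ne z2, update_of_ne z1]
  · rw [t3_r, hy r hr' (-(A.lam s (t3 v w a A.pt r) v / A.lam s (t3 v w a A.pt r) w))
      (by linarith), smul_smul, ← add_smul, mul_neg, mul_div_cancel₀ _ (h0 r hr'), add_neg_cancel,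
      zero_smul]

theorem Asg.spl {s : Fin 3 → ℝ} (hs : s ∈ Icc A.lo A.hi) {n : ℕ} {r : Cf} (hr : r ∈ A.M 2 n)
    {x0 x1 : E} (h0 : x0 ∈ A.F n) (h1 : x1 ∈ A.F n) (h0' : ‖x0‖ ≤ A.δ * A.g / A.G)
    (h1' : ‖x1‖ ≤ A.δ * A.g / A.G) : ∃ c : Fin 3 → Cf, (∀ w, c w ∈ A.M w n) ∧ c 2 = r ∧
      A.lam s c 0 • A.y n 0 (c 0) = A.lam s c 2 • x0 ∧
      A.lam s c 1 • A.y n 1 (c 1) = A.lam s c 2 • x1 := by
  have hR := (div_pos A.G_pos A.gpos).le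
  obtain ⟨S, hS, k0, c0, φ, hφ, ⟨p, hp, ep⟩, ⟨q, hq, eq⟩, hy⟩ := A.gm_seg 0 h0 hR (A.gm_le h0')
  obtain ⟨S', hS', k1, c1, ψ, hψ, ⟨p', hp', ep'⟩, ⟨q', hq', eq'⟩, hy'⟩ :=
    A.gm_seg 1 h1 hR (A.gm_le h1')
  have hm : ∀ a ∈ S, ∀ b ∈ S', ∀ w, ![a, b, r] w ∈ A.M w n := fun a ha b hb w => by
    fin_cases w
    exacts [hS ha, hS' hb, hr]
  let l : Fin 3 → Cf × Cf → ℝ := fun v z => A.lam s ![z.1, z.2, r] v
  have hl : ∀ a ∈ S, ∀ b ∈ S', ∀ v, A.g ≤ |l v (a, b)| ∧ |l v (a, b)| ≤ A.G :=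
    fun a ha b hb v => A.lbd s hs (fun _ => n) _ (hm a ha b hb) v
  have hl0 : ∀ a ∈ S, ∀ b ∈ S', ∀ v, l v (a, b) ≠ 0 := fun a ha b hb v =>
    abs_pos.1 (A.gpos.trans_le (hl a ha b hb v).1)
  have hlc : ∀ v, ContinuousOn (l v) (S ×ˢ S') := fun v => by
    have hc : Continuous fun z : Cf × Cf => ((s, ![z.1, z.2, r]) : (Fin 3 → ℝ) × (Fin 3 → Cf)) := by
      refine continuous_const.prodMk (continuous_pi fun w => ?_)
      fin_cases w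
      exacts [continuous_fst, continuous_snd, continuous_const]
    exact (A.lcont (fun _ => n) v).comp hc.continuousOn fun z hz =>
      ⟨hs, fun w _ => hm _ hz.1 _ hz.2 w⟩
  have hq1 := fun a ha b hb v (x : E) =>
    abs_le.1 (ratio_bd A.gpos (norm_nonneg x) (hl a ha b hb 2) (hl a ha b hb v)).1
  have hqc : ∀ v (x : E), ContinuousOn (fun z => l 2 z / l v z * ‖x‖) (S ×ˢ S') := fun v x =>
    ((hlc 2).div (hlc v) fun z hz => hl0 _ hz.1 _ hz.2 v).mul continuousOn_const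
  obtain ⟨a, ha, b, hb, e1, e2⟩ := pmc k0 c0 k1 c1 (fun z => φ z.1 - l 2 z / l 0 z * ‖x0‖)
    (fun z => ψ z.2 - l 2 z / l 1 z * ‖x1‖)
    ((hφ.comp continuous_fst).continuousOn.sub (hqc 0 x0))
    ((hψ.comp continuous_snd).continuousOn.sub (hqc 1 x1)) hp hq hp' hq'
    (fun y hy => by linarith [(hq1 p hp y hy 0 x0).1])
    (fun y hy => by linarith [(hq1 q hq y hy 0 x0).2])
    (fun y hy => by linarith [(hq1 y hy p' hp' 1 x1).1])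
    (fun y hy => by linarith [(hq1 y hy q' hq' 1 x1).2])
  refine ⟨![a, b, r], hm a ha b hb, rfl, ?_, ?_⟩
  · change l 0 (a, b) • A.y n 0 a = l 2 (a, b) • x0
    rw [hy a ha _ (sub_eq_zero.1 e1), smul_smul, mul_div_cancel₀ _ (hl0 a ha b hb 0)]
  · change l 1 (a, b) • A.y n 1 b = l 2 (a, b) • x1
    rw [hy' b hb _ (sub_eq_zero.1 e2), smul_smul, mul_div_cancel₀ _ (hl0 a ha b hb 1)]

theorem Asg.f3 (v : Fin 3) {σ : ℝ} (hσ : 0 < σ) : ∃ c > (0 : ℝ), ∃ n2 : ℕ, ∀ n n', n ≠ n' →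
    n2 ≤ n' → ∀ a ∈ A.M v n, ∀ a' ∈ A.M v n', ‖A.y n v a‖ ≤ A.d1 → σ ≤ ‖A.y n' v a'‖ →
    c ≤ ‖A.J v a - A.J v a'‖ := by
  by_contra hcon
  push Not at hcon
  choose n n' h2 h3 a ha a' ha' h4 h5 h6 using fun k : ℕ =>
    hcon (1 / ((k : ℝ) + 1)) Nat.one_div_pos_of_nat k
  obtain ⟨w, hw⟩ := exists_ne v
  obtain ⟨u, u1, u2, u3⟩ := third hw.symm
  have w3 : ∀ z, z = v ∨ z = u ∨ z = w := fun z => (u3 z).imp_right Or.symm
  choose c hc c1 c2 c3 using fun k => A.part A.lo_mem hw.symm (ha k) (A.ymem _ _ _ (ha k)).1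
    ((h4 k).trans A.d1_le)
  have hU : ((Ultrafilter.of atTop : Ultrafilter ℕ) : Filter ℕ) ≤ atTop := Ultrafilter.of_le _
  obtain ⟨x, hxC, hx⟩ := A.cl (Ultrafilter.of atTop) (fun _ => A.lo) n c (fun _ => A.lo_mem) hc
    (tendsto_const_nhds.congr fun k => by
      rw [sum_three hw.symm u1 u2, c1, c2 k u u1 u2, A.pty, smul_zero, add_zero, c3])
  have h8 : Tendsto (fun k => A.lo v • (A.J v (a k) - A.J v (a' k))) atTop (𝓝 0) := by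
    simpa only [smul_zero] using (squeeze_zero_norm (fun k => (h6 k).le)
      tendsto_one_div_add_atTop_nhds_zero_nat).const_smul (A.lo v)
  have h9 := fun k => A.gm_mem u1.symm hw u2.symm w3 (ha' k) (A.ptm u (n k)) (hc k w)
  have h10 := A.cv (Ultrafilter.of atTop) (fun _ => A.lo) _ _ n' x hxC (fun _ => A.lo_mem) h9
    ((tendsto_atTop_mono h3 tendsto_id).mono_left hU) (by
      refine (sub_zero x ▸ hx.sub (h8.mono_left hU)).congr fun k => ?_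
      simp only [sum_three u1.symm hw u2.symm, t3_a hw, t3_b u1.symm u2.symm, t3_r, smul_sub, c1,
        c2 k u u1 u2]
      abel)
  refine (mul_pos A.gpos hσ).not_ge (ge_of_tendsto' (norm_zero (E := E) ▸ h10.norm) fun k => ?_)
  rw [sum_three u1.symm hw u2.symm, t3_a hw, t3_b u1.symm u2.symm, t3_r, A.pty,
    A.yzero w _ _ (h2 k).symm _ (hc k w), smul_zero, smul_zero, add_zero, add_zero, norm_smul]
  exact mul_le_mul (A.lbd _ A.lo_mem _ _ (h9 k) v).1 (h5 k) hσ.le (abs_nonneg _)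

end Pool.Agent.P.MP_5aae23_gt.Nsg
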