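import Pool.Agent.P.MP_5aae23_gt.GM

open Set Filter Topology Function

namespace Pool.Agent.P.MP_5aae23_gt.Nsg

open Nsh

variable {E : Type*} [NormedAddCommGroup E] [NormedSpace ℝ E]
  {H : Type*} [NormedAddCommGroup H] [NormedSpace ℝ H] (A : Asg E H)

theorem Asg.gr_zeros {v v' w : Fin 3} (hv : v ≠ v') (w1 : w ≠ v) (w2 : w ≠ v')
    (w3 : ∀ u, u = v ∨ u = v' ∨ u = w) {n : ℕ} {x : E} (hx : x ∈ A.F n) {a b : Cf}
    (ha : a ∈ A.M v n) (hb : b ∈ A.M v' n)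
    (ha' : (∃ r : ℝ, A.y n v a = r • x) ∧ ‖A.y n v a‖ ≤ A.d1)
    (hb' : (∃ r : ℝ, A.y n v' b = r • x) ∧ ‖A.y n v' b‖ ≤ A.d1) (P : Fin 3 → Set (Fin 3 → ℝ))
    (hP : ∀ i, IsCompact (P i)) (hP' : ∀ i, IsPreconnected (P i))
    (hn : ∀ i j, (P i ∩ P j).Nonempty) (hI : ∀ i, P i ⊆ Icc A.lo A.hi) :
    ∃ r ∈ A.M w n, ∀ i, ∃ s ∈ P i,
      ∑ u, A.lam s (t3 v w a b r) u • A.y n u (t3 v w a b r u) = 0 := by
  obtain ⟨⟨α, ea⟩, la⟩ := ha'
  obtain ⟨⟨β, eb⟩, lb⟩ := hb'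
  simp only [sum_three hv w1 w2, t3_a w1, t3_b hv w2, t3_r, ea, eb]
  by_cases h0 : x = 0
  · refine ⟨A.pt, A.ptm w n, fun i => (hn i i).imp fun s hs => ⟨hs.1, ?_⟩⟩
    simp [h0, A.pty]
  have hx0 : 0 < ‖x‖ := norm_pos_iff.2 h0
  have hd := A.dpos
  have hG := A.G_pos
  have e0 : A.δ / ‖x‖ * ‖x‖ = A.δ := div_mul_cancel₀ _ hx0.ne'
  obtain ⟨S, hS, -, hS', φ, hφ, ⟨p, hp, ep⟩, ⟨q, hq, eq⟩, hy⟩ :=
    A.gm_seg w hx (div_pos hd hx0).le e0.le
  rw [e0] at ep eq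
  rw [ea, norm_smul] at la
  rw [eb, norm_smul] at lb
  have hm : ∀ r ∈ S, ∀ u, t3 v w a b r u ∈ A.M u n := fun r hr =>
    A.gm_mem' hv w1 w2 w3 ha hb (hS hr)
  have h2 : ∀ s ∈ ⋃ i, P i, s ∈ Icc A.lo A.hi := fun s hs => iUnion_subset hI hs
  have hl := fun s hs r hr => A.lbd s (h2 s hs) (fun _ => n) _ (hm r hr)
  have h3 : ∀ s ∈ ⋃ i, P i, ∀ r ∈ S, A.lam s (t3 v w a b r) w ≠ 0 := fun s hs r hr =>
    abs_pos.1 (A.gpos.trans_le (hl s hs r hr w).1)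
  have hu : Continuous fun z : (Fin 3 → ℝ) × Cf => t3 v w a b z.2 :=
    continuous_const.update w continuous_snd
  have h4 : ∀ u, ContinuousOn (fun z : (Fin 3 → ℝ) × Cf => A.lam z.1 (t3 v w a b z.2) u)
      ((⋃ i, P i) ×ˢ S) := fun u =>
    (A.lcont (fun _ => n) u).comp (f := fun z : (Fin 3 → ℝ) × Cf => (z.1, t3 v w a b z.2))
      (continuous_fst.prodMk hu).continuousOn fun z hz => ⟨h2 _ hz.1, fun u _ => hm _ hz.2 u⟩
  have h5 : ∀ s ∈ ⋃ i, P i, ∀ r ∈ S, |(A.lam s (t3 v w a b r) v * α +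
      A.lam s (t3 v w a b r) v' * β) / A.lam s (t3 v w a b r) w * ‖x‖| ≤ A.δ / 2 :=
    fun s hs r hr => by
      have h6 : ∀ u (t : ℝ), ‖t‖ * ‖x‖ ≤ A.d1 →
          |A.lam s (t3 v w a b r) u * t * ‖x‖| ≤ A.δ * A.g / 4 := fun u t ht => by
        rw [mul_assoc, abs_mul, abs_mul, abs_norm]
        refine (mul_le_mul (hl s hs r hr u).2 ht (by positivity) hG.le).trans (le_of_eq ?_)
        rw [Asg.d1]
        field_simp
      rw [div_mul_eq_mul_div, abs_div, div_le_iff₀ (abs_pos.2 (h3 s hs r hr)), add_mul]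
      refine ((abs_add_le _ _).trans (add_le_add (h6 v α la) (h6 v' β lb))).trans
        (le_trans (le_of_eq ?_) (mul_le_mul_of_nonneg_left (hl s hs r hr w).1 (half_pos hd).le))
      ring
  obtain ⟨r, hr, h⟩ := tri P hP hP' hn hS' (fun z => φ z.2 + (A.lam z.1 (t3 v w a b z.2) v * α +
      A.lam z.1 (t3 v w a b z.2) v' * β) / A.lam z.1 (t3 v w a b z.2) w * ‖x‖)
    ((hφ.comp continuous_snd).continuousOn.add (((((h4 v).mul continuousOn_const).add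
      ((h4 v').mul continuousOn_const)).div (h4 w) fun z hz => h3 _ hz.1 _ hz.2).mul
      continuousOn_const)) hp hq
    (fun s hs => by linarith [(abs_le.1 (h5 s hs p hp)).2])
    fun s hs => by linarith [(abs_le.1 (h5 s hs q hq)).1]
  refine ⟨r, hS hr, fun i => (h i).imp fun s hs => ⟨hs.1, ?_⟩⟩
  rw [hy r hr (-((A.lam s (t3 v w a b r) v * α + A.lam s (t3 v w a b r) v' * β) /
    A.lam s (t3 v w a b r) w)) (by linarith [hs.2]), smul_smul, smul_smul, smul_smul, ← add_smul,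
    ← add_smul, mul_neg, mul_div_cancel₀ _ (h3 s (mem_iUnion.2 ⟨i, hs.1⟩) r hr), add_neg_cancel,
    zero_smul]

theorem Asg.line (U : Ultrafilter ℕ) {v v' : Fin 3} (hv : v ≠ v') (n : ℕ → ℕ) (x : ℕ → E)
    (hx : ∀ k, x k ∈ A.F (n k)) (a b : ℕ → Cf) (ha : ∀ k, a k ∈ A.M v (n k))
    (hb : ∀ k, b k ∈ A.M v' (n k))
    (ha' : ∀ k, (∃ r : ℝ, A.y (n k) v (a k) = r • x k) ∧ ‖A.y (n k) v (a k)‖ ≤ A.d1)
    (hb' : ∀ k, (∃ r : ℝ, A.y (n k) v' (b k) = r • x k) ∧ ‖A.y (n k) v' (b k)‖ ≤ A.d1) :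
    ∃ (α β : ℝ) (z : H), (α ≠ 0 ∨ β ≠ 0) ∧
      Tendsto (fun k => α • A.J v (a k) + β • A.J v' (b k)) U (𝓝 z) := by
  obtain ⟨w, w1, w2, w3⟩ := third hv
  have l1 := (A.lohi v).le
  have l2 := (A.lohi v').le
  have l3 := (A.lohi w).le
  have le3 : ∀ {x y z x' y' z' : ℝ}, x ≤ x' → y ≤ y' → z ≤ z' →
      t3 v w x y z ≤ t3 v w x' y' z' := fun h1 h2 h3 u => by
    rcases w3 u with rfl | rfl | rfl
    · rwa [t3_a w1, t3_a w1]
    · rwa [t3_b hv w2, t3_b hv w2]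
    · rwa [t3_r, t3_r]
  have e3 : ∀ f : Fin 3 → ℝ, f = t3 v w (f v) (f v') (f w) := fun f => funext fun u => by
    rcases w3 u with rfl | rfl | rfl
    · rw [t3_a w1]
    · rw [t3_b hv w2]
    · rw [t3_r]
  let p : ℝ → ℝ → Fin 3 → ℝ := fun x y => t3 v w x y (A.lo w)
  let P : Fin 3 → Set (Fin 3 → ℝ) :=
    ![Icc (p (A.lo v) (A.lo v')) (p (A.hi v) (A.lo v')),
      Icc (p (A.lo v) (A.lo v')) (p (A.lo v) (A.hi v')),
      Icc (p (A.hi v) (A.lo v')) (p (A.hi v) (A.hi v')) ∪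
        Icc (p (A.lo v) (A.hi v')) (p (A.hi v) (A.hi v'))]
  have i1 : p (A.lo v) (A.lo v') ≤ p (A.hi v) (A.lo v') := le3 l1 le_rfl le_rfl
  have i2 : p (A.lo v) (A.lo v') ≤ p (A.lo v) (A.hi v') := le3 le_rfl l2 le_rfl
  have i3 : p (A.hi v) (A.lo v') ≤ p (A.hi v) (A.hi v') := le3 le_rfl l2 le_rfl
  have i4 : p (A.lo v) (A.hi v') ≤ p (A.hi v) (A.hi v') := le3 l1 le_rfl le_rfl
  have hE : ∀ i, IsCompact (P i) := fun i => by
    fin_cases i
    exacts [isCompact_Icc, isCompact_Icc, isCompact_Icc.union isCompact_Icc]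
  have hJ : ∀ i, P i ⊆ Icc (p (A.lo v) (A.lo v')) (p (A.hi v) (A.hi v')) := fun i => by
    fin_cases i
    exacts [Icc_subset_Icc le_rfl i3, Icc_subset_Icc le_rfl i4,
      union_subset (Icc_subset_Icc i1 le_rfl) (Icc_subset_Icc i2 le_rfl)]
  have hI : ∀ i, P i ⊆ Icc A.lo A.hi := fun i => (hJ i).trans
    (Icc_subset_Icc (e3 A.lo).le ((le3 le_rfl le_rfl l3).trans (e3 A.hi).ge))
  have m01 : (P 0 ∩ P 1).Nonempty := ⟨_, left_mem_Icc.2 i1, left_mem_Icc.2 i2⟩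
  have m02 : (P 0 ∩ P 2).Nonempty := ⟨_, right_mem_Icc.2 i1, Or.inl (left_mem_Icc.2 i3)⟩
  have m12 : (P 1 ∩ P 2).Nonempty := ⟨_, right_mem_Icc.2 i2, Or.inr (left_mem_Icc.2 i4)⟩
  choose r hr s hs h0 using fun k => A.gr_zeros hv w1 w2 w3 (hx k) (ha k) (hb k)
    (ha' k) (hb' k) P hE (fun i => by
      fin_cases i
      exacts [(convex_Icc _ _).isPreconnected, (convex_Icc _ _).isPreconnected,
        IsPreconnected.union _ (right_mem_Icc.2 i3) (right_mem_Icc.2 i4)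
          (convex_Icc _ _).isPreconnected (convex_Icc _ _).isPreconnected])
    (fun i j => by
      fin_cases i <;> fin_cases j
      exacts [m01.mono fun _ h => ⟨h.1, h.1⟩, m01, m02, inter_comm _ _ ▸ m01,
        m12.mono fun _ h => ⟨h.1, h.1⟩, m12, inter_comm _ _ ▸ m02, inter_comm _ _ ▸ m12,
        m12.mono fun _ h => ⟨h.2, h.2⟩]) hI
  choose σ hσ lim using fun i => (hE i).ultrafilter_le_nhds (U.map fun k => s k i)
    (le_principal_iff.2 (mem_map.2 (univ_mem' fun k => hs k i)))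
  choose z _ hz using fun i => A.cl U (fun k => s k i) n _ (fun k => hI i (hs k i))
    (fun k => A.gm_mem' hv w1 w2 w3 (ha k) (hb k) (hr k))
    (tendsto_const_nhds.congr fun k => (h0 k i).symm)
  have sm : ∀ i u (f : ℕ → H), (∀ k, ‖f k‖ ≤ A.B) →
      Tendsto (fun k => (σ i u - s k i u) • f k) U (𝓝 0) := fun i u f hf => by
    have h1 : Tendsto (fun k => s k i u) U (𝓝 (σ i u)) :=
      ((continuous_apply u).tendsto _).comp (lim i)
    have h2 := ((h1.const_sub (σ i u)).norm.mul_const A.B)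
    rw [sub_self, norm_zero, zero_mul] at h2
    exact squeeze_zero_norm (fun k => (norm_smul _ _).le.trans
      (mul_le_mul_of_nonneg_left (hf k) (norm_nonneg _))) h2
  have k1 : ∀ i, Tendsto (fun k => σ i v • A.J v (a k) + σ i v' • A.J v' (b k) +
      A.lo w • A.J w (r k)) U (𝓝 (z i)) := fun i => by
    have h1 := ((hz i).add (sm i v _ fun k => A.Jle _ _ _ (ha k))).add
      (sm i v' _ fun k => A.Jle _ _ _ (hb k))
    rw [add_zero, add_zero] at h1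
    refine h1.congr fun k => ?_
    have h2 : s k i w = A.lo w := le_antisymm (((hJ i (hs k i)).2 w).trans (t3_r ..).le)
      ((t3_r ..).ge.trans ((hJ i (hs k i)).1 w))
    simp only [sum_three hv w1 w2, t3_a w1, t3_b hv w2, t3_r, sub_smul, h2]
    abel
  have k2 : ∀ i j, Tendsto (fun k => (σ i v - σ j v) • A.J v (a k) +
      (σ i v' - σ j v') • A.J v' (b k)) U (𝓝 (z i - z j)) := fun i j =>
    ((k1 i).sub (k1 j)).congr fun k => by
      simp only [sub_smul]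
      abel
  rcases hσ 2 with h | h
  · exact ⟨_, _, _, Or.inl (sub_pos.2 (((((hσ 1).2 v).trans (t3_a w1 ..).le).trans_lt
      (A.lohi v)).trans_le ((t3_a w1 ..).ge.trans (h.1 v)))).ne', k2 2 1⟩
  · exact ⟨_, _, _, Or.inr (sub_pos.2 (((((hσ 0).2 v').trans (t3_b hv w2 ..).le).trans_lt
      (A.lohi v')).trans_le ((t3_b hv w2 ..).ge.trans (h.1 v')))).ne', k2 2 0⟩

end Pool.Agent.P.MP_5aae23_gt.Nsg
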