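import Pool.Agent.P.MP_5aae23_gt.GTun
import Pool.Agent.P.MP_5aae23_gt.GR

open Set Filter Topology Function

namespace Pool.Agent.P.MP_5aae23_gt.Nsg

open Nsh

universe w

variable {E : Type*} [NormedAddCommGroup E] [NormedSpace ℝ E]
  {H : Type*} [NormedAddCommGroup H] [NormedSpace ℝ H] {K : Type*} [NormedAddCommGroup K]
  [NormedSpace ℝ K] {U : Ultrafilter ℕ} {Q : (ℕ → H) →ₗ[ℝ] K}
  {A : Asg E H} {m : ℕ} {D : Blk A U m}

theorem Blk.N_pos (D : Blk A U m) {a : Fin m → ℝ} (ha : a ≠ 0) : 0 < D.N a :=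
  (mul_pos D.kpos (norm_pos_iff.2 ha)).trans_le (ge_of_tendsto' (D.Nlim a) fun k => D.low k a)

theorem gn_mem (D : Blk A U m) (k : ℕ) (a : Fin m → ℝ) : D.b k a ∈ A.F (D.n k) :=
  D.rng k ▸ LinearMap.mem_range_self _ a

theorem gn_d2 (A : Asg E H) : A.d2 ≤ A.δ * A.g / A.G := A.d2_le.trans A.d1_le

theorem gn_bd (A : Asg E H) {v : Fin 3} {n : ℕ → ℕ} {a : ℕ → Cf} (ha : ∀ k, a k ∈ A.M v (n k)) :
    Bd fun k => A.J v (a k) := ⟨A.B, fun k => A.Jle _ _ _ (ha k)⟩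

theorem gn_lim (D : Blk A U m) {η : ℕ → Fin m → ℝ} {a : Fin m → ℝ} (h : Tendsto η U (𝓝 a)) :
    Tendsto (fun k => D.b k (η k) - D.b k a) U (𝓝 0) := by
  have h2 := (h.sub_const a).norm.const_mul (m : ℝ)
  rw [sub_self, norm_zero, mul_zero] at h2
  exact squeeze_zero_norm (fun k => by rw [← map_sub]; exact D.up k _) h2

theorem gn_nlim (D : Blk A U m) {η : ℕ → Fin m → ℝ} {a : Fin m → ℝ} (h : Tendsto η U (𝓝 a)) :
    Tendsto (fun k => ‖D.b k (η k)‖) U (𝓝 (D.N a)) := by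
  have h1 : Tendsto (fun k => ‖D.b k (η k)‖ - ‖D.b k a‖) U (𝓝 0) :=
    squeeze_zero_norm (fun k => abs_norm_sub_norm_le _ _)
      (tendsto_zero_iff_norm_tendsto_zero.1 (gn_lim D h))
  have h2 := h1.add (D.Nlim a)
  rw [zero_add] at h2
  exact h2.congr fun k => sub_add_cancel _ _

theorem gn_sum {β : Type*} [AddCommMonoid β] {v v' u : Fin 3} (h : v ≠ v') (h1 : u ≠ v)
    (h2 : u ≠ v') (f : Fin 3 → β) : ∑ i, f i = f v + f v' + f u := by
  have e : ∀ v v' u : Fin 3, v ≠ v' → u ≠ v → u ≠ v' →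
      (Finset.univ : Finset (Fin 3)) = {v, v', u} := by decide
  rw [e v v' u h h1 h2, Finset.sum_insert (by simp [h, h1.symm]), Finset.sum_pair h2.symm,
    add_assoc]

/-- An asymptotic relation in the blocks gives a relation in the quotient. -/
theorem gn_rel (A : Asg E H) (hQ : IsUQ U Q) {n : ℕ → ℕ} {c : ℕ → Fin 3 → Cf}
    (hc : ∀ k u, c k u ∈ A.M u (n k))
    (h : Tendsto (fun k => ∑ v, A.lam A.lo (c k) v • A.y (n k) v (c k v)) U (𝓝 0)) :
    ∑ v, A.lo v • Q (fun k => A.J v (c k v)) = 0 := by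
  obtain ⟨x, -, hx⟩ := A.cl U (fun _ => A.lo) n c (fun _ => A.lo_mem) hc h
  exact hQ.rel (fun v k => A.J v (c k v)) (fun v => gn_bd A fun k => hc k v) (fun _ => A.lo) A.lo
    (fun _ => tendsto_const_nhds) hx

omit [NormedAddCommGroup K] [NormedSpace ℝ K] in
theorem ov_ex (D : Blk A U m) (Q : (ℕ → H) → K) (v : Fin 3) (a : Fin m → ℝ) :
    ∃ t > (0 : ℝ), ∃ w, Ov D Q v (t • a) w := by
  have h0 : (0 : ℝ) < m * ‖a‖ + 1 := by positivity
  have ht := div_pos A.d2_pos h0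
  have h1 : ∀ k, ‖D.b k ((A.d2 / (m * ‖a‖ + 1)) • a)‖ ≤ A.d2 := fun k => by
    rw [map_smul, norm_smul, Real.norm_of_nonneg ht.le, div_mul_eq_mul_div, div_le_iff₀ h0]
    exact mul_le_mul_of_nonneg_left ((D.up k a).trans (by linarith)) A.d2_pos.le
  choose c hc ec using fun k => A.sur v (gn_mem D k _) ((h1 k).trans ((gn_d2 A).trans A.dg_le))
  exact ⟨_, ht, _, c, fun _ => _, fun k => ⟨hc k, ec k, h1 k⟩, tendsto_const_nhds, rfl⟩

theorem ov_le (hQ : IsUQ U Q) {v : Fin 3} {a : Fin m → ℝ} {w : K} (h : Ov D Q v a w) :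
    ‖w‖ ≤ 2 * A.B := by
  obtain ⟨c, η, hc, -, rfl⟩ := h
  rw [two_mul]
  exact hQ.le_bound fun k => A.Jle _ _ _ (hc k).1

theorem Asg.low (A : Asg E H) {σ : ℝ} (hσ : 0 < σ) : ∃ c > (0 : ℝ), ∀ (K : Type w)
    [NormedAddCommGroup K] [NormedSpace ℝ K] (U : Ultrafilter ℕ)
    (Q : (ℕ → H) →ₗ[ℝ] K), IsUQ U Q → ∀ (m : ℕ) (D : Blk A U m) (v : Fin 3) (a : Fin m → ℝ) (w : K),
      Ov D Q v a w → σ ≤ D.N a → c ≤ ‖w‖ := by
  choose c0 h0 n2 h using fun v => A.f3 v (half_pos hσ)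
  refine ⟨min (c0 0) (min (c0 1) (c0 2)), lt_min (h0 0) (lt_min (h0 1) (h0 2)), ?_⟩
  rintro K _ _ U Q hQ m D v a w ⟨c, η, hc, hη, rfl⟩ ha
  have h1 : min (c0 0) (min (c0 1) (c0 2)) ≤ c0 v := by
    fin_cases v
    · exact min_le_left _ _
    · exact (min_le_right _ _).trans (min_le_left _ _)
    · exact (min_le_right _ _).trans (min_le_right _ _)
  refine h1.trans (hQ.ge (gn_bd A fun k => (hc k).1) (Eventually.of_forall fun k => ?_))
  filter_upwards [(gn_nlim D hη).eventually (lt_mem_nhds ((half_lt_self hσ).trans_le ha)),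
    D.nlim.eventually (eventually_gt_atTop (D.n k)),
    D.nlim.eventually (eventually_ge_atTop (n2 v))] with l h2 h3 h4
  exact h v _ _ h3.ne h4 _ (hc k).1 _ (hc l).1
    (by rw [(hc k).2.1]; exact (hc k).2.2.trans A.d2_le) (by rw [(hc l).2.1]; exact h2.le)

theorem ov_ne (hQ : IsUQ U Q) {v : Fin 3} {a : Fin m → ℝ} {w : K} (h : Ov D Q v a w)
    (ha : a ≠ 0) : w ≠ 0 := by
  obtain ⟨c, hc, h1⟩ := A.low (D.N_pos ha)
  exact norm_pos_iff.1 (hc.trans_le (h1 K U Q hQ m D v a w h le_rfl))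

/-- A class over a line is replaced by a class of configurations lying exactly over the line. -/
theorem gn_red (hQ : IsUQ U Q) {v v' : Fin 3} (hv : v ≠ v') {a : Fin m → ℝ} {t : ℝ} {w : K}
    (h : Ov D Q v (t • a) w) : ∃ b : ℕ → Cf, (∀ k, b k ∈ A.M v' (D.n k)) ∧
      (∀ k, (∃ r : ℝ, A.y (D.n k) v' (b k) = r • D.b k a) ∧ ‖A.y (D.n k) v' (b k)‖ ≤ A.d1) ∧
      A.lo v • w + A.lo v' • Q (fun k => A.J v' (b k)) = 0 := by
  classical
  obtain ⟨c, η, hc, hη, rfl⟩ := h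
  obtain ⟨u, hu, hu'⟩ := (by decide : ∀ v v' : Fin 3, ∃ u, u ≠ v ∧ u ≠ v') v v'
  have hg := A.gpos
  have hG := A.G_pos
  have hd : 2 * A.d2 * A.G = A.d1 * A.g := by
    rw [Asg.d2]
    field_simp
  have hd' : 2 * A.d2 ≤ A.d1 := le_of_mul_le_mul_right
    (hd ▸ mul_le_mul_of_nonneg_left A.g_le A.d1_pos.le) hG
  have h1 := gn_lim D hη
  let τ : ℕ → ℝ := fun k => if ‖t • D.b k a‖ ≤ 2 * A.d2 then t else 0
  have hτ : ∀ k, ‖τ k • D.b k a‖ ≤ 2 * A.d2 := fun k => by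
    simp only [τ]
    split_ifs with h
    · exact h
    · rw [zero_smul, norm_zero]
      linarith [A.d2_pos]
  have h3 : ∀ᶠ k in (U : Filter ℕ), τ k • D.b k a = D.b k (t • a) := by
    filter_upwards [h1.norm.eventually (gt_mem_nhds (by simpa using A.d2_pos :
      ‖(0 : E)‖ < A.d2))] with k hk
    have h4 : ‖D.b k (t • a)‖ ≤ 2 * A.d2 := by
      have := norm_sub_norm_le (D.b k (t • a)) (D.b k (η k))
      rw [norm_sub_rev] at this
      linarith [(hc k).2.2]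
    rw [map_smul] at h4 ⊢
    rw [show τ k = t from if_pos h4]
  choose b hb e1 e2 e0 using fun k => A.part A.lo_mem hv (hc k).1
    (Submodule.smul_mem _ (τ k) (gn_mem D k a)) ((hτ k).trans (hd'.trans A.d1_le))
  have hl := fun k => A.lbd _ A.lo_mem (fun _ => D.n k) _ (hb k)
  refine ⟨fun k => b k v', fun k => hb k v', fun k => ?_, ?_⟩
  · have h4 := eq_neg_of_add_eq_zero_right (e0 k)
    have h5 : A.lam A.lo (b k) v' ≠ 0 := abs_pos.1 (hg.trans_le (hl k v').1)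
    refine ⟨⟨(A.lam A.lo (b k) v')⁻¹ * -(A.lam A.lo (b k) v * τ k), ?_⟩, ?_⟩
    · rw [mul_smul, neg_smul, mul_smul, ← h4, inv_smul_smul₀ h5]
    · have h6 := congrArg norm h4
      rw [norm_neg, norm_smul, norm_smul (A.lam A.lo (b k) v), Real.norm_eq_abs,
        Real.norm_eq_abs] at h6
      have h7 := mul_le_mul_of_nonneg_right (hl k v').1 (norm_nonneg (A.y (D.n k) v' (b k v')))
      have h8 := mul_le_mul (hl k v).2 (hτ k) (norm_nonneg _) hG.le
      exact le_of_mul_le_mul_left (by linarith) hg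
  · have h7 := gn_rel A hQ hb (by
      have h8 := h1.norm.const_mul A.G
      rw [norm_zero, mul_zero] at h8
      refine squeeze_zero_norm' ?_ h8
      filter_upwards [h3] with k hk
      rw [gn_sum hv hu hu', e2 k u hu hu', A.pty, smul_zero, add_zero, e1 k, (hc k).2.1,
        eq_neg_of_add_eq_zero_right (e0 k), hk, ← sub_eq_add_neg, ← smul_sub, norm_smul]
      exact mul_le_mul_of_nonneg_right (hl k v).2 (norm_nonneg _))
    rw [gn_sum hv hu hu'] at h7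
    simp only [e1, fun k => e2 k u hu hu'] at h7
    rwa [hQ.conv (bd_const (A.J u A.pt)) tendsto_const_nhds, smul_zero, add_zero] at h7

theorem ov_dir (hQ : IsUQ U Q) {v v' : Fin 3} {a : Fin m → ℝ} {t t' : ℝ} {w w' : K} (ha : a ≠ 0)
    (ht : t' ≠ 0) (h : Ov D Q v (t • a) w) (h' : Ov D Q v' (t' • a) w') :
    ∃ r : ℝ, w = r • w' := by
  obtain ⟨u, u', hu, hu', huu⟩ :=
    (by decide : ∀ v v' : Fin 3, ∃ u u', v ≠ u ∧ v' ≠ u' ∧ u ≠ u') v v'
  obtain ⟨b, hb, hb', e⟩ := gn_red hQ hu h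
  obtain ⟨c, hc, hc', e'⟩ := gn_red hQ hu' h'
  obtain ⟨α, β, z, h0, hz⟩ := A.line U huu D.n _ (fun k => gn_mem D k a) b c hb hc hb' hc'
  have h1 := hQ.conv (((gn_bd A hb).smul α).add ((gn_bd A hc).smul β)) (x := z) hz
  rw [map_add, map_smul, map_smul] at h1
  have hw := ov_ne hQ h' (smul_ne_zero ht ha)
  have hs := A.sne _ A.lo_mem
  have h2 : (α * A.lo v * A.lo u') • w + (β * A.lo v' * A.lo u) • w' = 0 := by
    linear_combination (norm := module) (α * A.lo u') • e + (β * A.lo u) • e' - (A.lo u * A.lo u') • h1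
  have hα : α ≠ 0 := fun z => by
    rw [z, zero_mul, zero_mul, zero_smul, zero_add] at h2
    exact h0.elim (fun y => y z) fun y => hw ((smul_eq_zero.1 h2).resolve_left
      (mul_ne_zero (mul_ne_zero y (hs v')) (hs u)))
  refine ⟨(α * A.lo v * A.lo u')⁻¹ * -(β * A.lo v' * A.lo u), ?_⟩
  rw [mul_smul, neg_smul, ← eq_neg_of_add_eq_zero_left h2,
    inv_smul_smul₀ (mul_ne_zero (mul_ne_zero hα (hs v)) (hs u'))]

end Pool.Agent.P.MP_5aae23_gt.Nsg
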