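import Pool.Agent.P.MP_5aae23_gt.GS

open Set Filter Topology Function

namespace Pool.Agent.P.MP_5aae23_gt.Nsg

open Nsh

variable {E : Type*} [NormedAddCommGroup E] [NormedSpace ℝ E]
  {H : Type*} [NormedAddCommGroup H] [NormedSpace ℝ H] {K : Type*} [NormedAddCommGroup K]
  [NormedSpace ℝ K] {U : Ultrafilter ℕ} {Q : (ℕ → H) →ₗ[ℝ] K}
  {A : Asg E H} {m : ℕ} {D : Blk A U m}

/-- A bridge from the positive to the negative half axis that avoids the origin. -/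
def goB (e1 e2 : ℝ) : Set (ℝ × ℝ) :=
  (Icc e1 e2 ×ˢ Icc 0 e1 ∪ Icc (-e2) e2 ×ˢ Icc e1 e1) ∪ Icc (-e2) (-e1) ×ˢ Icc 0 e1

theorem goB_compact (e1 e2 : ℝ) : IsCompact (goB e1 e2) :=
  ((isCompact_Icc.prod isCompact_Icc).union (isCompact_Icc.prod isCompact_Icc)).union
    (isCompact_Icc.prod isCompact_Icc)

theorem goB_bd {e1 e2 : ℝ} (h1 : 0 < e1) (h2 : e1 ≤ e2) {p : ℝ × ℝ} (hp : p ∈ goB e1 e2) :
    |p.1| ≤ e2 ∧ |p.2| ≤ e2 ∧ p ≠ 0 := by
  rw [abs_le, abs_le]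
  rcases hp with (⟨⟨a, b⟩, c, d⟩ | ⟨⟨a, b⟩, c, d⟩) | ⟨⟨a, b⟩, c, d⟩
  · refine ⟨⟨by linarith, b⟩, ⟨by linarith, by linarith⟩, ?_⟩
    rintro rfl
    exact absurd a (not_le.2 h1)
  · refine ⟨⟨a, b⟩, ⟨by linarith, by linarith⟩, ?_⟩
    rintro rfl
    exact absurd c (not_le.2 h1)
  · refine ⟨⟨a, by linarith⟩, ⟨by linarith, by linarith⟩, ?_⟩
    rintro rfl
    have : (0 : ℝ) ≤ -e1 := b
    linarith

theorem goB_axis {e1 e2 r : ℝ} (h0 : 0 < e1) (h1 : e1 ≤ |r|) (h2 : |r| ≤ e2) :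
    ((r, 0) : ℝ × ℝ) ∈ goB e1 e2 := by
  rcases abs_cases r with ⟨e, -⟩ | ⟨e, -⟩
  · rw [e] at h1 h2
    exact Or.inl (Or.inl ⟨⟨h1, h2⟩, le_rfl, h0.le⟩)
  · rw [e] at h1 h2
    exact Or.inr ⟨⟨by linarith, by linarith⟩, le_rfl, h0.le⟩

theorem go_conn (A : Asg E H) (v : Fin 3) (n : ℕ) (L : (ℝ × ℝ) →ₗ[ℝ] E) {e1 e2 : ℝ}
    (h1 : 0 < e1) (h2 : e1 ≤ e2) (hL : ∀ p ∈ goB e1 e2, L p ∈ A.F n ∧ ‖L p‖ ≤ A.δ) :
    IsPreconnected (A.M v n ∩ A.y n v ⁻¹' (L '' goB e1 e2)) := by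
  have Lc : Continuous L := L.continuous_of_finiteDimensional
  have pc : ∀ a b c d : ℝ, Icc a b ×ˢ Icc c d ⊆ goB e1 e2 → a ≤ b → c ≤ d →
      IsPreconnected (A.M v n ∩ A.y n v ⁻¹' (L '' (Icc a b ×ˢ Icc c d))) :=
    fun a b c d hs hab hcd => (A.Mconn v n _
      (((convex_Icc a b).prod (convex_Icc c d)).linear_image L)
      ((isCompact_Icc.prod isCompact_Icc).image Lc)
      ⟨_, (a, c), ⟨⟨le_rfl, hab⟩, le_rfl, hcd⟩, rfl⟩ (by
        rintro _ ⟨p, hp, rfl⟩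
        exact hL p (hs hp))).isPreconnected
  have p1 := pc e1 e2 0 e1 (subset_union_left.trans subset_union_left) h2 h1.le
  have p2 := pc (-e2) e2 e1 e1 (subset_union_right.trans subset_union_left) (by linarith) le_rfl
  have p3 := pc (-e2) (-e1) 0 e1 subset_union_right (by linarith) h1.le
  have m1 : ((e1, e1) : ℝ × ℝ) ∈ Icc e1 e2 ×ˢ Icc 0 e1 := ⟨⟨le_rfl, h2⟩, h1.le, le_rfl⟩
  have m2 : ((e1, e1) : ℝ × ℝ) ∈ Icc (-e2) e2 ×ˢ Icc e1 e1 :=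
    ⟨⟨by linarith, h2⟩, le_rfl, le_rfl⟩
  have m3 : ((-e1, e1) : ℝ × ℝ) ∈ Icc (-e2) e2 ×ˢ Icc e1 e1 :=
    ⟨⟨by linarith, by linarith⟩, le_rfl, le_rfl⟩
  have m4 : ((-e1, e1) : ℝ × ℝ) ∈ Icc (-e2) (-e1) ×ˢ Icc 0 e1 :=
    ⟨⟨by linarith, le_rfl⟩, h1.le, le_rfl⟩
  obtain ⟨x, hx, ex⟩ := A.sur v (hL _ (Or.inl (Or.inl m1))).1 (hL _ (Or.inl (Or.inl m1))).2
  obtain ⟨z, hz, ez⟩ := A.sur v (hL _ (Or.inr m4)).1 (hL _ (Or.inr m4)).2
  rw [goB, image_union, image_union, preimage_union, preimage_union, inter_union_distrib_left,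
    inter_union_distrib_left]
  refine IsPreconnected.union z (Or.inr ⟨hz, _, m3, ez.symm⟩) ⟨hz, _, m4, ez.symm⟩ ?_ p3
  exact IsPreconnected.union x ⟨hx, _, m1, ex.symm⟩ ⟨hx, _, m2, ex.symm⟩ p1 p2

theorem ov_odd (hQ : IsUQ U Q) (D : Blk A U m) {a a' : Fin m → ℝ}
    (hl : LinearIndependent ℝ ![a, a']) (φ : K →ₗ[ℝ] ℝ) :
    ∃ α β : ℝ, α • a + β • a' ≠ 0 ∧ ∃ v w, Ov D Q v (α • a + β • a') w ∧ φ w = 0 := by
  by_contra hcon
  push Not at hcon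
  have hg := A.gpos
  have hG := A.G_pos
  have d2 := A.d2_pos
  set q := A.g / A.G with hq
  have q0 : 0 < q := div_pos hg hG
  have q1 : q ≤ 1 := (div_le_one hG).2 A.g_le
  set e2 := A.d2 / (m * (‖a‖ + ‖a'‖) + 1) with he2
  have e20 : 0 < e2 := by positivity
  have e0 : 0 < e2 * q := mul_pos e20 q0
  have e10 : 0 < e2 * q * q := mul_pos e0 q0
  have ee2 : e2 * q ≤ e2 := mul_le_of_le_one_right e20.le q1
  have e1e : e2 * q * q ≤ e2 * q := mul_le_of_le_one_right e0.le q1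
  have e12 : e2 * q * q ≤ e2 := e1e.trans ee2
  let Λ : (ℝ × ℝ) →ₗ[ℝ] (Fin m → ℝ) :=
    (LinearMap.toSpanSingleton ℝ _ a).coprod (LinearMap.toSpanSingleton ℝ _ a')
  have hΛ : ∀ p : ℝ × ℝ, Λ p = p.1 • a + p.2 • a' := fun _ => rfl
  have Λc : Continuous Λ := Λ.continuous_of_finiteDimensional
  let Γ := goB (e2 * q * q) e2
  have bΓ : ∀ k, ∀ p ∈ Γ, ‖D.b k (Λ p)‖ ≤ A.d2 := fun k p hp => by
    obtain ⟨h1, h2, -⟩ := goB_bd e10 e12 hp
    have h3 : ‖Λ p‖ ≤ e2 * (‖a‖ + ‖a'‖) := by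
      rw [hΛ, mul_add]
      refine norm_add_le_of_le ?_ ?_ <;> rw [norm_smul]
      · exact mul_le_mul_of_nonneg_right h1 (norm_nonneg _)
      · exact mul_le_mul_of_nonneg_right h2 (norm_nonneg _)
    have h4 : e2 * (m * (‖a‖ + ‖a'‖) + 1) = A.d2 := by rw [he2]; field_simp
    have h5 := mul_le_mul_of_nonneg_left h3 (Nat.cast_nonneg (α := ℝ) m)
    nlinarith [D.up k (Λ p)]
  have bF : ∀ k η, D.b k η ∈ A.F (D.n k) := fun k η => by
    rw [← D.rng k]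
    exact LinearMap.mem_range_self _ η
  have d2δ : A.d2 ≤ A.δ * A.g / A.G := A.d2_le.trans A.d1_le
  let S : Fin 3 → ℕ → Set Cf := fun v k =>
    A.M v (D.n k) ∩ A.y (D.n k) v ⁻¹' ((D.b k ∘ₗ Λ) '' Γ)
  have Sc : ∀ v k, IsPreconnected (S v k) := fun v k =>
    go_conn A v _ _ e10 e12 fun p hp => ⟨bF k _, ((bΓ k p hp).trans d2δ).trans A.dg_le⟩
  have Sov : ∀ v (c : ℕ → Cf), (∀ k, c k ∈ S v k) → ∃ α β : ℝ, α • a + β • a' ≠ 0 ∧
      Ov D Q v (α • a + β • a') (Q fun k => A.J v (c k)) := by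
    intro v c hc
    choose p hp hp' using fun k => (hc k).2
    obtain ⟨z, hz, hpz⟩ := (goB_compact (e2 * q * q) e2).ultrafilter_le_nhds (U.map p) (by
      rw [Ultrafilter.coe_map, le_principal_iff, mem_map]
      exact univ_mem' hp)
    refine ⟨z.1, z.2, fun h => (goB_bd e10 e12 hz).2.2 ?_, c, fun k => Λ (p k),
      fun k => ⟨(hc k).1, (hp' k).symm, bΓ k _ (hp k)⟩, (Λc.tendsto z).comp hpz, rfl⟩
    obtain ⟨h1, h2⟩ := LinearIndependent.pair_iff.1 hl _ _ h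
    exact Prod.ext h1 h2
  have bdJ : ∀ {v : Fin 3} {c : ℕ → Cf}, (∀ k, c k ∈ A.M v (D.n k)) →
      Bd fun k => A.J v (c k) := fun h => ⟨A.B, fun k => A.Jle _ _ _ (h k)⟩
  obtain ⟨t, ht, w, hw⟩ := ov_ex D Q 0 a
  obtain ⟨t', ht', w', hw'⟩ := ov_ex D Q 0 a'
  obtain ⟨Dn, hDn, hDn'⟩ : TopologicalSpace.IsSeparable
      (⋃ vn : Fin 3 × ℕ, A.J vn.1 '' A.M vn.1 vn.2) :=
    TopologicalSpace.IsSeparable.iUnion fun vn =>
      ((A.Mcpt _ _).image_of_continuousOn (A.Jcont _ _)).isSeparable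
  have := FiniteDimensional.span_of_finite ℝ (toFinite ({w, w'} : Set K))
  obtain ⟨f, hf⟩ := hQ.tun D.free (Submodule.span ℝ {w, w'}) (fun x hx => by
    obtain ⟨r, r', rfl⟩ := Submodule.mem_span_pair.1 hx
    obtain ⟨c, η, hc, -, rfl⟩ := hw
    obtain ⟨c', η', hc', -, rfl⟩ := hw'
    exact ⟨_, ((bdJ fun k => (hc k).1).smul r).add ((bdJ fun k => (hc' k).1).smul r'),
      by rw [map_add, map_smul, map_smul]⟩) φ hDn
  have Sf : ∀ v (c : ℕ → Cf), (∀ k, c k ∈ S v k) → φ (Q fun k => A.J v (c k)) ≠ 0 ∧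
      Tendsto (fun k => f k (A.J v (c k))) U (𝓝 (φ (Q fun k => A.J v (c k)))) := by
    intro v c hc
    obtain ⟨α, β, h1, h2⟩ := Sov v c hc
    refine ⟨hcon α β h1 v _ h2, hf _ (bdJ fun k => (hc k).1)
      (fun k => hDn' (mem_iUnion.2 ⟨(v, D.n k), c k, (hc k).1, rfl⟩)) ?_⟩
    obtain ⟨r, r', e⟩ := ov_pl hQ hl ht.ne' ht'.ne' hw hw' h1 h2
    exact Submodule.mem_span_pair.2 ⟨r, r', e.symm⟩
  have sgn : ∀ v (c c' : ℕ → Cf), (∀ k, c k ∈ S v k) → (∀ k, c' k ∈ S v k) →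
      φ (Q fun k => A.J v (c k)) < 0 → 0 < φ (Q fun k => A.J v (c' k)) → False := by
    intro v c c' hc hc' h1 h2
    have ex : ∀ k, ∃ z ∈ S v k, f k (A.J v (c k)) < 0 → 0 < f k (A.J v (c' k)) →
        f k (A.J v z) = 0 := fun k => by
      by_cases h : f k (A.J v (c k)) < 0 ∧ 0 < f k (A.J v (c' k))
      · obtain ⟨z, hz, e⟩ := (Sc v k).intermediate_value (hc k) (hc' k)
          ((f k).continuous.comp_continuousOn ((A.Jcont v _).mono inter_subset_left))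
          ⟨h.1.le, h.2.le⟩
        exact ⟨z, hz, fun _ _ => e⟩
      · exact ⟨c k, hc k, fun g1 g2 => absurd ⟨g1, g2⟩ h⟩
    choose z hz hz' using ex
    refine (Sf v z hz).1 (tendsto_nhds_unique (Sf v z hz).2 (tendsto_const_nhds.congr' ?_))
    filter_upwards [(Sf v c hc).2.eventually (gt_mem_nhds h1),
      (Sf v c' hc').2.eventually (lt_mem_nhds h2)] with k g1 g2
    exact (hz' k g1 g2).symm
  have same : ∀ v (c c' : ℕ → Cf), (∀ k, c k ∈ S v k) → (∀ k, c' k ∈ S v k) →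
      0 < φ (Q fun k => A.J v (c k)) * φ (Q fun k => A.J v (c' k)) := by
    intro v c c' hc hc'
    rcases lt_or_gt_of_ne (Sf v c hc).1 with h1 | h1 <;>
      rcases lt_or_gt_of_ne (Sf v c' hc').1 with h2 | h2
    · exact mul_pos_of_neg_of_neg h1 h2
    · exact (sgn v c c' hc hc' h1 h2).elim
    · exact (sgn v c' c hc' hc h2 h1).elim
    · exact mul_pos h1 h2
  have ref : ((e2 * q, 0) : ℝ × ℝ) ∈ Γ :=
    goB_axis e10 (by rwa [abs_of_pos e0]) (by rwa [abs_of_pos e0])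
  choose r hr hr' using fun v k =>
    A.sur v (bF k (Λ (e2 * q, 0))) (((bΓ k _ ref).trans d2δ).trans A.dg_le)
  have rS : ∀ v k, r v k ∈ S v k := fun v k => ⟨hr v k, _, ref, (hr' v k).symm⟩
  have opp : ∀ v v', v ≠ v' → A.lo v * φ (Q fun k => A.J v (r v k)) *
      (A.lo v' * φ (Q fun k => A.J v' (r v' k))) < 0 := by
    intro v v' hv
    choose c hc h1 h2 h3 using fun k =>
      A.part A.lo_mem hv (hr v k) (bF k (Λ (e2 * q, 0))) ((bΓ k _ ref).trans d2δ)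
    have cS : ∀ k, c k v' ∈ S v' k := fun k => by
      obtain ⟨l1, l2⟩ := A.lbd _ A.lo_mem (fun _ => D.n k) (c k) (hc k) v
      obtain ⟨l3, l4⟩ := A.lbd _ A.lo_mem (fun _ => D.n k) (c k) (hc k) v'
      have l5 : 0 < |A.lam A.lo (c k) v'| := hg.trans_le l3
      have l6 : A.lam A.lo (c k) v' ≠ 0 := abs_pos.1 l5
      set ρ := -(A.lam A.lo (c k) v / A.lam A.lo (c k) v') with hρ
      have ρ1 : q ≤ |ρ| := by
        rw [hρ, abs_neg, abs_div, hq]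
        exact div_le_div₀ (abs_nonneg _) l1 l5 l4
      have ρ2 : q * |ρ| ≤ 1 := by
        rw [hρ, abs_neg, abs_div, hq, div_mul_div_comm, div_le_one (mul_pos hG l5), mul_comm A.G]
        exact mul_le_mul l3 l2 (abs_nonneg _) (abs_nonneg _)
      refine ⟨hc k v', (ρ * (e2 * q), 0), goB_axis e10 ?_ ?_, ?_⟩
      · rw [abs_mul, abs_of_pos e0, mul_comm]
        exact mul_le_mul_of_nonneg_right ρ1 e0.le
      · rw [abs_mul, abs_of_pos e0]
        nlinarith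
      · have e : ((ρ * (e2 * q), 0) : ℝ × ℝ) = ρ • ((e2 * q, 0) : ℝ × ℝ) := by simp
        rw [e, map_smul]
        refine smul_right_injective E l6 ?_
        simp only [smul_smul]
        rw [eq_neg_of_add_eq_zero_right (h3 k), ← neg_smul, hρ]
        congr 1
        field_simp
    obtain ⟨x, -, hx⟩ := A.cl U (fun _ => A.lo) D.n c (fun _ => A.lo_mem) hc
      (tendsto_const_nhds.congr fun k => by
        rw [Fintype.sum_eq_add v v' hv fun u hu => by rw [h2 k u hu.1 hu.2, A.pty, smul_zero],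
          h1 k, hr' v k]
        exact (h3 k).symm)
    have h4 := hQ.rel (fun u k => A.J u (c k u)) (fun u => bdJ fun k => hc k u) (fun _ => A.lo)
      A.lo (fun _ => tendsto_const_nhds) hx
    rw [Fintype.sum_eq_add v v' hv fun u hu => by
      simp only [h2 _ u hu.1 hu.2]
      rw [hQ.conv (bd_const _) tendsto_const_nhds, smul_zero]] at h4
    simp only [h1] at h4
    have h5 := congrArg φ h4
    rw [map_add, map_smul, map_smul, map_zero, smul_eq_mul, smul_eq_mul] at h5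
    have h6 := same v' (fun k => c k v') (r v') cS (rS v')
    have h7 := mul_self_pos.2 (A.sne _ A.lo_mem v')
    rw [eq_neg_of_add_eq_zero_left h5]
    nlinarith [mul_pos h7 h6]
  have o1 := opp 0 1 (by decide)
  have o2 := opp 0 2 (by decide)
  have o3 := opp 1 2 (by decide)
  nlinarith [mul_pos_of_neg_of_neg o1 o2, mul_self_nonneg (A.lo 0 * φ (Q fun k => A.J 0 (r 0 k)))]

end Pool.Agent.P.MP_5aae23_gt.Nsg
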