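import Mathlib

/-! A map that respects lines is linear up to scalars. -/

open Set Filter Topology Function Module

namespace Pool.Agent.P.MP_5aae23_gt.Nsg

section alg

variable {V K : Type*} [AddCommGroup V] [Module ℝ V] [AddCommGroup K] [Module ℝ K]

/-- Two independent vectors. -/
def PjI (x y : V) : Prop := ∀ s t : ℝ, s • x + t • y = 0 → s = 0 ∧ t = 0

/-- Three independent vectors. -/
def PjJ (x y z : V) : Prop := ∀ r s t : ℝ, r • x + s • y + t • z = 0 → r = 0 ∧ s = 0 ∧ t = 0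

theorem PjI.left {x y : V} (h : PjI x y) : x ≠ 0 := fun e =>
  one_ne_zero (h 1 0 (by simp [e])).1

theorem PjI.right {x y : V} (h : PjI x y) : y ≠ 0 := fun e =>
  one_ne_zero (h 0 1 (by simp [e])).2

theorem PjI.add_ne {x y : V} (h : PjI x y) : x + y ≠ 0 := fun e =>
  one_ne_zero (h 1 1 (by simpa using e)).1

theorem PjI.smul {x y : V} (h : PjI x y) {s t : ℝ} (hs : s ≠ 0) (ht : t ≠ 0) :
    PjI (s • x) (t • y) := fun a b e => by
  have := h (a * s) (b * t) (by rw [mul_smul, mul_smul]; exact e)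
  exact ⟨(mul_eq_zero.1 this.1).resolve_right hs, (mul_eq_zero.1 this.2).resolve_right ht⟩

theorem pj_dep {x y : V} (hx : x ≠ 0) (h : ¬ PjI x y) : ∃ k : ℝ, y = k • x := by
  by_contra hc
  refine h (LinearIndependent.pair_iff.1 ((LinearIndependent.pair_iff' hx).2 fun a e => ?_))
  exact hc ⟨a, e.symm⟩

theorem pj_dual {x y : K} (h : PjI x y) (p q : ℝ) : ∃ φ : K →ₗ[ℝ] ℝ, φ x = p ∧ φ y = q := by
  obtain ⟨g, hg⟩ := (((LinearMap.fst ℝ ℝ ℝ).smulRight x) +
      ((LinearMap.snd ℝ ℝ ℝ).smulRight y)).exists_leftInverse_of_injective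
    (LinearMap.ker_eq_bot'.2 fun z hz => Prod.ext (h z.1 z.2 hz).1 (h z.1 z.2 hz).2)
  have h1 : g x = (1, 0) := by simpa using LinearMap.congr_fun hg (1, 0)
  have h2 : g y = (0, 1) := by simpa using LinearMap.congr_fun hg (0, 1)
  exact ⟨p • (LinearMap.fst ℝ ℝ ℝ).comp g + q • (LinearMap.snd ℝ ℝ ℝ).comp g,
    by simp [h1], by simp [h2]⟩

/-- The algebraic hypotheses. -/
structure PjH (u : V → K) : Prop where
  ne : ∀ a ≠ 0, u a ≠ 0
  sm : ∀ a ≠ 0, ∀ t : ℝ, t ≠ 0 → ∃ k : ℝ, u (t • a) = k • u a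
  sp : ∀ a a', PjI a a' → ∃ k α β : ℝ, k ≠ 0 ∧ α ≠ 0 ∧ β ≠ 0 ∧
    k • u (a + a') = α • u a + β • u a'
  odd : ∀ a a', PjI a a' → ∀ φ : K →ₗ[ℝ] ℝ, ∃ s t : ℝ, s • a + t • a' ≠ 0 ∧
    φ (u (s • a + t • a')) = 0

variable {u : V → K}

theorem PjH.sm' (H : PjH u) {a : V} (ha : a ≠ 0) {t : ℝ} (ht : t ≠ 0) :
    ∃ k : ℝ, k ≠ 0 ∧ u (t • a) = k • u a := by
  obtain ⟨k, hk⟩ := H.sm a ha t ht
  exact ⟨k, fun e => H.ne _ (smul_ne_zero ht ha) (by rw [hk, e, zero_smul]), hk⟩

theorem PjH.sp' (H : PjH u) {a a' : V} (h : PjI a a') :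
    ∃ α β : ℝ, α ≠ 0 ∧ β ≠ 0 ∧ u (a + a') = α • u a + β • u a' := by
  obtain ⟨k, α, β, hk, h1, h2, e⟩ := H.sp a a' h
  refine ⟨k⁻¹ * α, k⁻¹ * β, mul_ne_zero (inv_ne_zero hk) h1, mul_ne_zero (inv_ne_zero hk) h2, ?_⟩
  rw [mul_smul, mul_smul, ← smul_add, ← e, inv_smul_smul₀ hk]

theorem PjH.pl (H : PjH u) {a a' : V} (h : PjI a a') {s t : ℝ} (hb : s • a + t • a' ≠ 0) :
    ∃ α β : ℝ, u (s • a + t • a') = α • u a + β • u a' := by
  by_cases hs : s = 0
  · subst hs
    have ht : t ≠ 0 := fun e => hb (by simp [e])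
    obtain ⟨k, hk⟩ := H.sm a' h.right t ht
    exact ⟨0, k, by simp [hk]⟩
  by_cases ht : t = 0
  · subst ht
    obtain ⟨k, hk⟩ := H.sm a h.left s hs
    exact ⟨k, 0, by simp [hk]⟩
  obtain ⟨α, β, -, -, e⟩ := H.sp' (h.smul hs ht)
  obtain ⟨k, hk⟩ := H.sm a h.left s hs
  obtain ⟨k', hk'⟩ := H.sm a' h.right t ht
  exact ⟨α * k, β * k', by rw [e, hk, hk', mul_smul, mul_smul]⟩

theorem PjH.i2 (H : PjH u) {a a' : V} (h : PjI a a') : PjI (u a) (u a') := by
  by_contra hc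
  obtain ⟨k, hk⟩ := pj_dep (H.ne a h.left) hc
  obtain ⟨φ, hφ⟩ := Projective.exists_dual_eq_one ℝ (H.ne a h.left)
  obtain ⟨s, t, hb, e⟩ := H.odd a a' h φ
  obtain ⟨α, β, e'⟩ := H.pl h hb
  have e2 : u (s • a + t • a') = (α + β * k) • u a := by rw [e', hk]; module
  rw [e2, map_smul, hφ, smul_eq_mul, mul_one] at e
  exact H.ne _ hb (by rw [e2, e, zero_smul])

theorem PjH.i3 (H : PjH u) {a a' a'' : V} (h : PjJ a a' a'') : PjJ (u a) (u a') (u a'') := by
  have h2 : PjI a a' := fun s t e => by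
    have := h s t 0 (by simpa using e)
    exact ⟨this.1, this.2.1⟩
  intro r s t e
  by_cases ht : t = 0
  · subst ht
    have := H.i2 h2 r s (by simpa using e)
    exact ⟨this.1, this.2, rfl⟩
  exfalso
  obtain ⟨φ, h3, h4⟩ := pj_dual (H.i2 h2) s (-r)
  obtain ⟨x, y, hb, e1⟩ := H.odd a a' h2 φ
  obtain ⟨α, β, e2⟩ := H.pl h2 hb
  have h5 : PjI (x • a + y • a') a'' := fun p q e3 => by
    have := h (p * x) (p * y) q (by linear_combination (norm := module) e3)
    refine ⟨?_, this.2.2⟩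
    by_contra hp
    exact hb (by
      rw [(mul_eq_zero.1 this.1).resolve_left hp, (mul_eq_zero.1 this.2.1).resolve_left hp]
      simp)
  have e4 : α * s = β * r := by
    rw [e2, map_add, map_smul, map_smul, h3, h4, smul_eq_mul, smul_eq_mul] at e1
    linarith
  have h6 := H.i2 h5 r (α * t) (by
    rw [e2]
    linear_combination (norm := module) α • e - e4 • u a')
  have h7 := H.i2 h5 s (β * t) (by
    rw [e2]
    linear_combination (norm := module) β • e + e4 • u a)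
  rw [h6.1, h7.1] at e
  exact H.ne a'' h5.right ((smul_eq_zero.1 (by simpa using e)).resolve_left ht)

theorem PjH.chart (H : PjH u) (e a : V) : ∃ w : K, (a = 0 → w = 0) ∧ (PjI e a →
    (∃ k : ℝ, k ≠ 0 ∧ w = k • u a) ∧ ∃ k : ℝ, k ≠ 0 ∧ u e + w = k • u (e + a)) := by
  by_cases h : PjI e a
  · obtain ⟨α, β, h1, h2, e1⟩ := H.sp' h
    refine ⟨(α⁻¹ * β) • u a, fun e0 => absurd e0 h.right, fun _ =>
      ⟨⟨_, mul_ne_zero (inv_ne_zero h1) h2, rfl⟩, α⁻¹, inv_ne_zero h1, ?_⟩⟩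
    rw [e1, smul_add, inv_smul_smul₀ h1, mul_smul]
  · exact ⟨0, fun _ => rfl, fun h' => absurd h' h⟩

theorem PjH.chart_add (H : PjH u) {e a a' : V} (h : PjJ e a a') {w w' w'' : K}
    {k k' k'' l l' l'' : ℝ} (hl : l ≠ 0) (hl' : l' ≠ 0)
    (e1 : w = k • u a) (e2 : w' = k' • u a') (e3 : w'' = k'' • u (a + a'))
    (f1 : u e + w = l • u (e + a)) (f2 : u e + w' = l' • u (e + a'))
    (f3 : u e + w'' = l'' • u (e + (a + a'))) : w'' = w + w' := by
  have i1 : PjI (e + a) a' := fun s t z => by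
    have := h s s t (by linear_combination (norm := module) z)
    exact ⟨this.1, this.2.2⟩
  have i2 : PjI (e + a') a := fun s t z => by
    have := h s t s (by linear_combination (norm := module) z)
    exact ⟨this.1, this.2.1⟩
  have i3 : PjI a a' := fun s t z => by
    have := h 0 s t (by linear_combination (norm := module) z)
    exact this.2
  obtain ⟨α, β, -, -, g1⟩ := H.sp' i1
  obtain ⟨γ, δ, -, -, g2⟩ := H.sp' i2
  obtain ⟨x, y, -, -, g3⟩ := H.sp' i3
  rw [add_assoc] at g1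
  rw [add_assoc, add_comm a' a] at g2
  have g4 : u (e + a) = l⁻¹ • (u e + k • u a) := by rw [← e1, f1, inv_smul_smul₀ hl]
  have g5 : u (e + a') = l'⁻¹ • (u e + k' • u a') := by rw [← e2, f2, inv_smul_smul₀ hl']
  have j1 := H.i3 h (1 - l'' * α * l⁻¹) (k'' * x - l'' * α * l⁻¹ * k) (k'' * y - l'' * β) (by
    rw [e3, g3, g1, g4] at f3
    linear_combination (norm := module) f3)
  have j2 := H.i3 h (1 - l'' * γ * l'⁻¹) (k'' * x - l'' * δ) (k'' * y - l'' * γ * l'⁻¹ * k') (by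
    rw [e3, g3, g2, g5] at f3
    linear_combination (norm := module) f3)
  have m1 : k'' * x = k := by linear_combination j1.2.1 - k * j1.1
  have m2 : k'' * y = k' := by linear_combination j2.2.2 - k' * j2.1
  rw [e3, g3, e1, e2, ← m1, ← m2]
  module

theorem pj_third [FiniteDimensional ℝ V] (h3 : 3 ≤ finrank ℝ V) (x y : V) :
    ∃ z, ∀ r s t : ℝ, r • x + s • y + t • z = 0 → t = 0 := by
  obtain ⟨z, hz⟩ := (Submodule.span ℝ (range ![x, y])).exists_of_finrank_lt
    (lt_of_le_of_lt (finrank_range_le_card (R := ℝ) ![x, y]) (by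
      rw [Fintype.card_fin]
      omega))
  refine ⟨z, fun r s t e => ?_⟩
  by_contra ht
  refine hz t ht ?_
  have : t • z = (-r) • x + (-s) • y := by linear_combination (norm := module) e
  rw [this]
  exact add_mem (Submodule.smul_mem _ _ (Submodule.subset_span ⟨0, rfl⟩))
    (Submodule.smul_mem _ _ (Submodule.subset_span ⟨1, rfl⟩))

end alg

theorem proj {V K : Type*} [AddCommGroup V] [Module ℝ V] [FiniteDimensional ℝ V]
    [NormedAddCommGroup K] [NormedSpace ℝ K] (h3 : 3 ≤ finrank ℝ V) (N : Seminorm ℝ V)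
    (hN : ∀ a ≠ 0, 0 < N a) (u : V → K) (hne : ∀ a ≠ 0, u a ≠ 0)
    (hsm : ∀ a ≠ 0, ∀ t : ℝ, t ≠ 0 → ∃ k : ℝ, u (t • a) = k • u a) {c M : ℝ} (hc : 0 < c)
    (hsp : ∀ a : Fin 3 → V, ∑ i, a i = 0 → LinearIndependent ℝ ![a 0, a 1] →
      ∃ al : Fin 3 → ℝ, ∑ i, al i • ‖u (a i)‖⁻¹ • u (a i) = 0 ∧
        ∀ i, al i ≠ 0 ∧ |al i| ≤ M ∧ ((∀ j, N (a j) ≤ 2 * N (a i)) → c ≤ |al i|))
    (hodd : ∀ a a', LinearIndependent ℝ ![a, a'] → ∀ φ : K →ₗ[ℝ] ℝ, ∃ s t : ℝ,
      s • a + t • a' ≠ 0 ∧ φ (u (s • a + t • a')) = 0) :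
    ∃ T : V →ₗ[ℝ] K, (∀ a ≠ 0, ∃ k : ℝ, k ≠ 0 ∧ T a = k • u a) ∧
      ∀ a a', N a = N a' → c * ‖T a‖ ≤ M * ‖T a'‖ := by
  have sp : ∀ a a', PjI a a' → ∃ k α β : ℝ, k ≠ 0 ∧ α ≠ 0 ∧ β ≠ 0 ∧ |β| ≤ M ∧
      (N a' ≤ N a → c ≤ |α| ∧ |α| ≤ M) ∧
      k • u (a + a') = (α * ‖u a‖⁻¹) • u a + (β * ‖u a'‖⁻¹) • u a' := by
    intro a a' h
    obtain ⟨al, e, hal⟩ := hsp ![a, a', (-1 : ℝ) • (a + a')] (by
      rw [Fin.sum_univ_three]
      change a + a' + (-1 : ℝ) • (a + a') = 0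
      module) (LinearIndependent.pair_iff.2 h)
    obtain ⟨k, hk⟩ := hsm _ h.add_ne (-1) (by norm_num)
    have h1 := hne _ (smul_ne_zero (show (-1 : ℝ) ≠ 0 by norm_num) h.add_ne)
    have hk0 : k ≠ 0 := fun z => h1 (by rw [hk, z, zero_smul])
    refine ⟨-(al 2 * ‖u ((-1 : ℝ) • (a + a'))‖⁻¹ * k), al 0, al 1, neg_ne_zero.2 (mul_ne_zero
      (mul_ne_zero (hal 2).1 (inv_ne_zero (norm_ne_zero_iff.2 h1))) hk0), (hal 0).1, (hal 1).1,
      (hal 1).2.1, fun hle => ⟨(hal 0).2.2 fun j => ?_, (hal 0).2.1⟩, ?_⟩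
    · have := map_add_le_add N a a'
      have := apply_nonneg N a
      have h2 : N ((-1 : ℝ) • (a + a')) = N (a + a') := by rw [neg_one_smul, map_neg_eq_map]
      fin_cases j
      · change N a ≤ 2 * N a
        linarith
      · change N a' ≤ 2 * N a
        linarith
      · change N ((-1 : ℝ) • (a + a')) ≤ 2 * N a
        linarith
    · rw [Fin.sum_univ_three] at e
      change al 0 • ‖u a‖⁻¹ • u a + al 1 • ‖u a'‖⁻¹ • u a' +
        al 2 • ‖u ((-1 : ℝ) • (a + a'))‖⁻¹ • u ((-1 : ℝ) • (a + a')) = 0 at e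
      generalize ‖u ((-1 : ℝ) • (a + a'))‖⁻¹ = ν at e ⊢
      rw [hk] at e
      linear_combination (norm := module) -e
  have H : PjH u := ⟨hne, hsm, fun a a' h => by
    obtain ⟨k, α, β, h1, h2, h4, -, -, e⟩ := sp a a' h
    exact ⟨k, _, _, h1, mul_ne_zero h2 (inv_ne_zero (norm_ne_zero_iff.2 (hne _ h.left))),
      mul_ne_zero h4 (inv_ne_zero (norm_ne_zero_iff.2 (hne _ h.right))), e⟩,
    fun a a' h => hodd a a' (LinearIndependent.pair_iff.2 h)⟩
  have ratio : ∀ a a', PjI a a' → N a' ≤ N a → ∀ k k' l : ℝ,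
      k • u a + k' • u a' = l • u (a + a') → c * ‖k' • u a'‖ ≤ M * ‖k • u a‖ := by
    intro a a' h hle k k' l e
    obtain ⟨κ, α, β, h1, -, -, h4, h5, e'⟩ := sp a a' h
    have h6 := H.i2 h (κ * k - l * (α * ‖u a‖⁻¹)) (κ * k' - l * (β * ‖u a'‖⁻¹)) (by
      linear_combination (norm := module) κ • e + l • e')
    have n1 := norm_ne_zero_iff.2 (hne _ h.left)
    have n2 := norm_ne_zero_iff.2 (hne _ h.right)
    have m1 : κ * (k * ‖u a‖) = l * α := by
      have := h6.1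
      field_simp at this
      linarith
    have m2 : κ * (k' * ‖u a'‖) = l * β := by
      have := h6.2
      field_simp at this
      linarith
    have m3 : α * (k' * ‖u a'‖) = β * (k * ‖u a‖) :=
      mul_left_cancel₀ h1 (by linear_combination α * m2 - β * m1)
    have m4 := congrArg abs m3
    simp only [abs_mul, abs_norm] at m4
    rw [norm_smul, norm_smul, Real.norm_eq_abs, Real.norm_eq_abs]
    calc c * (|k'| * ‖u a'‖) ≤ |α| * (|k'| * ‖u a'‖) := by gcongr; exact (h5 hle).1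
      _ = |β| * (|k| * ‖u a‖) := m4
      _ ≤ M * (|k| * ‖u a‖) := by gcongr
  obtain ⟨e, he⟩ := pj_third h3 0 0
  have he0 : e ≠ 0 := fun z => one_ne_zero (he 0 0 1 (by simp [z]))
  obtain ⟨f, hf⟩ := Projective.exists_dual_eq_one ℝ he0
  have ie : ∀ a, f a = 0 → a ≠ 0 → PjI e a := fun a h0 ha s t z => by
    have h1 : s = 0 := by simpa [hf, h0] using congrArg f z
    rw [h1, zero_smul, zero_add] at z
    exact ⟨h1, (smul_eq_zero.1 z).resolve_right ha⟩
  have third : ∀ a, f a = 0 → a ≠ 0 → ∃ b, f b = 0 ∧ PjI a b := fun a h0 ha => by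
    obtain ⟨z, hz⟩ := pj_third h3 e a
    refine ⟨z - f z • e, by simp [hf], fun s t y => ?_⟩
    have h1 := hz (-(t * f z)) s t (by linear_combination (norm := module) y)
    rw [h1, zero_smul, add_zero] at y
    exact ⟨(smul_eq_zero.1 y).resolve_right ha, h1⟩
  choose S hS0 hS using H.chart e
  have add1 : ∀ a a', f a = 0 → f a' = 0 → PjI a a' → S (a + a') = S a + S a' := by
    intro a a' h0 h0' h
    obtain ⟨⟨k, -, e1⟩, l, hl, f1⟩ := hS a (ie a h0 h.left)
    obtain ⟨⟨k', -, e2⟩, l', hl', f2⟩ := hS a' (ie a' h0' h.right)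
    obtain ⟨⟨k'', -, e3⟩, l'', -, f3⟩ := hS (a + a') (ie _ (by simp [h0, h0']) h.add_ne)
    refine H.chart_add (fun r s t z => ?_) hl hl' e1 e2 e3 f1 f2 f3
    have h1 : r = 0 := by simpa [hf, h0, h0'] using congrArg f z
    rw [h1, zero_smul, zero_add] at z
    exact ⟨h1, h s t z⟩
  have add2 : ∀ a a', f a = 0 → f a' = 0 → S (a + a') = S a + S a' := by
    intro a a' h0 h0'
    by_cases ha : a = 0
    · rw [ha, zero_add, hS0 0 rfl, zero_add]
    by_cases ha' : a' = 0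
    · rw [ha', add_zero, hS0 0 rfl, add_zero]
    by_cases h : PjI a a'
    · exact add1 a a' h0 h0' h
    obtain ⟨k, rfl⟩ := pj_dep ha h
    have hk : k ≠ 0 := fun z => ha' (by rw [z, zero_smul])
    obtain ⟨b, hb, hab⟩ := third a h0 ha
    have i1 : PjI (k • a) b := by simpa using hab.smul hk one_ne_zero
    have i2 : PjI a (k • a + b) := fun s t z => by
      have := hab (s + t * k) t (by linear_combination (norm := module) z)
      exact ⟨by simpa [this.2] using this.1, this.2⟩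
    have e1 := add1 _ _ h0 (by simp [h0, hb]) i2
    rw [add1 _ _ h0' hb i1, ← add_assoc, ← add_assoc] at e1
    have e2 : S (a + k • a + b) = S (a + k • a) + S b := by
      by_cases z : a + k • a = 0
      · rw [z, zero_add, hS0 0 rfl, zero_add]
      · have h1 : a + k • a = (1 + k) • a := by module
        have h2 : 1 + k ≠ 0 := fun y => z (by rw [h1, y, zero_smul])
        refine add1 _ _ (by simp [h0]) hb ?_
        rw [h1]
        simpa using hab.smul h2 one_ne_zero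
    exact add_right_cancel (e2.symm.trans e1)
  have bd : ∀ a, f a = 0 → N a ≤ N e → ‖S a‖ ≤ |M| * ‖u e‖ / c := by
    intro a h0 hle
    by_cases ha : a = 0
    · rw [hS0 a ha, norm_zero]
      positivity
    obtain ⟨⟨k, -, e1⟩, l, -, f1⟩ := hS a (ie a h0 ha)
    have := ratio e a (ie a h0 ha) hle 1 k l (by rw [one_smul, ← e1, f1])
    rw [one_smul, ← e1] at this
    rw [le_div_iff₀ hc]
    nlinarith [le_abs_self M, norm_nonneg (u e)]
  have smul2 : ∀ a, f a = 0 → ∀ t : ℝ, S (t • a) = t • S a := by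
    intro a h0 t
    let F : ℝ →+ K := AddMonoidHom.mk' (fun x => S (x • a)) fun x y => by
      rw [add_smul]
      exact add2 _ _ (by simp [h0]) (by simp [h0])
    have h1 : {x : ℝ | |x| * N a < N e} ∈ 𝓝 (0 : ℝ) :=
      (isOpen_lt (continuous_abs.mul continuous_const) continuous_const).mem_nhds
        (by simpa using hN e he0)
    have h2 : Continuous F := F.continuous_of_isBounded_nhds_zero h1
      (isBounded_iff_forall_norm_le.2 ⟨_, by
        rintro _ ⟨x, hx, rfl⟩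
        exact bd (x • a) (by simp [h0]) (by
          rw [map_smul_eq_mul, Real.norm_eq_abs]
          exact le_of_lt hx)⟩)
    have h4 := map_real_smul F h2 t 1
    simpa [F] using h4
  have hk : ∀ v, f (v - f v • e) = 0 := fun v => by simp [hf]
  let T : V →ₗ[ℝ] K :=
    { toFun := fun v => f v • u e + S (v - f v • e)
      map_add' := fun v w => by
        have h1 : v + w - f (v + w) • e = (v - f v • e) + (w - f w • e) := by
          rw [map_add]
          module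
        rw [h1, add2 _ _ (hk v) (hk w), map_add]
        module
      map_smul' := fun t v => by
        have h1 : t • v - f (t • v) • e = t • (v - f v • e) := by
          rw [map_smul, smul_eq_mul]
          module
        rw [h1, smul2 _ (hk v), map_smul, smul_eq_mul, RingHom.id_apply]
        module }
  have hT : ∀ v, T v = f v • u e + S (v - f v • e) := fun _ => rfl
  have par : ∀ a ≠ 0, ∃ k : ℝ, k ≠ 0 ∧ T a = k • u a := by
    have p1 : ∀ a, f a = 1 → ∃ k : ℝ, k ≠ 0 ∧ T a = k • u a := by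
      intro a h1
      rw [hT, h1, one_smul, one_smul]
      by_cases z : a - e = 0
      · rw [hS0 _ z, sub_eq_zero.1 z]
        exact ⟨1, one_ne_zero, by simp⟩
      · obtain ⟨-, l, hl, f1⟩ := hS _ (ie (a - e) (by simp [hf, h1]) z)
        exact ⟨l, hl, by rw [f1, add_sub_cancel]⟩
    intro a ha
    by_cases h0 : f a = 0
    · rw [hT, h0, zero_smul, zero_smul, zero_add, sub_zero]
      exact (hS a (ie a h0 ha)).1
    · obtain ⟨k, hk0, e1⟩ := p1 ((f a)⁻¹ • a) (by simp [h0])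
      obtain ⟨l, hl, e2⟩ := H.sm' ha (inv_ne_zero h0)
      refine ⟨f a * k * l, mul_ne_zero (mul_ne_zero h0 hk0) hl, ?_⟩
      rw [map_smul, e2] at e1
      rw [mul_smul, mul_smul, ← e1, smul_inv_smul₀ h0]
  have hcM : c ≤ M := by
    obtain ⟨z, hz⟩ := pj_third h3 e 0
    have h1 : PjI e z := fun s t y => by
      have h2 := hz s 0 t (by simpa using y)
      rw [h2, zero_smul, add_zero] at y
      exact ⟨(smul_eq_zero.1 y).resolve_right he0, h2⟩
    rcases le_total (N z) (N e) with h | h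
    · obtain ⟨_, _, _, -, -, -, -, h5, -⟩ := sp e z h1
      exact (h5 h).1.trans (h5 h).2
    · obtain ⟨_, _, _, -, -, -, -, h5, -⟩ := sp z e fun s t y =>
        (h1 t s (by rw [add_comm]; exact y)).symm
      exact (h5 h).1.trans (h5 h).2
  refine ⟨T, par, fun a a' hN' => ?_⟩
  by_cases ha' : a' = 0
  · have : a = 0 := by
      by_contra z
      have := hN a z
      rw [hN', ha', map_zero] at this
      exact lt_irrefl _ this
    simp [this, ha']
  by_cases h : PjI a' a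
  · obtain ⟨k, -, e1⟩ := par a h.right
    obtain ⟨k', -, e2⟩ := par a' ha'
    obtain ⟨l, -, e3⟩ := par _ h.add_ne
    rw [e1, e2]
    exact ratio a' a h hN'.le k' k l (by rw [← e1, ← e2, ← e3, map_add])
  · obtain ⟨k, rfl⟩ := pj_dep ha' h
    rw [map_smul_eq_mul] at hN'
    have h1 : ‖k‖ = 1 := mul_right_cancel₀ (hN a' ha').ne' (by rw [hN', one_mul])
    rw [map_smul, norm_smul, h1, one_mul]
    exact mul_le_mul_of_nonneg_right hcM (norm_nonneg _)

end Pool.Agent.P.MP_5aae23_gt.Nsg
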