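import Pool.Agent.P.MP_5aae23_gt.GO
import Pool.Agent.P.MP_5aae23_gt.GProj

open Set Filter Topology Function

namespace Pool.Agent.P.MP_5aae23_gt.Nsg

open Nsh

universe w

variable {E : Type*} [NormedAddCommGroup E] [NormedSpace ℝ E]
  {H : Type*} [NormedAddCommGroup H] [NormedSpace ℝ H]

theorem Asg.lin (A : Asg E H) : ∃ C0 > (0 : ℝ), ∀ (K : Type w) [NormedAddCommGroup K]
    [NormedSpace ℝ K] (U : Ultrafilter ℕ) (Q : (ℕ → H) →ₗ[ℝ] K),
    IsUQ U Q → ∀ m : ℕ, 3 ≤ m → ∀ D : Blk A U m, ∃ T : (Fin m → ℝ) →ₗ[ℝ] K,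
      (∀ a ≠ 0, T a ≠ 0 ∧ ∃ z, Bd z ∧ T a = Q z) ∧
      ∀ a a', D.N a = D.N a' → ‖T a‖ ≤ C0 * ‖T a'‖ := by
  have hσ : 0 < A.d2 * (A.g / A.G) ^ 2 / 2 :=
    half_pos (mul_pos A.d2_pos (pow_pos (div_pos A.gpos A.G_pos) 2))
  obtain ⟨c1, hc1, hlow⟩ := A.low.{w} hσ
  obtain ⟨i0, -, hi0⟩ := Finset.exists_min_image Finset.univ (fun i => |A.lo i|)
    Finset.univ_nonempty
  obtain ⟨i1, -, hi1⟩ := Finset.exists_max_image Finset.univ (fun i => |A.lo i|)
    Finset.univ_nonempty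
  have hlo : ∀ i, 0 < |A.lo i| := fun i => abs_pos.2 (A.sne _ A.lo_mem i)
  have hc : 0 < |A.lo i0| * c1 := mul_pos (hlo i0) hc1
  have hM : 0 < |A.lo i1| * (2 * |A.B| + 1) := mul_pos (hlo i1) (by positivity)
  refine ⟨_, div_pos hM hc, fun K _ _ U Q hQ m hm D => ?_⟩
  choose τ hτ u hu using fun a => ov_ex D Q 0 a
  have hne : ∀ a ≠ 0, u a ≠ 0 := fun a ha => ov_ne hQ (hu a) (smul_ne_zero (hτ a).ne' ha)
  obtain ⟨T, hT1, hT2⟩ := proj (V := Fin m → ℝ) (by simpa using hm) D.N (fun a ha => D.N_pos ha)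
    u hne (fun a ha t _ => ov_dir hQ ha (hτ a).ne' (smul_smul (τ (t • a)) t a ▸ hu (t • a)) (hu a))
    (M := |A.lo i1| * (2 * |A.B| + 1)) hc (fun a hs hl => by
      have hp := LinearIndependent.pair_iff.1 hl
      have ha : ∀ i, a i ≠ 0 := by
        intro i h
        rw [Fin.sum_univ_three] at hs
        fin_cases i
        · exact one_ne_zero (hp 1 0 (by simpa using h)).1
        · exact one_ne_zero (hp 0 1 (by simpa using h)).2
        · have h2 : a 2 = 0 := h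
          exact one_ne_zero (hp 1 1 (by simpa [h2] using hs)).1
      obtain ⟨t, w, hw, h0, ht, hj⟩ := ov_split hQ D a hs (ha 0)
      choose r hr using fun i => ov_dir hQ (ha i) (hτ (a i)).ne' (hw i) (hu (a i))
      have habs : ∀ i, |A.lo i * r i * ‖u (a i)‖| = |A.lo i| * ‖w i‖ := fun i => by
        rw [hr i, norm_smul, abs_mul, abs_mul, abs_norm, Real.norm_eq_abs, mul_assoc]
      refine ⟨fun i => A.lo i * r i * ‖u (a i)‖, ?_, fun i => ⟨?_, ?_, fun h => ?_⟩⟩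
      · rw [← h0]
        refine Finset.sum_congr rfl fun i _ => ?_
        rw [hr i, smul_smul, smul_smul, mul_assoc,
          mul_inv_cancel₀ (norm_ne_zero_iff.2 (hne _ (ha i))), mul_one]
      · rw [← abs_pos, habs]
        exact mul_pos (hlo i) (norm_pos_iff.2 (ov_ne hQ (hw i) (smul_ne_zero (ht i) (ha i))))
      · rw [habs]
        refine mul_le_mul (hi1 i (Finset.mem_univ i)) ?_ (norm_nonneg _) (abs_nonneg _)
        have := ov_le hQ (hw i)
        have := le_abs_self A.B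
        linarith
      · rw [habs]
        refine mul_le_mul (hi0 i (Finset.mem_univ i)) (hlow K U Q hQ m D i _ _ (hw i) ?_) hc1.le
          (abs_nonneg _)
        obtain ⟨j, hj⟩ := hj i
        have := mul_le_mul_of_nonneg_left (h j) (abs_nonneg (t i))
        rw [map_smul_eq_mul, Real.norm_eq_abs]
        linarith) (fun a a' hl φ => by
      obtain ⟨α, β, hb, v, w, hw, h0⟩ := ov_odd hQ D hl φ
      obtain ⟨r, hr⟩ := ov_dir hQ hb one_ne_zero (hu _) (by rw [one_smul]; exact hw)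
      exact ⟨α, β, hb, by rw [hr, map_smul, h0, smul_zero]⟩)
  refine ⟨T, fun a ha => ?_, fun a a' h => ?_⟩
  · obtain ⟨k, hk, e⟩ := hT1 a ha
    obtain ⟨c, η, h1, -, h2⟩ := hu a
    refine ⟨e ▸ smul_ne_zero hk (hne a ha), k • fun l => A.J 0 (c l),
      Bd.smul ⟨A.B, fun l => A.Jle _ _ _ (h1 l).1⟩ k, ?_⟩
    rw [e, h2, map_smul]
  · rw [div_mul_eq_mul_div, le_div_iff₀ hc, mul_comm]
    exact hT2 a a' h

end Pool.Agent.P.MP_5aae23_gt.Nsg
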