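import Pool.Agent.P.MP_5aae23_gt.GA
import Pool.Agent.P.MP_5aae23_gt.GU

open Set Filter Topology Function

namespace Pool.Agent.P.MP_5aae23_gt.Nsg

open Nsh

variable {E : Type*} [NormedAddCommGroup E] [NormedSpace ℝ E]
  {H : Type*} [NormedAddCommGroup H] [NormedSpace ℝ H]

theorem gp_le {m : ℕ} (p : Seminorm ℝ (Fin m → ℝ)) {C : Fin m → ℝ}
    (h : ∀ j, p (Pi.single j 1) ≤ C j) (a : Fin m → ℝ) : p a ≤ (∑ j, C j) * ‖a‖ := by
  have h1 : a = ∑ j, a j • (Pi.single j 1 : Fin m → ℝ) := pi_eq_sum_univ' a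
  conv_lhs => rw [h1]
  refine (Finset.le_sum_of_subadditive p (map_zero p).le (map_add_le_add p) _ _).trans ?_
  rw [Finset.sum_mul]
  refine Finset.sum_le_sum fun j _ => ?_
  rw [map_smul_eq_mul, mul_comm]
  exact mul_le_mul (h j) (norm_le_pi_norm a j) (norm_nonneg _) ((apply_nonneg p _).trans (h j))

theorem unif {ι : Type} {F : Filter ι} {m : ℕ} (p : ι → Seminorm ℝ (Fin m → ℝ))
    (N : Seminorm ℝ (Fin m → ℝ)) (hN : ∀ a ≠ 0, 0 < N a)
    (h : ∀ a, Tendsto (fun i => p i a) F (𝓝 (N a))) :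
    ∀ᶠ i in F, ∀ a, N a ≤ 2 * p i a ∧ p i a ≤ 2 * N a := by
  set C : ℝ := ∑ j, (N (Pi.single j 1) + 1) with hC
  have hC0 : 0 ≤ C := Finset.sum_nonneg fun j _ => by positivity
  have h1 : ∀ᶠ i in F, ∀ a, p i a ≤ C * ‖a‖ := by
    filter_upwards [eventually_all.2 fun j : Fin m =>
      (h (Pi.single j 1)).eventually (gt_mem_nhds (lt_add_one _))] with i hi
    exact gp_le (p i) fun j => (hi j).le
  have h2 : ∀ a, N a ≤ C * ‖a‖ := gp_le N fun j => (lt_add_one _).le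
  have h3 := (isCompact_sphere (0 : Fin m → ℝ) 1).mem_prod_nhdsSet_of_forall (l := F)
    (s := {z : ι × (Fin m → ℝ) | N z.2 ≤ 2 * p z.1 z.2 ∧ p z.1 z.2 ≤ 2 * N z.2}) fun a0 ha0 => by
      have hn : 0 < N a0 := hN a0 (by
        rintro rfl
        simp at ha0)
      have h4 : ∀ᶠ i in F, dist (p i a0) (N a0) < N a0 / 8 :=
        Metric.tendsto_nhds.1 (h a0) _ (by positivity)
      have h5 : ∀ᶠ a in 𝓝 a0, dist a a0 < N a0 / 8 / (C + 1) :=
        Metric.ball_mem_nhds a0 (by positivity)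
      filter_upwards [(h1.and h4).prod_mk h5] with z hz
      obtain ⟨⟨k1, k2⟩, k3⟩ := hz
      rw [dist_eq_norm, lt_div_iff₀ (by positivity)] at k3
      rw [Real.dist_eq, abs_lt] at k2
      have k4 := abs_le.1 ((abs_sub_map_le_sub (p z.1) z.2 a0).trans (k1 _))
      have k5 := abs_le.1 ((abs_sub_map_le_sub N z.2 a0).trans (h2 _))
      have k6 := norm_nonneg (z.2 - a0)
      constructor <;> nlinarith [k2.1, k2.2, k4.1, k4.2, k5.1, k5.2]
  obtain ⟨s, hs, t, ht, hst⟩ := mem_prod_iff.1 h3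
  filter_upwards [hs] with i hi a
  by_cases ha : a = 0
  · simp [ha]
  have ha0 : 0 < ‖a‖ := norm_pos_iff.2 ha
  have h4 := hst (mk_mem_prod hi (subset_of_mem_nhdsSet ht (show ‖a‖⁻¹ • a ∈ Metric.sphere 0 1 by
    rw [mem_sphere_zero_iff_norm, norm_smul, norm_inv, norm_norm, inv_mul_cancel₀ ha0.ne'])))
  simp only [mem_ofPred_eq, map_smul_eq_mul, norm_inv, norm_norm] at h4
  have h5 := inv_pos.2 ha0
  constructor
  · exact le_of_mul_le_mul_left (by linarith [h4.1]) h5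
  · exact le_of_mul_le_mul_left (by linarith [h4.2]) h5

theorem exists_blk (A : Asg E H) (U : Ultrafilter ℕ) (hU : (U : Filter ℕ) ≤ atTop) {m : ℕ}
    (hm : 0 < m) (n : ℕ → ℕ)
    (hn : Tendsto n U atTop) (hF : ∀ k, Module.finrank ℝ (A.F (n k)) = m) :
    ∃ D : Blk A U m, D.n = n := by
  obtain ⟨κ, hκ, hb⟩ := bas (E := E) m
  choose b hr hbd using fun k =>
    hb (A.F (n k)) (Module.finite_of_finrank_pos (by rw [hF k]; exact hm)) (hF k)
  choose N hN using fun a : Fin m → ℝ => ulim U (fun k => ‖b k a‖) (m * ‖a‖) fun k => by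
    rw [abs_norm]
    exact (hbd k a).2
  refine ⟨⟨n, b, κ, Seminorm.of N (fun a a' => ?_) fun r a => ?_, hU, hκ, hn, hr,
    fun k a => (hbd k a).1, fun k a => (hbd k a).2, hN⟩, rfl⟩
  · refine le_of_tendsto_of_tendsto' (hN _) ((hN a).add (hN a')) fun k => ?_
    rw [map_add]
    exact norm_add_le _ _
  · refine tendsto_nhds_unique (hN _) (((hN a).const_mul ‖r‖).congr fun k => ?_)
    rw [map_smul, norm_smul]

theorem Asg.fin (A : Asg E H) : ∃ K : ℝ, ∀ m, 3 ≤ m → ∀ n : ℕ → ℕ, Tendsto n atTop atTop →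
    (∀ k, Module.finrank ℝ (A.F (n k)) = m) →
    ∃ k, Emk K (A.F (n k)) (⊤ : Submodule ℝ H) := by
  classical
  obtain ⟨C0, hC0, hl⟩ := A.lin
  refine ⟨16 * C0 ^ 2, fun m hm n hn hF => ?_⟩
  have hU : ((Ultrafilter.of atTop : Ultrafilter ℕ) : Filter ℕ) ≤ atTop := Ultrafilter.of_le _
  obtain ⟨K, _, _, Q, hQ⟩ := uq H (Ultrafilter.of atTop)
  obtain ⟨D, hD⟩ := exists_blk A _ hU (by omega : 0 < m) n (hn.mono_left hU) hF
  obtain ⟨T, hT, hT'⟩ := hl K _ Q hQ m hm D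
  have he : ∀ i : Fin m, (Pi.single i 1 : Fin m → ℝ) ≠ 0 := fun i h => by
    simpa using congrFun h i
  choose z hz hz' using fun i : Fin m => (hT _ (he i)).2
  have hTa : ∀ a, T a = ∑ i, a i • Q (z i) := fun a => by
    conv_lhs => rw [pi_eq_sum_univ' a]
    simp only [map_sum, map_smul, hz']
  have h1 := hQ.fin z hz fun a ha => by
    by_contra h
    exact (hT a h).1 ((hTa a).trans ha)
  have h2 := unif (F := ((Ultrafilter.of atTop : Ultrafilter ℕ) : Filter ℕ))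
    (fun k => (normSeminorm ℝ E).comp (D.b k)) D.N (fun a ha => D.N_pos ha) fun a => D.Nlim a
  obtain ⟨k, h3, h4⟩ := (h2.and h1).exists
  obtain ⟨l, h5⟩ := h4.exists
  simp only [← hTa] at h5
  let a0 : Fin m → ℝ := Pi.single ⟨0, by omega⟩ 1
  have n0 : 0 < D.N a0 := D.N_pos (he _)
  have t0 : 0 < ‖T a0‖ := norm_pos_iff.2 (hT _ (he _)).1
  set κ := ‖T a0‖ / D.N a0 with hκ
  have κ0 : 0 < κ := div_pos t0 n0
  have h6 : ∀ a, ‖T a‖ ≤ C0 * (κ * D.N a) ∧ κ * D.N a ≤ C0 * ‖T a‖ := fun a => by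
    have e0 : ‖D.N a / D.N a0‖ = D.N a / D.N a0 := Real.norm_of_nonneg (by positivity)
    have e1 : D.N ((D.N a / D.N a0) • a0) = D.N a := by
      rw [map_smul_eq_mul, e0, div_mul_cancel₀ _ n0.ne']
    have e2 : ‖T ((D.N a / D.N a0) • a0)‖ = κ * D.N a := by
      rw [map_smul, norm_smul, e0, hκ]
      ring
    exact ⟨e2 ▸ hT' _ _ e1.symm, e2 ▸ hT' _ _ e1⟩
  have hinj : Injective (D.b k) := (injective_iff_map_eq_zero _).2 fun a ha => by
    have h7 := D.low k a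
    rw [ha, norm_zero] at h7
    exact norm_le_zero_iff.1 (le_of_mul_le_mul_left (by rwa [mul_zero]) D.kpos)
  let e := (LinearEquiv.ofInjective _ hinj).trans
    (LinearEquiv.ofEq _ _ ((D.rng k).trans (by rw [hD])) : _ ≃ₗ[ℝ] A.F (n k))
  refine ⟨k, (4 * C0 / κ) • (Fintype.linearCombination ℝ fun i => z i k - z i l) ∘ₗ
    e.symm.toLinearMap, fun x => ⟨trivial, ?_⟩⟩
  obtain ⟨a, rfl⟩ := e.surjective x
  have e1 : ‖e a‖ = ‖D.b k a‖ := rfl
  have e2 : ‖((4 * C0 / κ) • (Fintype.linearCombination ℝ fun i => z i k - z i l) ∘ₗ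
      e.symm.toLinearMap) (e a)‖ = 4 * C0 / κ * ‖∑ i, a i • (z i k - z i l)‖ := by
    rw [LinearMap.smul_apply, norm_smul, Real.norm_of_nonneg (by positivity)]
    simp [Fintype.linearCombination_apply]
  obtain ⟨p1, p2⟩ : D.N a ≤ 2 * ‖D.b k a‖ ∧ ‖D.b k a‖ ≤ 2 * D.N a := h3 a
  obtain ⟨p3, p4⟩ := h5 a
  obtain ⟨p5, p6⟩ := h6 a
  rw [e1, e2, div_mul_eq_mul_div, le_div_iff₀ κ0, div_le_iff₀ κ0]
  constructor
  · nlinarith [mul_le_mul_of_nonneg_left p2 κ0.le, mul_le_mul_of_nonneg_left p3 hC0.le]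
  · have q1 := mul_le_mul_of_nonneg_left p4 hC0.le
    have q2 := mul_le_mul_of_nonneg_left p5 hC0.le
    have q3 := mul_le_mul_of_nonneg_left p1 (by positivity : 0 ≤ C0 * (C0 * κ))
    nlinarith

end Pool.Agent.P.MP_5aae23_gt.Nsg
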