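import Pool.Agent.P.MP_5aae23_gt.GN

open Set Filter Topology Function

namespace Pool.Agent.P.MP_5aae23_gt.Nsg

open Nsh

variable {E : Type*} [NormedAddCommGroup E] [NormedSpace ℝ E]
  {H : Type*} [NormedAddCommGroup H] [NormedSpace ℝ H] {K : Type*} [NormedAddCommGroup K]
  [NormedSpace ℝ K] {U : Ultrafilter ℕ} {Q : (ℕ → H) →ₗ[ℝ] K}
  {A : Asg E H} {m : ℕ} {D : Blk A U m}

/-- The splitting relation in one block. -/
theorem gs_one (A : Asg E H) {n : ℕ} {x : Fin 3 → E} (hx : ∀ i, x i ∈ A.F n) (hs : ∑ i, x i = 0)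
    {μ : ℝ} (hμ : 0 < μ) (hle : ∀ i, ‖x i‖ ≤ μ) : ∃ (c : Fin 3 → Cf) (τ : Fin 3 → ℝ),
      (∀ i, c i ∈ A.M i n) ∧ (∀ i, A.y n i (c i) = τ i • x i) ∧ (∀ i, |τ i| * μ ≤ A.d2) ∧
      (∀ i, A.d2 * (A.g / A.G) ^ 2 ≤ |τ i| * μ) ∧ ∑ i, A.lam A.lo c i • A.y n i (c i) = 0 := by
  have hg := A.gpos
  have hG := A.G_pos
  have hd := A.d2_pos
  have hl : 0 < A.d2 * (A.g / A.G) / μ := by positivity
  have h1 : ∀ i, ‖(A.d2 * (A.g / A.G) / μ) • x i‖ ≤ A.δ * A.g / A.G := fun i => by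
    rw [norm_smul, Real.norm_of_nonneg hl.le]
    refine (mul_le_mul_of_nonneg_left (hle i) hl.le).trans (le_trans ?_ (gn_d2 A))
    rw [div_mul_cancel₀ _ hμ.ne']
    exact mul_le_of_le_one_right hd.le ((div_le_one hG).2 A.g_le)
  obtain ⟨r, hr, er⟩ := A.sur 2 (Submodule.smul_mem _ _ (hx 2)) ((h1 2).trans A.dg_le)
  obtain ⟨c, hc, e2, e0, e1⟩ := A.spl A.lo_mem hr (Submodule.smul_mem _ _ (hx 0))
    (Submodule.smul_mem _ _ (hx 1)) (h1 0) (h1 1)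
  have hb := A.lbd _ A.lo_mem (fun _ => n) c hc
  have hp : ∀ i, 0 < |A.lam A.lo c i| := fun i => hg.trans_le (hb i).1
  have e : ∀ i, A.lam A.lo c i • A.y n i (c i) =
      A.lam A.lo c 2 • (A.d2 * (A.g / A.G) / μ) • x i := fun i => by
    fin_cases i
    · exact e0
    · exact e1
    · exact congrArg _ (e2 ▸ er)
  have h2 : ∀ i, |(A.lam A.lo c i)⁻¹ * (A.lam A.lo c 2 * (A.d2 * (A.g / A.G) / μ))| * μ =
      A.d2 * (A.g / A.G) * (|A.lam A.lo c 2| / |A.lam A.lo c i|) := fun i => by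
    have := (hp i).ne'
    rw [abs_mul, abs_mul, abs_inv, abs_of_pos hl]
    field_simp
  refine ⟨c, fun i => (A.lam A.lo c i)⁻¹ * (A.lam A.lo c 2 * (A.d2 * (A.g / A.G) / μ)), hc,
    fun i => ?_, fun i => ?_, fun i => ?_, ?_⟩
  · rw [mul_smul, mul_smul, ← e i, inv_smul_smul₀ (abs_pos.1 (hp i))]
  · rw [h2, mul_assoc]
    refine mul_le_of_le_one_right hd.le ?_
    rw [div_mul_div_comm, div_le_one (mul_pos hG (hp i)), mul_comm A.G]
    exact mul_le_mul (hb i).1 (hb 2).2 (abs_nonneg _) (abs_nonneg _)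
  · rw [h2, sq, ← mul_assoc]
    exact mul_le_mul_of_nonneg_left (div_le_div₀ (abs_nonneg _) (hb 2).1 (hp i) (hb i).2)
      (by positivity)
  · rw [Finset.sum_congr rfl fun i _ => e i, ← Finset.smul_sum, ← Finset.smul_sum, hs, smul_zero,
      smul_zero]

theorem ov_split (hQ : IsUQ U Q) (D : Blk A U m) (a : Fin 3 → Fin m → ℝ) (hs : ∑ i, a i = 0)
    (h0 : a 0 ≠ 0) : ∃ (t : Fin 3 → ℝ) (w : Fin 3 → K), (∀ i, Ov D Q i (t i • a i) (w i)) ∧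
      ∑ i, A.lo i • w i = 0 ∧ (∀ i, t i ≠ 0) ∧
      ∀ i, ∃ j, A.d2 * (A.g / A.G) ^ 2 ≤ |t i| * D.N (a j) := by
  have hk := mul_pos D.kpos (norm_pos_iff.2 h0)
  let μ : ℕ → ℝ := fun k => max ‖D.b k (a 0)‖ (max ‖D.b k (a 1)‖ ‖D.b k (a 2)‖)
  have hμ : ∀ k, D.κ * ‖a 0‖ ≤ μ k := fun k => (D.low k _).trans (le_max_left _ _)
  have hle : ∀ k i, ‖D.b k (a i)‖ ≤ μ k := fun k i => by
    fin_cases i
    · exact le_max_left _ _
    · exact (le_max_left _ _).trans (le_max_right _ _)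
    · exact (le_max_right _ _).trans (le_max_right _ _)
  choose c τ hc ec h1 h2 h3 using fun k => gs_one A (x := fun i => D.b k (a i))
    (fun i => gn_mem D k _) (by rw [← map_sum, hs, map_zero]) (hk.trans_le (hμ k)) (hle k)
  choose t ht using fun i => ulim U (fun k => τ k i) (A.d2 / (D.κ * ‖a 0‖)) fun k =>
    (le_div_iff₀ hk).2 ((mul_le_mul_of_nonneg_left (hμ k) (abs_nonneg _)).trans (h1 k i))
  have h4 : ∀ i, ∃ j, A.d2 * (A.g / A.G) ^ 2 ≤ |t i| * D.N (a j) := fun i => by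
    have h5 := ge_of_tendsto' ((ht i).abs.mul
      ((D.Nlim (a 0)).max ((D.Nlim (a 1)).max (D.Nlim (a 2))))) fun k => h2 k i
    rcases max_choice (D.N (a 0)) (max (D.N (a 1)) (D.N (a 2))) with e | e
    · exact ⟨0, e ▸ h5⟩
    · rcases max_choice (D.N (a 1)) (D.N (a 2)) with e' | e'
      · exact ⟨1, by rwa [e, e'] at h5⟩
      · exact ⟨2, by rwa [e, e'] at h5⟩
  refine ⟨t, fun i => Q fun k => A.J i (c k i), fun i => ⟨fun k => c k i, fun k => τ k i • a i,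
    fun k => ⟨hc k i, by rw [ec, map_smul], ?_⟩, (ht i).smul_const _, rfl⟩,
    gn_rel A hQ hc (tendsto_const_nhds.congr fun k => (h3 k).symm), fun i e => ?_, h4⟩
  · rw [map_smul, norm_smul, Real.norm_eq_abs]
    exact (mul_le_mul_of_nonneg_left (hle k i) (abs_nonneg _)).trans (h1 k i)
  · obtain ⟨j, hj⟩ := h4 i
    rw [e, abs_zero, zero_mul] at hj
    exact hj.not_gt (mul_pos A.d2_pos (pow_pos (div_pos A.gpos A.G_pos) 2))

theorem ov_pl (hQ : IsUQ U Q) {a a' : Fin m → ℝ} (hl : LinearIndependent ℝ ![a, a'])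
    {v v' v'' : Fin 3} {t t' α β : ℝ} {w w' z : K} (ht : t ≠ 0) (ht' : t' ≠ 0)
    (h : Ov D Q v (t • a) w) (h' : Ov D Q v' (t' • a') w') (hne : α • a + β • a' ≠ 0)
    (hz : Ov D Q v'' (α • a + β • a') z) : ∃ r r' : ℝ, z = r • w + r' • w' := by
  obtain ⟨s, u, hu, e, hs, -⟩ := ov_split hQ D ![α • a + β • a', (-α) • a, (-β) • a']
    (by simp [Fin.sum_univ_three]) hne
  obtain ⟨r0, e0⟩ := ov_dir hQ (t := 1) (w := z) (v := v'') hne (hs 0)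
    (by rwa [one_smul]) (hu 0)
  obtain ⟨r1, e1⟩ := ov_dir hQ (t := s 1 * -α) (hl.ne_zero 0) ht
    ((mul_smul (s 1) (-α) a).symm ▸ hu 1) h
  obtain ⟨r2, e2⟩ := ov_dir hQ (t := s 2 * -β) (hl.ne_zero 1) ht'
    ((mul_smul (s 2) (-β) a').symm ▸ hu 2) h'
  rw [Fin.sum_univ_three, e1, e2, add_assoc] at e
  have h0 : u 0 = (A.lo 0)⁻¹ • -(A.lo 1 • r1 • w + A.lo 2 • r2 • w') := by
    rw [← eq_neg_of_add_eq_zero_left e, inv_smul_smul₀ (A.sne _ A.lo_mem 0)]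
  refine ⟨-(r0 * (A.lo 0)⁻¹ * A.lo 1 * r1), -(r0 * (A.lo 0)⁻¹ * A.lo 2 * r2), ?_⟩
  rw [e0, h0]
  module

end Pool.Agent.P.MP_5aae23_gt.Nsg
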