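import Pool.Agent.P.MP_5aae23_gt.GC
import Pool.Agent.P.MP_5aae23_gt.GK
import Pool.Agent.P.MP_5aae23_gt.GP

open Set Filter Topology Function

namespace Pool.Agent.P.MP_5aae23_gt.Nsg

open Nsh

variable {E : Type*} [NormedAddCommGroup E] [NormedSpace ℝ E]

theorem asym_of (hE : ¬FiniteDimensional ℝ E) (S : Frm E) {H : Type*} [NormedAddCommGroup H]
    [NormedSpace ℝ H] {𝒜 : Set (Asg E H)} (hf : 𝒜.Finite) {N0 : ℕ}
    (h : ∀ n, N0 ≤ n → ∃ A ∈ 𝒜, A.F n = S.F n) : Asym E H := by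
  choose K hK using fun A : Asg E H => A.fin
  obtain ⟨K0, hK0⟩ := (hf.image K).bddAbove
  refine ⟨max K0 0 * 4, fun m => ?_⟩
  obtain ⟨Sf, hS⟩ := S.big (max m 3) (le_max_right _ _)
  refine ⟨Sf, fun G hG hm hk => ?_⟩
  obtain ⟨G', hle, -, hr, hk'⟩ := kil_ext hE (S := Sf) (G := G) hk (hm.trans (le_max_left m 3))
  choose n hn hnr hne using fun N => hS G' hr hk' (max N N0)
  choose A hA hAF using fun N => h (n N) ((le_max_right _ _).trans (hn N))
  have : Finite 𝒜 := hf.to_subtype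
  obtain ⟨A0, hA0⟩ := Finite.exists_infinite_fiber fun N => (⟨A N, hA N⟩ : 𝒜)
  have hinf : {N : ℕ | A N = A0.1}.Infinite := by
    refine (Set.infinite_coe_iff.1 hA0).mono fun N hN => ?_
    exact congrArg Subtype.val (show (⟨A N, hA N⟩ : 𝒜) = A0 from hN)
  have hp := Nat.nth_mem_of_infinite hinf
  have hm' := (Nat.nth_strictMono hinf).tendsto_atTop
  have hF : ∀ k, A0.1.F (n (Nat.nth (fun N => A N = A0.1) k)) =
      S.F (n (Nat.nth (fun N => A N = A0.1) k)) := fun k => by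
    rw [← hAF, hp k]
  obtain ⟨k, T2, hT2⟩ := hK A0.1 (max m 3) (le_max_right _ _)
    (fun k => n (Nat.nth (fun N => A N = A0.1) k))
    (tendsto_atTop_mono (fun k => (le_max_left _ _).trans (hn _)) hm')
    fun k => by rw [hF k]; exact hnr _
  obtain ⟨T1, hT1⟩ := hne (Nat.nth (fun N => A N = A0.1) k)
  refine ⟨T2 ∘ₗ (T1.codRestrict _ fun x => (hF k).ge (hT1 x).1) ∘ₗ Submodule.inclusion hle,
    fun x => ?_⟩
  obtain ⟨-, a1, a2⟩ := hT1 (Submodule.inclusion hle x)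
  obtain ⟨-, b1, b2⟩ := hT2
    ((T1.codRestrict _ fun x => (hF k).ge (hT1 x).1) (Submodule.inclusion hle x))
  refine ⟨a1.trans b1, b2.trans ?_⟩
  have h1 : K A0.1 ≤ max K0 0 := (hK0 ⟨_, A0.2, rfl⟩).trans (le_max_left _ _)
  rw [mul_assoc]
  exact mul_le_mul h1 a2 (norm_nonneg _) (le_max_right _ _)

theorem asym_fin [FiniteDimensional ℝ E] (H : Type*) [NormedAddCommGroup H] [NormedSpace ℝ H] :
    Asym E H := by
  classical
  let b := Module.finBasis ℝ E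
  refine ⟨1, fun m => ⟨Finset.univ.image fun i => LinearMap.toContinuousLinearMap (b.coord i),
    fun G _ _ hk => ⟨0, fun x => ?_⟩⟩⟩
  have h0 : x = 0 := Subtype.ext (b.forall_coord_eq_zero_iff.1 fun i =>
    hk _ (Finset.mem_image_of_mem _ (Finset.mem_univ i)) _ x.2)
  simp [h0]

theorem main_g (E : Type*) [NormedAddCommGroup E] [NormedSpace ℝ E] [CompleteSpace E] :
    ∃ X : Submodule ℝ E, (∃ Y : ℕ → Set E, (∀ k, IsClosed (Y k)) ∧ ⋃ k, Y k = X) ∧
      ∀ (F : Type*) [NormedAddCommGroup F] [NormedSpace ℝ F] (C : Set F), Convex ℝ C →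
        Nonempty (X ≃ₜ C) → Asym E F := by
  by_cases hE : FiniteDimensional ℝ E
  · exact ⟨⊤, ⟨fun _ => univ, fun _ => isClosed_univ, by simp [iUnion_const]⟩,
      fun F _ _ _ _ _ => asym_fin F⟩
  obtain ⟨S⟩ := exists_frm hE
  obtain ⟨d, hd⟩ := exists_dfam
  refine ⟨XG S d, xg_fsigma S hd, fun F _ _ C hC ⟨h⟩ => ?_⟩
  obtain ⟨e⟩ := emg_of hC h
  obtain ⟨𝒜, hf, N0, hA⟩ := asg_of S hd e
  exact asym_of hE S hf hA

end Pool.Agent.P.MP_5aae23_gt.Nsg
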