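import Mathlib

open Set Filter Topology Function

namespace Pool.Agent.P.MP_5aae23_gt.Nsg

universe w

variable {H : Type w} [NormedAddCommGroup H] [NormedSpace ℝ H]

/-- Bounded sequences. -/
def Bd (a : ℕ → H) : Prop := ∃ B : ℝ, ∀ k, ‖a k‖ ≤ B

/-- `Q` realises the asymptotic seminorm of differences along `U`. -/
def IsUQ {K : Type*} [NormedAddCommGroup K] [NormedSpace ℝ K] (U : Ultrafilter ℕ)
    (Q : (ℕ → H) →ₗ[ℝ] K) : Prop :=
  ∀ a : ℕ → H, Bd a →
    Tendsto (fun p : ℕ × ℕ => ‖a p.1 - a p.2‖) ((U : Filter ℕ).curry U) (𝓝 ‖Q a‖)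

omit [NormedSpace ℝ H] in
theorem Bd.add {a b : ℕ → H} (ha : Bd a) (hb : Bd b) : Bd (a + b) := by
  obtain ⟨A, hA⟩ := ha
  obtain ⟨B, hB⟩ := hb
  exact ⟨A + B, fun k => norm_add_le_of_le (hA k) (hB k)⟩

omit [NormedSpace ℝ H] in
theorem Bd.sub {a b : ℕ → H} (ha : Bd a) (hb : Bd b) : Bd (a - b) := by
  obtain ⟨A, hA⟩ := ha
  obtain ⟨B, hB⟩ := hb
  exact ⟨A + B, fun k => norm_sub_le_of_le (hA k) (hB k)⟩

theorem Bd.smul {a : ℕ → H} (ha : Bd a) (c : ℝ) : Bd (c • a) := by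
  obtain ⟨A, hA⟩ := ha
  refine ⟨‖c‖ * A, fun k => ?_⟩
  rw [Pi.smul_apply, norm_smul]
  exact mul_le_mul_of_nonneg_left (hA k) (norm_nonneg _)

omit [NormedSpace ℝ H] in
theorem bd_const (x : H) : Bd fun _ : ℕ => x := ⟨‖x‖, fun _ => le_rfl⟩

/-- The subspace of bounded sequences. -/
def bdS (H : Type w) [NormedAddCommGroup H] [NormedSpace ℝ H] : Submodule ℝ (ℕ → H) where
  carrier := {a | Bd a}
  zero_mem' := bd_const 0
  add_mem' := Bd.add
  smul_mem' c _ h := h.smul c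

theorem bd_sum {ι : Type*} (s : Finset ι) (z : ι → ℕ → H) (hz : ∀ i, Bd (z i)) (a : ι → ℝ) :
    Bd (∑ i ∈ s, a i • z i) :=
  (bdS H).sum_mem fun i _ => (bdS H).smul_mem _ (hz i)

theorem curry_ultra (U : Ultrafilter ℕ) : ∃ V : Ultrafilter (ℕ × ℕ),
    (V : Filter (ℕ × ℕ)) = (U : Filter ℕ).curry U :=
  ⟨U.bind fun k => U.map (Prod.mk k), Filter.ext fun _ => Iff.rfl⟩

theorem seminorm_quot {F : Type w} [AddCommGroup F] [Module ℝ F] (q : Seminorm ℝ F) :
    ∃ (K : Type w) (_ : NormedAddCommGroup K) (_ : NormedSpace ℝ K) (π : F →ₗ[ℝ] K),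
      ∀ x, ‖π x‖ = q x := by
  let _ : SeminormedAddCommGroup F := q.toAddGroupSeminorm.toSeminormedAddCommGroup
  let _ : NormedSpace ℝ F := ⟨fun c a => (map_smul_eq_mul q c a).le⟩
  exact ⟨SeparationQuotient F, inferInstance, inferInstance,
    (SeparationQuotient.mkCLM ℝ F).toLinearMap, fun x => SeparationQuotient.norm_mk x⟩

theorem uq (H : Type w) [NormedAddCommGroup H] [NormedSpace ℝ H] (U : Ultrafilter ℕ) :
    ∃ (K : Type w) (_ : NormedAddCommGroup K) (_ : NormedSpace ℝ K) (Q : (ℕ → H) →ₗ[ℝ] K),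
      IsUQ U Q := by
  obtain ⟨V, hV⟩ := curry_ultra U
  have ex : ∀ a : bdS H, ∃ L, Tendsto (fun p : ℕ × ℕ => ‖a.1 p.1 - a.1 p.2‖) V (𝓝 L) := by
    rintro ⟨a, B, hB⟩
    obtain ⟨L, -, hL⟩ := (isCompact_Icc (a := (0 : ℝ)) (b := B + B)).ultrafilter_le_nhds
      (V.map fun p : ℕ × ℕ => ‖a p.1 - a p.2‖) (by
        rw [Ultrafilter.coe_map, le_principal_iff, mem_map]
        exact univ_mem' fun p => ⟨norm_nonneg _, norm_sub_le_of_le (hB _) (hB _)⟩)
    exact ⟨L, hL⟩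
  choose L hL using ex
  let q : Seminorm ℝ (bdS H) := Seminorm.of L
    (fun a b => le_of_tendsto_of_tendsto' (hL (a + b)) ((hL a).add (hL b)) fun p => by
      refine le_trans (le_of_eq ?_) (norm_add_le _ _)
      congr 1
      simp only [Submodule.coe_add, Pi.add_apply]
      abel)
    (fun c a => tendsto_nhds_unique (hL (c • a)) (((hL a).const_mul ‖c‖).congr fun p => by
      simp only [Submodule.coe_smul, Pi.smul_apply, ← smul_sub, norm_smul]))
  obtain ⟨C, hC⟩ := (bdS H).exists_isCompl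
  obtain ⟨K, _, _, π, hπ⟩ := seminorm_quot q
  refine ⟨K, inferInstance, inferInstance, π ∘ₗ (bdS H).projectionOnto C hC, fun a ha => ?_⟩
  have e : (bdS H).projectionOnto C hC a = ⟨a, ha⟩ :=
    Submodule.projectionOnto_apply_left hC ⟨a, ha⟩
  rw [LinearMap.comp_apply, e, hπ, ← hV]
  exact hL ⟨a, ha⟩

variable {K : Type*} [NormedAddCommGroup K] [NormedSpace ℝ K] {U : Ultrafilter ℕ}
  {Q : (ℕ → H) →ₗ[ℝ] K}

instance curry_neBot (U : Ultrafilter ℕ) : ((U : Filter ℕ).curry (U : Filter ℕ)).NeBot := by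
  obtain ⟨V, hV⟩ := curry_ultra U
  rw [← hV]
  infer_instance

theorem IsUQ.le (hQ : IsUQ U Q) {a : ℕ → H} (ha : Bd a) {r : ℝ}
    (h : ∀ᶠ k in (U : Filter ℕ), ∀ᶠ l in (U : Filter ℕ), ‖a k - a l‖ ≤ r) : ‖Q a‖ ≤ r :=
  le_of_tendsto (hQ a ha) (eventually_curry_iff.2 h)

theorem IsUQ.ge (hQ : IsUQ U Q) {a : ℕ → H} (ha : Bd a) {r : ℝ}
    (h : ∀ᶠ k in (U : Filter ℕ), ∀ᶠ l in (U : Filter ℕ), r ≤ ‖a k - a l‖) : r ≤ ‖Q a‖ :=
  ge_of_tendsto (hQ a ha) (eventually_curry_iff.2 h)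

theorem IsUQ.le_bound (hQ : IsUQ U Q) {a : ℕ → H} {B : ℝ} (ha : ∀ k, ‖a k‖ ≤ B) :
    ‖Q a‖ ≤ B + B :=
  hQ.le ⟨B, ha⟩ (Eventually.of_forall fun _ => Eventually.of_forall fun _ =>
    norm_sub_le_of_le (ha _) (ha _))

theorem IsUQ.lt (hQ : IsUQ U Q) {a : ℕ → H} (ha : Bd a) {r : ℝ} (h : ‖Q a‖ < r) :
    ∀ᶠ k in (U : Filter ℕ), ∀ᶠ l in (U : Filter ℕ), ‖a k - a l‖ < r :=
  eventually_curry_iff.1 ((hQ a ha).eventually (gt_mem_nhds h))

theorem IsUQ.conv (hQ : IsUQ U Q) {a : ℕ → H} (ha : Bd a) {x : H} (h : Tendsto a U (𝓝 x)) :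
    Q a = 0 := by
  refine norm_le_zero_iff.1 (le_of_forall_pos_le_add fun ε hε => ?_)
  rw [zero_add]
  have h1 := Metric.tendsto_nhds.1 h _ (half_pos hε)
  refine hQ.le ha ?_
  filter_upwards [h1] with k hk
  filter_upwards [h1] with l hl
  rw [← dist_eq_norm]
  linarith [dist_triangle_right (a k) (a l) x]

theorem IsUQ.congr (hQ : IsUQ U Q) {a b : ℕ → H} (ha : Bd a) (hb : Bd b)
    (h : Tendsto (fun k => a k - b k) U (𝓝 0)) : Q a = Q b := by
  rw [← sub_eq_zero, ← map_sub]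
  exact hQ.conv (ha.sub hb) h

/-- A relation with convergent coefficients passes to the quotient. -/
theorem IsUQ.rel (hQ : IsUQ U Q) {ι : Type*} [Fintype ι] (a : ι → ℕ → H) (ha : ∀ v, Bd (a v))
    (s : ℕ → ι → ℝ) (σ : ι → ℝ) (hs : ∀ v, Tendsto (fun k => s k v) U (𝓝 (σ v))) {x : H}
    (h : Tendsto (fun k => ∑ v, s k v • a v k) U (𝓝 x)) : ∑ v, σ v • Q (a v) = 0 := by
  have h1 : Tendsto (fun k => ∑ v, (σ v - s k v) • a v k) U (𝓝 0) := by
    rw [← Finset.sum_const_zero (s := (Finset.univ : Finset ι))]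
    refine tendsto_finsetSum _ fun v _ => ?_
    obtain ⟨B, hB⟩ := ha v
    have h2 : Tendsto (fun k => σ v - s k v) U (𝓝 0) := by
      simpa using (hs v).const_sub (σ v)
    exact NormedField.tendsto_zero_smul_of_tendsto_zero_of_bounded h2
      (isBoundedUnder_of ⟨B, hB⟩)
  have h2 := h.add h1
  rw [add_zero] at h2
  have h3 := hQ.conv (bd_sum Finset.univ a ha σ) (h2.congr fun k => by
    simp only [Finset.sum_apply, Pi.smul_apply, ← Finset.sum_add_distrib, ← add_smul,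
      add_sub_cancel])
  simpa only [map_sum, map_smul] using h3

/-- Hahn-Banach along a linear map. -/
theorem hb_along {W : Type*} [AddCommGroup W] [Module ℝ W] (Λ : W →ₗ[ℝ] H) (ψ : W →ₗ[ℝ] ℝ)
    {M : ℝ} (hM : 0 ≤ M) (h : ∀ w, |ψ w| ≤ M * ‖Λ w‖) :
    ∃ f : H →L[ℝ] ℝ, ‖f‖ ≤ M ∧ ∀ w, f (Λ w) = ψ w := by
  have hk : LinearMap.ker Λ ≤ LinearMap.ker ψ := fun w hw => by
    have := h w
    rw [LinearMap.mem_ker.1 hw, norm_zero, mul_zero] at this
    exact abs_nonpos_iff.1 this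
  let g : LinearMap.range Λ →ₗ[ℝ] ℝ :=
    (LinearMap.ker Λ).liftQ ψ hk ∘ₗ (LinearMap.quotKerEquivRange Λ).symm.toLinearMap
  have hg : ∀ w, g ⟨Λ w, LinearMap.mem_range_self Λ w⟩ = ψ w := fun w => by
    simp [g, LinearMap.quotKerEquivRange_symm_apply_image]
  have hb : ∀ x, ‖g x‖ ≤ M * ‖x‖ := by
    rintro ⟨_, w, rfl⟩
    rw [hg]
    exact h w
  obtain ⟨f, hf, hf'⟩ := exists_extension_norm_eq (LinearMap.range Λ) (g.mkContinuous M hb)
  refine ⟨f, hf'.le.trans (g.mkContinuous_norm_le hM hb), fun w => ?_⟩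
  exact (hf ⟨Λ w, LinearMap.mem_range_self Λ w⟩).trans (hg w)

/-- Independent classes stay uniformly away from a finite dimensional subspace. -/
theorem IsUQ.away (hQ : IsUQ U Q) {r : ℕ} (z : Fin r → ℕ → H) (hz : ∀ i, Bd (z i)) {c : ℝ}
    (hc : 0 < c) (hlow : ∀ a : Fin r → ℝ, 4 * c * ‖a‖ ≤ ‖∑ i, a i • Q (z i)‖)
    (G : Submodule ℝ H) [FiniteDimensional ℝ G] :
    ∀ᶠ k in (U : Filter ℕ), ∀ (a : Fin r → ℝ) (g : G), c * ‖a‖ ≤ ‖∑ i, a i • z i k + g‖ := by
  by_contra hcon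
  choose B hB using hz
  have hsum : ∀ (a : Fin r → ℝ) k, ‖∑ i, a i • z i k‖ ≤ ‖a‖ * ∑ i, B i := fun a k => by
    rw [Finset.mul_sum]
    refine norm_sum_le_of_le _ fun i _ => ?_
    rw [norm_smul]
    exact mul_le_mul (norm_le_pi_norm a i) (hB i k) (norm_nonneg _) (norm_nonneg _)
  have h1 : ∀ᶠ k in (U : Filter ℕ), ∃ w : (Fin r → ℝ) × G,
      ‖w.1‖ = 1 ∧ ‖∑ i, w.1 i • z i k + w.2‖ < c := by
    filter_upwards [Ultrafilter.eventually_not.2 hcon] with k hk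
    push Not at hk
    obtain ⟨a, g, ha⟩ := hk
    have ha0 : 0 < ‖a‖ := by
      rcases (norm_nonneg a).eq_or_lt with h | h
      · rw [← h, mul_zero] at ha
        exact absurd ha (not_lt.2 (norm_nonneg _))
      · exact h
    refine ⟨(‖a‖⁻¹ • a, ‖a‖⁻¹ • g),
      by rw [norm_smul, norm_inv, norm_norm, inv_mul_cancel₀ ha0.ne'], ?_⟩
    have e : ∑ i, (‖a‖⁻¹ • a) i • z i k + ((‖a‖⁻¹ • g : G) : H)
        = ‖a‖⁻¹ • (∑ i, a i • z i k + g) := by
      simp only [Pi.smul_apply, smul_eq_mul, mul_smul, Finset.smul_sum, smul_add,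
        Submodule.coe_smul]
    rw [e, norm_smul, norm_inv, norm_norm, inv_mul_lt_iff₀ ha0]
    linarith
  obtain ⟨w, hw⟩ := h1.choice
  obtain ⟨⟨a, g⟩, ⟨ha, -⟩, hwa⟩ := ((isCompact_sphere (0 : Fin r → ℝ) 1).prod
    (isCompact_closedBall (0 : G) (c + ∑ i, B i))).ultrafilter_le_nhds (U.map w) (by
      rw [Ultrafilter.coe_map, le_principal_iff, mem_map]
      filter_upwards [hw] with k hk
      refine ⟨by simpa using hk.1, ?_⟩
      rw [mem_closedBall_zero_iff]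
      have h2 := norm_sub_le_of_le hk.2.le (hsum (w k).1 k)
      rw [add_sub_cancel_left, hk.1, one_mul] at h2
      exact h2)
  have ha1 : ‖a‖ = 1 := by simpa using ha
  have hwa' : Tendsto w U (𝓝 (a, g)) := hwa
  have h2 : Tendsto (fun k => ‖a - (w k).1‖ * ∑ i, B i + ‖g - (w k).2‖) U (𝓝 0) := by
    have t1 : Tendsto (fun k => (w k).1) U (𝓝 a) := (continuous_fst.tendsto _).comp hwa'
    have t2 : Tendsto (fun k => (w k).2) U (𝓝 g) := (continuous_snd.tendsto _).comp hwa'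
    simpa using (((t1.const_sub a).norm).mul_const (∑ i, B i)).add (t2.const_sub g).norm
  have h3 : ∀ᶠ k in (U : Filter ℕ), ‖∑ i, a i • z i k + g‖ ≤ c + c / 2 := by
    filter_upwards [hw, h2.eventually (gt_mem_nhds (half_pos hc))] with k h4 h5
    have e : ∑ i, a i • z i k + (g : H) = (∑ i, (w k).1 i • z i k + (w k).2) +
        (∑ i, (a - (w k).1) i • z i k + ((g - (w k).2 : G) : H)) := by
      simp only [Pi.sub_apply, sub_smul, Finset.sum_sub_distrib, Submodule.coe_sub]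
      abel
    rw [e]
    exact norm_add_le_of_le h4.2.le ((norm_add_le_of_le (hsum _ k) le_rfl).trans h5.le)
  have h4 : ‖Q (∑ i, a i • z i)‖ ≤ c + c / 2 + (c + c / 2) := by
    refine hQ.le (bd_sum _ z (fun i => ⟨B i, hB i⟩) a) ?_
    filter_upwards [h3] with k hk
    filter_upwards [h3] with l hl
    have := norm_sub_le_of_le hk hl
    rw [add_sub_add_right_eq_sub] at this
    simpa only [Finset.sum_apply, Pi.smul_apply] using this
  have h5 := hlow a
  simp only [map_sum, map_smul] at h4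
  rw [ha1] at h5
  linarith

theorem IsUQ.tun (hQ : IsUQ U Q) (hU : (U : Filter ℕ) ≤ atTop) (P : Submodule ℝ K)
    [FiniteDimensional ℝ P] (hP : ∀ x ∈ P, ∃ z, Bd z ∧ Q z = x) (φ : K →ₗ[ℝ] ℝ) {D : Set H}
    (hD : D.Countable) : ∃ f : ℕ → H →L[ℝ] ℝ, ∀ c : ℕ → H, Bd c → (∀ k, c k ∈ closure D) →
      Q c ∈ P → Tendsto (fun k => f k (c k)) U (𝓝 (φ (Q c))) := by
  classical
  let b := Module.finBasis ℝ P
  choose z hz hz' using fun i => hP (b i) (b i).2
  obtain ⟨κ, hκ, hanti⟩ := LinearMap.exists_antilipschitzWith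
    (P.subtype ∘ₗ b.equivFun.symm.toLinearMap)
    (LinearMap.ker_eq_bot.2 (P.subtype_injective.comp b.equivFun.symm.injective))
  have hκ' : (0 : ℝ) < κ := hκ
  set c : ℝ := 1 / (4 * κ) with hcdef
  have hc : 0 < c := by positivity
  have hlow : ∀ a : Fin (Module.finrank ℝ P) → ℝ, 4 * c * ‖a‖ ≤ ‖∑ i, a i • Q (z i)‖ := fun a => by
    have h1 := hanti.le_mul_dist a 0
    rw [map_zero, dist_zero_right, dist_zero_right] at h1
    have e : (P.subtype ∘ₗ b.equivFun.symm.toLinearMap) a = ∑ i, a i • Q (z i) := by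
      simp [hz']
    rw [e] at h1
    have : 4 * c = (κ : ℝ)⁻¹ := by rw [hcdef]; field_simp
    rw [this, inv_mul_le_iff₀ hκ']
    exact h1
  obtain ⟨d, hd⟩ := (hD.union (countable_range fun p : Fin (Module.finrank ℝ P) × ℕ =>
    z p.1 p.2)).insert 0 |>.exists_eq_range (insert_nonempty _ _)
  let G : ℕ → Submodule ℝ H := fun j => Submodule.span ℝ (d '' Iio j)
  have hG : ∀ j, FiniteDimensional ℝ (G j) := fun j =>
    FiniteDimensional.span_of_finite ℝ ((finite_Iio j).image d)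
  let A : ℕ → ℕ → Prop := fun k j =>
    ∀ (a : Fin (Module.finrank ℝ P) → ℝ) (g : G j), c * ‖a‖ ≤ ‖∑ i, a i • z i k + g‖
  have hA : ∀ j, ∀ᶠ k in (U : Filter ℕ), A k j := fun j => hQ.away z hz hc hlow (G j)
  set M : ℝ := (∑ i, |φ (Q (z i))|) / c with hM
  have M0 : 0 ≤ M := by positivity
  have ex : ∀ k j, ∃ f : H →L[ℝ] ℝ, ‖f‖ ≤ M ∧
      (A k j → (∀ i, f (z i k) = φ (Q (z i))) ∧ ∀ n < j, f (d n) = 0) := by
    intro k j
    by_cases hk : A k j
    · obtain ⟨f, h1, h2⟩ := hb_along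
        ((Fintype.linearCombination ℝ fun i => z i k).coprod (G j).subtype)
        ((Fintype.linearCombination ℝ fun i => φ (Q (z i))) ∘ₗ LinearMap.fst ℝ _ (G j)) M0
        (fun w => by
          have h3 : |∑ i, w.1 i * φ (Q (z i))| ≤ (∑ i, |φ (Q (z i))|) * ‖w.1‖ := by
            rw [Finset.sum_mul]
            refine (Finset.abs_sum_le_sum_abs _ _).trans (Finset.sum_le_sum fun i _ => ?_)
            rw [abs_mul, mul_comm]
            exact mul_le_mul_of_nonneg_left (norm_le_pi_norm w.1 i) (abs_nonneg _)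
          refine le_trans h3 (le_trans (le_of_eq ?_) (mul_le_mul_of_nonneg_left (hk w.1 w.2) M0))
          rw [hM]
          field_simp)
      refine ⟨f, h1, fun _ => ⟨fun i => ?_, fun n hn => ?_⟩⟩
      · simpa using h2 (Pi.single i 1, 0)
      · simpa using h2 (0, ⟨d n, Submodule.subset_span ⟨n, hn, rfl⟩⟩)
    · exact ⟨0, by simpa using M0, fun h => absurd h hk⟩
  choose f hf hf' using ex
  let j : ℕ → ℕ := fun k => Nat.findGreatest (A k) k
  have hj : ∀ n, ∀ᶠ k in (U : Filter ℕ), n ≤ j k ∧ A k (j k) := fun n => by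
    filter_upwards [hA n, hU (eventually_ge_atTop n)] with k h1 h2
    exact ⟨Nat.le_findGreatest h2 h1, Nat.findGreatest_spec h2 h1⟩
  have fb : ∀ k x, |f k (j k) x| ≤ M * ‖x‖ := fun k x =>
    (f k (j k)).le_of_opNorm_le (hf k _) x
  have f0 : ∀ x ∈ closure (range d), Tendsto (fun k => f k (j k) x) U (𝓝 0) := by
    intro x hx
    refine Metric.tendsto_nhds.2 fun ε hε => ?_
    obtain ⟨_, ⟨n, rfl⟩, hn⟩ := Metric.mem_closure_iff.1 hx (ε / (M + 1)) (by positivity)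
    filter_upwards [hj (n + 1)] with k hk
    have h1 := fb k (x - d n)
    rw [map_sub, (hf' k _ hk.2).2 n hk.1, sub_zero] at h1
    rw [dist_eq_norm, lt_div_iff₀ (by positivity)] at hn
    rw [Real.dist_eq, sub_zero]
    nlinarith [norm_nonneg (x - d n)]
  refine ⟨fun k => f k (j k), fun x hx hxD hxP => ?_⟩
  let a := b.equivFun ⟨Q x, hxP⟩
  have ha : Q x = ∑ i, a i • Q (z i) := by
    have := congrArg P.subtype (b.sum_equivFun ⟨Q x, hxP⟩)
    rw [map_sum] at this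
    simp only [map_smul, Submodule.subtype_apply, ← hz'] at this
    exact this.symm
  let y : ℕ → H := x - ∑ i, a i • z i
  have hy : ∀ k, y k = x k - ∑ i, a i • z i k := fun k => by simp [y]
  have hy0 : Q y = 0 := by
    simp only [y, map_sub, map_sum, map_smul]
    rw [← ha, sub_self]
  have y0 : ∀ k, Tendsto (fun l => f l (j l) (y k)) U (𝓝 0) := fun k => by
    have t1 := f0 (x k) (closure_mono (by
      rw [← hd]
      exact subset_union_left.trans (subset_insert _ _)) (hxD k))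
    have t2 := tendsto_finsetSum Finset.univ fun i _ =>
      (f0 (z i k) (subset_closure (by
        rw [← hd]
        exact Or.inr (Or.inr ⟨(i, k), rfl⟩)))).const_mul (a i)
    simpa [hy] using t1.sub t2
  have y1 : Tendsto (fun l => f l (j l) (y l)) U (𝓝 0) := by
    refine Metric.tendsto_nhds.2 fun ε hε => ?_
    obtain ⟨k, hk⟩ := (hQ.lt (hx.sub (bd_sum _ z hz a)) (r := ε / 2 / (M + 1))
      (by rw [hy0, norm_zero]; positivity)).exists
    filter_upwards [hk, Metric.tendsto_nhds.1 (y0 k) _ (half_pos hε)] with l h1 h2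
    have h3 := fb l (y k - y l)
    have h1' : ‖y k - y l‖ < ε / 2 / (M + 1) := h1
    rw [lt_div_iff₀ (by positivity)] at h1'
    rw [map_sub] at h3
    rw [Real.dist_eq, sub_zero] at h2 ⊢
    have h4 := abs_sub_abs_le_abs_sub (f l (j l) (y l)) (f l (j l) (y k))
    rw [abs_sub_comm] at h4
    nlinarith [norm_nonneg (y k - y l)]
  have y2 := y1.add_const (φ (Q x))
  rw [zero_add] at y2
  refine y2.congr' ?_
  filter_upwards [hj 0] with l hl
  rw [hy, ha]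
  simp [(hf' l _ hl.2).1]

/-- A finite independent family of classes is realised, up to a factor two, in `H`. -/
theorem IsUQ.fin (hQ : IsUQ U Q) {r : ℕ} (z : Fin r → ℕ → H) (hz : ∀ i, Bd (z i))
    (hind : ∀ a : Fin r → ℝ, ∑ i, a i • Q (z i) = 0 → a = 0) :
    ∀ᶠ k in (U : Filter ℕ), ∀ᶠ l in (U : Filter ℕ), ∀ a : Fin r → ℝ,
      ‖∑ i, a i • Q (z i)‖ ≤ 2 * ‖∑ i, a i • (z i k - z i l)‖ ∧
      ‖∑ i, a i • (z i k - z i l)‖ ≤ 2 * ‖∑ i, a i • Q (z i)‖ := by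
  obtain ⟨V, hV⟩ := curry_ultra U
  rw [← eventually_curry_iff (p := fun p : ℕ × ℕ => ∀ a : Fin r → ℝ,
      ‖∑ i, a i • Q (z i)‖ ≤ 2 * ‖∑ i, a i • (z i p.1 - z i p.2)‖ ∧
      ‖∑ i, a i • (z i p.1 - z i p.2)‖ ≤ 2 * ‖∑ i, a i • Q (z i)‖), ← hV]
  by_contra hcon
  choose B hB using hz
  let T : (Fin r → ℝ) → K := fun a => ∑ i, a i • Q (z i)
  let S : ℕ × ℕ → (Fin r → ℝ) → H := fun p a => ∑ i, a i • (z i p.1 - z i p.2)
  have hsum : ∀ (a : Fin r → ℝ) p, ‖S p a‖ ≤ ‖a‖ * ∑ i, (B i + B i) := fun a p => by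
    rw [Finset.mul_sum]
    refine norm_sum_le_of_le _ fun i _ => ?_
    rw [norm_smul]
    exact mul_le_mul (norm_le_pi_norm a i) (norm_sub_le_of_le (hB i _) (hB i _)) (norm_nonneg _)
      (norm_nonneg _)
  have h1 : ∀ᶠ p in (V : Filter (ℕ × ℕ)), ∃ a : Fin r → ℝ,
      ‖a‖ = 1 ∧ (2 * ‖S p a‖ < ‖T a‖ ∨ 2 * ‖T a‖ < ‖S p a‖) := by
    filter_upwards [Ultrafilter.eventually_not.2 hcon] with p hp
    obtain ⟨a, ha⟩ := not_forall.1 hp
    have ha0 : 0 < ‖a‖ := norm_pos_iff.2 (by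
      rintro rfl
      simp at ha)
    have e1 : S p (‖a‖⁻¹ • a) = ‖a‖⁻¹ • S p a := by
      simp only [S, Pi.smul_apply, smul_eq_mul, mul_smul, Finset.smul_sum]
    have e2 : T (‖a‖⁻¹ • a) = ‖a‖⁻¹ • T a := by
      simp only [T, Pi.smul_apply, smul_eq_mul, mul_smul, Finset.smul_sum]
    refine ⟨‖a‖⁻¹ • a, by rw [norm_smul, norm_inv, norm_norm, inv_mul_cancel₀ ha0.ne'], ?_⟩
    rw [e1, e2, norm_smul, norm_smul, norm_inv, norm_norm]
    have hi := inv_pos.2 ha0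
    rcases not_and_or.1 ha with h | h
    · exact Or.inl (by nlinarith [mul_lt_mul_of_pos_left (not_le.1 h) hi])
    · exact Or.inr (by nlinarith [mul_lt_mul_of_pos_left (not_le.1 h) hi])
  obtain ⟨g, hg⟩ := h1.choice
  obtain ⟨a, ha, hga⟩ := (isCompact_sphere (0 : Fin r → ℝ) 1).ultrafilter_le_nhds (V.map g) (by
    rw [Ultrafilter.coe_map, le_principal_iff, mem_map]
    filter_upwards [hg] with p hp
    simpa using hp.1)
  have hga' : Tendsto g V (𝓝 a) := hga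
  have ha0 : a ≠ 0 := by
    rintro rfl
    simp at ha
  have hT : 0 < ‖T a‖ := norm_pos_iff.2 fun h => ha0 (hind a h)
  have t1 : Tendsto (fun p => ‖T (g p)‖) V (𝓝 ‖T a‖) :=
    ((by fun_prop : Continuous T).tendsto a |>.comp hga').norm
  have t2 : Tendsto (fun p => ‖S p a‖) V (𝓝 ‖T a‖) := by
    have := hQ _ (bd_sum Finset.univ z (fun i => ⟨B i, hB i⟩) a)
    rw [← hV] at this
    simp only [map_sum, map_smul, Finset.sum_apply, Pi.smul_apply, ← Finset.sum_sub_distrib,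
      ← smul_sub] at this
    exact this
  have t3 : Tendsto (fun p => ‖S p (g p)‖ - ‖S p a‖) V (𝓝 0) := by
    refine squeeze_zero_norm (a := fun p => ‖g p - a‖ * ∑ i, (B i + B i)) (fun p => ?_) ?_
    · refine (abs_norm_sub_norm_le _ _).trans (le_trans (le_of_eq ?_) (hsum (g p - a) p))
      congr 1
      simp only [S, Pi.sub_apply, sub_smul, Finset.sum_sub_distrib]
    · simpa using ((hga'.sub_const a).norm).mul_const (∑ i, (B i + B i))
  have t4 : Tendsto (fun p => ‖S p (g p)‖) V (𝓝 ‖T a‖) := by simpa using t3.add t2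
  have u1 := ((t4.const_mul 2).sub t1).eventually (lt_mem_nhds (by linarith :
    (0 : ℝ) < 2 * ‖T a‖ - ‖T a‖))
  have u2 := ((t1.const_mul 2).sub t4).eventually (lt_mem_nhds (by linarith :
    (0 : ℝ) < 2 * ‖T a‖ - ‖T a‖))
  obtain ⟨p, p1, p2, p3⟩ := (hg.and (u1.and u2)).exists
  rcases p1.2 with h | h <;> linarith

end Pool.Agent.P.MP_5aae23_gt.Nsg
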