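import Pool.Agent.P.MP_5aae23_gt.NDefs

open Set Filter Topology Function

namespace Pool.Agent.P.MP_5aae23_gt.Nsh

variable {D D' : Type} [TopologicalSpace D] [TopologicalSpace D']

theorem Null.comp {u : D → T} (hu : Null u) {f : D' → D} (hf : Continuous f) :
    Null fun x => u (f x) :=
  let ⟨_, h1, h2⟩ := hu; ⟨_, h1.comp hf, fun x => h2 (f x)⟩

theorem Null.add {u u' : D → T} (hu : Null u) (hu' : Null u') : Null fun x => u x + u' x := by
  obtain ⟨w, h1, h2⟩ := hu
  obtain ⟨w', h1', h2'⟩ := hu'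
  exact ⟨fun x => w x + w' x, h1.add h1', fun x => by simp only [h2, h2', AddCircle.coe_add]⟩

theorem Null.sub {u u' : D → T} (hu : Null u) (hu' : Null u') : Null fun x => u x - u' x := by
  obtain ⟨w, h1, h2⟩ := hu
  obtain ⟨w', h1', h2'⟩ := hu'
  exact ⟨fun x => w x - w' x, h1.sub h1', fun x => by simp only [h2, h2', AddCircle.coe_sub]⟩

theorem Null.nsmul {u : D → T} (hu : Null u) (k : ℕ) : Null fun x => k • u x := by
  obtain ⟨w, h1, h2⟩ := hu
  exact ⟨fun x => k • w x, h1.const_smul k, fun x => by simp only [h2, AddCircle.coe_nsmul]⟩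

theorem Null.cont {u : D → T} (hu : Null u) : Continuous u := by
  obtain ⟨w, h1, h2⟩ := hu
  exact (funext h2 : u = fun x => (w x : T)) ▸ (AddCircle.continuous_mk' 1).comp h1

theorem null_const (c : T) : Null fun _ : D => c := by
  obtain ⟨r, rfl⟩ := QuotientAddGroup.mk_surjective c
  exact ⟨fun _ => r, continuous_const, fun _ => rfl⟩

theorem null_coe {w : D → ℝ} (hw : Continuous w) : Null fun x => (w x : T) := ⟨w, hw, fun _ => rfl⟩

theorem tors_const [PreconnectedSpace D] {v : D → T} (hv : Continuous v) {k : ℕ} (hk : k ≠ 0)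
    (h : ∀ x, k • v x = 0) (x y : D) : v x = v y :=
  isPreconnected_univ.constant_of_mapsTo
    (AddCircle.finite_torsion (1 : ℝ) (Nat.pos_of_ne_zero hk)).isDiscrete hv.continuousOn
    (fun z _ => h z) (mem_univ x) (mem_univ y)

theorem nsmul_div {k : ℕ} (hk : k ≠ 0) (r : ℝ) : k • ((r / (k : ℝ) : ℝ) : T) = (r : T) := by
  rw [← AddCircle.coe_nsmul, nsmul_eq_mul, mul_div_cancel₀ _ (Nat.cast_ne_zero.2 hk)]

theorem null_of_nsmul [PreconnectedSpace D] {u : D → T} (hu : Continuous u) {k : ℕ} (hk : k ≠ 0)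
    (h : Null fun x => k • u x) : Null u := by
  obtain ⟨w, h1, h2⟩ := h
  rcases isEmpty_or_nonempty D with _ | ⟨⟨x₀⟩⟩
  · exact ⟨w, h1, fun x => isEmptyElim x⟩
  have h3 := null_coe (h1.div_const (k : ℝ))
  have h4 := tors_const (hu.sub h3.cont) hk fun x => by
    rw [Pi.sub_apply, smul_sub, nsmul_div hk, ← h2 x, sub_self]
  have h5 := h3.add (null_const (u x₀ - ((w x₀ / (k : ℝ) : ℝ) : T)))
  refine (funext fun x => ?_ : _ = u) ▸ h5
  exact add_eq_of_eq_sub' (h4 x₀ x)

theorem null_small {u : D → T} (hu : Continuous u) (c : T) (h : ∀ x, ‖u x - c‖ < 1 / 2) :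
    Null u := by
  have h1 : Null fun x => u x - c := by
    refine ⟨fun x => (AddCircle.equivIco 1 (-(1 / 2)) (u x - c) : ℝ),
      continuous_subtype_val.comp (continuous_iff_continuousAt.2 fun x =>
        (AddCircle.continuousAt_equivIco 1 (-(1 / 2)) fun e => ?_).comp
          (f := fun x => u x - c) (hu.sub continuous_const).continuousAt),
      fun x => AddCircle.coe_equivIco.symm⟩
    have := h x
    rw [e, AddCircle.coe_neg, norm_neg, AddCircle.norm_half_period_eq, abs_one] at this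
    exact lt_irrefl _ this
  simpa only [sub_add_cancel] using h1.add (null_const c)

theorem null_convex {E : Type} [AddCommGroup E] [Module ℝ E] [TopologicalSpace E]
    [IsTopologicalAddGroup E] [ContinuousSMul ℝ E] {Q : Set E} (hQ : Convex ℝ Q) (u : Q → T)
    (hu : Continuous u) : Null u := by
  rcases isEmpty_or_nonempty Q with _ | ⟨⟨q⟩⟩
  · exact ⟨0, continuous_zero, fun x => isEmptyElim x⟩
  obtain ⟨r, hr⟩ := QuotientAddGroup.mk_surjective (u q)
  let H : C(unitInterval × Q, T) := ⟨fun z => u ⟨q.1 + z.1.1 • (z.2.1 - q.1),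
    hQ.add_smul_sub_mem q.2 z.2.2 z.1.2⟩, hu.comp (Continuous.subtype_mk (by fun_prop) _)⟩
  have h0 : ∀ a, H (0, a) = ((ContinuousMap.const Q r a : ℝ) : T) := fun a =>
    Eq.trans (congrArg u (Subtype.ext (by simp))) hr.symm
  refine ⟨fun x => (AddCircle.isCoveringMap_coe (1 : ℝ)).liftHomotopy H _ h0 (1, x), by fun_prop,
    fun x => ?_⟩
  exact Eq.trans (congrArg u (Subtype.ext (by simp)))
    (congrFun ((AddCircle.isCoveringMap_coe (1 : ℝ)).liftHomotopy_lifts H _ h0) (1, x)).symm

theorem NP.homeo {p : ℕ} (h : NP p D) (e : D' ≃ₜ D) : NP p D' := fun u hu hs => by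
  simpa only [Homeomorph.symm_apply_apply] using
    (h (fun i x => u i (e.symm x)) (fun i => (hu i).comp e.symm.continuous)
      fun i => (hs i).comp e.symm.continuous).comp e.continuous

theorem np_subsingleton [Subsingleton D] (p : ℕ) : NP p D := fun u _ _ => by
  choose w hw using fun x => QuotientAddGroup.mk_surjective (u 0 x)
  exact ⟨w, continuous_of_discreteTopology, fun x => (hw x).symm⟩

theorem iota_mem {p : ℕ} (hp : p ≠ 0) (r : ℝ) : iota p r ∈ Sol p := fun i => by
  rw [iota, iota, pow_succ, ← div_div, nsmul_div hp]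

theorem iota_add (p : ℕ) (r s : ℝ) : iota p (r + s) = iota p r + iota p s := funext fun i => by
  simp only [iota, Pi.add_apply, add_div, AddCircle.coe_add]

theorem iota_zsmul (p : ℕ) (n : ℤ) (r : ℝ) : iota p (n * r) = n • iota p r := funext fun i => by
  simp only [iota, Pi.smul_apply]
  rw [← AddCircle.coe_zsmul, zsmul_eq_mul, mul_div_assoc]

theorem iota_cont (p : ℕ) : Continuous (iota p) :=
  continuous_pi fun _ => (AddCircle.continuous_mk' 1).comp (continuous_id.div_const _)

theorem iota_inj {p : ℕ} (hp : 2 ≤ p) : Injective (iota p) := fun r s e => by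
  have h1 : (1 : ℝ) < p := by exact_mod_cast hp
  obtain ⟨i, hi⟩ := pow_unbounded_of_one_lt |r - s| h1
  have h2 : (0 : ℝ) < (p : ℝ) ^ i := by positivity
  have h3 : (((r - s) / (p : ℝ) ^ i : ℝ) : T) = 0 := by
    rw [sub_div, AddCircle.coe_sub]; exact sub_eq_zero.2 (congrFun e i)
  obtain ⟨n, hn⟩ := (AddCircle.coe_eq_zero_iff _).1 h3
  rw [zsmul_eq_mul, mul_one] at hn
  have h4 : |(n : ℝ)| < 1 := by rwa [hn, abs_div, abs_of_pos h2, div_lt_one h2]
  have h5 : n = 0 := Int.abs_lt_one_iff.1 (by exact_mod_cast h4)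
  rw [h5, Int.cast_zero, eq_comm, div_eq_zero_iff] at hn
  exact sub_eq_zero.1 (hn.resolve_right h2.ne')

theorem sol_pow {p : ℕ} {x : ℕ → T} (hx : x ∈ Sol p) (i : ℕ) : p ^ i • x i = x 0 := by
  induction i with
  | zero => simp
  | succ i ih => rw [pow_succ, mul_smul, hx i, ih]

theorem bd [CompactSpace D] [PreconnectedSpace D] {p : ℕ} (hp : p.Prime) (hD : NP p D)
    (B : D → ℕ → T) (hB : Continuous B) (hS : ∀ z, B z ∈ Sol p) :
    ∃ R : ℝ, ∀ z r, B z = iota p r → |r| ≤ R := by
  obtain ⟨w, h1, h2⟩ := hD (fun i z => B z i) (fun i => (continuous_apply i).comp hB) fun i => by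
    simpa only [hS _ i, sub_self] using null_const (D := D) 0
  have h3 : ∀ z z', B z - iota p (w z) = B z' - iota p (w z') := fun z z' => funext fun i =>
    tors_const (v := fun z => (B z - iota p (w z)) i)
      ((continuous_apply i).comp (hB.sub ((iota_cont p).comp h1))) (pow_ne_zero i hp.ne_zero)
      (fun z => by
        rw [Pi.sub_apply, smul_sub, sol_pow (hS z), sol_pow (iota_mem hp.ne_zero _),
          show B z 0 = _ from h2 z]
        simp [iota]) z z'
  obtain ⟨C, hC⟩ := isCompact_univ.exists_bound_of_continuousOn h1.continuousOn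
  by_cases h : ∃ z r, B z = iota p r
  · obtain ⟨z₀, r₀, h0⟩ := h
    refine ⟨|r₀ - w z₀| + C, fun z r e => ?_⟩
    have h4 := h3 z z₀
    rw [e, h0, sub_eq_sub_iff_add_eq_add, ← iota_add, ← iota_add] at h4
    rw [show r = r₀ - w z₀ + w z by linarith [iota_inj hp.two_le h4]]
    exact (abs_add_le _ _).trans (add_le_add_right (hC z (mem_univ z)) _)
  · exact ⟨0, fun z r e => (h ⟨z, r, e⟩).elim⟩

end Pool.Agent.P.MP_5aae23_gt.Nsh
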