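import Pool.Agent.P.MP_5aae23_gt.NA

open Set Filter Topology Function

namespace Pool.Agent.P.MP_5aae23_gt.Nsh

variable {X Y : Type} [TopologicalSpace X] [TopologicalSpace Y] [T2Space X] [T2Space Y]

omit [T2Space X] in
theorem lift_const {s : Set X} (hs : IsPreconnected s) {a : X → ℝ} (ha : ContinuousOn a s) {c : T}
    (h : ∀ x ∈ s, (a x : T) = c) {x x' : X} (hx : x ∈ s) (hx' : x' ∈ s) : a x = a x' :=
  (AddCircle.isCoveringMap_coe (1 : ℝ)).constOn_of_comp hs ha
    (fun y hy y' hy' => (h y hy).trans (h y' hy').symm) hx hx'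

theorem ext_closed [CompactSpace X] {s : Set X} (hs : IsClosed s) {a : s → ℝ} (ha : Continuous a) :
    ∃ c : C(X, ℝ), ∀ x : s, c x = a x := by
  obtain ⟨c, hc⟩ := ContinuousMap.exists_restrict_eq hs ⟨a, ha⟩
  exact ⟨c, fun x => DFunLike.congr_fun hc x⟩

theorem local_lift [CompactSpace X] [CompactSpace Y] {f : X → Y} (hf : Continuous f) {u : X → T}
    (hu : Continuous u) (y : Y) (W : C(X, ℝ)) (hW : ∀ x, f x = y → u x = (W x : T)) :
    ∃ c : C(X, ℝ), ∀ᶠ y' in 𝓝 y, ∀ x, f x = y' → u x = (c x : T) := by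
  have hd : Continuous fun x => u x - (W x : T) :=
    hu.sub ((AddCircle.continuous_mk' (1 : ℝ)).comp W.continuous)
  have hne : (0 : T) ≠ ((-1 / 2 : ℝ) : T) := by
    intro h
    obtain ⟨n, hn⟩ := (AddCircle.coe_eq_zero_iff _).1 h.symm
    have h1 : ((2 * n : ℤ) : ℝ) = ((-1 : ℤ) : ℝ) := by
      simp only [zsmul_eq_mul, mul_one] at hn
      push_cast
      linarith
    have h2 := Int.cast_injective h1
    omega
  have hC : IsClosed (f '' {x | u x - (W x : T) = ((-1 / 2 : ℝ) : T)}) :=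
    hf.isClosedMap _ (isClosed_eq hd continuous_const)
  have hy : y ∉ f '' {x | u x - (W x : T) = ((-1 / 2 : ℝ) : T)} := by
    rintro ⟨x, hx, e⟩
    exact hne (by rw [← show u x - (W x : T) = _ from hx, hW x e, sub_self])
  obtain ⟨V, hV, cV, sV⟩ := exists_mem_nhds_isClosed_subset (hC.isOpen_compl.mem_nhds hy)
  obtain ⟨c, hc⟩ := ext_closed (cV.preimage hf)
    (a := fun x => W x + (AddCircle.equivIco 1 (-1 / 2 : ℝ) (u x - (W x : T)) : ℝ))
    ((W.continuous.comp continuous_subtype_val).add (continuous_subtype_val.comp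
      (continuous_iff_continuousAt.2 fun x =>
        (AddCircle.continuousAt_equivIco 1 (-1 / 2 : ℝ) fun h => sV x.2 ⟨x, h, rfl⟩).comp
          (f := fun x : ↥(f ⁻¹' V) => u x - (W x : T))
          (hd.comp continuous_subtype_val).continuousAt)))
  refine ⟨c, mem_of_superset hV fun y' hy' x e => ?_⟩
  have h1 := (AddCircle.equivIco 1 (-1 / 2 : ℝ)).symm_apply_apply (u x - (W x : T))
  rw [hc ⟨x, show f x ∈ V from e ▸ hy'⟩, AddCircle.coe_add]
  exact (add_sub_cancel _ _).symm.trans (congrArg _ h1.symm)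

theorem vb [CompactSpace X] [CompactSpace Y] {f : X → Y} (hf : Continuous f) (hs : Surjective f)
    (hc : ∀ y, IsPreconnected (f ⁻¹' {y})) {u : X → T} (hu : Continuous u)
    (h0 : ∀ y, Null fun x : ↥(f ⁻¹' {y}) => u x) :
    ∃ v : Y → T, Continuous v ∧ Null fun x => u x - v (f x) := by
  have h1 : ∀ y, ∃ W : C(X, ℝ), ∀ x, f x = y → u x = (W x : T) := fun y => by
    obtain ⟨w, hw, e⟩ := h0 y
    obtain ⟨c, hc⟩ := ext_closed (isClosed_singleton.preimage hf) hw
    exact ⟨c, fun x hx => (e ⟨x, hx⟩).trans (congrArg _ (hc ⟨x, hx⟩).symm)⟩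
  choose W hW using h1
  obtain ⟨g, hg⟩ := exists_continuous_forall_mem_convex_of_local_const
    (t := fun y => {c : C(X, ℝ) | ∀ x x', f x = y → f x' = y → c x - W y x = c x' - W y x'})
    (fun y a ha b hb s t _ _ hst x x' hx hx' => by
      have h2 := ha x x' hx hx'
      have h3 := hb x x' hx hx'
      simp only [ContinuousMap.add_apply, ContinuousMap.smul_apply, smul_eq_mul]
      linear_combination s * h2 + t * h3 + (W y x - W y x') * hst)
    fun y => by
      obtain ⟨c, h2⟩ := local_lift hf hu y (W y) (hW y)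
      refine ⟨c, h2.mono fun y' h3 x x' hx hx' => ?_⟩
      exact lift_const (hc y') (a := fun x => c x - W y' x) (c := 0)
        (c.continuous.sub (W y').continuous).continuousOn
        (fun z hz => by rw [AddCircle.coe_sub, ← h3 z hz, ← hW y' z hz, sub_self]) hx hx'
  have hw : Continuous fun x => g (f x) x :=
    (g.continuous.comp hf).eval continuous_id
  have hv : ∀ x, u (surjInv hs (f x)) - (g (f (surjInv hs (f x))) (surjInv hs (f x)) : T)
      = u x - (g (f x) x : T) := fun x => by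
    have e := surjInv_eq hs (f x)
    have h2 := hg (f x) _ x e rfl
    rw [e, hW _ _ e, hW _ x rfl, ← AddCircle.coe_sub, ← AddCircle.coe_sub]
    exact congrArg _ (by linarith)
  refine ⟨fun y => u (surjInv hs y) - (g (f (surjInv hs y)) (surjInv hs y) : T),
    (IsQuotientMap.of_surjective_continuous hs hf).continuous_iff.2 ?_, _, hw, fun x => ?_⟩
  · exact (funext hv : (fun y => u (surjInv hs y) - (g (f (surjInv hs y)) (surjInv hs y) : T)) ∘ f
      = _) ▸ hu.sub ((AddCircle.continuous_mk' (1 : ℝ)).comp hw)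
  · simp only [hv x, sub_sub_cancel]

omit [T2Space X] in
theorem null_desc [CompactSpace X] {f : X → Y} (hf : Continuous f) (hs : Surjective f)
    (hc : ∀ y, IsPreconnected (f ⁻¹' {y})) {v : Y → T} (h : Null fun x => v (f x)) : Null v := by
  obtain ⟨w, hw, e⟩ := h
  have h1 : ∀ x, w (surjInv hs (f x)) = w x := fun x =>
    lift_const (hc (f x)) hw.continuousOn (c := v (f x))
      (fun z hz => (e z).symm.trans (congrArg v hz)) (surjInv_eq hs (f x)) rfl
  refine ⟨fun y => w (surjInv hs y),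
    (IsQuotientMap.of_surjective_continuous hs hf).continuous_iff.2 ?_, fun y => ?_⟩
  · exact hw.congr fun x => (h1 x).symm
  · exact (congrArg v (surjInv_eq hs y)).symm.trans (e _)

theorem n3 [CompactSpace X] [CompactSpace Y] (f : X → Y) (hf : Continuous f) (hs : Surjective f)
    (hc : ∀ y, IsPreconnected (f ⁻¹' {y})) {p : ℕ} (hp : p ≠ 0) (hY : NP p Y) (u : ℕ → X → T)
    (hu : ∀ i, Continuous (u i)) (hsys : ∀ i, Null fun x => p • u (i + 1) x - u i x)
    (h0 : ∀ y, Null fun x : ↥(f ⁻¹' {y}) => u 0 x) : Null (u 0) := by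
  have h1 : ∀ i y, Null fun x : ↥(f ⁻¹' {y}) => u i x := fun i y => by
    have := Subtype.preconnectedSpace (hc y)
    induction i with
    | zero => exact h0 y
    | succ i ih =>
      refine null_of_nsmul ((hu _).comp continuous_subtype_val) hp ?_
      simpa using ((hsys i).comp continuous_subtype_val).add ih
  choose v hv e using fun i => vb hf hs hc (hu i) (h1 i)
  have h2 := hY v hv fun i => null_desc hf hs hc (v := fun y => p • v (i + 1) y - v i y) (by
    have h3 := ((hsys i).sub ((e (i + 1)).nsmul p)).add (e i)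
    refine (funext fun x => ?_ : _ = fun x => p • v (i + 1) (f x) - v i (f x)) ▸ h3
    rw [smul_sub]
    abel)
  simpa using (e 0).add (h2.comp hf)

omit [T2Space X] [T2Space Y] [TopologicalSpace Y] in
theorem fib_set {S' : Set X} {S : Set Y} {f : X → Y} (hm : MapsTo f S' S)
    (hc : ∀ y ∈ S, IsPreconnected (S' ∩ f ⁻¹' {y})) (y : S) :
    IsPreconnected (hm.restrict f S' S ⁻¹' {y}) := by
  rw [← IsInducing.subtypeVal.isPreconnected_image]
  have h : Subtype.val '' (hm.restrict f S' S ⁻¹' {y}) = S' ∩ f ⁻¹' {y.1} := by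
    refine Set.ext fun x => ⟨?_, fun h => ⟨⟨x, h.1⟩, Subtype.ext h.2, rfl⟩⟩
    rintro ⟨x, hx, rfl⟩
    exact ⟨x.2, congrArg Subtype.val hx⟩
  rw [h]
  exact hc y y.2

theorem n3_set {S' : Set X} {S : Set Y} (hS' : IsCompact S') (f : X → Y) (hf : Continuous f)
    (him : f '' S' = S) (hc : ∀ y ∈ S, IsPreconnected (S' ∩ f ⁻¹' {y})) {p : ℕ} (hp : p ≠ 0)
    (hY : NP p S) (u : ℕ → S' → T) (hu : ∀ i, Continuous (u i))
    (hsys : ∀ i, Null fun x => p • u (i + 1) x - u i x)
    (h0 : ∀ y ∈ S, Null fun x : ↥(S' ∩ f ⁻¹' {y}) => u 0 ⟨x.1, x.2.1⟩) : Null (u 0) := by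
  have hm : MapsTo f S' S := him ▸ mapsTo_image f S'
  have := isCompact_iff_compactSpace.1 hS'
  have : CompactSpace S := isCompact_iff_compactSpace.1 (him ▸ hS'.image hf)
  refine n3 (hm.restrict f S' S) (hf.restrict hm) (hm.restrict_surjective_iff.2 him.ge)
    (fib_set hm hc) hp hY u hu hsys fun y => ?_
  exact (h0 y y.2).comp (f := fun x : ↥(hm.restrict f S' S ⁻¹' {y}) =>
    ⟨x.1.1, x.1.2, congrArg Subtype.val x.2⟩)
    ((continuous_subtype_val.comp continuous_subtype_val).subtype_mk _)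

theorem np_set {S' : Set X} {S : Set Y} (hS' : IsCompact S') (f : X → Y) (hf : Continuous f)
    (him : f '' S' = S) (hc : ∀ y ∈ S, IsPreconnected (S' ∩ f ⁻¹' {y})) {p : ℕ} (hp : p ≠ 0)
    (hY : NP p S) (hF : ∀ y ∈ S, NP p ↥(S' ∩ f ⁻¹' {y})) : NP p S' := fun u hu hsys =>
  n3_set hS' f hf him hc hp hY u hu hsys fun y hy =>
    hF y hy (fun i x => u i ⟨x.1, x.2.1⟩)
      (fun i => (hu i).comp (continuous_subtype_val.subtype_mk _))
      fun i => (hsys i).comp (f := fun x : ↥(S' ∩ f ⁻¹' {y}) => ⟨x.1, x.2.1⟩)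
        (continuous_subtype_val.subtype_mk _)

theorem conn_set {S' : Set X} {S : Set Y} (hS' : IsCompact S') (f : X → Y) (hf : Continuous f)
    (him : f '' S' = S) (hc : ∀ y ∈ S, IsPreconnected (S' ∩ f ⁻¹' {y}))
    (hS : IsPreconnected S) : IsPreconnected S' := by
  rcases S'.eq_empty_or_nonempty with rfl | hne
  · exact isPreconnected_empty
  have hm : MapsTo f S' S := him ▸ mapsTo_image f S'
  have := isCompact_iff_compactSpace.1 hS'
  have hs : Surjective (hm.restrict f S' S) := hm.restrict_surjective_iff.2 him.ge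
  have : ConnectedSpace S := Subtype.connectedSpace ⟨him ▸ hne.image f, hS⟩
  have h := (IsQuotientMap.of_surjective_continuous hs
    (hf.restrict hm)).isCoinducing.isConnected_preimage_of_isClosed
    (fun y => ⟨hs y, fib_set hm hc y⟩) isClosed_univ isConnected_univ
  exact isPreconnected_iff_preconnectedSpace.2 ⟨h.2⟩

end Pool.Agent.P.MP_5aae23_gt.Nsh
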