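import Pool.Agent.P.MP_5aae23_gt.NA

open Set Filter Topology Function

namespace Pool.Agent.P.MP_5aae23_gt.Nsh

theorem nc_int {r : ℝ} (h : (r : T) = 0) : ∃ n : ℤ, r = n := by
  obtain ⟨n, hn⟩ := (AddCircle.coe_eq_zero_iff (1 : ℝ)).1 h
  exact ⟨n, by simpa using hn.symm⟩

theorem nc_coe_int (n : ℤ) : ((n : ℝ) : T) = 0 :=
  (AddCircle.coe_eq_zero_iff (1 : ℝ)).2 ⟨n, by simp⟩

theorem nc_eq {r s : ℝ} (h : (r : T) = s) (hl : |r - s| < 1) : r = s := by
  obtain ⟨n, hn⟩ := nc_int (r := r - s) (by rw [AddCircle.coe_sub, h, sub_self])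
  rw [hn, ← Int.cast_abs] at hl
  have h1 : |n| < 1 := by exact_mod_cast hl
  have h2 : n = 0 := Int.abs_lt_one_iff.1 h1
  subst h2
  simpa [sub_eq_zero] using hn

theorem nc_const {D : Type} [TopologicalSpace D] [PreconnectedSpace D] {g : D → ℝ}
    (hg : Continuous g) (h : ∀ a, (g a : T) = 0) (a a' : D) : g a = g a' :=
  (AddCircle.isCoveringMap_coe (1 : ℝ)).const_of_comp hg (fun a a' => by rw [h a, h a']) a a'

theorem nc_closed (q : ℕ) : IsClosed (Sol q) := by
  have : Sol q = ⋂ i, {x : ℕ → T | q • x (i + 1) = x i} := by ext; simp [Sol]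
  rw [this]
  exact isClosed_iInter fun i => isClosed_eq (by fun_prop) (by fun_prop)

theorem sol_compact (q : ℕ) : IsCompact (Sol q) := (nc_closed q).isCompact

theorem nc_down {q : ℕ} {x : ℕ → T} (hx : x ∈ Sol q) (i j : ℕ) : q ^ j • x (i + j) = x i := by
  induction j with
  | zero => simp
  | succ j ih => rw [pow_succ, mul_smul, ← add_assoc, hx (i + j), ih]

theorem nc_agree {q : ℕ} {x y : ℕ → T} (hx : x ∈ Sol q) (hy : y ∈ Sol q) {k : ℕ}
    (h : x k = y k) {i : ℕ} (hi : i ≤ k) : x i = y i := by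
  obtain ⟨j, rfl⟩ := Nat.exists_eq_add_of_le hi
  rw [← nc_down hx i j, ← nc_down hy i j, h]

theorem nc_approx {q : ℕ} (hq : q ≠ 0) (y : T) (k : ℕ) :
    ∃ t ∈ Icc (0 : ℝ) (q ^ k), iota q t k = y := by
  obtain ⟨s, hs, rfl⟩ := AddCircle.eq_coe_Ico y
  have h : (0 : ℝ) < q ^ k := by positivity
  refine ⟨s * q ^ k, ⟨mul_nonneg hs.1 h.le, by nlinarith [hs.2]⟩, ?_⟩
  simp only [iota]
  rw [mul_div_assoc, div_self h.ne', mul_one]

theorem sol_conn {q : ℕ} (hq : q ≠ 0) : IsConnected (Sol q) := by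
  refine (isConnected_range (iota_cont q)).subset_closure
    (range_subset_iff.2 (iota_mem hq)) fun x hx => ?_
  choose t _ ht using fun k => nc_approx hq (x k) k
  refine mem_closure_of_tendsto (b := atTop) (f := fun k => iota q (t k)) ?_
    (Eventually.of_forall fun k => mem_range_self _)
  refine tendsto_pi_nhds.2 fun i => tendsto_const_nhds.congr' ?_
  filter_upwards [eventually_ge_atTop i] with k hk
  exact (nc_agree (iota_mem hq _) hx (ht k) hk).symm

theorem nc_ev (q k : ℕ) : Continuous fun x : Sol q => x.1 k :=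
  (continuous_apply k).comp continuous_subtype_val

theorem nc_unif {q : ℕ} {u : Sol q → T} (hu : Continuous u) :
    ∃ k, ∀ x y : Sol q, x.1 k = y.1 k → ‖u x - u y‖ < 1 / 8 := by
  have : CompactSpace (Sol q) := isCompact_iff_compactSpace.1 (sol_compact q)
  by_contra hc
  push Not at hc
  let K : ℕ → Set (Sol q × Sol q) := fun k =>
    {z | z.1.1 k = z.2.1 k} ∩ {z | 1 / 8 ≤ ‖u z.1 - u z.2‖}
  have hK : ∀ k, IsClosed (K k) := fun k =>
    (isClosed_eq ((nc_ev q k).comp continuous_fst) ((nc_ev q k).comp continuous_snd)).inter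
      (isClosed_le continuous_const (by fun_prop))
  obtain ⟨z, hz⟩ := IsCompact.nonempty_iInter_of_sequence_nonempty_isCompact_isClosed K
    (fun k z hz => ⟨nc_agree z.1.2 z.2.2 hz.1 (Nat.le_succ k), hz.2⟩)
    (fun k => by obtain ⟨x, y, h1, h2⟩ := hc k; exact ⟨(x, y), h1, h2⟩) (hK 0).isCompact hK
  rw [mem_iInter] at hz
  have h1 : z.1 = z.2 := Subtype.ext (funext fun k => (hz k).1)
  have h2 : 1 / 8 ≤ ‖u z.1 - u z.2‖ := (hz 0).2
  rw [h1, sub_self, norm_zero] at h2
  norm_num at h2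

theorem nc_lift {v : ℝ → T} (hv : Continuous v) : Null v := by
  obtain ⟨s, hs⟩ := QuotientAddGroup.mk_surjective (v 0)
  obtain ⟨F, ⟨-, hF⟩, -⟩ := (AddCircle.isCoveringMap_coe (1 : ℝ)).existsUnique_continuousMap_lifts
    ⟨v, hv⟩ 0 s hs
  exact ⟨F, F.continuous, fun x => (congrFun hF x).symm⟩

/-- The one-parameter subgroup with values in the solenoid. -/
noncomputable def ncI {q : ℕ} (hq : q ≠ 0) (t : ℝ) : Sol q := ⟨iota q t, iota_mem hq t⟩

theorem ncI_cont {q : ℕ} (hq : q ≠ 0) : Continuous (ncI hq) := (iota_cont q).subtype_mk _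

/-- A quotient argument: a lift on a compact cover that is constant on fibres descends. -/
theorem nc_desc {E D : Type} [TopologicalSpace E] [CompactSpace E] [TopologicalSpace D]
    [T2Space D] {f : E → D} (hf : Continuous f) (hs : Surjective f) {u : D → T} {W : E → ℝ}
    (hW : Continuous W) (hu : ∀ e, u (f e) = (W e : T))
    (hc : ∀ e e', f e = f e' → W e = W e') : Null u := by
  have hq : IsQuotientMap f := hf.isClosedMap.isQuotientMap hf hs
  refine ⟨fun x => W (surjInv hs x), hq.continuous_iff.2 ?_, fun x => ?_⟩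
  · have : (fun x => W (surjInv hs x)) ∘ f = W :=
      funext fun e => hc _ _ (surjInv_eq hs _)
    rwa [this]
  · rw [← hu, surjInv_eq hs]

/-- Every circle valued map on the solenoid is a character up to a liftable map. -/
theorem nc_char {q : ℕ} (hq : q ≠ 0) {u : Sol q → T} (hu : Continuous u) :
    ∃ (k : ℕ) (n : ℤ), Null fun x : Sol q => u x - n • x.1 k := by
  have : CompactSpace (Sol q) := isCompact_iff_compactSpace.1 (sol_compact q)
  obtain ⟨k, hk⟩ := nc_unif hu
  obtain ⟨w, hw, hwu⟩ := nc_lift (hu.comp (ncI_cont hq))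
  have hwu' : ∀ t, u (ncI hq t) = (w t : T) := hwu
  have hL : (0 : ℝ) < q ^ k := by positivity
  have hper : (ncI hq (q ^ k)).1 k = (ncI hq 0).1 k := by
    simp only [ncI, iota]
    rw [div_self hL.ne', zero_div, AddCircle.coe_period, AddCircle.coe_zero]
  obtain ⟨n, hn⟩ : ∃ n : ℤ, |w (q ^ k) - w 0 - n| < 1 / 8 := by
    have := hk _ _ hper
    rw [hwu', hwu', ← AddCircle.coe_sub, UnitAddCircle.norm_eq] at this
    exact ⟨round (w (q ^ k) - w 0), this⟩
  refine ⟨k, n, ?_⟩
  let S : Set (ℝ × Sol q) := (Icc (0 : ℝ) (q ^ k) ×ˢ univ) ∩ {z | (ncI hq z.1).1 k = z.2.1 k}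
  have hS : IsCompact S := (isCompact_Icc.prod isCompact_univ).inter_right
    (isClosed_eq ((nc_ev q k).comp ((ncI_cont hq).comp continuous_fst))
      ((nc_ev q k).comp continuous_snd))
  have : CompactSpace S := isCompact_iff_compactSpace.1 hS
  have h1 : Continuous fun z : S => z.1.1 := by fun_prop
  have h2 : Continuous fun z : S => z.1.2 := by fun_prop
  have hd : Continuous fun z : S => u z.1.2 - u (ncI hq z.1.1) :=
    (hu.comp h2).sub (hu.comp ((ncI_cont hq).comp h1))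
  have hsm : ∀ z : S, ‖u z.1.2 - u (ncI hq z.1.1)‖ < 1 / 8 := fun z => hk _ _ z.2.2.symm
  let s : S → ℝ := fun z =>
    AddCircle.equivIco (1 : ℝ) (-(1 / 2)) (u z.1.2 - u (ncI hq z.1.1))
  have hs1 : ∀ z, (s z : T) = u z.1.2 - u (ncI hq z.1.1) := fun z => AddCircle.coe_equivIco
  have hs2 : ∀ z, |s z| < 1 / 8 := by
    intro z
    have h3 := (AddCircle.equivIco (1 : ℝ) (-(1 / 2)) (u z.1.2 - u (ncI hq z.1.1))).2
    have h4 : |s z| ≤ |(1 : ℝ)| / 2 := by
      rw [abs_one, abs_le]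
      exact ⟨h3.1, by linarith [h3.2]⟩
    rw [← (AddCircle.norm_coe_eq_abs_iff (1 : ℝ) one_ne_zero).2 h4, hs1]
    exact hsm z
  have hs3 : Continuous s := by
    refine continuous_subtype_val.comp (continuous_iff_continuousAt.2 fun z => ?_)
    refine ContinuousAt.comp (AddCircle.continuousAt_equivIco _ _ fun h => ?_) hd.continuousAt
    have h3 := hsm z
    rw [h, (AddCircle.norm_coe_eq_abs_iff (1 : ℝ) one_ne_zero).2 (by norm_num [abs_of_pos])] at h3
    norm_num [abs_of_pos] at h3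
  have hlift : ∀ z : S, u z.1.2 - n • z.1.2.1 k
      = ((w z.1.1 - n * (z.1.1 / q ^ k) + s z : ℝ) : T) := by
    intro z
    have h3 : z.1.2.1 k = ((z.1.1 / q ^ k : ℝ) : T) := z.2.2.symm
    rw [AddCircle.coe_add, AddCircle.coe_sub, hs1, ← hwu', ← zsmul_eq_mul, AddCircle.coe_zsmul, h3]
    abel
  refine nc_desc h2 (fun x => ?_) (W := fun z => w z.1.1 - n * (z.1.1 / q ^ k) + s z)
    (by fun_prop) hlift fun z z' hz => ?_
  · obtain ⟨t, ht, h3⟩ := nc_approx hq (x.1 k) k
    exact ⟨⟨(t, x), ⟨ht, trivial⟩, h3⟩, rfl⟩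
  · have hz' : z.1.2 = z'.1.2 := hz
    refine nc_eq (by rw [← hlift, ← hlift, hz']) ?_
    have h3 : ((z.1.1 / q ^ k - z'.1.1 / q ^ k : ℝ) : T) = 0 := by
      have a1 : z.1.2.1 k = ((z.1.1 / q ^ k : ℝ) : T) := z.2.2.symm
      have a2 : z'.1.2.1 k = ((z'.1.1 / q ^ k : ℝ) : T) := z'.2.2.symm
      rw [AddCircle.coe_sub, ← a1, ← a2, hz', sub_self]
    obtain ⟨m, hm⟩ := nc_int h3
    have b1 := z.2.1.1
    have b2 := z'.2.1.1
    have hm' : z.1.1 - z'.1.1 = m * q ^ k := by
      rw [← hm]; field_simp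
    have c1 := abs_lt.1 (hs2 z)
    have c2 := abs_lt.1 (hs2 z')
    have c3 := abs_lt.1 hn
    have m1 : m ≤ 1 := by
      have : (m : ℝ) ≤ 1 := le_of_mul_le_mul_right (by linarith [b1.2, b2.1]) hL
      exact_mod_cast this
    have m2 : -1 ≤ m := by
      have : (-1 : ℝ) ≤ m := le_of_mul_le_mul_right (by linarith [b1.1, b2.2]) hL
      exact_mod_cast this
    have hcase : m = 1 ∨ m = 0 ∨ m = -1 := by omega
    rw [abs_lt]
    rcases hcase with rfl | rfl | rfl
    · have e1 : z.1.1 = q ^ k := by push_cast at hm'; linarith [b1.2, b2.1]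
      have e2 : z'.1.1 = 0 := by push_cast at hm'; linarith [b1.2, b2.1]
      rw [e1, e2, div_self hL.ne', zero_div]
      constructor <;> linarith [c1.1, c1.2, c2.1, c2.2, c3.1, c3.2]
    · have e1 : z.1.1 = z'.1.1 := by push_cast at hm'; linarith
      rw [e1]
      constructor <;> linarith [c1.1, c1.2, c2.1, c2.2]
    · have e1 : z.1.1 = 0 := by push_cast at hm'; linarith [b1.1, b2.2]
      have e2 : z'.1.1 = q ^ k := by push_cast at hm'; linarith [b1.1, b2.2]
      rw [e1, e2, div_self hL.ne', zero_div]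
      constructor <;> linarith [c1.1, c1.2, c2.1, c2.2, c3.1, c3.2]

/-- A liftable character is trivial. -/
theorem nc_zero {q : ℕ} (hq : q ≠ 0) {k : ℕ} {n : ℤ} (h : Null fun x : Sol q => n • x.1 k) :
    n = 0 := by
  have : CompactSpace (Sol q) := isCompact_iff_compactSpace.1 (sol_compact q)
  obtain ⟨w, hw, hwu⟩ := h
  obtain ⟨C, hC⟩ := (isCompact_range hw).isBounded.exists_norm_le
  have hL : (0 : ℝ) < q ^ k := by positivity
  have hc := nc_const (g := fun t => w (ncI hq t) - n * (t / q ^ k))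
    ((hw.comp (ncI_cont hq)).sub (by fun_prop)) fun t => by
      rw [AddCircle.coe_sub, ← hwu, ← zsmul_eq_mul, AddCircle.coe_zsmul]
      exact sub_self _
  by_contra hn
  have hn' : (1 : ℝ) ≤ |(n : ℝ)| := by exact_mod_cast Int.one_le_abs hn
  have h1 := hc ((2 * C + 1) * q ^ k) 0
  simp only [zero_div, mul_zero, sub_zero] at h1
  rw [mul_div_assoc, div_self hL.ne', mul_one] at h1
  have a1 := abs_le.1 (hC _ (mem_range_self (ncI hq ((2 * C + 1) * q ^ k))))
  have a2 := abs_le.1 (hC _ (mem_range_self (ncI hq 0)))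
  have hC0 : 0 ≤ C := by linarith [a1.1, a1.2]
  have h2 : |(n : ℝ) * (2 * C + 1)| ≤ 2 * C := by
    rw [abs_le]; constructor <;> linarith [a1.1, a1.2, a2.1, a2.2]
  rw [abs_mul, abs_of_pos (by linarith : 0 < 2 * C + 1)] at h2
  nlinarith

theorem sol_np {p q : ℕ} (hp : p.Prime) (hq : q.Prime) (hpq : p ≠ q) : NP p (Sol q) := by
  intro u hu hsys
  choose k n hn using fun i => nc_char hq.ne_zero (hu i)
  have h1 : ∀ i, Null fun x => p ^ i • u i x - u 0 x := by
    intro i
    induction i with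
    | zero => exact ⟨0, continuous_const, fun x => by simp⟩
    | succ i ih =>
      have := ((hsys i).nsmul (p ^ i)).add ih
      simpa only [smul_sub, ← mul_smul, ← pow_succ, sub_add_sub_cancel] using this
  have h2 : ∀ i, (p : ℤ) ^ i ∣ n 0 := by
    intro i
    have h3 := ((h1 i).sub ((hn i).nsmul (p ^ i))).add (hn 0)
    have h4 : Null fun x : Sol q =>
        ((p : ℤ) ^ i * n i * (q : ℤ) ^ k 0 - n 0 * (q : ℤ) ^ k i) • x.1 (k i + k 0) := by
      have : (fun x : Sol q =>
          ((p : ℤ) ^ i * n i * (q : ℤ) ^ k 0 - n 0 * (q : ℤ) ^ k i) • x.1 (k i + k 0)) =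
          fun x : Sol q => p ^ i • u i x - u 0 x - p ^ i • (u i x - n i • x.1 (k i))
            + (u 0 x - n 0 • x.1 (k 0)) := by
        funext x
        have a1 := nc_down x.2 (k i) (k 0)
        have a2 := nc_down x.2 (k 0) (k i)
        rw [add_comm (k 0)] at a2
        rw [← a1, ← a2]
        simp only [← natCast_zsmul, Nat.cast_pow]
        module
      rw [this]
      exact h3
    have h5 := sub_eq_zero.1 (nc_zero hq.ne_zero h4)
    have h6 : IsCoprime ((p : ℤ) ^ i) ((q : ℤ) ^ k i) :=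
      (Nat.isCoprime_iff_coprime.2 ((Nat.coprime_primes hp hq).2 hpq)).pow
    exact h6.dvd_of_dvd_mul_right ⟨n i * (q : ℤ) ^ k 0, by rw [← h5]; ring⟩
  have h7 : n 0 = 0 := by
    by_contra h
    have h8 := Int.le_of_dvd (abs_pos.2 h) ((dvd_abs _ _).2 (h2 (n 0).natAbs))
    have h9 := Nat.lt_pow_self (n := (n 0).natAbs) hp.one_lt
    have h10 : ((n 0).natAbs : ℤ) < (p : ℤ) ^ (n 0).natAbs := by exact_mod_cast h9
    rw [Int.natCast_natAbs] at h10
    omega
  have := hn 0
  simpa only [h7, zero_smul, sub_zero] using this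

end Pool.Agent.P.MP_5aae23_gt.Nsh
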