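import Pool.Agent.P.MP_5aae23_gt.NC

open Set Filter Topology Function

namespace Pool.Agent.P.MP_5aae23_gt.Nsh

theorem tr_cont (l : ℕ) : Continuous (tr l) := by
  refine continuous_fst.prodMk (continuous_pi fun j => ?_)
  by_cases h : j < l
  · simp only [h, if_true]
    exact (continuous_apply j).comp continuous_snd
  · simp only [h, if_false]
    exact continuous_const

theorem tr_fst (l : ℕ) (x : Om) : (tr l x).1 = x.1 := rfl

theorem tr_snd_lt {l j : ℕ} (h : j < l) (x : Om) : (tr l x).2 j = x.2 j := if_pos h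

theorem tr_snd_ge {l j : ℕ} (h : l ≤ j) (x : Om) : (tr l x).2 j = 0 := if_neg (not_lt.mpr h)

theorem tr_eq_iff {l : ℕ} {x y : Om} :
    tr l x = tr l y ↔ x.1 = y.1 ∧ ∀ i < l, x.2 i = y.2 i := by
  constructor
  · intro h
    refine ⟨(congrArg Prod.fst h : (tr l x).1 = (tr l y).1), fun i hi => ?_⟩
    rw [← tr_snd_lt hi x, h, tr_snd_lt hi y]
  · rintro ⟨h1, h2⟩
    refine Prod.ext h1 (funext fun i => ?_)
    by_cases hi : i < l
    · rw [tr_snd_lt hi, tr_snd_lt hi, h2 i hi]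
    · rw [tr_snd_ge (not_lt.mp hi), tr_snd_ge (not_lt.mp hi)]

theorem tr_trunc {l l' : ℕ} (h : l ≤ l') (x : Om) : tr l (tr l' x) = tr l x :=
  tr_eq_iff.mpr ⟨rfl, fun _ hi => tr_snd_lt (lt_of_lt_of_le hi h) x⟩

theorem tr_eq_mono {l l' : ℕ} (h : l ≤ l') {x y : Om} (e : tr l' x = tr l' y) :
    tr l x = tr l y := by
  rw [← tr_trunc h x, e, tr_trunc h y]

theorem eq_of_tr {x y : Om} (h : ∀ l, tr l x = tr l y) : x = y :=
  Prod.ext (tr_eq_iff.mp (h 0)).1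
    (funext fun i => (tr_eq_iff.mp (h (i + 1))).2 i (Nat.lt_succ_self i))

theorem tr_of_arcL {d : ℕ → Om → ℝ} {pr : ℕ → ℕ} {l : ℕ} {ξ : Om} (hξ : ξ ∈ ArcL d pr l) :
    tr l ξ = ξ := by
  refine Prod.ext rfl (funext fun i => ?_)
  by_cases hi : i < l
  · exact tr_snd_lt hi ξ
  · rw [tr_snd_ge (not_lt.mp hi), hξ.2.2 i (not_lt.mp hi)]

theorem nhds_tr (c : Om) {U : Set Om} (hU : U ∈ 𝓝 c) :
    ∃ l, ∃ V ∈ 𝓝 (tr l c), ∀ x, tr l x ∈ V → x ∈ U := by
  obtain ⟨u, hu, v, hv, huv⟩ := mem_nhds_prod_iff.mp (show U ∈ 𝓝 (c.1, c.2) from hU)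
  rw [nhds_pi, Filter.mem_pi] at hv
  obtain ⟨I, hI, t, ht, hIt⟩ := hv
  obtain ⟨b, hb⟩ := hI.bddAbove
  have hlt : ∀ i ∈ I, i < b + 1 := fun i hi => Nat.lt_succ_of_le (hb hi)
  refine ⟨b + 1, u ×ˢ I.pi t, ?_, fun x hx => huv ⟨hx.1, hIt fun i hi => ?_⟩⟩
  · refine prod_mem_nhds (x := c.1) hu (set_pi_mem_nhds hI fun i hi => ?_)
    have h1 := ht i
    rw [← tr_snd_lt (hlt i hi) c] at h1
    exact h1
  · have := hx.2 i hi
    rwa [tr_snd_lt (hlt i hi)] at this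

theorem exists_dfam : ∃ d, Dfam d := by
  obtain ⟨w, hw⟩ := TopologicalSpace.exists_dense_seq Om
  let _ : PseudoMetricSpace Om := TopologicalSpace.pseudoMetrizableSpacePseudoMetric Om
  refine ⟨fun j x => dist (tr j.unpair.1 x) (w j.unpair.2.unpair.1)
    - 1 / ((j.unpair.2.unpair.2 : ℝ) + 1), ?_, ?_, ?_⟩
  · intro j
    exact ((tr_cont _).dist continuous_const).sub continuous_const
  · intro j x y h1 h2
    have : tr j.unpair.1 x = tr j.unpair.1 y :=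
      tr_eq_iff.mpr ⟨h1, fun i hi => h2 i (lt_of_lt_of_le hi (Nat.unpair_left_le j))⟩
    simp only [this]
  · intro c U hU
    obtain ⟨l, V, hV, hVU⟩ := nhds_tr c hU
    obtain ⟨ε, hε, hball⟩ := Metric.mem_nhds_iff.mp hV
    obtain ⟨n, hn⟩ := exists_nat_one_div_lt (half_pos hε)
    have hn0 : (0 : ℝ) < 1 / ((n : ℝ) + 1) := Nat.one_div_pos_of_nat
    obtain ⟨k, hk⟩ := hw.exists_dist_lt (tr l c) hn0
    refine ⟨Nat.pair l (Nat.pair k n), ?_, fun x hx => hVU x (hball ?_)⟩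
    · simp only [Nat.unpair_pair]
      linarith
    · simp only [Nat.unpair_pair] at hx
      have := dist_triangle_right (tr l x) (tr l c) (w k)
      rw [Metric.mem_ball]
      linarith

theorem cond_closed {d : ℕ → Om → ℝ} (hd : Dfam d) (pr : ℕ → ℕ) (j : ℕ) :
    IsClosed {x : Om | x.2 j ∈ Sol (pr j) ∧ (d j x = 0 ∨ x.2 j = iota (pr j) (d j x)⁻¹)} := by
  have hj : Continuous fun x : Om => x.2 j := (continuous_apply j).comp continuous_snd
  refine IsClosed.inter ((sol_compact (pr j)).isClosed.preimage hj) ?_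
  rw [← isOpen_compl_iff, isOpen_iff_mem_nhds]
  intro x hx
  have hx' : ¬(d j x = 0 ∨ x.2 j = iota (pr j) (d j x)⁻¹) := hx
  rw [not_or] at hx'
  have h1 : ∀ᶠ y in 𝓝 x, d j y ≠ 0 := (hd.cont j).continuousAt.eventually_ne hx'.1
  have h2 : ContinuousAt (fun y : Om => (y.2 j, iota (pr j) (d j y)⁻¹)) x :=
    hj.continuousAt.prodMk
      ((iota_cont (pr j)).continuousAt.comp ((hd.cont j).continuousAt.inv₀ hx'.1))
  have h3 := h2.eventually (isClosed_diagonal.isOpen_compl.mem_nhds hx'.2)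
  filter_upwards [h1, h3] with y hy1 hy3
  rintro (h | h)
  · exact hy1 h
  · exact hy3 h

theorem strip_compact : IsCompact {x : Om | |x.1| ≤ 1} := by
  have : {x : Om | |x.1| ≤ 1} = Icc (-1 : ℝ) 1 ×ˢ univ := by
    ext x
    simp [abs_le]
  rw [this]
  exact isCompact_Icc.prod isCompact_univ

theorem arc_compact {d : ℕ → Om → ℝ} (hd : Dfam d) (pr : ℕ → ℕ) : IsCompact (Arc d pr) := by
  have : Arc d pr = {x : Om | |x.1| ≤ 1} ∩ ⋂ j, {x : Om | x.2 j ∈ Sol (pr j) ∧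
      (d j x = 0 ∨ x.2 j = iota (pr j) (d j x)⁻¹)} := by
    ext x
    simp only [Arc, mem_ofPred_eq, mem_inter_iff, mem_iInter]
  rw [this]
  exact strip_compact.inter_right (isClosed_iInter fun j => cond_closed hd pr j)

theorem arcL_compact {d : ℕ → Om → ℝ} (hd : Dfam d) (pr : ℕ → ℕ) (l : ℕ) :
    IsCompact (ArcL d pr l) := by
  have : ArcL d pr l = {x : Om | |x.1| ≤ 1} ∩ ((⋂ j, ⋂ _ : j < l, {x : Om | x.2 j ∈ Sol (pr j) ∧
      (d j x = 0 ∨ x.2 j = iota (pr j) (d j x)⁻¹)}) ∩ ⋂ j, ⋂ _ : l ≤ j, {x : Om | x.2 j = 0}) := by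
    ext x
    simp only [ArcL, mem_ofPred_eq, mem_inter_iff, mem_iInter]
  rw [this]
  refine strip_compact.inter_right (IsClosed.inter
    (isClosed_iInter fun j => isClosed_iInter fun _ => cond_closed hd pr j)
    (isClosed_iInter fun j => isClosed_iInter fun _ => ?_))
  exact isClosed_eq ((continuous_apply j).comp continuous_snd) continuous_const

theorem tr_mem {d : ℕ → Om → ℝ} (hd : Dfam d) {pr : ℕ → ℕ} {x : Om} (hx : x ∈ Arc d pr) (l : ℕ) :
    tr l x ∈ ArcL d pr l := by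
  refine ⟨hx.1, fun j hj => ?_, fun j hj => tr_snd_ge hj x⟩
  have h1 : d j (tr l x) = d j x :=
    hd.dep j _ _ rfl fun i hi => tr_snd_lt (hi.trans hj) x
  rw [h1, tr_snd_lt hj]
  exact hx.2 j

theorem arc_lift {d : ℕ → Om → ℝ} (hd : Dfam d) {pr : ℕ → ℕ} (hpr : ∀ j, pr j ≠ 0) {l : ℕ}
    {ξ : Om} (hξ : ξ ∈ ArcL d pr l) : ∃ x ∈ Arc d pr, tr l x = ξ := by
  classical
  let s : ℕ → ℕ → ℕ → T := fun n => Nat.rec (motive := fun _ => ℕ → ℕ → T) 0
    (fun n sn => Function.update sn n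
      (if n < l then ξ.2 n else iota (pr n) (d n (ξ.1, sn))⁻¹)) n
  have hs : ∀ n, s (n + 1) = Function.update (s n) n
      (if n < l then ξ.2 n else iota (pr n) (d n (ξ.1, s n))⁻¹) := fun _ => rfl
  let y : ℕ → ℕ → T := fun j => s (j + 1) j
  have hy : ∀ j, y j = if j < l then ξ.2 j else iota (pr j) (d j (ξ.1, s j))⁻¹ := fun j => by
    show s (j + 1) j = _
    rw [hs, Function.update_self]
  have hsy : ∀ n, ∀ i < n, s n i = y i := by
    intro n
    induction n with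
    | zero => intro i hi; exact absurd hi (Nat.not_lt_zero i)
    | succ n ih =>
      intro i hi
      rcases Nat.lt_succ_iff_lt_or_eq.mp hi with h | h
      · rw [hs, Function.update_of_ne h.ne, ih i h]
      · rw [h]
  have hlow : ∀ i < l, y i = ξ.2 i := fun i hi => by rw [hy, if_pos hi]
  refine ⟨(ξ.1, y), ⟨hξ.1, fun j => ?_⟩, ?_⟩
  · by_cases hj : j < l
    · have h1 : d j (ξ.1, y) = d j ξ := hd.dep j _ _ rfl fun i hi => hlow i (hi.trans hj)
      have h2 : ((ξ.1, y) : Om).2 j = ξ.2 j := hlow j hj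
      rw [h1, h2]
      exact hξ.2.1 j hj
    · have h1 : d j (ξ.1, y) = d j (ξ.1, s j) := hd.dep j _ _ rfl fun i hi => (hsy j i hi).symm
      have h2 : ((ξ.1, y) : Om).2 j = iota (pr j) (d j (ξ.1, s j))⁻¹ := by
        show y j = _
        rw [hy, if_neg hj]
      rw [h1, h2]
      exact ⟨iota_mem (hpr j) _, Or.inr rfl⟩
  · rw [← tr_of_arcL hξ]
    exact tr_eq_iff.mpr ⟨rfl, hlow⟩

/-- A compact set of pairs that contains pairs with the same truncation at every level meets the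
diagonal. -/
theorem diag_of_tr {C : Set (Om × Om)} (hC : IsCompact C) (l : ℕ)
    (h : ∀ l', l ≤ l' → ∃ z ∈ C, tr l' z.1 = tr l' z.2) : ∃ z ∈ C, z.1 = z.2 := by
  let Z : ℕ → Set (Om × Om) := fun n => C ∩ {z | tr n z.1 = tr n z.2}
  have hcl : ∀ n, IsClosed {z : Om × Om | tr n z.1 = tr n z.2} := fun n =>
    isClosed_eq ((tr_cont n).comp continuous_fst) ((tr_cont n).comp continuous_snd)
  obtain ⟨z, hz⟩ := IsCompact.nonempty_iInter_of_sequence_nonempty_isCompact_isClosed Z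
    (fun n z hz => ⟨hz.1, tr_eq_mono (Nat.le_succ n) hz.2⟩)
    (fun n => by
      obtain ⟨z, hz, e⟩ := h (max l n) (le_max_left _ _)
      exact ⟨z, hz, tr_eq_mono (le_max_right l n) e⟩)
    (hC.inter_right (hcl 0)) (fun n => hC.isClosed.inter (hcl n))
  rw [mem_iInter] at hz
  exact ⟨z, (hz 0).1, eq_of_tr fun n => (hz n).2⟩

theorem conn_of_tr {Y : Set Om} (hY : IsCompact Y) (l : ℕ)
    (h : ∀ l', l ≤ l' → IsPreconnected (tr l' '' Y)) : IsPreconnected Y := by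
  rw [isPreconnected_closed_iff]
  intro t t' ht ht' hcov hne hne'
  have hA : IsCompact (Y ∩ t) := hY.inter_right ht
  have hB : IsCompact (Y ∩ t') := hY.inter_right ht'
  obtain ⟨z, hz, e⟩ := diag_of_tr (hA.prod hB) l fun l' hl' => by
    obtain ⟨w, -, ⟨a, ha, ea⟩, b, hb, eb⟩ := isPreconnected_closed_iff.mp (h l' hl')
      (tr l' '' (Y ∩ t)) (tr l' '' (Y ∩ t')) (hA.image (tr_cont l')).isClosed
      (hB.image (tr_cont l')).isClosed
      (by
        rintro _ ⟨x, hx, rfl⟩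
        rcases hcov hx with h1 | h1
        · exact Or.inl ⟨x, ⟨hx, h1⟩, rfl⟩
        · exact Or.inr ⟨x, ⟨hx, h1⟩, rfl⟩)
      (by
        obtain ⟨x, hx⟩ := hne
        exact ⟨tr l' x, ⟨x, hx.1, rfl⟩, x, hx, rfl⟩)
      (by
        obtain ⟨x, hx⟩ := hne'
        exact ⟨tr l' x, ⟨x, hx.1, rfl⟩, x, hx, rfl⟩)
    exact ⟨(a, b), ⟨ha, hb⟩, ea.trans eb.symm⟩
  exact ⟨z.1, hz.1.1, hz.1.2, e ▸ hz.2.2⟩

end Pool.Agent.P.MP_5aae23_gt.Nsh
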