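import Pool.Agent.P.MP_5aae23_gt.NB
import Pool.Agent.P.MP_5aae23_gt.ND1

open Set Filter Topology Function

namespace Pool.Agent.P.MP_5aae23_gt.Nsh

theorem tr_tr {l l' : ℕ} (h : l ≤ l') (x : Om) : tr l (tr l' x) = tr l x := by
  refine Prod.ext rfl (funext fun j => ?_)
  by_cases hj : j < l
  · simp [tr, hj, lt_of_lt_of_le hj h]
  · simp [tr, hj]

theorem tr_self {d : ℕ → Om → ℝ} {pr : ℕ → ℕ} {l : ℕ} {x : Om} (hx : x ∈ ArcL d pr l) :
    tr l x = x := by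
  refine Prod.ext rfl (funext fun j => ?_)
  by_cases hj : j < l
  · simp [tr, hj]
  · simp [tr, hj, hx.2.2 j (not_lt.1 hj)]

theorem d_tr {d : ℕ → Om → ℝ} (hd : Dfam d) {j l : ℕ} (h : j ≤ l) (x : Om) :
    d j (tr l x) = d j x :=
  hd.dep j _ _ rfl fun i hi => by simp [tr, lt_of_lt_of_le hi h]

theorem tr_memL {d : ℕ → Om → ℝ} (hd : Dfam d) {pr : ℕ → ℕ} {l : ℕ} {x : Om}
    (hx : x ∈ ArcL d pr (l + 1)) : tr l x ∈ ArcL d pr l := by
  refine ⟨hx.1, fun j hj => ?_, fun j hj => by simp [tr, not_lt.2 hj]⟩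
  have h1 : (tr l x).2 j = x.2 j := by simp [tr, hj]
  rw [h1, d_tr hd hj.le]
  exact hx.2.1 j (Nat.lt_succ_of_lt hj)

/-- Put `s` into the coordinate `l`. -/
def up (l : ℕ) (η : Om) (s : ℕ → T) : Om := (η.1, update η.2 l s)

theorem up_cont (l : ℕ) (η : Om) : Continuous (up l η) :=
  continuous_const.prodMk (continuous_const.update l continuous_id)

theorem tr_up {d : ℕ → Om → ℝ} {pr : ℕ → ℕ} {l : ℕ} {η : Om} (hη : η ∈ ArcL d pr l)
    (s : ℕ → T) : tr l (up l η s) = η := by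
  refine Prod.ext rfl (funext fun j => ?_)
  by_cases hj : j < l
  · simp [tr, up, hj, update_of_ne hj.ne]
  · simp [tr, hj, hη.2.2 j (not_lt.1 hj)]

theorem up_mem {d : ℕ → Om → ℝ} (hd : Dfam d) {pr : ℕ → ℕ} {l : ℕ} {η : Om}
    (hη : η ∈ ArcL d pr l) {s : ℕ → T} (hs : s ∈ Sol (pr l))
    (h : d l η = 0 ∨ s = iota (pr l) (d l η)⁻¹) : up l η s ∈ ArcL d pr (l + 1) := by
  have hdj : ∀ j, j ≤ l → d j (up l η s) = d j η := fun j hj => by
    rw [← d_tr hd hj, tr_up hη]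
  refine ⟨hη.1, fun j hj => ?_, fun j hj => ?_⟩
  · rw [hdj j (Nat.lt_succ_iff.1 hj)]
    rcases (Nat.lt_succ_iff.1 hj).lt_or_eq with h1 | rfl
    · have h2 : (up l η s).2 j = η.2 j := by simp [up, update_of_ne h1.ne]
      rw [h2]
      exact hη.2.1 j h1
    · have h2 : (up j η s).2 j = s := by simp [up]
      rw [h2]
      exact ⟨hs, h⟩
  · have h1 : j ≠ l := by omega
    have h2 : (up l η s).2 j = η.2 j := by simp [up, update_of_ne h1]
    rw [h2]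
    exact hη.2.2 j (by omega)

theorem up_eq {d : ℕ → Om → ℝ} {pr : ℕ → ℕ} {l : ℕ} {η x : Om}
    (hx : x ∈ ArcL d pr (l + 1)) (h : tr l x = η) : up l η (x.2 l) = x := by
  subst h
  refine Prod.ext rfl (funext fun j => ?_)
  rcases lt_trichotomy j l with h1 | rfl | h1
  · simp [up, tr, update_of_ne h1.ne, h1]
  · simp [up]
  · simp [up, tr, update_of_ne h1.ne', not_lt.2 h1.le, hx.2.2 j h1]

theorem step_eq {d : ℕ → Om → ℝ} (hd : Dfam d) {pr : ℕ → ℕ} {l : ℕ} {η : Om}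
    (hη : η ∈ ArcL d pr l) : ArcL d pr (l + 1) ∩ tr l ⁻¹' {η} =
      up l η '' {s | s ∈ Sol (pr l) ∧ (d l η = 0 ∨ s = iota (pr l) (d l η)⁻¹)} := by
  ext x
  constructor
  · rintro ⟨hx, h⟩
    have h' : tr l x = η := h
    refine ⟨x.2 l, ?_, up_eq hx h'⟩
    have h1 := hx.2.1 l (Nat.lt_succ_self l)
    rw [← d_tr hd le_rfl, h'] at h1
    exact h1
  · rintro ⟨s, hs, rfl⟩
    exact ⟨up_mem hd hη hs.1 hs.2, tr_up hη s⟩

theorem step_zero {d : ℕ → Om → ℝ} (hd : Dfam d) {pr : ℕ → ℕ} {l : ℕ} {η : Om}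
    (hη : η ∈ ArcL d pr l) (h : d l η = 0) :
    ArcL d pr (l + 1) ∩ tr l ⁻¹' {η} = up l η '' Sol (pr l) := by
  rw [step_eq hd hη]
  congr 1
  ext s
  simp [h]

theorem step_ne {d : ℕ → Om → ℝ} (hd : Dfam d) {pr : ℕ → ℕ} (hpr : ∀ j, pr j ≠ 0) {l : ℕ} {η : Om}
    (hη : η ∈ ArcL d pr l) (h : d l η ≠ 0) :
    ArcL d pr (l + 1) ∩ tr l ⁻¹' {η} = {up l η (iota (pr l) (d l η)⁻¹)} := by
  rw [step_eq hd hη, ← image_singleton]
  congr 1
  ext s
  constructor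
  · rintro ⟨-, h1 | h1⟩
    · exact absurd h1 h
    · exact h1
  · rintro rfl
    exact ⟨iota_mem (hpr l) _, Or.inr rfl⟩

theorem step_conn {d : ℕ → Om → ℝ} (hd : Dfam d) {pr : ℕ → ℕ} (hpr : ∀ j, pr j ≠ 0) {l : ℕ}
    {η : Om} (hη : η ∈ ArcL d pr l) : IsConnected (ArcL d pr (l + 1) ∩ tr l ⁻¹' {η}) := by
  by_cases h : d l η = 0
  · rw [step_zero hd hη h]
    exact (sol_conn (hpr l)).image _ (up_cont l η).continuousOn
  · rw [step_ne hd hpr hη h]
    exact isConnected_singleton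

/-- A section over a set gives a homeomorphism with its image. -/
theorem np_image {X Y : Type} [TopologicalSpace X] [TopologicalSpace Y] {p : ℕ} {S : Set X}
    (h : NP p S) (e : X → Y) (he : Continuous e) (r : Y → X) (hr : Continuous r)
    (hre : ∀ x, r (e x) = x) : NP p ↥(e '' S) := by
  have h1 : ∀ y : ↥(e '' S), r y.1 ∈ S := fun y => by
    obtain ⟨x, hx, hy⟩ := y.2
    rw [← hy, hre]
    exact hx
  have h2 : ∀ y : ↥(e '' S), e (r y.1) = y.1 := fun y => by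
    obtain ⟨x, -, hy⟩ := y.2
    rw [← hy, hre]
  let E : ↥(e '' S) ≃ₜ ↥S :=
    { toFun := fun y => ⟨r y.1, h1 y⟩
      invFun := fun x => ⟨e x.1, mem_image_of_mem e x.2⟩
      left_inv := fun y => Subtype.ext (h2 y)
      right_inv := fun x => Subtype.ext (hre x.1)
      continuous_toFun := (hr.comp continuous_subtype_val).subtype_mk _
      continuous_invFun := (he.comp continuous_subtype_val).subtype_mk _ }
  exact h.homeo E

theorem step_np {d : ℕ → Om → ℝ} (hd : Dfam d) {pr : ℕ → ℕ} (hpr : ∀ j, (pr j).Prime) {p : ℕ}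
    (hp : p.Prime) {l : ℕ} {η : Om} (hη : η ∈ ArcL d pr l) (h : pr l = p → d l η ≠ 0) :
    NP p ↥(ArcL d pr (l + 1) ∩ tr l ⁻¹' {η}) := by
  by_cases h0 : d l η = 0
  · rw [step_zero hd hη h0]
    exact np_image (sol_np hp (hpr l) fun e => h e.symm h0) _ (up_cont l η) (fun x => x.2 l)
      ((continuous_apply l).comp continuous_snd) fun s => by simp [up]
  · rw [step_ne hd (fun j => (hpr j).ne_zero) hη h0]
    exact np_subsingleton p

theorem step_im {d : ℕ → Om → ℝ} (hd : Dfam d) {pr : ℕ → ℕ} (hpr : ∀ j, pr j ≠ 0) {l : ℕ}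
    {C : Set Om} (hC : ∀ x, tr l x ∈ C ↔ x ∈ C) :
    tr l '' (ArcL d pr (l + 1) ∩ C) = ArcL d pr l ∩ C := by
  ext η
  constructor
  · rintro ⟨x, hx, rfl⟩
    exact ⟨tr_memL hd hx.1, (hC x).2 hx.2⟩
  · intro hη
    obtain ⟨x, hx, h⟩ := (step_conn hd hpr hη.1).nonempty
    have h' : tr l x = η := h
    exact ⟨x, ⟨hx, (hC x).1 (h' ▸ hη.2)⟩, h'⟩

theorem step_fib {d : ℕ → Om → ℝ} {pr : ℕ → ℕ} {l : ℕ} {C : Set Om}
    (hC : ∀ x, tr l x ∈ C ↔ x ∈ C) {η : Om} (hη : η ∈ C) :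
    (ArcL d pr (l + 1) ∩ C) ∩ tr l ⁻¹' {η} = ArcL d pr (l + 1) ∩ tr l ⁻¹' {η} := by
  ext x
  constructor
  · exact fun h => ⟨h.1.1, h.2⟩
  · intro h
    have h' : tr l x = η := h.2
    exact ⟨⟨h.1, (hC x).1 (h' ▸ hη)⟩, h.2⟩

theorem lev_conn {d : ℕ → Om → ℝ} (hd : Dfam d) {pr : ℕ → ℕ} (hpr : ∀ j, pr j ≠ 0) {l : ℕ}
    {ξ : Om} (hξ : ξ ∈ ArcL d pr l) {l' : ℕ} (hl : l ≤ l') :
    IsPreconnected (ArcL d pr l' ∩ tr l ⁻¹' {ξ}) := by
  induction l', hl using Nat.le_induction with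
  | base =>
    refine Set.Subsingleton.isPreconnected fun x hx y hy => ?_
    have h1 : tr l x = ξ := hx.2
    have h2 : tr l y = ξ := hy.2
    rw [← tr_self hx.1, ← tr_self hy.1, h1, h2]
  | succ k hk ih =>
    have hC : ∀ x, tr k x ∈ tr l ⁻¹' {ξ} ↔ x ∈ tr l ⁻¹' {ξ} := fun x => by
      simp only [mem_preimage, tr_tr hk]
    refine conn_set ((arcL_compact hd pr (k + 1)).inter_right
      (isClosed_singleton.preimage (tr_cont l))) (tr k) (tr_cont k) (step_im hd hpr hC)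
      (fun y hy => ?_) ih
    rw [step_fib hC hy.2]
    exact (step_conn hd hpr hy.1).isPreconnected

theorem lev_np {d : ℕ → Om → ℝ} (hd : Dfam d) {pr : ℕ → ℕ} (hpr : ∀ j, (pr j).Prime) {p : ℕ}
    (hp : p.Prime) (q : ℝ) (hq : |q| ≤ 1)
    (h : ∀ j, pr j = p → ∀ a ∈ Arc d pr, a.1 = q → d j a ≠ 0) (l : ℕ) :
    NP p ↥(ArcL d pr l ∩ {x | x.1 = q}) := by
  have hpr0 : ∀ j, pr j ≠ 0 := fun j => (hpr j).ne_zero
  induction l with
  | zero =>
    have : Subsingleton ↥(ArcL d pr 0 ∩ {x | x.1 = q}) := by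
      refine (Set.subsingleton_coe _).2 fun x hx y hy => Prod.ext ?_ (funext fun j => ?_)
      · have h1 : x.1 = q := hx.2
        have h2 : y.1 = q := hy.2
        rw [h1, h2]
      · rw [hx.1.2.2 j (Nat.zero_le j), hy.1.2.2 j (Nat.zero_le j)]
    exact np_subsingleton p
  | succ k ih =>
    have hC : ∀ x : Om, tr k x ∈ {x : Om | x.1 = q} ↔ x ∈ {x : Om | x.1 = q} := fun x => Iff.rfl
    refine np_set ((arcL_compact hd pr (k + 1)).inter_right
      (isClosed_eq continuous_fst continuous_const)) (tr k) (tr_cont k) (step_im hd hpr0 hC)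
      (fun y hy => ?_) hp.ne_zero ih fun y hy => ?_
    · rw [step_fib hC hy.2]
      exact (step_conn hd hpr0 hy.1).isPreconnected
    · rw [step_fib hC hy.2]
      refine step_np hd hpr hp hy.1 fun e => ?_
      obtain ⟨x, hx, rfl⟩ := arc_lift hd hpr0 hy.1
      rw [d_tr hd le_rfl]
      exact h k e x hx hy.2

end Pool.Agent.P.MP_5aae23_gt.Nsh
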