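import Pool.Agent.P.MP_5aae23_gt.ND2

open Set Filter Topology Function

namespace Pool.Agent.P.MP_5aae23_gt.Nsh

theorem tr_image_fib {d : ℕ → Om → ℝ} (hd : Dfam d) {pr : ℕ → ℕ} (hpr : ∀ j, pr j ≠ 0) {l l' : ℕ}
    (hl : l ≤ l') (ξ : Om) :
    tr l' '' (Arc d pr ∩ tr l ⁻¹' {ξ}) = ArcL d pr l' ∩ tr l ⁻¹' {ξ} := by
  ext η
  constructor
  · rintro ⟨x, hx, rfl⟩
    exact ⟨tr_mem hd hx.1 l', (tr_trunc hl x).trans hx.2⟩
  · rintro ⟨h1, h2⟩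
    obtain ⟨x, hx, rfl⟩ := arc_lift hd hpr h1
    exact ⟨x, ⟨hx, (tr_trunc hl x).symm.trans h2⟩, rfl⟩

theorem arc_tr_conn {d : ℕ → Om → ℝ} (hd : Dfam d) {pr : ℕ → ℕ} (hpr : ∀ j, pr j ≠ 0) {l : ℕ}
    {ξ : Om} (hξ : ξ ∈ ArcL d pr l) : IsPreconnected (Arc d pr ∩ tr l ⁻¹' {ξ}) := by
  refine conn_of_tr ((arc_compact hd pr).inter_right
    (isClosed_singleton.preimage (tr_cont l))) l fun l' hl => ?_
  rw [tr_image_fib hd hpr hl]
  exact lev_conn hd hpr hξ hl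

theorem fst_eq_tr (q : ℝ) : {x : Om | x.1 = q} = tr 0 ⁻¹' {((q, 0) : Om)} := by
  ext x
  constructor
  · intro h
    exact Prod.ext h (funext fun i => tr_snd_ge (Nat.zero_le i) x)
  · intro h
    exact (congrArg Prod.fst (h : tr 0 x = (q, 0)) : (tr 0 x).1 = q)

theorem fib_conn {d : ℕ → Om → ℝ} (hd : Dfam d) {pr : ℕ → ℕ} (hpr : ∀ j, pr j ≠ 0) (q : ℝ)
    (hq : |q| ≤ 1) : IsConnected (Arc d pr ∩ {x | x.1 = q}) := by
  have hξ : ((q, 0) : Om) ∈ ArcL d pr 0 :=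
    ⟨hq, fun j hj => absurd hj (Nat.not_lt_zero j), fun _ _ => rfl⟩
  rw [fst_eq_tr]
  obtain ⟨x, hx, e⟩ := arc_lift hd hpr hξ
  exact ⟨⟨x, hx, e⟩, arc_tr_conn hd hpr hξ⟩

/-- A continuous map on a compact set is almost constant on the fibres of a late truncation. -/
theorem small_on_tr {S : Set Om} (hS : IsCompact S) (u : S → T) (hu : Continuous u) :
    ∃ l, ∀ x x' : S, tr l x.1 = tr l x'.1 → ‖u x - u x'‖ < 1 / 2 := by
  by_contra hcon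
  push Not at hcon
  have : CompactSpace S := isCompact_iff_compactSpace.mp hS
  have hcl : IsClosed {z : S × S | 1 / 2 ≤ ‖u z.1 - u z.2‖} :=
    isClosed_le continuous_const
      ((hu.comp continuous_fst).sub (hu.comp continuous_snd)).norm
  have hv : Continuous fun z : S × S => ((z.1.1, z.2.1) : Om × Om) := by fun_prop
  obtain ⟨_, ⟨z, hz, rfl⟩, e⟩ := diag_of_tr (hcl.isCompact.image hv) 0 fun l _ => by
    obtain ⟨x, x', h1, h2⟩ := hcon l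
    exact ⟨(x.1, x'.1), ⟨(x, x'), h2, rfl⟩, h1⟩
  have e' : z.1 = z.2 := Subtype.ext e
  have hz' : 1 / 2 ≤ ‖u z.1 - u z.2‖ := hz
  rw [e', sub_self, norm_zero] at hz'
  norm_num at hz'

theorem fib_np {d : ℕ → Om → ℝ} (hd : Dfam d) {pr : ℕ → ℕ} (hpr : ∀ j, (pr j).Prime) {p : ℕ}
    (hp : p.Prime) (q : ℝ) (hq : |q| ≤ 1)
    (h : ∀ j, pr j = p → ∀ a ∈ Arc d pr, a.1 = q → d j a ≠ 0) :
    NP p ↥(Arc d pr ∩ {x | x.1 = q}) := by
  have hpr0 : ∀ j, pr j ≠ 0 := fun j => (hpr j).ne_zero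
  have hS : IsCompact (Arc d pr ∩ {x | x.1 = q}) :=
    (arc_compact hd pr).inter_right (isClosed_eq continuous_fst continuous_const)
  intro u hu hsys
  obtain ⟨l, hl⟩ := small_on_tr hS (u 0) (hu 0)
  have him : tr l '' (Arc d pr ∩ {x | x.1 = q}) = ArcL d pr l ∩ {x | x.1 = q} := by
    rw [fst_eq_tr]
    exact tr_image_fib hd hpr0 (Nat.zero_le l) _
  refine n3_set hS (tr l) (tr_cont l) him (fun y hy => ?_) hp.ne_zero
    (lev_np hd hpr hp q hq h l) u hu hsys fun y hy => ?_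
  · have : Arc d pr ∩ {x | x.1 = q} ∩ tr l ⁻¹' {y} = Arc d pr ∩ tr l ⁻¹' {y} := by
      ext x
      constructor
      · exact fun hx => ⟨hx.1.1, hx.2⟩
      · intro hx
        refine ⟨⟨hx.1, ?_⟩, hx.2⟩
        exact (congrArg Prod.fst (hx.2 : tr l x = y) : (tr l x).1 = y.1).trans hy.2
    rw [this]
    exact arc_tr_conn hd hpr0 hy.1
  · rw [← him] at hy
    obtain ⟨x0, hx0, e0⟩ := hy
    refine null_small ((hu 0).comp (continuous_subtype_val.subtype_mk _)) (u 0 ⟨x0, hx0⟩)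
      fun x => hl ⟨x.1, x.2.1⟩ ⟨x0, hx0⟩ ?_
    exact (x.2.2 : tr l x.1 = y).trans e0.symm

end Pool.Agent.P.MP_5aae23_gt.Nsh
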