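import Mathlib

/-! Definitions for the construction of an F-sigma subspace of `c₀` that is homeomorphic to no
inner product space. -/

open Set Filter Topology

namespace Pool.Agent.P.MP_5aae23_gt.Nsh

/-- The circle `ℝ / ℤ`. -/
abbrev T : Type := AddCircle (1 : ℝ)

/-- `u` has a continuous real lift. -/
def Null {D : Type} [TopologicalSpace D] (u : D → T) : Prop :=
  ∃ w : D → ℝ, Continuous w ∧ ∀ x, u x = (w x : T)

/-- No nonzero class of circle valued maps on `D` is infinitely `p`-divisible. -/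
def NP (p : ℕ) (D : Type) [TopologicalSpace D] : Prop :=
  ∀ u : ℕ → D → T, (∀ i, Continuous (u i)) →
    (∀ i, Null fun x => p • u (i + 1) x - u i x) → Null (u 0)

/-- The `p`-adic solenoid. -/
def Sol (p : ℕ) : Set (ℕ → T) := {x | ∀ i, p • x (i + 1) = x i}

/-- The dense one-parameter subgroup of the solenoid. -/
noncomputable def iota (p : ℕ) (r : ℝ) : ℕ → T := fun i => ((r / (p : ℝ) ^ i : ℝ) : T)

/-- The ambient space of the arcs. -/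
abbrev Om : Type := ℝ × (ℕ → ℕ → T)

/-- A family of functions whose zero sets are blown up. -/
structure Dfam (d : ℕ → Om → ℝ) : Prop where
  cont : ∀ j, Continuous (d j)
  dep : ∀ j x y, x.1 = y.1 → (∀ i < j, x.2 i = y.2 i) → d j x = d j y
  sep : ∀ (c : Om) (U : Set Om), U ∈ 𝓝 c → ∃ j, d j c < 0 ∧ ∀ x, d j x ≤ 0 → x ∈ U

/-- The blown up arc. -/
def Arc (d : ℕ → Om → ℝ) (pr : ℕ → ℕ) : Set Om :=
  {x | |x.1| ≤ 1 ∧ ∀ j, x.2 j ∈ Sol (pr j) ∧ (d j x = 0 ∨ x.2 j = iota (pr j) (d j x)⁻¹)}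

open Classical in
/-- Coefficient at `c` of the atomic measure `∑ t j • δ (P j)`. -/
noncomputable def ms {α : Type} [AddCommMonoid α] {m : ℕ} (t : Fin m → α) (P : Fin m → Om)
    (c : Om) : α := ∑ j, if P j = c then t j else 0

/-- Index of an arc: site, variable, marginal. -/
abbrev Ix : Type := ℕ × Fin 3 × Fin 3

/-- Configurations. -/
abbrev Cf : Type := Ix → Om

/-- Pairwise different primes. -/
noncomputable def prm (β : Ix) (j : ℕ) : ℕ := Nat.nth Nat.Prime (Encodable.encode (β, j))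

theorem prm_prime (β : Ix) (j : ℕ) : (prm β j).Prime := Nat.prime_nth_prime _

theorem prm_inj {β β' : Ix} {j j' : ℕ} (h : prm β j = prm β' j') : β = β' ∧ j = j' := by
  have h1 := Encodable.encode_injective (Nat.nth_injective Nat.infinite_setOfPred_prime h)
  exact ⟨congrArg Prod.fst h1, congrArg Prod.snd h1⟩

/-- The compact set of generators. -/
def KK (d : ℕ → Om → ℝ) : Set Cf :=
  {a | (∀ β, a β ∈ Arc d (prm β)) ∧ ∀ n v, ∑ i, (a (n, v, i)).1 = 0}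

/-- Enumeration of the coordinates. -/
noncomputable def cod : ℕ ≃ ℕ ⊕ (Ix × ℕ) := Classical.choice nonempty_equiv_of_countable

/-- The position of the `n`-th main coordinate. -/
noncomputable def ph (n : ℕ) : ℕ := cod.symm (Sum.inl n)

/-- The sequence attached to a configuration. -/
noncomputable def ee (d : ℕ → Om → ℝ) (a : Cf) : ℕ → ℝ := fun c =>
  Sum.elim (fun n => ∑ v, (a (n, v, 0)).1)
    (fun x : Ix × ℕ => ((c : ℝ) + 1)⁻¹ * min 1 (max 0 (-d x.2 (a x.1)))) (cod c)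

/-- The space `c₀`. -/
abbrev C0 : Type := ZeroAtInftyContinuousMap ℕ ℝ

/-- The underlying sequence. -/
def coeL : C0 →ₗ[ℝ] (ℕ → ℝ) where
  toFun f := f
  map_add' _ _ := rfl
  map_smul' _ _ := rfl

/-- The normed space. -/
noncomputable def XX (d : ℕ → Om → ℝ) : Submodule ℝ C0 :=
  (Submodule.span ℝ (ee d '' KK d)).comap coeL

/-- A representation of `x` with coefficients in `Tau`. -/
def Rep (d : ℕ → Om → ℝ) {m : ℕ} (Tau : Set (Fin m → ℝ)) (x : ℕ → ℝ) (t : Fin m → ℝ)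
    (p : Fin m → Cf) : Prop :=
  t ∈ Tau ∧ (∀ j, p j ∈ KK d) ∧ x = ∑ j, t j • ee d (p j)

/-- A stratum. -/
def YY (d : ℕ → Om → ℝ) {m : ℕ} (Tau : Set (Fin m → ℝ)) : Set C0 :=
  {x | ∃ t p, Rep d Tau x t p}

/-- A small set of coefficient vectors with a fixed pattern of equal subsums. -/
structure Good {m : ℕ} (Tau W : Set (Fin m → ℝ)) (g G : ℝ) : Prop where
  gpos : 0 < g
  cpt : IsCompact Tau
  sub : Tau ⊆ W
  pat : ∀ t ∈ Tau, ∀ t' ∈ Tau, ∀ A A' : Finset (Fin m), ∑ j ∈ A, t j = ∑ j ∈ A', t' j →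
    ∀ s ∈ W, ∑ j ∈ A, s j = ∑ j ∈ A', s j
  gap : ∀ A : Finset (Fin m), (∀ t ∈ Tau, ∑ j ∈ A, t j = 0) ∨
    ∀ t ∈ Tau, g ≤ |∑ j ∈ A, t j| ∧ |∑ j ∈ A, t j| ≤ G
  rat : ∀ c : Fin m → ℝ,
    (∀ ψ : Fin m → ℤ, (fun j => (ψ j : ℝ)) ∈ W → ∑ j, (ψ j : ℝ) * c j = 0) →
    ∀ t ∈ W, ∑ j, t j * c j = 0

/-- Keep the slots of variable `v`, put `o` elsewhere. -/
def slot (o : Cf) (v : Fin 3) (a : Cf) : Cf := fun β => if β.2.1 = v then a β else o β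

open Classical in
/-- The point of the space given by the slots of variable `v`. -/
noncomputable def xv (d : ℕ → Om → ℝ) (o : Cf) (v : Fin 3) (a : Cf) : XX d :=
  if h : ∃ x : XX d, ((x : C0) : ℕ → ℝ) = ee d (slot o v a) then h.choose else 0

/-- Kill the solenoid coordinates from `l` on. -/
def tr (l : ℕ) (x : Om) : Om := (x.1, fun j => if j < l then x.2 j else 0)

/-- The arc after `l` blow-ups. -/
def ArcL (d : ℕ → Om → ℝ) (pr : ℕ → ℕ) (l : ℕ) : Set Om :=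
  {x | |x.1| ≤ 1 ∧
    (∀ j < l, x.2 j ∈ Sol (pr j) ∧ (d j x = 0 ∨ x.2 j = iota (pr j) (d j x)⁻¹)) ∧
    ∀ j, l ≤ j → x.2 j = 0}

/-- Parameters with moving sites in `[n0, N)`. -/
def Zf (d : ℕ → Om → ℝ) (u : Cf) (n0 : ℕ) (δ : ℝ) (lo hi : Fin 3 → ℝ) (N : ℕ) :
    Set ((Fin 3 → ℝ) × Cf) :=
  {z | z.1 ∈ Icc lo hi ∧ z.2 ∈ KK d ∧ (∀ β : Ix, β.1 < n0 ∨ N ≤ β.1 → z.2 β = u β) ∧
    ∀ n v, n0 ≤ n → |(z.2 (n, v, 0)).1| ≤ δ ∧ |(z.2 (n, v, 1)).1| ≤ δ}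

/-- The local situation given by the Baire category theorem, without the Hilbert space. -/
structure Loc (d : ℕ → Om → ℝ) {m : ℕ} (Tau : Set (Fin m → ℝ)) (u : Cf) (n0 : ℕ) (δ : ℝ)
    (lo hi : Fin 3 → ℝ) (Ψ : (Fin 3 → ℝ) × Cf → ℕ → ℝ) : Prop where
  umem : u ∈ KK d
  uzero : ∀ β : Ix, n0 ≤ β.1 → (u β).1 = 0
  dpos : 0 < δ
  dle : δ ≤ 1 / 2
  lohi : ∀ v, lo v < hi v
  cont : ∀ N, ContinuousOn Ψ (Zf d u n0 δ lo hi N)
  rep : ∀ N, ∀ z ∈ Zf d u n0 δ lo hi N, ∃ t p, Rep d Tau (Ψ z) t p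

/-- A piece of the parameter space over a set `Q` of base values. -/
def Pc (d : ℕ → Om → ℝ) (u : Cf) (Ξ : Finset Ix) (Q : Set ((Fin 3 → ℝ) × (Ix → ℝ))) :
    Set ((Fin 3 → ℝ) × Cf) :=
  {z | (z.1, fun β => (z.2 β).1) ∈ Q ∧ (∀ β ∈ Ξ, z.2 β ∈ Arc d (prm β)) ∧ ∀ β ∉ Ξ, z.2 β = u β}

/-- The asymptotic situation in the target space. -/
structure Asy (H : Type*) [NormedAddCommGroup H] [NormedSpace ℝ H] where
  lo : Fin 3 → ℝ
  hi : Fin 3 → ℝ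
  δ : ℝ
  g : ℝ
  G : ℝ
  B : ℝ
  y : ℕ → Fin 3 → Cf → ℝ
  M : Fin 3 → Finset ℕ → Set Cf
  pt : Cf
  J : Fin 3 → Cf → H
  lam : (Fin 3 → ℝ) → (Fin 3 → Cf) → Fin 3 → ℝ
  lohi : ∀ v, lo v < hi v
  sne : ∀ s ∈ Icc lo hi, ∀ v, s v ≠ 0
  dpos : 0 < δ
  gpos : 0 < g
  ycont : ∀ n v, Continuous (y n v)
  Mcpt : ∀ v S, IsCompact (M v S)
  Mconn : ∀ v S, IsConnected (M v S)
  Mempty : ∀ v, M v ∅ = {pt}
  yeq : ∀ v S, ∀ a ∈ M v S, ∀ n ∈ S, ∀ n' ∈ S, y n v a = y n' v a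
  yzero : ∀ v S, ∀ a ∈ M v S, ∀ n ∉ S, y n v a = 0
  yle : ∀ v S, ∀ a ∈ M v S, ∀ n, |y n v a| ≤ δ
  ysur : ∀ v S r, |r| ≤ δ → ∃ a ∈ M v S, ∀ n ∈ S, y n v a = r
  Jle : ∀ v S, ∀ a ∈ M v S, ‖J v a‖ ≤ B
  lcont : ∀ (S : Fin 3 → Finset ℕ) (v : Fin 3),
    ContinuousOn (fun z : (Fin 3 → ℝ) × (Fin 3 → Cf) => lam z.1 z.2 v)
      (Icc lo hi ×ˢ Set.pi univ fun w => M w (S w))
  lbd : ∀ s ∈ Icc lo hi, ∀ (S : Fin 3 → Finset ℕ) (c : Fin 3 → Cf), (∀ w, c w ∈ M w (S w)) →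
    ∀ v, g ≤ |lam s c v| ∧ |lam s c v| ≤ G
  cl : ∀ (U : Ultrafilter ℕ) (s : ℕ → Fin 3 → ℝ) (S : ℕ → Fin 3 → Finset ℕ)
    (c : ℕ → Fin 3 → Cf), (∀ k, s k ∈ Icc lo hi) → (∀ k w, c k w ∈ M w (S k w)) →
    (∀ k n, ∑ v, lam (s k) (c k) v * y n v (c k v) = 0) →
    ∃ x : H, Tendsto (fun k => ∑ v, s k v • J v (c k v)) U (𝓝 x)
  cv : ∀ (U : Ultrafilter ℕ) (s : ℕ → Fin 3 → ℝ) (S : ℕ → Fin 3 → Finset ℕ)
    (c : ℕ → Fin 3 → Cf) (n : ℕ → ℕ) (x : H), (∀ k, s k ∈ Icc lo hi) →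
    (∀ k w, c k w ∈ M w (S k w)) → Tendsto n U atTop →
    Tendsto (fun k => ∑ v, s k v • J v (c k v)) U (𝓝 x) →
    Tendsto (fun k => ∑ v, lam (s k) (c k) v * y (n k) v (c k v)) U (𝓝 0)

end Pool.Agent.P.MP_5aae23_gt.Nsh
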