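import Pool.Agent.P.MP_5aae23_gt.ND3

open Set Filter Topology Function

namespace Pool.Agent.P.MP_5aae23_gt.Nsh

variable {d : ℕ → Om → ℝ} {u : Cf} {Ξ : Finset Ix} {Q : Set ((Fin 3 → ℝ) × (Ix → ℝ))}

/-- The base values of a parameter. -/
def bsv (z : (Fin 3 → ℝ) × Cf) : (Fin 3 → ℝ) × (Ix → ℝ) := (z.1, fun β => (z.2 β).1)

theorem bsv_cont : Continuous bsv :=
  continuous_fst.prodMk (continuous_pi fun β =>
    continuous_fst.comp ((continuous_apply β).comp continuous_snd))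

/-- A finite product of sets, frozen at `u` off `Ξ`. -/
def Bx (s : Fin 3 → ℝ) (u : Cf) (F : Ix → Set Om) (Ξ : Finset Ix) : Set ((Fin 3 → ℝ) × Cf) :=
  {z | z.1 = s ∧ (∀ β ∈ Ξ, z.2 β ∈ F β) ∧ ∀ β ∉ Ξ, z.2 β = u β}

theorem bx_eq (s : Fin 3 → ℝ) (u : Cf) (F : Ix → Set Om) (Ξ : Finset Ix) :
    Bx s u F Ξ = {s} ×ˢ Set.pi univ fun β => if β ∈ Ξ then F β else {u β} := by
  ext z
  simp only [Bx, mem_ofPred_eq, mem_prod, mem_singleton_iff, Set.mem_pi, mem_univ, true_imp_iff]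
  refine and_congr Iff.rfl ⟨fun h β => ?_, fun h => ⟨fun β hβ => ?_, fun β hβ => ?_⟩⟩
  · by_cases hβ : β ∈ Ξ
    · rw [if_pos hβ]
      exact h.1 β hβ
    · rw [if_neg hβ]
      exact h.2 β hβ
  · have := h β
    rwa [if_pos hβ] at this
  · have := h β
    rwa [if_neg hβ] at this

theorem bx_compact (s : Fin 3 → ℝ) (u : Cf) {F : Ix → Set Om} {Ξ : Finset Ix}
    (hF : ∀ β ∈ Ξ, IsCompact (F β)) : IsCompact (Bx s u F Ξ) := by
  rw [bx_eq]
  refine isCompact_singleton.prod (isCompact_univ_pi fun β => ?_)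
  by_cases hβ : β ∈ Ξ
  · rw [if_pos hβ]
    exact hF β hβ
  · rw [if_neg hβ]
    exact isCompact_singleton

theorem bx_conn (s : Fin 3 → ℝ) (u : Cf) {F : Ix → Set Om} {Ξ : Finset Ix}
    (hF : ∀ β ∈ Ξ, IsPreconnected (F β)) : IsPreconnected (Bx s u F Ξ) := by
  rw [bx_eq]
  refine isPreconnected_singleton.prod (isPreconnected_univ_pi fun β => ?_)
  by_cases hβ : β ∈ Ξ
  · rw [if_pos hβ]
    exact hF β hβ
  · rw [if_neg hβ]
    exact isPreconnected_singleton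

theorem bx_np (s : Fin 3 → ℝ) (u : Cf) {F : Ix → Set Om} {p : ℕ} (hp : p ≠ 0) (Ξ : Finset Ix)
    (hK : ∀ β ∈ Ξ, IsCompact (F β)) (hC : ∀ β ∈ Ξ, IsConnected (F β))
    (hN : ∀ β ∈ Ξ, NP p (F β)) : NP p (Bx s u F Ξ) := by
  induction Ξ using Finset.induction_on with
  | empty =>
    have : Subsingleton ↥(Bx s u F ∅) := by
      refine (Set.subsingleton_coe _).2 fun x hx y hy => Prod.ext ?_ (funext fun β => ?_)
      · rw [hx.1, hy.1]
      · rw [hx.2.2 β (Finset.notMem_empty β), hy.2.2 β (Finset.notMem_empty β)]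
    exact np_subsingleton p
  | insert γ Ξ hγ ih =>
    have hne : ∀ β ∈ Ξ, β ≠ γ := fun β hβ e => hγ (e ▸ hβ)
    let e : ((Fin 3 → ℝ) × Cf) → Om → (Fin 3 → ℝ) × Cf := fun y c => (y.1, update y.2 γ c)
    have he : ∀ y, Continuous (e y) := fun y =>
      continuous_const.prodMk (continuous_const.update γ continuous_id)
    have hf : Continuous fun z => e z (u γ) :=
      continuous_fst.prodMk (continuous_snd.update γ continuous_const)
    have hfib : ∀ y ∈ Bx s u F Ξ,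
        Bx s u F (insert γ Ξ) ∩ (fun z => e z (u γ)) ⁻¹' {y} = e y '' F γ := by
      intro y hy
      ext z
      constructor
      · rintro ⟨hz, h⟩
        have h' : e z (u γ) = y := h
        refine ⟨z.2 γ, hz.2.1 γ (Finset.mem_insert_self _ _), ?_⟩
        rw [← h']
        simp [e]
      · rintro ⟨c, hc, rfl⟩
        refine ⟨⟨hy.1, fun β hβ => ?_, fun β hβ => ?_⟩, ?_⟩
        · rcases Finset.mem_insert.1 hβ with rfl | h1
          · simpa [e] using hc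
          · simpa [e, update_of_ne (hne β h1)] using hy.2.1 β h1
        · rw [Finset.mem_insert, not_or] at hβ
          simpa [e, update_of_ne hβ.1] using hy.2.2 β hβ.2
        · show e (e y c) (u γ) = y
          rw [← hy.2.2 γ hγ]
          simp [e]
    have hγ' := Finset.mem_insert_self γ Ξ
    refine np_set (S := Bx s u F Ξ) (bx_compact s u hK) (fun z => e z (u γ)) hf ?_
      (fun y hy => ?_) hp
      (ih (fun β hβ => hK β (Finset.mem_insert_of_mem hβ))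
        (fun β hβ => hC β (Finset.mem_insert_of_mem hβ))
        fun β hβ => hN β (Finset.mem_insert_of_mem hβ)) fun y hy => ?_
    · ext y
      constructor
      · rintro ⟨z, hz, rfl⟩
        refine ⟨hz.1, fun β hβ => ?_, fun β hβ => ?_⟩
        · simpa [e, update_of_ne (hne β hβ)] using hz.2.1 β (Finset.mem_insert_of_mem hβ)
        · by_cases h1 : β = γ
          · subst h1
            simp [e]
          · simpa [e, update_of_ne h1] using
              hz.2.2 β fun h2 => (Finset.mem_insert.1 h2).elim h1 hβ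
      · intro hy
        obtain ⟨c, hc⟩ := (hC γ hγ').nonempty
        have h1 : e y c ∈ e y '' F γ := mem_image_of_mem _ hc
        rw [← hfib y hy] at h1
        exact ⟨e y c, h1.1, h1.2⟩
    · rw [hfib y hy]
      exact (hC γ hγ').isPreconnected.image _ (he y).continuousOn
    · rw [hfib y hy]
      exact np_image (hN γ hγ') _ (he y) (fun z => z.2 γ)
        ((continuous_apply γ).comp continuous_snd) fun c => by simp [e]

theorem pc_compact (hd : Dfam d) (hQ : IsCompact Q) : IsCompact (Pc d u Ξ Q) := by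
  have h1 : IsCompact ((Prod.fst '' Q) ×ˢ
      Set.pi univ fun β => if β ∈ Ξ then Arc d (prm β) else {u β}) := by
    refine (hQ.image continuous_fst).prod (isCompact_univ_pi fun β => ?_)
    by_cases hβ : β ∈ Ξ
    · rw [if_pos hβ]
      exact arc_compact hd _
    · rw [if_neg hβ]
      exact isCompact_singleton
  have h2 : Pc d u Ξ Q = ((Prod.fst '' Q) ×ˢ
      Set.pi univ fun β => if β ∈ Ξ then Arc d (prm β) else {u β}) ∩ bsv ⁻¹' Q := by
    ext z
    constructor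
    · intro hz
      refine ⟨⟨⟨bsv z, hz.1, rfl⟩, fun β _ => ?_⟩, hz.1⟩
      by_cases hβ : β ∈ Ξ
      · simp only [if_pos hβ]
        exact hz.2.1 β hβ
      · simp only [if_neg hβ]
        exact hz.2.2 β hβ
    · rintro ⟨⟨-, h⟩, hz⟩
      refine ⟨hz, fun β hβ => ?_, fun β hβ => ?_⟩
      · have := h β (mem_univ β)
        simpa only [if_pos hβ] using this
      · have := h β (mem_univ β)
        simpa only [if_neg hβ, mem_singleton_iff] using this
  rw [h2]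
  exact h1.inter_right (hQ.isClosed.preimage bsv_cont)

theorem pc_surj (hd : Dfam d)
    (hb : ∀ w ∈ Q, (∀ β ∈ Ξ, |w.2 β| ≤ 1) ∧ ∀ β ∉ Ξ, w.2 β = (u β).1) :
    ∀ w ∈ Q, ∃ z ∈ Pc d u Ξ Q, z.1 = w.1 ∧ ∀ β, (z.2 β).1 = w.2 β := by
  intro w hw
  have h1 : ∀ β, ∃ a : Om, a.1 = w.2 β ∧ (β ∈ Ξ → a ∈ Arc d (prm β)) ∧ (β ∉ Ξ → a = u β) := by
    intro β
    by_cases hβ : β ∈ Ξ
    · obtain ⟨a, ha, h⟩ := (fib_conn hd (fun j => (prm_prime β j).ne_zero) (w.2 β)
        ((hb w hw).1 β hβ)).nonempty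
      exact ⟨a, h, fun _ => ha, fun h2 => absurd hβ h2⟩
    · exact ⟨u β, ((hb w hw).2 β hβ).symm, fun h2 => absurd h2 hβ, fun _ => rfl⟩
  choose a ha using h1
  refine ⟨(w.1, a), ⟨?_, fun β => (ha β).2.1, fun β => (ha β).2.2⟩, rfl, fun β => (ha β).1⟩
  have h2 : (fun β => (a β).1) = w.2 := funext fun β => (ha β).1
  show (w.1, fun β => (a β).1) ∈ Q
  rw [h2]
  exact hw

theorem pc_im (hd : Dfam d)
    (hb : ∀ w ∈ Q, (∀ β ∈ Ξ, |w.2 β| ≤ 1) ∧ ∀ β ∉ Ξ, w.2 β = (u β).1) :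
    bsv '' Pc d u Ξ Q = Q := by
  ext w
  constructor
  · rintro ⟨z, hz, rfl⟩
    exact hz.1
  · intro hw
    obtain ⟨z, hz, h1, h2⟩ := pc_surj hd hb w hw
    exact ⟨z, hz, Prod.ext h1 (funext h2)⟩

theorem pc_fib (hb : ∀ w ∈ Q, (∀ β ∈ Ξ, |w.2 β| ≤ 1) ∧ ∀ β ∉ Ξ, w.2 β = (u β).1)
    {w : (Fin 3 → ℝ) × (Ix → ℝ)} (hw : w ∈ Q) :
    Pc d u Ξ Q ∩ bsv ⁻¹' {w} = Bx w.1 u (fun β => Arc d (prm β) ∩ {x | x.1 = w.2 β}) Ξ := by
  ext z
  constructor
  · rintro ⟨hz, h⟩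
    have h' : bsv z = w := h
    subst h'
    exact ⟨rfl, fun β hβ => ⟨hz.2.1 β hβ, rfl⟩, hz.2.2⟩
  · intro hz
    have h' : bsv z = w := by
      refine Prod.ext hz.1 (funext fun β => ?_)
      by_cases hβ : β ∈ Ξ
      · exact (hz.2.1 β hβ).2
      · show (z.2 β).1 = w.2 β
        rw [hz.2.2 β hβ, (hb w hw).2 β hβ]
    refine ⟨⟨?_, fun β hβ => (hz.2.1 β hβ).1, hz.2.2⟩, h'⟩
    show bsv z ∈ Q
    rw [h']
    exact hw

theorem pc_conn (hd : Dfam d) (hQ : IsCompact Q) (hc : Convex ℝ Q)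
    (hb : ∀ w ∈ Q, (∀ β ∈ Ξ, |w.2 β| ≤ 1) ∧ ∀ β ∉ Ξ, w.2 β = (u β).1) :
    IsPreconnected (Pc d u Ξ Q) := by
  refine conn_set (pc_compact hd hQ) bsv bsv_cont (pc_im hd hb) (fun w hw => ?_)
    hc.isPreconnected
  rw [pc_fib hb hw]
  exact bx_conn _ _ fun β hβ => (fib_conn hd (fun j => (prm_prime β j).ne_zero) _
    ((hb w hw).1 β hβ)).isPreconnected

theorem pc_np (hd : Dfam d) (hQ : IsCompact Q) (hc : Convex ℝ Q)
    (hb : ∀ w ∈ Q, (∀ β ∈ Ξ, |w.2 β| ≤ 1) ∧ ∀ β ∉ Ξ, w.2 β = (u β).1) {p : ℕ} (hp : p.Prime)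
    (h : ∀ w ∈ Q, ∀ β ∈ Ξ, ∀ j, prm β j = p → ∀ a ∈ Arc d (prm β), a.1 = w.2 β → d j a ≠ 0) :
    NP p (Pc d u Ξ Q) := by
  refine np_set (pc_compact hd hQ) bsv bsv_cont (pc_im hd hb) (fun w hw => ?_) hp.ne_zero
    (fun v hv _ => null_convex hc (v 0) (hv 0)) fun w hw => ?_
  · rw [pc_fib hb hw]
    exact bx_conn _ _ fun β hβ => (fib_conn hd (fun j => (prm_prime β j).ne_zero) _
      ((hb w hw).1 β hβ)).isPreconnected
  · rw [pc_fib hb hw]
    exact bx_np _ _ hp.ne_zero Ξ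
      (fun β _ => (arc_compact hd _).inter_right (isClosed_eq continuous_fst continuous_const))
      (fun β hβ => fib_conn hd (fun j => (prm_prime β j).ne_zero) _ ((hb w hw).1 β hβ))
      fun β hβ => fib_np hd (prm_prime β) hp _ ((hb w hw).1 β hβ) (h w hw β hβ)

end Pool.Agent.P.MP_5aae23_gt.Nsh
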