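import Pool.Agent.P.MP_5aae23_gt.NE
import Pool.Agent.P.MP_5aae23_gt.NG
import Pool.Agent.P.MP_5aae23_gt.NH

open Set Filter Topology Function

namespace Pool.Agent.P.MP_5aae23_gt.Nsh

variable {d : ℕ → Om → ℝ} {m : ℕ} {Tau W : Set (Fin m → ℝ)} {g G : ℝ} {u : Cf} {n0 : ℕ} {δ : ℝ}
  {lo hi : Fin 3 → ℝ} {Ψ : (Fin 3 → ℝ) × Cf → ℕ → ℝ}

/-- The moving arcs. -/
def niXi (n0 N : ℕ) : Finset Ix := Finset.Ico n0 N ×ˢ Finset.univ

theorem ni_mem_xi {n0 N : ℕ} {β : Ix} : β ∈ niXi n0 N ↔ n0 ≤ β.1 ∧ β.1 < N := by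
  simp [niXi]

/-- The convex set of base values. -/
def niQ (u : Cf) (n0 : ℕ) (δ : ℝ) (lo hi : Fin 3 → ℝ) (N : ℕ) (β : Ix) (q q' : ℝ) :
    Set ((Fin 3 → ℝ) × (Ix → ℝ)) :=
  (Icc lo hi ×ˢ Set.pi univ fun _ : Ix => Icc (-1 : ℝ) 1) ∩
    {w | (∀ β' : Ix, β' ∉ niXi n0 N → w.2 β' = (u β').1) ∧ (∀ n v, ∑ i, w.2 (n, v, i) = 0) ∧
      (∀ n v, n0 ≤ n → w.2 (n, v, 0) ∈ Icc (-δ) δ ∧ w.2 (n, v, 1) ∈ Icc (-δ) δ) ∧
      w.2 β ∈ Icc q q'}

theorem niQ_compact (N : ℕ) (β : Ix) (q q' : ℝ) : IsCompact (niQ u n0 δ lo hi N β q q') := by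
  refine IsCompact.inter_right (isCompact_Icc.prod (isCompact_univ_pi fun _ => isCompact_Icc)) ?_
  have hc : ∀ β' : Ix, Continuous fun w : (Fin 3 → ℝ) × (Ix → ℝ) => w.2 β' := fun β' =>
    (continuous_apply β').comp continuous_snd
  simp only [ofPred_and, ofPred_forall]
  refine IsClosed.inter (isClosed_iInter fun β' => isClosed_iInter fun _ =>
    isClosed_eq (hc β') continuous_const) (IsClosed.inter (isClosed_iInter fun n =>
      isClosed_iInter fun v => isClosed_eq (continuous_finsetSum _ fun i _ => hc _)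
        continuous_const) (IsClosed.inter (isClosed_iInter fun n => isClosed_iInter fun v =>
          isClosed_iInter fun _ => IsClosed.inter ?_ ?_) ?_))
  · exact isClosed_Icc.preimage (hc _)
  · exact isClosed_Icc.preimage (hc _)
  · exact isClosed_Icc.preimage (hc _)

theorem niQ_convex (N : ℕ) (β : Ix) (q q' : ℝ) : Convex ℝ (niQ u n0 δ lo hi N β q q') := by
  refine Convex.inter ((convex_Icc _ _).prod (convex_pi fun _ _ => convex_Icc _ _)) ?_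
  intro w hw w' hw' a b ha hb hab
  obtain ⟨h1, h2, h3, h4⟩ := hw
  obtain ⟨k1, k2, k3, k4⟩ := hw'
  refine ⟨fun β' hβ' => ?_, fun n v => ?_, fun n v hn => ⟨?_, ?_⟩, ?_⟩
  · show a * w.2 β' + b * w'.2 β' = _
    rw [h1 β' hβ', k1 β' hβ', ← add_mul, hab, one_mul]
  · show ∑ i, (a * w.2 (n, v, i) + b * w'.2 (n, v, i)) = 0
    rw [Finset.sum_add_distrib, ← Finset.mul_sum, ← Finset.mul_sum, h2, k2]
    simp
  · exact convex_Icc _ _ (h3 n v hn).1 (k3 n v hn).1 ha hb hab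
  · exact convex_Icc _ _ (h3 n v hn).2 (k3 n v hn).2 ha hb hab
  · exact convex_Icc _ _ h4 k4 ha hb hab

theorem niQ_bd {N : ℕ} {β : Ix} {q q' : ℝ} : ∀ w ∈ niQ u n0 δ lo hi N β q q',
    (∀ β' ∈ niXi n0 N, |w.2 β'| ≤ 1) ∧ ∀ β' ∉ niXi n0 N, w.2 β' = (u β').1 :=
  fun _ hw => ⟨fun β' _ => abs_le.2 (hw.1.2 β' (mem_univ _)), hw.2.1⟩

theorem ni_pc_sub (hu : u ∈ KK d) {N : ℕ} {β : Ix} {q q' : ℝ} :
    Pc d u (niXi n0 N) (niQ u n0 δ lo hi N β q q') ⊆ Zf d u n0 δ lo hi N := by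
  rintro z ⟨⟨h0, -, h2, h3, -⟩, h5, h6⟩
  refine ⟨h0.1, ⟨fun β' => ?_, h2⟩, fun β' hβ' => h6 β' fun h => ?_, fun n v hn =>
    ⟨abs_le.2 (h3 n v hn).1, abs_le.2 (h3 n v hn).2⟩⟩
  · by_cases h : β' ∈ niXi n0 N
    · exact h5 β' h
    · rw [h6 β' h]
      exact hu.1 β'
  · have := ni_mem_xi.1 h
    omega

theorem ni_mem_pc {N : ℕ} {β : Ix} {q q' : ℝ} {z : (Fin 3 → ℝ) × Cf}
    (hz : z ∈ Zf d u n0 δ lo hi N) (hy : (z.2 β).1 ∈ Icc q q') :
    z ∈ Pc d u (niXi n0 N) (niQ u n0 δ lo hi N β q q') := by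
  obtain ⟨h0, h1, h2, h3⟩ := hz
  have h4 : ∀ β' ∉ niXi n0 N, z.2 β' = u β' := fun β' h => h2 β' (by
    rw [ni_mem_xi] at h
    omega)
  refine ⟨⟨⟨h0, fun β' _ => abs_le.1 (h1.1 β').1⟩, fun β' h => ?_, h1.2, fun n v hn =>
    ⟨abs_le.1 (h3 n v hn).1, abs_le.1 (h3 n v hn).2⟩, hy⟩, fun β' _ => h1.1 β', h4⟩
  show (z.2 β').1 = _
  rw [h4 β' h]

theorem ni_cons_int (hd : Dfam d) (hG : Good Tau W g G) (ψ : Fin m → ℤ)
    (hψ : (fun j => (ψ j : ℝ)) ∈ W) {x : ℕ → ℝ} {t t' : Fin m → ℝ} {p p' : Fin m → Cf}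
    (h : Rep d Tau x t p) (h' : Rep d Tau x t' p') (β : Ix) (c : Om) :
    ms ψ (fun j => p j β) c = ms ψ (fun j => p' j β) c := by
  classical
  have h1 := cons hd h h' β c
  unfold ms at h1 ⊢
  rw [← Finset.sum_filter, ← Finset.sum_filter] at h1 ⊢
  have h2 := hG.pat t h.1 t' h'.1 _ _ h1 _ hψ
  exact_mod_cast h2

theorem nf_alpha (hd : Dfam d) (hG : Good Tau W g G) (hL : Loc d Tau u n0 δ lo hi Ψ)
    (ψ : Fin m → ℤ) (hψ : (fun j => (ψ j : ℝ)) ∈ W) (β : Ix) (hβ : n0 ≤ β.1) {N : ℕ}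
    {z z' : (Fin 3 → ℝ) × Cf} (hz : z ∈ Zf d u n0 δ lo hi N) (hz' : z' ∈ Zf d u n0 δ lo hi N)
    {t t' : Fin m → ℝ} {p p' : Fin m → Cf} (hr : Rep d Tau (Ψ z) t p)
    (hr' : Rep d Tau (Ψ z') t' p') {q q' : ℝ} (hy : (z.2 β).1 ∈ Icc q q')
    (hy' : (z'.2 β).1 ∈ Icc q q') (c : Om) (hc : c.1 ∉ Icc q q') :
    ms ψ (fun j => p j β) c = ms ψ (fun j => p' j β) c := by
  have _ := hβ
  set D : Set ((Fin 3 → ℝ) × Cf) := Pc d u (niXi n0 N) (niQ u n0 δ lo hi N β q q') with hD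
  have hsub : D ⊆ Zf d u n0 δ lo hi N := ni_pc_sub hL.umem
  have : CompactSpace D := isCompact_iff_compactSpace.1 (pc_compact hd (niQ_compact N β q q'))
  have : PreconnectedSpace D := isPreconnected_iff_preconnectedSpace.1
    (pc_conn hd (niQ_compact N β q q') (niQ_convex N β q q') niQ_bd)
  have hΨ : Continuous fun x : D => Ψ x :=
    continuousOn_iff_continuous_domRestrict.1 ((hL.cont N).mono hsub)
  let R : Set (D × (Fin m → ℝ) × (Fin m → Cf)) := {x | Rep d Tau (Ψ x.1) x.2.1 x.2.2}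
  have hR : IsCompact R := by
    have h1 : IsCompact ((univ : Set D) ×ˢ Tau ×ˢ Set.pi univ fun _ : Fin m => KK d) :=
      isCompact_univ.prod (hG.cpt.prod (isCompact_univ_pi fun _ => kk_compact hd))
    have h2 : IsClosed {x : D × (Fin m → ℝ) × (Fin m → Cf) |
        Ψ x.1 = ∑ j, x.2.1 j • ee d (x.2.2 j)} := by
      refine isClosed_eq (hΨ.comp continuous_fst) (continuous_finsetSum _ fun j _ => ?_)
      exact ((continuous_apply j).comp (continuous_fst.comp continuous_snd)).smul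
        ((ee_cont hd).comp ((continuous_apply j).comp (continuous_snd.comp continuous_snd)))
    have h3 : R = ((univ : Set D) ×ˢ Tau ×ˢ Set.pi univ fun _ : Fin m => KK d) ∩
        {x | Ψ x.1 = ∑ j, x.2.1 j • ee d (x.2.2 j)} := by
      ext x
      exact ⟨fun h => ⟨⟨mem_univ _, h.1, fun j _ => h.2.1 j⟩, h.2.2⟩,
        fun h => ⟨h.1.2.1, fun j => h.1.2.2 j (mem_univ _), h.2⟩⟩
    rw [h3]
    exact h1.inter_right h2
  have : CompactSpace R := isCompact_iff_compactSpace.1 hR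
  have hW : IsOpen {c : Om | c.1 ∉ Icc q q'} :=
    (isClosed_Icc.preimage continuous_fst).isOpen_compl
  have key := rig hd (prm_prime β) (D := D) (R := R) (fun r => r.1.1)
    (continuous_fst.comp continuous_subtype_val)
    (fun x => by
      obtain ⟨t1, p1, h1⟩ := hL.rep N x.1 (hsub x.2)
      exact ⟨⟨(x, t1, p1), h1⟩, rfl⟩)
    (fun r j => r.1.2.2 j β)
    (continuous_pi fun j => (continuous_apply β).comp ((continuous_apply j).comp
      (continuous_snd.comp (continuous_snd.comp continuous_subtype_val))))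
    (fun r j => (r.2.2.1 j).1 β) ψ
    (fun r r' h c => by
      have h1 : Rep d Tau (Ψ r.1.1) r.1.2.1 r.1.2.2 := r.2
      have h2 : Rep d Tau (Ψ r'.1.1) r'.1.2.1 r'.1.2.2 := r'.2
      have h3 : r.1.1 = r'.1.1 := h
      rw [← h3] at h2
      exact ni_cons_int hd hG ψ hψ h1 h2 β c)
    hW
    (fun j hj => pc_np hd (niQ_compact N β q q') (niQ_convex N β q q') niQ_bd (prm_prime β j)
      fun w hw β' _ j' h a ha haw h0 => by
        obtain ⟨rfl, rfl⟩ := prm_inj h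
        refine hj a ha h0 ?_
        rw [haw]
        exact hw.2.2.2.2)
  exact key ⟨(⟨z, ni_mem_pc hz hy⟩, t, p), hr⟩ ⟨(⟨z', ni_mem_pc hz' hy'⟩, t', p'), hr'⟩ c hc

/-- Any admissible pair of base values occurs at any moving block. -/
theorem zf_surj (hd : Dfam d) (hL : Loc d Tau u n0 δ lo hi Ψ) {n : ℕ} (hn : n0 ≤ n) (v : Fin 3)
    {y0 y1 : ℝ} (h0 : |y0| ≤ δ) (h1 : |y1| ≤ δ) {N : ℕ} (hN : n < N) :
    ∃ z ∈ Zf d u n0 δ lo hi N, (z.2 (n, v, 0)).1 = y0 ∧ (z.2 (n, v, 1)).1 = y1 ∧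
      ∀ β : Ix, (β.1, β.2.1) ≠ (n, v) → z.2 β = u β := by
  classical
  have hδ := hL.dle
  have hy : ∀ i : Fin 3, |(![y0, y1, -y0 - y1] : Fin 3 → ℝ) i| ≤ 1 := by
    rw [abs_le] at h0 h1
    intro i
    fin_cases i <;> simp [abs_le] <;> constructor <;> linarith [h0.1, h0.2, h1.1, h1.2]
  choose a ha using fun i : Fin 3 =>
    (fib_conn hd (fun j => (prm_prime (n, v, i) j).ne_zero) _ (hy i)).nonempty
  have hpos : ∀ i, (if (n, v) = (n, v) then a i else u (n, v, i)) = a i := fun i => if_pos rfl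
  refine ⟨(lo, fun β => if (β.1, β.2.1) = (n, v) then a β.2.2 else u β),
    ⟨⟨le_rfl, fun i => (hL.lohi i).le⟩, ⟨fun β => ?_, fun n' v' => ?_⟩, fun β hβ => ?_,
      fun n' v' hn' => ?_⟩, ?_, ?_, fun β hβ => if_neg hβ⟩
  · by_cases h : (β.1, β.2.1) = (n, v)
    · obtain ⟨n', v', i⟩ := β
      obtain ⟨rfl, rfl⟩ := Prod.mk.inj h
      simpa using (ha i).1
    · simpa only [if_neg h] using hL.umem.1 β
  · by_cases h : (n', v') = (n, v)
    · simp only [if_pos h]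
      rw [Fin.sum_univ_three, (ha 0).2, (ha 1).2, (ha 2).2]
      simp
    · simpa only [if_neg h] using hL.umem.2 n' v'
  · refine if_neg fun h => ?_
    have := (Prod.mk.inj h).1
    omega
  · by_cases h : (n', v') = (n, v)
    · simp only [if_pos h]
      rw [(ha 0).2, (ha 1).2]
      exact ⟨h0, h1⟩
    · simp only [if_neg h]
      rw [hL.uzero _ hn', hL.uzero _ hn', abs_zero]
      exact ⟨hL.dpos.le, hL.dpos.le⟩
  · exact (congrArg Prod.fst (hpos 0)).trans (ha 0).2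
  · exact (congrArg Prod.fst (hpos 1)).trans (ha 1).2

end Pool.Agent.P.MP_5aae23_gt.Nsh
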