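import Pool.Agent.P.MP_5aae23_gt.NI

open Set Filter Topology Function

namespace Pool.Agent.P.MP_5aae23_gt.Nsh

variable {d : ℕ → Om → ℝ} {m : ℕ} {Tau W : Set (Fin m → ℝ)} {g G : ℝ} {u : Cf} {n0 : ℕ} {δ : ℝ}
  {lo hi : Fin 3 → ℝ} {Ψ : (Fin 3 → ℝ) × Cf → ℕ → ℝ}

theorem nj_sum_ms (ψ : Fin m → ℤ) (P : Fin m → Om) (F : Om → ℝ) (s : Finset Om)
    (hs : ∀ j, P j ∈ s) : ∑ j, (ψ j : ℝ) * F (P j) = ∑ c ∈ s, ((ms ψ P c : ℤ) : ℝ) * F c := by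
  classical
  unfold ms
  push_cast
  simp only [Finset.sum_mul]
  rw [Finset.sum_comm]
  refine Finset.sum_congr rfl fun j _ => ?_
  rw [Finset.sum_eq_single (P j)]
  · simp
  · intro c _ hc
    simp [Ne.symm hc]
  · intro h
    exact absurd (hs j) h

theorem nj_ms_int (ψ : Fin m → ℤ) (P P' : Fin m → Om) (F : Om → ℝ)
    (h : ∀ c, F c ≠ 0 → ms ψ P c = ms ψ P' c) :
    ∑ j, (ψ j : ℝ) * F (P j) = ∑ j, (ψ j : ℝ) * F (P' j) := by
  classical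
  rw [nj_sum_ms ψ P F (Finset.univ.image P ∪ Finset.univ.image P') (fun j => by simp),
    nj_sum_ms ψ P' F (Finset.univ.image P ∪ Finset.univ.image P') (fun j => by simp)]
  refine Finset.sum_congr rfl fun c _ => ?_
  by_cases hc : F c = 0
  · rw [hc, mul_zero, mul_zero]
  · rw [h c hc]

/-- A parameter together with representing points of its image. -/
def St (d : ℕ → Om → ℝ) (Tau : Set (Fin m → ℝ)) (u : Cf) (n0 : ℕ) (δ : ℝ) (lo hi : Fin 3 → ℝ)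
    (Ψ : (Fin 3 → ℝ) × Cf → ℕ → ℝ) (z : (Fin 3 → ℝ) × Cf) (p : Fin m → Cf) : Prop :=
  ∃ N t, z ∈ Zf d u n0 δ lo hi N ∧ Rep d Tau (Ψ z) t p

theorem nj_zf_mono {N N' : ℕ} (h : N ≤ N') {z : (Fin 3 → ℝ) × Cf}
    (hz : z ∈ Zf d u n0 δ lo hi N) : z ∈ Zf d u n0 δ lo hi N' :=
  ⟨hz.1, hz.2.1, fun β hβ => hz.2.2.1 β (by omega), hz.2.2.2⟩

theorem nj_alpha (hd : Dfam d) (hG : Good Tau W g G) (hL : Loc d Tau u n0 δ lo hi Ψ)
    {s : Fin m → ℝ} (hs : s ∈ W) {β : Ix} (hβ : n0 ≤ β.1) {z z' : (Fin 3 → ℝ) × Cf}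
    {p p' : Fin m → Cf} (h : St d Tau u n0 δ lo hi Ψ z p) (h' : St d Tau u n0 δ lo hi Ψ z' p')
    {q q' : ℝ} (hy : (z.2 β).1 ∈ Icc q q') (hy' : (z'.2 β).1 ∈ Icc q q') (φ : ℝ → ℝ)
    (hφ : ∀ x ∈ Icc q q', φ x = 0) :
    ∑ j, s j * φ (p j β).1 = ∑ j, s j * φ (p' j β).1 := by
  obtain ⟨N, t, hz, hr⟩ := h
  obtain ⟨N', t', hz', hr'⟩ := h'
  have h1 := hG.rat (fun j => φ (p j β).1 - φ (p' j β).1) (fun ψ hψ => by
    have h2 := nj_ms_int ψ (fun j => p j β) (fun j => p' j β) (fun c => φ c.1) fun c hc =>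
      nf_alpha hd hG hL ψ hψ β hβ (nj_zf_mono (le_max_left N N') hz)
        (nj_zf_mono (le_max_right N N') hz') hr hr' hy hy' c fun h => hc (hφ _ h)
    simp only [mul_sub, Finset.sum_sub_distrib]
    exact sub_eq_zero.2 h2) s hs
  simp only [mul_sub, Finset.sum_sub_distrib] at h1
  exact sub_eq_zero.1 h1

theorem nj_same (hd : Dfam d) (hG : Good Tau W g G) (hL : Loc d Tau u n0 δ lo hi Ψ)
    {s : Fin m → ℝ} (hs : s ∈ W) {β : Ix} (hβ : n0 ≤ β.1) {z z' : (Fin 3 → ℝ) × Cf}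
    {p p' : Fin m → Cf} (h : St d Tau u n0 δ lo hi Ψ z p) (h' : St d Tau u n0 δ lo hi Ψ z' p')
    (hy : (z.2 β).1 = (z'.2 β).1) : ∑ j, s j * (p j β).1 = ∑ j, s j * (p' j β).1 := by
  have h1 := nj_alpha hd hG hL hs hβ h h' (q := (z.2 β).1) (q' := (z.2 β).1) ⟨le_rfl, le_rfl⟩
    ⟨hy.le, hy.ge⟩ (fun x => x - (z.2 β).1) fun x hx => sub_eq_zero.2 (le_antisymm hx.2 hx.1)
  simp only [mul_sub, Finset.sum_sub_distrib] at h1
  linarith

theorem nj_st (hd : Dfam d) (hL : Loc d Tau u n0 δ lo hi Ψ) {n : ℕ} (hn : n0 ≤ n) (v : Fin 3)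
    {y0 y1 : ℝ} (h0 : |y0| ≤ δ) (h1 : |y1| ≤ δ) : ∃ z p, St d Tau u n0 δ lo hi Ψ z p ∧
      (z.2 (n, v, 0)).1 = y0 ∧ (z.2 (n, v, 1)).1 = y1 := by
  obtain ⟨z, hz, k0, k1, -⟩ := zf_surj hd hL hn v h0 h1 (Nat.lt_succ_self n)
  obtain ⟨t, p, hr⟩ := hL.rep _ z hz
  exact ⟨z, p, ⟨_, t, hz, hr⟩, k0, k1⟩

/-- An interval over which all atoms lie over the moving point. -/
theorem nj_gap (hd : Dfam d) (hG : Good Tau W g G) (hL : Loc d Tau u n0 δ lo hi Ψ) {n : ℕ}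
    (hn : n0 ≤ n) (v : Fin 3) : ∃ a b : ℝ, -δ ≤ a ∧ a < b ∧ b ≤ δ ∧ ∀ s ∈ W, ∀ z p,
      St d Tau u n0 δ lo hi Ψ z p → (z.2 (n, v, 1)).1 ∈ Icc a b → ∀ φ : ℝ → ℝ,
        (∀ x ∉ Icc a b, φ x = 0) → φ (z.2 (n, v, 1)).1 = 0 →
        ∑ j, s j * φ (p j (n, v, 1)).1 = 0 := by
  classical
  have hδ := hL.dpos
  obtain ⟨zm, pm, hm, -, hm1⟩ := nj_st hd hL hn v (y0 := 0) (y1 := -δ) (by simpa using hδ.le)
    (by rw [abs_neg, abs_of_pos hδ])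
  obtain ⟨zp, pp, hp, -, hp1⟩ := nj_st hd hL hn v (y0 := 0) (y1 := δ) (by simpa using hδ.le)
    (by rw [abs_of_pos hδ])
  have hF : (range (fun j => (pm j (n, v, 1)).1) ∪ range fun j => (pp j (n, v, 1)).1).Finite :=
    (finite_range _).union (finite_range _)
  obtain ⟨x, hx⟩ := ((Ioo_infinite (show -δ < δ by linarith)).sdiff hF).nonempty
  obtain ⟨a', b', hab, hsub⟩ := mem_nhds_iff_exists_Ioo_subset.1
    ((isOpen_Ioo.sdiff hF.isClosed).mem_nhds hx)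
  have hI : Icc x ((x + b') / 2) ⊆ Ioo a' b' := fun y hy =>
    ⟨lt_of_lt_of_le hab.1 hy.1, lt_of_le_of_lt hy.2 (by linarith [hab.2])⟩
  have hlt : x < (x + b') / 2 := by linarith [hab.2]
  have hb := (hsub (hI ⟨hlt.le, le_rfl⟩)).1.2
  refine ⟨x, (x + b') / 2, hx.1.1.le, hlt, hb.le, fun s hs z p h hy φ h0 h1 => ?_⟩
  have e1 := nj_alpha hd hG hL hs (β := (n, v, 1)) hn h hm (q := -δ) (q' := (z.2 (n, v, 1)).1)
    ⟨by linarith [hx.1.1, hy.1], le_rfl⟩ (by rw [hm1]; exact ⟨le_rfl, by linarith [hx.1.1, hy.1]⟩)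
    (fun y => if (z.2 (n, v, 1)).1 < y then φ y else 0) fun y hy => if_neg (not_lt.2 hy.2)
  have e2 := nj_alpha hd hG hL hs (β := (n, v, 1)) hn h hp (q := (z.2 (n, v, 1)).1) (q' := δ)
    ⟨le_rfl, by linarith [hy.2]⟩ (by rw [hp1]; exact ⟨by linarith [hy.2], le_rfl⟩)
    (fun y => if y < (z.2 (n, v, 1)).1 then φ y else 0) fun y hy => if_neg (not_lt.2 hy.1)
  have z1 : ∀ j, φ (pm j (n, v, 1)).1 = 0 := fun j => h0 _ fun hj =>
    (hsub (hI hj)).2 (Or.inl ⟨j, rfl⟩)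
  have z2 : ∀ j, φ (pp j (n, v, 1)).1 = 0 := fun j => h0 _ fun hj =>
    (hsub (hI hj)).2 (Or.inr ⟨j, rfl⟩)
  simp only [z1, ite_self, mul_zero, Finset.sum_const_zero] at e1
  simp only [z2, ite_self, mul_zero, Finset.sum_const_zero] at e2
  refine Eq.trans ?_ ((congrArg₂ (· + ·) e1 e2).trans (add_zero 0))
  show _ = _ + _
  rw [← Finset.sum_add_distrib]
  refine Finset.sum_congr rfl fun j _ => ?_
  rw [← mul_add]
  congr 1
  rcases lt_trichotomy (p j (n, v, 1)).1 (z.2 (n, v, 1)).1 with h2 | h2 | h2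
  · rw [if_neg h2.not_gt, if_pos h2, zero_add]
  · rw [h2, h1]
    simp
  · rw [if_pos h2, if_neg h2.not_gt, add_zero]

open Classical in
/-- The normal form at one block. -/
theorem nj_block (hd : Dfam d) (hG : Good Tau W g G) (hL : Loc d Tau u n0 δ lo hi Ψ) {n : ℕ}
    (hn : n0 ≤ n) (v : Fin 3) : ∃ (A : Finset (Fin m)) (a : ℝ), |a| ≤ δ ∧ ∀ s ∈ W,
      (∀ z p, St d Tau u n0 δ lo hi Ψ z p → (z.2 (n, v, 1)).1 = a →
        ∑ j ∈ A, s j = ∑ j, if (p j (n, v, 1)).1 = a then s j else 0) ∧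
      ∀ z p z' p', St d Tau u n0 δ lo hi Ψ z p → St d Tau u n0 δ lo hi Ψ z' p' →
        ∑ j, s j * (p j (n, v, 0)).1 - (∑ j ∈ A, s j) * (z.2 (n, v, 0)).1 =
          ∑ j, s j * (p' j (n, v, 0)).1 - (∑ j ∈ A, s j) * (z'.2 (n, v, 0)).1 := by
  obtain ⟨a, b, ha, hab, hb, hgap⟩ := nj_gap hd hG hL hn v
  have hδ := hL.dpos
  have hI : ∀ y ∈ Icc a b, |y| ≤ δ := fun y hy => abs_le.2 ⟨ha.trans hy.1, hy.2.trans hb⟩
  have haI : a ∈ Icc a b := ⟨le_rfl, hab.le⟩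
  obtain ⟨z0, p0, h0, -, hz0⟩ := nj_st hd hL hn v (y0 := 0) (y1 := a) (by simpa using hδ.le)
    (hI a haI)
  refine ⟨Finset.univ.filter fun j => (p0 j (n, v, 1)).1 = a, a, hI a haI, fun s hs => ?_⟩
  set lam := ∑ j ∈ Finset.univ.filter fun j => (p0 j (n, v, 1)).1 = a, s j with hlam
  have m1 : ∀ z p, St d Tau u n0 δ lo hi Ψ z p → (z.2 (n, v, 1)).1 ∈ Icc a b →
      ∑ j, s j * (if (p j (n, v, 1)).1 ∈ Icc a b then (1 : ℝ) else 0) =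
        ∑ j, if (p j (n, v, 1)).1 = (z.2 (n, v, 1)).1 then s j else 0 := by
    intro z p h hy
    have h1 := hgap s hs z p h hy (fun x => (if x ∈ Icc a b then (1 : ℝ) else 0) -
      if x = (z.2 (n, v, 1)).1 then 1 else 0)
      (fun x hx => by rw [if_neg hx, if_neg fun h : x = _ => hx (by rw [h]; exact hy), sub_zero])
      (by rw [if_pos hy, if_pos rfl, sub_self])
    simp only [mul_sub, Finset.sum_sub_distrib] at h1
    rw [sub_eq_zero.1 h1]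
    simp only [mul_ite, mul_one, mul_zero]
  have m2 : ∀ z p, St d Tau u n0 δ lo hi Ψ z p → (z.2 (n, v, 1)).1 ∈ Icc a b →
      ∑ j, s j * (if (p j (n, v, 1)).1 ∈ Icc a b then (1 : ℝ) else 0) = lam := by
    intro z p h hy
    have h1 := nj_alpha hd hG hL hs (β := (n, v, 1)) hn h h0 hy (hz0 ▸ haI)
      (fun x => 1 - if x ∈ Icc a b then (1 : ℝ) else 0) fun x hx => by rw [if_pos hx, sub_self]
    have h2 := m1 z0 p0 h0 (hz0 ▸ haI)
    rw [hz0, ← Finset.sum_filter] at h2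
    simp only [mul_sub, Finset.sum_sub_distrib] at h1
    linarith
  have m3 : ∀ z p, St d Tau u n0 δ lo hi Ψ z p → (z.2 (n, v, 1)).1 ∈ Icc a b →
      ∑ j, s j * (p j (n, v, 1)).1 - lam * (z.2 (n, v, 1)).1 =
        ∑ j, s j * (if (p0 j (n, v, 1)).1 ∈ Icc a b then 0 else (p0 j (n, v, 1)).1) := by
    intro z p h hy
    have h1 := nj_alpha hd hG hL hs (β := (n, v, 1)) hn h h0 hy (hz0 ▸ haI)
      (fun x => if x ∈ Icc a b then 0 else x) fun x hx => if_pos hx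
    have h2 := hgap s hs z p h hy (fun x => if x ∈ Icc a b then x - (z.2 (n, v, 1)).1 else 0)
      (fun x hx => if_neg hx) (by rw [if_pos hy, sub_self])
    rw [← h1, ← m2 z p h hy, Finset.sum_mul, ← Finset.sum_sub_distrib, ← sub_eq_zero,
      ← Finset.sum_sub_distrib]
    refine Eq.trans (Finset.sum_congr rfl fun j _ => ?_) h2
    split_ifs <;> ring
  have m4 : ∀ z p, St d Tau u n0 δ lo hi Ψ z p → ∑ j, s j * (p j (n, v, 0)).1 +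
      ∑ j, s j * (p j (n, v, 1)).1 + ∑ j, s j * (p j (n, v, 2)).1 = 0 ∧
      (z.2 (n, v, 0)).1 + (z.2 (n, v, 1)).1 + (z.2 (n, v, 2)).1 = 0 := by
    rintro z p ⟨N, t, hz, hr⟩
    refine ⟨?_, by simpa only [Fin.sum_univ_three] using hz.2.1.2 n v⟩
    rw [← Finset.sum_add_distrib, ← Finset.sum_add_distrib]
    refine Finset.sum_eq_zero fun j _ => ?_
    have := (hr.2.1 j).2 n v
    rw [Fin.sum_univ_three] at this
    rw [← mul_add, ← mul_add, this, mul_zero]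
  refine ⟨fun z p h hy => ?_, ?_⟩
  · rw [← m2 z p h (hy ▸ haI), m1 z p h (hy ▸ haI), hy]
  have hex : ∀ x : ℝ, ∃ (z : (Fin 3 → ℝ) × Cf) (p : Fin m → Cf), x ∈ Icc (-δ) δ →
      St d Tau u n0 δ lo hi Ψ z p ∧ (z.2 (n, v, 0)).1 = x := by
    intro x
    by_cases hx : x ∈ Icc (-δ) δ
    · obtain ⟨z, p, h, k, -⟩ := nj_st hd hL hn v (abs_le.2 hx) (hI a haI)
      exact ⟨z, p, fun _ => ⟨h, k⟩⟩
    · exact ⟨z0, p0, fun h => absurd h hx⟩
  choose Z P hZ using hex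
  set f : ℝ → ℝ := fun x => ∑ j, s j * (P x j (n, v, 0)).1 - lam * x with hf
  have f1 : ∀ z p, St d Tau u n0 δ lo hi Ψ z p → (z.2 (n, v, 0)).1 ∈ Icc (-δ) δ ∧
      ∑ j, s j * (p j (n, v, 0)).1 - lam * (z.2 (n, v, 0)).1 = f (z.2 (n, v, 0)).1 := by
    intro z p h
    have hx : (z.2 (n, v, 0)).1 ∈ Icc (-δ) δ := by
      obtain ⟨N, t, hz, -⟩ := h
      exact abs_le.1 (hz.2.2.2 n v hn).1
    refine ⟨hx, ?_⟩
    rw [nj_same hd hG hL hs (β := (n, v, 0)) hn h (hZ _ hx).1 (hZ _ hx).2.symm]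
  have f2 : ∀ x ∈ Icc (-δ) δ, ∀ x' ∈ Icc (-δ) δ, x' ≤ x → x - x' ≤ b - a → f x = f x' := by
    intro x hx x' hx' h1 h2
    have hη : a + (x - x') ∈ Icc a b := ⟨by linarith, by linarith⟩
    obtain ⟨z, p, h, k0, k1⟩ := nj_st hd hL hn v (abs_le.2 hx) (hI a haI)
    obtain ⟨z', p', h', k0', k1'⟩ := nj_st hd hL hn v (abs_le.2 hx') (hI _ hη)
    have e1 := (f1 z p h).2
    have e2 := (f1 z' p' h').2
    have e3 := m3 z p h (k1 ▸ haI)
    have e4 := m3 z' p' h' (k1' ▸ hη)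
    obtain ⟨e5, e6⟩ := m4 z p h
    obtain ⟨e7, e8⟩ := m4 z' p' h'
    have e9 := nj_same hd hG hL hs (β := (n, v, 2)) hn h h' (by linarith)
    rw [k0] at e1
    rw [k0'] at e2
    rw [k1] at e3
    rw [k1'] at e4
    linear_combination -e1 + e2 - e3 + e4 + e5 - e7 - e9
  have f3 : ∀ x ∈ Icc (-δ) δ, ∀ x' ∈ Icc (-δ) δ, f x = f x' := by
    intro x hx x' hx'
    refine isPreconnected_Icc.induction₂' (fun x x' => f x = f x') (fun y hy => ?_)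
      (fun _ _ _ _ _ _ h h' => h.trans h') hx hx'
    have h1 : ∀ᶠ y' in 𝓝[Icc (-δ) δ] y, y' ∈ Ioo (y - (b - a)) (y + (b - a)) :=
      nhdsWithin_le_nhds (Ioo_mem_nhds (by linarith) (by linarith))
    filter_upwards [h1, self_mem_nhdsWithin] with y' h2 h3
    have h4 : f y = f y' := by
      rcases le_total y' y with h | h
      · exact f2 y hy y' h3 h (by linarith [h2.1])
      · exact (f2 y' h3 y hy h (by linarith [h2.2])).symm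
    exact ⟨h4, h4.symm⟩
  intro z p z' p' h h'
  rw [(f1 z p h).2, (f1 z' p' h').2]
  exact f3 _ (f1 z p h).1 _ (f1 z' p' h').1

open Classical in
theorem nf (hd : Dfam d) (hG : Good Tau W g G) (hL : Loc d Tau u n0 δ lo hi Ψ) :
    ∃ (A : ℕ → Fin 3 → Finset (Fin m)) (p0 : Fin m → Cf) (yy : ℕ → Fin 3 → ℝ),
      (∀ j, p0 j ∈ KK d) ∧ (∀ n v, |yy n v| ≤ δ) ∧
      ∀ N, ∀ z ∈ Zf d u n0 δ lo hi N, ∀ t p, Rep d Tau (Ψ z) t p → ∀ n, n0 ≤ n →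
        (Ψ z (ph n) = ∑ v, (∑ j ∈ A n v, t j) * (z.2 (n, v, 0)).1 +
          ∑ j, t j * ee d (p0 j) (ph n)) ∧
        ∀ v, (z.2 (n, v, 1)).1 = yy n v →
          ∑ j ∈ A n v, t j = ∑ j, if (p j (n, v, 1)).1 = yy n v then t j else 0 := by
  have hδ := hL.dpos
  choose A a ha hA using fun (n : ℕ) (v : Fin 3) => nj_block hd hG hL (le_max_left n0 n) v
  have hz0 : (lo, u) ∈ Zf d u n0 δ lo hi 0 :=
    ⟨⟨le_rfl, fun i => (hL.lohi i).le⟩, hL.umem, fun _ _ => rfl, fun n v hn => by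
      rw [hL.uzero _ hn, hL.uzero _ hn, abs_zero]
      exact ⟨hδ.le, hδ.le⟩⟩
  obtain ⟨t0, p0, hr0⟩ := hL.rep 0 _ hz0
  refine ⟨A, p0, a, hr0.2.1, ha, fun N z hz t p hr n hn => ?_⟩
  have hB := fun v => hA n v t (hG.sub hr.1)
  rw [max_eq_right hn] at hB
  refine ⟨?_, fun v hv => (hB v).1 z p ⟨N, t, hz, hr⟩ hv⟩
  have h1 : ∀ v, ∑ j, t j * (p j (n, v, 0)).1 =
      (∑ j ∈ A n v, t j) * (z.2 (n, v, 0)).1 + ∑ j, t j * (p0 j (n, v, 0)).1 := by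
    intro v
    have h2 := (hB v).2 z p (lo, u) p0 ⟨N, t, hz, hr⟩ ⟨0, t0, hz0, hr0⟩
    have h3 : (u (n, v, 0)).1 = 0 := hL.uzero _ hn
    simp only [h3, mul_zero, sub_zero] at h2
    linarith
  have h4 : ∀ r : Fin m → Cf, ∑ j, t j * ee d (r j) (ph n) =
      ∑ v, ∑ j, t j * (r j (n, v, 0)).1 := by
    intro r
    rw [Finset.sum_comm]
    refine Finset.sum_congr rfl fun j _ => ?_
    rw [ee_ph, Finset.mul_sum]
  rw [hr.2.2, Finset.sum_apply]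
  simp only [Pi.smul_apply, smul_eq_mul]
  rw [h4 p, h4 p0, ← Finset.sum_add_distrib]
  exact Finset.sum_congr rfl fun v _ => h1 v

end Pool.Agent.P.MP_5aae23_gt.Nsh
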