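import Pool.Agent.P.MP_5aae23_gt.NJ
import Pool.Agent.P.MP_5aae23_gt.NK
import Pool.Agent.P.MP_5aae23_gt.NLa
import Pool.Agent.P.MP_5aae23_gt.NLb

open Set Filter Topology Function

namespace Pool.Agent.P.MP_5aae23_gt.Nsh

theorem exists_sites {α : Type} [Finite α] (A : ℕ → α) (n0 : ℕ) :
    ∃ (n1 : ℕ) (γ : ℕ → ℕ), n0 ≤ n1 ∧ StrictMono γ ∧ (∀ k, n1 < γ k) ∧ ∀ k, A (γ k) = A n1 := by
  obtain ⟨A0, hA⟩ := Finite.exists_infinite_fiber fun n : ℕ => A (n + n0)
  have hinf : {n : ℕ | A (n + n0) = A0}.Infinite := Set.infinite_coe_iff.1 hA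
  have hm := Nat.nth_strictMono hinf
  have hp := Nat.nth_mem_of_infinite hinf
  refine ⟨Nat.nth _ 0 + n0, fun k => Nat.nth (fun n : ℕ => A (n + n0) = A0) (k + 1) + n0,
    Nat.le_add_left _ _, fun a b hab => Nat.add_lt_add_right (hm (Nat.succ_lt_succ hab)) _,
    fun k => Nat.add_lt_add_right (hm (Nat.succ_pos k)) _, fun k => (hp _).trans (hp 0).symm⟩

theorem asy_of {d : ℕ → Om → ℝ} (hd : Dfam d) {H : Type*} [NormedAddCommGroup H]
    [NormedSpace ℝ H] (h : XX d ≃ₜ H) : Nonempty (Asy H) := by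
  classical
  obtain ⟨o, ho, ho0⟩ := exists_o hd
  obtain ⟨m, Tau, W, g, G, u, n0, δ, lo, hi, B, hG, hL, hs, hx⟩ := baire hd h ho ho0
  obtain ⟨A, p0, yy, hp0, hyy, hnf⟩ := nf hd hG hL
  obtain ⟨n1, γ, hn1, hγm, hγ, hAγ⟩ := exists_sites A n0
  obtain ⟨u', hu', hu1, hu2⟩ := exists_frozen hd hL hn1 (yy n1) (hyy n1)
  have hu2' : ∀ v, (u' (n1, v, 0)).1 = 0 ∧ |(u' (n1, v, 1)).1| ≤ δ := fun v =>
    ⟨(hu2 v).1, by rw [(hu2 v).2]; exact hyy n1 v⟩
  have hu0 : ∀ n v, n0 ≤ n → (u' (n, v, 0)).1 = 0 := by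
    intro n v hn
    by_cases he : n = n1
    · rw [he]
      exact (hu2 v).1
    · rw [hu1 _ he]
      exact hL.uzero _ hn
  have hlo : lo ∈ Icc lo hi := ⟨le_rfl, fun v => (hL.lohi v).le⟩
  let M : Fin 3 → Finset ℕ → Set Cf := fun v S => MM d u' δ (Xi γ v S)
  have hMe : ∀ v, M v ∅ = {u'} := fun v => by
    have : Xi γ v ∅ = ∅ := by simp [Xi]
    simp only [M, this]
    exact mm_empty hd hL.dpos hL.dle
  have hadm : ∀ S : Fin 3 → Finset ℕ, ∃ N, ∀ s ∈ Icc lo hi, ∀ c : Fin 3 → Cf,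
      (∀ w, c w ∈ M w (S w)) → (s, cmb c) ∈ Zf d u n0 δ lo hi N :=
    cmb_mem hL hn1 hu' hu1 hu2' hγ
  let J : Fin 3 → Cf → H := fun v a => h (xv d o v a)
  let PS : (Fin 3 → ℝ) → (Fin 3 → Cf) → XX d := fun s c => h.symm (∑ v, s v • J v (c v))
  have hPS : ∀ (s : Fin 3 → ℝ) (c : Fin 3 → Cf),
      h.symm (∑ v, s v • h (xv d o v (cmb c))) = PS s c := by
    intro s c
    simp only [PS, J, xv_cmb]
  have hy0 : ∀ v S, ∀ a ∈ M v S, ∀ n, n0 ≤ n → (∀ k ∈ S, γ k ≠ n) → (a (n, v, 0)).1 = 0 := by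
    intro v S a ha n hn hk
    obtain ⟨r, -, -, h2⟩ := mm_spec ha
    rw [h2 _ fun hm => ?_]
    · exact hu0 n v hn
    · obtain ⟨⟨k, hk1, hk2⟩, -⟩ := mem_Xi.1 hm
      exact hk k hk1 hk2
  have hrep : ∀ s ∈ Icc lo hi, ∀ (S : Fin 3 → Finset ℕ) (c : Fin 3 → Cf),
      (∀ w, c w ∈ M w (S w)) → ∃ t p, Rep d Tau ((PS s c : C0) : ℕ → ℝ) t p := by
    intro s hs' S c hc
    obtain ⟨N, hN⟩ := hadm S
    have := hL.rep N _ (hN s hs' c hc)
    simpa only [hPS] using this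
  have hform : ∀ s ∈ Icc lo hi, ∀ (S : Fin 3 → Finset ℕ) (c : Fin 3 → Cf),
      (∀ w, c w ∈ M w (S w)) → ∀ t p, Rep d Tau ((PS s c : C0) : ℕ → ℝ) t p → ∀ n, n0 ≤ n →
      ((PS s c : C0) (ph n) = ∑ v, (∑ j ∈ A n v, t j) * (c v (n, v, 0)).1 + kap d p0 t (ph n)) ∧
      ∀ v, (c v (n, v, 1)).1 = yy n v →
        ∑ j ∈ A n v, t j = ∑ j, if (p j (n, v, 1)).1 = yy n v then t j else 0 := by
    intro s hs' S c hc t p hr n hn
    obtain ⟨N, hN⟩ := hadm S
    have := hnf N _ (hN s hs' c hc) t p (by simpa only [hPS] using hr) n hn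
    simpa only [hPS, cmb, kap] using this
  have hwd : ∀ s ∈ Icc lo hi, ∀ (S : Fin 3 → Finset ℕ) (c : Fin 3 → Cf),
      (∀ w, c w ∈ M w (S w)) → ∀ t p t' p', Rep d Tau ((PS s c : C0) : ℕ → ℝ) t p →
      Rep d Tau ((PS s c : C0) : ℕ → ℝ) t' p' → ∀ v,
      ∑ j ∈ A n1 v, t j = ∑ j ∈ A n1 v, t' j := by
    intro s hs' S c hc t p t' p' hr hr' v
    have h1 : (c v (n1, v, 1)).1 = yy n1 v := by
      obtain ⟨r, -, -, h2⟩ := mm_spec (hc v)
      rw [h2 _ fun hm => ?_]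
      · exact (hu2 v).2
      · obtain ⟨⟨k, -, hk2⟩, -⟩ := mem_Xi.1 hm
        exact (hγ k).ne' hk2
    rw [(hform s hs' S c hc t p hr n1 hn1).2 v h1, (hform s hs' S c hc t' p' hr' n1 hn1).2 v h1]
    have := ms_congr (cons hd hr hr' (n1, v, 1)) fun a => if a.1 = yy n1 v then 1 else 0
    simpa only [mul_ite, mul_one, mul_zero] using this
  let lam : (Fin 3 → ℝ) → (Fin 3 → Cf) → Fin 3 → ℝ := fun s c v =>
    if hh : ∃ t p, Rep d Tau ((PS s c : C0) : ℕ → ℝ) t p then ∑ j ∈ A n1 v, hh.choose j else 0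
  have hlam : ∀ s ∈ Icc lo hi, ∀ (S : Fin 3 → Finset ℕ) (c : Fin 3 → Cf),
      (∀ w, c w ∈ M w (S w)) → ∀ t p, Rep d Tau ((PS s c : C0) : ℕ → ℝ) t p → ∀ v,
      lam s c v = ∑ j ∈ A n1 v, t j := by
    intro s hs' S c hc t p hr v
    have hh := hrep s hs' S c hc
    obtain ⟨p', hp'⟩ := hh.choose_spec
    simp only [lam, dif_pos hh]
    exact hwd s hs' S c hc _ _ _ _ hp' hr v
  obtain ⟨Ct, hCt⟩ : ∃ C, ∀ t ∈ Tau, ∑ j, |t j| ≤ C := by
    have hc : Continuous fun t : Fin m → ℝ => ∑ j, |t j| := by fun_prop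
    obtain ⟨C, hC⟩ := (hG.cpt.image hc).bddAbove
    exact ⟨C, fun t ht => hC ⟨t, ht, rfl⟩⟩
  have hT0 : ∀ s ∈ Icc lo hi, ∀ (S : Fin 3 → Finset ℕ) (c : Fin 3 → Cf),
      (∀ w, c w ∈ M w (S w)) → ∀ t p, Rep d Tau ((PS s c : C0) : ℕ → ℝ) t p →
      Tendsto (kap d p0 t) atTop (𝓝 0) := by
    intro s hs' S c hc t p hr
    obtain ⟨c0, hc0⟩ := ph_far ((Finset.univ.sup fun w => (S w).sup γ) + n0 + 1)
    have h1 : Tendsto (fun k : ℕ => |(PS s c : C0) k| + Ct * ((k : ℝ) + 1)⁻¹) atTop (𝓝 0) := by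
      simpa using (c0_tendsto (PS s c : C0)).abs.add (inv_tendsto Ct)
    refine squeeze_zero_norm' ?_ h1
    have hC0 : 0 ≤ Ct := (Finset.sum_nonneg fun j _ => abs_nonneg _).trans (hCt t hr.1)
    filter_upwards [eventually_ge_atTop c0] with k hk
    rw [Real.norm_eq_abs]
    by_cases hp : ∃ n, k = ph n
    · obtain ⟨n, rfl⟩ := hp
      have h2 := hc0 n hk
      rw [(hform s hs' S c hc t p hr n (by omega)).1, Finset.sum_eq_zero, zero_add]
      · exact le_add_of_nonneg_right (by positivity)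
      · intro v _
        rw [hy0 v _ _ (hc v) n (by omega), mul_zero]
        intro k hk he
        have h3 := Finset.le_sup (f := γ) hk
        have h4 := Finset.le_sup (f := fun w => (S w).sup γ) (Finset.mem_univ v)
        omega
    · have := sum_small d p0 t (hCt t hr.1) k (not_exists.1 hp)
      linarith [abs_nonneg ((PS s c : C0) k)]
  have hmain : ∀ s ∈ Icc lo hi, ∀ (S : Fin 3 → Finset ℕ) (c : Fin 3 → Cf),
      (∀ w, c w ∈ M w (S w)) → ∀ t p, Rep d Tau ((PS s c : C0) : ℕ → ℝ) t p → ∀ k,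
      (PS s c : C0) (ph (γ k)) =
        ∑ v, lam s c v * (c v (γ k, v, 0)).1 + kap d p0 t (ph (γ k)) := by
    intro s hs' S c hc t p hr k
    rw [(hform s hs' S c hc t p hr (γ k) (hn1.trans (hγ k).le)).1, hAγ k]
    simp only [hlam s hs' S c hc t p hr]
  have hcl : ∀ (U : Ultrafilter ℕ) (s : ℕ → Fin 3 → ℝ) (S : ℕ → Fin 3 → Finset ℕ)
      (c : ℕ → Fin 3 → Cf), (∀ k, s k ∈ Icc lo hi) → (∀ k w, c k w ∈ M w (S k w)) →
      (∀ k n, ∑ v, lam (s k) (c k) v * (c k v (γ n, v, 0)).1 = 0) →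
      ∃ x : H, Tendsto (fun k => ∑ v, s k v • J v (c k v)) U (𝓝 x) := by
    intro U s S c hs' hc h0
    choose t p hr using fun k => hrep (s k) (hs' k) (S k) (c k) (hc k)
    obtain ⟨t', p', hr', ht, hxl⟩ := replim hd hG.cpt U _ t p (Eventually.of_forall hr)
    have hk' := kap_closed hp0 ht fun k => hT0 _ (hs' k) _ _ (hc k) _ _ (hr k)
    obtain ⟨c0, hc0⟩ := ph_far n0
    have hC0 : 0 ≤ Ct := (Finset.sum_nonneg fun j _ => abs_nonneg _).trans (hCt t' hr'.1)
    obtain ⟨z, hz, hzl⟩ := tendsto_c0 (F := U) (fun k => (PS (s k) (c k) : C0))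
      (∑ j, t' j • ee d (p' j)) (fun i => |kap d p0 t' i| + Ct * ((i : ℝ) + 1)⁻¹)
      (fun k => 3 * ∑ j, |t k j - t' j|) (fun i => tendsto_pi_nhds.1 hxl i)
      (by simpa using hk'.abs.add (inv_tendsto Ct)) (l1_tendsto ht) c0 (by
        intro k i hi'
        by_cases hp : ∃ n, i = ph n
        · obtain ⟨n, rfl⟩ := hp
          have h2 := hc0 n hi'
          have h3 : (PS (s k) (c k) : C0) (ph n) = kap d p0 (t k) (ph n) := by
            by_cases hn : ∃ l, γ l = n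
            · obtain ⟨l, rfl⟩ := hn
              rw [hmain _ (hs' k) _ _ (hc k) _ _ (hr k), h0, zero_add]
            · rw [(hform _ (hs' k) _ _ (hc k) _ _ (hr k) n h2).1, Finset.sum_eq_zero, zero_add]
              intro v _
              rw [hy0 v _ _ (hc k v) n h2 fun l _ he => hn ⟨l, he⟩, mul_zero]
          rw [h3]
          have h4 := kap_lip hp0 (t k) t' (ph n)
          have h5 : 0 ≤ Ct * (((ph n : ℕ) : ℝ) + 1)⁻¹ := by positivity
          linarith
        · rw [rep_kap (hr k) i]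
          have h4 := sum_small d (p k) (t k) (hCt _ (hr k).1) i (not_exists.1 hp)
          have h5 : 0 ≤ ∑ j, |t k j - t' j| := Finset.sum_nonneg fun j _ => abs_nonneg _
          linarith [abs_nonneg (kap d p0 t' i)])
    have hzX : z ∈ XX d := mem_xx.2 ⟨m, t', p', trivial, hr'.2.1, hz⟩
    have h6 : Tendsto (fun k => PS (s k) (c k)) U (𝓝 ⟨z, hzX⟩) := tendsto_subtype_rng.2 hzl
    refine ⟨h ⟨z, hzX⟩, ((h.continuous.tendsto _).comp h6).congr fun k => ?_⟩
    simp only [Function.comp_apply, PS, Homeomorph.apply_symm_apply]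
  have hphγ : Tendsto (fun k => ph (γ k)) atTop atTop := by
    have := (ph_inj.comp hγm.injective).tendsto_cofinite
    rwa [Nat.cofinite_eq_atTop] at this
  have hxv : ∀ v S, ∀ a ∈ M v S,
      ((xv d o v a : C0) : ℕ → ℝ) = ee d (slot o v a) ∧ ‖J v a‖ ≤ B := by
    intro v S a ha
    obtain ⟨N, hN⟩ := hadm (Function.update (fun _ => ∅) v S)
    have h1 := hx N _ (hN lo hlo (Function.update (fun _ => u') v a) fun w => by
      by_cases hw : w = v
      · subst hw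
        simpa using ha
      · simp [hw, hMe]) v
    simpa only [xv_cmb, slot_cmb, Function.update_self] using h1
  have hsur : ∀ v S r, |r| ≤ δ → ∃ a ∈ M v S, ∀ n ∈ S, (a (γ n, v, 0)).1 = r := by
    intro v S r hr
    obtain ⟨a, ha, h1⟩ := mm_sur (u := u') (Ξ := Xi γ v S) hd hL.dle hr
    refine ⟨a, ha, fun n hn => ?_⟩
    rw [h1 _ (mem_Xi.2 ⟨⟨n, hn, rfl⟩, rfl⟩)]
    simp [dir]
  have hgap : ∀ v, ∀ t ∈ Tau, g ≤ |∑ j ∈ A n1 v, t j| ∧ |∑ j ∈ A n1 v, t j| ≤ G := by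
    intro v
    refine (hG.gap (A n1 v)).resolve_left fun hz => ?_
    choose a ha hay using fun k : ℕ => hsur v {k} δ (abs_of_pos hL.dpos).le
    have hc : ∀ k w, Function.update (fun _ => u') v (a k) w ∈
        M w (Function.update (fun _ => (∅ : Finset ℕ)) v {k} w) := by
      intro k w
      by_cases hw : w = v
      · subst hw
        simpa using ha k
      · simp [hw, hMe]
    obtain ⟨x, hxl⟩ := hcl (hyperfilter ℕ) (fun _ => lo) _ _ (fun _ => hlo) hc (by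
      intro k n
      obtain ⟨t, p, hr⟩ := hrep lo hlo _ _ (hc k)
      refine Finset.sum_eq_zero fun w _ => ?_
      by_cases hw : w = v
      · rw [hlam lo hlo _ _ (hc k) t p hr, hw, hz t hr.1, zero_mul]
      · rw [Function.update_of_ne hw, hu0 _ _ (hn1.trans (hγ n).le), mul_zero])
    have h1 : Tendsto (fun k => J v (a k)) (hyperfilter ℕ)
        (𝓝 ((lo v)⁻¹ • (x - ∑ w ∈ Finset.univ.erase v, lo w • J w u'))) := by
      refine ((hxl.sub_const _).const_smul _).congr fun k => ?_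
      rw [← Finset.add_sum_erase _ _ (Finset.mem_univ v), Function.update_self,
        Finset.sum_congr rfl fun w hw => by
          rw [Function.update_of_ne (Finset.ne_of_mem_erase hw)],
        add_sub_cancel_right, smul_smul, inv_mul_cancel₀ (hs lo hlo v), one_smul]
    have h2 := (continuous_subtype_val.tendsto _).comp ((h.symm.continuous.tendsto _).comp h1)
    have h3 := c0_diag h2 (hphγ.mono_left Nat.hyperfilter_le_atTop)
    have h4 : Tendsto (fun _ : ℕ => δ) (hyperfilter ℕ) (𝓝 0) := by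
      refine h3.congr fun k => ?_
      simp only [Function.comp_apply, J, Homeomorph.symm_apply_apply]
      rw [(hxv v _ _ (ha k)).1, ee_ph, Finset.sum_eq_single v]
      · simpa [slot] using hay k k (Finset.mem_singleton_self k)
      · intro w _ hw
        simp [slot, hw, ho0]
      · simp
    exact hL.dpos.ne' (tendsto_nhds_unique tendsto_const_nhds h4)
  refine ⟨{
    lo := lo, hi := hi, δ := δ, g := g, G := G, B := B
    y := fun n v a => (a (γ n, v, 0)).1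
    M := M, pt := u', J := J, lam := lam
    lohi := hL.lohi, sne := hs, dpos := hL.dpos, gpos := hG.gpos
    ycont := fun n v => continuous_fst.comp (continuous_apply _)
    Mcpt := fun v S => mm_compact hd
    Mconn := fun v S => mm_conn hd hL.dpos hL.dle
    Mempty := hMe
    yeq := ?_, yzero := ?_, yle := ?_, ysur := hsur
    Jle := fun v S a ha => (hxv v S a ha).2
    lcont := ?_, lbd := ?_, cl := hcl, cv := ?_ }⟩
  · intro v S a ha n hn n' hn'
    obtain ⟨r, -, h1, -⟩ := mm_spec ha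
    rw [(h1 _ (mem_Xi.2 ⟨⟨n, hn, rfl⟩, rfl⟩)).2, (h1 _ (mem_Xi.2 ⟨⟨n', hn', rfl⟩, rfl⟩)).2]
  · intro v S a ha n hn
    exact hy0 v S a ha _ (hn1.trans (hγ n).le) fun k hk he => hn (hγm.injective he ▸ hk)
  · intro v S a ha n
    by_cases hn : n ∈ S
    · obtain ⟨r, hr, h1, -⟩ := mm_spec ha
      rw [(h1 _ (mem_Xi.2 ⟨⟨n, hn, rfl⟩, rfl⟩)).2]
      simpa [dir] using hr
    · rw [hy0 v S a ha _ (hn1.trans (hγ n).le) fun k hk he => hn (hγm.injective he ▸ hk)]
      simpa using hL.dpos.le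
  · intro S v z0 hz0
    obtain ⟨N, hN⟩ := hadm S
    have hcont : ContinuousOn (fun z : (Fin 3 → ℝ) × (Fin 3 → Cf) => ((PS z.1 z.2 : C0) : ℕ → ℝ))
        (Icc lo hi ×ˢ Set.pi univ fun w => M w (S w)) := by
      have h1 := (hL.cont N).comp
        (continuous_fst.prodMk (cmb_cont.comp continuous_snd)).continuousOn
        (s := Icc lo hi ×ˢ Set.pi univ fun w => M w (S w))
        fun z hz => hN z.1 hz.1 z.2 fun w => hz.2 w trivial
      refine h1.congr fun z _ => ?_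
      simp only [Function.comp_apply, hPS]
    refine (tendsto_iff_ultrafilter _ _ _).2 fun U hU => ?_
    have hex : ∀ z : (Fin 3 → ℝ) × (Fin 3 → Cf), ∃ t p,
        z ∈ (Icc lo hi ×ˢ Set.pi univ fun w => M w (S w)) →
          Rep d Tau ((PS z.1 z.2 : C0) : ℕ → ℝ) t p := by
      intro z
      by_cases hz : z ∈ (Icc lo hi ×ˢ Set.pi univ fun w => M w (S w))
      · obtain ⟨t, p, hr⟩ := hrep z.1 hz.1 S z.2 fun w => hz.2 w trivial
        exact ⟨t, p, fun _ => hr⟩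
      · exact ⟨0, p0, fun hz' => absurd hz' hz⟩
    choose t p hr using hex
    have hev : ∀ᶠ z in (U : Filter _), z ∈ (Icc lo hi ×ˢ Set.pi univ fun w => M w (S w)) :=
      hU self_mem_nhdsWithin
    obtain ⟨t', p', hr', ht, hxl⟩ := replim hd hG.cpt U _ t p (hev.mono hr)
    rw [tendsto_nhds_unique hxl ((hcont z0 hz0).mono_left hU)] at hr'
    show Tendsto _ _ (𝓝 (lam z0.1 z0.2 v))
    rw [hlam z0.1 hz0.1 S z0.2 (fun w => hz0.2 w trivial) t' p' hr' v]
    have hc : Continuous fun t : Fin m → ℝ => ∑ j ∈ A n1 v, t j := by fun_prop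
    refine ((hc.tendsto _).comp ht).congr' ?_
    filter_upwards [hev] with z hz
    exact (hlam z.1 hz.1 S z.2 (fun w => hz.2 w trivial) _ _ (hr z hz) v).symm
  · intro s hs' S c hc v
    obtain ⟨t, p, hr⟩ := hrep s hs' S c hc
    rw [hlam s hs' S c hc t p hr v]
    exact hgap v t hr.1
  · intro U s S c n x hs' hc hn hxl
    choose t p hr using fun k => hrep (s k) (hs' k) (S k) (c k) (hc k)
    obtain ⟨t', p', -, ht, -⟩ := replim hd hG.cpt U _ t p (Eventually.of_forall hr)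
    have hk' := kap_closed hp0 ht fun k => hT0 _ (hs' k) _ _ (hc k) _ _ (hr k)
    have h2 := (continuous_subtype_val.tendsto _).comp ((h.symm.continuous.tendsto _).comp hxl)
    have h3 := c0_diag h2 (hphγ.comp hn)
    have h4 : Tendsto (fun k => kap d p0 (t k) (ph (γ (n k)))) U (𝓝 0) := by
      refine squeeze_zero_norm (fun k => kap_lip hp0 (t k) t' _) ?_
      simpa using (hk'.comp (hphγ.comp hn)).abs.add (l1_tendsto ht)
    have h5 := h3.sub h4
    rw [sub_zero] at h5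
    refine h5.congr fun k => ?_
    have h6 := hmain _ (hs' k) _ _ (hc k) _ _ (hr k) (n k)
    simp only [Function.comp_apply]
    exact sub_eq_of_eq_add h6

end Pool.Agent.P.MP_5aae23_gt.Nsh
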