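import Pool.Agent.P.MP_5aae23_gt.NDefs

open Set Filter Topology Function

namespace Pool.Agent.P.MP_5aae23_gt.Nsh

universe w

/-- A positive semidefinite symmetric form is the Gram form of a map to an inner product space. -/
theorem gram {F : Type w} [AddCommGroup F] [Module ℝ F] (B : F → F → ℝ)
    (h1 : ∀ x y, B y x = B x y) (h2 : ∀ x, 0 ≤ B x x)
    (h3 : ∀ x y z, B (x + y) z = B x z + B y z) (h4 : ∀ x y (r : ℝ), B (r • x) y = r * B x y) :
    ∃ (K : Type w) (_ : NormedAddCommGroup K) (_ : InnerProductSpace ℝ K) (q : F → K),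
      ∀ x y, inner ℝ (q x) (q y) = B x y := by
  let c : PreInnerProductSpace.Core ℝ F :=
    { inner := B
      conj_inner_symm := fun x y => by simpa using h1 x y
      re_inner_nonneg := fun x => by simpa using h2 x
      add_left := h3
      smul_left := fun x y r => by simpa using h4 x y r }
  let : SeminormedAddCommGroup F := InnerProductSpace.Core.toSeminormedAddCommGroup (𝕜 := ℝ)
  let : InnerProductSpace ℝ F := InnerProductSpace.ofCore c
  exact ⟨SeparationQuotient F, inferInstance, inferInstance, SeparationQuotient.mk,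
    fun x y => SeparationQuotient.inner_mk_mk x y⟩

theorem ulim {ι : Type*} (W : Ultrafilter ι) (u : ι → ℝ) (C : ℝ) (h : ∀ i, |u i| ≤ C) :
    ∃ L, Tendsto u W (𝓝 L) := by
  obtain ⟨L, -, hL⟩ := (isCompact_Icc (a := -C) (b := C)).ultrafilter_le_nhds (W.map u)
    (by
      rw [Ultrafilter.coe_map, le_principal_iff, mem_map]
      exact univ_mem' fun i => abs_le.1 (h i))
  exact ⟨L, hL⟩

/-- The asymptotic inner product space of bounded sequences. -/
theorem uq (H : Type w) [NormedAddCommGroup H] [InnerProductSpace ℝ H] (U : Ultrafilter ℕ)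
    (hU : (U : Filter ℕ) ≤ atTop) :
    ∃ (V : Ultrafilter (ℕ × ℕ)) (K : Type w) (_ : NormedAddCommGroup K)
      (_ : InnerProductSpace ℝ K) (Q : (ℕ → H) → K),
      Tendsto Prod.fst (V : Filter (ℕ × ℕ)) U ∧ Tendsto Prod.snd (V : Filter (ℕ × ℕ)) U ∧
      (∀ᶠ kl in (V : Filter (ℕ × ℕ)), kl.1 ≠ kl.2) ∧
      (∀ a b : ℕ → H, (∃ C, ∀ k, ‖a k‖ ≤ C) → (∃ C, ∀ k, ‖b k‖ ≤ C) →
        Tendsto (fun kl : ℕ × ℕ => inner ℝ (a kl.1 - a kl.2) (b kl.1 - b kl.2)) V
          (𝓝 (inner ℝ (Q a) (Q b)))) ∧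
      ∀ (a : Fin 3 → ℕ → H) (s : ℕ → Fin 3 → ℝ) (σ : Fin 3 → ℝ) (x : H),
        (∀ v, ∃ C, ∀ k, ‖a v k‖ ≤ C) → Tendsto s U (𝓝 σ) →
        Tendsto (fun k => ∑ v, s k v • a v k) U (𝓝 x) → ∑ v, σ v • Q (a v) = 0 := by
  classical
  have hne : NeBot (((U : Filter ℕ) ×ˢ (U : Filter ℕ)) ⊓ 𝓟 {kl : ℕ × ℕ | kl.1 ≠ kl.2}) := by
    rw [← frequently_mem_iff_neBot]
    intro h
    obtain ⟨pa, ha, pb, hb, hab⟩ := eventually_prod_iff.1 h
    obtain ⟨k, hk⟩ := ha.exists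
    obtain ⟨l, hl, hl'⟩ := (hb.and (hU (eventually_gt_atTop k))).exists
    exact hab hk hl (ne_of_lt hl')
  set V := Ultrafilter.of (((U : Filter ℕ) ×ˢ (U : Filter ℕ)) ⊓ 𝓟 {kl : ℕ × ℕ | kl.1 ≠ kl.2})
    with hV
  have hle : (V : Filter (ℕ × ℕ)) ≤ _ := Ultrafilter.of_le _
  have t1 : Tendsto Prod.fst (V : Filter (ℕ × ℕ)) U :=
    tendsto_fst.mono_left (hle.trans inf_le_left)
  have t2 : Tendsto Prod.snd (V : Filter (ℕ × ℕ)) U :=
    tendsto_snd.mono_left (hle.trans inf_le_left)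
  let F : Submodule ℝ (ℕ → H) :=
    { carrier := {a | ∃ C, ∀ k, ‖a k‖ ≤ C}
      add_mem' := fun ⟨C, hC⟩ ⟨D, hD⟩ => ⟨C + D, fun k => norm_add_le_of_le (hC k) (hD k)⟩
      zero_mem' := ⟨0, fun k => by simp⟩
      smul_mem' := fun r a ⟨C, hC⟩ => ⟨‖r‖ * C, fun k => by
        rw [Pi.smul_apply, norm_smul]
        exact mul_le_mul_of_nonneg_left (hC k) (norm_nonneg _)⟩ }
  have ex : ∀ a b : F, ∃ L, Tendsto
      (fun kl : ℕ × ℕ => inner ℝ (a.1 kl.1 - a.1 kl.2) (b.1 kl.1 - b.1 kl.2)) V (𝓝 L) := by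
    rintro ⟨a, C, hC⟩ ⟨b, D, hD⟩
    refine ulim V _ ((C + C) * (D + D)) fun kl => (abs_real_inner_le_norm _ _).trans ?_
    have h0 : 0 ≤ C := (norm_nonneg _).trans (hC 0)
    exact mul_le_mul (norm_sub_le_of_le (hC _) (hC _)) (norm_sub_le_of_le (hD _) (hD _))
      (norm_nonneg _) (by linarith)
  choose B hB using ex
  obtain ⟨K, i1, i2, q, hq⟩ := gram B
    (fun x y => tendsto_nhds_unique (hB y x) ((hB x y).congr fun kl => real_inner_comm _ _))
    (fun x => ge_of_tendsto' (hB x x) fun kl => real_inner_self_nonneg)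
    (fun x y z => tendsto_nhds_unique (hB (x + y) z) (((hB x z).add (hB y z)).congr fun kl => by
      rw [← inner_add_left]
      congr 1
      simp only [Submodule.coe_add, Pi.add_apply]
      abel))
    (fun x y r => tendsto_nhds_unique (hB (r • x) y) (((hB x y).const_mul r).congr fun kl => by
      rw [← real_inner_smul_left, smul_sub]
      rfl))
  let Q : (ℕ → H) → K := fun a => if h : a ∈ F then q ⟨a, h⟩ else 0
  have hQ : ∀ a b : ℕ → H, (∃ C, ∀ k, ‖a k‖ ≤ C) → (∃ C, ∀ k, ‖b k‖ ≤ C) →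
      Tendsto (fun kl : ℕ × ℕ => inner ℝ (a kl.1 - a kl.2) (b kl.1 - b kl.2)) V
        (𝓝 (inner ℝ (Q a) (Q b))) := by
    intro a b ha hb
    have ha' : a ∈ F := ha
    have hb' : b ∈ F := hb
    simp only [Q, dif_pos ha', dif_pos hb', hq]
    exact hB ⟨a, ha'⟩ ⟨b, hb'⟩
  refine ⟨V, K, i1, i2, Q, t1, t2, le_principal_iff.1 (hle.trans inf_le_right), hQ, ?_⟩
  intro a s σ x ha hs hx
  have z0 : Tendsto (fun k => ∑ v, (σ v - s k v) • a v k) U (𝓝 0) := by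
    have : Tendsto (fun k => ∑ v, (σ v - s k v) • a v k) U (𝓝 (∑ _v : Fin 3, (0 : H))) := by
      refine tendsto_finsetSum _ fun v _ => ?_
      obtain ⟨C, hC⟩ := ha v
      have h1 : Tendsto (fun k => σ v - s k v) U (𝓝 0) := by
        simpa using (tendsto_const_nhds (x := σ v)).sub (tendsto_pi_nhds.1 hs v)
      exact NormedField.tendsto_zero_smul_of_tendsto_zero_of_bounded h1
        (isBoundedUnder_of ⟨C, hC⟩)
    simpa using this
  have z1 : Tendsto (fun k => ∑ v, σ v • a v k) U (𝓝 x) := by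
    have := z0.add hx
    rw [zero_add] at this
    refine this.congr fun k => ?_
    rw [← Finset.sum_add_distrib]
    exact Finset.sum_congr rfl fun v _ => by rw [← add_smul, sub_add_cancel]
  have z2 : Tendsto (fun kl : ℕ × ℕ => ∑ v, σ v • (a v kl.1 - a v kl.2)) V (𝓝 0) := by
    have := (z1.comp t1).sub (z1.comp t2)
    rw [sub_self] at this
    refine this.congr fun kl => ?_
    simp only [comp_apply, smul_sub, Finset.sum_sub_distrib]
  have z3 := z2.inner (𝕜 := ℝ) z2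
  have z4 : Tendsto (fun kl : ℕ × ℕ => inner ℝ (∑ v, σ v • (a v kl.1 - a v kl.2))
      (∑ v, σ v • (a v kl.1 - a v kl.2))) V
      (𝓝 (inner ℝ (∑ v, σ v • Q (a v)) (∑ v, σ v • Q (a v)))) := by
    simp only [sum_inner, inner_sum, real_inner_smul_left, real_inner_smul_right]
    exact tendsto_finsetSum _ fun v _ => tendsto_finsetSum _ fun v' _ =>
      ((hQ _ _ (ha _) (ha _)).const_mul _).const_mul _
  have z5 := tendsto_nhds_unique z4 z3
  rw [inner_zero_left] at z5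
  exact inner_self_eq_zero.1 z5

theorem extract {H : Type w} [NormedAddCommGroup H] [InnerProductSpace ℝ H] (a : ℕ → H) (C : ℝ)
    (ha : ∀ k, ‖a k‖ ≤ C) : ∃ (φ : ℕ → ℕ) (L : ℝ), StrictMono φ ∧
      ∀ ε > 0, ∃ i0, ∀ i j, i0 ≤ i → i0 ≤ j → i ≠ j → |inner ℝ (a (φ i)) (a (φ j)) - L| < ε := by
  have h0 : 0 ≤ C := (norm_nonneg _).trans (ha 0)
  have hW : (hyperfilter ℕ : Filter ℕ) ≤ atTop := by
    rw [← Nat.cofinite_eq_atTop]; exact hyperfilter_le_cofinite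
  have hb : ∀ n m, |inner ℝ (a n) (a m)| ≤ C * C := fun n m =>
    (abs_real_inner_le_norm _ _).trans (mul_le_mul (ha _) (ha _) (norm_nonneg _) h0)
  choose f hf using fun n => ulim (hyperfilter ℕ) (fun m => inner ℝ (a n) (a m)) (C * C) (hb n)
  obtain ⟨L, hL⟩ := ulim (hyperfilter ℕ) f (C * C) fun n =>
    le_of_tendsto' (hf n).abs (hb n)
  obtain ⟨φ, -, hφ⟩ := exists_seq_of_forall_finset_exists (fun _ : ℕ => True)
    (fun x y => x < y ∧ dist (inner ℝ (a x) (a y)) (f x) < 1 / ((x : ℝ) + 1) ∧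
      dist (f y) L < 1 / ((x : ℝ) + 1))
    (fun s _ => by
      have : ∀ᶠ y in (hyperfilter ℕ : Filter ℕ), ∀ x ∈ s, x < y ∧
          dist (inner ℝ (a x) (a y)) (f x) < 1 / ((x : ℝ) + 1) ∧
          dist (f y) L < 1 / ((x : ℝ) + 1) :=
        (eventually_all_finset s).2 fun x _ => ((eventually_gt_atTop x).filter_mono hW).and
          ((Metric.tendsto_nhds.1 (hf x) _ Nat.one_div_pos_of_nat).and
            (Metric.tendsto_nhds.1 hL _ Nat.one_div_pos_of_nat))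
      obtain ⟨y, hy⟩ := this.exists
      exact ⟨y, trivial, hy⟩)
  have hm : StrictMono φ := fun i j h => (hφ i j h).1
  refine ⟨φ, L, hm, fun ε hε => ?_⟩
  obtain ⟨i1, hi1⟩ := exists_nat_one_div_lt (half_pos hε)
  have sm : ∀ i, i1 ≤ i → 1 / ((φ i : ℝ) + 1) < ε / 2 := fun i hi =>
    (Nat.one_div_le_one_div (hi.trans (hm.le_apply))).trans_lt hi1
  have key : ∀ i j, i1 + 1 ≤ i → i < j → |inner ℝ (a (φ i)) (a (φ j)) - L| < ε := by
    intro i j hi hij
    have h1 := (hφ i j hij).2.1.trans (sm i (by omega))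
    have h2 := (hφ i1 i (by omega)).2.2.trans (sm i1 le_rfl)
    have h3 := dist_triangle (inner ℝ (a (φ i)) (a (φ j))) (f (φ i)) L
    rw [← Real.dist_eq]
    linarith
  refine ⟨i1 + 1, fun i j hi hj hij => ?_⟩
  rcases lt_or_gt_of_ne hij with h | h
  · exact key i j hi h
  · rw [real_inner_comm]
    exact key j i hj h

theorem tube {P M : Type} [TopologicalSpace P] [TopologicalSpace M] {E : Set P}
    (hE : IsCompact E) {S : Set M} {θ : P × M → ℝ} (hθ : ContinuousOn θ (E ×ˢ S)) {r : M}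
    (hr : r ∈ S) (h : ∀ s ∈ E, θ (s, r) < 0) : ∀ᶠ r' in 𝓝[S] r, ∀ s ∈ E, θ (s, r') < 0 := by
  have h1 : ∀ᶠ r' in 𝓝 r, ∀ s ∈ E, ((s, r') ∈ E ×ˢ S → θ (s, r') < 0) := by
    refine hE.eventually_forall_of_forall_eventually
      (P := fun r' s => (s, r') ∈ E ×ˢ S → θ (s, r') < 0) fun s hs => ?_
    have h2 : ∀ᶠ z in 𝓝[E ×ˢ S] (s, r), θ z < 0 :=
      (hθ (s, r) ⟨hs, hr⟩).eventually (eventually_lt_nhds (h s hs))
    exact (continuous_swap.tendsto (r, s)).eventually (eventually_nhdsWithin_iff.1 h2)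
  filter_upwards [nhdsWithin_le_nhds h1, self_mem_nhdsWithin] with r' h2 h3 s hs
  exact h2 s hs ⟨hs, h3⟩

/-- Three sides of a triangle, given as three connected compact sets meeting pairwise. -/
theorem tri {P M : Type} [TopologicalSpace P] [TopologicalSpace M] (E : Fin 3 → Set P)
    (hE : ∀ i, IsCompact (E i)) (hE' : ∀ i, IsPreconnected (E i))
    (hm : ∀ i j, (E i ∩ E j).Nonempty) {S : Set M} (hS : IsPreconnected S) (θ : P × M → ℝ)
    (hθ : ContinuousOn θ ((⋃ i, E i) ×ˢ S)) {a b : M} (ha : a ∈ S) (hb : b ∈ S)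
    (hneg : ∀ s ∈ ⋃ i, E i, θ (s, a) < 0) (hpos : ∀ s ∈ ⋃ i, E i, 0 < θ (s, b)) :
    ∃ r ∈ S, ∀ i, ∃ s ∈ E i, θ (s, r) = 0 := by
  by_contra hcon
  push Not at hcon
  have hc : ∀ i, ContinuousOn θ (E i ×ˢ S) := fun i =>
    hθ.mono (prod_mono (subset_iUnion E i) Subset.rfl)
  have dis : ∀ r, (∃ i, ∀ s ∈ E i, θ (s, r) < 0) → (∃ i, ∀ s ∈ E i, -θ (s, r) < 0) → False := by
    rintro r ⟨i, hi⟩ ⟨j, hj⟩
    obtain ⟨s, h1, h2⟩ := hm i j
    linarith [hi s h1, hj s h2]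
  have cov : ∀ r ∈ S, (∃ i, ∀ s ∈ E i, θ (s, r) < 0) ∨ ∃ i, ∀ s ∈ E i, -θ (s, r) < 0 := by
    intro r hr
    obtain ⟨i, hi⟩ := hcon r hr
    by_contra h
    push Not at h
    obtain ⟨s, hs, h1⟩ := h.1 i
    obtain ⟨s', hs', h2⟩ := h.2 i
    have h3 : ContinuousOn (fun s => θ (s, r)) (E i) :=
      (hc i).comp (Continuous.prodMk_left r).continuousOn fun s hs => ⟨hs, hr⟩
    obtain ⟨t, ht, h4⟩ := (hE' i).intermediate_value hs' hs h3 ⟨by linarith, h1⟩
    exact hi t ht h4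
  have key := hS.induction₂' (fun x y => (∃ i, ∀ s ∈ E i, θ (s, x) < 0) →
    ∃ i, ∀ s ∈ E i, θ (s, y) < 0) (fun x hx => by
      rcases cov x hx with ⟨i, hi⟩ | ⟨i, hi⟩
      · exact (tube (hE i) (hc i) hx hi).mono fun y hy => ⟨fun _ => ⟨i, hy⟩, fun _ => ⟨i, hi⟩⟩
      · exact (tube (θ := fun z => -θ z) (hE i) (hc i).neg hx hi).mono fun y hy =>
          ⟨fun h => (dis x h ⟨i, hi⟩).elim, fun h => (dis y h ⟨i, hy⟩).elim⟩)
    (fun _ _ _ _ _ _ h1 h2 h => h2 (h1 h)) ha hb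
  exact dis b (key ⟨0, fun s hs => hneg s (mem_iUnion.2 ⟨0, hs⟩)⟩)
    ⟨0, fun s hs => neg_neg_iff_pos.2 (hpos s (mem_iUnion.2 ⟨0, hs⟩))⟩

end Pool.Agent.P.MP_5aae23_gt.Nsh
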