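import Pool.Agent.P.MP_5aae23_gt.NDefs
import Pool.Agent.P.MP_cac9ea_co.ScMiranda

open Set Filter Topology Function

namespace Pool.Agent.P.MP_5aae23_gt.Nsh

/-- Fine chains in a preconnected set. -/
theorem exists_chain {X : Type} [UniformSpace X] {S : Set X} (hSc : IsPreconnected S)
    {W : Set (X × X)} (hW : W ∈ uniformity X) {a b : X} (ha : a ∈ S) (hb : b ∈ S) :
    ∃ (m : ℕ) (x : ℕ → X), x 0 = a ∧ x m = b ∧ (∀ i, x i ∈ S) ∧
      ∀ i < m, (x i, x (i + 1)) ∈ W ∧ (x (i + 1), x i) ∈ W := by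
  have key : Relation.ReflTransGen (fun u v : X => v ∈ S ∧ (u, v) ∈ W ∧ (v, u) ∈ W) a b := by
    refine hSc.induction₂' (Relation.ReflTransGen
      (fun u v : X => v ∈ S ∧ (u, v) ∈ W ∧ (v, u) ∈ W)) ?_ ?_ ha hb
    · intro x hx
      have h1 : ∀ᶠ y in 𝓝 x, (x, y) ∈ W := UniformSpace.ball_mem_nhds x hW
      have h2 : ∀ᶠ y in 𝓝 x, (y, x) ∈ W :=
        UniformSpace.ball_mem_nhds x (symm_le_uniformity hW)
      filter_upwards [self_mem_nhdsWithin, nhdsWithin_le_nhds h1, nhdsWithin_le_nhds h2]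
        with y hy hy1 hy2
      exact ⟨.single ⟨hy, hy1, hy2⟩, .single ⟨hx, hy2, hy1⟩⟩
    · exact fun _ _ _ _ _ _ h h' => h.trans h'
  clear hb
  induction key with
  | refl => exact ⟨0, fun _ => a, rfl, rfl, fun _ => ha, fun i hi => absurd hi (by omega)⟩
  | @tail u v _ h ih =>
    obtain ⟨m, x, h0, hm, hx, hs⟩ := ih
    refine ⟨m + 1, fun i => if i ≤ m then x i else v, by simpa using h0, by simp, ?_, ?_⟩
    · intro i
      by_cases hi : i ≤ m
      · simpa [hi] using hx i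
      · simpa [hi] using h.1
    · intro i hi
      rcases Nat.lt_succ_iff_lt_or_eq.1 hi with hi' | hi'
      · have e1 : i ≤ m := hi'.le
        have e2 : i + 1 ≤ m := hi'
        simpa [e1, e2] using hs i hi'
      · subst hi'
        simpa [hm] using h.2

/-- The tent function at the integer `i`. -/
noncomputable def tent (i : ℕ) (s : ℝ) : ℝ := max 0 (1 - |s - i|)

theorem tent_cont (i : ℕ) : Continuous (tent i) := by
  unfold tent; fun_prop

theorem tent_nonneg (i : ℕ) (s : ℝ) : 0 ≤ tent i s := le_max_left _ _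

theorem tent_lt {i : ℕ} {s : ℝ} (h : tent i s ≠ 0) : |s - i| < 1 := by
  by_contra hc
  exact h (max_eq_left (by linarith [not_lt.1 hc]))

theorem tent_eq {i k : ℕ} (h : tent i k ≠ 0) : i = k := by
  have h1 := abs_lt.1 (tent_lt h)
  have h2 : (i : ℝ) < (k + 1 : ℕ) := by push_cast; linarith [h1.1]
  have h3 : (k : ℝ) < (i + 1 : ℕ) := by push_cast; linarith [h1.2]
  have h4 := Nat.cast_lt.1 h2
  have h5 := Nat.cast_lt.1 h3
  omega

theorem tent_adj {i k : ℕ} {s : ℝ} (h : tent i s ≠ 0) (h' : tent k s ≠ 0) :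
    i = k ∨ i + 1 = k ∨ k + 1 = i := by
  have h1 := abs_lt.1 (tent_lt h)
  have h1' := abs_lt.1 (tent_lt h')
  have h2 : (i : ℝ) < (k + 2 : ℕ) := by push_cast; linarith [h1.1, h1'.2]
  have h3 : (k : ℝ) < (i + 2 : ℕ) := by push_cast; linarith [h1.2, h1'.1]
  have h4 := Nat.cast_lt.1 h2
  have h5 := Nat.cast_lt.1 h3
  omega

theorem tent_pos {m : ℕ} {s : ℝ} (h0 : 0 ≤ s) (hm : s ≤ m) : ∃ i ≤ m, 0 < tent i s := by
  refine ⟨⌊s⌋₊, Nat.floor_le_of_le hm, lt_max_of_lt_right ?_⟩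
  have h1 := Nat.floor_le h0
  have h2 := Nat.lt_floor_add_one s
  rw [abs_of_nonneg (by linarith)]
  linarith

theorem small_of_sum {ι : Type} (t : Finset ι) (w v : ι → ℝ) (hw : ∀ i, 0 ≤ w i) {i0 : ι}
    (hi0 : i0 ∈ t) (hp : 0 < w i0) {η : ℝ} (hv : ∀ i ∈ t, w i ≠ 0 → |v i - v i0| < η)
    (hs : ∑ i ∈ t, w i * v i = 0) : |v i0| < η := by
  by_contra hc
  have hη : 0 < η := by simpa using hv i0 hi0 hp.ne'
  rcases le_abs.1 (not_lt.1 hc) with h | h
  · have : 0 < ∑ i ∈ t, w i * v i := by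
      refine Finset.sum_pos' (fun i hi => ?_) ⟨i0, hi0, mul_pos hp (by linarith)⟩
      by_cases h0 : w i = 0
      · simp [h0]
      · exact mul_nonneg (hw i) (by linarith [(abs_lt.1 (hv i hi h0)).1])
    linarith
  · have : 0 < ∑ i ∈ t, w i * -v i := by
      refine Finset.sum_pos' (fun i hi => ?_) ⟨i0, hi0, mul_pos hp (by linarith)⟩
      by_cases h0 : w i = 0
      · simp [h0]
      · exact mul_nonneg (hw i) (by linarith [(abs_lt.1 (hv i hi h0)).2])
    simp only [mul_neg, Finset.sum_neg_distrib] at this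
    linarith

/-- Approximate common zeros on a pair of chains. -/
theorem grid_zero (m n : ℕ) (f g : ℕ × ℕ → ℝ) (h1 : ∀ j, f (0, j) ≤ 0) (h2 : ∀ j, 0 ≤ f (m, j))
    (h3 : ∀ i, g (i, 0) ≤ 0) (h4 : ∀ i, 0 ≤ g (i, n)) {η : ℝ}
    (hc : ∀ i ≤ m, ∀ k ≤ m, ∀ j ≤ n, ∀ l ≤ n, (i = k ∨ i + 1 = k ∨ k + 1 = i) →
      (j = l ∨ j + 1 = l ∨ l + 1 = j) →
      |f (i, j) - f (k, l)| < η ∧ |g (i, j) - g (k, l)| < η) :
    ∃ p : ℕ × ℕ, |f p| < η ∧ |g p| < η := by
  let t : Finset (ℕ × ℕ) := Finset.range (m + 1) ×ˢ Finset.range (n + 1)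
  let w : (Fin 2 → ℝ) → ℕ × ℕ → ℝ := fun z p => tent p.1 (z 0) * tent p.2 (z 1)
  have hw : ∀ z p, 0 ≤ w z p := fun z p => mul_nonneg (tent_nonneg _ _) (tent_nonneg _ _)
  have hwc : ∀ p, Continuous fun z => w z p := fun p =>
    ((tent_cont _).comp (continuous_apply 0)).mul ((tent_cont _).comp (continuous_apply 1))
  let F : (Fin 2 → ℝ) → Fin 2 → ℝ := fun z =>
    ![-∑ p ∈ t, w z p * f p, -∑ p ∈ t, w z p * g p]
  have hF : Continuous F := by
    refine continuous_pi fun i => ?_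
    fin_cases i
    · exact (continuous_finsetSum _ fun p _ => (hwc p).mul continuous_const).neg
    · exact (continuous_finsetSum _ fun p _ => (hwc p).mul continuous_const).neg
  obtain ⟨z, hz, hz0⟩ := MP_cac9ea_co.Sc.miranda (fun _ => (0 : ℝ)) ![(m : ℝ), (n : ℝ)]
    (by intro i; fin_cases i <;> simp) F hF
    (by
      intro z _ i hi
      fin_cases i
      · change 0 ≤ -∑ p ∈ t, w z p * f p
        refine neg_nonneg.2 (Finset.sum_nonpos fun p _ => ?_)
        by_cases h0 : tent p.1 (z 0) = 0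
        · simp [w, h0]
        · have e : z 0 = ((0 : ℕ) : ℝ) := by simpa using hi
          rw [e] at h0
          have e2 : p = (0, p.2) := Prod.ext (tent_eq h0) rfl
          exact mul_nonpos_of_nonneg_of_nonpos (hw z p) (by rw [e2]; exact h1 _)
      · change 0 ≤ -∑ p ∈ t, w z p * g p
        refine neg_nonneg.2 (Finset.sum_nonpos fun p _ => ?_)
        by_cases h0 : tent p.2 (z 1) = 0
        · simp [w, h0]
        · have e : z 1 = ((0 : ℕ) : ℝ) := by simpa using hi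
          rw [e] at h0
          have e2 : p = (p.1, 0) := Prod.ext rfl (tent_eq h0)
          exact mul_nonpos_of_nonneg_of_nonpos (hw z p) (by rw [e2]; exact h3 _))
    (by
      intro z _ i hi
      fin_cases i
      · change -∑ p ∈ t, w z p * f p ≤ 0
        refine neg_nonpos.2 (Finset.sum_nonneg fun p _ => ?_)
        by_cases h0 : tent p.1 (z 0) = 0
        · simp [w, h0]
        · have e : z 0 = (m : ℝ) := by simpa using hi
          rw [e] at h0
          have e2 : p = (m, p.2) := Prod.ext (tent_eq h0) rfl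
          exact mul_nonneg (hw z p) (by rw [e2]; exact h2 _)
      · change -∑ p ∈ t, w z p * g p ≤ 0
        refine neg_nonpos.2 (Finset.sum_nonneg fun p _ => ?_)
        by_cases h0 : tent p.2 (z 1) = 0
        · simp [w, h0]
        · have e : z 1 = (n : ℝ) := by simpa using hi
          rw [e] at h0
          have e2 : p = (p.1, n) := Prod.ext rfl (tent_eq h0)
          exact mul_nonneg (hw z p) (by rw [e2]; exact h4 _))
  obtain ⟨i0, hi0, hp1⟩ := tent_pos (m := m) (s := z 0) (hz.1 0) (by simpa using hz.2 0)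
  obtain ⟨j0, hj0, hp2⟩ := tent_pos (m := n) (s := z 1) (hz.1 1) (by simpa using hz.2 1)
  have hmem : (i0, j0) ∈ t := by
    simp only [t, Finset.mem_product, Finset.mem_range]; omega
  have hp : 0 < w z (i0, j0) := mul_pos hp1 hp2
  have hcl : ∀ p ∈ t, w z p ≠ 0 → |f p - f (i0, j0)| < η ∧ |g p - g (i0, j0)| < η := by
    intro p hpt hp0
    simp only [t, Finset.mem_product, Finset.mem_range] at hpt
    exact hc p.1 (by omega) i0 hi0 p.2 (by omega) j0 hj0
      (tent_adj (left_ne_zero_of_mul hp0) hp1.ne') (tent_adj (right_ne_zero_of_mul hp0) hp2.ne')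
  have e0 : -∑ p ∈ t, w z p * f p = 0 := congrFun hz0 0
  have e1 : -∑ p ∈ t, w z p * g p = 0 := congrFun hz0 1
  exact ⟨(i0, j0),
    small_of_sum t (w z) f (hw z) hmem hp (fun p h h' => (hcl p h h').1) (neg_eq_zero.1 e0),
    small_of_sum t (w z) g (hw z) hmem hp (fun p h h' => (hcl p h h').2) (neg_eq_zero.1 e1)⟩

/-- Poincaré–Miranda on a product of two continua. -/
theorem pmc {X : Type} [UniformSpace X] {S S' : Set X} (hS : IsCompact S)
    (hSc : IsPreconnected S) (hS' : IsCompact S') (hSc' : IsPreconnected S') (f g : X × X → ℝ)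
    (hf : ContinuousOn f (S ×ˢ S')) (hg : ContinuousOn g (S ×ˢ S')) {a b a' b' : X} (ha : a ∈ S)
    (hb : b ∈ S) (ha' : a' ∈ S') (hb' : b' ∈ S') (h1 : ∀ y ∈ S', f (a, y) ≤ 0)
    (h2 : ∀ y ∈ S', 0 ≤ f (b, y)) (h3 : ∀ x ∈ S, g (x, a') ≤ 0) (h4 : ∀ x ∈ S, 0 ≤ g (x, b')) :
    ∃ x ∈ S, ∃ y ∈ S', f (x, y) = 0 ∧ g (x, y) = 0 := by
  have hK : IsCompact (S ×ˢ S') := hS.prod hS'
  obtain ⟨z, hz, hmin⟩ := hK.exists_isMinOn ⟨(a, a'), ha, ha'⟩ (hf.abs.add hg.abs)
  suffices h : |f z| + |g z| ≤ 0 by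
    refine ⟨z.1, hz.1, z.2, hz.2, abs_eq_zero.1 ?_, abs_eq_zero.1 ?_⟩
    · linarith [abs_nonneg (f z), abs_nonneg (g z)]
    · linarith [abs_nonneg (f z), abs_nonneg (g z)]
  refine le_of_forall_pos_le_add fun ε hε => ?_
  have hu := hK.uniformContinuousOn_of_continuous hf
  have hv := hK.uniformContinuousOn_of_continuous hg
  have hE : ∀ᶠ q : (X × X) × (X × X) in uniformity (X × X) ⊓ 𝓟 ((S ×ˢ S') ×ˢ (S ×ˢ S')),
      dist (f q.1) (f q.2) < ε / 2 ∧ dist (g q.1) (g q.2) < ε / 2 :=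
    Filter.Eventually.and (hu (Metric.dist_mem_uniformity (half_pos hε)))
      (hv (Metric.dist_mem_uniformity (half_pos hε)))
  rw [eventually_inf_principal] at hE
  obtain ⟨W1, hW1, W2, hW2, hW⟩ := entourageProd_subset hE
  obtain ⟨m, x, x0, xm, hx, hxs⟩ := exists_chain hSc hW1 ha hb
  obtain ⟨n, y, y0, yn, hy, hys⟩ := exists_chain hSc' hW2 ha' hb'
  have adj : ∀ {W : Set (X × X)} (_ : W ∈ uniformity X) {m : ℕ} {x : ℕ → X}
      (_ : ∀ i < m, (x i, x (i + 1)) ∈ W ∧ (x (i + 1), x i) ∈ W) {i k : ℕ}, i ≤ m → k ≤ m →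
      (i = k ∨ i + 1 = k ∨ k + 1 = i) → (x i, x k) ∈ W := by
    intro W hW m x hs i k hi hk h
    rcases h with rfl | rfl | rfl
    · exact refl_mem_uniformity hW
    · exact (hs i hk).1
    · exact (hs k hi).2
  obtain ⟨p, hp1, hp2⟩ := grid_zero m n (fun p => f (x p.1, y p.2)) (fun p => g (x p.1, y p.2))
    (fun j => by simpa [x0] using h1 _ (hy j)) (fun j => by simpa [xm] using h2 _ (hy j))
    (fun i => by simpa [y0] using h3 _ (hx i)) (fun i => by simpa [yn] using h4 _ (hx i))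
    (η := ε / 2) (by
      intro i hi k hk j hj l hl e1 e2
      have : ((x i, y j), (x k, y l)) ∈ entourageProd W1 W2 :=
        ⟨adj hW1 hxs hi hk e1, adj hW2 hys hj hl e2⟩
      simpa [Real.dist_eq] using hW this ⟨⟨hx i, hy j⟩, ⟨hx k, hy l⟩⟩)
  have := hmin (show (x p.1, y p.2) ∈ S ×ˢ S' from ⟨hx _, hy _⟩)
  change |f z| + |g z| ≤ |f (x p.1, y p.2)| + |g (x p.1, y p.2)| at this
  linarith

end Pool.Agent.P.MP_5aae23_gt.Nsh
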