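import Pool.Agent.P.MP_5aae23_gt.NN

open Set Filter Topology Function

namespace Pool.Agent.P.MP_5aae23_gt.Nsh

variable {H : Type*} [NormedAddCommGroup H] [NormedSpace ℝ H] (A : Asy H)

theorem ratio_bd {g G x y σ : ℝ} (hg : 0 < g) (hσ : 0 ≤ σ) (hx : g ≤ |x| ∧ |x| ≤ G)
    (hy : g ≤ |y| ∧ |y| ≤ G) : |x / y * σ| ≤ G / g * σ ∧ σ * (g / G) ≤ |x / y * σ| := by
  have hy0 : 0 < |y| := hg.trans_le hy.1
  rw [abs_mul, abs_div, abs_of_nonneg hσ]
  refine ⟨mul_le_mul_of_nonneg_right ?_ hσ, ?_⟩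
  · exact div_le_div₀ ((abs_nonneg x).trans hx.2) hx.2 hg hy.1
  · rw [mul_comm]
    exact mul_le_mul_of_nonneg_right (div_le_div₀ (abs_nonneg x) hx.1 hy0 hy.2) hσ

theorem Asy.split {s : Fin 3 → ℝ} (hs : s ∈ Icc A.lo A.hi) (S : Finset ℕ) {n : ℕ} (hn : n ∉ S)
    {r : Cf} (hr : r ∈ A.M 2 (insert n S))
    (hσ : A.y n 2 r = A.δ * A.g / (4 * A.G) * (A.g / A.G)) :
    ∃ a ∈ A.M 0 S, ∃ b ∈ A.M 1 {n},
      (∀ k, ∑ v, A.lam s ![a, b, r] v * A.y k v (![a, b, r] v) = 0) ∧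
      (∀ k, |A.y k 0 a| ≤ A.δ * A.g / (4 * A.G)) ∧ (∀ k, |A.y k 1 b| ≤ A.δ * A.g / (4 * A.G)) ∧
      A.δ * A.g / (4 * A.G) * (A.g / A.G) * (A.g / A.G) ≤ |A.y n 1 b| := by
  set d1 := A.δ * A.g / (4 * A.G) with hd1
  set σ := d1 * (A.g / A.G) with hσd
  let SS : Fin 3 → Finset ℕ := ![S, {n}, insert n S]
  have hmem : ∀ a ∈ A.M 0 S, ∀ b ∈ A.M 1 {n}, ∀ w, ![a, b, r] w ∈ A.M w (SS w) := by
    intro a ha b hb w
    fin_cases w
    · exact ha
    · exact hb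
    · exact hr
  let l : Fin 3 → Cf × Cf → ℝ := fun v z => A.lam s ![z.1, z.2, r] v
  have hl : ∀ a ∈ A.M 0 S, ∀ b ∈ A.M 1 {n}, ∀ v, A.g ≤ |l v (a, b)| ∧ |l v (a, b)| ≤ A.G :=
    fun a ha b hb v => A.lbd s hs SS _ (hmem a ha b hb) v
  have hl0 : ∀ a ∈ A.M 0 S, ∀ b ∈ A.M 1 {n}, ∀ v, l v (a, b) ≠ 0 := fun a ha b hb v =>
    abs_pos.1 (A.gpos.trans_le (hl a ha b hb v).1)
  have hlc : ∀ v, ContinuousOn (l v) (A.M 0 S ×ˢ A.M 1 {n}) := by
    intro v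
    have hc : Continuous fun z : Cf × Cf => ((s, ![z.1, z.2, r]) : (Fin 3 → ℝ) × (Fin 3 → Cf)) := by
      refine continuous_const.prodMk (continuous_pi fun w => ?_)
      fin_cases w
      · exact continuous_fst
      · exact continuous_snd
      · exact continuous_const
    exact (A.lcont SS v).comp hc.continuousOn fun z hz => ⟨hs, fun w _ => hmem _ hz.1 _ hz.2 w⟩
  have hδ := A.dpos
  have hg := A.gpos
  obtain ⟨a0, ha0, ea0⟩ := A.ysur 0 S (-A.δ) (by rw [abs_neg, abs_of_pos hδ])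
  obtain ⟨a1, ha1, ea1⟩ := A.ysur 0 S A.δ (by rw [abs_of_pos hδ])
  obtain ⟨b0, hb0, eb0⟩ := A.ysur 1 {n} (-A.δ) (by rw [abs_neg, abs_of_pos hδ])
  obtain ⟨b1, hb1, eb1⟩ := A.ysur 1 {n} A.δ (by rw [abs_of_pos hδ])
  have hgG : A.g ≤ A.G := (hl a0 ha0 b0 hb0 0).1.trans (hl a0 ha0 b0 hb0 0).2
  have hG : 0 < A.G := hg.trans_le hgG
  have hd0 : 0 ≤ d1 := by positivity
  have hσ0 : 0 ≤ σ := by positivity
  have hdδ : d1 ≤ A.δ := by
    rw [hd1, div_le_iff₀ (by positivity)]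
    nlinarith
  have hGσ : A.G / A.g * σ = d1 := by rw [hσd]; field_simp
  have hq : ∀ a ∈ A.M 0 S, ∀ b ∈ A.M 1 {n}, ∀ v,
      |l 2 (a, b) / l v (a, b) * σ| ≤ d1 ∧ σ * (A.g / A.G) ≤ |l 2 (a, b) / l v (a, b) * σ| :=
    fun a ha b hb v => hGσ ▸ ratio_bd hg hσ0 (hl a ha b hb 2) (hl a ha b hb v)
  have hqc : ∀ v, ContinuousOn (fun z => l 2 z / l v z * σ) (A.M 0 S ×ˢ A.M 1 {n}) := fun v =>
    ((hlc 2).div (hlc v) fun z hz => hl0 _ hz.1 _ hz.2 v).mul continuousOn_const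
  obtain ⟨a, ha, b, hb, e1, e2⟩ := pmc (A.Mcpt 0 S) (A.Mconn 0 S).2 (A.Mcpt 1 {n})
    (A.Mconn 1 {n}).2 (fun z => ∑ k ∈ S, (A.y k 0 z.1 + l 2 z / l 0 z * σ))
    (fun z => A.y n 1 z.2 + l 2 z / l 1 z * σ)
    (continuousOn_finsetSum _ fun k _ =>
      ((A.ycont k 0).comp continuous_fst).continuousOn.add (hqc 0))
    (((A.ycont n 1).comp continuous_snd).continuousOn.add (hqc 1)) ha0 ha1 hb0 hb1
    (fun y hy => Finset.sum_nonpos fun k hk => by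
      have := (abs_le.1 (hq a0 ha0 y hy 0).1).2
      simp only [ea0 k hk]; linarith)
    (fun y hy => Finset.sum_nonneg fun k hk => by
      have := (abs_le.1 (hq a1 ha1 y hy 0).1).1
      simp only [ea1 k hk]; linarith)
    (fun x hx => by
      have := (abs_le.1 (hq x hx b0 hb0 1).1).2
      simp only [eb0 n (Finset.mem_singleton_self n)]; linarith)
    (fun x hx => by
      have := (abs_le.1 (hq x hx b1 hb1 1).1).1
      simp only [eb1 n (Finset.mem_singleton_self n)]; linarith)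
  have ea : ∀ k ∈ S, A.y k 0 a = -(l 2 (a, b) / l 0 (a, b) * σ) := by
    intro k hk
    have h1 : ∑ j ∈ S, (A.y j 0 a + l 2 (a, b) / l 0 (a, b) * σ) =
        ∑ _j ∈ S, (A.y k 0 a + l 2 (a, b) / l 0 (a, b) * σ) :=
      Finset.sum_congr rfl fun j hj => by rw [A.yeq 0 S a ha j hj k hk]
    rw [e1, Finset.sum_const, nsmul_eq_mul] at h1
    have h2 : (S.card : ℝ) ≠ 0 := Nat.cast_ne_zero.2 (Finset.card_ne_zero.2 ⟨k, hk⟩)
    linarith [(mul_eq_zero.1 h1.symm).resolve_left h2]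
  have eb : A.y n 1 b = -(l 2 (a, b) / l 1 (a, b) * σ) := by linarith
  refine ⟨a, ha, b, hb, fun k => ?_, fun k => ?_, fun k => ?_, ?_⟩
  · rw [Fin.sum_univ_three]
    change l 0 (a, b) * A.y k 0 a + l 1 (a, b) * A.y k 1 b + l 2 (a, b) * A.y k 2 r = 0
    by_cases hk : k ∈ S
    · have hkn : k ∉ ({n} : Finset ℕ) := fun h => hn (Finset.mem_singleton.1 h ▸ hk)
      have h0 := hl0 a ha b hb 0
      rw [ea k hk, A.yzero 1 _ b hb k hkn, A.yeq 2 _ r hr k (Finset.mem_insert_of_mem hk) n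
        (Finset.mem_insert_self n S), hσ]
      field_simp
      ring
    · rw [A.yzero 0 S a ha k hk]
      by_cases hkn : k = n
      · have h0 := hl0 a ha b hb 1
        rw [hkn, eb, hσ]
        field_simp
        ring
      · rw [A.yzero 1 _ b hb k (by simpa using hkn), A.yzero 2 _ r hr k (by simp [hk, hkn])]
        simp
  · by_cases hk : k ∈ S
    · rw [ea k hk, abs_neg]; exact (hq a ha b hb 0).1
    · rw [A.yzero 0 S a ha k hk, abs_zero]; exact hd0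
  · by_cases hkn : k = n
    · rw [hkn, eb, abs_neg]; exact (hq a ha b hb 1).1
    · rw [A.yzero 1 _ b hb k (by simpa using hkn), abs_zero]; exact hd0
  · rw [eb, abs_neg]; exact (hq a ha b hb 1).2

end Pool.Agent.P.MP_5aae23_gt.Nsh
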