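import Pool.Agent.P.MP_5aae23_gt.NO

open Set Filter Topology Function

namespace Pool.Agent.P.MP_5aae23_gt.Nsh

/-- Bessel: a vector cannot have a large component along many orthogonal directions. -/
theorem bessel {K : Type*} [NormedAddCommGroup K] [InnerProductSpace ℝ K] {N : ℕ}
    (e : Fin N → K) (h0 : ∀ i, e i ≠ 0) (h1 : ∀ i j, i ≠ j → inner ℝ (e i) (e j) = 0) (w : K)
    {c : ℝ} (hc : 0 ≤ c) (h2 : ∀ i, c * ‖e i‖ ≤ |inner ℝ w (e i)|) : N * c ^ 2 ≤ ‖w‖ ^ 2 := by
  have ho : Orthonormal ℝ fun i => ‖e i‖⁻¹ • e i :=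
    ⟨fun i => norm_smul_inv_norm (h0 i), fun i j hij => by
      simp only [real_inner_smul_left, real_inner_smul_right, h1 i j hij, mul_zero]⟩
  refine le_trans ?_ (ho.sum_inner_products_le w (s := Finset.univ))
  have : ∀ i ∈ (Finset.univ : Finset (Fin N)), c ^ 2 ≤ ‖inner ℝ (‖e i‖⁻¹ • e i) w‖ ^ 2 := by
    intro i _
    refine pow_le_pow_left₀ hc ?_ 2
    have hp : 0 < ‖e i‖ := norm_pos_iff.2 (h0 i)
    rw [real_inner_smul_left, real_inner_comm, Real.norm_eq_abs, abs_mul, abs_of_pos (inv_pos.2 hp),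
      ← div_eq_inv_mul, le_div_iff₀ hp]
    exact h2 i
  simpa using Finset.card_nsmul_le_sum _ _ _ this

theorem Asy.false {H : Type*} [NormedAddCommGroup H] [InnerProductSpace ℝ H] (A : Asy H) :
    False := by
  have hlo : A.lo ∈ Icc A.lo A.hi := ⟨le_rfl, fun v => (A.lohi v).le⟩
  have hgG : A.g ≤ A.G := by
    have := A.lbd A.lo hlo (fun _ => ∅) (fun _ => A.pt) (fun w => by rw [A.Mempty]; rfl) 0
    exact this.1.trans this.2
  have hg := A.gpos
  have hG : 0 < A.G := hg.trans_le hgG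
  have hδ := A.dpos
  set d := A.δ * A.g / (4 * A.G) with hd
  set q := A.g / A.G with hq
  have q0 : 0 < q := div_pos hg hG
  have q1 : q ≤ 1 := (div_le_one hG).2 hgG
  have d0 : 0 < d := by positivity
  have d1 : d ≤ A.δ := by
    rw [hd, div_le_iff₀ (by positivity)]
    nlinarith
  have s0 : 0 < d * q := mul_pos d0 q0
  have s1 : d * q ≤ d := mul_le_of_le_one_right d0.le q1
  have hU : (hyperfilter ℕ : Filter ℕ) ≤ atTop := by
    rw [← Nat.cofinite_eq_atTop]; exact hyperfilter_le_cofinite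
  obtain ⟨V, K, _, _, Q, t1, t2, hne, hQ, hk⟩ := uq H (hyperfilter ℕ) hU
  have bd : ∀ {v : Fin 3} {S : ℕ → Finset ℕ} {a : ℕ → Cf}, (∀ k, a k ∈ A.M v (S k)) →
      ∃ C, ∀ k, ‖A.J v (a k)‖ ≤ C := fun h => ⟨A.B, fun k => A.Jle _ _ _ (h k)⟩
  -- points with a prescribed common value
  have pick : ∀ (v : Fin 3) (S : Finset ℕ) (r : ℝ), 0 < r → r ≤ d → ∃ a ∈ A.M v S,
      (∀ n ∈ S, A.y n v a = r) ∧ ∀ n, |A.y n v a| ≤ d := by
    intro v S r h1 h2
    obtain ⟨a, ha, h⟩ := A.ysur v S r (by rw [abs_of_pos h1]; exact h2.trans d1)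
    refine ⟨a, ha, h, fun n => ?_⟩
    by_cases hn : n ∈ S
    · rw [h n hn, abs_of_pos h1]; exact h2
    · rw [A.yzero v S a ha n hn, abs_zero]; exact d0.le
  have up : ∀ {v : Fin 3} {S : ℕ → Finset ℕ} {a : ℕ → Cf}, (∀ k, a k ∈ A.M v (S k)) →
      ‖Q fun k => A.J v (a k)‖ ^ 2 ≤ (A.B + A.B) ^ 2 := by
    intro v S a ha
    rw [← real_inner_self_eq_norm_sq]
    refine le_of_tendsto' (hQ _ _ (bd ha) (bd ha)) fun kl => ?_
    rw [real_inner_self_eq_norm_sq]
    exact pow_le_pow_left₀ (norm_nonneg _)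
      (norm_sub_le_of_le (A.Jle _ _ _ (ha _)) (A.Jle _ _ _ (ha _))) 2
  have low : ∀ (v : Fin 3) (σ : ℝ), 0 < σ → ∃ c > 0, ∀ (S : ℕ → Finset ℕ) (a : ℕ → Cf),
      (∀ k, (S k).Nonempty) → (∀ k l, k ≠ l → Disjoint (S k) (S l)) → (∀ k, ∀ n ∈ S k, k ≤ n) →
      (∀ k, a k ∈ A.M v (S k)) → (∀ k n, |A.y n v (a k)| ≤ d) →
      (∀ k, ∀ n ∈ S k, σ ≤ |A.y n v (a k)|) → c ≤ ‖Q fun k => A.J v (a k)‖ := by
    intro v σ hσ
    obtain ⟨c, hc, n2, h⟩ := A.f3 v hσ
    refine ⟨c, hc, fun S a h1 h2 h3 h4 h5 h6 => ?_⟩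
    refine (pow_le_pow_iff_left₀ hc.le (norm_nonneg _) two_ne_zero).1 ?_
    rw [← real_inner_self_eq_norm_sq]
    refine ge_of_tendsto (hQ _ _ (bd h4) (bd h4)) ?_
    filter_upwards [hne, (t2.mono_right hU).eventually (eventually_ge_atTop n2)] with kl e1 e2
    rw [real_inner_self_eq_norm_sq]
    exact pow_le_pow_left₀ hc.le (h _ _ (h1 _) (h2 _ _ e1) (fun n hn => e2.trans (h3 _ n hn)) _
      (h4 _) _ (h4 _) (h5 _) (h6 _)) 2
  have onl : ∀ {v v' : Fin 3}, v ≠ v' → ∀ (S : ℕ → Finset ℕ) (a b : ℕ → Cf),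
      (∀ k, (S k).Nonempty) → (∀ k, a k ∈ A.M v (S k)) → (∀ k, b k ∈ A.M v' (S k)) →
      (∀ k n, |A.y n v (a k)| ≤ d) → (∀ k n, |A.y n v' (b k)| ≤ d) →
      (Q fun k => A.J v' (b k)) ≠ 0 →
      ∃ t : ℝ, (Q fun k => A.J v (a k)) = t • Q fun k => A.J v' (b k) := by
    intro v v' hv S a b h1 h2 h3 h4 h5 h6
    obtain ⟨α, β, x, h7, h8⟩ := A.line (hyperfilter ℕ) hv S h1 a b h2 h3 h4 h5
    have h9 := hk ![fun k => A.J v (a k), fun k => A.J v' (b k), fun k => A.J v (a k)]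
      (fun _ => ![α, β, 0]) ![α, β, 0] x
      (fun w => by
        fin_cases w
        exacts [bd h2, bd h3, bd h2])
      tendsto_const_nhds (by simpa [Fin.sum_univ_three] using h8)
    have h10 : α • (Q fun k => A.J v (a k)) + β • (Q fun k => A.J v' (b k)) = 0 := by
      simpa [Fin.sum_univ_three] using h9
    have hα : α ≠ 0 := by
      rintro rfl
      rw [zero_smul, zero_add, smul_eq_zero] at h10
      tauto
    refine ⟨-(β / α), smul_right_injective K hα ?_⟩
    simp only [smul_smul]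
    rw [eq_neg_of_add_eq_zero_left h10, ← neg_smul]
    congr 1
    field_simp
  choose x hx hx1 hx2 using fun n => pick 0 {n} d d0 le_rfl
  obtain ⟨φ, L, hφ, hL⟩ := extract (fun n => A.J 0 (x n)) A.B fun n => A.Jle _ _ _ (hx n)
  obtain ⟨c0, hc0, low0⟩ := low 0 d d0
  obtain ⟨c1, hc1, low1⟩ := low 1 (d * q * q) (mul_pos s0 q0)
  obtain ⟨c2, hc2, low2⟩ := low 2 (d * q) s0
  have l1 := A.sne _ hlo 1
  have l2 := A.sne _ hlo 2
  have cp : 0 < |A.lo 1| * c1 / |A.lo 2| := by positivity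
  obtain ⟨N', hN'⟩ := exists_nat_gt ((A.B + A.B) ^ 2 / (|A.lo 1| * c1 / |A.lo 2|) ^ 2)
  obtain ⟨N, hN0, hN⟩ : ∃ N : ℕ, 0 < N ∧
      (A.B + A.B) ^ 2 < N * (|A.lo 1| * c1 / |A.lo 2|) ^ 2 :=
    ⟨N' + 1, N'.succ_pos, by
      rw [← div_lt_iff₀ (by positivity)]
      push_cast
      linarith⟩
  let st : ℕ → Fin N → ℕ := fun k j => φ (k * N + j)
  have inj : ∀ {k l : ℕ} {i j : Fin N}, k * N + i = l * N + j → k = l ∧ i = j := by
    intro k l i j h
    have h1 : (k * N + i) % N = (l * N + j) % N := by rw [h]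
    rw [Nat.mul_add_mod', Nat.mul_add_mod', Nat.mod_eq_of_lt i.2, Nat.mod_eq_of_lt j.2] at h1
    rw [h1] at h
    exact ⟨Nat.eq_of_mul_eq_mul_right hN0 (Nat.add_right_cancel h), Fin.ext h1⟩
  have ge : ∀ (k : ℕ) (j : Fin N), k ≤ k * N + j := fun k j =>
    (Nat.le_mul_of_pos_right k hN0).trans (Nat.le_add_right _ _)
  have dj : ∀ (S : Finset (Fin N)) k l, k ≠ l → Disjoint (S.image (st k)) (S.image (st l)) := by
    intro S k l hkl
    refine Finset.disjoint_left.2 fun n h1 h2 => ?_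
    obtain ⟨i, -, rfl⟩ := Finset.mem_image.1 h1
    obtain ⟨j, -, h⟩ := Finset.mem_image.1 h2
    exact hkl (inj (hφ.injective h)).1.symm
  have gs : ∀ (S : Finset (Fin N)) k, ∀ n ∈ S.image (st k), k ≤ n := by
    intro S k n h
    obtain ⟨i, -, rfl⟩ := Finset.mem_image.1 h
    exact (ge k i).trans hφ.le_apply
  have dj1 : ∀ (i : Fin N) k l, k ≠ l → Disjoint ({st k i} : Finset ℕ) {st l i} :=
    fun i k l h => by simpa using dj {i} k l h
  have gs1 : ∀ (i : Fin N) k, ∀ n ∈ ({st k i} : Finset ℕ), k ≤ n :=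
    fun i k => by simpa using gs {i} k
  let e : Fin N → K := fun j => Q fun k => A.J 0 (x (st k j))
  have be : ∀ j, ∃ C, ∀ k, ‖A.J 0 (x (st k j))‖ ≤ C := fun j => bd fun k => hx (st k j)
  have e0 : ∀ j, e j ≠ 0 := fun j => norm_pos_iff.1 (hc0.trans_le
    (low0 (fun k => {st k j}) _ (fun _ => Finset.singleton_nonempty _) (dj1 j) (gs1 j)
      (fun k => hx _) (fun k => hx2 _) fun k n hn => by rw [hx1 _ n hn]; exact le_abs_self d))
  have e1 : ∀ i j, i ≠ j → inner ℝ (e i) (e j) = 0 := by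
    intro i j hij
    have lim : ∀ p p' : ℕ × ℕ → ℕ, Tendsto p V atTop → Tendsto p' V atTop → Tendsto
        (fun kl => inner ℝ (A.J 0 (x (st (p kl) i))) (A.J 0 (x (st (p' kl) j)))) V (𝓝 L) := by
      intro p p' hp hp'
      refine Metric.tendsto_nhds.2 fun ε hε => ?_
      obtain ⟨i0, h⟩ := hL ε hε
      filter_upwards [hp.eventually (eventually_ge_atTop i0),
        hp'.eventually (eventually_ge_atTop i0)] with kl f1 f2
      exact h _ _ (f1.trans (ge _ _)) (f2.trans (ge _ _)) fun h' => hij (inj h').2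
    have u1 := t1.mono_right hU
    have u2 := t2.mono_right hU
    have := ((lim _ _ u1 u1).sub (lim _ _ u2 u1)).sub ((lim _ _ u1 u2).sub (lim _ _ u2 u2))
    rw [sub_self] at this
    exact tendsto_nhds_unique (hQ _ _ (be i) (be j))
      (this.congr fun kl => by simp only [inner_sub_left, inner_sub_right])
  -- one splitting step
  have step : ∀ (S : Finset (Fin N)) (i : Fin N), i ∉ S →
      (∀ a : ℕ → Cf, (∀ k, a k ∈ A.M 0 (S.image (st k))) → (∀ k n, |A.y n 0 (a k)| ≤ d) →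
        ∀ j ∉ S, inner ℝ (Q fun k => A.J 0 (a k)) (e j) = 0) →
      ∀ r : ℕ → Cf, (∀ k, r k ∈ A.M 2 ((insert i S).image (st k))) →
      (∀ k, ∀ n ∈ (insert i S).image (st k), A.y n 2 (r k) = d * q) →
      ∃ t : ℝ, c1 ≤ |t| * ‖e i‖ ∧ ∀ j ∉ S, A.lo 1 * (t * inner ℝ (e i) (e j)) +
        A.lo 2 * inner ℝ (Q fun k => A.J 2 (r k)) (e j) = 0 := by
    intro S i hi ih r hr hr1
    have hn : ∀ k, st k i ∉ S.image (st k) := fun k h => by
      obtain ⟨j, hj, h⟩ := Finset.mem_image.1 h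
      exact hi ((inj (hφ.injective h)).2 ▸ hj)
    choose a ha b hb h1 h2 h3 h4 using fun k => A.split hlo (S.image (st k)) (hn k) (r := r k)
      (by rw [← Finset.image_insert]; exact hr k)
      (hr1 k _ (Finset.mem_image_of_mem _ (Finset.mem_insert_self i S)))
    have hm : ∀ k w, ![a k, b k, r k] w ∈
        A.M w (![S.image (st k), {st k i}, (insert i S).image (st k)] w) := fun k w => by
      fin_cases w
      exacts [ha k, hb k, hr k]
    obtain ⟨z, hz⟩ := A.cl (hyperfilter ℕ) (fun _ => A.lo) _ (fun k => ![a k, b k, r k])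
      (fun _ => hlo) hm h1
    have h5 := hk (fun v k => A.J v (![a k, b k, r k] v)) (fun _ => A.lo) A.lo z
      (fun v => bd fun k => hm k v) tendsto_const_nhds hz
    have h6 : A.lo 0 • (Q fun k => A.J 0 (a k)) + A.lo 1 • (Q fun k => A.J 1 (b k)) +
        A.lo 2 • (Q fun k => A.J 2 (r k)) = 0 := by
      rw [Fin.sum_univ_three] at h5
      exact h5
    obtain ⟨t, ht⟩ := onl (v := 1) (v' := 0) one_ne_zero (fun k => {st k i}) b
      (fun k => x (st k i)) (fun _ => Finset.singleton_nonempty _) hb (fun k => hx _) h3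
      (fun k => hx2 _) (e0 i)
    have h7 := low1 (fun k => {st k i}) b (fun _ => Finset.singleton_nonempty _) (dj1 i) (gs1 i)
      hb h3 fun k n hn => by rw [Finset.mem_singleton.1 hn]; exact h4 k
    rw [ht, norm_smul] at h7
    refine ⟨t, h7, fun j hj => ?_⟩
    have h8 := congrArg (fun u => inner ℝ u (e j)) h6
    simp only [inner_add_left, real_inner_smul_left, inner_zero_left, ih a ha h2 j hj, ht,
      mul_zero, zero_add] at h8
    exact h8
  have ind : ∀ S : Finset (Fin N), ∀ a : ℕ → Cf, (∀ k, a k ∈ A.M 0 (S.image (st k))) →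
      (∀ k n, |A.y n 0 (a k)| ≤ d) → ∀ j ∉ S, inner ℝ (Q fun k => A.J 0 (a k)) (e j) = 0 := by
    intro S
    induction S using Finset.induction_on with
    | empty =>
      intro a ha _ j _
      have h1 : ∀ k, a k = A.pt := fun k => by
        have := ha k
        rwa [Finset.image_empty, A.Mempty] at this
      refine tendsto_nhds_unique (hQ _ _ (bd ha) (be j)) ?_
      simp only [h1, sub_self, inner_zero_left]
      exact tendsto_const_nhds
    | insert i S hi ih =>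
      intro a ha ha' j hj
      rw [Finset.mem_insert, not_or] at hj
      choose r hr hr1 hr2 using fun k => pick 2 ((insert i S).image (st k)) (d * q) s0 s1
      obtain ⟨t, -, ht⟩ := step S i hi ih r hr hr1
      have h1 := ht j hj.2
      rw [e1 i j (Ne.symm hj.1), mul_zero, mul_zero, zero_add] at h1
      have hS : ∀ k, ((insert i S).image (st k)).Nonempty := fun k =>
        (Finset.insert_nonempty i S).image _
      obtain ⟨t', ht'⟩ := onl (v := 0) (v' := 2) (by decide) _ a r hS ha hr ha' hr2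
        (norm_pos_iff.1 (hc2.trans_le (low2 _ r hS (dj _) (gs _) hr hr2 fun k n hn => by
          rw [hr1 k n hn]; exact le_abs_self _)))
      rw [ht', real_inner_smul_left, (mul_eq_zero.1 h1).resolve_left l2, mul_zero]
  choose r hr hr1 hr2 using fun k => pick 2 (Finset.univ.image (st k)) (d * q) s0 s1
  refine absurd ((bessel e e0 e1 (Q fun k => A.J 2 (r k)) cp.le fun i => ?_).trans (up hr))
    (not_le.2 hN)
  have hu := Finset.insert_erase (Finset.mem_univ i)
  obtain ⟨t, ht, ht'⟩ := step _ i (Finset.notMem_erase i Finset.univ) (ind _) r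
    (by rw [hu]; exact hr) (by rw [hu]; exact hr1)
  have h1 := congrArg abs (eq_neg_of_add_eq_zero_left (ht' i (Finset.notMem_erase i _)))
  rw [abs_neg, abs_mul, abs_mul, abs_mul, real_inner_self_eq_norm_sq, abs_pow, abs_norm] at h1
  rw [div_mul_eq_mul_div, div_le_iff₀ (abs_pos.2 l2), mul_comm _ |A.lo 2|, ← h1, mul_assoc, sq,
    ← mul_assoc |t|]
  gcongr

end Pool.Agent.P.MP_5aae23_gt.Nsh
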