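import Pool.Agent.P.MP_5aae23_gt.NL
import Pool.Agent.P.MP_5aae23_gt.NQ

open Set Filter Topology Function

namespace Pool.Agent.P.MP_5aae23_gt.Nsh

theorem main : ∃ X : Submodule ℝ (ZeroAtInftyContinuousMap ℕ ℝ),
    (∃ Y : ℕ → Set (ZeroAtInftyContinuousMap ℕ ℝ), (∀ k, IsClosed (Y k)) ∧ ⋃ k, Y k = X) ∧
    ∀ (F : Type*) [NormedAddCommGroup F] [InnerProductSpace ℝ F], IsEmpty (X ≃ₜ F) := by
  obtain ⟨d, hd⟩ := exists_dfam
  exact ⟨XX d, xx_fsigma hd, fun F _ _ => ⟨fun h => (asy_of hd h).elim fun A => A.false⟩⟩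

end Pool.Agent.P.MP_5aae23_gt.Nsh
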