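import Mathlib

/-!
Independent selections, Cantor trees of independent tuples, and a linear functional that takes
prescribed values on a point of the closure of every rich set of tuples.
-/

open Set Filter Topology Submodule
open Cardinal hiding univ

namespace Pool.Agent.P.MP_5aae23_gt.Rigid

universe u

section Sel

variable {E : Type*} [AddCommGroup E] [Module ℝ E] {m ι : Type*}

/-- A family of tuples is jointly independent. -/
def JI (z : ι → m → E) : Prop := LinearIndependent ℝ fun p : ι × m => z p.1 p.2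

/-- A tuple is independent modulo `W`. -/
def IM (W : Submodule ℝ E) (w : m → E) : Prop :=
  LinearIndependent ℝ w ∧ Disjoint (span ℝ (range w)) W

/-- The vectors of the tuples before `i`. -/
def before [LT ι] (z : ι → m → E) (i : ι) : Set E := {x | ∃ j < i, ∃ k, z j k = x}

theorem ji_of_finset (z : ι → m → E)
    (h : ∀ s : Finset ι, LinearIndepOn ℝ (fun p : ι × m => z p.1 p.2) ((s : Set ι) ×ˢ univ)) :
    JI z := by
  classical
  refine linearIndepOn_univ_iff.1 (linearIndepOn_of_finite univ fun t _ ht => ?_)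
  refine (h (ht.toFinset.image Prod.fst)).mono fun p hp => ⟨?_, mem_univ _⟩
  simpa using ⟨p.2, hp⟩

theorem ji_of_chain [LinearOrder ι] (z : ι → m → E)
    (h : ∀ i, IM (span ℝ (before z i)) (z i)) : JI z := by
  refine ji_of_finset z fun s => ?_
  induction s using Finset.induction_on_max with
  | empty => simp
  | insert a s ha ih =>
    have e : ((insert a s : Finset ι) : Set ι) ×ˢ (univ : Set m)
        = ({a} : Set ι) ×ˢ univ ∪ (s : Set ι) ×ˢ univ := by
      ext p; simp
    rw [e]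
    refine LinearIndepOn.union ?_ ih ?_
    · have h1 := (h a).1.comp (fun x : (({a} : Set ι) ×ˢ (univ : Set m) : Set (ι × m)) => x.1.2)
        (by
          intro x y hkl
          have hx : x.1.1 = a := x.2.1
          have hy : y.1.1 = a := y.2.1
          exact Subtype.ext (Prod.ext (hx.trans hy.symm) hkl))
      have h2 : (fun x : (({a} : Set ι) ×ˢ (univ : Set m) : Set (ι × m)) => z x.1.1 x.1.2)
          = z a ∘ fun x => x.1.2 := by
        funext x
        have : x.1.1 = a := x.2.1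
        simp [this]
      unfold LinearIndepOn
      rw [h2]
      exact h1
    · refine (h a).2.mono (span_mono ?_) (span_mono ?_)
      · rintro _ ⟨⟨x, k⟩, ⟨hx, -⟩, rfl⟩
        have : x = a := hx
        exact ⟨k, by simp [this]⟩
      · rintro _ ⟨⟨x, k⟩, ⟨hx, -⟩, rfl⟩
        exact ⟨x, ha x hx, k, rfl⟩

theorem sel [LinearOrder ι] [WellFoundedLT ι] (C : ι → Set (m → E))
    (h : ∀ i (z : ι → m → E), ∃ w ∈ C i, IM (span ℝ (before z i)) w) :
    ∃ z : ι → m → E, (∀ i, z i ∈ C i) ∧ JI z := by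
  classical
  choose F hF using h
  let z : ι → m → E := (wellFounded_lt (α := ι)).fix fun i rec =>
    F i fun j => if hj : j < i then rec j hj else 0
  have hz : ∀ i, z i = F i fun j => if _ : j < i then z j else 0 := fun i =>
    WellFounded.fix_eq _ _ i
  refine ⟨z, fun i => by rw [hz i]; exact (hF _ _).1, ji_of_chain z fun i => ?_⟩
  have e : before z i = before (fun j => if _ : j < i then z j else 0) i := by
    ext x
    simp only [before, mem_ofPred_eq]
    refine exists_congr fun j => and_congr_right fun hj => ?_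
    simp [hj]
  rw [e, hz i]
  exact (hF _ _).2

theorem JI.li {z : ι → m → E} (h : JI z) (i : ι) : LinearIndependent ℝ (z i) :=
  LinearIndependent.comp h (fun k : m => (i, k)) fun _ _ hk => (Prod.mk.inj hk).2

theorem JI.indep {z : ι → m → E} (h : JI z) : iSupIndep fun i => span ℝ (range (z i)) := by
  intro i
  have h1 := LinearIndependent.disjoint_span_image h
    (s := {p | p.1 = i}) (t := {p | p.1 ≠ i}) (Set.disjoint_left.2 fun p h1 h2 => h2 h1)
  refine h1.mono (span_mono ?_) (iSup₂_le fun j hj => span_mono ?_)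
  · rintro _ ⟨k, rfl⟩
    exact ⟨(i, k), rfl, rfl⟩
  · rintro _ ⟨k, rfl⟩
    exact ⟨(j, k), hj, rfl⟩

end Sel

theorem JI.exists_im {E : Type u} [AddCommGroup E] [Module ℝ E] {m : Type}
    {L : (ℕ → Bool) → m → E} (h : JI L) (S : Set E) (hS : #S < 𝔠) :
    ∃ s, IM (span ℝ S) (L s) := by
  by_contra hc
  push Not at hc
  have h1 : ∀ s, ∃ v : E, v ∈ span ℝ (range (L s)) ∧ v ∈ span ℝ S ∧ v ≠ 0 := by
    intro s
    by_contra h2
    push Not at h2
    exact hc s ⟨h.li s, Submodule.disjoint_def.2 h2⟩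
  choose v hv1 hv2 hv3 using h1
  have h2 : LinearIndependent ℝ v := h.indep.linearIndependent _ hv1 hv3
  have h3 : LinearIndependent ℝ fun s => (⟨v s, hv2 s⟩ : span ℝ S) :=
    LinearIndependent.of_comp (span ℝ S).subtype h2
  have h4 := h3.cardinal_lift_le_rank
  have h5 := rank_span_le (R := ℝ) S
  simp only [mk_pi, mk_fintype, Fintype.card_bool, Nat.cast_ofNat, prod_const, lift_ofNat,
    mk_eq_aleph0, two_power_aleph0, lift_continuum, lift_uzero] at h4
  exact absurd (h4.trans h5) (not_le.2 hS)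

section Tree

variable {E : Type u} [NormedAddCommGroup E] [NormedSpace ℝ E] {m : Type} [Fintype m]

/-- Near every point of the set there are points of it independent modulo any given
finite dimensional subspace. -/
def Rich (Γ : Set (m → E)) : Prop :=
  ∀ z ∈ Γ, ∀ ε > 0, ∀ W : Submodule ℝ E, FiniteDimensional ℝ W →
    ∃ w ∈ Γ, dist w z < ε ∧ IM W w

/-- The initial segment of a branch. -/
def res (n : ℕ) (s : ℕ → Bool) : Fin n → Bool := fun i => s i

/-- The limit of a tree along a branch. -/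
noncomputable def tlim (a : (Σ n, Fin n → Bool) → m → E) (s : ℕ → Bool) : m → E :=
  limUnder atTop fun n => a ⟨n, res n s⟩

theorem step {Γ : Set (m → E)} (hΓ : Rich Γ) {τ τ' : Type} [Finite τ'] (par : τ' → τ)
    (c : τ → m → E) (hc : ∀ t, c t ∈ Γ) (ρ : ℝ) (hρ : 0 < ρ) :
    ∃ (c' : τ' → m → E) (ρ' : ℝ), (∀ t, c' t ∈ Γ) ∧ 0 < ρ' ∧ ρ' ≤ ρ / 2 ∧
      (∀ t, dist (c' t) (c (par t)) ≤ ρ / 2) ∧
      ∀ z : τ' → m → E, (∀ t, dist (z t) (c' t) ≤ ρ') → JI z := by
  obtain ⟨_, _, -⟩ := exists_ord_eq_type_lt τ'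
  cases nonempty_fintype τ'
  obtain ⟨c', h1, h2⟩ := sel (fun t : τ' => {w ∈ Γ | dist w (c (par t)) < ρ / 2}) (by
    intro t z
    have hf : (before z t).Finite := by
      refine (finite_range fun p : τ' × m => z p.1 p.2).subset ?_
      rintro _ ⟨j, -, k, rfl⟩
      exact ⟨(j, k), rfl⟩
    obtain ⟨w, hw, hd, hi⟩ := hΓ _ (hc (par t)) (ρ / 2) (by positivity) (span ℝ (before z t))
      (FiniteDimensional.span_of_finite ℝ hf)
    exact ⟨w, ⟨hw, hd⟩, hi⟩)
  obtain ⟨δ, hδ, h3⟩ := Metric.eventually_nhds_iff.1 (LinearIndependent.eventually h2)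
  refine ⟨c', min (δ / 2) (ρ / 2), fun t => (h1 t).1, by positivity, min_le_right _ _,
    fun t => (h1 t).2.le, fun z hz => h3 ?_⟩
  refine (dist_pi_lt_iff hδ).2 fun p => ?_
  have h4 := (dist_le_pi_dist (z p.1) (c' p.1) p.2).trans ((hz p.1).trans (min_le_left _ _))
  linarith

theorem dep_choice {S : ℕ → Type*} (R : ∀ n, S n → S (n + 1) → Prop) (s0 : S 0)
    (h : ∀ n s, ∃ s', R n s s') : ∃ f : ∀ n, S n, ∀ n, R n (f n) (f (n + 1)) := by
  choose F hF using h
  exact ⟨fun n => Nat.rec s0 F n, fun n => hF n _⟩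

theorem tree [CompleteSpace E] {Γ : Set (m → E)} (hΓ : Rich Γ) (hne : Γ.Nonempty) :
    ∃ a : (Σ n, Fin n → Bool) → m → E, JI (tlim a) ∧ ∀ s, tlim a s ∈ closure Γ := by
  classical
  obtain ⟨z0, hz0⟩ := hne
  obtain ⟨f, hf⟩ := dep_choice
    (S := fun n => {p : ((Fin n → Bool) → m → E) × ℝ // (∀ t, p.1 t ∈ Γ) ∧ 0 < p.2})
    (fun n p q => q.1.2 ≤ p.1.2 / 2 ∧ (∀ t, dist (q.1.1 t) (p.1.1 (Fin.init t)) ≤ p.1.2 / 2) ∧
      ∀ z : (Fin (n + 1) → Bool) → m → E, (∀ t, dist (z t) (q.1.1 t) ≤ q.1.2) → JI z)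
    ⟨(fun _ => z0, 1), fun _ => hz0, one_pos⟩ (by
      intro n p
      obtain ⟨c', ρ', h1, h2, h3, h4, h5⟩ := step hΓ (τ' := Fin (n + 1) → Bool) Fin.init
        p.1.1 p.2.1 p.1.2 p.2.2
      exact ⟨⟨(c', ρ'), h1, h2⟩, h3, h4, h5⟩)
  let a : (Σ n, Fin n → Bool) → m → E := fun t => (f t.1).1.1 t.2
  let ρ : ℕ → ℝ := fun n => (f n).1.2
  have hρ : ∀ n, ρ n ≤ ρ 0 * (1 / 2) ^ n := by
    intro n
    induction n with
    | zero => simp
    | succ n ih =>
      have : ρ (n + 1) ≤ ρ n / 2 := (hf n).1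
      rw [pow_succ]
      linarith
  have hd : ∀ s n, dist (a ⟨n + 1, res (n + 1) s⟩) (a ⟨n, res n s⟩) ≤ ρ n / 2 :=
    fun s n => (hf n).2.1 (res (n + 1) s)
  have hlim : ∀ s, Tendsto (fun n => a ⟨n, res n s⟩) atTop (𝓝 (tlim a s)) := by
    intro s
    refine CauchySeq.tendsto_limUnder (cauchySeq_of_le_geometric (1 / 2) (ρ 0) (by norm_num) ?_)
    intro n
    have h1 := hd s n
    have h2 := hρ n
    have h3 : 0 < ρ n := (f n).2.2
    rw [dist_comm]
    linarith
  have hnear : ∀ s n, dist (tlim a s) (a ⟨n, res n s⟩) ≤ ρ n := by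
    intro s n
    have h1 : ∀ k, dist (a ⟨n + k, res (n + k) s⟩) (a ⟨n, res n s⟩) + ρ (n + k) ≤ ρ n := by
      intro k
      induction k with
      | zero => simp
      | succ k ih =>
        have h2 := hd s (n + k)
        have h3 : ρ (n + k + 1) ≤ ρ (n + k) / 2 := (hf (n + k)).1
        have h4 := dist_triangle (a ⟨n + k + 1, res (n + k + 1) s⟩) (a ⟨n + k, res (n + k) s⟩)
          (a ⟨n, res n s⟩)
        change dist (a ⟨n + k + 1, res (n + k + 1) s⟩) (a ⟨n, res n s⟩) + ρ (n + k + 1) ≤ ρ n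
        linarith
    refine le_of_tendsto ((hlim s).dist tendsto_const_nhds) (eventually_atTop.2 ⟨n, fun k hk => ?_⟩)
    obtain ⟨k, rfl⟩ := Nat.exists_eq_add_of_le hk
    have h2 := h1 k
    have h3 : 0 < ρ (n + k) := (f (n + k)).2.2
    linarith
  refine ⟨a, ji_of_finset _ fun S => ?_, fun s =>
    mem_closure_of_tendsto (hlim s) (Eventually.of_forall fun n => (f n).2.1 _)⟩
  have h1 : ∀ᶠ n in atTop, ∀ p : S × S, res (n + 1) p.1 = res (n + 1) p.2 → p.1 = p.2 := by
    refine eventually_all.2 fun p => ?_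
    by_cases hp : p.1 = p.2
    · exact Eventually.of_forall fun _ _ => hp
    · obtain ⟨i, hi⟩ := Function.ne_iff.1 fun h : p.1.1 = p.2.1 => hp (Subtype.ext h)
      refine eventually_atTop.2 ⟨i, fun n hn h => absurd ?_ hi⟩
      exact congrFun h ⟨i, Nat.lt_succ_of_le hn⟩
  obtain ⟨n, hn⟩ := h1.exists
  have hinj : Function.Injective fun s : S => res (n + 1) s := fun s t h => hn (s, t) h
  have h2 := (hf n).2.2 (Function.extend (fun s : S => res (n + 1) s) (fun s => tlim a s)
    (f (n + 1)).1.1) (by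
      intro t
      by_cases ht : ∃ s : S, res (n + 1) s = t
      · obtain ⟨s, rfl⟩ := ht
        rw [hinj.extend_apply]
        exact hnear s (n + 1)
      · rw [Function.extend_apply' _ _ _ ht, dist_self]
        exact (f (n + 1)).2.2.le)
  have h3 := LinearIndependent.comp h2
    (fun x : ((S : Set (ℕ → Bool)) ×ˢ (univ : Set m) : Set _) => (res (n + 1) x.1.1, x.1.2)) (by
      rintro ⟨⟨x, k⟩, hx⟩ ⟨⟨y, l⟩, hy⟩ h
      obtain ⟨h4, h5⟩ := Prod.mk.inj h
      have h6 := congrArg Subtype.val (hn (⟨x, hx.1⟩, ⟨y, hy.1⟩) h4)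
      exact Subtype.ext (Prod.ext h6 h5))
  have h7 : (fun x : ((S : Set (ℕ → Bool)) ×ˢ (univ : Set m) : Set _) => tlim a x.1.1 x.1.2)
      = (fun p : (Fin (n + 1) → Bool) × m => Function.extend (fun s : S => res (n + 1) s)
        (fun s => tlim a s) (f (n + 1)).1.1 p.1 p.2) ∘ fun x => (res (n + 1) x.1.1, x.1.2) := by
    funext x
    exact (congrFun (hinj.extend_apply (fun s : S => tlim a s) (f (n + 1)).1.1 ⟨x.1.1, x.2.1⟩)
      x.1.2).symm
  unfold LinearIndepOn
  rw [h7]
  exact h3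

/-- A linear functional with prescribed values on a point of the closure of every rich set. -/
theorem exists_functional [CompleteSpace E] (hE : #E ≤ 𝔠) (v : m → ℝ) :
    ∃ φ : E →ₗ[ℝ] ℝ, ∀ Γ : Set (m → E), Rich Γ → Γ.Nonempty →
      ∃ z ∈ closure Γ, ∀ k, φ (z k) = v k := by
  let ι := {a : (Σ n, Fin n → Bool) → m → E // JI (tlim a)}
  have hι : #ι ≤ 𝔠 := by
    refine (mk_subtype_le _).trans ?_
    have h1 : #(m → E) ≤ 𝔠 := by
      rw [mk_arrow, lift_uzero]
      refine (power_le_power_right hE).trans ?_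
      refine (power_le_power_left continuum_ne_zero (c := ℵ₀) ?_).trans continuum_power_aleph0.le
      simp
    rw [mk_arrow, lift_uzero]
    refine (power_le_power_right h1).trans ?_
    refine (power_le_power_left continuum_ne_zero (c := ℵ₀) ?_).trans continuum_power_aleph0.le
    simp
  obtain ⟨_, _, ho⟩ := exists_ord_eq_type_lt ι
  obtain ⟨z, h1, h2⟩ := sel (fun a : ι => range (tlim a.1)) (by
    intro a z
    have h3 : #(before z a) < 𝔠 := by
      have e : before z a = ⋃ k : m, (fun j => z j k) '' Iio a := by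
        ext x
        simp only [before, mem_ofPred_eq, mem_iUnion, mem_image, mem_Iio]
        exact ⟨fun ⟨j, hj, k, h⟩ => ⟨k, j, hj, h⟩, fun ⟨k, j, hj, h⟩ => ⟨j, hj, k, h⟩⟩
      have h4 : #(Iio a) < 𝔠 := (mk_Iio_lt a ho).trans_le hι
      have h5 : ∀ s : Finset m, #(⋃ k ∈ s, (fun j => z j k) '' Iio a) < 𝔠 := by
        classical
        intro s
        induction s using Finset.induction_on with
        | empty => simpa using continuum_pos
        | insert k s _ ih =>
          rw [Finset.set_biUnion_insert]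
          exact (mk_union_le _ _).trans_lt
            (add_lt_of_lt aleph0_le_continuum (mk_image_le.trans_lt h4) ih)
      rw [e]
      simpa using h5 Finset.univ
    obtain ⟨s, hs⟩ := a.2.exists_im _ h3
    exact ⟨_, ⟨s, rfl⟩, hs⟩)
  obtain ⟨φ, hφ⟩ := LinearMap.exists_extend
    (Finsupp.linearCombination ℝ (fun p : ι × m => v p.2) ∘ₗ LinearIndependent.repr h2)
  refine ⟨φ, fun Γ hΓ hne => ?_⟩
  obtain ⟨a, ha, hc⟩ := tree hΓ hne
  obtain ⟨s, hs⟩ := h1 ⟨a, ha⟩
  refine ⟨z ⟨a, ha⟩, hs ▸ hc s, fun k => ?_⟩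
  have h3 := LinearMap.congr_fun hφ ⟨z ⟨a, ha⟩ k, subset_span ⟨(⟨a, ha⟩, k), rfl⟩⟩
  simp only [LinearMap.comp_apply, subtype_apply] at h3
  rw [h3, LinearIndependent.repr_eq_single h2 (⟨a, ha⟩, k) _ rfl]
  simp

end Tree

end Pool.Agent.P.MP_5aae23_gt.Rigid
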