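import Mathlib
import Pool.Agent.Lib.Brouwer.Basic

/-!
Invariance of dimension, splitting of an open linear map with finite dimensional kernel, and the
last step of the rigidity argument.
-/

open Set Filter Topology Metric Module Function

namespace Pool.Agent.P.MP_5aae23_gt.Rigid

theorem finrank_le_of_injOn {F1 F2 : Type*} [NormedAddCommGroup F1] [NormedSpace ℝ F1]
    [FiniteDimensional ℝ F1] [NormedAddCommGroup F2] [NormedSpace ℝ F2] [FiniteDimensional ℝ F2]
    (h : F1 → F2) (hc : Continuous h) (S : Set F1) (hS : S ∈ 𝓝 (0 : F1)) (hi : InjOn h S) :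
    finrank ℝ F1 ≤ finrank ℝ F2 := by
  by_contra hlt
  push Not at hlt
  obtain ⟨R, hR, hB⟩ := Metric.nhds_basis_closedBall.mem_iff.1 hS
  have : CompactSpace (closedBall (0 : F1) R) :=
    isCompact_iff_compactSpace.1 (isCompact_closedBall 0 R)
  have he : IsClosedEmbedding fun x : closedBall (0 : F1) R => h x :=
    (hc.comp continuous_subtype_val).isClosedEmbedding fun x y hxy =>
      Subtype.ext (hi (hB x.2) (hB y.2) hxy)
  have : TietzeExtension F1 := TietzeExtension.of_tvs ℝ
  obtain ⟨F, hF⟩ := ContinuousMap.exists_extension' he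
    (⟨Subtype.val, continuous_subtype_val⟩ : C(closedBall (0 : F1) R, F1))
  obtain ⟨P, hP, hPF, -⟩ := F.continuous.exists_contDiff_approx 1 (ε := fun _ => R / 2)
    continuous_const fun _ => by positivity
  obtain ⟨y, hy, hyB⟩ := (hP.dense_compl_range_of_finrank_lt_finrank hlt).exists_mem_open
    isOpen_ball (nonempty_ball.2 (half_pos hR) : (ball (0 : F1) (R / 2)).Nonempty)
  obtain ⟨x, -, hfix⟩ := Pool.Agent.Lib.Brouwer.brouwer (closedBall (0 : F1) R)
    (isCompact_closedBall 0 R) (convex_closedBall 0 R) (nonempty_closedBall.2 hR.le)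
    (fun x => y + x - P (h x))
    ((continuous_const.add continuous_id).sub (hP.continuous.comp hc)).continuousOn (by
      intro x hx
      have h1 : F (h x) = x := congrFun hF ⟨x, hx⟩
      have h2 := hPF (h x)
      rw [h1, dist_eq_norm, norm_sub_rev] at h2
      rw [mem_ball_zero_iff] at hyB
      rw [mem_closedBall_zero_iff]
      change ‖y + x - P (h x)‖ ≤ R
      rw [add_sub_assoc]
      have h3 := norm_add_le y (x - P (h x))
      linarith)
  refine hy ⟨h x, ?_⟩
  have h4 : y + x - P (h x) = x := hfix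
  linear_combination (norm := module) -h4

section

variable {Y : Type*} [AddCommGroup Y] [Module ℝ Y] [TopologicalSpace Y] [IsTopologicalAddGroup Y]
  [ContinuousSMul ℝ Y] [T2Space Y] [LocallyConvexSpace ℝ Y]

theorem split {V : Type*} [AddCommGroup V] [Module ℝ V] [TopologicalSpace V] (T : Y →L[ℝ] V)
    (ho : IsOpenMap T) (hs : Surjective T) [FiniteDimensional ℝ T.ker] :
    Nonempty (Y ≃L[ℝ] V × T.ker) := by
  obtain ⟨ρ, hρ⟩ := Submodule.ClosedComplemented.of_finiteDimensional T.ker
  let τ : Y →L[ℝ] Y := ContinuousLinearMap.id ℝ Y - T.ker.subtypeL.comp ρ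
  have hτ : T.ker ≤ τ.ker := by
    intro y hy
    have := congrArg Subtype.val (hρ ⟨y, hy⟩)
    simpa [τ, sub_eq_zero] using this.symm
  let σ : V →ₗ[ℝ] Y := (T.ker.liftQ τ.toLinearMap hτ).comp
    (T.toLinearMap.quotKerEquivOfSurjective hs).symm.toLinearMap
  have hσ : ∀ y, σ (T y) = τ y := by
    intro y
    have : (T.toLinearMap.quotKerEquivOfSurjective hs).symm (T y) = Submodule.Quotient.mk y :=
      (LinearEquiv.symm_apply_eq _).2 rfl
    simp [σ, this]
  have hc : Continuous σ := by
    rw [(ho.isQuotientMap T.continuous hs).continuous_iff]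
    exact τ.continuous.congr fun y => (hσ y).symm
  refine ⟨ContinuousLinearEquiv.equivOfRightInverse T ⟨σ, hc⟩ fun v => ?_⟩
  obtain ⟨y, rfl⟩ := hs v
  have h1 : T (ρ y) = 0 := (ρ y).2
  change T (σ (T y)) = T y
  rw [hσ]
  simp [τ, h1]

theorem surj {Z V : Type*} [AddCommGroup Z] [Module ℝ Z] [NormedAddCommGroup V] [NormedSpace ℝ V]
    (f : Z →ₗ[ℝ] V) (hf : range f ∈ 𝓝 (0 : V)) : Surjective f := by
  rw [← LinearMap.range_eq_top]
  exact Submodule.eq_top_of_nonempty_interior' _ ⟨0, mem_interior_iff_mem_nhds.2 hf⟩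

theorem final {X V : Type*} [NormedAddCommGroup X] [NormedSpace ℝ X] [NormedAddCommGroup V]
    [NormedSpace ℝ V] (g : Y ≃ₜ X) (π : X →L[ℝ] V) (ho : IsOpenMap π)
    [FiniteDimensional ℝ π.ker] (T : Y →L[ℝ] V) (l : Y → ℝ) (p : Y) (hl : ContinuousAt l p)
    (hl0 : l p ≠ 0) (h : ∀ᶠ d in 𝓝 (0 : Y), T d = l (p + d) • π (g (p + d))) :
    Nonempty (Y ≃L[ℝ] X) := by
  have hadd : Tendsto (fun d => p + d) (𝓝 0) (𝓝 p) := by
    simpa using (continuous_const_add p).tendsto 0
  have hl1 : Tendsto (fun d => l (p + d)) (𝓝 0) (𝓝 (l p)) := hl.tendsto.comp hadd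
  have hne : ∀ᶠ d in 𝓝 (0 : Y), l (p + d) ≠ 0 := hl1.eventually_ne hl0
  have h0 : π (g p) = 0 := by
    have := h.self_of_nhds
    rw [map_zero, add_zero] at this
    exact (smul_eq_zero.1 this.symm).resolve_left hl0
  have hT : IsOpenMap T := by
    rw [IsTopologicalAddGroup.isOpenMap_iff_nhds_zero]
    intro M hM
    have h1 : Tendsto (fun d => (l (p + d))⁻¹ • d) (𝓝 0) (𝓝 (0 : Y)) := by
      simpa using (hl1.inv₀ hl0).smul tendsto_id
    have h2 : IsOpenMap fun d => π (g (p + d)) :=
      ho.comp (g.isOpenMap.comp (isOpenMap_add_left p))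
    have h3 := h2.image_mem_nhds ((h.and hne).and (h1.eventually hM))
    rw [add_zero, h0] at h3
    refine mem_of_superset h3 ?_
    rintro _ ⟨d, ⟨⟨h4, h5⟩, h6⟩, rfl⟩
    have h7 : T ((l (p + d))⁻¹ • d) ∈ M := h6
    rwa [map_smul, h4, smul_smul, inv_mul_cancel₀ h5, one_smul] at h7
  have hTs : Surjective T := surj T.toLinearMap
    (hT.isOpen_range.mem_nhds ⟨0, map_zero T⟩)
  have hπs : Surjective π := surj π.toLinearMap
    (ho.isOpen_range.mem_nhds ⟨0, map_zero π⟩)
  obtain ⟨ρ, hρ⟩ := Submodule.ClosedComplemented.of_finiteDimensional π.ker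
  have hle : ∀ (n : ℕ) (b : Fin n → T.ker), LinearIndependent ℝ b → n ≤ finrank ℝ π.ker := by
    intro n b hb
    let ι : (Fin n → ℝ) →ₗ[ℝ] Y := T.ker.subtype.comp (Fintype.linearCombination ℝ b)
    have hι : Injective ι :=
      Subtype.val_injective.comp hb.fintypeLinearCombination_injective
    have hιc : Continuous ι := ι.continuous_of_finiteDimensional
    have h1 : Tendsto ι (𝓝 0) (𝓝 0) := by simpa using hιc.tendsto 0
    have h2 := finrank_le_of_injOn (fun u => ρ (g (p + ι u))) (by fun_prop) _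
      (h1.eventually (h.and hne)) (by
        have h3 : ∀ u, (T (ι u) = l (p + ι u) • π (g (p + ι u)) ∧ l (p + ι u) ≠ 0) →
            (ρ (g (p + ι u)) : X) = g (p + ι u) := by
          intro u hu
          have h4 : T (ι u) = 0 := (Fintype.linearCombination ℝ b u).2
          have h5 : π (g (p + ι u)) = 0 :=
            (smul_eq_zero.1 (hu.1.symm.trans h4)).resolve_left hu.2
          exact congrArg Subtype.val (hρ ⟨_, h5⟩)
        intro u hu v hv huv
        have h6 := (h3 u hu).symm.trans ((congrArg Subtype.val huv).trans (h3 v hv))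
        exact hι (add_left_cancel (g.injective h6)))
    simpa using h2
  have : FiniteDimensional ℝ T.ker := by
    by_contra hf
    have h1 : Cardinal.aleph0 ≤ Module.rank ℝ T.ker :=
      not_lt.1 fun h => hf (Module.rank_lt_aleph0_iff.1 h)
    obtain ⟨b, hb⟩ := exists_linearIndependent_of_le_rank (R := ℝ) (M := T.ker)
      (n := finrank ℝ π.ker + 1) ((Cardinal.natCast_lt_aleph0).le.trans h1)
    exact absurd (hle _ b hb) (by omega)
  have hge : finrank ℝ π.ker ≤ finrank ℝ T.ker := by
    obtain ⟨ρ', hρ'⟩ := Submodule.ClosedComplemented.of_finiteDimensional T.ker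
    let e : T.ker ≃L[ℝ] (Fin (finrank ℝ T.ker) → ℝ) :=
      ContinuousLinearEquiv.ofFinrankEq (by simp)
    let k : π.ker → Y := fun w => g.symm (g p + w) - p
    have hk : Continuous k := by fun_prop
    have h1 : Tendsto k (𝓝 0) (𝓝 0) := by simpa [k] using hk.tendsto 0
    have h2 := finrank_le_of_injOn (fun w => e (ρ' (k w))) (by fun_prop) _ (h1.eventually h) (by
      have h3 : ∀ w, T (k w) = l (p + k w) • π (g (p + k w)) → (ρ' (k w) : Y) = k w := by
        intro w hw
        have h4 : π w = 0 := w.2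
        have h5 : T (k w) = 0 := by simpa [k, h0, h4] using hw
        exact congrArg Subtype.val (hρ' ⟨_, h5⟩)
      intro u hu v hv huv
      have h6 := (h3 u hu).symm.trans
        ((congrArg Subtype.val (e.injective huv)).trans (h3 v hv))
      exact Subtype.ext (add_left_cancel (g.symm.injective (sub_left_injective h6))))
    simpa using h2
  have heq : finrank ℝ T.ker = finrank ℝ π.ker :=
    le_antisymm (hle _ _ (Module.finBasis ℝ T.ker).linearIndependent) hge
  obtain ⟨e1⟩ := split T hT hTs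
  obtain ⟨e2⟩ := split π ho hπs
  exact ⟨e1.trans (((ContinuousLinearEquiv.refl ℝ V).prodCongr
    (ContinuousLinearEquiv.ofFinrankEq heq)).trans e2.symm)⟩

end

end Pool.Agent.P.MP_5aae23_gt.Rigid
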