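import Mathlib

/-!
The local projective argument: a map that sends sums into the span of the images is, after
rescaling, locally affine.
-/

open Set Filter Topology Submodule Function

namespace Pool.Agent.P.MP_5aae23_gt.Rigid

section Alg

variable {V : Type*} [AddCommGroup V] [Module ℝ V]

theorem li3 {x y z : V} (h : LinearIndependent ℝ ![x, y, z]) {a b c : ℝ}
    (e : a • x + b • y + c • z = 0) : a = 0 ∧ b = 0 ∧ c = 0 := by
  have := Fintype.linearIndependent_iff.1 h ![a, b, c] (by simpa [Fin.sum_univ_three] using e)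
  exact ⟨this 0, this 1, this 2⟩

theorem li4 {x y z w : V} (h : LinearIndependent ℝ ![x, y, z, w]) {a b c d : ℝ}
    (e : a • x + b • y + c • z + d • w = 0) : a = 0 ∧ b = 0 ∧ c = 0 ∧ d = 0 := by
  have := Fintype.linearIndependent_iff.1 h ![a, b, c, d] (by simpa [Fin.sum_univ_four] using e)
  exact ⟨this 0, this 1, this 2, this 3⟩

theorem alg {x y z s u : V} {a1 b1 a2 b2 : ℝ} (h0 : LinearIndependent ℝ ![x, y, z])
    (h1 : LinearIndependent ℝ ![s, x, y]) (h2 : LinearIndependent ℝ ![s, y, z])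
    (h3 : LinearIndependent ℝ ![s, x, z]) (hu : u ∈ span ℝ {x, y}) (e1 : s ∈ span ℝ {u, z})
    (e2 : s ∈ span ℝ {x, a1 • y + b1 • z}) (e3 : s ∈ span ℝ {a2 • x + b2 • z, y}) :
    b2 ≠ 0 ∧ a2 / b2 ≠ 0 ∧ a1 / b1 ≠ 0 ∧ ∃ t ≠ (0 : ℝ), u = t • ((a2 / b2) • x + (a1 / b1) • y) := by
  obtain ⟨a, b, rfl⟩ := mem_span_pair.1 hu
  obtain ⟨c, d, e1⟩ := mem_span_pair.1 e1
  obtain ⟨d1, c1, e2⟩ := mem_span_pair.1 e2
  obtain ⟨c2, d2, e3⟩ := mem_span_pair.1 e3
  obtain ⟨-, f1, f2⟩ := li3 h0 (a := c * a - d1) (b := c * b - c1 * a1) (c := d - c1 * b1)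
    (by linear_combination (norm := module) e1 - e2)
  obtain ⟨f3, -, f4⟩ := li3 h0 (a := c * a - c2 * a2) (b := c * b - d2) (c := d - c2 * b2)
    (by linear_combination (norm := module) e1 - e3)
  have g1 : d ≠ 0 := fun h => one_ne_zero (li3 h1 (a := 1) (b := -(c * a)) (c := -(c * b))
    (by rw [h] at e1; linear_combination (norm := module) -e1)).1
  have g2 : c * a ≠ 0 := fun h => one_ne_zero (li3 h2 (a := 1) (b := -(c * b)) (c := -d)
    (by linear_combination (norm := module) -e1 + h • x)).1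
  have g3 : c * b ≠ 0 := fun h => one_ne_zero (li3 h3 (a := 1) (b := -(c * a)) (c := -d)
    (by linear_combination (norm := module) -e1 + h • y)).1
  have k1 : c1 * a1 ≠ 0 := by rw [← sub_eq_zero.1 f1]; exact g3
  have k2 : c1 * b1 ≠ 0 := by rw [← sub_eq_zero.1 f2]; exact g1
  have k3 : c2 * a2 ≠ 0 := by rw [← sub_eq_zero.1 f3]; exact g2
  have k4 : c2 * b2 ≠ 0 := by rw [← sub_eq_zero.1 f4]; exact g1
  have hc := left_ne_zero_of_mul g2
  have hb1 := right_ne_zero_of_mul k2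
  have hb2 := right_ne_zero_of_mul k4
  refine ⟨hb2, div_ne_zero (right_ne_zero_of_mul k3) hb2,
    div_ne_zero (right_ne_zero_of_mul k1) hb1, d / c, div_ne_zero g1 hc, ?_⟩
  have m1 : a = d / c * (a2 / b2) := by
    field_simp
    linear_combination b2 * f3 - a2 * f4
  have m2 : b = d / c * (a1 / b1) := by
    field_simp
    linear_combination b1 * f1 - a1 * f2
  rw [smul_add, smul_smul, smul_smul, ← m1, ← m2]

theorem alt {x x' y0 y2 u u' v0 v2 : V} {l l' k0 k2 c1 c2 c1' c2' : ℝ}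
    (h : LinearIndependent ℝ ![x', x, y0, y2]) (hk : k0 ≠ 0)
    (e1 : u + v0 = c1 • (l • x + k0 • y0)) (e2 : u + v2 = c2 • (l • x + k2 • y2))
    (e3 : u' + v0 = c1' • (l' • x' + k0 • y0)) (e4 : u' + v2 = c2' • (l' • x' + k2 • y2)) :
    c1 = c1' := by
  obtain ⟨-, -, f, -⟩ := li4 h (a := (c2' - c1') * l') (b := (c1 - c2) * l)
    (c := (c1 - c1') * k0) (d := (c2' - c2) * k2)
    (by linear_combination (norm := module) -e1 + e2 + e3 - e4)
  exact sub_eq_zero.1 ((mul_eq_zero.1 f).resolve_right hk)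

end Alg

variable {Y V : Type*} [AddCommGroup Y] [Module ℝ Y] [TopologicalSpace Y] [IsTopologicalAddGroup Y]
  [ContinuousSMul ℝ Y] [NormedAddCommGroup V] [NormedSpace ℝ V]

theorem add_ext (c : Y → V) (D : Set Y) (hD : D ∈ 𝓝 (0 : Y))
    (h : ∀ d ∈ D, ∀ e ∈ D, c (d + e) = c d + c e) (hc : ContinuousAt c 0) :
    ∃ T : Y →L[ℝ] V, ∀ᶠ d in 𝓝 (0 : Y), T d = c d := by
  have h1 : ∀ y : Y, ∀ᶠ n : ℕ in atTop, (1 / 2 : ℝ) ^ n • y ∈ D := by
    intro y
    have := (tendsto_pow_atTop_nhds_zero_of_lt_one (r := (1 / 2 : ℝ)) (by norm_num)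
      (by norm_num)).smul_const y
    rw [zero_smul] at this
    exact this.eventually hD
  let u : Y → ℕ → V := fun y n => (2 : ℝ) ^ n • c ((1 / 2 : ℝ) ^ n • y)
  have h2 : ∀ y N, (∀ n ≥ N, (1 / 2 : ℝ) ^ n • y ∈ D) → ∀ n ≥ N, u y n = u y N := by
    intro y N hN n hn
    induction n, hn using Nat.le_induction with
    | base => rfl
    | succ n hn ih =>
      have h3 := hN (n + 1) (by omega)
      have h4 := h _ h3 _ h3
      have h5 : (1 / 2 : ℝ) ^ (n + 1) • y + (1 / 2 : ℝ) ^ (n + 1) • y = (1 / 2 : ℝ) ^ n • y := by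
        rw [← add_smul, pow_succ]
        congr 1
        ring
      rw [← ih]
      simp only [u]
      rw [← h5, h4, pow_succ]
      module
  have h3 : ∀ y, ∃ v, ∀ᶠ n in atTop, u y n = v := by
    intro y
    obtain ⟨N, hN⟩ := eventually_atTop.1 (h1 y)
    exact ⟨u y N, eventually_atTop.2 ⟨N, h2 y N hN⟩⟩
  choose T0 hT using h3
  have hadd : ∀ y z, T0 (y + z) = T0 y + T0 z := by
    intro y z
    obtain ⟨n, ⟨⟨⟨e1, e2⟩, e3⟩, e4⟩, e5⟩ :=
      (((((hT y).and (hT z)).and (hT (y + z))).and (h1 y)).and (h1 z)).exists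
    rw [← e1, ← e2, ← e3]
    simp only [u]
    rw [smul_add, h _ e4 _ e5, smul_add]
  have heq : ∀ᶠ d in 𝓝 (0 : Y), T0 d = c d := by
    obtain ⟨B, ⟨hB, hbal⟩, hBD⟩ := (nhds_basis_balanced ℝ Y).mem_iff.1 hD
    filter_upwards [hB] with d hd
    obtain ⟨n, hn⟩ := (hT d).exists
    rw [← hn, h2 d 0 (fun k _ => hBD (hbal.smul_mem ?_ hd)) n (Nat.zero_le n)]
    · simp [u]
    · rw [norm_pow]
      exact pow_le_one₀ (norm_nonneg _) (by norm_num)
  let T1 : Y →+ V := AddMonoidHom.mk' T0 hadd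
  have hT1 : Continuous T1 :=
    continuous_of_continuousAt_zero T1 (hc.congr (EventuallyEq.symm heq))
  exact ⟨T1.toRealLinearMap hT1, heq⟩

/-- No neighbourhood is mapped into a finite dimensional subspace. -/
def NF (G : Y → V) : Prop :=
  ∀ (p : Y) (W : Submodule ℝ V), FiniteDimensional ℝ W → ∃ᶠ y in 𝓝 p, G y ∉ W

theorem fd_range {n : ℕ} (v : Fin n → V) : FiniteDimensional ℝ (span ℝ (range v)) :=
  FiniteDimensional.span_of_finite ℝ (finite_range v)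

theorem proj {G : Y → V} (hG : Continuous G) (hN : NF G) (l k : Y → ℝ) (p0 q0 : Y)
    (hl : ContinuousAt l p0) (hi : LinearIndependent ℝ ![G p0, G q0])
    (h : ∀ᶠ x in 𝓝 (p0, q0), l x.1 ≠ 0 ∧ k x.2 ≠ 0 ∧
      ∃ t ≠ (0 : ℝ), G (x.1 + x.2) = t • (l x.1 • G x.1 + k x.2 • G x.2)) :
    ∃ T : Y →L[ℝ] V, ∀ᶠ d in 𝓝 (0 : Y), T d = l (p0 + d) • G (p0 + d) - l p0 • G p0 := by
  obtain ⟨P, hP, Q, hQ, hPQ⟩ := mem_nhds_prod_iff.1 h
  have h' : ∀ p ∈ P, ∀ q ∈ Q, l p ≠ 0 ∧ k q ≠ 0 ∧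
      ∃ t ≠ (0 : ℝ), G (p + q) = t • (l p • G p + k q • G q) :=
    fun p hp q hq => hPQ (mk_mem_prod hp hq)
  have hp0 := mem_of_mem_nhds hP
  have hq0 := mem_of_mem_nhds hQ
  have key : ∀ p q d, p ∈ P → p + d ∈ P → q ∈ Q → q - d ∈ Q → ∃ c : ℝ,
      l (p + d) • G (p + d) + k (q - d) • G (q - d) = c • (l p • G p + k q • G q) := by
    intro p q d h1 h2 h3 h4
    obtain ⟨-, -, t, -, e⟩ := h' p h1 q h3
    obtain ⟨-, -, t', ht', e'⟩ := h' _ h2 _ h4
    rw [show p + d + (q - d) = p + q by abel, e] at e'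
    exact ⟨t'⁻¹ * t, by rw [mul_smul, e', smul_smul, inv_mul_cancel₀ ht', one_smul]⟩
  obtain ⟨q2, hq2, hq2Q⟩ := ((hN q0 _ (fd_range ![G p0, G q0])).and_eventually
    (eventually_eventually_nhds.2 hQ)).exists
  have hi3 : LinearIndependent ℝ ![G p0, G q0, G q2] := by
    have h1 : LinearIndependent ℝ ![G q2, G p0, G q0] := hi.finCons hq2
    have h2 := h1.comp ![1, 2, 0] (by decide)
    have h3 : ![G q2, G p0, G q0] ∘ ![1, 2, 0] = ![G p0, G q0, G q2] := by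
      funext i; fin_cases i <;> rfl
    rwa [h3] at h2
  have hI : ∀ᶠ p in 𝓝 p0, LinearIndependent ℝ ![G p, G q0, G q2] :=
    (Continuous.tendsto (f := fun p => ![G p, G q0, G q2]) (by fun_prop) p0).eventually
      hi3.eventually
  have hadd : ∀ᶠ x in 𝓝 (p0, (0 : Y)), x.1 + x.2 ∈ P :=
    (continuous_add.tendsto' (p0, (0 : Y)) p0 (by simp)).eventually hP
  obtain ⟨P1, hP1, D1, hD1, hPD⟩ := mem_nhds_prod_iff.1 hadd
  let P' : Set Y := {p | p ∈ P ∧ p ∈ P1 ∧ LinearIndependent ℝ ![G p, G q0, G q2]}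
  have hP' : P' ∈ 𝓝 p0 := by
    filter_upwards [hP, hP1, hI] with p h1 h2 h3 using ⟨h1, h2, h3⟩
  let D : Set Y := {d | d ∈ D1 ∧ q0 - d ∈ Q ∧ q2 - d ∈ Q ∧ p0 + d ∈ P'}
  have hD : D ∈ 𝓝 (0 : Y) := by
    have h1 : ∀ᶠ d in 𝓝 (0 : Y), q0 - d ∈ Q :=
      ((continuous_const.sub continuous_id).tendsto' (0 : Y) q0 (by simp)).eventually hQ
    have h2 : ∀ᶠ d in 𝓝 (0 : Y), q2 - d ∈ Q :=
      ((continuous_const.sub continuous_id).tendsto' (0 : Y) q2 (by simp)).eventually hq2Q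
    have h3 : ∀ᶠ d in 𝓝 (0 : Y), p0 + d ∈ P' :=
      ((continuous_const.add continuous_id).tendsto' (0 : Y) p0 (by simp)).eventually hP'
    filter_upwards [hD1, h1, h2, h3] with d h1 h2 h3 h4 using ⟨h1, h2, h3, h4⟩
  have hq2' : q2 ∈ Q := hq2Q.self_of_nhds
  have hk0 := (h' p0 hp0 q0 hq0).2.1
  have main : ∀ d ∈ D, ∃ (κ : ℝ) (c : V), ∀ p ∈ P',
      l (p + d) • G (p + d) = κ • l p • G p + c := by
    intro d hd
    have hpd : ∀ p ∈ P', p + d ∈ P := fun p hp => hPD (mk_mem_prod hp.2.1 hd.1)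
    choose! c1 hc1 using fun p (hp : p ∈ P') => key p q0 d hp.1 (hpd p hp) hq0 hd.2.1
    choose! c2 hc2 using fun p (hp : p ∈ P') => key p q2 d hp.1 (hpd p hp) hq2' hd.2.2.1
    refine ⟨c1 p0, c1 p0 • k q0 • G q0 - k (q0 - d) • G (q0 - d), fun p hp => ?_⟩
    obtain ⟨p2, h1, h2⟩ := ((hN p0 _ (fd_range ![G p, G p0, G q0, G q2])).and_eventually
      hP').exists
    have h3 : ∀ r ∈ P', G r ∈ range ![G p, G p0, G q0, G q2] → c1 r = c1 p2 := by
      intro r hr hr'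
      refine alt (hr.2.2.finCons fun h4 => h1 (span_mono ?_ h4)) hk0 (hc1 r hr) (hc2 r hr)
        (hc1 p2 h2) (hc2 p2 h2)
      rintro _ ⟨i, rfl⟩
      fin_cases i
      exacts [hr', ⟨2, rfl⟩, ⟨3, rfl⟩]
    rw [h3 p0 (mem_of_mem_nhds hP') ⟨1, rfl⟩, ← h3 p hp ⟨0, rfl⟩]
    linear_combination (norm := module) hc1 p hp
  choose! κ c hκ using main
  have hp0' : p0 ∈ P' := mem_of_mem_nhds hP'
  have hone : ∀ e ∈ D, κ e = 1 := by
    intro e he
    by_contra hne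
    have h1 : ∀ᶠ y in 𝓝 p0, y - p0 ∈ D :=
      ((continuous_id.sub continuous_const).tendsto' p0 (0 : Y) (by simp)).eventually hD
    obtain ⟨y, h2, h3⟩ := ((hN p0 _ (fd_range ![G p0, c e])).and_eventually h1).exists
    obtain ⟨d, rfl⟩ : ∃ d, y = p0 + d := ⟨y - p0, by abel⟩
    rw [add_sub_cancel_left] at h3
    have e1 := hκ e he _ h3.2.2.2
    have e2 := hκ d h3 _ he.2.2.2
    have e3 := hκ d h3 _ hp0'
    have e4 := hκ e he _ hp0'
    rw [add_right_comm, e1, e3, e4] at e2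
    have h4 : l (p0 + d) ≠ 0 := (h' _ h3.2.2.2.1 q0 hq0).1
    have h5 : κ e - 1 ≠ 0 := sub_ne_zero.2 hne
    have h6 : (κ e - 1) • c d = (κ d - 1) • c e := by linear_combination (norm := module) e2
    have h7 : c d = ((κ e - 1)⁻¹ * (κ d - 1)) • c e := by
      rw [mul_smul, ← h6, smul_smul, inv_mul_cancel₀ h5, one_smul]
    refine h2 ((smul_mem_iff _ h4).1 ?_)
    rw [e3, h7]
    exact add_mem (smul_mem _ _ (smul_mem _ _ (subset_span ⟨0, rfl⟩)))
      (smul_mem _ _ (subset_span ⟨1, rfl⟩))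
  refine add_ext _ D hD (fun d hd e he => ?_) ?_
  · have e1 := hκ e he _ hd.2.2.2
    have e2 := hκ e he _ hp0'
    rw [hone e he] at e1 e2
    rw [← add_assoc, e1, e2]
    module
  · have h1 : ContinuousAt (fun d => l (p0 + d)) 0 :=
      ContinuousAt.comp_of_eq hl (by fun_prop) (add_zero p0)
    exact (h1.smul (by fun_prop)).sub continuousAt_const

omit [Module ℝ Y] [ContinuousSMul ℝ Y] in
theorem coef {G : Y → V} (hG : Continuous G) (p0 r : Y) (z : V)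
    (hi : LinearIndependent ℝ ![G p0, z]) :
    ∃ a b : Y → ℝ, ContinuousAt a p0 ∧ ContinuousAt b p0 ∧
      ∀ᶠ p in 𝓝 p0, G (p + r) ∈ span ℝ {G p, z} → G (p + r) = a p • G p + b p • z := by
  have hz : z ≠ 0 := hi.ne_zero 1
  obtain ⟨h, hh⟩ := SeparatingDual.exists_eq_one (R := ℝ) hz
  have hx : G p0 - h (G p0) • z ≠ 0 := fun e => one_ne_zero
    (LinearIndependent.pair_iff.1 hi 1 (-h (G p0)) (by linear_combination (norm := module) e)).1
  obtain ⟨f', hf'⟩ := SeparatingDual.exists_eq_one (R := ℝ) hx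
  let f : V →L[ℝ] ℝ := f' - f' z • h
  have f1 : f z = 0 := by simp [f, hh]
  have f2 : f (G p0) ≠ 0 := by
    have : f (G p0) = 1 := by
      rw [← hf']
      simp [f, mul_comm]
    rw [this]
    exact one_ne_zero
  have ha : ContinuousAt (fun p => f (G (p + r)) / f (G p)) p0 :=
    ContinuousAt.div (by fun_prop) (by fun_prop) f2
  refine ⟨fun p => f (G (p + r)) / f (G p),
    fun p => h (G (p + r)) - f (G (p + r)) / f (G p) * h (G p), ha,
    ContinuousAt.sub (by fun_prop) (ha.mul (by fun_prop)), ?_⟩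
  filter_upwards [((f.continuous.comp hG).tendsto p0).eventually_ne f2] with p hp hm
  obtain ⟨a, b, e⟩ := mem_span_pair.1 hm
  have hp' : f (G p) ≠ 0 := hp
  have e1 : f (G (p + r)) / f (G p) = a := by
    rw [← e]
    simp [f1, hp']
  rw [e1, ← e]
  simp [hh]

omit [AddCommGroup Y] [Module ℝ Y] [IsTopologicalAddGroup Y] [ContinuousSMul ℝ Y] in
theorem dense_li {G : Y → V} (hN : NF G) :
    Dense {x : Y × Y × Y | LinearIndependent ℝ ![G x.1, G x.2.1, G x.2.2]} := by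
  rw [dense_iff_inter_open]
  rintro U hU ⟨⟨p, q, r⟩, hx⟩
  obtain ⟨r, h1, h2⟩ := ((hN r _ (fd_range ![])).and_eventually
    ((Continuous.tendsto (f := fun r => (p, q, r)) (by fun_prop) r).eventually
      (hU.mem_nhds hx))).exists
  obtain ⟨q, h3, h4⟩ := ((hN q _ (fd_range ![G r])).and_eventually
    ((Continuous.tendsto (f := fun q => (p, q, r)) (by fun_prop) q).eventually
      (hU.mem_nhds h2))).exists
  obtain ⟨p, h5, h6⟩ := ((hN p _ (fd_range ![G q, G r])).and_eventually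
    ((Continuous.tendsto (f := fun p => (p, q, r)) (by fun_prop) p).eventually
      (hU.mem_nhds h4))).exists
  exact ⟨(p, q, r), h6, (((linearIndependent_empty_type.finCons h1).finCons h3).finCons h5 :)⟩

/-- The image of the sum lies in the span of the images. -/
def SP (G : Y → V) (a b : Y) : Prop := G (a + b) ∈ span ℝ {G a, G b}

theorem local_linear {G : Y → V} (hG : Continuous G) (hN : NF G) (x0 : Y × Y × Y)
    (h : ∀ᶠ x in 𝓝 x0, SP G x.1 x.2.1 ∧ SP G x.2.1 x.2.2 ∧ SP G x.1 x.2.2 ∧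
      SP G (x.1 + x.2.1) x.2.2 ∧ SP G x.1 (x.2.1 + x.2.2) ∧ SP G (x.1 + x.2.2) x.2.1) :
    ∃ (p : Y) (l : Y → ℝ) (T : Y →L[ℝ] V), ContinuousAt l p ∧ l p ≠ 0 ∧
      ∀ᶠ d in 𝓝 (0 : Y), T d = l (p + d) • G (p + d) - l p • G p := by
  let I : Set (Y × Y × Y) := {x | LinearIndependent ℝ ![G x.1, G x.2.1, G x.2.2]}
  have hIo : IsOpen I := isOpen_setOfPred_linearIndependent.preimage
    (f := fun x : Y × Y × Y => ![G x.1, G x.2.1, G x.2.2]) (by fun_prop)
  have hId : Dense I := dense_li hN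
  let m1 : Y × Y × Y → Y × Y × Y := fun x => (x.1 + x.2.1 + x.2.2, x.1, x.2.1)
  let m2 : Y × Y × Y → Y × Y × Y := fun x => (x.1 + x.2.1 + x.2.2, x.2.1, x.2.2)
  let m3 : Y × Y × Y → Y × Y × Y := fun x => (x.1 + x.2.1 + x.2.2, x.1, x.2.2)
  have o1 : IsOpenMap m1 := IsOpenMap.of_inverse
    (f' := fun y => (y.2.1, y.2.2, y.1 - y.2.1 - y.2.2)) (by fun_prop)
    (fun y => by simp [m1]) (fun y => by simp [m1]; abel_nf)
  have o2 : IsOpenMap m2 := IsOpenMap.of_inverse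
    (f' := fun y => (y.1 - y.2.1 - y.2.2, y.2.1, y.2.2)) (by fun_prop)
    (fun y => by simp [m2]; abel_nf) (fun y => by simp [m2]; abel_nf)
  have o3 : IsOpenMap m3 := IsOpenMap.of_inverse
    (f' := fun y => (y.2.1, y.1 - y.2.1 - y.2.2, y.2.2)) (by fun_prop)
    (fun y => by simp [m3]; abel_nf) (fun y => by simp [m3]; abel_nf)
  have c1 : IsOpen (m1 ⁻¹' I) := hIo.preimage (by fun_prop)
  have c2 : IsOpen (m2 ⁻¹' I) := hIo.preimage (by fun_prop)
  have c3 : IsOpen (m3 ⁻¹' I) := hIo.preimage (by fun_prop)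
  have hJd : Dense (I ∩ (m1 ⁻¹' I ∩ (m2 ⁻¹' I ∩ m3 ⁻¹' I))) :=
    hId.inter_of_isOpen_left ((hId.preimage o1).inter_of_isOpen_left
      ((hId.preimage o2).inter_of_isOpen_left (hId.preimage o3) c2) c1) hIo
  obtain ⟨⟨p0, q0, r⟩, hJ, h1⟩ := hJd.inter_nhds_nonempty (eventually_eventually_nhds.2 h)
  have h2 := (hIo.inter (c1.inter (c2.inter c3))).mem_nhds hJ
  have hs : Tendsto (fun x : Y × Y => (x.1, x.2, r)) (𝓝 (p0, q0)) (𝓝 (p0, q0, r)) :=
    Continuous.tendsto (f := fun x : Y × Y => (x.1, x.2, r)) (by fun_prop) (p0, q0)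
  have sub : ∀ (i j : Fin 3), i ≠ j → LinearIndependent ℝ
      ![![G p0, G q0, G r] i, ![G p0, G q0, G r] j] := by
    intro i j hij
    have h3 := LinearIndependent.comp hJ.1 ![i, j] (by
      intro a b hab
      fin_cases a <;> fin_cases b <;> simp_all [eq_comm])
    have h4 : ![G p0, G q0, G r] ∘ ![i, j] = ![![G p0, G q0, G r] i, ![G p0, G q0, G r] j] := by
      funext a; fin_cases a <;> rfl
    rwa [h4] at h3
  obtain ⟨a2, b2, ha2, hb2, e2⟩ := coef hG p0 r (G r) (sub 0 2 (by decide))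
  obtain ⟨a1, b1, -, -, e1⟩ := coef hG q0 r (G r) (sub 1 2 (by decide))
  have h3 : ∀ᶠ x in 𝓝 (p0, q0), b2 x.1 ≠ 0 ∧ a2 x.1 / b2 x.1 ≠ 0 ∧ a1 x.2 / b1 x.2 ≠ 0 ∧
      ∃ t ≠ (0 : ℝ), G (x.1 + x.2)
        = t • ((a2 x.1 / b2 x.1) • G x.1 + (a1 x.2 / b1 x.2) • G x.2) := by
    filter_upwards [hs.eventually h1, hs.eventually h2,
      (continuous_fst.tendsto (p0, q0)).eventually e2,
      (continuous_snd.tendsto (p0, q0)).eventually e1] with x hx hi f2 f1
    obtain ⟨s1, s2, s3, s4, s5, s6⟩ := hx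
    refine alg (s := G (x.1 + x.2 + r)) hi.1 hi.2.1 hi.2.2.1 hi.2.2.2 s1 s4 ?_ ?_
    · rw [← f1 s2, add_assoc]
      exact s5
    · rw [← f2 s3, add_right_comm]
      exact s6
  have h4 := h3.self_of_nhds
  obtain ⟨T, hT⟩ := proj hG hN (fun p => a2 p / b2 p) (fun q => a1 q / b1 q) p0 q0
    (ha2.div hb2 h4.1) (sub 0 1 (by decide)) (h3.mono fun x hx => hx.2)
  exact ⟨p0, _, T, ha2.div hb2 h4.1, h4.2.1, hT⟩

end Pool.Agent.P.MP_5aae23_gt.Rigid
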