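import Mathlib
import Pool.Agent.P.MP_5aae23_gt.RigA
import Pool.Agent.P.MP_5aae23_gt.RigB
import Pool.Agent.P.MP_5aae23_gt.RigC

/-!
A dense hyperplane that is topologically rigid.
-/

open Set Filter Topology Submodule Function

namespace Pool.Agent.P.MP_5aae23_gt.Rigid

universe u

theorem fd_comap {X V : Type*} [AddCommGroup X] [Module ℝ X] [AddCommGroup V] [Module ℝ V]
    (f : X →ₗ[ℝ] V) [FiniteDimensional ℝ f.ker] (W : Submodule ℝ V) [FiniteDimensional ℝ W] :
    FiniteDimensional ℝ (W.comap f) := by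
  rw [FiniteDimensional, Module.Finite.iff_fg]
  refine fg_of_fg_map_of_fg_inf_ker f ?_ ?_
  · exact Module.Finite.iff_fg.1 (finiteDimensional_of_le (map_comap_le f W))
  · exact Module.Finite.iff_fg.1 (finiteDimensional_of_le inf_le_right)

theorem im_of {X E : Type*} [AddCommGroup X] [Module ℝ X] [AddCommGroup E] [Module ℝ E]
    (j : X →ₗ[ℝ] E) (hj : Injective j) (W : Submodule ℝ E) (w : Fin 3 → X)
    (h : LinearIndependent ℝ fun k => (W.comap j).mkQ (w k)) : IM W fun k => j (w k) := by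
  refine ⟨(LinearIndependent.of_comp _ h).map' j (LinearMap.ker_eq_bot.2 hj), ?_⟩
  rw [Submodule.disjoint_def]
  intro x hx hW
  obtain ⟨c, rfl⟩ := (mem_span_range_iff_exists_fun ℝ).1 hx
  have h1 : ∑ i, c i • w i ∈ W.comap j := by simpa using hW
  have h3 : (W.comap j).mkQ (∑ i, c i • w i) = 0 := (Quotient.mk_eq_zero _).2 h1
  have h2 := Fintype.linearIndependent_iff.1 h c (by simpa only [map_sum, map_smul] using h3)
  simp [h2]

theorem nf_mkQ {Y X : Type*} [TopologicalSpace Y] [NormedAddCommGroup X] [NormedSpace ℝ X]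
    (hX : ¬FiniteDimensional ℝ X) (g : Y ≃ₜ X) (W : Submodule ℝ X) [FiniteDimensional ℝ W]
    [IsClosed (W : Set X)] : NF fun y => W.mkQ (g y) := by
  intro p W2 _ h
  have : FiniteDimensional ℝ W.mkQ.ker := by rw [ker_mkQ]; infer_instance
  have h1 : (W2.comap W.mkQ : Set X) ∈ 𝓝 (g p) := by
    rw [← g.map_nhds_eq]
    exact h.mono fun y hy => not_not.1 hy
  have h2 := Submodule.eq_top_of_nonempty_interior' _ ⟨_, mem_interior_iff_mem_nhds.2 h1⟩
  have h3 := fd_comap W.mkQ W2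
  rw [h2] at h3
  exact hX (topEquiv.finiteDimensional)

variable {E : Type u} [NormedAddCommGroup E] [NormedSpace ℝ E]

theorem rich_ball (hE : ¬FiniteDimensional ℝ E) (z0 : Fin 3 → E) (ε : ℝ) :
    Rich (Metric.ball z0 ε) := by
  intro z hz δ hδ W _
  have : FiniteDimensional ℝ (W.comap (LinearMap.id : E →ₗ[ℝ] E)) := by
    rw [Submodule.comap_id]; infer_instance
  have := (W.comap (LinearMap.id : E →ₗ[ℝ] E)).closed_of_finiteDimensional
  have h1 := dense_li (nf_mkQ hE (Homeomorph.refl E) (W.comap LinearMap.id))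
  have h2 : Continuous fun x : E × E × E => ![x.1, x.2.1, x.2.2] := by fun_prop
  obtain ⟨x, ⟨h3, h4⟩, h5⟩ := h1.inter_open_nonempty _
    ((Metric.isOpen_ball.inter Metric.isOpen_ball).preimage h2 :
      IsOpen ((fun x : E × E × E => ![x.1, x.2.1, x.2.2]) ⁻¹' (Metric.ball z0 ε ∩ Metric.ball z δ)))
    ⟨(z 0, z 1, z 2), by
      have : ![z 0, z 1, z 2] = z := by funext i; fin_cases i <;> rfl
      simp only [mem_preimage, this]
      exact ⟨hz, Metric.mem_ball_self hδ⟩⟩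
  refine ⟨_, h3, h4, im_of LinearMap.id injective_id W ![x.1, x.2.1, x.2.2] ?_⟩
  have h6 : (fun k => (W.comap LinearMap.id).mkQ (![x.1, x.2.1, x.2.2] k))
      = ![(W.comap LinearMap.id).mkQ x.1, (W.comap LinearMap.id).mkQ x.2.1,
        (W.comap LinearMap.id).mkQ x.2.2] := by
    funext i; fin_cases i <;> rfl
  rw [h6]
  exact h5

variable {Y : Type*} [AddCommGroup Y] [Module ℝ Y] [TopologicalSpace Y] [IsTopologicalAddGroup Y]
  [ContinuousSMul ℝ Y]

/-- The points near which the image of the sum lies in the span of the images modulo a fixed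
finite dimensional subspace. -/
def good {X : Type*} [AddCommGroup X] [Module ℝ X] (g : Y → X) : Set (Y × Y) :=
  {x | ∃ W : Submodule ℝ X, FiniteDimensional ℝ W ∧
    ∀ᶠ y in 𝓝 x, ∃ s t : ℝ, s • g y.1 + t • g y.2 - g (y.1 + y.2) ∈ W}

omit [Module ℝ Y] [IsTopologicalAddGroup Y] [ContinuousSMul ℝ Y] in
theorem isOpen_good {X : Type*} [AddCommGroup X] [Module ℝ X] (g : Y → X) : IsOpen (good g) := by
  rw [isOpen_iff_mem_nhds]
  rintro x ⟨W, hW, h⟩
  exact (eventually_eventually_nhds.2 h).mono fun y hy => ⟨W, hW, hy⟩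

omit [Module ℝ Y] [ContinuousSMul ℝ Y] in
theorem dense_good (φ : E →ₗ[ℝ] ℝ) (hX : ¬FiniteDimensional ℝ φ.ker)
    (hφ : ∀ Γ : Set (Fin 3 → E), Rich Γ → Γ.Nonempty →
      ∃ z ∈ closure Γ, ∀ k, φ (z k) = ![0, 0, 1] k) (g : Y ≃ₜ φ.ker) : Dense (good g) := by
  rw [dense_iff_inter_open]
  intro O hO hne
  by_contra hc
  have hbad : ∀ x ∈ O, ∀ W : Submodule ℝ φ.ker, FiniteDimensional ℝ W →
      ∃ᶠ y in 𝓝 x, ¬∃ s t : ℝ, s • g y.1 + t • g y.2 - g (y.1 + y.2) ∈ W :=
    fun x hx W hW h => hc ⟨x, hx, W, hW, h.mono fun y hy => not_not.1 hy⟩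
  let γ : Y × Y → Fin 3 → E := fun y k => (![g y.1, g y.2, g (y.1 + y.2)] k : φ.ker)
  have hγ : Continuous γ := continuous_pi fun k => continuous_subtype_val.comp
    ((continuous_apply k).comp (f := fun y : Y × Y => ![g y.1, g y.2, g (y.1 + y.2)]) (by fun_prop))
  obtain ⟨z, hz, hv⟩ := hφ (γ '' O) (by
    rintro _ ⟨⟨p, q⟩, hx, rfl⟩ ε hε W _
    have : FiniteDimensional ℝ φ.ker.subtype.ker := by rw [ker_subtype]; infer_instance
    have := fd_comap φ.ker.subtype W
    have := (W.comap φ.ker.subtype).closed_of_finiteDimensional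
    let G : Y → φ.ker ⧸ W.comap φ.ker.subtype := fun y => (W.comap φ.ker.subtype).mkQ (g y)
    have hN : NF G := nf_mkQ hX g _
    have hG : Continuous G := continuous_quot_mk.comp g.continuous
    have hU : IsOpen (O ∩ γ ⁻¹' Metric.ball (γ (p, q)) ε) :=
      hO.inter (Metric.isOpen_ball.preimage hγ)
    obtain ⟨p1, h1, h2⟩ := ((hN p _ (fd_range ![])).and_eventually
      ((Continuous.tendsto (f := fun p => (p, q)) (by fun_prop) p).eventually
        (hU.mem_nhds ⟨hx, Metric.mem_ball_self hε⟩))).exists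
    obtain ⟨q1, h3, h4⟩ := ((hN q _ (fd_range ![G p1])).and_eventually
      ((Continuous.tendsto (f := fun q => (p1, q)) (by fun_prop) q).eventually
        (hU.mem_nhds h2))).exists
    have h5 : LinearIndependent ℝ ![G q1, G p1] :=
      ((linearIndependent_empty_type.finCons h1).finCons h3 :)
    have h6 : ∀ᶠ y in 𝓝 (p1, q1), LinearIndependent ℝ ![G y.2, G y.1] :=
      (Continuous.tendsto (f := fun y : Y × Y => ![G y.2, G y.1]) (by fun_prop)
        (p1, q1)).eventually h5.eventually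
    obtain ⟨y, h7, h8, h9⟩ := ((hbad _ h4.1 (W.comap φ.ker.subtype) inferInstance).and_eventually
      (h6.and (hU.mem_nhds h4))).exists
    refine ⟨γ y, ⟨y, h9.1, rfl⟩, h9.2, im_of φ.ker.subtype Subtype.val_injective W _ ?_⟩
    have h10 : LinearIndependent ℝ ![G (y.1 + y.2), G y.2, G y.1] := h8.finCons fun hm => h7 (by
      obtain ⟨c, hc⟩ := (mem_span_range_iff_exists_fun ℝ).1 hm
      refine ⟨c 1, c 0, (Quotient.mk_eq_zero _).1 ?_⟩
      simp only [Fin.sum_univ_two, Matrix.cons_val_zero, Matrix.cons_val_one] at hc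
      change (W.comap φ.ker.subtype).mkQ _ = 0
      rw [map_sub, map_add, map_smul, map_smul, add_comm]
      exact sub_eq_zero.2 hc)
    have h11 := h10.comp ![2, 1, 0] (by decide)
    have h12 : (fun k => (W.comap φ.ker.subtype).mkQ (![g y.1, g y.2, g (y.1 + y.2)] k))
        = ![G (y.1 + y.2), G y.2, G y.1] ∘ ![2, 1, 0] := by
      funext i; fin_cases i <;> rfl
    rw [h12]
    exact h11) (hne.image γ)
  obtain ⟨a, ha, hlim⟩ := mem_closure_iff_seq_limit.1 hz
  choose y _ hy using ha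
  have hk : ∀ k, Tendsto (fun n => γ (y n) k) atTop (𝓝 (z k)) := fun k => by
    simpa only [hy, comp_def] using ((continuous_apply k).tendsto z).comp hlim
  have t0 : Tendsto (fun n => (y n).1) atTop (𝓝 (g.symm ⟨z 0, hv 0⟩)) := by
    have : Tendsto (fun n => g (y n).1) atTop (𝓝 ⟨z 0, hv 0⟩) := tendsto_subtype_rng.2 (hk 0)
    simpa [comp_def] using (g.symm.continuous.tendsto _).comp this
  have t1 : Tendsto (fun n => (y n).2) atTop (𝓝 (g.symm ⟨z 1, hv 1⟩)) := by
    have : Tendsto (fun n => g (y n).2) atTop (𝓝 ⟨z 1, hv 1⟩) := tendsto_subtype_rng.2 (hk 1)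
    simpa [comp_def] using (g.symm.continuous.tendsto _).comp this
  have t2 := ((continuous_subtype_val.comp g.continuous).tendsto _).comp (t0.add t1)
  have e := tendsto_nhds_unique (hk 2) t2
  have h1 : φ (z 2) = 0 := by
    rw [e]
    exact (g _).2
  exact one_ne_zero ((hv 2).symm.trans h1)

theorem rigid_of_dense [LocallyConvexSpace ℝ Y] {X : Type*} [NormedAddCommGroup X]
    [NormedSpace ℝ X] (hX : ¬FiniteDimensional ℝ X) (g : Y ≃ₜ X) (hd : Dense (good g)) :
    Nonempty (Y ≃L[ℝ] X) := by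
  have : T2Space Y := g.isEmbedding.t2Space
  have key : ∀ m : Y × Y × Y → Y × Y, Continuous m → IsOpenMap m → ∀ S : Set (Y × Y × Y),
      Dense S → Dense (m ⁻¹' good g ∩ S) := fun m h1 h2 S hS =>
    (hd.preimage h2).inter_of_isOpen_left hS ((isOpen_good g).preimage h1)
  have d1 := key (fun x => (x.1, x.2.1)) (by fun_prop) (IsOpenMap.of_sections fun x =>
    ⟨fun y => (y.1, y.2, x.2.2), by fun_prop, by simp, fun y => by simp⟩) _ dense_univ
  have d2 := key (fun x => (x.2.1, x.2.2)) (by fun_prop) (IsOpenMap.of_sections fun x =>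
    ⟨fun y => (x.1, y.1, y.2), by fun_prop, by simp, fun y => by simp⟩) _ d1
  have d3 := key (fun x => (x.1, x.2.2)) (by fun_prop) (IsOpenMap.of_sections fun x =>
    ⟨fun y => (y.1, x.2.1, y.2), by fun_prop, by simp, fun y => by simp⟩) _ d2
  have d4 := key (fun x => (x.1 + x.2.1, x.2.2)) (by fun_prop) (IsOpenMap.of_sections fun x =>
    ⟨fun y => (y.1 - x.2.1, x.2.1, y.2), by fun_prop, by simp, fun y => by simp⟩) _ d3
  have d5 := key (fun x => (x.1, x.2.1 + x.2.2)) (by fun_prop) (IsOpenMap.of_sections fun x =>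
    ⟨fun y => (y.1, y.2 - x.2.2, x.2.2), by fun_prop, by simp, fun y => by simp⟩) _ d4
  have d6 := key (fun x => (x.1 + x.2.2, x.2.1)) (by fun_prop) (IsOpenMap.of_sections fun x =>
    ⟨fun y => (y.1 - x.2.2, y.2, x.2.2), by fun_prop, by simp, fun y => by simp⟩) _ d5
  obtain ⟨x0, ⟨W6, _, h6⟩, ⟨W5, _, h5⟩, ⟨W4, _, h4⟩, ⟨W3, _, h3⟩, ⟨W2, _, h2⟩, ⟨W1, _, h1⟩, -⟩ :=
    d6.nonempty
  let W : Submodule ℝ X := W1 ⊔ (W2 ⊔ (W3 ⊔ (W4 ⊔ (W5 ⊔ W6))))
  have := W.closed_of_finiteDimensional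
  let G : Y → X ⧸ W := fun y => W.mkQ (g y)
  have hG : Continuous G := continuous_quot_mk.comp g.continuous
  have sp : ∀ (m : Y × Y × Y → Y × Y) (W' : Submodule ℝ X), Continuous m → W' ≤ W →
      (∀ᶠ y in 𝓝 (m x0), ∃ s t : ℝ, s • g y.1 + t • g y.2 - g (y.1 + y.2) ∈ W') →
      ∀ᶠ x in 𝓝 x0, SP G (m x).1 (m x).2 := by
    intro m W' hm hW h
    refine ((hm.tendsto x0).eventually h).mono fun x ⟨s, t, hx⟩ => mem_span_pair.2 ⟨s, t, ?_⟩
    have h7 : W.mkQ _ = 0 := (Quotient.mk_eq_zero _).2 (hW hx)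
    rw [map_sub, map_add, map_smul, map_smul] at h7
    exact sub_eq_zero.1 h7
  have s1 := sp (fun x => (x.1, x.2.1)) W1 (by fun_prop) le_sup_left h1
  have s2 := sp (fun x => (x.2.1, x.2.2)) W2 (by fun_prop) (le_sup_of_le_right le_sup_left) h2
  have s3 := sp (fun x => (x.1, x.2.2)) W3 (by fun_prop)
    (le_sup_of_le_right (le_sup_of_le_right le_sup_left)) h3
  have s4 := sp (fun x => (x.1 + x.2.1, x.2.2)) W4 (by fun_prop)
    (le_sup_of_le_right (le_sup_of_le_right (le_sup_of_le_right le_sup_left))) h4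
  have s5 := sp (fun x => (x.1, x.2.1 + x.2.2)) W5 (by fun_prop)
    (le_sup_of_le_right (le_sup_of_le_right (le_sup_of_le_right
      (le_sup_of_le_right le_sup_left)))) h5
  have s6 := sp (fun x => (x.1 + x.2.2, x.2.1)) W6 (by fun_prop)
    (le_sup_of_le_right (le_sup_of_le_right (le_sup_of_le_right
      (le_sup_of_le_right le_sup_right)))) h6
  obtain ⟨p, l, T, hl, hl0, hT⟩ := local_linear hG (nf_mkQ hX g W) x0 (by
    filter_upwards [s1, s2, s3, s4, s5, s6] with x a b c d e f using ⟨a, b, c, d, e, f⟩)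
  let L : Submodule ℝ (X ⧸ W) := span ℝ {G p}
  have := L.closed_of_finiteDimensional
  have : FiniteDimensional ℝ W.mkQ.ker := by rw [ker_mkQ]; infer_instance
  have : FiniteDimensional ℝ (L.mkQL.comp W.mkQL).ker := by
    have e : (L.mkQL.comp W.mkQL).ker = L.comap W.mkQ := by
      ext x
      exact Quotient.mk_eq_zero L
    rw [e]
    exact fd_comap _ _
  refine final g (L.mkQL.comp W.mkQL) (L.isOpenMap_mkQ.comp W.isOpenMap_mkQ) (L.mkQL.comp T) l p
    hl hl0 (hT.mono fun d hd => ?_)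
  have h7 : L.mkQL (G p) = 0 := (Quotient.mk_eq_zero L).2 (mem_span_singleton_self _)
  rw [ContinuousLinearMap.comp_apply, hd, map_sub, map_smul, map_smul, h7, smul_zero, sub_zero]
  rfl

theorem rigid.{v} [CompleteSpace E] (hE : ¬FiniteDimensional ℝ E)
    (hc : Cardinal.mk E ≤ Cardinal.continuum) :
    ∃ φ : E →ₗ[ℝ] ℝ, φ ≠ 0 ∧ Dense (φ.ker : Set E) ∧
      ∀ (Y : Type v) [AddCommGroup Y] [Module ℝ Y] [TopologicalSpace Y] [IsTopologicalAddGroup Y]
        [ContinuousSMul ℝ Y] [LocallyConvexSpace ℝ Y],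
        Nonempty (Y ≃ₜ φ.ker) → Nonempty (Y ≃L[ℝ] φ.ker) := by
  obtain ⟨φ, hφ⟩ := exists_functional hc (![0, 0, 1] : Fin 3 → ℝ)
  have hX : ¬FiniteDimensional ℝ φ.ker := fun _ => by
    have h := fd_comap φ ⊤
    rw [Submodule.comap_top] at h
    exact hE topEquiv.finiteDimensional
  have hb : ∀ (x : E) (ε : ℝ), 0 < ε → ∃ z : Fin 3 → E, dist (z 0) x ≤ ε ∧ φ (z 0) = 0 ∧
      φ (z 2) = 1 := by
    intro x ε hε
    obtain ⟨z, h1, h2⟩ := hφ _ (rich_ball hE (fun _ => x) ε) (Metric.nonempty_ball.2 hε)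
    exact ⟨z, (dist_le_pi_dist z (fun _ => x) 0).trans (Metric.closure_ball_subset_closedBall h1),
      h2 0, h2 2⟩
  refine ⟨φ, fun h => ?_, fun x => Metric.mem_closure_iff.2 fun ε hε => ?_,
    fun Y _ _ _ _ _ _ ⟨g⟩ => rigid_of_dense hX g (dense_good φ hX hφ g)⟩
  · obtain ⟨z, -, -, h1⟩ := hb 0 1 one_pos
    simp [h] at h1
  · obtain ⟨z, h1, h2, -⟩ := hb x (ε / 2) (half_pos hε)
    exact ⟨z 0, h2, by rw [dist_comm]; linarith⟩

end Pool.Agent.P.MP_5aae23_gt.Rigid
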