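import Mathlib
import Pool.Agent.P.MP_5aae23_gt.RigC

/-!
The local projective argument on a convex set.
-/

open Set Filter Topology Submodule Function

namespace Pool.Agent.P.MP_5aae23_gt.Rigid

variable {Y V : Type*} [AddCommGroup Y] [Module ℝ Y] {C : Set Y}

/-- The convex combination `(1 - t) p + t q` inside a convex set. -/
noncomputable def mix (hC : Convex ℝ C) (t : ℝ) (p q : C) : C :=
  ⟨(1 - max 0 (min 1 t)) • p.1 + max 0 (min 1 t) • q.1,
    hC p.2 q.2 (sub_nonneg.2 (max_le zero_le_one (min_le_left _ _))) (le_max_left _ _) (by ring)⟩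

theorem mix_coe (hC : Convex ℝ C) {t : ℝ} (h0 : 0 ≤ t) (h1 : t ≤ 1) (p q : C) :
    (mix hC t p q : Y) = (1 - t) • p.1 + t • q.1 := by
  simp only [mix, min_eq_right h1, max_eq_right h0]

theorem mix_zero (hC : Convex ℝ C) (p q : C) : mix hC 0 p q = p :=
  Subtype.ext (by simp [mix])

theorem mix_one (hC : Convex ℝ C) (p q : C) : mix hC 1 p q = q :=
  Subtype.ext (by simp [mix])

theorem mix_self (hC : Convex ℝ C) (t : ℝ) (p : C) : mix hC t p p = p :=
  Subtype.ext (by simp only [mix]; module)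

theorem mix_inj_left (hC : Convex ℝ C) {t : ℝ} (h0 : 0 ≤ t) (h1 : t < 1) (q : C) :
    Injective fun p => mix hC t p q := by
  intro a b h
  have h2 := congrArg Subtype.val h
  simp only [mix_coe hC h0 h1.le] at h2
  exact Subtype.ext (smul_right_injective Y (sub_ne_zero.2 h1.ne') (add_right_cancel h2))

theorem mix_inj_right (hC : Convex ℝ C) {t : ℝ} (h0 : 0 < t) (h1 : t ≤ 1) (p : C) :
    Injective fun q => mix hC t p q := by
  intro a b h
  have h2 := congrArg Subtype.val h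
  simp only [mix_coe hC h0.le h1] at h2
  exact Subtype.ext (smul_right_injective Y h0.ne' (add_left_cancel h2))

variable [TopologicalSpace Y] [IsTopologicalAddGroup Y] [ContinuousSMul ℝ Y]
  [NormedAddCommGroup V] [NormedSpace ℝ V]

@[fun_prop]
theorem cont_mix (hC : Convex ℝ C) {P : Type*} [TopologicalSpace P] {t : P → ℝ} {p q : P → C}
    (ht : Continuous t) (hp : Continuous p) (hq : Continuous q) :
    Continuous fun x => mix hC (t x) (p x) (q x) :=
  Continuous.subtype_mk (by fun_prop) _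

/-- `NF` along every continuous injection. -/
def NFI {Z : Type*} [TopologicalSpace Z] (G : Z → V) : Prop :=
  ∀ f : Z → Z, Continuous f → Injective f → NF fun z => G (f z)

theorem dense_cons {Z P : Type*} [TopologicalSpace Z] [TopologicalSpace P] {n : ℕ}
    (u : P → V) (v : P → Fin n → V) (hd : Dense {x | LinearIndependent ℝ (v x)})
    (ξ : P → Z → P) (c : P → Z) (h1 : ∀ x, Continuous (ξ x)) (h2 : ∀ x, ξ x (c x) = x)
    (h3 : ∀ x z, v (ξ x z) = v x) (h4 : ∀ x, NF fun z => u (ξ x z)) :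
    Dense {x | LinearIndependent ℝ (Matrix.vecCons (u x) (v x))} := by
  rw [dense_iff_inter_open]
  intro U hU hne
  obtain ⟨x, hx, hv⟩ := hd.inter_open_nonempty U hU hne
  obtain ⟨z, h5, h6⟩ := ((h4 x (c x) _ (fd_range (v x))).and_eventually
    (((h1 x).tendsto' (c x) x (h2 x)).eventually (hU.mem_nhds hx))).exists
  refine ⟨ξ x z, h6, ?_⟩
  change LinearIndependent ℝ (Matrix.vecCons (u (ξ x z)) (v (ξ x z)))
  rw [h3]
  exact LinearIndependent.finCons hv h5

section Cube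

variable {Z : Type*} [TopologicalSpace Z] {n : ℕ} {G : Z → V} (hN : NFI G)
  (a : Z × Z × Z → Z) (ha : Continuous a) (v : Z × Z × Z → Fin n → V)
  (hd : Dense {x | LinearIndependent ℝ (v x)})
include hN ha hd

theorem dc1 (h3 : ∀ (x : Z × Z × Z) z, v (z, x.2.1, x.2.2) = v x)
    (h4 : ∀ x : Z × Z × Z, Injective fun z => a (z, x.2.1, x.2.2)) :
    Dense {x | LinearIndependent ℝ (Matrix.vecCons (G (a x)) (v x))} :=
  dense_cons _ v hd (fun x z => (z, x.2.1, x.2.2)) (fun x => x.1) (fun _ => by fun_prop)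
    (fun _ => rfl) h3 fun x => hN _ (by fun_prop) (h4 x)

theorem dc2 (h3 : ∀ (x : Z × Z × Z) z, v (x.1, z, x.2.2) = v x)
    (h4 : ∀ x : Z × Z × Z, Injective fun z => a (x.1, z, x.2.2)) :
    Dense {x | LinearIndependent ℝ (Matrix.vecCons (G (a x)) (v x))} :=
  dense_cons _ v hd (fun x z => (x.1, z, x.2.2)) (fun x => x.2.1) (fun _ => by fun_prop)
    (fun _ => rfl) h3 fun x => hN _ (by fun_prop) (h4 x)

theorem dc3 (h3 : ∀ (x : Z × Z × Z) z, v (x.1, x.2.1, z) = v x)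
    (h4 : ∀ x : Z × Z × Z, Injective fun z => a (x.1, x.2.1, z)) :
    Dense {x | LinearIndependent ℝ (Matrix.vecCons (G (a x)) (v x))} :=
  dense_cons _ v hd (fun x z => (x.1, x.2.1, z)) (fun x => x.2.2) (fun _ => by fun_prop)
    (fun _ => rfl) h3 fun x => hN _ (by fun_prop) (h4 x)

end Cube

theorem dense_nil {P : Type*} [TopologicalSpace P] :
    Dense {x : P | LinearIndependent ℝ ((fun _ => ![]) x : Fin 0 → V)} := by
  simpa [linearIndependent_empty_type] using dense_univ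

theorem coef' {Z : Type*} [TopologicalSpace Z] {G H : Z → V} (hG : Continuous G)
    (hH : Continuous H) (p0 : Z) (z : V) (hi : LinearIndependent ℝ ![G p0, z]) :
    ∃ a b : Z → ℝ, ∀ᶠ p in 𝓝 p0, ContinuousAt a p ∧ ContinuousAt b p ∧
      (H p ∈ span ℝ {G p, z} → H p = a p • G p + b p • z) := by
  have hz : z ≠ 0 := hi.ne_zero 1
  obtain ⟨h, hh⟩ := SeparatingDual.exists_eq_one (R := ℝ) hz
  have hx : G p0 - h (G p0) • z ≠ 0 := fun e => one_ne_zero
    (LinearIndependent.pair_iff.1 hi 1 (-h (G p0)) (by linear_combination (norm := module) e)).1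
  obtain ⟨f', hf'⟩ := SeparatingDual.exists_eq_one (R := ℝ) hx
  let f : V →L[ℝ] ℝ := f' - f' z • h
  have f1 : f z = 0 := by simp [f, hh]
  have f2 : f (G p0) ≠ 0 := by
    have : f (G p0) = 1 := by
      rw [← hf']
      simp [f, mul_comm]
    rw [this]
    exact one_ne_zero
  refine ⟨fun p => f (H p) / f (G p), fun p => h (H p) - f (H p) / f (G p) * h (G p), ?_⟩
  filter_upwards [((f.continuous.comp hG).tendsto p0).eventually_ne f2] with p hp
  have hp' : f (G p) ≠ 0 := hp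
  have ha : ContinuousAt (fun p => f (H p) / f (G p)) p :=
    ContinuousAt.div (by fun_prop) (by fun_prop) hp'
  refine ⟨ha, ContinuousAt.sub (by fun_prop) (ha.mul (by fun_prop)), fun hm => ?_⟩
  obtain ⟨a, b, e⟩ := mem_span_pair.1 hm
  have e1 : f (H p) / f (G p) = a := by
    rw [← e]
    simp [f1, hp']
  rw [e1, ← e]
  simp [hh]

theorem conv_nhds [LocallyConvexSpace ℝ Y] (hC : Convex ℝ C) (p0 : C) (S : Set C)
    (hS : S ∈ 𝓝 p0) : ∃ P1 ∈ 𝓝 p0, P1 ⊆ S ∧ ∀ t, ∀ p ∈ P1, ∀ q ∈ P1, mix hC t p q ∈ P1 := by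
  obtain ⟨T, hT, hTS⟩ := (mem_nhds_subtype _ _ _).1 hS
  obtain ⟨K, hK, hKc, hKT⟩ := (locallyConvexSpace_iff_exists_convex_subset ℝ Y).1 ‹_› _ T hT
  exact ⟨Subtype.val ⁻¹' K, continuous_subtype_val.continuousAt hK,
    (preimage_mono hKT).trans hTS, fun t p hp q hq => hKc hp hq
      (sub_nonneg.2 (max_le zero_le_one (min_le_left _ _))) (le_max_left _ _) (by ring)⟩

theorem proj' [LocallyConvexSpace ℝ Y] (hC : Convex ℝ C) {G : C → V} (hG : Continuous G)
    (hN : NFI G) (l k : C → ℝ) (p0 q0 : C) (hi : LinearIndependent ℝ ![G p0, G q0])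
    (S : Set C) (hS : S ∈ 𝓝 p0)
    (h : ∀ᶠ x in 𝓝 (p0, q0), l x.1 ≠ 0 ∧ k x.2 ≠ 0 ∧
      ∃ t ≠ (0 : ℝ), G (mix hC (1 / 2) x.1 x.2) = t • (l x.1 • G x.1 + k x.2 • G x.2)) :
    ∃ n : ℕ, ∃ P1 ∈ 𝓝 p0, P1 ⊆ S ∧ (∀ t, ∀ p ∈ P1, ∀ q ∈ P1, mix hC t p q ∈ P1) ∧
      ∀ p ∈ P1, ∀ y ∈ P1,
        l (mix hC (1 / (n + 2)) p y) • G (mix hC (1 / (n + 2)) p y)
          = l (mix hC (1 / (n + 2)) p p0) • G (mix hC (1 / (n + 2)) p p0)
            + (l (mix hC (1 / (n + 2)) p0 y) • G (mix hC (1 / (n + 2)) p0 y) - l p0 • G p0) := by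
  obtain ⟨P, hP, Q, hQ, hPQ⟩ := mem_nhds_prod_iff.1 h
  have h' : ∀ p ∈ P, ∀ q ∈ Q, l p ≠ 0 ∧ k q ≠ 0 ∧
      ∃ t ≠ (0 : ℝ), G (mix hC (1 / 2) p q) = t • (l p • G p + k q • G q) :=
    fun p hp q hq => hPQ (mk_mem_prod hp hq)
  have hp0 := mem_of_mem_nhds hP
  have hq0 := mem_of_mem_nhds hQ
  have key : ∀ p ∈ P, ∀ p' ∈ P, ∀ q ∈ Q, ∀ q' ∈ Q, (p : Y) + q = p' + q' → ∃ c : ℝ,
      l p' • G p' + k q' • G q' = c • (l p • G p + k q • G q) := by
    intro p h1 p' h2 q h3 q' h4 e0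
    obtain ⟨-, -, t, -, e⟩ := h' p h1 q h3
    obtain ⟨-, -, t', ht', e'⟩ := h' _ h2 _ h4
    have e1 : mix hC (1 / 2) p' q' = mix hC (1 / 2) p q := by
      apply Subtype.ext
      rw [mix_coe hC (by norm_num) (by norm_num), mix_coe hC (by norm_num) (by norm_num)]
      linear_combination (norm := module) -(1 / 2 : ℝ) • e0
    rw [e1, e] at e'
    exact ⟨t'⁻¹ * t, by rw [mul_smul, e', smul_smul, inv_mul_cancel₀ ht', one_smul]⟩
  obtain ⟨q2, hq2, hq2Q⟩ := ((hN id continuous_id injective_id q0 _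
    (fd_range ![G p0, G q0])).and_eventually (eventually_eventually_nhds.2 hQ)).exists
  have hi3 : LinearIndependent ℝ ![G p0, G q0, G q2] := by
    have h1 : LinearIndependent ℝ ![G q2, G p0, G q0] := hi.finCons hq2
    have h2 := h1.comp ![1, 2, 0] (by decide)
    have h3 : ![G q2, G p0, G q0] ∘ ![1, 2, 0] = ![G p0, G q0, G q2] := by
      funext i; fin_cases i <;> rfl
    rwa [h3] at h2
  have hev : ∀ᶠ x : ℝ × C × C in 𝓝 (0, p0, p0), mix hC x.1 x.2.1 x.2.2 ∈ P ∧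
      mix hC x.1 q0 x.2.2 ∈ Q ∧ mix hC x.1 q2 x.2.2 ∈ Q ∧ LinearIndependent ℝ
        ![G (mix hC x.1 x.2.1 p0), G (mix hC x.1 q0 x.2.2), G (mix hC x.1 q2 x.2.2)] := by
    refine ((Continuous.tendsto' (f := fun x : ℝ × C × C => mix hC x.1 x.2.1 x.2.2)
      (by fun_prop) _ _ (mix_zero hC _ _)).eventually hP).and
      (((Continuous.tendsto' (f := fun x : ℝ × C × C => mix hC x.1 q0 x.2.2)
      (by fun_prop) _ _ (mix_zero hC _ _)).eventually hQ).and
      (((Continuous.tendsto' (f := fun x : ℝ × C × C => mix hC x.1 q2 x.2.2)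
      (by fun_prop) _ _ (mix_zero hC _ _)).eventually hq2Q).and ?_))
    exact (Continuous.tendsto' (f := fun x : ℝ × C × C =>
      ![G (mix hC x.1 x.2.1 p0), G (mix hC x.1 q0 x.2.2), G (mix hC x.1 q2 x.2.2)])
      (by fun_prop) _ _ (by simp only [mix_zero])).eventually hi3.eventually
  obtain ⟨R, hR, P2, hP2, h1⟩ := mem_nhds_prod_iff.1 hev
  obtain ⟨P3, hP3, P4, hP4, h2⟩ := mem_nhds_prod_iff.1 hP2
  obtain ⟨P1, hP1, h3, hcv⟩ := conv_nhds hC p0 (S ∩ (P3 ∩ P4))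
    (inter_mem hS (inter_mem hP3 hP4))
  obtain ⟨n, hn⟩ : ∃ n : ℕ, (1 / (n + 2) : ℝ) ∈ R := by
    have := (tendsto_one_div_add_atTop_nhds_zero_nat (𝕜 := ℝ)).comp (tendsto_add_atTop_nat 1)
    obtain ⟨n, hn⟩ := (this.eventually hR).exists
    refine ⟨n, ?_⟩
    have e : (1 / (n + 2) : ℝ) = 1 / (((n + 1 : ℕ) : ℝ) + 1) := by push_cast; ring
    rw [e]
    exact hn
  refine ⟨n, P1, hP1, fun x hx => (h3 hx).1, hcv, ?_⟩
  obtain ⟨δ, hδ⟩ : ∃ δ : ℝ, δ = 1 / (n + 2) := ⟨_, rfl⟩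
  rw [← hδ] at hn ⊢
  have d0 : 0 < δ := by rw [hδ]; positivity
  have d1 : δ ≤ 1 / 2 := by
    rw [hδ]
    exact one_div_le_one_div_of_le two_pos (by linarith [Nat.cast_nonneg (α := ℝ) n])
  have d2 : δ < 1 := by linarith
  have hm := mix_coe hC d0.le d2.le
  have H : ∀ p ∈ P1, ∀ y ∈ P1, mix hC δ p y ∈ P ∧ mix hC δ q0 y ∈ Q ∧ mix hC δ q2 y ∈ Q ∧
      LinearIndependent ℝ ![G (mix hC δ p p0), G (mix hC δ q0 y), G (mix hC δ q2 y)] :=
    fun p hp y hy => h1 (mk_mem_prod hn (h2 (mk_mem_prod (h3 hp).2.1 (h3 hy).2.2)))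
  have hp0' : p0 ∈ P1 := mem_of_mem_nhds hP1
  have main : ∀ y ∈ P1, ∃ (κ : ℝ) (c : V), ∀ p ∈ P1,
      l (mix hC δ p y) • G (mix hC δ p y) = κ • l (mix hC δ p p0) • G (mix hC δ p p0) + c := by
    intro y hy
    choose! c1 hc1 using fun p (hp : p ∈ P1) => key _ (H p hp p0 hp0').1 _ (H p hp y hy).1
      _ (H p hp y hy).2.1 _ (H p hp p0 hp0').2.1 (by simp only [hm]; module)
    choose! c2 hc2 using fun p (hp : p ∈ P1) => key _ (H p hp p0 hp0').1 _ (H p hp y hy).1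
      _ (H p hp y hy).2.2.1 _ (H p hp p0 hp0').2.2.1 (by simp only [hm]; module)
    refine ⟨c1 p0, c1 p0 • k (mix hC δ q0 y) • G (mix hC δ q0 y)
      - k (mix hC δ q0 p0) • G (mix hC δ q0 p0), fun p hp => ?_⟩
    obtain ⟨p2, h4, h5⟩ := ((hN (fun z => mix hC δ z p0) (by fun_prop)
      (mix_inj_left hC d0.le d2 p0) p0 _ (fd_range ![G (mix hC δ p p0), G (mix hC δ p0 p0),
        G (mix hC δ q0 y), G (mix hC δ q2 y)])).and_eventually hP1).exists
    have h6 : ∀ r ∈ P1, G (mix hC δ r p0) ∈ range ![G (mix hC δ p p0), G (mix hC δ p0 p0),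
        G (mix hC δ q0 y), G (mix hC δ q2 y)] → c1 r = c1 p2 := by
      intro r hr hr'
      refine alt ((H r hr y hy).2.2.2.finCons fun h7 => h4 (span_mono ?_ h7))
        (h' p0 hp0 _ (H r hr y hy).2.1).2.1 (hc1 r hr) (hc2 r hr) (hc1 p2 h5) (hc2 p2 h5)
      rintro _ ⟨i, rfl⟩
      fin_cases i
      exacts [hr', ⟨2, rfl⟩, ⟨3, rfl⟩]
    rw [h6 p0 hp0' ⟨1, rfl⟩, ← h6 p hp ⟨0, rfl⟩]
    linear_combination (norm := module) hc1 p hp
  choose! κ c hκ using main
  have d3 : 0 ≤ δ / (1 - δ) := div_nonneg d0.le (by linarith)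
  have d4 : δ / (1 - δ) ≤ 1 := (div_le_one (by linarith)).2 (by linarith)
  have d5 : 1 - δ ≠ 0 := by linarith
  have hm' := mix_coe hC d3 d4
  have hone : ∀ y ∈ P1, κ y = 1 := by
    intro y hy
    by_contra hne
    obtain ⟨z, h4, hz⟩ := ((hN (fun z => mix hC δ p0 z) (by fun_prop)
      (mix_inj_right hC d0 d2.le p0) p0 _ (fd_range ![G p0, c y])).and_eventually hP1).exists
    have s1 : ∀ z : C, mix hC δ (mix hC (δ / (1 - δ)) p0 z) p0 = mix hC δ p0 z := fun z =>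
      Subtype.ext (by simp only [hm, hm']; match_scalars <;> field_simp <;> ring)
    have s2 : mix hC δ (mix hC (δ / (1 - δ)) p0 z) y = mix hC δ (mix hC (δ / (1 - δ)) p0 y) z :=
      Subtype.ext (by simp only [hm, hm']; match_scalars <;> field_simp)
    have e1 := hκ y hy _ (hcv (δ / (1 - δ)) p0 hp0' z hz)
    have e2 := hκ z hz _ (hcv (δ / (1 - δ)) p0 hp0' y hy)
    have e3 := hκ z hz _ hp0'
    have e4 := hκ y hy _ hp0'
    rw [mix_self] at e3 e4
    rw [← s2, e1, s1, s1, e3, e4] at e2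
    have h5 : l (mix hC δ p0 z) ≠ 0 := (h' _ (H p0 hp0' z hz).1 q0 hq0).1
    have h6 : κ y - 1 ≠ 0 := sub_ne_zero.2 hne
    have h7 : (κ y - 1) • c z = (κ z - 1) • c y := by linear_combination (norm := module) e2
    have h8 : c z = ((κ y - 1)⁻¹ * (κ z - 1)) • c y := by
      rw [mul_smul, ← h7, smul_smul, inv_mul_cancel₀ h6, one_smul]
    refine h4 ((smul_mem_iff _ h5).1 ?_)
    rw [e3, h8]
    exact add_mem (smul_mem _ _ (smul_mem _ _ (subset_span ⟨0, rfl⟩)))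
      (smul_mem _ _ (subset_span ⟨1, rfl⟩))
  intro p hp y hy
  have e1 := hκ y hy p hp
  have e2 := hκ y hy p0 hp0'
  rw [hone y hy] at e1 e2
  rw [mix_self] at e2
  rw [e1, e2]
  module

theorem affine_of (hC : Convex ℝ C) (f : C → V) (n : ℕ) (p0 : C) (P1 : Set C) (h0 : p0 ∈ P1)
    (hf0 : f p0 = 0) (hcv : ∀ t, ∀ p ∈ P1, ∀ q ∈ P1, mix hC t p q ∈ P1)
    (hc : ∀ p ∈ P1, ContinuousAt f p)
    (h : ∀ p ∈ P1, ∀ y ∈ P1, f (mix hC (1 / (n + 2)) p y)
      = f (mix hC (1 / (n + 2)) p p0) + f (mix hC (1 / (n + 2)) p0 y)) :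
    ∀ p ∈ P1, ∀ y ∈ P1, ∀ t ∈ Icc (0 : ℝ) 1, f (mix hC t p y) = (1 - t) • f p + t • f y := by
  have n0 : (0 : ℝ) ≤ n := Nat.cast_nonneg n
  obtain ⟨δ, hδ⟩ : ∃ δ : ℝ, δ = 1 / (n + 2) := ⟨_, rfl⟩
  rw [← hδ] at h
  have d0 : 0 < δ := by rw [hδ]; positivity
  have d1 : δ * (n + 2) = 1 := by rw [hδ]; field_simp
  have d2 : δ < 1 := by nlinarith
  have hm := mix_coe hC d0.le d2.le
  have a1 : ∀ y ∈ P1, ∀ k : ℕ, k ≤ n + 2 →
      f (mix hC (k * δ) p0 y) = (k : ℝ) • f (mix hC δ p0 y) := by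
    intro y hy k
    induction k with
    | zero => simp [mix_zero, hf0]
    | succ k ih =>
      intro hk
      have k0 : (0 : ℝ) ≤ k := Nat.cast_nonneg k
      have k1 : (k : ℝ) ≤ n + 1 := by exact_mod_cast Nat.le_of_succ_le_succ hk
      have m1 := mix_coe hC (t := k / (n + 1)) (by positivity)
        ((div_le_one (by positivity)).2 k1)
      have m2 := mix_coe hC (t := k * δ) (by positivity) (by nlinarith)
      have m3 := mix_coe hC (t := (k + 1) * δ) (by positivity) (by nlinarith)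
      have s1 : mix hC δ (mix hC (k / (n + 1)) p0 y) y = mix hC ((k + 1) * δ) p0 y :=
        Subtype.ext (by simp only [hm, m1, m3]; match_scalars <;> rw [hδ] <;> field_simp <;> ring)
      have s2 : mix hC δ (mix hC (k / (n + 1)) p0 y) p0 = mix hC (k * δ) p0 y :=
        Subtype.ext (by simp only [hm, m1, m2]; match_scalars <;> rw [hδ] <;> field_simp <;> ring)
      have e := h _ (hcv (k / (n + 1)) p0 h0 y hy) y hy
      rw [s1, s2, ih (by omega)] at e
      push_cast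
      rw [e]
      module
  have a2 : ∀ y ∈ P1, f (mix hC δ p0 y) = δ • f y := by
    intro y hy
    have e := a1 y hy (n + 2) le_rfl
    push_cast at e
    rw [mul_comm, d1, mix_one] at e
    rw [e, smul_smul, d1, one_smul]
  have a3 : ∀ p ∈ P1, ∀ y ∈ P1, f (mix hC δ p y) = (1 - δ) • f p + δ • f y := by
    intro p hp y hy
    have e := a1 p hp (n + 1) (by omega)
    push_cast at e
    have d3 : ((n : ℝ) + 1) * δ = 1 - δ := by linarith
    have s1 : mix hC δ p p0 = mix hC (1 - δ) p0 p := Subtype.ext (by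
      rw [hm, mix_coe hC (by linarith) (by linarith)]; module)
    rw [h p hp y hy, a2 y hy, s1, ← d3, e, a2 p hp, smul_smul]
  intro p hp y hy
  refine IsClosed.Icc_subset_of_forall_exists_gt
    (s := {t | f (mix hC t p y) = (1 - t) • f p + t • f y}) ?_ (by simp [mix_zero]) ?_
  · refine (isClosed_eq (continuous_iff_continuousAt.2 fun t => ?_) (by fun_prop)).inter
      isClosed_Icc
    exact ContinuousAt.comp (f := fun t => mix hC t p y) (hc _ (hcv t p hp y hy))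
      (Continuous.continuousAt (by fun_prop))
  · rintro x ⟨hx, x0, x1⟩ w hw
    have b1 : ∀ k : ℕ, f (mix hC (x + δ ^ k * (1 - x)) p y)
        = (1 - (x + δ ^ k * (1 - x))) • f p + (x + δ ^ k * (1 - x)) • f y := by
      intro k
      induction k with
      | zero => simp [mix_one]
      | succ k ih =>
        have q1 : ∀ j : ℕ, 0 ≤ x + δ ^ j * (1 - x) ∧ x + δ ^ j * (1 - x) ≤ 1 := fun j => by
          have := pow_pos d0 j
          have := pow_le_one₀ (n := j) d0.le d2.le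
          constructor <;> nlinarith
        have s1 : mix hC (x + δ ^ (k + 1) * (1 - x)) p y
            = mix hC δ (mix hC x p y) (mix hC (x + δ ^ k * (1 - x)) p y) := Subtype.ext (by
          rw [hm, mix_coe hC x0 x1.le, mix_coe hC (q1 k).1 (q1 k).2,
            mix_coe hC (q1 (k + 1)).1 (q1 (k + 1)).2]
          match_scalars <;> ring)
        have hx' : f (mix hC x p y) = (1 - x) • f p + x • f y := hx
        rw [s1, a3 _ (hcv _ p hp y hy) _ (hcv _ p hp y hy), ih, hx']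
        match_scalars <;> ring
    obtain ⟨k, hk⟩ := exists_pow_lt_of_lt_one (sub_pos.2 (mem_Ioi.1 hw)) d2
    have := pow_pos d0 k
    exact ⟨x + δ ^ k * (1 - x), b1 k, by nlinarith, by nlinarith⟩

end Pool.Agent.P.MP_5aae23_gt.Rigid
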