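import Mathlib
import Pool.Agent.P.MP_5aae23_gt.RigD
import Pool.Agent.P.MP_5aae23_gt.RigE

/-!
From a locally affine map on a convex set to an interior point and a linear isomorphism.
-/

open Set Filter Topology Metric Module Function Submodule

namespace Pool.Agent.P.MP_5aae23_gt.Rigid

theorem finrank_le' {F1 F2 : Type*} [NormedAddCommGroup F1] [NormedSpace ℝ F1]
    [FiniteDimensional ℝ F1] [NormedAddCommGroup F2] [NormedSpace ℝ F2] [FiniteDimensional ℝ F2]
    (h : F1 → F2) (S : Set F1) (hc : ContinuousOn h S) (hS : S ∈ 𝓝 (0 : F1)) (hi : InjOn h S) :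
    finrank ℝ F1 ≤ finrank ℝ F2 := by
  obtain ⟨R, hR, hB⟩ := Metric.nhds_basis_closedBall.mem_iff.1 hS
  have : TietzeExtension F2 := TietzeExtension.of_tvs ℝ
  obtain ⟨F, hF⟩ := ContinuousMap.exists_extension' isClosed_closedBall.isClosedEmbedding_subtypeVal
    (⟨fun x => h x, continuousOn_iff_continuous_domRestrict.1 (hc.mono hB)⟩ :
      C(closedBall (0 : F1) R, F2))
  refine finrank_le_of_injOn F F.continuous _ (closedBall_mem_nhds 0 hR) fun x hx y hy hxy => ?_
  have h1 : F x = h x := congrFun hF ⟨x, hx⟩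
  have h2 : F y = h y := congrFun hF ⟨y, hy⟩
  exact hi (hB hx) (hB hy) (h1.symm.trans (hxy.trans h2))

theorem span_conv {M : Type*} [AddCommGroup M] [Module ℝ M] {S : Set M} (hS : Convex ℝ S)
    (h0 : (0 : M) ∈ S) {x : M} (hx : x ∈ span ℝ S) :
    ∃ t > (0 : ℝ), ∃ a ∈ S, ∃ b ∈ S, x = t • (a - b) := by
  induction hx using span_induction with
  | mem x hx => exact ⟨1, one_pos, x, hx, 0, h0, by simp⟩
  | zero => exact ⟨1, one_pos, 0, h0, 0, h0, by simp⟩
  | add x y _ _ h1 h2 =>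
    obtain ⟨t, ht, a, ha, b, hb, rfl⟩ := h1
    obtain ⟨s, hs, c, hc, d, hd, rfl⟩ := h2
    have h3 : t / (t + s) + s / (t + s) = 1 := by field_simp
    refine ⟨t + s, by positivity, _, hS ha hc (by positivity) (by positivity) h3,
      _, hS hb hd (by positivity) (by positivity) h3, ?_⟩
    match_scalars <;> field_simp
  | smul c x _ h1 =>
    obtain ⟨t, ht, a, ha, b, hb, rfl⟩ := h1
    rcases lt_trichotomy c 0 with h | h | h
    · exact ⟨-c * t, mul_pos (neg_pos.2 h) ht, b, hb, a, ha, by module⟩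
    · exact ⟨1, one_pos, 0, h0, 0, h0, by simp [h]⟩
    · exact ⟨c * t, mul_pos h ht, a, ha, b, hb, by module⟩

theorem alg_int {M ι : Type*} [AddCommGroup M] [Module ℝ M] [Fintype ι] {K : Set M}
    (hK : Convex ℝ K) (h0 : (0 : M) ∈ K) (hs : span ℝ K = ⊤) (b : ι → M) :
    ∃ z ∈ K, ∀ᶠ u in 𝓝 (0 : ι → ℝ), z + ∑ i, u i • b i ∈ K := by
  classical
  suffices h : ∀ s : Finset ι, ∃ z ∈ K, ∀ᶠ u in 𝓝 (0 : ι → ℝ), z + ∑ i ∈ s, u i • b i ∈ K from
    h Finset.univ
  intro s
  induction s using Finset.induction_on with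
  | empty => exact ⟨0, h0, Eventually.of_forall fun _ => by simpa using h0⟩
  | insert j s hj ih =>
    obtain ⟨z, hz, h1⟩ := ih
    obtain ⟨t, -, a, ha, c, hc, e⟩ := span_conv hK h0 (x := b j) (hs ▸ mem_top)
    have hh : (1 / 2 : ℝ) + 1 / 2 = 1 := by norm_num
    refine ⟨_, hK hz (hK ha hc (by norm_num) (by norm_num) hh) (by norm_num) (by norm_num) hh, ?_⟩
    have h2 := (Continuous.tendsto' (f := fun u : ι → ℝ => (2 : ℝ) • u) (by fun_prop) 0 0
      (by simp)).eventually h1
    have h3 := (Continuous.tendsto' (f := fun u : ι → ℝ => 2 * u j * t) (by fun_prop) 0 0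
      (by simp)).eventually (Ioo_mem_nhds (show -(1 / 2 : ℝ) < 0 by norm_num)
        (show (0 : ℝ) < 1 / 2 by norm_num))
    filter_upwards [h2, h3] with u h4 h5
    have h6 := hK h4 (hK ha hc (a := 1 / 2 + 2 * u j * t) (b := 1 / 2 - 2 * u j * t)
      (by linarith [h5.1]) (by linarith [h5.2]) (by ring)) (by norm_num) (by norm_num) hh
    have h7 : ∑ i ∈ s, ((2 : ℝ) • u) i • b i = (2 : ℝ) • ∑ i ∈ s, u i • b i := by
      simp [Finset.smul_sum, mul_smul]
    rw [h7] at h6
    rw [Finset.sum_insert hj, e]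
    refine (congrArg (· ∈ K) ?_).mp h6
    module

theorem finrank_comap_le {X V : Type*} [AddCommGroup X] [Module ℝ X] [AddCommGroup V] [Module ℝ V]
    (f : X →ₗ[ℝ] V) [FiniteDimensional ℝ f.ker] (v : V) :
    finrank ℝ ((span ℝ {v}).comap f) ≤ finrank ℝ f.ker + 1 := by
  have := fd_comap f (span ℝ {v})
  have h1 := LinearMap.finrank_range_add_finrank_ker (f.domRestrict ((span ℝ {v}).comap f))
  have h2 : finrank ℝ (f.domRestrict ((span ℝ {v}).comap f)).range ≤ finrank ℝ (span ℝ {v}) :=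
    Submodule.finrank_mono (by rintro _ ⟨x, rfl⟩; exact x.2)
  have h3 : finrank ℝ (span ℝ {v}) ≤ 1 := by
    simpa using finrank_span_le_card (R := ℝ) ({v} : Set V)
  have h4 : finrank ℝ (f.domRestrict ((span ℝ {v}).comap f)).ker ≤ finrank ℝ f.ker := by
    rw [← Submodule.finrank_map_subtype_eq]
    exact Submodule.finrank_mono (by rintro _ ⟨x, hx, rfl⟩; exact hx)
  omega

theorem fd_of_bound {M : Type*} [AddCommGroup M] [Module ℝ M] (d : ℕ)
    (h : ∀ (n : ℕ) (b : Fin n → M), LinearIndependent ℝ b → n ≤ d) : FiniteDimensional ℝ M := by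
  by_contra hf
  have h1 : Cardinal.aleph0 ≤ Module.rank ℝ M :=
    not_lt.1 fun h => hf (Module.rank_lt_aleph0_iff.1 h)
  obtain ⟨b, hb⟩ := exists_linearIndependent_of_le_rank (R := ℝ) (M := M)
    (n := d + 1) ((Cardinal.natCast_lt_aleph0).le.trans h1)
  exact absurd (h _ b hb) (by omega)

variable {Y X V : Type*} [AddCommGroup Y] [Module ℝ Y] [TopologicalSpace Y]
  [IsTopologicalAddGroup Y] [ContinuousSMul ℝ Y] [T2Space Y] [LocallyConvexSpace ℝ Y]
  [NormedAddCommGroup X] [NormedSpace ℝ X] [NormedAddCommGroup V] [NormedSpace ℝ V]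

theorem final' (g : Y → X) (e : X → Y) (he : Continuous e) (hge : ∀ x, g (e x) = x) (K : Set Y)
    (p : Y) (hK : K ∈ 𝓝 p) (hg : ContinuousOn g K) (heg : ∀ y ∈ K, e (g y) = y)
    (π : X →L[ℝ] V) (ho : IsOpenMap π) [FiniteDimensional ℝ π.ker] (T : Y →L[ℝ] V) (l : Y → ℝ)
    (hl : ContinuousAt l p) (hl0 : l p ≠ 0)
    (h : ∀ᶠ d in 𝓝 (0 : Y), T d = l (p + d) • π (g (p + d))) : Nonempty (Y ≃L[ℝ] X) := by
  have hadd : Tendsto (fun d => p + d) (𝓝 0) (𝓝 p) := by
    simpa using (continuous_const_add p).tendsto 0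
  have hl1 : Tendsto (fun d => l (p + d)) (𝓝 0) (𝓝 (l p)) := hl.tendsto.comp hadd
  have hne : ∀ᶠ d in 𝓝 (0 : Y), l (p + d) ≠ 0 := hl1.eventually_ne hl0
  have hp := heg p (mem_of_mem_nhds hK)
  have h0 : π (g p) = 0 := by
    have := h.self_of_nhds
    rw [map_zero, add_zero] at this
    exact (smul_eq_zero.1 this.symm).resolve_left hl0
  have hT : IsOpenMap T := by
    rw [IsTopologicalAddGroup.isOpenMap_iff_nhds_zero]
    intro M hM
    have h1 : Tendsto (fun d => (l (p + d))⁻¹ • d) (𝓝 0) (𝓝 (0 : Y)) := by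
      simpa using (hl1.inv₀ hl0).smul tendsto_id
    have h2 := (Continuous.tendsto' (f := fun x => e x - p) (by fun_prop) (g p) 0
      (by simp [hp])).eventually ((h.and hne).and (h1.eventually hM))
    have h3 := ho.image_mem_nhds h2
    rw [h0] at h3
    refine mem_of_superset h3 ?_
    rintro _ ⟨x, ⟨⟨h4, h5⟩, h6⟩, rfl⟩
    have h7 : T ((l (p + (e x - p)))⁻¹ • (e x - p)) ∈ M := h6
    rwa [map_smul, h4, smul_smul, inv_mul_cancel₀ h5, one_smul, add_sub_cancel, hge] at h7
  have hTs : Surjective T := surj T.toLinearMap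
    (hT.isOpen_range.mem_nhds ⟨0, map_zero T⟩)
  have hπs : Surjective π := surj π.toLinearMap
    (ho.isOpen_range.mem_nhds ⟨0, map_zero π⟩)
  obtain ⟨ρ, hρ⟩ := Submodule.ClosedComplemented.of_finiteDimensional π.ker
  have hle : ∀ (n : ℕ) (b : Fin n → T.ker), LinearIndependent ℝ b → n ≤ finrank ℝ π.ker := by
    intro n b hb
    let ι : (Fin n → ℝ) →ₗ[ℝ] Y := T.ker.subtype.comp (Fintype.linearCombination ℝ b)
    have hι : Injective ι := Subtype.val_injective.comp hb.fintypeLinearCombination_injective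
    have hιc : Continuous ι := ι.continuous_of_finiteDimensional
    have h1 : Tendsto ι (𝓝 0) (𝓝 0) := by simpa using hιc.tendsto 0
    have h2 := finrank_le' (fun u => ρ (g (p + ι u))) _
      (ρ.continuous.comp_continuousOn (hg.comp (Continuous.continuousOn (by fun_prop))
        fun u hu => hu.2))
      (h1.eventually ((h.and hne).and (hadd.eventually hK))) (by
        have h3 : ∀ u, (T (ι u) = l (p + ι u) • π (g (p + ι u)) ∧ l (p + ι u) ≠ 0) →
            (ρ (g (p + ι u)) : X) = g (p + ι u) := by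
          intro u hu
          have h4 : T (ι u) = 0 := (Fintype.linearCombination ℝ b u).2
          have h5 : π (g (p + ι u)) = 0 :=
            (smul_eq_zero.1 (hu.1.symm.trans h4)).resolve_left hu.2
          exact congrArg Subtype.val (hρ ⟨_, h5⟩)
        intro u hu v hv huv
        have h6 := (h3 u hu.1).symm.trans ((congrArg Subtype.val huv).trans (h3 v hv.1))
        exact hι (add_left_cancel ((heg _ hu.2).symm.trans ((congrArg e h6).trans (heg _ hv.2)))))
    simpa using h2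
  have : FiniteDimensional ℝ T.ker := fd_of_bound _ hle
  have hge' : finrank ℝ π.ker ≤ finrank ℝ T.ker := by
    obtain ⟨ρ', hρ'⟩ := Submodule.ClosedComplemented.of_finiteDimensional T.ker
    let E : T.ker ≃L[ℝ] (Fin (finrank ℝ T.ker) → ℝ) :=
      ContinuousLinearEquiv.ofFinrankEq (by simp)
    let k : π.ker → Y := fun w => e (g p + w) - p
    have hk : Continuous k := by fun_prop
    have h1 : Tendsto k (𝓝 0) (𝓝 0) := by simpa [k, hp] using hk.tendsto 0
    have h2 := finrank_le_of_injOn (fun w => E (ρ' (k w))) (by fun_prop) _ (h1.eventually h) (by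
      have h3 : ∀ w, T (k w) = l (p + k w) • π (g (p + k w)) → (ρ' (k w) : Y) = k w := by
        intro w hw
        have h4 : π w = 0 := w.2
        have h5 : T (k w) = 0 := by simpa [k, h0, h4, hge] using hw
        exact congrArg Subtype.val (hρ' ⟨_, h5⟩)
      intro u hu v hv huv
      have h6 := (h3 u hu).symm.trans
        ((congrArg Subtype.val (E.injective huv)).trans (h3 v hv))
      exact Subtype.ext (add_left_cancel ((LeftInverse.injective hge) (sub_left_injective h6))))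
    simpa using h2
  have heq : finrank ℝ T.ker = finrank ℝ π.ker :=
    le_antisymm (hle _ _ (Module.finBasis ℝ T.ker).linearIndependent) hge'
  obtain ⟨e1⟩ := split T hT hTs
  obtain ⟨e2⟩ := split π ho hπs
  exact ⟨e1.trans (((ContinuousLinearEquiv.refl ℝ V).prodCongr
    (ContinuousLinearEquiv.ofFinrankEq heq)).trans e2.symm)⟩

theorem int_point (g : Y → X) (e : X → Y) (he : Continuous e) (hge : ∀ x, g (e x) = x) (K : Set Y)
    (hK : Convex ℝ K) (h0 : (0 : Y) ∈ K) (hs : span ℝ K = ⊤) (hg : ContinuousOn g K)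
    (hn : ∀ᶠ x in 𝓝 (g 0), e x ∈ K) (π : X →L[ℝ] V) (ho : IsOpenMap π)
    [FiniteDimensional ℝ π.ker] (T : Y →ₗ[ℝ] V) (l : X → ℝ)
    (h : ∀ y ∈ K, ContinuousAt l (g y) ∧ l (g y) ≠ 0 ∧ T y = l (g y) • π (g y) ∧ e (g y) = y) :
    Continuous T ∧ ∃ z, K ∈ 𝓝 z := by
  obtain ⟨l1, l0, t0, e0⟩ := h 0 h0
  have hπ0 : π (g 0) = 0 := by
    rw [map_zero] at t0
    exact (smul_eq_zero.1 t0.symm).resolve_left l0
  have : FiniteDimensional ℝ T.ker := by
    refine fd_of_bound (finrank ℝ π.ker + 1) fun n b hb => ?_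
    let ι : (Fin n → ℝ) →ₗ[ℝ] Y := T.ker.subtype.comp (Fintype.linearCombination ℝ b)
    have hι : Injective ι := Subtype.val_injective.comp hb.fintypeLinearCombination_injective
    have hιc : Continuous ι := ι.continuous_of_finiteDimensional
    obtain ⟨z, -, h1⟩ := alg_int hK h0 hs fun i => (b i : Y)
    have h2 : ∀ᶠ u in 𝓝 (0 : Fin n → ℝ), z + ι u ∈ K :=
      h1.mono fun u hu => by simpa [ι, Fintype.linearCombination_apply] using hu
    have := fd_comap π.toLinearMap (span ℝ {T z})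
    obtain ⟨ρ, hρ⟩ := Submodule.ClosedComplemented.of_finiteDimensional
      ((span ℝ {T z}).comap π.toLinearMap)
    have h3 := finrank_le' (fun u => ρ (g (z + ι u))) _
      (ρ.continuous.comp_continuousOn (hg.comp (Continuous.continuousOn (by fun_prop))
        fun u hu => hu)) h2 (by
        have h3 : ∀ u, z + ι u ∈ K → (ρ (g (z + ι u)) : X) = g (z + ι u) := by
          intro u hu
          have h4 : T (ι u) = 0 := (Fintype.linearCombination ℝ b u).2
          obtain ⟨-, h5, h6, -⟩ := h _ hu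
          rw [map_add, h4, add_zero] at h6
          have h7 : π (g (z + ι u)) ∈ span ℝ {T z} :=
            (smul_mem_iff _ h5).1 (h6 ▸ mem_span_singleton_self _)
          exact congrArg Subtype.val (hρ ⟨_, h7⟩)
        intro u hu v hv huv
        have h6 := (h3 u hu).symm.trans ((congrArg Subtype.val huv).trans (h3 v hv))
        exact hι (add_left_cancel ((h _ hu).2.2.2.symm.trans
          ((congrArg e h6).trans (h _ hv).2.2.2))))
    have h4 := finrank_comap_le π.toLinearMap (T z)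
    simp only [finrank_fin_fun] at h3
    exact h3.trans h4
  have hop : ∀ M ∈ 𝓝 (0 : Y), T '' (K ∩ M) ∈ 𝓝 (0 : V) := by
    intro M hM
    have h1 : Tendsto (fun x => l (g 0) / (2 * l x)) (𝓝 (g 0)) (𝓝 (1 / 2)) := by
      have := (tendsto_const_nhds (x := l (g 0))).div (l1.tendsto.const_mul 2)
        (mul_ne_zero two_ne_zero l0)
      rwa [show l (g 0) / (2 * l (g 0)) = 1 / 2 by field_simp] at this
    have h2 : Tendsto (fun x => (l (g 0) / (2 * l x)) • e x) (𝓝 (g 0)) (𝓝 0) := by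
      simpa [e0] using h1.smul (he.tendsto (g 0))
    have h3 := ho.image_mem_nhds (hn.and ((h2.eventually hM).and (h1.eventually
      (Ioo_mem_nhds (show (0 : ℝ) < 1 / 2 by norm_num) (show (1 / 2 : ℝ) < 1 by norm_num)))))
    rw [hπ0] at h3
    have h4 := (Continuous.tendsto' (f := fun v : V => (2 / l (g 0)) • v) (by fun_prop) 0 0
      (by simp)).eventually h3
    filter_upwards [h4] with v ⟨x, ⟨h5, h6, h7⟩, h8⟩
    obtain ⟨-, h9, h10, -⟩ := h _ h5
    rw [hge] at h9 h10
    refine ⟨_, ⟨hK.smul_mem_of_zero_mem h0 h5 ⟨h7.1.le, h7.2.le⟩, h6⟩, ?_⟩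
    rw [map_smul, h10, h8, smul_smul, smul_smul]
    field_simp
    simp
  obtain ⟨ρ, hρ⟩ := Submodule.ClosedComplemented.of_finiteDimensional T.ker
  obtain ⟨z, hz, h1⟩ := alg_int hK h0 hs fun i => (Module.finBasis ℝ T.ker i : Y)
  have h2 : ∀ᶠ n : T.ker in 𝓝 0, z + (n : Y) ∈ K := by
    have h3 := ((Module.finBasis ℝ T.ker).equivFunL.continuous.tendsto' 0 0
      (map_zero _)).eventually h1
    refine h3.mono fun n hn => ?_
    have h4 := congrArg Subtype.val ((Module.finBasis ℝ T.ker).sum_equivFun n)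
    simp only [AddSubmonoidClass.coe_finsetSum, SetLike.val_smul] at h4
    rw [← h4]
    exact hn
  have h3 : ∀ᶠ x : Y × Y in 𝓝 (0, 0), z + (ρ (x.1 - x.2) : Y) ∈ K :=
    (Continuous.tendsto' (f := fun x : Y × Y => ρ (x.1 - x.2)) (by fun_prop) (0, 0) 0
      (by simp)).eventually h2
  obtain ⟨M1, hM1, M2, hM2, h4⟩ := mem_nhds_prod_iff.1 h3
  obtain ⟨η0, hη0, hball⟩ := Metric.nhds_basis_closedBall.mem_iff.1 (hop M2 hM2)
  have hin : ∀ y ∈ M1, ‖T y‖ ≤ η0 → (1 / 2 : ℝ) • z + (1 / 2 : ℝ) • y ∈ K := by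
    intro y hy hT
    obtain ⟨w, ⟨hw, hw2⟩, e1⟩ := hball (mem_closedBall_zero_iff.2 hT)
    have h5 : z + (ρ (y - w) : Y) ∈ K := h4 (mk_mem_prod hy hw2)
    have h6 : T (y - w) = 0 := by rw [map_sub, e1, sub_self]
    have h7 : (ρ (y - w) : Y) = y - w := congrArg Subtype.val (hρ ⟨_, h6⟩)
    rw [h7] at h5
    have h8 := hK h5 hw (a := 1 / 2) (b := 1 / 2) (by norm_num) (by norm_num) (by norm_num)
    refine (congrArg (· ∈ K) ?_).mp h8
    module
  have hz2 : (1 / 2 : ℝ) • z ∈ K := hK.smul_mem_of_zero_mem h0 hz ⟨by norm_num, by norm_num⟩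
  have hTK : ContinuousWithinAt T K ((1 / 2 : ℝ) • z) := by
    refine ContinuousWithinAt.congr (f := fun y => l (g y) • π (g y)) ?_
      (fun y hy => (h y hy).2.2.1) (h _ hz2).2.2.1
    exact ((h _ hz2).1.comp_continuousWithinAt (hg _ hz2)).smul
      (π.continuous.continuousAt.comp_continuousWithinAt (hg _ hz2))
  have hTc : Continuous T := by
    refine continuous_of_continuousAt_zero T ?_
    rw [ContinuousAt, map_zero, NormedAddGroup.tendsto_nhds_zero]
    intro ε hε
    have hη : 0 < min ε η0 := lt_min hε hη0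
    have h5 := eventually_nhdsWithin_iff.1 (Metric.tendsto_nhds.1 hTK _ (half_pos hη))
    have h6 := (Continuous.tendsto' (f := fun y : Y => (1 / 2 : ℝ) • z + (1 / 2 : ℝ) • y)
      (by fun_prop) 0 _ (by simp)).eventually h5
    obtain ⟨B, ⟨hB, hbal⟩, hBD⟩ := (nhds_basis_balanced ℝ Y).mem_iff.1 (h6.and hM1)
    filter_upwards [hB] with y hy
    by_contra hge
    have h7 : min ε η0 ≤ ‖T y‖ := (min_le_left _ _).trans (not_lt.1 hge)
    have h8 : 0 < ‖T y‖ := hη.trans_le h7
    have h9 := hBD (hbal.smul_mem (a := min ε η0 / ‖T y‖) (by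
      rw [Real.norm_of_nonneg (by positivity)]
      exact (div_le_one h8).2 h7) hy)
    have h10 : ‖T ((min ε η0 / ‖T y‖) • y)‖ = min ε η0 := by
      rw [map_smul, norm_smul, Real.norm_of_nonneg (by positivity), div_mul_cancel₀ _ h8.ne']
    have h11 := h9.1 (hin _ h9.2 (h10.trans_le (min_le_right _ _)))
    rw [dist_eq_norm, map_add, add_sub_cancel_left, map_smul, norm_smul, h10] at h11
    norm_num at h11
    linarith
  refine ⟨hTc, (1 / 2 : ℝ) • z, ?_⟩
  have h5 : ∀ᶠ y in 𝓝 (0 : Y), (1 / 2 : ℝ) • z + (1 / 2 : ℝ) • y ∈ K := by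
    filter_upwards [hM1, (hTc.tendsto' 0 0 (map_zero T)).eventually (closedBall_mem_nhds 0 hη0)]
      with y h1 h2 using hin y h1 (mem_closedBall_zero_iff.1 h2)
  refine ((Continuous.tendsto' (f := fun y : Y => (2 : ℝ) • y - z) (by fun_prop) _ 0
    (by module)).eventually h5).mono fun y hy => (congrArg (· ∈ K) ?_).mp hy
  module

end Pool.Agent.P.MP_5aae23_gt.Rigid
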