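import Mathlib
import Pool.Agent.P.MP_5aae23_gt.RigF

/-!
A dense hyperplane that is rigid among convex subsets of locally convex spaces.
-/

open Set Filter Topology Submodule Function Module

namespace Pool.Agent.P.MP_5aae23_gt.Rigid

universe u

theorem nfi_mkQ {Z X : Type*} [TopologicalSpace Z] [NormedAddCommGroup X] [NormedSpace ℝ X]
    (hX : ¬FiniteDimensional ℝ X) (g : Z ≃ₜ X) (W : Submodule ℝ X) [FiniteDimensional ℝ W]
    [IsClosed (W : Set X)] : NFI fun y => W.mkQ (g y) := by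
  intro f hf hi p W2 _ h
  have : FiniteDimensional ℝ W.mkQ.ker := by rw [ker_mkQ]; infer_instance
  have := fd_comap W.mkQ W2
  obtain ⟨ρ, hρ⟩ := Submodule.ClosedComplemented.of_finiteDimensional (W2.comap W.mkQ)
  refine hX (fd_of_bound (finrank ℝ (W2.comap W.mkQ)) fun n b hb => ?_)
  let ι : (Fin n → ℝ) →ₗ[ℝ] X := Fintype.linearCombination ℝ b
  have hι : Injective ι := hb.fintypeLinearCombination_injective
  have hιc : Continuous ι := ι.continuous_of_finiteDimensional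
  have h1 := (Continuous.tendsto' (f := fun u => g.symm (g p + ι u)) (by fun_prop) 0 p
    (by simp)).eventually h
  have h2 := finrank_le_of_injOn (fun u => ρ (g (f (g.symm (g p + ι u))))) (by fun_prop) _ h1 (by
    intro u hu v hv huv
    have h3 := congrArg Subtype.val (hρ ⟨_, not_not.1 hu⟩)
    have h4 := congrArg Subtype.val (hρ ⟨_, not_not.1 hv⟩)
    have h5 := h3.symm.trans ((congrArg Subtype.val huv).trans h4)
    exact hι (add_left_cancel (g.symm.injective (hi (g.injective h5)))))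
  simpa using h2

variable {Y : Type*} [AddCommGroup Y] [Module ℝ Y] [TopologicalSpace Y] [IsTopologicalAddGroup Y]
  [ContinuousSMul ℝ Y] {C : Set Y}

/-- The points near which `c` lies in the span of `a` and `b` modulo a fixed finite dimensional
subspace. -/
def good3 {P X : Type*} [TopologicalSpace P] [AddCommGroup X] [Module ℝ X] (a b c : P → X) :
    Set P :=
  {x | ∃ W : Submodule ℝ X, FiniteDimensional ℝ W ∧
    ∀ᶠ y in 𝓝 x, ∃ s t : ℝ, s • a y + t • b y - c y ∈ W}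

theorem isOpen_good3 {P X : Type*} [TopologicalSpace P] [AddCommGroup X] [Module ℝ X]
    (a b c : P → X) : IsOpen (good3 a b c) := by
  rw [isOpen_iff_mem_nhds]
  rintro x ⟨W, hW, h⟩
  exact (eventually_eventually_nhds.2 h).mono fun y hy => ⟨W, hW, hy⟩

variable {E : Type u} [NormedAddCommGroup E] [NormedSpace ℝ E]

theorem dense_good3 {P : Type*} [TopologicalSpace P] (φ : E →ₗ[ℝ] ℝ)
    (hφ : ∀ Γ : Set (Fin 3 → E), Rich Γ → Γ.Nonempty →
      ∃ z ∈ closure Γ, ∀ k, φ (z k) = ![0, 0, 1] k) (a b : P → φ.ker) (ha : Continuous a)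
    (hb : Continuous b) (Φ : φ.ker × φ.ker → φ.ker) (hΦ : Continuous Φ)
    (hd : ∀ (W : Submodule ℝ φ.ker) [FiniteDimensional ℝ W] [IsClosed (W : Set φ.ker)],
      Dense {x | LinearIndependent ℝ ![W.mkQ (a x), W.mkQ (b x)]}) :
    Dense (good3 a b fun x => Φ (a x, b x)) := by
  rw [dense_iff_inter_open]
  intro O hO hne
  by_contra hc
  have hbad : ∀ x ∈ O, ∀ W : Submodule ℝ φ.ker, FiniteDimensional ℝ W →
      ∃ᶠ y in 𝓝 x, ¬∃ s t : ℝ, s • a y + t • b y - Φ (a y, b y) ∈ W :=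
    fun x hx W hW h => hc ⟨x, hx, W, hW, h.mono fun y hy => not_not.1 hy⟩
  let γ : P → Fin 3 → E := fun y k => (![a y, b y, Φ (a y, b y)] k : φ.ker)
  have hγ : Continuous γ := continuous_pi fun k => continuous_subtype_val.comp
    ((continuous_apply k).comp (f := fun y : P => ![a y, b y, Φ (a y, b y)]) (by fun_prop))
  obtain ⟨z, hz, hv⟩ := hφ (γ '' O) (by
    rintro _ ⟨x, hx, rfl⟩ ε hε W _
    have : FiniteDimensional ℝ φ.ker.subtype.ker := by rw [ker_subtype]; infer_instance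
    have := fd_comap φ.ker.subtype W
    have := (W.comap φ.ker.subtype).closed_of_finiteDimensional
    let G : φ.ker → φ.ker ⧸ W.comap φ.ker.subtype := fun y => (W.comap φ.ker.subtype).mkQ y
    have hG : Continuous G := continuous_quot_mk
    have hU : IsOpen (O ∩ γ ⁻¹' Metric.ball (γ x) ε) :=
      hO.inter (Metric.isOpen_ball.preimage hγ)
    obtain ⟨x1, h4, h5⟩ := (hd (W.comap φ.ker.subtype)).inter_open_nonempty _ hU
      ⟨x, hx, Metric.mem_ball_self hε⟩
    have h6 : ∀ᶠ y in 𝓝 x1, LinearIndependent ℝ ![G (a y), G (b y)] :=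
      (Continuous.tendsto (f := fun y : P => ![G (a y), G (b y)]) (by fun_prop)
        x1).eventually (LinearIndependent.eventually h5)
    obtain ⟨y, h7, h8, h9⟩ := ((hbad _ h4.1 (W.comap φ.ker.subtype) inferInstance).and_eventually
      (h6.and (hU.mem_nhds h4))).exists
    refine ⟨γ y, ⟨y, h9.1, rfl⟩, h9.2, im_of φ.ker.subtype Subtype.val_injective W _ ?_⟩
    have h10 : LinearIndependent ℝ ![G (Φ (a y, b y)), G (a y), G (b y)] :=
      h8.finCons fun hm => h7 (by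
        obtain ⟨c, hc⟩ := (mem_span_range_iff_exists_fun ℝ).1 hm
        refine ⟨c 0, c 1, (Quotient.mk_eq_zero _).1 ?_⟩
        simp only [Fin.sum_univ_two, Matrix.cons_val_zero, Matrix.cons_val_one] at hc
        change (W.comap φ.ker.subtype).mkQ _ = 0
        rw [map_sub, map_add, map_smul, map_smul]
        exact sub_eq_zero.2 hc)
    have h11 := h10.comp ![1, 2, 0] (by decide)
    have h12 : (fun k => (W.comap φ.ker.subtype).mkQ (![a y, b y, Φ (a y, b y)] k))
        = ![G (Φ (a y, b y)), G (a y), G (b y)] ∘ ![1, 2, 0] := by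
      funext i; fin_cases i <;> rfl
    rw [h12]
    exact h11) (hne.image γ)
  obtain ⟨s, hs, hlim⟩ := mem_closure_iff_seq_limit.1 hz
  choose y _ hy using hs
  have hk : ∀ k, Tendsto (fun n => γ (y n) k) atTop (𝓝 (z k)) := fun k => by
    simpa only [hy, comp_def] using ((continuous_apply k).tendsto z).comp hlim
  have t0 : Tendsto (fun n => a (y n)) atTop (𝓝 ⟨z 0, hv 0⟩) := tendsto_subtype_rng.2 (hk 0)
  have t1 : Tendsto (fun n => b (y n)) atTop (𝓝 ⟨z 1, hv 1⟩) := tendsto_subtype_rng.2 (hk 1)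
  have t2 := ((continuous_subtype_val.comp hΦ).tendsto _).comp (t0.prodMk_nhds t1)
  have e := tendsto_nhds_unique (hk 2) t2
  have h1 : φ (z 2) = 0 := by
    rw [e]
    exact (Φ _).2
  exact one_ne_zero ((hv 2).symm.trans h1)

/-- The barycentre of three points. -/
noncomputable def bar (hC : Convex ℝ C) (x : C × C × C) : C :=
  mix hC (1 / 3) (mix hC (1 / 2) x.1 x.2.1) x.2.2

omit [TopologicalSpace Y] [IsTopologicalAddGroup Y] [ContinuousSMul ℝ Y] in
theorem bar_eq1 (hC : Convex ℝ C) (x : C × C × C) :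
    bar hC x = mix hC (2 / 3) x.1 (mix hC (1 / 2) x.2.1 x.2.2) := by
  have h1 := mix_coe hC (t := 1 / 2) (by norm_num) (by norm_num)
  have h2 := mix_coe hC (t := 1 / 3) (by norm_num) (by norm_num)
  have h3 := mix_coe hC (t := 2 / 3) (by norm_num) (by norm_num)
  exact Subtype.ext (by simp only [bar, h1, h2, h3]; module)

omit [TopologicalSpace Y] [IsTopologicalAddGroup Y] [ContinuousSMul ℝ Y] in
theorem bar_eq2 (hC : Convex ℝ C) (x : C × C × C) :
    bar hC x = mix hC (1 / 3) (mix hC (1 / 2) x.1 x.2.2) x.2.1 := by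
  have h1 := mix_coe hC (t := 1 / 2) (by norm_num) (by norm_num)
  have h2 := mix_coe hC (t := 1 / 3) (by norm_num) (by norm_num)
  exact Subtype.ext (by simp only [bar, h1, h2]; module)

theorem local_affine [LocallyConvexSpace ℝ Y] {V : Type*} [NormedAddCommGroup V] [NormedSpace ℝ V]
    (hC : Convex ℝ C) {G : C → V} (hG : Continuous G) (hN : NFI G) (x0 : C × C × C)
    (h : ∀ᶠ x in 𝓝 x0, G (mix hC (1 / 2) x.1 x.2.1) ∈ span ℝ {G x.1, G x.2.1} ∧
      G (mix hC (1 / 2) x.2.1 x.2.2) ∈ span ℝ {G x.2.1, G x.2.2} ∧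
      G (mix hC (1 / 2) x.1 x.2.2) ∈ span ℝ {G x.1, G x.2.2} ∧
      G (bar hC x) ∈ span ℝ {G (mix hC (1 / 2) x.1 x.2.1), G x.2.2} ∧
      G (bar hC x) ∈ span ℝ {G x.1, G (mix hC (1 / 2) x.2.1 x.2.2)} ∧
      G (bar hC x) ∈ span ℝ {G (mix hC (1 / 2) x.1 x.2.2), G x.2.1}) :
    ∃ (p0 : C) (l : C → ℝ), ∃ P1 ∈ 𝓝 p0, (∀ t, ∀ p ∈ P1, ∀ q ∈ P1, mix hC t p q ∈ P1) ∧
      (∀ p ∈ P1, ContinuousAt l p ∧ l p ≠ 0) ∧
      ∀ p ∈ P1, ∀ y ∈ P1, ∀ t ∈ Icc (0 : ℝ) 1, l (mix hC t p y) • G (mix hC t p y) - l p0 • G p0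
        = (1 - t) • (l p • G p - l p0 • G p0) + t • (l y • G y - l p0 • G p0) := by
  have hb : Continuous (bar hC) := by unfold bar; fun_prop
  have a1 := dc1 hN (fun x => x.1) (by fun_prop) _ dense_nil (fun _ _ => rfl)
    fun _ => injective_id
  have a2 := dc2 hN (fun x => x.2.1) (by fun_prop) _ dense_nil (fun _ _ => rfl)
    fun _ => injective_id
  have a3 := dc3 hN (fun x => x.2.2) (by fun_prop) _ dense_nil (fun _ _ => rfl)
    fun _ => injective_id
  have b12 := dc1 hN (fun x => x.1) (by fun_prop) _ a2 (fun _ _ => rfl) fun _ => injective_id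
  have b23 := dc2 hN (fun x => x.2.1) (by fun_prop) _ a3 (fun _ _ => rfl) fun _ => injective_id
  have b13 := dc1 hN (fun x => x.1) (by fun_prop) _ a3 (fun _ _ => rfl) fun _ => injective_id
  have j0 := dc1 hN (fun x => x.1) (by fun_prop) _ b23 (fun _ _ => rfl) fun _ => injective_id
  have j1 := dc3 hN (bar hC) hb _ b12 (fun _ _ => rfl) fun x =>
    mix_inj_right hC (t := 1 / 3) (by norm_num) (by norm_num) (mix hC (1 / 2) x.1 x.2.1)
  have j2 := dc1 hN (bar hC) hb _ b23 (fun _ _ => rfl) fun x => by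
    simp only [bar_eq1]
    exact mix_inj_left hC (by norm_num) (by norm_num) _
  have j3 := dc2 hN (bar hC) hb _ b13 (fun _ _ => rfl) fun x => by
    simp only [bar_eq2]
    exact mix_inj_right hC (by norm_num) (by norm_num) _
  have op : ∀ a b c : C × C × C → C, Continuous a → Continuous b → Continuous c →
      IsOpen {x | LinearIndependent ℝ ![G (a x), G (b x), G (c x)]} := fun a b c _ _ _ =>
    isOpen_setOfPred_linearIndependent.preimage
      (f := fun x => ![G (a x), G (b x), G (c x)]) (by fun_prop)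
  have c0 := op (fun x => x.1) (fun x => x.2.1) (fun x => x.2.2) (by fun_prop) (by fun_prop)
    (by fun_prop)
  have c1 := op (bar hC) (fun x => x.1) (fun x => x.2.1) hb (by fun_prop) (by fun_prop)
  have c2 := op (bar hC) (fun x => x.2.1) (fun x => x.2.2) hb (by fun_prop) (by fun_prop)
  have c3 := op (bar hC) (fun x => x.1) (fun x => x.2.2) hb (by fun_prop) (by fun_prop)
  have hJd := j0.inter_of_isOpen_left (j1.inter_of_isOpen_left
    (j2.inter_of_isOpen_left j3 c2) c1) c0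
  obtain ⟨⟨p0, q0, r⟩, hJ, h1⟩ := hJd.inter_nhds_nonempty (eventually_eventually_nhds.2 h)
  have h2 := (c0.inter (c1.inter (c2.inter c3))).mem_nhds hJ
  have hs : Tendsto (fun x : C × C => (x.1, x.2, r)) (𝓝 (p0, q0)) (𝓝 (p0, q0, r)) :=
    Continuous.tendsto (f := fun x : C × C => (x.1, x.2, r)) (by fun_prop) (p0, q0)
  have sub : ∀ (i j : Fin 3), i ≠ j → LinearIndependent ℝ
      ![![G p0, G q0, G r] i, ![G p0, G q0, G r] j] := by
    intro i j hij
    have h3 := LinearIndependent.comp hJ.1 ![i, j] (by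
      intro a b hab
      fin_cases a <;> fin_cases b <;> simp_all [eq_comm])
    have h4 : ![G p0, G q0, G r] ∘ ![i, j] = ![![G p0, G q0, G r] i, ![G p0, G q0, G r] j] := by
      funext a; fin_cases a <;> rfl
    rwa [h4] at h3
  obtain ⟨a2, b2, e2⟩ := coef' hG (H := fun p => G (mix hC (1 / 2) p r)) (by fun_prop) p0 (G r)
    (sub 0 2 (by decide))
  obtain ⟨a1, b1, e1⟩ := coef' hG (H := fun p => G (mix hC (1 / 2) p r)) (by fun_prop) q0 (G r)
    (sub 1 2 (by decide))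
  have h3 : ∀ᶠ x in 𝓝 (p0, q0), b2 x.1 ≠ 0 ∧ a2 x.1 / b2 x.1 ≠ 0 ∧ a1 x.2 / b1 x.2 ≠ 0 ∧
      ∃ t ≠ (0 : ℝ), G (mix hC (1 / 2) x.1 x.2)
        = t • ((a2 x.1 / b2 x.1) • G x.1 + (a1 x.2 / b1 x.2) • G x.2) := by
    filter_upwards [hs.eventually h1, hs.eventually h2,
      (continuous_fst.tendsto (p0, q0)).eventually e2,
      (continuous_snd.tendsto (p0, q0)).eventually e1] with x hx hi f2 f1
    obtain ⟨s1, s2, s3, s4, s5, s6⟩ := hx
    refine alg (s := G (bar hC (x.1, x.2, r))) hi.1 hi.2.1 hi.2.2.1 hi.2.2.2 s1 s4 ?_ ?_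
    · rw [← f1.2.2 s2]
      exact s5
    · rw [← f2.2.2 s3]
      exact s6
  have h4 : ∀ᶠ p in 𝓝 p0, ContinuousAt (fun p => a2 p / b2 p) p ∧ a2 p / b2 p ≠ 0 := by
    filter_upwards [e2, (Continuous.tendsto (f := fun p : C => (p, q0)) (by fun_prop)
      p0).eventually h3] with p f1 f2 using ⟨f1.1.div f1.2.1 f2.1, f2.2.1⟩
  obtain ⟨n, P1, hP1, h5, hcv, h6⟩ := proj' hC hG hN (fun p => a2 p / b2 p) (fun q => a1 q / b1 q)
    p0 q0 (sub 0 1 (by decide)) _ h4 (h3.mono fun x hx => hx.2)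
  refine ⟨p0, _, P1, hP1, hcv, h5, affine_of hC
    (fun p => (a2 p / b2 p) • G p - (a2 p0 / b2 p0) • G p0) n p0 P1 (mem_of_mem_nhds hP1)
    (sub_self _) hcv (fun p hp => ((h5 hp).1.smul hG.continuousAt).sub continuousAt_const)
    fun p hp y hy => ?_⟩
  rw [h6 p hp y hy]
  module

theorem lin_ext {V : Type*} [AddCommGroup V] [Module ℝ V] (hC : Convex ℝ C)
    (hs : affineSpan ℝ C = ⊤) (f : C → V) (p0 : C) (P1 : Set C) (hP1 : P1 ∈ 𝓝 p0)
    (hf0 : f p0 = 0) (hcv : ∀ t, ∀ p ∈ P1, ∀ q ∈ P1, mix hC t p q ∈ P1)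
    (h : ∀ p ∈ P1, ∀ y ∈ P1, ∀ t ∈ Icc (0 : ℝ) 1, f (mix hC t p y) = (1 - t) • f p + t • f y) :
    Convex ℝ ((fun y : C => (y : Y) - p0) '' P1) ∧
      span ℝ ((fun y : C => (y : Y) - p0) '' P1) = ⊤ ∧
      ∃ T : Y →ₗ[ℝ] V, ∀ y ∈ P1, T (y - p0) = f y := by
  have h0 := mem_of_mem_nhds hP1
  let S : Set (Y × V) := (fun y : C => ((y : Y) - p0, f y)) '' P1
  have hS : Convex ℝ S := by
    rintro _ ⟨p, hp, rfl⟩ _ ⟨y, hy, rfl⟩ a b ha hb hab
    have e : a = 1 - b := by linarith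
    refine ⟨mix hC b p y, hcv b p hp y hy, Prod.ext ?_ ?_⟩
    · simp only [mix_coe hC hb (by linarith), e, Prod.fst_add, Prod.smul_fst]
      module
    · simp only [h p hp y hy b ⟨hb, by linarith⟩, e, Prod.snd_add, Prod.smul_snd]
  have hS0 : (0 : Y × V) ∈ S := ⟨p0, h0, by simp [hf0]⟩
  have hK : (fun y : C => (y : Y) - p0) '' P1 = LinearMap.fst ℝ Y V '' S := by
    rw [image_image]
    rfl
  have hsp : span ℝ ((fun y : C => (y : Y) - p0) '' P1) = ⊤ := by
    rw [eq_top_iff, ← AffineSubspace.vectorSpan_eq_top_of_affineSpan_eq_top ℝ Y Y hs,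
      vectorSpan_eq_span_vsub_set_right ℝ p0.2, span_le]
    rintro _ ⟨c, hc, rfl⟩
    have h1 := (Continuous.tendsto' (f := fun t : ℝ => mix hC t p0 ⟨c, hc⟩) (by fun_prop) 0 p0
      (mix_zero hC _ _)).eventually hP1
    obtain ⟨t, h2, h3⟩ := ((h1.filter_mono (nhdsWithin_le_nhds (s := Ioi (0 : ℝ)))).and
      (Ioo_mem_nhdsGT one_pos)).exists
    refine (smul_mem_iff _ h3.1.ne').1 (subset_span ⟨_, h2, ?_⟩)
    simp only [mix_coe hC h3.1.le h3.2.le, vsub_eq_sub]
    module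
  refine ⟨hK ▸ hS.linear_image _, hsp, ?_⟩
  obtain ⟨T, hT⟩ := Submodule.exists_eq_graph (G := span ℝ S) (by
    constructor
    · intro x y hxy
      obtain ⟨t, ht, _, ⟨a, -, rfl⟩, _, ⟨b, -, rfl⟩, e⟩ := span_conv hS hS0 (x - y).2
      have h1 : ((x - y : span ℝ S) : Y × V).1 = 0 := sub_eq_zero.2 hxy
      rw [e] at h1
      have h2 : a = b := Subtype.ext (sub_left_injective
        (sub_eq_zero.1 ((smul_eq_zero.1 h1).resolve_left ht.ne')))
      rw [h2, sub_self, smul_zero] at e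
      exact sub_eq_zero.1 (Subtype.ext e)
    · intro y
      have h1 : y ∈ (span ℝ S).map (LinearMap.fst ℝ Y V) := by
        rw [map_span, ← hK, hsp]
        exact mem_top
      obtain ⟨x, hx, rfl⟩ := h1
      exact ⟨⟨x, hx⟩, rfl⟩)
  refine ⟨T, fun y hy => ?_⟩
  have h1 : ((y : Y) - p0, f y) ∈ T.graph := hT ▸ subset_span ⟨y, hy, rfl⟩
  exact ((LinearMap.mem_graph_iff _ _).1 h1).symm

theorem fd_ker_comp {X V : Type*} [NormedAddCommGroup X] [NormedSpace ℝ X] [NormedAddCommGroup V]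
    [NormedSpace ℝ V] (π : X →L[ℝ] V) [FiniteDimensional ℝ π.ker] (v : V) :
    FiniteDimensional ℝ ((span ℝ {v}).mkQL.comp π).ker := by
  have e : ((span ℝ {v}).mkQL.comp π).ker = (span ℝ {v}).comap π.toLinearMap := by
    ext x
    exact Quotient.mk_eq_zero _
  rw [e]
  exact fd_comap _ _

theorem final2 [LocallyConvexSpace ℝ Y] [T2Space Y] {X V : Type*} [NormedAddCommGroup X]
    [NormedSpace ℝ X] [NormedAddCommGroup V] [NormedSpace ℝ V] (g : Y → X) (e : X → Y)
    (he : Continuous e) (hge : ∀ x, g (e x) = x) (K : Set Y) (z : Y) (hz : K ∈ 𝓝 z)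
    (hg : ContinuousOn g K) (π : X →L[ℝ] V) (ho : IsOpenMap π) [FiniteDimensional ℝ π.ker]
    (T : Y →ₗ[ℝ] V) (hT : Continuous T) (l : X → ℝ)
    (H : ∀ y ∈ K, ContinuousAt l (g y) ∧ l (g y) ≠ 0 ∧ T y = l (g y) • π (g y) ∧ e (g y) = y) :
    Nonempty (Y ≃L[ℝ] X) := by
  have hzK := mem_of_mem_nhds hz
  have := (span ℝ {π (g z)}).closed_of_finiteDimensional
  have := fd_ker_comp π (π (g z))
  refine final' g e he hge K z hz hg (fun y hy => (H y hy).2.2.2)
    ((span ℝ {π (g z)}).mkQL.comp π) ((span ℝ {π (g z)}).isOpenMap_mkQ.comp ho)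
    ((span ℝ {π (g z)}).mkQL.comp ⟨T, hT⟩) (fun y => l (g y))
    ((H z hzK).1.comp (hg.continuousAt hz)) (H z hzK).2.1 ?_
  refine ((Continuous.tendsto' (f := fun d : Y => z + d) (by fun_prop) 0 z
    (by simp)).eventually hz).mono fun d hd => ?_
  have h7 : (span ℝ {π (g z)}).mkQL (π (g z)) = 0 :=
    (Quotient.mk_eq_zero _).2 (mem_span_singleton_self _)
  have h8 : T d = T (z + d) - T z := by rw [map_add, add_sub_cancel_left]
  change (span ℝ {π (g z)}).mkQL (T d) = _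
  rw [h8, (H _ hd).2.2.1, (H z hzK).2.2.1, map_sub, map_smul, map_smul, h7, smul_zero, sub_zero]
  rfl

theorem rigid_convex_of [LocallyConvexSpace ℝ Y] [T2Space Y] {X : Type*} [NormedAddCommGroup X]
    [NormedSpace ℝ X] (hX : ¬FiniteDimensional ℝ X) (hC : Convex ℝ C) (hs : affineSpan ℝ C = ⊤)
    (g : C ≃ₜ X)
    (hd : ∀ (a b : C × C × C → C) (t : ℝ), Continuous a → Continuous b →
      (∀ (W : Submodule ℝ X) [FiniteDimensional ℝ W] [IsClosed (W : Set X)],
        Dense {x | LinearIndependent ℝ ![W.mkQ (g (a x)), W.mkQ (g (b x))]}) →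
      Dense (good3 (fun x => g (a x)) (fun x => g (b x)) fun x => g (mix hC t (a x) (b x)))) :
    (interior C).Nonempty ∧ Nonempty (Y ≃L[ℝ] X) := by
  classical
  have m1 := mix_inj_left hC (t := 1 / 2) (by norm_num) (by norm_num)
  have d1 := hd (fun x => x.1) (fun x => x.2.1) (1 / 2) (by fun_prop) (by fun_prop) fun W _ _ =>
    dc1 (nfi_mkQ hX g W) (fun x => x.1) (by fun_prop) _
      (dc2 (nfi_mkQ hX g W) (fun x => x.2.1) (by fun_prop) _ dense_nil (fun _ _ => rfl)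
        fun _ => injective_id) (fun _ _ => rfl) fun _ => injective_id
  have d2 := hd (fun x => x.2.1) (fun x => x.2.2) (1 / 2) (by fun_prop) (by fun_prop) fun W _ _ =>
    dc2 (nfi_mkQ hX g W) (fun x => x.2.1) (by fun_prop) _
      (dc3 (nfi_mkQ hX g W) (fun x => x.2.2) (by fun_prop) _ dense_nil (fun _ _ => rfl)
        fun _ => injective_id) (fun _ _ => rfl) fun _ => injective_id
  have d3 := hd (fun x => x.1) (fun x => x.2.2) (1 / 2) (by fun_prop) (by fun_prop) fun W _ _ =>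
    dc1 (nfi_mkQ hX g W) (fun x => x.1) (by fun_prop) _
      (dc3 (nfi_mkQ hX g W) (fun x => x.2.2) (by fun_prop) _ dense_nil (fun _ _ => rfl)
        fun _ => injective_id) (fun _ _ => rfl) fun _ => injective_id
  have d4 := hd (fun x => mix hC (1 / 2) x.1 x.2.1) (fun x => x.2.2) (1 / 3) (by fun_prop)
    (by fun_prop) fun W _ _ =>
    dc1 (nfi_mkQ hX g W) (fun x => mix hC (1 / 2) x.1 x.2.1) (by fun_prop) _
      (dc3 (nfi_mkQ hX g W) (fun x => x.2.2) (by fun_prop) _ dense_nil (fun _ _ => rfl)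
        fun _ => injective_id) (fun _ _ => rfl) fun _ => m1 _
  have d5 := hd (fun x => x.1) (fun x => mix hC (1 / 2) x.2.1 x.2.2) (2 / 3) (by fun_prop)
    (by fun_prop) fun W _ _ =>
    dc1 (nfi_mkQ hX g W) (fun x => x.1) (by fun_prop) _
      (dc2 (nfi_mkQ hX g W) (fun x => mix hC (1 / 2) x.2.1 x.2.2) (by fun_prop) _ dense_nil
        (fun _ _ => rfl) fun _ => m1 _) (fun _ _ => rfl) fun _ => injective_id
  have d6 := hd (fun x => mix hC (1 / 2) x.1 x.2.2) (fun x => x.2.1) (1 / 3) (by fun_prop)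
    (by fun_prop) fun W _ _ =>
    dc1 (nfi_mkQ hX g W) (fun x => mix hC (1 / 2) x.1 x.2.2) (by fun_prop) _
      (dc2 (nfi_mkQ hX g W) (fun x => x.2.1) (by fun_prop) _ dense_nil (fun _ _ => rfl)
        fun _ => injective_id) (fun _ _ => rfl) fun _ => m1 _
  have : Nonempty C := ⟨g.symm 0⟩
  obtain ⟨x0, ⟨W1, _, h1⟩, ⟨W2, _, h2⟩, ⟨W3, _, h3⟩, ⟨W4, _, h4⟩, ⟨W5, _, h5⟩, ⟨W6, _, h6⟩⟩ :=
    (d1.inter_of_isOpen_left (d2.inter_of_isOpen_left (d3.inter_of_isOpen_left
      (d4.inter_of_isOpen_left (d5.inter_of_isOpen_left d6 (isOpen_good3 _ _ _))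
        (isOpen_good3 _ _ _)) (isOpen_good3 _ _ _)) (isOpen_good3 _ _ _))
          (isOpen_good3 _ _ _)).nonempty
  let W : Submodule ℝ X := W1 ⊔ (W2 ⊔ (W3 ⊔ (W4 ⊔ (W5 ⊔ W6))))
  have := W.closed_of_finiteDimensional
  let G : C → X ⧸ W := fun y => W.mkQ (g y)
  have hG : Continuous G := continuous_quot_mk.comp g.continuous
  have sp : ∀ (W' : Submodule ℝ X), W' ≤ W → ∀ a b c : C,
      (∃ s t : ℝ, s • g a + t • g b - g c ∈ W') → G c ∈ span ℝ {G a, G b} := by
    rintro W' hW a b c ⟨s, t, hx⟩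
    refine mem_span_pair.2 ⟨s, t, ?_⟩
    have h7 : W.mkQ _ = 0 := (Quotient.mk_eq_zero _).2 (hW hx)
    rw [map_sub, map_add, map_smul, map_smul] at h7
    exact sub_eq_zero.1 h7
  obtain ⟨p0, l, P1, hP1, hcv, hl, haff⟩ := local_affine hC hG (nfi_mkQ hX g W) x0 (by
    filter_upwards [h1, h2, h3, h4, h5, h6] with x a b c d e f
    refine ⟨sp W1 le_sup_left _ _ _ a, sp W2 (le_sup_of_le_right le_sup_left) _ _ _ b,
      sp W3 (le_sup_of_le_right (le_sup_of_le_right le_sup_left)) _ _ _ c,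
      sp W4 (le_sup_of_le_right (le_sup_of_le_right (le_sup_of_le_right le_sup_left))) _ _ _ d,
      ?_, ?_⟩
    · rw [bar_eq1]
      exact sp W5 (le_sup_of_le_right (le_sup_of_le_right (le_sup_of_le_right
        (le_sup_of_le_right le_sup_left)))) _ _ _ e
    · rw [bar_eq2]
      exact sp W6 (le_sup_of_le_right (le_sup_of_le_right (le_sup_of_le_right
        (le_sup_of_le_right le_sup_right)))) _ _ _ f)
  obtain ⟨hK, hsp, T, hT⟩ := lin_ext hC hs (fun p => l p • G p - l p0 • G p0) p0 P1 hP1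
    (sub_self _) hcv haff
  obtain ⟨K, hKe⟩ : ∃ K, K = (fun y : C => (y : Y) - p0) '' P1 := ⟨_, rfl⟩
  rw [← hKe] at hK hsp
  let g' : Y → X := fun y => if h : p0 + y ∈ C then g ⟨p0 + y, h⟩ else 0
  let e : X → Y := fun x => g.symm x - p0
  have hg' : ∀ y : C, g' (y - p0) = g y := by
    intro y
    have h7 : (p0 : Y) + (y - p0) ∈ C := by rw [add_sub_cancel]; exact y.2
    simp only [g', dif_pos h7, add_sub_cancel]
  have he : Continuous e := by fun_prop
  have hge : ∀ x, g' (e x) = x := fun x => (hg' _).trans (g.apply_symm_apply x)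
  have hKC : ∀ y ∈ K, (p0 : Y) + y ∈ C := by
    rw [hKe]
    rintro _ ⟨y, -, rfl⟩
    rw [add_sub_cancel]
    exact y.2
  have hgc : ContinuousOn g' K := by
    rw [continuousOn_iff_continuous_domRestrict]
    refine (g.continuous.comp (Continuous.subtype_mk (f := fun y : K => (p0 : Y) + y)
      (by fun_prop) fun y => hKC y y.2)).congr fun y => ?_
    change g _ = g' y
    simp only [g', dif_pos (hKC y y.2)]
  have h0K : (0 : Y) ∈ K := hKe ▸ ⟨p0, mem_of_mem_nhds hP1, sub_self _⟩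
  have hg0 : g' 0 = g p0 := by rw [← hg' p0, sub_self]
  have : FiniteDimensional ℝ W.mkQL.ker := by
    change FiniteDimensional ℝ W.mkQ.ker
    rw [ker_mkQ]; infer_instance
  have := (span ℝ {G p0}).closed_of_finiteDimensional
  have := fd_ker_comp W.mkQL (G p0)
  let π := (span ℝ {G p0}).mkQL.comp W.mkQL
  have ho : IsOpenMap π := (span ℝ {G p0}).isOpenMap_mkQ.comp W.isOpenMap_mkQ
  let T1 := (span ℝ {G p0}).mkQ.comp T
  have H : ∀ y ∈ K, ContinuousAt (fun x => l (g.symm x)) (g' y) ∧ l (g.symm (g' y)) ≠ 0 ∧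
      T1 y = l (g.symm (g' y)) • π (g' y) ∧ e (g' y) = y := by
    rw [hKe]
    rintro _ ⟨y, hy, rfl⟩
    simp only [hg', e, g.symm_apply_apply]
    refine ⟨ContinuousAt.comp_of_eq (hl y hy).1 g.symm.continuous.continuousAt
      (g.symm_apply_apply y), (hl y hy).2, ?_, trivial⟩
    have h7 : (span ℝ {G p0}).mkQ (G p0) = 0 :=
      (Quotient.mk_eq_zero _).2 (mem_span_singleton_self _)
    change (span ℝ {G p0}).mkQ (T (y - p0)) = _
    rw [hT y hy, map_sub, map_smul, map_smul, h7, smul_zero, sub_zero]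
    rfl
  obtain ⟨hTc, z, hz⟩ := int_point g' e he hge K hK h0K hsp hgc (by
    rw [hg0, hKe]
    exact ((g.symm.continuous.tendsto' _ p0 (g.symm_apply_apply p0)).eventually hP1).mono
      fun x hx => ⟨_, hx, rfl⟩) π ho T1 _ H
  refine ⟨⟨p0 + z, mem_interior_iff_mem_nhds.2 ?_⟩, ?_⟩
  · refine ((Continuous.tendsto' (f := fun y : Y => y - p0) (by fun_prop) _ z
      (by simp)).eventually hz).mono fun y hy => ?_
    have h7 := hKC _ hy
    rwa [add_sub_cancel] at h7
  · exact final2 g' e he hge K z hz hgc π ho T1 hTc _ H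

theorem rigid_convex.{v} [CompleteSpace E] (hE : ¬FiniteDimensional ℝ E)
    (hc : Cardinal.mk E ≤ Cardinal.continuum) :
    ∃ φ : E →ₗ[ℝ] ℝ, φ ≠ 0 ∧ Dense (φ.ker : Set E) ∧
      ∀ (Y : Type v) [AddCommGroup Y] [Module ℝ Y] [TopologicalSpace Y] [IsTopologicalAddGroup Y]
        [ContinuousSMul ℝ Y] [LocallyConvexSpace ℝ Y] [T2Space Y] (C : Set Y), Convex ℝ C →
        affineSpan ℝ C = ⊤ → Nonempty (C ≃ₜ φ.ker) →
        (interior C).Nonempty ∧ Nonempty (Y ≃L[ℝ] φ.ker) := by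
  obtain ⟨φ, hφ⟩ := exists_functional hc (![0, 0, 1] : Fin 3 → ℝ)
  have hX : ¬FiniteDimensional ℝ φ.ker := fun _ => by
    have h := fd_comap φ ⊤
    rw [Submodule.comap_top] at h
    exact hE topEquiv.finiteDimensional
  have hb : ∀ (x : E) (ε : ℝ), 0 < ε → ∃ z : Fin 3 → E, dist (z 0) x ≤ ε ∧ φ (z 0) = 0 ∧
      φ (z 2) = 1 := by
    intro x ε hε
    obtain ⟨z, h1, h2⟩ := hφ _ (rich_ball hE (fun _ => x) ε) (Metric.nonempty_ball.2 hε)
    exact ⟨z, (dist_le_pi_dist z (fun _ => x) 0).trans (Metric.closure_ball_subset_closedBall h1),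
      h2 0, h2 2⟩
  refine ⟨φ, fun h => ?_, fun x => Metric.mem_closure_iff.2 fun ε hε => ?_,
    fun Y _ _ _ _ _ _ _ C hC hs ⟨g⟩ => rigid_convex_of hX hC hs g fun a b t ha hb hd => ?_⟩
  · obtain ⟨z, -, -, h1⟩ := hb 0 1 one_pos
    simp [h] at h1
  · obtain ⟨z, h1, h2, -⟩ := hb x (ε / 2) (half_pos hε)
    exact ⟨z 0, h2, by rw [dist_comm]; linarith⟩
  · simpa only [Homeomorph.symm_apply_apply] using dense_good3 φ hφ (fun x => g (a x))
      (fun x => g (b x)) (by fun_prop) (by fun_prop)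
      (fun x => g (mix hC t (g.symm x.1) (g.symm x.2))) (by fun_prop) hd

end Pool.Agent.P.MP_5aae23_gt.Rigid
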