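import Mathlib
import Pool.Agent.P.MP_5aae23_gt.RigG

/-!
The rigidity theorem for an arbitrary convex subset of a locally convex space.
-/

open Set Filter Topology Submodule Function Module

namespace Pool.Agent.P.MP_5aae23_gt.Rigid

universe u

theorem reduce {Y X : Type*} [AddCommGroup Y] [Module ℝ Y] [TopologicalSpace Y]
    [IsTopologicalAddGroup Y] [ContinuousSMul ℝ Y] [NormedAddCommGroup X] [NormedSpace ℝ X]
    {C : Set Y} (hC : Convex ℝ C) (g : C ≃ₜ X)
    (h : ∀ [T2Space (vectorSpan ℝ C)] (D : Set (vectorSpan ℝ C)), Convex ℝ D →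
      affineSpan ℝ D = ⊤ → Nonempty (D ≃ₜ X) →
      (interior D).Nonempty ∧ Nonempty (vectorSpan ℝ C ≃L[ℝ] X)) :
    ∃ p ∈ C, ∃ e : vectorSpan ℝ C ≃L[ℝ] X,
      (interior (e '' {y : vectorSpan ℝ C | p + (y : Y) ∈ C})).Nonempty := by
  obtain ⟨p, hp⟩ := g.symm 0
  let D : Set (vectorSpan ℝ C) := {y | p + y ∈ C}
  have hD : Convex ℝ D := (hC.translate_preimage_right p).linear_preimage (vectorSpan ℝ C).subtype
  have h0 : (0 : vectorSpan ℝ C) ∈ D := by simpa [D] using hp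
  have hsp : span ℝ D = ⊤ := by
    apply map_injective_of_injective (vectorSpan ℝ C).injective_subtype
    rw [map_subtype_top, map_span]
    refine le_antisymm (span_le.2 ?_) ?_
    · rintro _ ⟨y, -, rfl⟩
      exact y.2
    · refine (vectorSpan_eq_span_vsub_set_right ℝ hp).le.trans (span_mono ?_)
      rintro _ ⟨c, hc, rfl⟩
      exact ⟨⟨c - p, vsub_mem_vectorSpan ℝ hc hp⟩, by simpa [D] using hc, rfl⟩
  let k : D ≃ₜ C :=
    { toFun := fun y => ⟨p + y.1.1, y.2⟩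
      invFun := fun c => ⟨⟨c.1 - p, vsub_mem_vectorSpan ℝ c.2 hp⟩, by simp [D]⟩
      left_inv := fun y => by simp
      right_inv := fun c => by simp
      continuous_toFun := by fun_prop
      continuous_invFun := by fun_prop }
  have : T0Space D := (k.trans g).isEmbedding.t0Space
  have : T0Space (vectorSpan ℝ C) := by
    rw [t0Space_iff_inseparable]
    intro x y hxy
    obtain ⟨t, ht, a, ha, b, hb, e⟩ := span_conv hD h0 (x := x - y) (hsp ▸ mem_top)
    have h1 : Inseparable (t⁻¹ • (x + -y) + b) (t⁻¹ • (y + -y) + b) :=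
      ((hxy.add (Inseparable.refl _)).const_smul _).add (Inseparable.refl _)
    rw [← sub_eq_add_neg, e, smul_smul, inv_mul_cancel₀ ht.ne'] at h1
    simp only [one_smul, sub_add_cancel, add_neg_cancel, smul_zero, zero_add] at h1
    have h2 : a = b := congrArg Subtype.val
      ((subtype_inseparable_iff (⟨a, ha⟩ : D) ⟨b, hb⟩).2 h1).eq
    rw [h2, sub_self, smul_zero] at e
    exact sub_eq_zero.1 e
  obtain ⟨⟨z, hz⟩, ⟨e⟩⟩ := h D hD (by
    rw [AffineSubspace.affineSpan_eq_top_iff_vectorSpan_eq_top_of_nonempty ℝ _ _ ⟨0, h0⟩,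
      vectorSpan_eq_span_vsub_set_right ℝ h0]
    simpa using hsp) ⟨k.trans g⟩
  exact ⟨p, hp, e, e z, e.toHomeomorph.isOpenMap.image_interior_subset D ⟨z, hz, rfl⟩⟩

theorem rigid_conv.{v} {E : Type u} [NormedAddCommGroup E] [NormedSpace ℝ E] [CompleteSpace E]
    (hE : ¬FiniteDimensional ℝ E) (hc : Cardinal.mk E ≤ Cardinal.continuum) :
    ∃ φ : E →ₗ[ℝ] ℝ, φ ≠ 0 ∧ Dense (φ.ker : Set E) ∧
      ∀ (Y : Type v) [AddCommGroup Y] [Module ℝ Y] [TopologicalSpace Y] [IsTopologicalAddGroup Y]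
        [ContinuousSMul ℝ Y] [LocallyConvexSpace ℝ Y] (C : Set Y), Convex ℝ C →
        Nonempty (C ≃ₜ φ.ker) →
        ∃ p ∈ C, ∃ e : vectorSpan ℝ C ≃L[ℝ] φ.ker,
          (interior (e '' {y : vectorSpan ℝ C | p + (y : Y) ∈ C})).Nonempty := by
  obtain ⟨φ, h1, h2, h3⟩ := rigid_convex.{u, v} hE hc
  exact ⟨φ, h1, h2, fun Y _ _ _ _ _ _ C hC ⟨g⟩ => reduce hC g fun D => h3 _ D⟩

end Pool.Agent.P.MP_5aae23_gt.Rigid
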