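import Mathlib
import Pool.Agent.P.MP_5aae23_gt.NTop

universe v

/-- There is a linear subspace of `c₀` that is a countable union of closed subsets of `c₀` and is
homeomorphic to no real inner product space. -/
theorem Pool.Agent.P.MP_5aae23_gt.VariantFSigma.result :
    ∃ X : Submodule ℝ (ZeroAtInftyContinuousMap ℕ ℝ),
      (∃ Y : ℕ → Set (ZeroAtInftyContinuousMap ℕ ℝ), (∀ k, IsClosed (Y k)) ∧ ⋃ k, Y k = X) ∧
      ∀ (F : Type v) [NormedAddCommGroup F] [InnerProductSpace ℝ F], IsEmpty (X ≃ₜ F) :=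
  Pool.Agent.P.MP_5aae23_gt.Nsh.main
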