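import Mathlib
import Pool.Agent.P.MP_5aae23_gt.CTop

/-! An F-sigma linear subspace `X` of `c₀` such that `c₀` is finitely representable in every real
normed space with a convex subset homeomorphic to `X`. -/

namespace Pool.Agent.P.MP_5aae23_gt.VariantFSigmaConvex

universe v

theorem result : ∃ X : Submodule ℝ (ZeroAtInftyContinuousMap ℕ ℝ),
    (∃ Y : ℕ → Set (ZeroAtInftyContinuousMap ℕ ℝ), (∀ k, IsClosed (Y k)) ∧ ⋃ k, Y k = X) ∧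
    ∀ (F : Type v) [NormedAddCommGroup F] [NormedSpace ℝ F] (C : Set F), Convex ℝ C →
      Nonempty (X ≃ₜ C) → ∀ ε : ℝ, 0 < ε → ∀ N : ℕ, ∃ e : Fin N → F, ∀ a : Fin N → ℝ,
        ‖a‖ ≤ ‖∑ j, a j • e j‖ ∧ ‖∑ j, a j • e j‖ ≤ (1 + ε) * ‖a‖ :=
  Pool.Agent.P.MP_5aae23_gt.Nsh.main_convex

/-- The case of convex subsets of inner product spaces. -/
theorem inner_convex_case : ∃ X : Submodule ℝ (ZeroAtInftyContinuousMap ℕ ℝ),
    (∃ Y : ℕ → Set (ZeroAtInftyContinuousMap ℕ ℝ), (∀ k, IsClosed (Y k)) ∧ ⋃ k, Y k = X) ∧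
    ∀ (F : Type v) [NormedAddCommGroup F] [InnerProductSpace ℝ F] (C : Set F), Convex ℝ C →
      IsEmpty (X ≃ₜ C) := by
  obtain ⟨X, h1, h2⟩ := result.{v}
  refine ⟨X, h1, fun F _ _ C hC => ⟨fun h => ?_⟩⟩
  obtain ⟨e, he⟩ := h2 F C hC ⟨h⟩ (1 / 4) (by norm_num) 2
  exact Pool.Agent.P.MP_5aae23_gt.Nsh.not_inner e he

/-- The case of inner product spaces. -/
theorem inner_case : ∃ X : Submodule ℝ (ZeroAtInftyContinuousMap ℕ ℝ),
    (∃ Y : ℕ → Set (ZeroAtInftyContinuousMap ℕ ℝ), (∀ k, IsClosed (Y k)) ∧ ⋃ k, Y k = X) ∧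
    ∀ (F : Type v) [NormedAddCommGroup F] [InnerProductSpace ℝ F], IsEmpty (X ≃ₜ F) := by
  obtain ⟨X, h1, h2⟩ := inner_convex_case.{v}
  exact ⟨X, h1, fun F _ _ => ⟨fun h =>
    (h2 F Set.univ convex_univ).false (h.trans (Homeomorph.Set.univ F).symm)⟩⟩

end Pool.Agent.P.MP_5aae23_gt.VariantFSigmaConvex
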