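import Pool.Agent.P.MP_5aae23_gt.NL
import Pool.Agent.P.MP_5aae23_gt.NS
import Pool.Agent.P.MP_5aae23_gt.NT

/-! An F-sigma linear subspace `X` of `c₀` such that `c₀` is finitely representable in every real
normed space homeomorphic to `X`. -/

namespace Pool.Agent.P.MP_5aae23_gt.VariantFSigmaCube

universe v

theorem result : ∃ X : Submodule ℝ (ZeroAtInftyContinuousMap ℕ ℝ),
    (∃ Y : ℕ → Set (ZeroAtInftyContinuousMap ℕ ℝ), (∀ k, IsClosed (Y k)) ∧ ⋃ k, Y k = X) ∧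
    ∀ (F : Type v) [NormedAddCommGroup F] [NormedSpace ℝ F], Nonempty (X ≃ₜ F) →
      ∀ ε : ℝ, 0 < ε → ∀ N : ℕ, ∃ e : Fin N → F, ∀ a : Fin N → ℝ,
        ‖a‖ ≤ ‖∑ j, a j • e j‖ ∧ ‖∑ j, a j • e j‖ ≤ (1 + ε) * ‖a‖ := by
  obtain ⟨d, hd⟩ := Pool.Agent.P.MP_5aae23_gt.Nsh.exists_dfam
  refine ⟨Pool.Agent.P.MP_5aae23_gt.Nsh.XX d, Pool.Agent.P.MP_5aae23_gt.Nsh.xx_fsigma hd,
    fun F _ _ ⟨h⟩ ε hε N => ?_⟩
  obtain ⟨A⟩ := Pool.Agent.P.MP_5aae23_gt.Nsh.asy_of hd h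
  obtain ⟨C, hC⟩ := A.fin
  exact Pool.Agent.P.MP_5aae23_gt.Nsh.almost_iso hC hε N

/-- The case of inner product spaces. -/
theorem inner_case : ∃ X : Submodule ℝ (ZeroAtInftyContinuousMap ℕ ℝ),
    (∃ Y : ℕ → Set (ZeroAtInftyContinuousMap ℕ ℝ), (∀ k, IsClosed (Y k)) ∧ ⋃ k, Y k = X) ∧
    ∀ (F : Type v) [NormedAddCommGroup F] [InnerProductSpace ℝ F], IsEmpty (X ≃ₜ F) := by
  obtain ⟨X, h1, h2⟩ := result.{v}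
  refine ⟨X, h1, fun F _ _ => ⟨fun h => ?_⟩⟩
  obtain ⟨e, he⟩ := h2 F ⟨h⟩ (1 / 4) (by norm_num) 2
  exact Pool.Agent.P.MP_5aae23_gt.Nsh.not_inner e he

end Pool.Agent.P.MP_5aae23_gt.VariantFSigmaCube
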